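import Pool.Agent.NOne.BLoc

/-!
# MP_74f563_an, n = 1, file BFlow: the flow of an analytic vector field is analytic

PROOF.  Fix `z₀` and let `S = {t | AnalyticAt ℝ (fun p => Φ p.1 p.2) (t, z₀)}`.  `0 ∈ S`
(`flow_analytic_zero`).  `S` is open (`isOpen_analyticAt`).  `S` is closed: let `t` be in the closure.
By `flow_analytic_zero` at `z₁ = Φ t z₀` and openness there is `δ > 0` such that `Φ` is analytic at
`(τ, z)` whenever `|τ| < δ`, `‖z - z₁‖ < δ`.  Choose `t' ∈ S` with `|t - t'| < δ` and `‖Φ t' z₀ - z₁‖ < δ`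
(`t ↦ Φ t z₀` is continuous).  By `flow_add`, `Φ s z = Φ (s - t') (Φ t' z)` for all `s, z`; the map
`z ↦ Φ t' z` is analytic at `z₀` (`t' ∈ S`), `Φ` is analytic at `(t - t', Φ t' z₀)`; so `Φ` is analytic at
`(t, z₀)` (composition).  As `ℝ` is connected `S = ℝ` (`IsClopen.eq_univ`).
-/

set_option autoImplicit false

namespace Pool.Agent.NOne

open Set

theorem flow_analytic {E : Type} [NormedAddCommGroup E] [NormedSpace ℝ E] [FiniteDimensional ℝ E]
    (F : E → E) (hF : AnalyticOnNhd ℝ F univ) (Φ : ℝ → E → E) (h0 : ∀ z, Φ 0 z = z)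
    (hd : ∀ z t, HasDerivAt (fun t => Φ t z) (F (Φ t z)) t) :
    AnalyticOnNhd ℝ (fun p : ℝ × E => Φ p.1 p.2) univ := by
  have key : ∀ z₀ : E, {t : ℝ | AnalyticAt ℝ (fun p : ℝ × E => Φ p.1 p.2) (t, z₀)} = univ := by
    intro z₀
    refine IsClopen.eq_univ ⟨?_, ?_⟩ ⟨0, flow_analytic_zero hF h0 hd z₀⟩
    · refine isClosed_of_closure_subset fun t ht => ?_
      have h1 : AnalyticAt ℝ (fun p : ℝ × E => Φ p.1 p.2) (0, Φ t z₀) :=
        flow_analytic_zero hF h0 hd (Φ t z₀)
      have h2 := h1.eventually_analyticAt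
      have hc : ContinuousAt (fun t' : ℝ => (t - t', Φ t' z₀)) t :=
        (continuousAt_const.sub continuousAt_id).prodMk (hd z₀ t).continuousAt
      have h3 : ∀ᶠ t' in nhds t,
          AnalyticAt ℝ (fun p : ℝ × E => Φ p.1 p.2) (t - t', Φ t' z₀) := by
        refine hc.eventually ?_
        change ∀ᶠ y in nhds (t - t, Φ t z₀), AnalyticAt ℝ (fun p : ℝ × E => Φ p.1 p.2) y
        rw [sub_self]
        exact h2
      obtain ⟨t', ht', h4⟩ := ((mem_closure_iff_frequently.1 ht).and_eventually h3).exists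
      have h5 : (fun p : ℝ × E => Φ p.1 p.2) =
          (fun p : ℝ × E => Φ p.1 p.2) ∘ fun p : ℝ × E => (p.1 - t', Φ t' p.2) := by
        funext p
        have h6 := flow_add hF h0 hd t' (p.1 - t') p.2
        rw [add_sub_cancel] at h6
        exact h6
      change AnalyticAt ℝ (fun p : ℝ × E => Φ p.1 p.2) (t, z₀)
      rw [h5]
      refine AnalyticAt.comp_of_eq h4 ?_ rfl
      refine (analyticAt_fst.sub analyticAt_const).prod ?_
      exact AnalyticAt.comp_of_eq (g := fun p : ℝ × E => Φ p.1 p.2)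
        (f := fun p : ℝ × E => (t', p.2)) ht' (analyticAt_const.prod analyticAt_snd) rfl
    · have h1 : IsOpen {p : ℝ × E | AnalyticAt ℝ (fun p : ℝ × E => Φ p.1 p.2) p} :=
        isOpen_analyticAt ℝ _
      exact h1.preimage (Continuous.prodMk_left z₀)
  rintro ⟨t, z₀⟩ -
  have h : t ∈ {t : ℝ | AnalyticAt ℝ (fun p : ℝ × E => Φ p.1 p.2) (t, z₀)} := by
    rw [key z₀]
    exact mem_univ t
  exact h

end Pool.Agent.NOne
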