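import Pool.Agent.NOne.KDefs

/-!
# MP_74f563_an, n = 1, file KSeq: sequences of approximate solutions, the limit object (definitions)
-/

set_option autoImplicit false

namespace Pool.Agent.NOne

open Complex Set MeasureTheory Filter Topology
open scoped ContDiff

/-- a sequence of approximate solutions produced by the Newton scheme -/
structure NSeq (r σ M : ℝ) (lam : ℂ → ℂ → ℂ) (X : ℕ → ℂ → ℂ → ℂ) (b δ s ε e : ℕ → ℝ) : Prop where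
  zero : X 0 = fun θ _ => θ
  par : ∀ n, Par σ M r (b n) (δ n) (s n)
  st : ∀ n, St r lam (X n) (b n) (δ n) (s n)
  err : ∀ n, Bd (δ n) (s n) (ε n) (Er r lam (X n))
  hol : ∀ n, Hol (2 * δ (n + 1)) (2 * s (n + 1)) fun θ t => X (n + 1) θ t - X n θ t
  bd : ∀ n, Bd (2 * δ (n + 1)) (2 * s (n + 1)) (e n) fun θ t => X (n + 1) θ t - X n θ t
  jac : ∀ n, ∀ θ t : ℝ, |t| ≤ 1 / 4 → ‖Jf r lam (X n) θ t - ta r lam (X n) t‖ ≤ e n
  e_nonneg : ∀ n, 0 ≤ e n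
  sum : ∀ k : ℕ, Summable fun n => e n / min (2 * δ (n + 1)) (2 * s (n + 1)) ^ k
  lim : Tendsto ε atTop (𝓝 0)

/-- the limit function of an `NSeq`, with its partial derivatives `x₁`, `x₂` -/
structure NLim (X : ℕ → ℂ → ℂ → ℂ) (x x₁ x₂ : ℝ → ℝ → ℝ) : Prop where
  smooth : ContDiffOn ℝ ∞ (fun z : ℝ × ℝ => x z.1 z.2) {z | |z.2| < 1 / 4}
  per : ∀ θ t : ℝ, |t| < 1 / 4 → x (θ + 1) t = x θ t + 1
  der1 : ∀ θ t : ℝ, |t| < 1 / 4 → HasDerivAt (fun z => x z t) (x₁ θ t) θ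
  der2 : ∀ θ t : ℝ, |t| < 1 / 4 → HasDerivAt (fun z => x θ z) (x₂ θ t) t
  low : ∀ θ t : ℝ, |t| < 1 / 4 → 7 / 8 ≤ x₁ θ t
  up : ∀ θ t : ℝ, |t| < 1 / 4 → x₁ θ t ≤ 9 / 8
  lim0 : ∀ θ t : ℝ, |t| < 1 / 4 → Tendsto (fun n => X n θ t) atTop (𝓝 ((x θ t : ℝ) : ℂ))
  lim1 : ∀ θ t : ℝ, |t| < 1 / 4 → Tendsto (fun n => p1 (X n) θ t) atTop (𝓝 ((x₁ θ t : ℝ) : ℂ))
  lim2 : ∀ θ t : ℝ, |t| < 1 / 4 → Tendsto (fun n => p2 (X n) θ t) atTop (𝓝 ((x₂ θ t : ℝ) : ℂ))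

/-- the result of Theorem C: a smooth family of solutions of the discrete Euler-Lagrange equation
for `S = gS B`, with rotation numbers `r (1 + t)`, with positive twist -/
structure LeafC (B : ℂ → ℂ → ℂ) (ρ r : ℝ) (x : ℝ → ℝ → ℝ) : Prop where
  smooth : ContDiffOn ℝ ∞ (fun z : ℝ × ℝ => x z.1 z.2) {z | |z.2| < 1 / 4}
  per : ∀ θ t : ℝ, |t| < 1 / 4 → x (θ + 1) t = x θ t + 1
  mono : ∀ θ t : ℝ, |t| < 1 / 4 → 0 < deriv (fun z => x z t) θ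
  inc : ∀ θ t : ℝ, |t| < 1 / 4 → 0 < x (θ + r * (1 + t)) t - x θ t ∧
    x (θ + r * (1 + t)) t - x θ t < ρ
  el : ∀ θ t : ℝ, |t| < 1 / 4 → deriv (fun Y => gS B (x (θ - r * (1 + t)) t) Y) (x θ t) +
    deriv (fun y => gS B y (x (θ + r * (1 + t)) t)) (x θ t) = 0
  twist : ∀ θ t : ℝ, |t| < 1 / 4 →
    0 < deriv (fun τ => deriv (fun Y => gS B (x (θ - r * (1 + τ)) τ) Y) (x θ τ)) t *
        deriv (fun z => x z t) θ -
      deriv (fun z => deriv (fun Y => gS B (x (z - r * (1 + t)) t) Y) (x z t)) θ *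
        deriv (fun τ => x θ τ) t

end Pool.Agent.NOne
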