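import Pool.Agent.NOne.KDom
import Pool.Agent.MEP.SCV

/-!
# MP_74f563_an, n = 1, file KHol: calculus of the holomorphic functions on `Om δ s`

PROOFS.  `Hol δ s F` says that `q ↦ F q.1 q.2` is complex differentiable on the open set `Om δ s`
(`isOpen_Om`), so the closure properties are those of `DifferentiableOn`.  `hasFDerivAt`: the
derivative `A` of `q ↦ F q.1 q.2` at `(θ, t)` exists; `A (1, 0) = p1 F θ t`, `A (0, 1) = p2 F θ t`
by the chain rule for `z ↦ (z, t)` and `z ↦ (θ, z)`, which gives also `hasDerivAt1/2`.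

`Hol.hol_p1`: near a point `(θ₀, t₀)` of `Om δ s` choose `R > 0` with
`closedBall θ₀ (2R) ×ˢ closedBall t₀ (2R) ⊆ Om δ s`.  For `|θ - θ₀| < R`, `|t - t₀| < R`
Cauchy's formula gives `p1 F θ t = (2πi)⁻¹ ∮_{|ζ| = R} ζ⁻² F(θ + ζ, t) dζ`
(`DifferentiableOn.deriv_eq_smul_circleIntegral`), and the circle integral is a holomorphic function
of the parameter `(θ, t)`: `Pool.Agent.MEP.differentiableOn_circleIntegral_param` with
`g (ζ, (θ, t)) = ζ⁻¹ F(θ + ζ, t)`, `Q = {ζ ≠ 0, (θ + ζ, t) ∈ Om δ s}`, composed with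
`(θ, t) ↦ (0, (θ, t))`.  The same for `p2`.  (Prove `hol_p_general` first, the rest of the section
is a special case of it.)

`hol_contDiffOn`: by induction on `n` all functions which are differentiable on `V` are `C^n` on
`V`: the derivative is `p1 F • fst + p2 F • snd` with `p1 F`, `p2 F` differentiable on `V`
(`contDiffOn_succ_iff_hasFDerivWithinAt` or `contDiffOn_succ_iff_fderiv_of_isOpen`), then
`contDiffOn_infty`.

`schwarz`: symmetric second derivatives.  Either by the two Cauchy formulas (the double circle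
integral is symmetric) or: `q ↦ F q.1 q.2` is `C²` over `ℝ` (its derivative is
`p1 F • fst + p2 F • snd` with `p1 F`, `p2 F` holomorphic, hence the derivative is again
differentiable with continuous derivative), and `ContDiffAt.isSymmSndFDerivAt` or
`second_derivative_symmetric_of_eventually` over `ℂ`/`ℝ` gives the claim.
-/

set_option autoImplicit false

namespace Pool.Agent.NOne

open Complex Set MeasureTheory
open scoped ComplexConjugate ContDiff

variable {δ s : ℝ} {F G : ℂ → ℂ → ℂ}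

section General

open Metric Filter Topology

variable {E : Type*} [NormedAddCommGroup E] [NormedSpace ℂ E] [FiniteDimensional ℂ E]

/-- directional derivatives of holomorphic functions are holomorphic -/
private theorem kh_dir {f : E → ℂ} {V : Set E} (hV : IsOpen V) (hf : DifferentiableOn ℂ f V)
    (v : E) : DifferentiableOn ℂ (fun x => fderiv ℂ f x v) V := by
  intro x0 hx0
  apply DifferentiableAt.differentiableWithinAt
  obtain ⟨r0, hr0, hball⟩ := Metric.isOpen_iff.mp hV x0 hx0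
  set r := r0 / 4 with hr
  have hrpos : 0 < r := by positivity
  set ρ := r / (‖v‖ + 1) with hρ
  have hρpos : 0 < ρ := by positivity
  have hρv : ρ * ‖v‖ ≤ r := by
    rw [hρ, div_mul_eq_mul_div, div_le_iff₀ (by positivity)]
    nlinarith [norm_nonneg v]
  have hK : closedBall x0 (2 * r) ⊆ V := by
    refine (closedBall_subset_ball ?_).trans hball
    rw [hr]; linarith
  have hmem : ∀ x ∈ ball x0 r, ∀ ζ ∈ closedBall (0 : ℂ) ρ, x + ζ • v ∈ V := by
    intro x hx ζ hζ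
    apply hK
    rw [mem_closedBall, dist_eq_norm]
    rw [mem_ball, dist_eq_norm] at hx
    rw [mem_closedBall_zero_iff] at hζ
    calc ‖x + ζ • v - x0‖ = ‖(x - x0) + ζ • v‖ := by congr 1; abel
      _ ≤ ‖x - x0‖ + ‖ζ • v‖ := norm_add_le _ _
      _ ≤ r + ρ * ‖v‖ := by
        rw [norm_smul]; gcongr
      _ ≤ 2 * r := by linarith
  have hformula : ∀ x ∈ ball x0 r, fderiv ℂ f x v =
      (2 * Real.pi * Complex.I : ℂ)⁻¹ * ∮ ζ in C(0, ρ), (ζ - 0)⁻¹ * (ζ⁻¹ * f (x + ζ • v)) := by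
    intro x hx
    have hd : DifferentiableOn ℂ (fun ζ : ℂ => f (x + ζ • v)) (closedBall 0 ρ) := by
      intro ζ hζ
      have h1 : DifferentiableAt ℂ f (x + ζ • v) :=
        (hf _ (hmem x hx ζ hζ)).differentiableAt (hV.mem_nhds (hmem x hx ζ hζ))
      have h2 : DifferentiableAt ℂ (fun ζ : ℂ => x + ζ • v) ζ := by fun_prop
      exact (h1.comp ζ h2).differentiableWithinAt
    have hder : deriv (fun ζ : ℂ => f (x + ζ • v)) 0 = fderiv ℂ f x v := by
      have h0 : x + (0 : ℂ) • v = x := by simp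
      have h1 : HasFDerivAt f (fderiv ℂ f x) (x + (0 : ℂ) • v) := by
        rw [h0]
        have : x ∈ V := by simpa using hmem x hx 0 (by simp [hρpos.le])
        exact ((hf x this).differentiableAt (hV.mem_nhds this)).hasFDerivAt
      have h2 : HasDerivAt (fun ζ : ℂ => x + ζ • v) v 0 := by
        simpa using ((hasDerivAt_id (0 : ℂ)).smul_const v).const_add x
      exact (h1.comp_hasDerivAt (0 : ℂ) h2).deriv
    have h3 := hd.deriv_eq_smul_circleIntegral hρpos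
    rw [hder] at h3
    have h4 : (∮ ζ in C(0, ρ), (ζ - 0)⁻¹ * (ζ⁻¹ * f (x + ζ • v))) =
        ∮ z in C(0, ρ), (1 / (z - 0) ^ 2) • f (x + z • v) := by
      congr 1
      funext ζ
      rw [smul_eq_mul, one_div, sub_zero, pow_two, mul_inv, mul_assoc]
    rw [h4, h3, smul_eq_mul, inv_mul_cancel_left₀]
    simp [Real.pi_ne_zero]
  have hev : (fun x => fderiv ℂ f x v) =ᶠ[𝓝 x0] fun x =>
      (2 * Real.pi * Complex.I : ℂ)⁻¹ * ∮ ζ in C(0, ρ), (ζ - 0)⁻¹ * (ζ⁻¹ * f (x + ζ • v)) := by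
    filter_upwards [ball_mem_nhds x0 hrpos] with x hx using hformula x hx
  refine DifferentiableAt.congr_of_eventuallyEq ?_ hev
  apply DifferentiableAt.const_mul
  let g : ℂ × E → ℂ := fun w => w.1⁻¹ * f (w.2 + w.1 • v)
  let Q : Set (ℂ × E) := {w | w.1 ≠ 0} ∩ (fun w : ℂ × E => w.2 + w.1 • v) ⁻¹' V
  have hQ : IsOpen Q := by
    refine IsOpen.inter ?_ (hV.preimage (by fun_prop))
    exact isOpen_ne_fun continuous_fst continuous_const
  have hg : DifferentiableOn ℂ g Q := by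
    intro w hw
    apply DifferentiableAt.differentiableWithinAt
    have h1 : DifferentiableAt ℂ f (w.2 + w.1 • v) :=
      (hf _ hw.2).differentiableAt (hV.mem_nhds hw.2)
    have h2 : DifferentiableAt ℂ (fun w : ℂ × E => w.2 + w.1 • v) w := by fun_prop
    have h3 : DifferentiableAt ℂ (fun w : ℂ × E => w.1⁻¹) w :=
      differentiableAt_fst.inv hw.1
    exact h3.mul (h1.comp w h2)
  have hsub : sphere (0 : ℂ) ρ ×ˢ ball x0 r ⊆ Q := by
    rintro w ⟨hw1, hw2⟩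
    refine ⟨?_, hmem _ hw2 _ (sphere_subset_closedBall hw1)⟩
    rw [mem_sphere_zero_iff_norm] at hw1
    intro h0
    rw [h0, norm_zero] at hw1
    exact hρpos.ne hw1
  have hmain := Pool.Agent.MEP.differentiableOn_circleIntegral_param hρpos
    (isOpen_ball (x := x0) (ε := r)) hQ hg hsub
  have hx : ((0 : ℂ), x0) ∈ ball (0 : ℂ) ρ ×ˢ ball x0 r :=
    ⟨mem_ball_self hρpos, mem_ball_self hrpos⟩
  have h1 := (hmain _ hx).differentiableAt ((isOpen_ball.prod isOpen_ball).mem_nhds hx)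
  have h2 : DifferentiableAt ℂ (fun x : E => ((0 : ℂ), x)) x0 := by fun_prop
  exact h1.comp x0 h2

/-- holomorphic functions are smooth -/
private theorem kh_smooth {V : Set E} (hV : IsOpen V) :
    ∀ (n : ℕ) {f : E → ℂ}, DifferentiableOn ℂ f V → ContDiffOn ℂ n f V
  | 0, f, hf => by
    rw [Nat.cast_zero, contDiffOn_zero]
    exact hf.continuousOn
  | n + 1, f, hf => by
    rw [Nat.cast_add, Nat.cast_one, contDiffOn_succ_iff_fderiv_of_isOpen hV]
    refine ⟨hf, fun h => absurd h (by simp), ?_⟩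
    rw [contDiffOn_clm_apply]
    intro v
    exact kh_smooth hV n (kh_dir hV hf v)

end General

private theorem kh_p1 {q : ℂ × ℂ} (h : DifferentiableAt ℂ (fun q : ℂ × ℂ => F q.1 q.2) q) :
    HasDerivAt (fun z => F z q.2) (fderiv ℂ (fun q : ℂ × ℂ => F q.1 q.2) q (1, 0)) q.1 := by
  have h1 : HasDerivAt (fun z : ℂ => (z, q.2)) ((1 : ℂ), (0 : ℂ)) q.1 :=
    (hasDerivAt_id q.1).prodMk (hasDerivAt_const q.1 q.2)
  exact HasFDerivAt.comp_hasDerivAt (f := fun z : ℂ => (z, q.2)) q.1 h.hasFDerivAt h1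

private theorem kh_p2 {q : ℂ × ℂ} (h : DifferentiableAt ℂ (fun q : ℂ × ℂ => F q.1 q.2) q) :
    HasDerivAt (fun z => F q.1 z) (fderiv ℂ (fun q : ℂ × ℂ => F q.1 q.2) q (0, 1)) q.2 := by
  have h1 : HasDerivAt (fun z : ℂ => (q.1, z)) ((0 : ℂ), (1 : ℂ)) q.2 :=
    (hasDerivAt_const q.2 q.1).prodMk (hasDerivAt_id q.2)
  exact HasFDerivAt.comp_hasDerivAt (f := fun z : ℂ => (q.1, z)) q.2 h.hasFDerivAt h1

private theorem kh_fd {q : ℂ × ℂ} (h : DifferentiableAt ℂ (fun q : ℂ × ℂ => F q.1 q.2) q) :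
    HasFDerivAt (fun q : ℂ × ℂ => F q.1 q.2)
      (p1 F q.1 q.2 • ContinuousLinearMap.fst ℂ ℂ ℂ +
        p2 F q.1 q.2 • ContinuousLinearMap.snd ℂ ℂ ℂ) q := by
  have h1 : p1 F q.1 q.2 = fderiv ℂ (fun q : ℂ × ℂ => F q.1 q.2) q (1, 0) := (kh_p1 h).deriv
  have h2 : p2 F q.1 q.2 = fderiv ℂ (fun q : ℂ × ℂ => F q.1 q.2) q (0, 1) := (kh_p2 h).deriv
  have h3 : p1 F q.1 q.2 • ContinuousLinearMap.fst ℂ ℂ ℂ +
      p2 F q.1 q.2 • ContinuousLinearMap.snd ℂ ℂ ℂ =
      fderiv ℂ (fun q : ℂ × ℂ => F q.1 q.2) q := by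
    rw [h1, h2]
    apply ContinuousLinearMap.ext
    intro w
    have h4 : w = w.1 • ((1 : ℂ), (0 : ℂ)) + w.2 • ((0 : ℂ), (1 : ℂ)) := by
      ext <;> simp
    conv_rhs => rw [h4, map_add, map_smul, map_smul]
    simp [mul_comm]
  rw [h3]
  exact h.hasFDerivAt

private theorem kh_general {V : Set (ℂ × ℂ)} (hV : IsOpen V)
    (hF : DifferentiableOn ℂ (fun q : ℂ × ℂ => F q.1 q.2) V) :
    DifferentiableOn ℂ (fun q : ℂ × ℂ => p1 F q.1 q.2) V ∧
    DifferentiableOn ℂ (fun q : ℂ × ℂ => p2 F q.1 q.2) V ∧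
    (∀ q ∈ V, HasFDerivAt (fun q : ℂ × ℂ => F q.1 q.2)
      (p1 F q.1 q.2 • ContinuousLinearMap.fst ℂ ℂ ℂ +
        p2 F q.1 q.2 • ContinuousLinearMap.snd ℂ ℂ ℂ) q) ∧
    ∀ q ∈ V, p1 (p2 F) q.1 q.2 = p2 (p1 F) q.1 q.2 := by
  have hd : ∀ q ∈ V, DifferentiableAt ℂ (fun q : ℂ × ℂ => F q.1 q.2) q := fun q hq =>
    (hF q hq).differentiableAt (hV.mem_nhds hq)
  have e1 : ∀ q ∈ V, p1 F q.1 q.2 = fderiv ℂ (fun q : ℂ × ℂ => F q.1 q.2) q (1, 0) :=
    fun q hq => (kh_p1 (hd q hq)).deriv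
  have e2 : ∀ q ∈ V, p2 F q.1 q.2 = fderiv ℂ (fun q : ℂ × ℂ => F q.1 q.2) q (0, 1) :=
    fun q hq => (kh_p2 (hd q hq)).deriv
  have d1 : DifferentiableOn ℂ (fun q : ℂ × ℂ => p1 F q.1 q.2) V :=
    (kh_dir hV hF (1, 0)).congr e1
  have d2 : DifferentiableOn ℂ (fun q : ℂ × ℂ => p2 F q.1 q.2) V :=
    (kh_dir hV hF (0, 1)).congr e2
  refine ⟨d1, d2, fun q hq => kh_fd (hd q hq), fun q hq => ?_⟩
  have hsm : ContDiffAt ℂ (2 : ℕ) (fun q : ℂ × ℂ => F q.1 q.2) q :=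
    (kh_smooth hV 2 hF).contDiffAt (hV.mem_nhds hq)
  have hsym : IsSymmSndFDerivAt ℂ (fun q : ℂ × ℂ => F q.1 q.2) q :=
    hsm.isSymmSndFDerivAt (by simp)
  have hdd : DifferentiableAt ℂ (fderiv ℂ (fun q : ℂ × ℂ => F q.1 q.2)) q := by
    have h2 := (contDiffOn_succ_iff_fderiv_of_isOpen (n := 1) hV).1
      (by simpa [one_add_one_eq_two] using kh_smooth hV 2 hF)
    exact (h2.2.2.differentiableOn one_ne_zero q hq).differentiableAt (hV.mem_nhds hq)
  have hap : ∀ v w : ℂ × ℂ,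
      fderiv ℂ (fun x => fderiv ℂ (fun q : ℂ × ℂ => F q.1 q.2) x v) q w =
        fderiv ℂ (fderiv ℂ (fun q : ℂ × ℂ => F q.1 q.2)) q w v := by
    intro v w
    have h1 : HasFDerivAt (fun x => fderiv ℂ (fun q : ℂ × ℂ => F q.1 q.2) x v)
        ((ContinuousLinearMap.apply ℂ ℂ v).comp
          (fderiv ℂ (fderiv ℂ (fun q : ℂ × ℂ => F q.1 q.2)) q)) q :=
      (ContinuousLinearMap.apply ℂ ℂ v).hasFDerivAt.comp q hdd.hasFDerivAt
    rw [h1.fderiv]
    rfl
  have h12 : p1 (p2 F) q.1 q.2 = fderiv ℂ (fun q : ℂ × ℂ => p2 F q.1 q.2) q (1, 0) :=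
    (kh_p1 ((d2 q hq).differentiableAt (hV.mem_nhds hq))).deriv
  have h21 : p2 (p1 F) q.1 q.2 = fderiv ℂ (fun q : ℂ × ℂ => p1 F q.1 q.2) q (0, 1) :=
    (kh_p2 ((d1 q hq).differentiableAt (hV.mem_nhds hq))).deriv
  have ev1 : (fun q : ℂ × ℂ => p1 F q.1 q.2) =ᶠ[nhds q]
      fun x => fderiv ℂ (fun q : ℂ × ℂ => F q.1 q.2) x (1, 0) := by
    filter_upwards [hV.mem_nhds hq] with x hx using e1 x hx
  have ev2 : (fun q : ℂ × ℂ => p2 F q.1 q.2) =ᶠ[nhds q]
      fun x => fderiv ℂ (fun q : ℂ × ℂ => F q.1 q.2) x (0, 1) := by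
    filter_upwards [hV.mem_nhds hq] with x hx using e2 x hx
  rw [h12, h21, ev1.fderiv_eq, ev2.fderiv_eq, hap, hap]
  exact hsym _ _

theorem Hol.mono {δ' s' : ℝ} (h : Hol δ s F) (hδ : δ' ≤ δ) (hs : s' ≤ s) : Hol δ' s' F := by
  exact DifferentiableOn.mono h (Om_mono hδ hs)

theorem Bd.mono {c δ' s' c' : ℝ} (h : Bd δ s c F) (hδ : δ' ≤ δ) (hs : s' ≤ s) (hc : c ≤ c') :
    Bd δ' s' c' F := by
  intro θ t hθ ht
  exact (h θ t (hθ.trans_le hδ) (UU_mono hs ht)).trans hc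

theorem hol_const (c : ℂ) : Hol δ s fun _ _ => c := by
  exact differentiableOn_const c

theorem hol_fst : Hol δ s fun θ _ => θ := by
  exact differentiable_fst.differentiableOn

theorem hol_snd : Hol δ s fun _ t => t := by
  exact differentiable_snd.differentiableOn

/-- functions of `t` only -/
theorem hol_of_UU {g : ℂ → ℂ} (hg : DifferentiableOn ℂ g (UU s)) : Hol δ s fun _ t => g t := by
  exact hg.comp differentiable_snd.differentiableOn fun q hq => hq.2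

/-- functions of `θ` only -/
theorem hol_of_strip {g : ℂ → ℂ} (hg : DifferentiableOn ℂ g {z | |z.im| < δ}) :
    Hol δ s fun θ _ => g θ := by
  exact hg.comp differentiable_fst.differentiableOn fun q hq => hq.1

theorem Hol.add (hF : Hol δ s F) (hG : Hol δ s G) : Hol δ s fun θ t => F θ t + G θ t := by
  exact DifferentiableOn.add hF hG

theorem Hol.sub (hF : Hol δ s F) (hG : Hol δ s G) : Hol δ s fun θ t => F θ t - G θ t := by
  exact DifferentiableOn.sub hF hG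

theorem Hol.neg (hF : Hol δ s F) : Hol δ s fun θ t => -F θ t := by
  exact DifferentiableOn.neg hF

theorem Hol.mul (hF : Hol δ s F) (hG : Hol δ s G) : Hol δ s fun θ t => F θ t * G θ t := by
  exact DifferentiableOn.mul hF hG

theorem Hol.div (hF : Hol δ s F) (hG : Hol δ s G)
    (h0 : ∀ θ t : ℂ, |θ.im| < δ → t ∈ UU s → G θ t ≠ 0) : Hol δ s fun θ t => F θ t / G θ t := by
  intro q hq
  have h1 : DifferentiableWithinAt ℂ (fun q : ℂ × ℂ => F q.1 q.2) (Om δ s) q := hF q hq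
  have h2 : DifferentiableWithinAt ℂ (fun q : ℂ × ℂ => G q.1 q.2) (Om δ s) q := hG q hq
  have h3 : DifferentiableWithinAt ℂ (fun q : ℂ × ℂ => (G q.1 q.2)⁻¹) (Om δ s) q :=
    h2.inv (h0 q.1 q.2 hq.1 hq.2)
  have h4 := h1.mul h3
  exact h4.congr (fun x _ => div_eq_mul_inv _ _) (div_eq_mul_inv _ _)

theorem Hol.sum {ι : Type*} {S : Finset ι} {f : ι → ℂ → ℂ → ℂ} (h : ∀ i ∈ S, Hol δ s (f i)) :
    Hol δ s fun θ t => ∑ i ∈ S, f i θ t := by
  exact DifferentiableOn.fun_sum h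

/-- equality on the domain suffices -/
theorem Hol.congr (hF : Hol δ s F) (h : ∀ θ t : ℂ, |θ.im| < δ → t ∈ UU s → G θ t = F θ t) :
    Hol δ s G := by
  exact DifferentiableOn.congr hF fun q hq => h q.1 q.2 hq.1 hq.2

theorem Hol.hasFDerivAt (hF : Hol δ s F) {θ t : ℂ} (hθ : |θ.im| < δ) (ht : t ∈ UU s) :
    HasFDerivAt (fun q : ℂ × ℂ => F q.1 q.2)
      (p1 F θ t • ContinuousLinearMap.fst ℂ ℂ ℂ + p2 F θ t • ContinuousLinearMap.snd ℂ ℂ ℂ)
      (θ, t) := by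
  exact (kh_general (isOpen_Om δ s) hF).2.2.1 (θ, t) ⟨hθ, ht⟩

theorem Hol.hasDerivAt1 (hF : Hol δ s F) {θ t : ℂ} (hθ : |θ.im| < δ) (ht : t ∈ UU s) :
    HasDerivAt (fun z => F z t) (p1 F θ t) θ := by
  have h : DifferentiableAt ℂ (fun q : ℂ × ℂ => F q.1 q.2) (θ, t) :=
    (hF.hasFDerivAt hθ ht).differentiableAt
  exact (kh_p1 h).differentiableAt.hasDerivAt

theorem Hol.hasDerivAt2 (hF : Hol δ s F) {θ t : ℂ} (hθ : |θ.im| < δ) (ht : t ∈ UU s) :
    HasDerivAt (fun z => F θ z) (p2 F θ t) t := by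
  have h : DifferentiableAt ℂ (fun q : ℂ × ℂ => F q.1 q.2) (θ, t) :=
    (hF.hasFDerivAt hθ ht).differentiableAt
  exact (kh_p2 h).differentiableAt.hasDerivAt

theorem Hol.slice1 (hF : Hol δ s F) {t : ℂ} (ht : t ∈ UU s) :
    DifferentiableOn ℂ (fun z => F z t) {z | |z.im| < δ} := by
  intro z hz
  exact (hF.hasDerivAt1 hz ht).differentiableAt.differentiableWithinAt

theorem Hol.slice2 (hF : Hol δ s F) {θ : ℂ} (hθ : |θ.im| < δ) :
    DifferentiableOn ℂ (fun z => F θ z) (UU s) := by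
  intro z hz
  exact (hF.hasDerivAt2 hθ hz).differentiableAt.differentiableWithinAt

theorem Hol.hol_p1 (hF : Hol δ s F) : Hol δ s (p1 F) := by
  exact (kh_general (isOpen_Om δ s) hF).1

theorem Hol.hol_p2 (hF : Hol δ s F) : Hol δ s (p2 F) := by
  exact (kh_general (isOpen_Om δ s) hF).2.1

theorem Hol.schwarz (hF : Hol δ s F) {θ t : ℂ} (hθ : |θ.im| < δ) (ht : t ∈ UU s) :
    p1 (p2 F) θ t = p2 (p1 F) θ t := by
  exact (kh_general (isOpen_Om δ s) hF).2.2.2 (θ, t) ⟨hθ, ht⟩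

/-- the same for the domain of the Lagrangian -/
theorem hol_p_general {V : Set (ℂ × ℂ)} (hV : IsOpen V)
    (hF : DifferentiableOn ℂ (fun q : ℂ × ℂ => F q.1 q.2) V) :
    DifferentiableOn ℂ (fun q : ℂ × ℂ => p1 F q.1 q.2) V ∧
    DifferentiableOn ℂ (fun q : ℂ × ℂ => p2 F q.1 q.2) V ∧
    (∀ q ∈ V, HasFDerivAt (fun q : ℂ × ℂ => F q.1 q.2)
      (p1 F q.1 q.2 • ContinuousLinearMap.fst ℂ ℂ ℂ +
        p2 F q.1 q.2 • ContinuousLinearMap.snd ℂ ℂ ℂ) q) ∧
    ∀ q ∈ V, p1 (p2 F) q.1 q.2 = p2 (p1 F) q.1 q.2 := by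
  exact kh_general hV hF

/-- holomorphic functions of two variables are smooth -/
theorem hol_contDiffOn {V : Set (ℂ × ℂ)} (hV : IsOpen V)
    (hF : DifferentiableOn ℂ (fun q : ℂ × ℂ => F q.1 q.2) V) :
    ContDiffOn ℂ ∞ (fun q : ℂ × ℂ => F q.1 q.2) V := by
  rw [contDiffOn_infty]
  exact fun n => kh_smooth hV n hF

end Pool.Agent.NOne
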