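import Mathlib

/-!
# MP_74f563_an, one degree of freedom: the KAM step near a rational leaf, definitions

`K` files: Theorem C.  A generating function `S(x, X) = (X - x)² B(x, X - x)` with `B(x, 0) = 1`,
holomorphic in a complex neighbourhood, such that every rational rotation number near `0` has a
minimal periodic configuration through every point (`HZ`), is `C^∞` integrable near `0`.

The functions of the proof are functions `F : ℂ → ℂ → ℂ` of an angle `θ` and a parameter `t`; the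
rotation number is `ρ = r (1 + t)`.
-/

set_option autoImplicit false

namespace Pool.Agent.NOne

open Complex Set MeasureTheory
open scoped ComplexConjugate

/-! ## Domains, holomorphic functions -/

/-- the domain of the parameter `t` : a neighbourhood of `[-1/4, 1/4]` -/
def UU (s : ℝ) : Set ℂ := {t | |t.re| < 1 / 4 + s ∧ |t.im| < s}

/-- the domain of the pairs `(θ, t)` -/
def Om (δ s : ℝ) : Set (ℂ × ℂ) := {q | |q.1.im| < δ ∧ q.2 ∈ UU s}

/-- `F` is holomorphic on `Om δ s` -/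
def Hol (δ s : ℝ) (F : ℂ → ℂ → ℂ) : Prop :=
  DifferentiableOn ℂ (fun q : ℂ × ℂ => F q.1 q.2) (Om δ s)

/-- `F` is bounded by `c` on `Om δ s` -/
def Bd (δ s c : ℝ) (F : ℂ → ℂ → ℂ) : Prop :=
  ∀ θ t : ℂ, |θ.im| < δ → t ∈ UU s → ‖F θ t‖ ≤ c

/-- `F` is periodic in `θ` -/
def Per (F : ℂ → ℂ → ℂ) : Prop := ∀ θ t : ℂ, F (θ + 1) t = F θ t

/-- `F` is real at real points (reflection symmetry) -/
def RSym (F : ℂ → ℂ → ℂ) : Prop := ∀ θ t : ℂ, F (conj θ) (conj t) = conj (F θ t)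

/-- the partial derivative with respect to the first variable -/
noncomputable def p1 (F : ℂ → ℂ → ℂ) : ℂ → ℂ → ℂ := fun θ t => deriv (fun z => F z t) θ

/-- the partial derivative with respect to the second variable -/
noncomputable def p2 (F : ℂ → ℂ → ℂ) : ℂ → ℂ → ℂ := fun θ t => deriv (fun z => F θ z) t

/-- the shift `F⁺` of `F` -/
def sh (r : ℝ) (F : ℂ → ℂ → ℂ) : ℂ → ℂ → ℂ := fun θ t => F (θ + r * (1 + t)) t

/-- the shift `F⁻` of `F` -/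
def sm (r : ℝ) (F : ℂ → ℂ → ℂ) : ℂ → ℂ → ℂ := fun θ t => F (θ - r * (1 + t)) t

/-- the difference quotient `D F = (F⁺ - F) / r` -/
noncomputable def DD (r : ℝ) (F : ℂ → ℂ → ℂ) : ℂ → ℂ → ℂ :=
  fun θ t => (F (θ + r * (1 + t)) t - F θ t) / r

/-- the mean over `θ` -/
noncomputable def avg (F : ℂ → ℂ → ℂ) : ℂ → ℂ := fun t => ∫ x in (0 : ℝ)..1, F x t

/-- the Fourier coefficients with respect to `θ` -/
noncomputable def cf (l : ℤ) (F : ℂ → ℂ → ℂ) : ℂ → ℂ :=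
  fun t => ∫ x in (0 : ℝ)..1, F x t * exp (-(2 * Real.pi * I * l * x))

/-- the small divisors of the operator `D` -/
noncomputable def dl (r : ℝ) (l : ℤ) (t : ℂ) : ℂ :=
  (exp (2 * Real.pi * I * l * (r * (1 + t))) - 1) / r

/-! ## The Lagrangian `lam`

`lam x η = η² B(x, r η)`, so that `lam x η = S(x, x + r η) / r²`. -/

/-- the domain of `lam` and its derivatives -/
def RR (σ : ℝ) : Set (ℂ × ℂ) := {q | |q.1.im| < σ / 2 ∧ ‖q.2‖ < 4}

/-- `G` is holomorphic on `RR σ` -/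
def HolR (σ : ℝ) (G : ℂ → ℂ → ℂ) : Prop :=
  DifferentiableOn ℂ (fun q : ℂ × ℂ => G q.1 q.2) (RR σ)

/-- the assumptions on the Lagrangian -/
structure LD (σ M r : ℝ) (lam : ℂ → ℂ → ℂ) : Prop where
  hol : DifferentiableOn ℂ (fun q : ℂ × ℂ => lam q.1 q.2) {q | |q.1.im| < σ ∧ ‖q.2‖ < 5}
  near : ∀ x η : ℂ, |x.im| < σ → ‖η‖ < 5 → ‖lam x η - η ^ 2‖ ≤ M * r
  per : Per lam
  real : RSym lam

/-- the composition `G(X, D X)` -/
noncomputable def cmp (r : ℝ) (G X : ℂ → ℂ → ℂ) : ℂ → ℂ → ℂ := fun θ t => G (X θ t) (DD r X θ t)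

/-- the Lagrangian along `X` -/
noncomputable def Sg (r : ℝ) (lam X : ℂ → ℂ → ℂ) : ℂ → ℂ → ℂ := cmp r lam X

/-- the momentum `∂ lam / ∂ η` along `X` (this is `P⁺`) -/
noncomputable def mo (r : ℝ) (lam X : ℂ → ℂ → ℂ) : ℂ → ℂ → ℂ := cmp r (p2 lam) X

/-- the momentum `P` -/
noncomputable def Pm (r : ℝ) (lam X : ℂ → ℂ → ℂ) : ℂ → ℂ → ℂ := sm r (mo r lam X)

/-- the error `E = lam_x(X, D X) - D P` in the discrete Euler-Lagrange equation -/
noncomputable def Er (r : ℝ) (lam X : ℂ → ℂ → ℂ) : ℂ → ℂ → ℂ :=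
  fun θ t => cmp r (p1 lam) X θ t - DD r (Pm r lam X) θ t

/-- the linearisation of `E` -/
noncomputable def Lin (r : ℝ) (lam X y : ℂ → ℂ → ℂ) : ℂ → ℂ → ℂ := fun θ t =>
  cmp r (p1 (p1 lam)) X θ t * y θ t + cmp r (p1 (p2 lam)) X θ t * DD r y θ t -
    DD r (sm r fun θ t => cmp r (p1 (p2 lam)) X θ t * y θ t +
      cmp r (p2 (p2 lam)) X θ t * DD r y θ t) θ t

/-- the coefficient `a` -/
noncomputable def af (r : ℝ) (lam X : ℂ → ℂ → ℂ) : ℂ → ℂ → ℂ := fun θ t =>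
  (cmp r (p2 (p2 lam)) X θ t - r * cmp r (p1 (p2 lam)) X θ t) * p1 X θ t * sh r (p1 X) θ t

/-- the quotient `u = X_t / X_θ` -/
noncomputable def uf (X : ℂ → ℂ → ℂ) : ℂ → ℂ → ℂ := fun θ t => p2 X θ t / p1 X θ t

/-- the Jacobian `J = P_t X_θ - P_θ X_t` -/
noncomputable def Jf (r : ℝ) (lam X : ℂ → ℂ → ℂ) : ℂ → ℂ → ℂ := fun θ t =>
  p2 (Pm r lam X) θ t * p1 X θ t - p1 (Pm r lam X) θ t * p2 X θ t

/-- the derivative of the mean action -/
noncomputable def ch (r : ℝ) (lam X : ℂ → ℂ → ℂ) : ℂ → ℂ := deriv (avg (Sg r lam X))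

/-- the second derivative of the mean action -/
noncomputable def ta (r : ℝ) (lam X : ℂ → ℂ → ℂ) : ℂ → ℂ := deriv (ch r lam X)

/-- the error `sig = E X_θ` of the conservation law -/
noncomputable def sg (r : ℝ) (lam X : ℂ → ℂ → ℂ) : ℂ → ℂ → ℂ :=
  fun θ t => Er r lam X θ t * p1 X θ t

/-- the error `Z` of the generating function `w` -/
noncomputable def Zf (r : ℝ) (lam X w : ℂ → ℂ → ℂ) : ℂ → ℂ → ℂ :=
  fun θ t => Sg r lam X θ t - avg (Sg r lam X) t - DD r w θ t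

/-- `H = w_θ + c - P X_θ` -/
noncomputable def Hf (r : ℝ) (lam X w : ℂ → ℂ → ℂ) : ℂ → ℂ → ℂ :=
  fun θ t => p1 w θ t + ch r lam X t - Pm r lam X θ t * p1 X θ t

/-- `K = w_t - P X_t` -/
noncomputable def Kf (r : ℝ) (lam X w : ℂ → ℂ → ℂ) : ℂ → ℂ → ℂ :=
  fun θ t => p2 w θ t - Pm r lam X θ t * p2 X θ t

/-- the correction, divided by `X_θ` -/
noncomputable def vf (r : ℝ) (lam X w : ℂ → ℂ → ℂ) : ℂ → ℂ → ℂ := fun θ t =>
  (Hf r lam X w θ t * uf X θ t - (Kf r lam X w θ t - avg (Kf r lam X w) t)) / ta r lam X t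

/-- the correction of the Newton step -/
noncomputable def yf (r : ℝ) (lam X w : ℂ → ℂ → ℂ) : ℂ → ℂ → ℂ := fun θ t =>
  (Hf r lam X w θ t * p2 X θ t - (Kf r lam X w θ t - avg (Kf r lam X w) t) * p1 X θ t) /
    ta r lam X t

/-! ## Parameters and approximate solutions -/

/-- conditions on the parameters -/
structure Par (σ M r b δ s : ℝ) : Prop where
  σ_pos : 0 < σ
  σ_le : σ ≤ 1
  M_ge : 1 ≤ M
  r_pos : 0 < r
  r_le : 64 * M * r ≤ σ ^ 2
  b_nonneg : 0 ≤ b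
  b_le : b ≤ σ / 8
  δ_pos : 0 < δ
  δ_le : δ ≤ σ / 8
  s_pos : 0 < s
  s_le : s ≤ 1 / 16
  rs : 65536 * (r * s) ≤ δ

/-- approximate solutions -/
structure St (r : ℝ) (lam X : ℂ → ℂ → ℂ) (b δ s : ℝ) : Prop where
  per : ∀ θ t : ℂ, X (θ + 1) t = X θ t + 1
  real : RSym X
  hol : Hol (2 * δ) (2 * s) X
  b0 : Bd (2 * δ) (2 * s) b fun θ t => X θ t - θ
  b1 : Bd (2 * δ) (2 * s) b fun θ t => p1 X θ t - 1
  b2 : Bd (2 * δ) (2 * s) b (p2 X)
  b11 : Bd (2 * δ) (2 * s) b (p1 (p1 X))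
  tau : ∀ t ∈ UU s, ‖ta r lam X t - 2‖ ≤ 1 / 2 + b

/-! ## The generating function -/

/-- the assumptions on `B` -/
structure BD (σ ρ M : ℝ) (B : ℂ → ℂ → ℂ) : Prop where
  σ_pos : 0 < σ
  ρ_pos : 0 < ρ
  hol : DifferentiableOn ℂ (fun q : ℂ × ℂ => B q.1 q.2) {q | |q.1.im| < σ ∧ ‖q.2‖ < ρ}
  bd : ∀ x w : ℂ, |x.im| < σ → ‖w‖ < ρ → ‖B x w‖ ≤ M
  one : ∀ x : ℂ, |x.im| < σ → B x 0 = 1
  per : Per B
  real : RSym B

/-- the generating function `S(x, X) = (X - x)² B(x, X - x)` at real points -/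
noncomputable def gS (B : ℂ → ℂ → ℂ) (x X : ℝ) : ℝ := (X - x) ^ 2 * (B x ((X - x : ℝ) : ℂ)).re

/-- the Lagrangian of `B` at the scale `r` -/
noncomputable def lB (r : ℝ) (B : ℂ → ℂ → ℂ) : ℂ → ℂ → ℂ := fun x η => η ^ 2 * B x (r * η)

/-- `HZ S c κ`: for all `k, m ≥ 1` with `m / k < κ` there is through every point a configuration of
type `(k, m)` with increments in `(0, c)`, which is minimal among all the configurations of type
`(k, m)` with increments in `(-c, c)` -/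
def HZ (S : ℝ → ℝ → ℝ) (c κ : ℝ) : Prop :=
  ∀ k m : ℕ, 0 < k → 0 < m → (m : ℝ) / k < κ → ∀ a : ℝ, ∃ y : ℕ → ℝ, y 0 = a ∧ y k = a + m ∧
    (∀ j < k, 0 < y (j + 1) - y j ∧ y (j + 1) - y j < c) ∧
    ∀ b : ℕ → ℝ, b k = b 0 + m → (∀ j < k, |b (j + 1) - b j| < c) →
      ∑ j ∈ Finset.range k, S (y j) (y (j + 1)) ≤ ∑ j ∈ Finset.range k, S (b j) (b (j + 1))

end Pool.Agent.NOne
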