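import Pool.Agent.NOne.KHol

/-!
# MP_74f563_an, n = 1, file KCau: Cauchy estimates

PROOFS.  `Bd.cauchy1`: for `|Im θ| < δ'`, `t ∈ UU s` the closed disc of radius `R = δ - δ'` around
`θ` is in the strip `|Im| < δ`, the function `z ↦ F z t` is holomorphic there (`Hol.slice1`) and
bounded by `c`, so `|p1 F θ t| ≤ c / R`
(`Complex.norm_deriv_le_of_forall_mem_sphere_norm_le`).  `Bd.cauchy2`: the same in the variable `t`,
the closed disc of radius `s - s'` around `t ∈ UU s'` is in `UU s` (`mem_UU_of_norm`).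
`cauchy_UU`: the same for a function of `t` only.

`taylor2`, `taylor1`: for every `R' < R` the power series of `φ` at `0` converges on the disc of
radius `R'` and its coefficients `a n` satisfy `|a n| ≤ M / R' ^ n`; let `R' → R`, so
`|a n| ≤ M / R ^ n`.  As `R ≥ 2 > 1`, `φ 1 = ∑ a n`, `φ 0 = a 0`, `deriv φ 0 = a 1`, and
`∑_{n ≥ 2} M / R ^ n = (M / R²) / (1 - 1 / R) ≤ 2 M / R²`, `∑_{n ≥ 1} M / R ^ n ≤ 2 M / R`.
(For `taylor1` one can also use the mean value inequality or Schwarz' lemma.)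

`taylor_G`: apply `taylor2` to `φ z = G (x + z y) (η + z ζ)`, which is holomorphic for `|z| < R` with
`R = σ / (8 e)`: there `|Im (x + z y)| < 3σ/8 + σ/8 = σ/2` and `‖η + z ζ‖ < 2 + σ / 8 < 4`, and
`R ≥ 2` since `16 e ≤ σ`; the derivative of `φ` at `0` is `p1 G x η * y + p2 G x η * ζ`
(`hol_p_general` and the chain rule).  If `e` were `0` one would divide by zero: this is excluded by
the hypothesis `0 < e`.
-/

set_option autoImplicit false

namespace Pool.Agent.NOne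

open Complex Set MeasureTheory
open scoped ComplexConjugate

variable {δ s c : ℝ} {F G : ℂ → ℂ → ℂ}

/-- the bound of the derivative by the maximum on the circle, open sets -/
private theorem kc_cauchy {U : Set ℂ} {g : ℂ → ℂ} {x : ℂ} {R : ℝ} (hR : 0 < R)
    (hg : DifferentiableOn ℂ g U) (hU : Metric.closedBall x R ⊆ U)
    (hb : ∀ z ∈ U, ‖g z‖ ≤ c) : ‖deriv g x‖ ≤ c / R :=
  Complex.norm_deriv_le_of_forall_mem_sphere_norm_le hR (hg.diffContOnCl_ball hU)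
    fun z hz => hb z (hU (Metric.sphere_subset_closedBall hz))

private theorem kc_im {z θ : ℂ} {R : ℝ} (hz : z ∈ Metric.closedBall θ R) :
    |z.im| ≤ |θ.im| + R := by
  rw [Metric.mem_closedBall, dist_eq_norm] at hz
  have h1 := abs_im_le_norm (z - θ)
  rw [sub_im] at h1
  have h2 : |z.im| ≤ |θ.im| + |z.im - θ.im| := by
    have h3 := abs_add_le θ.im (z.im - θ.im)
    rwa [add_sub_cancel] at h3
  linarith

theorem Bd.cauchy1 {δ' : ℝ} (hb : Bd δ s c F) (hF : Hol δ s F) (hδ : δ' < δ) :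
    Bd δ' s (c / (δ - δ')) (p1 F) := by
  intro θ t hθ ht
  refine kc_cauchy (sub_pos.2 hδ) (hF.slice1 ht) ?_ fun z hz => hb z t hz ht
  intro z hz
  have h1 := kc_im hz
  show |z.im| < δ
  linarith

private theorem kc_UU {s' : ℝ} {t : ℂ} (ht : t ∈ UU s') :
    Metric.closedBall t (s - s') ⊆ UU s := by
  intro z hz
  rw [Metric.mem_closedBall, dist_eq_norm] at hz
  refine mem_UU_of_norm (a := s - s') ?_ hz
  rwa [sub_sub_cancel]

theorem Bd.cauchy2 {s' : ℝ} (hb : Bd δ s c F) (hF : Hol δ s F) (hs : s' < s) :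
    Bd δ s' (c / (s - s')) (p2 F) := by
  intro θ t hθ ht
  exact kc_cauchy (sub_pos.2 hs) (hF.slice2 hθ) (kc_UU ht) fun z hz => hb θ z hθ hz

theorem cauchy_UU {s' : ℝ} {g : ℂ → ℂ} (hg : DifferentiableOn ℂ g (UU s))
    (hb : ∀ t ∈ UU s, ‖g t‖ ≤ c) (hs : s' < s) : ∀ t ∈ UU s', ‖deriv g t‖ ≤ c / (s - s') :=
  fun _ ht => kc_cauchy (sub_pos.2 hs) hg (kc_UU ht) hb

section Taylor

open Filter Topology

variable {φ : ℂ → ℂ} {R M : ℝ}

private theorem kc_sph {z : ℂ} (hR : 1 < R) (hz : z ∈ Metric.sphere (0 : ℂ) R) :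
    ‖z‖ = R ∧ z ≠ 0 ∧ z - 1 ≠ 0 ∧ R - 1 ≤ ‖z - 1‖ := by
  rw [mem_sphere_zero_iff_norm] at hz
  have h1 : R - 1 ≤ ‖z - 1‖ := by
    have := norm_sub_norm_le z 1
    rwa [hz, norm_one] at this
  refine ⟨hz, ?_, ?_, h1⟩
  · intro h
    rw [h, norm_zero] at hz
    linarith
  · intro h
    rw [h, norm_zero] at h1
    linarith

private theorem kc_int {g : ℂ → ℂ} (hR : 1 < R) (hg : ContinuousOn g (Metric.sphere 0 R)) :
    CircleIntegrable g 0 R := hg.circleIntegrable (by linarith)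

/-- the two remainders on a closed disc -/
private theorem kc_rem (hR : 1 < R) (hφ : DifferentiableOn ℂ φ (Metric.closedBall 0 R))
    (hM : ∀ z ∈ Metric.closedBall (0 : ℂ) R, ‖φ z‖ ≤ M) :
    ‖φ 1 - φ 0 - deriv φ 0‖ ≤ M / (R * (R - 1)) ∧ ‖φ 1 - φ 0‖ ≤ M / (R - 1) := by
  have hR0 : 0 < R := by linarith
  have hR1 : 0 < R - 1 := by linarith
  have hc : ContinuousOn φ (Metric.sphere 0 R) :=
    hφ.continuousOn.mono Metric.sphere_subset_closedBall
  have hcl : DiffContOnCl ℂ φ (Metric.ball 0 R) := hφ.diffContOnCl_ball le_rfl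
  have e1 := hcl.circleIntegral_sub_inv_smul (w := 1) (by simpa using hR)
  have e0 := hcl.circleIntegral_sub_inv_smul (w := 0) (by simpa using hR0)
  have e2 := hφ.deriv_eq_smul_circleIntegral hR0
  have i1 : CircleIntegrable (fun z => (z - 1)⁻¹ • φ z) 0 R := by
    have h1 : ContinuousOn (fun z : ℂ => z - 1) (Metric.sphere 0 R) := by fun_prop
    exact kc_int hR ((h1.inv₀ fun z hz => (kc_sph hR hz).2.2.1).smul hc)
  have i0 : CircleIntegrable (fun z => (z - 0)⁻¹ • φ z) 0 R := by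
    have h1 : ContinuousOn (fun z : ℂ => z - 0) (Metric.sphere 0 R) := by fun_prop
    refine kc_int hR ((h1.inv₀ fun z hz => ?_).smul hc)
    rw [sub_zero]
    exact (kc_sph hR hz).2.1
  have i2 : CircleIntegrable (fun z => (1 / (z - 0) ^ 2) • φ z) 0 R := by
    have h1 : ContinuousOn (fun z : ℂ => (z - 0) ^ 2) (Metric.sphere 0 R) := by fun_prop
    refine kc_int hR (((continuousOn_const (c := (1 : ℂ))).div h1 fun z hz => ?_).smul hc)
    rw [sub_zero]
    exact pow_ne_zero 2 (kc_sph hR hz).2.1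
  have hpi : (2 * Real.pi * I : ℂ) ≠ 0 := by simp [Real.pi_ne_zero]
  have f1 : (∮ z in C(0, R), ((z - 1)⁻¹ • φ z - (z - 0)⁻¹ • φ z)) =
      (2 * Real.pi * I : ℂ) • (φ 1 - φ 0) := by
    rw [circleIntegral.integral_sub i1 i0, e1, e0, smul_sub]
  have f2 : (∮ z in C(0, R), ((z - 1)⁻¹ • φ z - (z - 0)⁻¹ • φ z - (1 / (z - 0) ^ 2) • φ z)) =
      (2 * Real.pi * I : ℂ) • (φ 1 - φ 0 - deriv φ 0) := by
    have i3 : CircleIntegrable (fun z => (z - 1)⁻¹ • φ z - (z - 0)⁻¹ • φ z) 0 R := i1.sub i0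
    rw [circleIntegral.integral_sub i3 i2, f1, e2]
    simp only [smul_sub]
  have g1 : φ 1 - φ 0 = (2 * Real.pi * I : ℂ)⁻¹ •
      ∮ z in C(0, R), ((z - 1)⁻¹ • φ z - (z - 0)⁻¹ • φ z) := by
    rw [f1, inv_smul_smul₀ hpi]
  have g2 : φ 1 - φ 0 - deriv φ 0 = (2 * Real.pi * I : ℂ)⁻¹ •
      ∮ z in C(0, R), ((z - 1)⁻¹ • φ z - (z - 0)⁻¹ • φ z - (1 / (z - 0) ^ 2) • φ z) := by
    rw [f2, inv_smul_smul₀ hpi]
  have b1 : ∀ z ∈ Metric.sphere (0 : ℂ) R,
      ‖(z - 1)⁻¹ • φ z - (z - 0)⁻¹ • φ z‖ ≤ M / (R * (R - 1)) := by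
    intro z hz
    obtain ⟨h1, h2, h3, h4⟩ := kc_sph hR hz
    have e : (z - 1)⁻¹ • φ z - (z - 0)⁻¹ • φ z = φ z / (z * (z - 1)) := by
      rw [smul_eq_mul, smul_eq_mul, sub_zero]
      field_simp
      ring
    rw [e, norm_div, norm_mul, h1]
    have h5 := hM z (Metric.sphere_subset_closedBall hz)
    have hM0 : 0 ≤ M := (norm_nonneg _).trans h5
    gcongr
  have b2 : ∀ z ∈ Metric.sphere (0 : ℂ) R,
      ‖(z - 1)⁻¹ • φ z - (z - 0)⁻¹ • φ z - (1 / (z - 0) ^ 2) • φ z‖ ≤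
        M / (R ^ 2 * (R - 1)) := by
    intro z hz
    obtain ⟨h1, h2, h3, h4⟩ := kc_sph hR hz
    have e : (z - 1)⁻¹ • φ z - (z - 0)⁻¹ • φ z - (1 / (z - 0) ^ 2) • φ z =
        φ z / (z ^ 2 * (z - 1)) := by
      rw [smul_eq_mul, smul_eq_mul, smul_eq_mul, sub_zero]
      field_simp
      ring
    rw [e, norm_div, norm_mul, norm_pow, h1]
    have h5 := hM z (Metric.sphere_subset_closedBall hz)
    have hM0 : 0 ≤ M := (norm_nonneg _).trans h5
    gcongr
  constructor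
  · rw [g2]
    refine (circleIntegral.norm_two_pi_i_inv_smul_integral_le_of_norm_le_const hR0.le b2).trans
      (le_of_eq ?_)
    field_simp
  · rw [g1]
    refine (circleIntegral.norm_two_pi_i_inv_smul_integral_le_of_norm_le_const hR0.le b1).trans
      (le_of_eq ?_)
    field_simp

private theorem kc_lim (hR : 2 ≤ R) (hφ : DifferentiableOn ℂ φ (Metric.ball 0 R))
    (hM : ∀ z ∈ Metric.ball (0 : ℂ) R, ‖φ z‖ ≤ M) :
    ‖φ 1 - φ 0 - deriv φ 0‖ ≤ M / (R * (R - 1)) ∧ ‖φ 1 - φ 0‖ ≤ M / (R - 1) := by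
  have hR1 : R - 1 ≠ 0 := by linarith
  have hR0 : R ≠ 0 := by linarith
  have hev : ∀ᶠ R' in 𝓝[<] R, ‖φ 1 - φ 0 - deriv φ 0‖ ≤ M / (R' * (R' - 1)) ∧
      ‖φ 1 - φ 0‖ ≤ M / (R' - 1) := by
    filter_upwards [Ioo_mem_nhdsLT (show (1 : ℝ) < R by linarith)] with R' hR'
    have hsub : Metric.closedBall (0 : ℂ) R' ⊆ Metric.ball 0 R :=
      Metric.closedBall_subset_ball hR'.2
    exact kc_rem hR'.1 (hφ.mono hsub) fun z hz => hM z (hsub hz)
  have t1 : Tendsto (fun R' : ℝ => M / (R' * (R' - 1))) (𝓝[<] R) (𝓝 (M / (R * (R - 1)))) := by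
    refine Tendsto.mono_left ?_ nhdsWithin_le_nhds
    have : ContinuousAt (fun R' : ℝ => M / (R' * (R' - 1))) R :=
      ContinuousAt.div₀ continuousAt_const (by fun_prop) (mul_ne_zero hR0 hR1)
    exact this
  have t2 : Tendsto (fun R' : ℝ => M / (R' - 1)) (𝓝[<] R) (𝓝 (M / (R - 1))) := by
    refine Tendsto.mono_left ?_ nhdsWithin_le_nhds
    have : ContinuousAt (fun R' : ℝ => M / (R' - 1)) R :=
      ContinuousAt.div₀ continuousAt_const (by fun_prop) hR1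
    exact this
  exact ⟨ge_of_tendsto t1 (hev.mono fun _ h => h.1), ge_of_tendsto t2 (hev.mono fun _ h => h.2)⟩

end Taylor

theorem taylor2 {φ : ℂ → ℂ} {R M : ℝ} (hR : 2 ≤ R) (hφ : DifferentiableOn ℂ φ (Metric.ball 0 R))
    (hM : ∀ z ∈ Metric.ball (0 : ℂ) R, ‖φ z‖ ≤ M) : ‖φ 1 - φ 0 - deriv φ 0‖ ≤ 2 * M / R ^ 2 := by
  refine (kc_lim hR hφ hM).1.trans ?_
  have hM0 : 0 ≤ M := (norm_nonneg _).trans (hM 0 (by simpa using (by linarith : (0 : ℝ) < R)))
  have h1 : 0 < R - 1 := by linarith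
  have h2 : 0 < R := by linarith
  rw [div_le_div_iff₀ (by positivity) (by positivity)]
  have h3 : 0 ≤ M * (R * (R - 2)) := mul_nonneg hM0 (mul_nonneg h2.le (by linarith))
  nlinarith

theorem taylor1 {φ : ℂ → ℂ} {R M : ℝ} (hR : 2 ≤ R) (hφ : DifferentiableOn ℂ φ (Metric.ball 0 R))
    (hM : ∀ z ∈ Metric.ball (0 : ℂ) R, ‖φ z‖ ≤ M) : ‖φ 1 - φ 0‖ ≤ 2 * M / R := by
  refine (kc_lim hR hφ hM).2.trans ?_
  have hM0 : 0 ≤ M := (norm_nonneg _).trans (hM 0 (by simpa using (by linarith : (0 : ℝ) < R)))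
  have h1 : 0 < R - 1 := by linarith
  have h2 : 0 < R := by linarith
  rw [div_le_div_iff₀ h1 h2]
  have h3 : 0 ≤ M * (R - 2) := mul_nonneg hM0 (by linarith)
  nlinarith

private theorem isOpen_RR (σ : ℝ) : IsOpen (RR σ) := by
  have h1 : IsOpen {q : ℂ × ℂ | |q.1.im| < σ / 2} :=
    isOpen_lt ((continuous_im.comp continuous_fst).abs) continuous_const
  exact h1.inter (isOpen_lt continuous_snd.norm continuous_const)

theorem taylor_G {σ M e : ℝ} (hσ : 0 < σ) (hσ1 : σ ≤ 1) (hG : HolR σ G)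
    (hM : ∀ q ∈ RR σ, ‖G q.1 q.2‖ ≤ M) {x η y ζ : ℂ} (he : 0 < e) (he1 : 16 * e ≤ σ)
    (hx : |x.im| ≤ 3 * σ / 8) (hη : ‖η‖ ≤ 2) (hy : ‖y‖ ≤ e) (hζ : ‖ζ‖ ≤ e) :
    ‖G (x + y) (η + ζ) - G x η - (p1 G x η * y + p2 G x η * ζ)‖ ≤ 128 * M * e ^ 2 / σ ^ 2 ∧
      ‖G (x + y) (η + ζ) - G x η‖ ≤ 16 * M * e / σ := by
  set R : ℝ := σ / (8 * e) with hRdef
  have hR : 2 ≤ R := by
    rw [hRdef, le_div_iff₀ (by positivity)]
    linarith
  have hRe : R * e = σ / 8 := by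
    rw [hRdef]
    field_simp
  have hR0 : 0 < R := by linarith
  set ψ : ℂ → ℂ × ℂ := fun z => (x + z * y, η + z * ζ) with hψ
  set φ : ℂ → ℂ := fun z => G (x + z * y) (η + z * ζ) with hφdef
  have hmem : ∀ z ∈ Metric.ball (0 : ℂ) R, ψ z ∈ RR σ := by
    intro z hz
    rw [mem_ball_zero_iff] at hz
    have h1 : ‖z * y‖ ≤ ‖z‖ * e := by
      rw [norm_mul]
      exact mul_le_mul_of_nonneg_left hy (norm_nonneg _)
    have h2 : ‖z * ζ‖ ≤ ‖z‖ * e := by
      rw [norm_mul]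
      exact mul_le_mul_of_nonneg_left hζ (norm_nonneg _)
    have h3 : ‖z‖ * e < σ / 8 := by
      rw [← hRe]
      exact mul_lt_mul_of_pos_right hz he
    refine ⟨?_, ?_⟩
    · show |(x + z * y).im| < σ / 2
      rw [add_im]
      have h4 := abs_add_le x.im (z * y).im
      have h5 := abs_im_le_norm (z * y)
      linarith
    · show ‖η + z * ζ‖ < 4
      have h4 := norm_add_le η (z * ζ)
      linarith
  have hd : DifferentiableOn ℂ φ (Metric.ball 0 R) := by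
    have h1 : DifferentiableOn ℂ ψ (Metric.ball 0 R) := by
      apply Differentiable.differentiableOn
      fun_prop
    exact DifferentiableOn.comp (g := fun q : ℂ × ℂ => G q.1 q.2) hG h1 hmem
  have hb : ∀ z ∈ Metric.ball (0 : ℂ) R, ‖φ z‖ ≤ M := fun z hz => hM (ψ z) (hmem z hz)
  have hder : deriv φ 0 = p1 G x η * y + p2 G x η * ζ := by
    have h0 : ψ 0 = (x, η) := by
      simp [hψ]
    have hmem0 : (x, η) ∈ RR σ := by
      rw [← h0]
      exact hmem 0 (Metric.mem_ball_self hR0)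
    have h1 := (hol_p_general (isOpen_RR σ) hG).2.2.1 (x, η) hmem0
    have h2 : HasDerivAt ψ (y, ζ) 0 := by
      have a1 : HasDerivAt (fun z : ℂ => x + z * y) y 0 := by
        simpa using ((hasDerivAt_id (0 : ℂ)).mul_const y).const_add x
      have a2 : HasDerivAt (fun z : ℂ => η + z * ζ) ζ 0 := by
        simpa using ((hasDerivAt_id (0 : ℂ)).mul_const ζ).const_add η
      exact a1.prodMk a2
    rw [← h0] at h1
    have h3 := HasFDerivAt.comp_hasDerivAt (f := ψ) (0 : ℂ) h1 h2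
    have h4 := h3.deriv
    rw [h0] at h4
    have h5 : (fun q : ℂ × ℂ => G q.1 q.2) ∘ ψ = φ := rfl
    rw [h5] at h4
    rw [h4]
    simp
  have e1 : φ 1 = G (x + y) (η + ζ) := by simp [hφdef]
  have e0 : φ 0 = G x η := by simp [hφdef]
  have t2 := taylor2 hR hd hb
  have t1 := taylor1 hR hd hb
  rw [e1, e0, hder] at t2
  rw [e1, e0] at t1
  constructor
  · refine t2.trans (le_of_eq ?_)
    rw [hRdef]
    field_simp
    ring
  · refine t1.trans (le_of_eq ?_)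
    rw [hRdef]
    field_simp
    ring

end Pool.Agent.NOne
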