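import Pool.Agent.NOne.KCau

/-!
# MP_74f563_an, n = 1, file KSmo: rapidly convergent series of holomorphic functions on shrinking
domains are smooth on the real domain

PROOF of `smooth_sum`.  Let `V = {z : ℝ × ℝ | |z.2| < 1/4}`, open and convex.  A family `(f, d, e)` is
called good if `0 < d n`, `0 ≤ e n`, `f n` is holomorphic on `Om (d n) (d n)`, bounded there by `e n`, and
`∑ e n / (d n)^k < ∞` for all `k`.  If `(f, d, e)` is good then so are `(p1 f, d/2, 2e/d)` and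
`(p2 f, d/2, 2e/d)` (`Hol.hol_p1`, `Hol.hol_p2`, `Bd.cauchy1`, `Bd.cauchy2`;
`∑ (2 e/d) / (d/2)^k = 2^{k+1} ∑ e / d^{k+1}`).
Real points of `V` are in every `Om (d n) (d n)`.  For `z ∈ V` the real function `F_n(z) = f n z.1 z.2` has
the derivative `A_n(z) = p1 (f n) z.1 z.2 • fst + p2 (f n) z.1 z.2 • snd` (`Hol.hasFDerivAt`, composed with
the real-linear embedding `ℝ × ℝ → ℂ × ℂ`), `‖A_n(z)‖ ≤ 4 e n / d n`, summable.  By
`hasFDerivAt_tsum_of_isPreconnected` (on the open, preconnected set `V`; the series converges at every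
point) the sum `∑' F_n` has on `V` the derivative `∑' A_n = S₁ • fst + S₂ • snd`,
`S_i = ∑' p_i (f n)`.  So by induction on `k` the sum of every good family is `C^k` on `V`: `k = 0`:
continuity from differentiability; `k → k + 1`: `contDiffOn_succ_iff_hasFDerivWithinAt` or
`contDiffOn_succ_of_fderivWithin`, with the derivative `S₁ • fst + S₂ • snd` which is `C^k` by induction.
The statements about the one-variable derivatives are the restrictions to lines.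
-/

set_option autoImplicit false

namespace Pool.Agent.NOne

open Complex Set MeasureTheory
open scoped ContDiff

private structure Good (f : ℕ → ℂ → ℂ → ℂ) (d e : ℕ → ℝ) : Prop where
  hd : ∀ n, 0 < d n
  he : ∀ n, 0 ≤ e n
  hf : ∀ n, Hol (d n) (d n) (f n)
  hb : ∀ n, Bd (d n) (d n) (e n) (f n)
  hs : ∀ k : ℕ, Summable fun n => e n / d n ^ k

private theorem Good.sumr {f : ℕ → ℂ → ℂ → ℂ} {d e : ℕ → ℝ} (h : Good f d e) (k : ℕ) :
    Summable fun n => 2 * e n / d n / (d n / 2) ^ k := by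
  refine ((h.hs (k + 1)).mul_left (2 ^ (k + 1))).congr fun n => ?_
  have h2 := (h.hd n).ne'
  rw [div_pow, pow_succ, pow_succ]
  field_simp

private theorem Good.P1 {f : ℕ → ℂ → ℂ → ℂ} {d e : ℕ → ℝ} (h : Good f d e) :
    Good (fun n => p1 (f n)) (fun n => d n / 2) (fun n => 2 * e n / d n) := by
  refine ⟨fun n => half_pos (h.hd n), fun n => ?_, fun n => ?_, fun n => ?_, h.sumr⟩
  · have h1 := h.hd n
    have h2 := h.he n
    positivity
  · exact ((h.hf n).hol_p1).mono (half_le_self (h.hd n).le) (half_le_self (h.hd n).le)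
  · have h1 := (h.hb n).cauchy1 (h.hf n) (half_lt_self (h.hd n))
    refine h1.mono le_rfl (half_le_self (h.hd n).le) (le_of_eq ?_)
    have h2 := (h.hd n).ne'
    rw [sub_half]
    field_simp

private theorem Good.P2 {f : ℕ → ℂ → ℂ → ℂ} {d e : ℕ → ℝ} (h : Good f d e) :
    Good (fun n => p2 (f n)) (fun n => d n / 2) (fun n => 2 * e n / d n) := by
  refine ⟨fun n => half_pos (h.hd n), fun n => ?_, fun n => ?_, fun n => ?_, h.sumr⟩
  · have h1 := h.hd n
    have h2 := h.he n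
    positivity
  · exact ((h.hf n).hol_p2).mono (half_le_self (h.hd n).le) (half_le_self (h.hd n).le)
  · have h1 := (h.hb n).cauchy2 (h.hf n) (half_lt_self (h.hd n))
    refine h1.mono (half_le_self (h.hd n).le) le_rfl (le_of_eq ?_)
    have h2 := (h.hd n).ne'
    rw [sub_half]
    field_simp

private theorem real_mem {d t : ℝ} (θ : ℝ) (hd : 0 < d) (ht : |t| < 1 / 4) :
    |(θ : ℂ).im| < d ∧ (t : ℂ) ∈ UU d := by
  refine ⟨?_, ofReal_mem_UU hd (by linarith)⟩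
  rw [ofReal_im, abs_zero]
  exact hd

private theorem Good.norm_le {f : ℕ → ℂ → ℂ → ℂ} {d e : ℕ → ℝ} (h : Good f d e) (θ : ℝ) {t : ℝ}
    (ht : |t| < 1 / 4) (n : ℕ) : ‖f n θ t‖ ≤ e n :=
  h.hb n _ _ (real_mem θ (h.hd n) ht).1 (real_mem θ (h.hd n) ht).2

private theorem Good.summable {f : ℕ → ℂ → ℂ → ℂ} {d e : ℕ → ℝ} (h : Good f d e) (θ : ℝ) {t : ℝ}
    (ht : |t| < 1 / 4) : Summable fun n => f n θ t := by
  refine Summable.of_norm_bounded (g := e) ?_ (h.norm_le θ ht)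
  simpa using h.hs 0

private noncomputable def M1 : ℂ →L[ℝ] (ℝ × ℝ →L[ℝ] ℂ) :=
  ContinuousLinearMap.smulRightL ℝ (ℝ × ℝ) ℂ (ContinuousLinearMap.fst ℝ ℝ ℝ)

private noncomputable def M2 : ℂ →L[ℝ] (ℝ × ℝ →L[ℝ] ℂ) :=
  ContinuousLinearMap.smulRightL ℝ (ℝ × ℝ) ℂ (ContinuousLinearMap.snd ℝ ℝ ℝ)

private theorem M_apply (a b : ℂ) (z : ℝ × ℝ) :
    (M1 a + M2 b) z = (z.1 : ℂ) * a + (z.2 : ℂ) * b := by
  simp [M1, M2, ContinuousLinearMap.smulRightL, ContinuousLinearMap.smulRight_apply]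

private theorem isOpen_V : IsOpen {z : ℝ × ℝ | |z.2| < 1 / 4} :=
  isOpen_lt continuous_snd.abs continuous_const

private theorem convex_V : Convex ℝ {z : ℝ × ℝ | |z.2| < 1 / 4} := by
  intro x hx y hy a b ha hb hab
  have h1 := convex_Ioo (-(1 / 4 : ℝ)) (1 / 4) (abs_lt.1 hx) (abs_lt.1 hy) ha hb hab
  change |(a • x + b • y).2| < 1 / 4
  rw [abs_lt]
  simpa using h1

private theorem real_deriv {δ : ℝ} {F : ℂ → ℂ → ℂ} (hF : Hol δ δ F) (hd : 0 < δ) {z : ℝ × ℝ}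
    (hz : |z.2| < 1 / 4) :
    HasFDerivAt (fun z : ℝ × ℝ => F z.1 z.2) (M1 (p1 F z.1 z.2) + M2 (p2 F z.1 z.2)) z := by
  obtain ⟨h1, h2⟩ := real_mem z.1 hd hz
  have h3 := (hF.hasFDerivAt h1 h2).restrictScalars ℝ
  have h4 : HasFDerivAt (fun z : ℝ × ℝ => ((z.1 : ℂ), (z.2 : ℂ)))
      (ofRealCLM.prodMap ofRealCLM : ℝ × ℝ →L[ℝ] ℂ × ℂ) z :=
    (ofRealCLM.prodMap ofRealCLM : ℝ × ℝ →L[ℝ] ℂ × ℂ).hasFDerivAt
  have h5 := HasFDerivAt.comp z (g := fun q : ℂ × ℂ => F q.1 q.2) h3 h4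
  refine h5.congr_fderiv ?_
  refine ContinuousLinearMap.ext fun w => ?_
  rw [M_apply]
  simp
  ring

private theorem Good.der {f : ℕ → ℂ → ℂ → ℂ} {d e : ℕ → ℝ} (h : Good f d e) {z : ℝ × ℝ}
    (hz : |z.2| < 1 / 4) :
    HasFDerivAt (fun z : ℝ × ℝ => ∑' n, f n z.1 z.2)
      (M1 (∑' n, p1 (f n) z.1 z.2) + M2 (∑' n, p2 (f n) z.1 z.2)) z := by
  have hu : Summable fun n => ‖M1‖ * (2 * e n / d n) + ‖M2‖ * (2 * e n / d n) := by
    have h1 : Summable fun n => 2 * e n / d n := by simpa using h.sumr 0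
    exact (h1.mul_left _).add (h1.mul_left _)
  have h0 : (0 : ℝ × ℝ) ∈ {z : ℝ × ℝ | |z.2| < 1 / 4} := by simp
  have h1 := hasFDerivAt_tsum_of_isPreconnected (𝕜 := ℝ)
    (f := fun n (z : ℝ × ℝ) => f n z.1 z.2)
    (f' := fun n z => M1 (p1 (f n) z.1 z.2) + M2 (p2 (f n) z.1 z.2)) hu isOpen_V
    convex_V.isPreconnected (fun n x hx => real_deriv (h.hf n) (h.hd n) hx)
    (fun n x hx => ?_) h0 (h.summable 0 (by simp)) hz
  · refine h1.congr_fderiv ?_
    rw [Summable.tsum_add, M1.map_tsum (h.P1.summable z.1 hz), M2.map_tsum (h.P2.summable z.1 hz)]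
    · exact M1.summable (h.P1.summable z.1 hz)
    · exact M2.summable (h.P2.summable z.1 hz)
  · refine (norm_add_le _ _).trans (add_le_add ?_ ?_)
    · exact (M1.le_opNorm _).trans
        (mul_le_mul_of_nonneg_left (h.P1.norm_le x.1 hx n) (norm_nonneg _))
    · exact (M2.le_opNorm _).trans
        (mul_le_mul_of_nonneg_left (h.P2.norm_le x.1 hx n) (norm_nonneg _))

private theorem Good.smooth (k : ℕ) : ∀ {f : ℕ → ℂ → ℂ → ℂ} {d e : ℕ → ℝ}, Good f d e →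
    ContDiffOn ℝ k (fun z : ℝ × ℝ => ∑' n, f n z.1 z.2) {z | |z.2| < 1 / 4} := by
  induction k with
  | zero =>
    intro f d e h
    exact contDiffOn_zero.2 fun z hz => (h.der hz).continuousAt.continuousWithinAt
  | succ k ih =>
    intro f d e h
    have h1 : ((k + 1 : ℕ) : WithTop ℕ∞) = (k : WithTop ℕ∞) + 1 := by norm_cast
    rw [h1, contDiffOn_succ_iff_hasFDerivWithinAt_of_uniqueDiffOn isOpen_V.uniqueDiffOn]
    refine ⟨fun h2 => ?_, fun z => M1 (∑' n, p1 (f n) z.1 z.2) + M2 (∑' n, p2 (f n) z.1 z.2),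
      ?_, fun x hx => (h.der hx).hasFDerivWithinAt⟩
    · exact absurd h2 (by simp)
    · exact (M1.contDiff.comp_contDiffOn (ih h.P1)).add (M2.contDiff.comp_contDiffOn (ih h.P2))

theorem smooth_sum {f : ℕ → ℂ → ℂ → ℂ} {d e : ℕ → ℝ} (hd : ∀ n, 0 < d n) (he : ∀ n, 0 ≤ e n)
    (hf : ∀ n, Hol (d n) (d n) (f n)) (hb : ∀ n, Bd (d n) (d n) (e n) (f n))
    (hs : ∀ k : ℕ, Summable fun n => e n / d n ^ k) :
    ContDiffOn ℝ ∞ (fun z : ℝ × ℝ => ∑' n, f n z.1 z.2) {z | |z.2| < 1 / 4} ∧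
    (∀ θ t : ℝ, |t| < 1 / 4 → Summable (fun n => f n θ t) ∧ Summable (fun n => p1 (f n) θ t) ∧
      Summable (fun n => p2 (f n) θ t) ∧
      HasDerivAt (fun z : ℝ => ∑' n, f n z t) (∑' n, p1 (f n) θ t) θ ∧
      HasDerivAt (fun z : ℝ => ∑' n, f n θ z) (∑' n, p2 (f n) θ t) t) := by
  have h : Good f d e := ⟨hd, he, hf, hb, hs⟩
  refine ⟨contDiffOn_infty.2 fun k => h.smooth k, fun θ t ht => ?_⟩
  have h1 := h.der (z := (θ, t)) ht
  refine ⟨h.summable θ ht, h.P1.summable θ ht, h.P2.summable θ ht, ?_, ?_⟩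
  · have h2 : HasDerivAt (fun z : ℝ => (z, t)) ((1 : ℝ), (0 : ℝ)) θ :=
      (hasDerivAt_id θ).prodMk (hasDerivAt_const θ t)
    have h3 := HasFDerivAt.comp_hasDerivAt θ (f := fun z : ℝ => (z, t)) h1 h2
    rw [M_apply] at h3
    refine HasDerivAt.congr_deriv h3 ?_
    simp
  · have h2 : HasDerivAt (fun z : ℝ => (θ, z)) ((0 : ℝ), (1 : ℝ)) t :=
      (hasDerivAt_const t θ).prodMk (hasDerivAt_id t)
    have h3 := HasFDerivAt.comp_hasDerivAt t (f := fun z : ℝ => (θ, z)) h1 h2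
    rw [M_apply] at h3
    refine HasDerivAt.congr_deriv h3 ?_
    simp

end Pool.Agent.NOne
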