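import Pool.Agent.NOne.KLag

/-!
# MP_74f563_an, n = 1, file KGen: the generating function at real points

`gS B x X = (X - x)² Re B(x, X - x)`.  For real `x, w` with `|w| < ρ` the value `B x w` is real
(`BD.real`), and the function `b(x, w) = Re B(x, w)` is smooth (real-analytic) in `(x, w)`.

PROOFS.
`gS_smooth`: `hol_contDiffOn` (file KHol) for `B`, restricted to real points
(`ContDiffOn.restrict_scalars`, composition with the real-linear map
`(x, X) ↦ ((x : ℂ), (X - x : ℂ))`), real part.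
`gS_conv`: let `β = b(x, ·)`.  `∂²/∂X² gS = 2β + 4wβ' + w²β''` (at `w = X - x`), and by Cauchy's
estimates on `‖w‖ < ρ` (bound `M`) for `|w| ≤ ρ/2`: `|β'| ≤ 2M/ρ`, `|β''| ≤ 8M/ρ²·...` (any
constant), `|β - 1| ≤ C|w|`.  So there is `c ∈ (0, ρ/2)` with `∂²gS/∂X² ≥ 1` for `|w| < c`,
and Taylor's formula (strong convexity on the interval `|X - x| < c`, which is convex) gives the
inequality with `1/2`.
`gS_lam`: for real `x`, `η` with `|r η| < ρ`: `lB r B x η = η² B(x, r η)` and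
`gS B x (x + r η) = r² η² Re B(x, r η)`; the values are real.
`gS_d2`: chain rule: `lB r B x η = gS B x (x + r η) / r²` for all real `η` near the given one, so
`∂η lB = (∂₂ gS) / r`; the complex derivative `p2 (lB r B) x η` at a real point is the real
derivative (`HasDerivAt.real_of_complex` / `HasDerivAt.comp_ofReal`).
`gS_d1`: `lB r B x η = gS B x (x + rη) / r²`; derivative in `x`:
`p1 (lB r B) x η = (∂₁ gS + ∂₂ gS)(x, x + rη) / r²`.
-/

set_option autoImplicit false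

namespace Pool.Agent.NOne

open Complex Set MeasureTheory
open scoped ContDiff

variable {σ ρ M r : ℝ} {B : ℂ → ℂ → ℂ}

private theorem isOpen_VV : IsOpen {q : ℂ × ℂ | |q.1.im| < σ ∧ ‖q.2‖ < ρ} := by
  have h1 : Continuous fun q : ℂ × ℂ => |q.1.im| := (continuous_im.comp continuous_fst).abs
  have h2 : Continuous fun q : ℂ × ℂ => ‖q.2‖ := continuous_snd.norm
  exact (isOpen_lt h1 continuous_const).inter (isOpen_lt h2 continuous_const)

private theorem BD.diffAt (hB : BD σ ρ M B) {x w : ℂ} (hx : |x.im| < σ) (hw : ‖w‖ < ρ) :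
    DifferentiableAt ℂ (fun q : ℂ × ℂ => B q.1 q.2) (x, w) :=
  hB.hol.differentiableAt (isOpen_VV.mem_nhds ⟨hx, hw⟩)

private theorem BD.re_eq (hB : BD σ ρ M B) (x w : ℝ) : B x w = ((B x w).re : ℂ) := by
  have h := hB.real x w
  rw [conj_ofReal, conj_ofReal] at h
  exact (conj_eq_iff_re.1 h.symm).symm

private theorem isOpen_W : IsOpen {z : ℝ × ℝ | |z.2 - z.1| < ρ} := by
  have h : Continuous fun z : ℝ × ℝ => |z.2 - z.1| := (continuous_snd.sub continuous_fst).abs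
  exact isOpen_lt h continuous_const

/-- `gS` is smooth where it is defined -/
private theorem gS_smooth' (hB : BD σ ρ M B) :
    ContDiffOn ℝ ∞ (fun z : ℝ × ℝ => gS B z.1 z.2) {z | |z.2 - z.1| < ρ} := by
  have h1 := (hol_contDiffOn isOpen_VV hB.hol).restrict_scalars ℝ
  have h2 : ContDiffOn ℝ ∞ (fun z : ℝ × ℝ => ((z.1 : ℂ), ((z.2 - z.1 : ℝ) : ℂ)))
      {z | |z.2 - z.1| < ρ} := by
    refine ContDiff.contDiffOn ?_
    exact (ofRealCLM.contDiff.comp contDiff_fst).prodMk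
      (ofRealCLM.contDiff.comp (contDiff_snd.sub contDiff_fst))
  have h3 := h1.comp h2 (by
    intro z hz
    refine ⟨?_, ?_⟩
    · change |((z.1 : ℂ)).im| < σ
      rw [ofReal_im, abs_zero]
      exact hB.σ_pos
    · change ‖((z.2 - z.1 : ℝ) : ℂ)‖ < ρ
      rw [norm_real, Real.norm_eq_abs]
      exact hz)
  have h4 := reCLM.contDiff.comp_contDiffOn h3
  exact ((contDiff_snd.sub contDiff_fst).pow 2).contDiffOn.mul h4

private theorem gS_diffAt (hB : BD σ ρ M B) {x X : ℝ} (h : |X - x| < ρ) :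
    DifferentiableAt ℝ (fun z : ℝ × ℝ => gS B z.1 z.2) (x, X) :=
  ((gS_smooth' hB).contDiffAt (isOpen_W.mem_nhds h)).differentiableAt (by simp)

/-- Schwarz' lemma for `B - 1` -/
private theorem BD.schw (hB : BD σ ρ M B) {x w : ℂ} (hx : |x.im| < σ) (hw : ‖w‖ < ρ) :
    ‖B x w - 1‖ ≤ (M + 2) / ρ * ‖w‖ := by
  have hd : DifferentiableOn ℂ (fun z => B x z) (Metric.ball 0 ρ) := by
    intro z hz
    have h1 := hB.diffAt hx (mem_ball_zero_iff.1 hz)
    have h2 : DifferentiableAt ℂ (fun z : ℂ => (x, z)) z :=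
      (differentiableAt_const x).prodMk differentiableAt_id
    exact (DifferentiableAt.comp (x := z) (g := fun q : ℂ × ℂ => B q.1 q.2)
      (f := fun z : ℂ => (x, z)) h1 h2).differentiableWithinAt
  have h0 : B x 0 = 1 := hB.one x hx
  have hM : MapsTo (fun z => B x z) (Metric.ball 0 ρ) (Metric.closedBall (B x 0) (M + 2)) := by
    intro z hz
    have h1 := hB.bd x z hx (mem_ball_zero_iff.1 hz)
    rw [h0, mem_closedBall_iff_norm]
    calc ‖B x z - 1‖ ≤ ‖B x z‖ + ‖(1 : ℂ)‖ := norm_sub_le _ _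
      _ ≤ M + 2 := by rw [norm_one]; linarith
  have h3 := Complex.dist_le_div_mul_dist_of_mapsTo_ball hd hM (mem_ball_zero_iff.2 hw)
  rwa [dist_eq_norm, dist_eq_norm, sub_zero, h0] at h3

private theorem BD.M_ge (hB : BD σ ρ M B) : 1 ≤ M := by
  have h1 := hB.bd 0 0 (by simpa using hB.σ_pos) (by simpa using hB.ρ_pos)
  rw [hB.one 0 (by simpa using hB.σ_pos), norm_one] at h1
  exact h1

/-- the remainder `w² (B - 1)` -/
private noncomputable def Gr (B : ℂ → ℂ → ℂ) (y : ℂ) (w : ℂ) : ℂ := w ^ 2 * (B y w - 1)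

private theorem Gr_diff (hB : BD σ ρ M B) {y w : ℂ} (hy : |y.im| < σ) (hw : ‖w‖ < ρ) :
    DifferentiableAt ℂ (Gr B y) w := by
  have h1 := hB.diffAt hy hw
  have h2 : DifferentiableAt ℂ (fun z : ℂ => (y, z)) w :=
    (differentiableAt_const y).prodMk differentiableAt_id
  have h3 : DifferentiableAt ℂ (fun z => B y z) w :=
    DifferentiableAt.comp (x := w) (g := fun q : ℂ × ℂ => B q.1 q.2)
      (f := fun z : ℂ => (y, z)) h1 h2
  exact (differentiableAt_id.pow 2).mul (h3.sub (differentiableAt_const 1))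

private theorem Gr_bd (hB : BD σ ρ M B) {y w : ℂ} (hy : |y.im| < σ) (hw : ‖w‖ < ρ) :
    ‖Gr B y w‖ ≤ (M + 2) / ρ * ‖w‖ ^ 3 := by
  unfold Gr
  rw [norm_mul, norm_pow]
  calc ‖w‖ ^ 2 * ‖B y w - 1‖ ≤ ‖w‖ ^ 2 * ((M + 2) / ρ * ‖w‖) :=
        mul_le_mul_of_nonneg_left (hB.schw hy hw) (by positivity)
    _ = _ := by ring

private theorem Gr_lip (hB : BD σ ρ M B) {c : ℝ} (hc : 0 < c) (hc3 : 3 * c < ρ)
    (hcM : 27 * (M + 2) * c ≤ ρ) {y : ℂ} (hy : |y.im| < σ) {w₁ w₂ : ℂ} (h₁ : ‖w₁‖ < c)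
    (h₂ : ‖w₂‖ < c) : ‖deriv (Gr B y) w₂ - deriv (Gr B y) w₁‖ ≤ ‖w₂ - w₁‖ := by
  have hρ := hB.ρ_pos
  have hM := hB.M_ge
  have hG : DifferentiableOn ℂ (Gr B y) (Metric.ball 0 ρ) := fun z hz =>
    (Gr_diff hB hy (mem_ball_zero_iff.1 hz)).differentiableWithinAt
  have hG' : DifferentiableOn ℂ (deriv (Gr B y)) (Metric.ball 0 ρ) :=
    hG.deriv Metric.isOpen_ball
  -- first derivative
  have h3 : ∀ z : ℂ, ‖z‖ ≤ 2 * c → ‖deriv (Gr B y) z‖ ≤ 27 * (M + 2) / ρ * c ^ 2 := by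
    intro z hz
    have h4 := Complex.norm_deriv_le_of_forall_mem_sphere_norm_le (c := z) (R := c)
      (C := (M + 2) / ρ * (3 * c) ^ 3) (f := Gr B y) hc ?_ ?_
    · refine h4.trans (le_of_eq ?_)
      field_simp
      ring
    · refine DifferentiableOn.diffContOnCl ?_
      rw [closure_ball _ hc.ne']
      refine hG.mono fun u hu => ?_
      rw [mem_closedBall_iff_norm] at hu
      rw [mem_ball_zero_iff]
      have h5 := norm_add_le (u - z) z
      rw [sub_add_cancel] at h5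
      linarith
    · intro u hu
      rw [mem_sphere_iff_norm] at hu
      have h5 := norm_add_le (u - z) z
      rw [sub_add_cancel] at h5
      have h6 : ‖u‖ ≤ 3 * c := by linarith
      refine (Gr_bd hB hy (by linarith)).trans ?_
      exact mul_le_mul_of_nonneg_left (pow_le_pow_left₀ (norm_nonneg _) h6 3) (by positivity)
  -- second derivative
  have h4 : ∀ z ∈ Metric.ball (0 : ℂ) c, ‖deriv (deriv (Gr B y)) z‖ ≤ 1 := by
    intro z hz
    rw [mem_ball_zero_iff] at hz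
    have h5 := Complex.norm_deriv_le_of_forall_mem_sphere_norm_le (c := z) (R := c)
      (C := 27 * (M + 2) / ρ * c ^ 2) (f := deriv (Gr B y)) hc ?_ ?_
    · refine h5.trans ?_
      have h6 : 27 * (M + 2) / ρ * c ^ 2 / c = 27 * (M + 2) * c / ρ := by
        field_simp
      rw [h6, div_le_one hρ]
      exact hcM
    · refine DifferentiableOn.diffContOnCl ?_
      rw [closure_ball _ hc.ne']
      refine hG'.mono fun u hu => ?_
      rw [mem_closedBall_iff_norm] at hu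
      rw [mem_ball_zero_iff]
      have h5 := norm_add_le (u - z) z
      rw [sub_add_cancel] at h5
      linarith
    · intro u hu
      rw [mem_sphere_iff_norm] at hu
      have h5 := norm_add_le (u - z) z
      rw [sub_add_cancel] at h5
      exact h3 u (by linarith)
  have h5 := (convex_ball (0 : ℂ) c).norm_image_sub_le_of_norm_deriv_le
    (f := deriv (Gr B y)) (C := 1) (fun z hz => ?_) h4 (mem_ball_zero_iff.2 h₁)
    (mem_ball_zero_iff.2 h₂)
  · rwa [one_mul] at h5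
  · refine (hG' z ?_).differentiableAt (Metric.isOpen_ball.mem_nhds ?_)
    · rw [mem_ball_zero_iff] at hz ⊢
      linarith
    · rw [mem_ball_zero_iff] at hz ⊢
      linarith

private theorem gS_deriv (hB : BD σ ρ M B) {y Y : ℝ} (h : |Y - y| < ρ) :
    HasDerivAt (fun Y => gS B y Y) (2 * (Y - y) + (deriv (Gr B y) ((Y - y : ℝ) : ℂ)).re) Y := by
  have hy : |((y : ℂ)).im| < σ := by
    rw [ofReal_im, abs_zero]
    exact hB.σ_pos
  have hw : ‖((Y - y : ℝ) : ℂ)‖ < ρ := by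
    rw [norm_real, Real.norm_eq_abs]
    exact h
  have h1 := (Gr_diff hB hy hw).hasDerivAt
  have h2 : HasDerivAt (fun Y : ℝ => ((Y - y : ℝ) : ℂ)) 1 Y := by
    have h3 : HasDerivAt (fun Y : ℝ => Y - y) 1 Y := (hasDerivAt_id Y).sub_const y
    exact h3.ofReal_comp
  have h3 : HasDerivAt (fun Y : ℝ => Gr B y ((Y - y : ℝ) : ℂ))
      (deriv (Gr B y) ((Y - y : ℝ) : ℂ)) Y := by
    have h4 := HasDerivAt.comp Y h1 h2
    rw [mul_one] at h4
    exact h4
  have h4 : HasDerivAt (fun Y : ℝ => (Gr B y ((Y - y : ℝ) : ℂ)).re)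
      (deriv (Gr B y) ((Y - y : ℝ) : ℂ)).re Y :=
    (reCLM.hasFDerivAt.comp_hasDerivAt Y h3)
  have h5 : HasDerivAt (fun Y : ℝ => (Y - y) ^ 2) (2 * (Y - y)) Y := by
    have h6 := ((hasDerivAt_id Y).sub_const y).fun_pow 2
    simpa using h6
  have h6 := h5.add h4
  refine h6.congr_of_eventuallyEq (Filter.Eventually.of_forall fun Z => ?_)
  change gS B y Z = (Z - y) ^ 2 + (Gr B y ((Z - y : ℝ) : ℂ)).re
  unfold gS Gr
  have h7 : (((Z - y : ℝ) : ℂ)) ^ 2 = (((Z - y) ^ 2 : ℝ) : ℂ) := by push_cast; ring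
  rw [h7, re_ofReal_mul, sub_re, one_re]
  ring

/-- strong convexity for small increments -/
theorem gS_conv (hB : BD σ ρ M B) : ∃ c > 0, c < ρ ∧ ∀ y Y₁ Y₂ : ℝ, |Y₁ - y| < c →
    |Y₂ - y| < c → gS B y Y₁ + deriv (fun Y => gS B y Y) Y₁ * (Y₂ - Y₁) + 1 / 2 * (Y₂ - Y₁) ^ 2 ≤
      gS B y Y₂ := by
  have hρ := hB.ρ_pos
  have hM := hB.M_ge
  obtain ⟨c, hcd⟩ : ∃ c, c = ρ / (27 * (M + 2)) := ⟨_, rfl⟩
  have hc : 0 < c := by rw [hcd]; positivity
  have hcM : 27 * (M + 2) * c = ρ := by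
    rw [hcd]
    field_simp
  have hc3 : 3 * c < ρ := by nlinarith
  refine ⟨c, hc, by linarith, fun y Y₁ Y₂ h₁ h₂ => ?_⟩
  have hy : |((y : ℂ)).im| < σ := by
    rw [ofReal_im, abs_zero]
    exact hB.σ_pos
  -- the derivative of `gS - Y² / 2` is monotone
  have hmono : ∀ a b : ℝ, |a - y| < c → |b - y| < c → a ≤ b →
      2 * (a - y) + (deriv (Gr B y) ((a - y : ℝ) : ℂ)).re - a ≤
        2 * (b - y) + (deriv (Gr B y) ((b - y : ℝ) : ℂ)).re - b := by
    intro a b ha hb hab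
    have h3 := Gr_lip hB hc hc3 hcM.le hy (w₁ := ((a - y : ℝ) : ℂ)) (w₂ := ((b - y : ℝ) : ℂ))
      (by rw [norm_real, Real.norm_eq_abs]; exact ha)
      (by rw [norm_real, Real.norm_eq_abs]; exact hb)
    rw [← ofReal_sub, norm_real, Real.norm_eq_abs] at h3
    have h4 : b - y - (a - y) = b - a := by ring
    rw [h4, abs_of_nonneg (by linarith)] at h3
    have h5 := (Complex.abs_re_le_norm _).trans h3
    rw [sub_re] at h5
    have h6 := (abs_le.1 h5).1
    linarith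
  have hder : ∀ Z : ℝ, |Z - y| < c → HasDerivAt (fun Y => gS B y Y - Y ^ 2 / 2)
      (2 * (Z - y) + (deriv (Gr B y) ((Z - y : ℝ) : ℂ)).re - Z) Z := by
    intro Z hZ
    have h3 := gS_deriv hB (y := y) (Y := Z) (by linarith)
    have h4 : HasDerivAt (fun Y : ℝ => Y ^ 2 / 2) Z Z := by
      have h5 := ((hasDerivAt_id Z).fun_pow 2).div_const 2
      simpa using h5
    exact h3.sub h4
  have hd1 : deriv (fun Y => gS B y Y) Y₁ =
      2 * (Y₁ - y) + (deriv (Gr B y) ((Y₁ - y : ℝ) : ℂ)).re :=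
    (gS_deriv hB (y := y) (Y := Y₁) (by linarith)).deriv
  rw [hd1]
  obtain ⟨h, hh⟩ : ∃ h : ℝ → ℝ, h = fun Y => gS B y Y - Y ^ 2 / 2 := ⟨_, rfl⟩
  obtain ⟨h', hh'⟩ : ∃ h' : ℝ → ℝ, h' = fun Z =>
    2 * (Z - y) + (deriv (Gr B y) ((Z - y : ℝ) : ℂ)).re - Z := ⟨_, rfl⟩
  have key : h Y₁ + h' Y₁ * (Y₂ - Y₁) ≤ h Y₂ := by
    have hder' : ∀ Z : ℝ, |Z - y| < c → HasDerivAt h (h' Z) Z := by
      intro Z hZ
      rw [hh, hh']
      exact hder Z hZ
    have hmono' : ∀ a b : ℝ, |a - y| < c → |b - y| < c → a ≤ b → h' a ≤ h' b := by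
      rw [hh']
      exact hmono
    rw [abs_lt] at h₁ h₂
    rcases lt_trichotomy Y₁ Y₂ with h12 | h12 | h12
    · obtain ⟨ξ, hξ, hξ'⟩ := exists_hasDerivAt_eq_slope h h' h12
        (fun Z hZ => (hder' Z (abs_lt.2 ⟨by linarith [hZ.1],
          by linarith [hZ.2]⟩)).continuousAt.continuousWithinAt)
        (fun Z hZ => hder' Z (abs_lt.2 ⟨by linarith [hZ.1], by linarith [hZ.2]⟩))
      have h3 := hmono' Y₁ ξ (abs_lt.2 h₁) (abs_lt.2 ⟨by linarith [hξ.1], by linarith [hξ.2]⟩)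
        hξ.1.le
      rw [hξ', le_div_iff₀ (by linarith)] at h3
      linarith
    · rw [h12]
      simp
    · obtain ⟨ξ, hξ, hξ'⟩ := exists_hasDerivAt_eq_slope h h' h12
        (fun Z hZ => (hder' Z (abs_lt.2 ⟨by linarith [hZ.1],
          by linarith [hZ.2]⟩)).continuousAt.continuousWithinAt)
        (fun Z hZ => hder' Z (abs_lt.2 ⟨by linarith [hZ.1], by linarith [hZ.2]⟩))
      have h3 := hmono' ξ Y₁ (abs_lt.2 ⟨by linarith [hξ.1], by linarith [hξ.2]⟩) (abs_lt.2 h₁)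
        hξ.2.le
      rw [hξ', div_le_iff₀ (by linarith)] at h3
      linarith
  rw [hh, hh'] at key
  simp only at key
  nlinarith [key]

/-- `gS` is smooth where it is defined -/
theorem gS_smooth (hB : BD σ ρ M B) :
    ContDiffOn ℝ ∞ (fun z : ℝ × ℝ => gS B z.1 z.2) {z | |z.2 - z.1| < ρ} :=
  gS_smooth' hB

theorem gS_lam (hB : BD σ ρ M B) (hr : 0 < r) {x η : ℝ} (h : |r * η| < ρ) :
    lB r B x η = ((gS B x (x + r * η) / r ^ 2 : ℝ) : ℂ) := by
  have h1 : gS B x (x + r * η) / r ^ 2 = η ^ 2 * (B x ((r * η : ℝ) : ℂ)).re := by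
    unfold gS
    rw [add_sub_cancel_left]
    field_simp
  rw [h1, ofReal_mul, ofReal_pow, ← hB.re_eq x (r * η), ofReal_mul]
  rfl

private theorem lB_diffAt (hB : BD σ ρ M B) {x η : ℝ} (h : |r * η| < ρ) :
    DifferentiableAt ℂ (fun q : ℂ × ℂ => lB r B q.1 q.2) ((x : ℂ), (η : ℂ)) := by
  have h1 : DifferentiableAt ℂ (fun q : ℂ × ℂ => B q.1 q.2) ((x : ℂ), (r : ℂ) * (η : ℂ)) := by
    refine hB.diffAt ?_ ?_
    · rw [ofReal_im, abs_zero]
      exact hB.σ_pos
    · rw [← ofReal_mul, norm_real, Real.norm_eq_abs]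
      exact h
  have h2 : DifferentiableAt ℂ (fun q : ℂ × ℂ => (q.1, (r : ℂ) * q.2)) ((x : ℂ), (η : ℂ)) :=
    differentiableAt_fst.prodMk (differentiableAt_snd.const_mul _)
  have h3 : DifferentiableAt ℂ (fun q : ℂ × ℂ => B q.1 ((r : ℂ) * q.2)) ((x : ℂ), (η : ℂ)) :=
    DifferentiableAt.comp (x := ((x : ℂ), (η : ℂ)))
      (g := fun q : ℂ × ℂ => B q.1 q.2) (f := fun q : ℂ × ℂ => (q.1, (r : ℂ) * q.2)) h1 h2
  exact (differentiableAt_snd.pow 2).mul h3

theorem gS_d2 (hB : BD σ ρ M B) (hr : 0 < r) {x η : ℝ} (h : |r * η| < ρ) :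
    p2 (lB r B) x η = ((deriv (fun Y => gS B x Y) (x + r * η) / r : ℝ) : ℂ) := by
  have h1 : DifferentiableAt ℂ (fun z : ℂ => lB r B x z) (η : ℂ) := by
    have h2 : DifferentiableAt ℂ (fun z : ℂ => ((x : ℂ), z)) (η : ℂ) :=
      (differentiableAt_const _).prodMk differentiableAt_id
    exact DifferentiableAt.comp (x := (η : ℂ)) (g := fun q : ℂ × ℂ => lB r B q.1 q.2)
      (f := fun z : ℂ => ((x : ℂ), z)) (lB_diffAt hB (x := x) (η := η) h) h2
  have h2 : HasDerivAt (fun t : ℝ => lB r B x (t : ℂ)) (p2 (lB r B) x η) η :=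
    h1.hasDerivAt.comp_ofReal
  have h3 : HasDerivAt (fun Y => gS B x Y) (deriv (fun Y => gS B x Y) (x + r * η))
      (x + r * η) := (gS_deriv hB (by rwa [add_sub_cancel_left])).differentiableAt.hasDerivAt
  have h4 : HasDerivAt (fun t : ℝ => x + r * t) r η := by
    have h5 := ((hasDerivAt_id η).const_mul r).const_add x
    simpa using h5
  have h5 : HasDerivAt (fun t : ℝ => gS B x (x + r * t) / r ^ 2)
      (deriv (fun Y => gS B x Y) (x + r * η) / r) η := by
    have h6 := (HasDerivAt.comp η h3 h4).div_const (r ^ 2)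
    refine h6.congr_deriv ?_
    field_simp
  have h6 := h5.ofReal_comp
  refine h2.unique (h6.congr_of_eventuallyEq ?_)
  have h7 : ∀ᶠ t : ℝ in nhds η, |r * t| < ρ :=
    (isOpen_lt (continuous_const.mul continuous_id).abs continuous_const).mem_nhds h
  filter_upwards [h7] with t ht
  exact gS_lam hB hr ht

theorem gS_d1 (hB : BD σ ρ M B) (hr : 0 < r) {x η : ℝ} (h : |r * η| < ρ) :
    p1 (lB r B) x η = (((deriv (fun y => gS B y (x + r * η)) x +
      deriv (fun Y => gS B x Y) (x + r * η)) / r ^ 2 : ℝ) : ℂ) := by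
  have h1 : DifferentiableAt ℂ (fun z : ℂ => lB r B z η) (x : ℂ) := by
    have h2 : DifferentiableAt ℂ (fun z : ℂ => (z, (η : ℂ))) (x : ℂ) :=
      differentiableAt_id.prodMk (differentiableAt_const _)
    exact DifferentiableAt.comp (x := (x : ℂ)) (g := fun q : ℂ × ℂ => lB r B q.1 q.2)
      (f := fun z : ℂ => (z, (η : ℂ))) (lB_diffAt hB (x := x) (η := η) h) h2
  have h2 : HasDerivAt (fun t : ℝ => lB r B (t : ℂ) η) (p1 (lB r B) x η) x :=
    h1.hasDerivAt.comp_ofReal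
  obtain ⟨D, hD⟩ := gS_diffAt hB (x := x) (X := x + r * η) (by rwa [add_sub_cancel_left])
  have hd1 : HasDerivAt (fun y => gS B y (x + r * η)) (D (1, 0)) x := by
    have h3 : HasDerivAt (fun y : ℝ => (y, x + r * η)) ((1 : ℝ), (0 : ℝ)) x :=
      (hasDerivAt_id x).prodMk (hasDerivAt_const x _)
    exact HasFDerivAt.comp_hasDerivAt x (l := fun z : ℝ × ℝ => gS B z.1 z.2) hD h3
  have hd2 : HasDerivAt (fun Y => gS B x Y) (D (0, 1)) (x + r * η) := by
    have h3 : HasDerivAt (fun Y : ℝ => (x, Y)) ((0 : ℝ), (1 : ℝ)) (x + r * η) :=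
      (hasDerivAt_const _ _).prodMk (hasDerivAt_id _)
    exact HasFDerivAt.comp_hasDerivAt (x + r * η) (l := fun z : ℝ × ℝ => gS B z.1 z.2) hD h3
  have hd3 : HasDerivAt (fun t : ℝ => gS B t (t + r * η)) (D (1, 1)) x := by
    have h3 : HasDerivAt (fun t : ℝ => (t, t + r * η)) ((1 : ℝ), (1 : ℝ)) x :=
      (hasDerivAt_id x).prodMk ((hasDerivAt_id x).add_const _)
    exact HasFDerivAt.comp_hasDerivAt x (l := fun z : ℝ × ℝ => gS B z.1 z.2) hD h3
  have h4 : D (1, 1) = D (1, 0) + D (0, 1) := by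
    rw [← map_add]
    simp
  rw [hd1.deriv, hd2.deriv, ← h4]
  have h5 := (hd3.div_const (r ^ 2)).ofReal_comp
  refine h2.unique (h5.congr_of_eventuallyEq ?_)
  exact Filter.Eventually.of_forall fun t => gS_lam hB hr h

end Pool.Agent.NOne
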