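import Pool.Agent.NOne.KSeq
import Pool.Agent.NOne.KGen
import Pool.Agent.NOne.KBas

/-!
# MP_74f563_an, n = 1, file KEL: the discrete Euler-Lagrange equation in the limit

`Er_real`.  PROOF.  For real `θ`, `t` (`|t| ≤ 1/4`), `ρ = r (1 + t)`: let `y = x(θ - ρ)`, `z = x θ`,
`w = x(θ + ρ)` be the real values of `X`.  `DD r X θ t = (w - z) / r`, `DD r X (θ - ρ) t = (z - y) / r`, both
of norm `≤ 2` (`DD_X_norm`), so `|w - z| ≤ 2 r < ρ₀` and `gS_d1`, `gS_d2` apply: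
`Er = p1 lam (z, (w - z)/r) - (p2 lam (z, (w - z)/r) - p2 lam (y, (z - y)/r)) / r
 = (S₁(z, w) + S₂(z, w)) / r² - S₂(z, w) / r² + S₂(y, z) / r² = (S₁(z, w) + S₂(y, z)) / r²`.

`el_limit`.  PROOF.  `Er r lam (X n) θ t → 0` (`NSeq.err`, `lim`; real points are in `Om (δ n) (s n)`).
`X n` converges at `θ`, `θ ± ρ` (`NLim.lim0`), and the functions `S₁`, `S₂` are continuous on
`{|X - x| < ρ₀}` (`gS_smooth`: the partial derivatives of a smooth function on an open set), and the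
increments of the limit satisfy `|w - z| ≤ 2 r < ρ₀`.
-/

set_option autoImplicit false

namespace Pool.Agent.NOne

open Complex Set MeasureTheory

private theorem X_re {r b δ s : ℝ} {lam X : ℂ → ℂ → ℂ} (hX : St r lam X b δ s) (θ t : ℝ) :
    X θ t = (((X θ t).re : ℝ) : ℂ) := by
  have h := hX.real θ t
  rw [conj_ofReal, conj_ofReal] at h
  exact (conj_eq_iff_re.1 h.symm).symm

private theorem DD_re {r b δ s : ℝ} {lam X : ℂ → ℂ → ℂ} (hX : St r lam X b δ s) (θ t : ℝ) :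
    DD r X θ t = ((((X ((θ + r * (1 + t) : ℝ) : ℂ) t).re - (X θ t).re) / r : ℝ) : ℂ) := by
  have e : (θ : ℂ) + r * (1 + t) = ((θ + r * (1 + t) : ℝ) : ℂ) := by push_cast; ring
  unfold DD
  rw [e, ofReal_div, ofReal_sub, ← X_re hX, ← X_re hX]

private theorem inc_le {σ M r b δ s : ℝ} {lam X : ℂ → ℂ → ℂ} (hp : Par σ M r b δ s)
    (hX : St r lam X b δ s) {θ t : ℝ} (ht : |t| ≤ 1 / 4) :
    |(X ((θ + r * (1 + t) : ℝ) : ℂ) t).re - (X θ t).re| ≤ 2 * r := by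
  have hδ := hp.δ_pos
  have hs := hp.s_pos
  have hr := hp.r_pos
  have h1 : ‖DD r X θ t‖ ≤ 2 := DD_X_norm hp hX
    (by rw [ofReal_im, abs_zero]; linarith) (ofReal_mem_UU (by linarith) (by linarith))
  rw [DD_re hX, norm_real, Real.norm_eq_abs, abs_div, abs_of_pos hr, div_le_iff₀ hr] at h1
  exact h1

theorem Er_real {σ σ' M M' ρ₀ r b δ s : ℝ} {B X : ℂ → ℂ → ℂ} (hB : BD σ' ρ₀ M' B)
    (hp : Par σ M r b δ s) (hl : LD σ M r (lB r B)) (hX : St r (lB r B) X b δ s)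
    (hr : 8 * r ≤ ρ₀) {θ t : ℝ} (ht : |t| ≤ 1 / 4) :
    Er r (lB r B) X θ t = (((deriv (fun y => gS B y (X ((θ + r * (1 + t) : ℝ) : ℂ) t).re)
        (X θ t).re + deriv (fun Y => gS B (X ((θ - r * (1 + t) : ℝ) : ℂ) t).re Y)
        (X θ t).re) / r ^ 2 : ℝ) : ℂ) := by
  have hr0 := hp.r_pos
  have hrC : (r : ℂ) ≠ 0 := by exact_mod_cast hr0.ne'
  -- increments
  have key : ∀ θ' : ℝ, |r * (((X ((θ' + r * (1 + t) : ℝ) : ℂ) t).re - (X θ' t).re) / r)| < ρ₀ := by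
    intro θ'
    have h1 := inc_le hp hX (θ := θ') ht
    rw [mul_div_cancel₀ _ hr0.ne']
    linarith
  have hadd : ∀ θ' : ℝ, (X θ' t).re + r * (((X ((θ' + r * (1 + t) : ℝ) : ℂ) t).re -
      (X θ' t).re) / r) = (X ((θ' + r * (1 + t) : ℝ) : ℂ) t).re := by
    intro θ'
    rw [mul_div_cancel₀ _ hr0.ne']
    ring
  have a1 : cmp r (p1 (lB r B)) X θ t = (((deriv (fun y => gS B y
      (X ((θ + r * (1 + t) : ℝ) : ℂ) t).re) (X θ t).re + deriv (fun Y => gS B (X θ t).re Y)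
      (X ((θ + r * (1 + t) : ℝ) : ℂ) t).re) / r ^ 2 : ℝ) : ℂ) := by
    unfold cmp
    have h1 := gS_d1 hB hr0 (x := (X θ t).re) (key θ)
    rw [hadd θ, ← X_re hX, ← DD_re hX] at h1
    exact h1
  have a2 : ∀ θ' : ℝ, mo r (lB r B) X θ' t = ((deriv (fun Y => gS B (X θ' t).re Y)
      (X ((θ' + r * (1 + t) : ℝ) : ℂ) t).re / r : ℝ) : ℂ) := by
    intro θ'
    unfold mo cmp
    have h1 := gS_d2 hB hr0 (x := (X θ' t).re) (key θ')
    rw [hadd θ', ← X_re hX, ← DD_re hX] at h1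
    exact h1
  have e1 : (θ : ℂ) + r * (1 + t) - r * (1 + t) = θ := by ring
  have e2 : (θ : ℂ) - r * (1 + t) = ((θ - r * (1 + t) : ℝ) : ℂ) := by push_cast; ring
  have e3 : θ - r * (1 + t) + r * (1 + t) = θ := by ring
  have a3 := a2 (θ - r * (1 + t))
  rw [e3] at a3
  unfold Er
  rw [a1]
  unfold DD Pm sm
  rw [e1, e2, a2 θ, a3]
  push_cast
  field_simp
  ring

private theorem isOpen_W (ρ : ℝ) : IsOpen {z : ℝ × ℝ | |z.2 - z.1| < ρ} :=
  isOpen_lt (continuous_snd.sub continuous_fst).abs continuous_const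

private theorem S_d1 {σ ρ M : ℝ} {B : ℂ → ℂ → ℂ} (hB : BD σ ρ M B) {z : ℝ × ℝ}
    (hz : |z.2 - z.1| < ρ) : deriv (fun y => gS B y z.2) z.1 =
      fderiv ℝ (fun z : ℝ × ℝ => gS B z.1 z.2) z (1, 0) := by
  have h1 : HasFDerivAt (fun z : ℝ × ℝ => gS B z.1 z.2)
      (fderiv ℝ (fun z : ℝ × ℝ => gS B z.1 z.2) z) (z.1, z.2) :=
    (((gS_smooth hB).contDiffAt ((isOpen_W ρ).mem_nhds hz)).differentiableAt
      (by simp)).hasFDerivAt
  exact (h1.comp_hasDerivAt z.1 ((hasDerivAt_id z.1).prodMk (hasDerivAt_const z.1 z.2))).deriv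

private theorem S_d2 {σ ρ M : ℝ} {B : ℂ → ℂ → ℂ} (hB : BD σ ρ M B) {z : ℝ × ℝ}
    (hz : |z.2 - z.1| < ρ) : deriv (fun Y => gS B z.1 Y) z.2 =
      fderiv ℝ (fun z : ℝ × ℝ => gS B z.1 z.2) z (0, 1) := by
  have h1 : HasFDerivAt (fun z : ℝ × ℝ => gS B z.1 z.2)
      (fderiv ℝ (fun z : ℝ × ℝ => gS B z.1 z.2) z) (z.1, z.2) :=
    (((gS_smooth hB).contDiffAt ((isOpen_W ρ).mem_nhds hz)).differentiableAt
      (by simp)).hasFDerivAt
  exact (h1.comp_hasDerivAt z.2 ((hasDerivAt_const z.2 z.1).prodMk (hasDerivAt_id z.2))).deriv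

/-- the partial derivatives are continuous -/
private theorem S_lim {σ ρ M : ℝ} {B : ℂ → ℂ → ℂ} (hB : BD σ ρ M B) {z : ℝ × ℝ}
    (hz : |z.2 - z.1| < ρ) {u : ℕ → ℝ × ℝ} (hu : ∀ n, |(u n).2 - (u n).1| < ρ)
    (h : Filter.Tendsto u Filter.atTop (nhds z)) :
    Filter.Tendsto (fun n => deriv (fun y => gS B y (u n).2) (u n).1) Filter.atTop
      (nhds (deriv (fun y => gS B y z.2) z.1)) ∧
    Filter.Tendsto (fun n => deriv (fun Y => gS B (u n).1 Y) (u n).2) Filter.atTop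
      (nhds (deriv (fun Y => gS B z.1 Y) z.2)) := by
  have hc : ContinuousAt (fderiv ℝ (fun z : ℝ × ℝ => gS B z.1 z.2)) z :=
    ((gS_smooth hB).continuousOn_fderiv_of_isOpen (isOpen_W ρ) (by simp)).continuousAt
      ((isOpen_W ρ).mem_nhds hz)
  have h1 : Filter.Tendsto (fun n => fderiv ℝ (fun z : ℝ × ℝ => gS B z.1 z.2) (u n))
      Filter.atTop (nhds (fderiv ℝ (fun z : ℝ × ℝ => gS B z.1 z.2) z)) := hc.tendsto.comp h
  constructor
  · rw [S_d1 hB hz]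
    have h2 := (ContinuousLinearMap.apply ℝ ℝ ((1, 0) : ℝ × ℝ)).continuous.continuousAt
      (x := fderiv ℝ (fun z : ℝ × ℝ => gS B z.1 z.2) z)
    refine (h2.tendsto.comp h1).congr fun n => ?_
    exact (S_d1 hB (hu n)).symm
  · rw [S_d2 hB hz]
    have h2 := (ContinuousLinearMap.apply ℝ ℝ ((0, 1) : ℝ × ℝ)).continuous.continuousAt
      (x := fderiv ℝ (fun z : ℝ × ℝ => gS B z.1 z.2) z)
    refine (h2.tendsto.comp h1).congr fun n => ?_
    exact (S_d2 hB (hu n)).symm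

theorem el_limit {σ σ' M M' ρ₀ r : ℝ} {B : ℂ → ℂ → ℂ} {X : ℕ → ℂ → ℂ → ℂ}
    {b δ s ε e : ℕ → ℝ} {x x₁ x₂ : ℝ → ℝ → ℝ} (hB : BD σ' ρ₀ M' B) (hl : LD σ M r (lB r B))
    (h : NSeq r σ M (lB r B) X b δ s ε e) (hx : NLim X x x₁ x₂) (hr : 8 * r ≤ ρ₀) {θ t : ℝ}
    (ht : |t| < 1 / 4) : deriv (fun Y => gS B (x (θ - r * (1 + t)) t) Y) (x θ t) +
      deriv (fun y => gS B y (x (θ + r * (1 + t)) t)) (x θ t) = 0 := by
  have hr0 : 0 < r := (h.par 0).r_pos
  have ht' : |t| ≤ 1 / 4 := ht.le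
  have hre : ∀ θ' : ℝ, Filter.Tendsto (fun n => (X n θ' t).re) Filter.atTop
      (nhds (x θ' t)) := by
    intro θ'
    have h1 := (continuous_re.tendsto _).comp (hx.lim0 θ' t ht)
    rw [ofReal_re] at h1
    exact h1
  -- increments
  have hinc : ∀ (n : ℕ) (θ' : ℝ), |(X n ((θ' + r * (1 + t) : ℝ) : ℂ) t).re -
      (X n θ' t).re| ≤ 2 * r := fun n θ' => inc_le (h.par n) (h.st n) ht'
  have hincx : ∀ θ' : ℝ, |x (θ' + r * (1 + t)) t - x θ' t| ≤ 2 * r := by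
    intro θ'
    exact le_of_tendsto (((hre (θ' + r * (1 + t))).sub (hre θ')).abs)
      (Filter.Eventually.of_forall fun n => hinc n θ')
  have e3 : θ - r * (1 + t) + r * (1 + t) = θ := by ring
  have l1 := (S_lim hB (z := (x θ t, x (θ + r * (1 + t)) t))
    (u := fun n => ((X n θ t).re, (X n ((θ + r * (1 + t) : ℝ) : ℂ) t).re))
    (lt_of_le_of_lt (hincx θ) (by linarith)) (fun n => lt_of_le_of_lt (hinc n θ) (by linarith))
    ((hre θ).prodMk_nhds (hre (θ + r * (1 + t))))).1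
  have l2 := (S_lim hB (z := (x (θ - r * (1 + t)) t, x θ t))
    (u := fun n => ((X n ((θ - r * (1 + t) : ℝ) : ℂ) t).re, (X n θ t).re))
    (by
      have h1 := hincx (θ - r * (1 + t))
      rw [e3] at h1
      exact lt_of_le_of_lt h1 (by linarith)) (fun n => by
      have h1 := hinc n (θ - r * (1 + t))
      rw [e3] at h1
      exact lt_of_le_of_lt h1 (by linarith))
    ((hre (θ - r * (1 + t))).prodMk_nhds (hre θ))).2
  have l3 := (l1.add l2).div_const (r ^ 2)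
  have l4 : Filter.Tendsto (fun n => (Er r (lB r B) (X n) θ t).re) Filter.atTop (nhds 0) := by
    refine squeeze_zero_norm (a := ε) (fun n => ?_) h.lim
    rw [Real.norm_eq_abs]
    exact (abs_re_le_norm _).trans (h.err n θ t (by
      rw [ofReal_im, abs_zero]
      exact (h.par n).δ_pos) (ofReal_mem_UU (h.par n).s_pos (by
      have := (h.par n).s_pos
      linarith)))
  have l5 : Filter.Tendsto (fun n => (Er r (lB r B) (X n) θ t).re) Filter.atTop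
      (nhds ((deriv (fun y => gS B y (x (θ + r * (1 + t)) t)) (x θ t) +
        deriv (fun Y => gS B (x (θ - r * (1 + t)) t) Y) (x θ t)) / r ^ 2)) := by
    refine l3.congr fun n => ?_
    rw [Er_real hB (h.par n) hl (h.st n) hr ht', ofReal_re]
  have l6 := tendsto_nhds_unique l5 l4
  have hr2 : r ^ 2 ≠ 0 := (pow_pos hr0 2).ne'
  rw [div_eq_zero_iff] at l6
  rcases l6 with h1 | h1
  · rw [add_comm]
    exact h1
  · exact absurd h1 hr2

end Pool.Agent.NOne
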