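import Pool.Agent.NOne.KSeq
import Pool.Agent.NOne.KSmo
import Pool.Agent.NOne.KBas

/-!
# MP_74f563_an, n = 1, file KLim: the limit of the Newton scheme

PROOF of `exists_limit`.  `f n θ t = X (n+1) θ t - X n θ t`, `d n = min (2 δ (n+1)) (2 s (n+1))`: the
hypotheses of `smooth_sum` hold (`NSeq.hol`, `bd`, `sum`, restricted to `Om (d n) (d n)`).  All `X n θ t`
are real for real `θ, t` (`St.real`: `X n (conj θ) (conj t) = conj (X n θ t)`), and so are `p1 (X n) θ t`,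
`p2 (X n) θ t` (`rsym_p1`, `rsym_p2`).  Put `x θ t = θ + (∑' n, f n θ t).re`, `x₁ θ t = 1 + (∑' n,
p1 (f n) θ t).re`, `x₂ θ t = (∑' n, p2 (f n) θ t).re`.  Telescoping: `X N θ t = θ + ∑_{n<N} f n θ t`
(`NSeq.zero`), so `X N θ t → x θ t`; `p1 (X N) θ t = 1 + ∑_{n<N} p1 (f n) θ t` (the derivative of a finite
sum; all functions are differentiable at `(θ, t)` since real points with `|t| < 1/4` are in all domains),
so `lim1`, and `lim2` in the same way.  `der1`, `der2`: `smooth_sum`.  Bounds: `‖p1 (X n) - 1‖ ≤ b n ≤ σ/8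
≤ 1/8` (`St.b1`, `Par.b_le`, `Par.σ_le`) pass to the limit.  Periodicity: `X n (θ + 1) t = X n θ t + 1`
(`St.per`) passes to the limit.
-/

set_option autoImplicit false

namespace Pool.Agent.NOne

open Complex Set MeasureTheory Filter Topology
open scoped ContDiff

private theorem kl_im_lim (g : ℕ → ℂ) (a : ℂ) (hg : ∀ n, (g n).im = 0)
    (hT : Tendsto g atTop (𝓝 a)) : ((a.re : ℝ) : ℂ) = a := by
  have h1 : Tendsto (fun n => (g n).im) atTop (𝓝 a.im) := (Complex.continuous_im.tendsto a).comp hT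
  have h2 : a.im = 0 := by
    refine tendsto_nhds_unique h1 ?_
    simp only [hg]
    exact tendsto_const_nhds
  apply Complex.ext
  · rw [ofReal_re]
  · rw [ofReal_im, h2]

private theorem kl_real {F : ℂ → ℂ → ℂ} (hF : RSym F) (θ t : ℝ) : (F θ t).im = 0 := by
  have h1 := hF θ t
  rw [conj_ofReal, conj_ofReal] at h1
  exact Complex.conj_eq_iff_im.1 h1.symm

theorem exists_limit {r σ M : ℝ} {lam : ℂ → ℂ → ℂ} {X : ℕ → ℂ → ℂ → ℂ} {b δ s ε e : ℕ → ℝ}
    (h : NSeq r σ M lam X b δ s ε e) : ∃ x x₁ x₂ : ℝ → ℝ → ℝ, NLim X x x₁ x₂ := by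
  let f : ℕ → ℂ → ℂ → ℂ := fun n θ t => X (n + 1) θ t - X n θ t
  let d : ℕ → ℝ := fun n => min (2 * δ (n + 1)) (2 * s (n + 1))
  have hd0 : ∀ n, 0 < d n := fun n => lt_min (by have := (h.par (n + 1)).δ_pos; linarith)
    (by have := (h.par (n + 1)).s_pos; linarith)
  obtain ⟨hC, hP⟩ := smooth_sum (f := f) (d := d) hd0 h.e_nonneg
    (fun n => (h.hol n).mono (min_le_left _ _) (min_le_right _ _))
    (fun n => (h.bd n).mono (min_le_left _ _) (min_le_right _ _) le_rfl) h.sum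
  have hdom : ∀ (n : ℕ) (θ t : ℝ), |t| < 1 / 4 → |(θ : ℂ).im| < 2 * δ n ∧
      (t : ℂ) ∈ UU (2 * s n) := by
    intro n θ t ht
    have h1 := (h.par n).δ_pos
    have h2 := (h.par n).s_pos
    refine ⟨by rw [ofReal_im, abs_zero]; linarith, ofReal_mem_UU (by linarith) (by linarith)⟩
  have hp1 : ∀ (n : ℕ) (θ t : ℝ), |t| < 1 / 4 →
      p1 (f n) θ t = p1 (X (n + 1)) θ t - p1 (X n) θ t := by
    intro n θ t ht
    have a1 := (h.st (n + 1)).hol.hasDerivAt1 (hdom (n + 1) θ t ht).1 (hdom (n + 1) θ t ht).2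
    have a2 := (h.st n).hol.hasDerivAt1 (hdom n θ t ht).1 (hdom n θ t ht).2
    exact (a1.sub a2).deriv
  have hp2 : ∀ (n : ℕ) (θ t : ℝ), |t| < 1 / 4 →
      p2 (f n) θ t = p2 (X (n + 1)) θ t - p2 (X n) θ t := by
    intro n θ t ht
    have a1 := (h.st (n + 1)).hol.hasDerivAt2 (hdom (n + 1) θ t ht).1 (hdom (n + 1) θ t ht).2
    have a2 := (h.st n).hol.hasDerivAt2 (hdom n θ t ht).1 (hdom n θ t ht).2
    exact (a1.sub a2).deriv
  have T0 : ∀ θ t : ℝ, |t| < 1 / 4 →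
      Tendsto (fun n => X n θ t) atTop (𝓝 ((θ : ℂ) + ∑' n, f n θ t)) := by
    intro θ t ht
    have h1 := (hP θ t ht).1.hasSum.tendsto_sum_nat
    have h2 : (fun n => X n θ t) = fun n => (θ : ℂ) + ∑ i ∈ Finset.range n, f i θ t := by
      funext n
      have h3 : ∑ i ∈ Finset.range n, f i θ t = X n θ t - X 0 θ t :=
        Finset.sum_range_sub (fun i => X i (θ : ℂ) (t : ℂ)) n
      have h4 : X 0 θ t = θ := by rw [h.zero]
      rw [h3, h4]
      ring
    rw [h2]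
    exact h1.const_add _
  have T1 : ∀ θ t : ℝ, |t| < 1 / 4 →
      Tendsto (fun n => p1 (X n) θ t) atTop (𝓝 ((1 : ℂ) + ∑' n, p1 (f n) θ t)) := by
    intro θ t ht
    have h1 := (hP θ t ht).2.1.hasSum.tendsto_sum_nat
    have h2 : (fun n => p1 (X n) θ t) = fun n => (1 : ℂ) + ∑ i ∈ Finset.range n, p1 (f i) θ t := by
      funext n
      have h3 : ∑ i ∈ Finset.range n, p1 (f i) θ t = p1 (X n) θ t - p1 (X 0) θ t := by
        rw [← Finset.sum_range_sub (fun i => p1 (X i) (θ : ℂ) (t : ℂ)) n]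
        exact Finset.sum_congr rfl fun i _ => hp1 i θ t ht
      have h4 : p1 (X 0) θ t = 1 := by
        rw [h.zero]
        exact deriv_id _
      rw [h3, h4]
      ring
    rw [h2]
    exact h1.const_add _
  have T2 : ∀ θ t : ℝ, |t| < 1 / 4 →
      Tendsto (fun n => p2 (X n) θ t) atTop (𝓝 (∑' n, p2 (f n) θ t)) := by
    intro θ t ht
    have h1 := (hP θ t ht).2.2.1.hasSum.tendsto_sum_nat
    have h2 : (fun n => p2 (X n) θ t) = fun n => ∑ i ∈ Finset.range n, p2 (f i) θ t := by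
      funext n
      have h3 : ∑ i ∈ Finset.range n, p2 (f i) θ t = p2 (X n) θ t - p2 (X 0) θ t := by
        rw [← Finset.sum_range_sub (fun i => p2 (X i) (θ : ℂ) (t : ℂ)) n]
        exact Finset.sum_congr rfl fun i _ => hp2 i θ t ht
      have h4 : p2 (X 0) θ t = 0 := by
        rw [h.zero]
        exact deriv_const _ _
      rw [h3, h4, sub_zero]
    rw [h2]
    exact h1
  have L0 : ∀ θ t : ℝ, |t| < 1 / 4 → Tendsto (fun n => X n θ t) atTop
      (𝓝 ((θ + (∑' n, f n θ t).re : ℝ) : ℂ)) := by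
    intro θ t ht
    have h1 := kl_im_lim _ _ (fun n => kl_real (h.st n).real θ t) (T0 θ t ht)
    rw [add_re, ofReal_re] at h1
    rw [h1]
    exact T0 θ t ht
  have L1 : ∀ θ t : ℝ, |t| < 1 / 4 → Tendsto (fun n => p1 (X n) θ t) atTop
      (𝓝 ((1 + (∑' n, p1 (f n) θ t).re : ℝ) : ℂ)) := by
    intro θ t ht
    have h1 := kl_im_lim _ _ (fun n => kl_real (rsym_p1 (h.st n).real) θ t) (T1 θ t ht)
    rw [add_re, one_re] at h1
    rw [h1]
    exact T1 θ t ht
  have L2 : ∀ θ t : ℝ, |t| < 1 / 4 → Tendsto (fun n => p2 (X n) θ t) atTop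
      (𝓝 (((∑' n, p2 (f n) θ t).re : ℝ) : ℂ)) := by
    intro θ t ht
    have h1 := kl_im_lim _ _ (fun n => kl_real (rsym_p2 (h.st n).real) θ t) (T2 θ t ht)
    rw [h1]
    exact T2 θ t ht
  have B1 : ∀ (n : ℕ) (θ t : ℝ), |t| < 1 / 4 → |(p1 (X n) θ t).re - 1| ≤ 1 / 8 := by
    intro n θ t ht
    have h1 := (h.st n).b1 θ t (hdom n θ t ht).1 (hdom n θ t ht).2
    have h2 := (h.par n).b_le
    have h3 := (h.par n).σ_le
    have h4 := Complex.abs_re_le_norm (p1 (X n) θ t - 1)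
    rw [sub_re, one_re] at h4
    exact h4.trans (h1.trans (by linarith))
  refine ⟨fun θ t => θ + (∑' n, f n θ t).re, fun θ t => 1 + (∑' n, p1 (f n) θ t).re,
    fun θ t => (∑' n, p2 (f n) θ t).re, ⟨?_, ?_, ?_, ?_, ?_, ?_, L0, L1, L2⟩⟩
  · exact contDiffOn_fst.add (Complex.reCLM.contDiff.comp_contDiffOn hC)
  · intro θ t _
    have h1 : ∀ n, f n ((θ + 1 : ℝ) : ℂ) t = f n θ t := by
      intro n
      have h2 := (h.st (n + 1)).per θ t
      have h3 := (h.st n).per θ t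
      change X (n + 1) ((θ + 1 : ℝ) : ℂ) t - X n ((θ + 1 : ℝ) : ℂ) t = X (n + 1) θ t - X n θ t
      rw [ofReal_add, ofReal_one, h2, h3]
      ring
    change θ + 1 + (∑' n, f n ((θ + 1 : ℝ) : ℂ) t).re = θ + (∑' n, f n θ t).re + 1
    rw [tsum_congr h1]
    ring
  · intro θ t ht
    have h1 := (hP θ t ht).2.2.2.1
    have h2 := (Complex.reCLM.hasFDerivAt (x := ∑' n, f n θ t)).comp_hasDerivAt θ h1
    exact (hasDerivAt_id θ).add h2
  · intro θ t ht
    have h1 := (hP θ t ht).2.2.2.2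
    have h2 := (Complex.reCLM.hasFDerivAt (x := ∑' n, f n θ t)).comp_hasDerivAt t h1
    exact h2.const_add θ
  · intro θ t ht
    have h1 : Tendsto (fun n => (p1 (X n) θ t).re) atTop
        (𝓝 (((1 + (∑' n, p1 (f n) θ t).re : ℝ) : ℂ).re)) :=
      (Complex.continuous_re.tendsto _).comp (L1 θ t ht)
    rw [ofReal_re] at h1
    refine ge_of_tendsto' h1 fun n => ?_
    have h2 := (abs_le.1 (B1 n θ t ht)).1
    linarith
  · intro θ t ht
    have h1 : Tendsto (fun n => (p1 (X n) θ t).re) atTop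
        (𝓝 (((1 + (∑' n, p1 (f n) θ t).re : ℝ) : ℂ).re)) :=
      (Complex.continuous_re.tendsto _).comp (L1 θ t ht)
    rw [ofReal_re] at h1
    refine le_of_tendsto' h1 fun n => ?_
    have h2 := (abs_le.1 (B1 n θ t ht)).2
    linarith

end Pool.Agent.NOne
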