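import Pool.Agent.NOne.KSeq
import Pool.Agent.NOne.KGen
import Pool.Agent.NOne.KBas

/-!
# MP_74f563_an, n = 1, file KTw: the twist in the limit

Let `F(y, Y) = ∂₂ gS B (y, Y)` (real, smooth on `|Y - y| < ρ₀`), `G = ∂₁ F`.

`jac_formula`.  PROOF.  Let `x` be differentiable at `(θ, t)` and at `(θ - ρ, t)`, `ρ = r (1 + t)`, with
partial derivatives `x₁, x₂` at `(θ, t)` and `x₁', x₂'` at `(θ - ρ, t)`.  `P(θ, t) = F(x(θ - r(1 + t), t),
x(θ, t))`.  Chain rule: `P_θ = G x₁' + F₂ x₁`, `P_t = G (x₂' - r x₁') + F₂ x₂`, so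
`P_t x₁ - P_θ x₂ = G ((x₂' - r x₁') x₁ - x₁' x₂)` (the terms with `F₂` cancel).

`Jf_real`.  PROOF.  At real points near `(θ, t)`, `|t| < 1/4`:
`Pm r lam X θ t = p2 lam (X(θ - ρ), DD r X (θ - ρ)) = F(x(θ - ρ), x θ) / r` (`gS_d2`), where `x` is the real
restriction of `X`.  The complex partial derivatives `p1`, `p2` of `Pm` and of `X` at real points are the
real partial derivatives of the real restrictions (`HasDerivAt.comp_ofReal`), so
`Jf = (P_t x₁ - P_θ x₂) / r` and `jac_formula` gives the formula.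

`twist_limit`.  PROOF.  By `Jf_real` and `NLim.lim0/1/2`, `Jf r lam (X n) θ t → J := (1/r) G(x(θ - ρ), x θ)
((x₂' - r x₁') x₁ - x₁' x₂)` for the limit functions (`G` is continuous: `gS_smooth`).  And
`Re Jf (X n) ≥ Re ta (X n) - e n ≥ 1 - e n` (`NSeq.jac`, `ta_bounds`), `e n → 0` (`NSeq.sum` with `k = 0`).
So `J ≥ 1 > 0`.  By `jac_formula` for the limit function `x` (differentiable in two variables by
`NLim.smooth`; partial derivatives `x₁`, `x₂` by `der1`, `der2`) the expression of the statement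
is `r J > 0`.
-/

set_option autoImplicit false

namespace Pool.Agent.NOne

open Complex Set MeasureTheory
open scoped ContDiff

/-- the second partial derivative of `gS` -/
private noncomputable def F0 (B : ℂ → ℂ → ℂ) (z : ℝ × ℝ) : ℝ := deriv (fun Y => gS B z.1 Y) z.2

private theorem isOpen_W (ρ : ℝ) : IsOpen {z : ℝ × ℝ | |z.2 - z.1| < ρ} :=
  isOpen_lt (continuous_snd.sub continuous_fst).abs continuous_const

private theorem F0_smooth {σ ρ M : ℝ} {B : ℂ → ℂ → ℂ} (hB : BD σ ρ M B) {z : ℝ × ℝ}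
    (hz : |z.2 - z.1| < ρ) : ContDiffAt ℝ 1 (F0 B) z := by
  have h1 : ∀ w ∈ {z : ℝ × ℝ | |z.2 - z.1| < ρ},
      ContDiffAt ℝ ∞ (fun z : ℝ × ℝ => gS B z.1 z.2) w := fun w hw =>
    (gS_smooth hB).contDiffAt ((isOpen_W ρ).mem_nhds hw)
  have h2 : ContDiffAt ℝ 1 (fderiv ℝ (fun z : ℝ × ℝ => gS B z.1 z.2)) z :=
    (h1 z hz).fderiv_right (m := 1) (by
      rw [one_add_one_eq_two]
      exact ENat.LEInfty.out)
  have h3 : ContDiffAt ℝ 1
      (fun w => fderiv ℝ (fun z : ℝ × ℝ => gS B z.1 z.2) w ((0 : ℝ), (1 : ℝ))) z :=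
    h2.clm_apply contDiffAt_const
  refine h3.congr_of_eventuallyEq ?_
  filter_upwards [(isOpen_W ρ).mem_nhds hz] with w hw
  have h4 := ((h1 w hw).differentiableAt (by norm_num)).hasFDerivAt
  have h5 : HasDerivAt (fun Y : ℝ => (w.1, Y)) ((0 : ℝ), (1 : ℝ)) w.2 :=
    (hasDerivAt_const _ _).prodMk (hasDerivAt_id _)
  exact (HasFDerivAt.comp_hasDerivAt w.2 (f := fun Y : ℝ => (w.1, Y)) h4 h5).deriv

private theorem clm2 (L : ℝ × ℝ →L[ℝ] ℝ) (a b : ℝ) : L (a, b) = a * L (1, 0) + b * L (0, 1) := by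
  have h1 : ((a, b) : ℝ × ℝ) = a • ((1 : ℝ), (0 : ℝ)) + b • ((0 : ℝ), (1 : ℝ)) := by simp
  rw [h1, map_add, map_smul, map_smul, smul_eq_mul, smul_eq_mul]

private theorem G_eq {σ ρ M : ℝ} {B : ℂ → ℂ → ℂ} (hB : BD σ ρ M B) {y Y : ℝ}
    (hz : |Y - y| < ρ) :
    deriv (fun y => deriv (fun Y => gS B y Y) Y) y = fderiv ℝ (F0 B) (y, Y) (1, 0) := by
  have h4 := ((F0_smooth hB (z := (y, Y)) hz).differentiableAt (by norm_num)).hasFDerivAt
  have h5 : HasDerivAt (fun y : ℝ => (y, Y)) ((1 : ℝ), (0 : ℝ)) y :=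
    (hasDerivAt_id _).prodMk (hasDerivAt_const _ _)
  exact (HasFDerivAt.comp_hasDerivAt y (f := fun y : ℝ => (y, Y)) h4 h5).deriv

private theorem part1 {x : ℝ → ℝ → ℝ} {A : ℝ × ℝ →L[ℝ] ℝ} {θ t : ℝ}
    (h : HasFDerivAt (fun z : ℝ × ℝ => x z.1 z.2) A (θ, t)) :
    HasDerivAt (fun z => x z t) (A (1, 0)) θ :=
  HasFDerivAt.comp_hasDerivAt θ (f := fun z : ℝ => (z, t)) h
    ((hasDerivAt_id θ).prodMk (hasDerivAt_const θ t))

private theorem part2 {x : ℝ → ℝ → ℝ} {A : ℝ × ℝ →L[ℝ] ℝ} {θ t : ℝ}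
    (h : HasFDerivAt (fun z : ℝ × ℝ => x z.1 z.2) A (θ, t)) :
    HasDerivAt (fun z => x θ z) (A (0, 1)) t :=
  HasFDerivAt.comp_hasDerivAt t (f := fun z : ℝ => (θ, z)) h
    ((hasDerivAt_const t θ).prodMk (hasDerivAt_id t))

private theorem shift1 {x : ℝ → ℝ → ℝ} {A : ℝ × ℝ →L[ℝ] ℝ} {θ t r : ℝ}
    (h : HasFDerivAt (fun z : ℝ × ℝ => x z.1 z.2) A (θ - r * (1 + t), t)) :
    HasDerivAt (fun z => x (z - r * (1 + t)) t) (A (1, 0)) θ :=
  HasFDerivAt.comp_hasDerivAt θ (f := fun z : ℝ => (z - r * (1 + t), t)) h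
    (((hasDerivAt_id θ).sub_const _).prodMk (hasDerivAt_const θ t))

private theorem shift2 {x : ℝ → ℝ → ℝ} {A : ℝ × ℝ →L[ℝ] ℝ} {θ t r : ℝ}
    (h : HasFDerivAt (fun z : ℝ × ℝ => x z.1 z.2) A (θ - r * (1 + t), t)) :
    HasDerivAt (fun z => x (θ - r * (1 + z)) z) (A (-r, 1)) t := by
  have h1 : HasDerivAt (fun z : ℝ => θ - r * (1 + z)) (-r) t := by
    have h2 := (((hasDerivAt_id t).const_add 1).const_mul r).const_sub θ
    simpa using h2
  exact HasFDerivAt.comp_hasDerivAt t (f := fun z : ℝ => (θ - r * (1 + z), z)) h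
    (h1.prodMk (hasDerivAt_id t))

private theorem path {σ' M' ρ₀ r : ℝ} {B : ℂ → ℂ → ℂ} (hB : BD σ' ρ₀ M' B) {x : ℝ → ℝ → ℝ}
    {θ t : ℝ} {A A' : ℝ × ℝ →L[ℝ] ℝ} (h1 : HasFDerivAt (fun z : ℝ × ℝ => x z.1 z.2) A (θ, t))
    (h2 : HasFDerivAt (fun z : ℝ × ℝ => x z.1 z.2) A' (θ - r * (1 + t), t))
    (hinc : |x θ t - x (θ - r * (1 + t)) t| < ρ₀) :
    HasDerivAt (fun τ => F0 B (x (θ - r * (1 + τ)) τ, x θ τ))
      (fderiv ℝ (F0 B) (x (θ - r * (1 + t)) t, x θ t) (A' (-r, 1), A (0, 1))) t ∧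
    HasDerivAt (fun z => F0 B (x (z - r * (1 + t)) t, x z t))
      (fderiv ℝ (F0 B) (x (θ - r * (1 + t)) t, x θ t) (A' (1, 0), A (1, 0))) θ := by
  have h4 := ((F0_smooth hB (z := (x (θ - r * (1 + t)) t, x θ t)) hinc).differentiableAt
    (by norm_num)).hasFDerivAt
  exact ⟨HasFDerivAt.comp_hasDerivAt t (f := fun τ : ℝ => (x (θ - r * (1 + τ)) τ, x θ τ)) h4
      ((shift2 h2).prodMk (part2 h1)),
    HasFDerivAt.comp_hasDerivAt θ (f := fun z : ℝ => (x (z - r * (1 + t)) t, x z t)) h4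
      ((shift1 h2).prodMk (part1 h1))⟩

theorem jac_formula {σ' M' ρ₀ r : ℝ} {B : ℂ → ℂ → ℂ} (hB : BD σ' ρ₀ M' B) {x : ℝ → ℝ → ℝ}
    {θ t : ℝ} (h1 : DifferentiableAt ℝ (fun z : ℝ × ℝ => x z.1 z.2) (θ, t))
    (h2 : DifferentiableAt ℝ (fun z : ℝ × ℝ => x z.1 z.2) (θ - r * (1 + t), t))
    (hinc : |x θ t - x (θ - r * (1 + t)) t| < ρ₀) :
    deriv (fun τ => deriv (fun Y => gS B (x (θ - r * (1 + τ)) τ) Y) (x θ τ)) t *
        deriv (fun z => x z t) θ -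
      deriv (fun z => deriv (fun Y => gS B (x (z - r * (1 + t)) t) Y) (x z t)) θ *
        deriv (fun τ => x θ τ) t =
    deriv (fun y => deriv (fun Y => gS B y Y) (x θ t)) (x (θ - r * (1 + t)) t) *
      ((deriv (fun τ => x (θ - r * (1 + t)) τ) t -
          r * deriv (fun z => x z t) (θ - r * (1 + t))) * deriv (fun z => x z t) θ -
        deriv (fun z => x z t) (θ - r * (1 + t)) * deriv (fun τ => x θ τ) t) := by
  have a1 := h1.hasFDerivAt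
  have a2 := h2.hasFDerivAt
  obtain ⟨p, q⟩ := path hB a1 a2 hinc
  have e1 : deriv (fun τ => deriv (fun Y => gS B (x (θ - r * (1 + τ)) τ) Y) (x θ τ)) t = _ :=
    p.deriv
  have e2 : deriv (fun z => deriv (fun Y => gS B (x (z - r * (1 + t)) t) Y) (x z t)) θ = _ :=
    q.deriv
  rw [e1, e2, G_eq hB hinc, (part1 a1).deriv, (part2 a1).deriv, (part1 a2).deriv,
    (part2 a2).deriv, clm2 (fderiv ℝ (F0 B) _) (_) (_), clm2 (fderiv ℝ (F0 B) _)
      (fderiv ℝ (fun z : ℝ × ℝ => x z.1 z.2) (θ - r * (1 + t), t) (1, 0)) _,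
    clm2 (fderiv ℝ (fun z : ℝ × ℝ => x z.1 z.2) (θ - r * (1 + t), t)) (-r) 1]
  ring

private theorem real_val {F : ℂ → ℂ → ℂ} (hF : RSym F) (θ t : ℝ) :
    F θ t = ((F θ t).re : ℂ) := by
  have h := hF θ t
  rw [conj_ofReal, conj_ofReal] at h
  exact (conj_eq_iff_re.1 h.symm).symm

private theorem real_mem {δ s t : ℝ} (θ : ℝ) (hd : 0 < δ) (hs : 0 < s) (ht : |t| < 1 / 4) :
    |(θ : ℂ).im| < δ ∧ (t : ℂ) ∈ UU s := by
  refine ⟨?_, ofReal_mem_UU hs (by linarith)⟩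
  rw [ofReal_im, abs_zero]
  exact hd

private theorem re_diff {δ s : ℝ} {F : ℂ → ℂ → ℂ} (hF : Hol δ s F) (hd : 0 < δ) (hs : 0 < s)
    (θ : ℝ) {t : ℝ} (ht : |t| < 1 / 4) :
    DifferentiableAt ℝ (fun z : ℝ × ℝ => (F z.1 z.2).re) (θ, t) := by
  obtain ⟨h1, h2⟩ := real_mem θ hd hs ht
  have h3 := (hF.hasFDerivAt h1 h2).restrictScalars ℝ
  have h4 : HasFDerivAt (fun z : ℝ × ℝ => ((z.1 : ℂ), (z.2 : ℂ)))
      (ofRealCLM.prodMap ofRealCLM : ℝ × ℝ →L[ℝ] ℂ × ℂ) (θ, t) :=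
    (ofRealCLM.prodMap ofRealCLM : ℝ × ℝ →L[ℝ] ℂ × ℂ).hasFDerivAt
  have h5 := HasFDerivAt.comp (θ, t) (g := fun q : ℂ × ℂ => F q.1 q.2) h3 h4
  have h6 := HasFDerivAt.comp (θ, t) (g := fun q : ℂ => q.re) reCLM.hasFDerivAt h5
  exact h6.differentiableAt

private theorem Pm_real {σ σ' M M' ρ₀ r b δ s : ℝ} {B X : ℂ → ℂ → ℂ} (hB : BD σ' ρ₀ M' B)
    (hp : Par σ M r b δ s) (hX : St r (lB r B) X b δ s)
    (hr : 8 * r ≤ ρ₀) (θ : ℝ) {t : ℝ} (ht : |t| < 1 / 4) :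
    |(X θ t).re - (X ((θ - r * (1 + t) : ℝ) : ℂ) t).re| ≤ 2 * r ∧
    Pm r (lB r B) X θ t =
      ((F0 B ((X ((θ - r * (1 + t) : ℝ) : ℂ) t).re, (X θ t).re) / r : ℝ) : ℂ) := by
  have hr0 := hp.r_pos
  have hδ := hp.δ_pos
  have hs := hp.s_pos
  obtain ⟨φ, hφ⟩ : ∃ φ : ℝ, φ = θ - r * (1 + t) := ⟨_, rfl⟩
  rw [← hφ]
  have c1 : (θ : ℂ) - r * (1 + t) = (φ : ℂ) := by
    rw [hφ]
    push_cast
    ring
  have c2 : (φ : ℂ) + r * (1 + t) = (θ : ℂ) := by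
    rw [← c1]
    ring
  obtain ⟨η, hη⟩ : ∃ η : ℝ, η = ((X θ t).re - (X φ t).re) / r := ⟨_, rfl⟩
  have c3 : DD r X φ t = (η : ℂ) := by
    simp only [DD]
    rw [c2, real_val hX.real θ t, real_val hX.real φ t, hη]
    push_cast
    simp
  have c4 : r * η = (X θ t).re - (X φ t).re := by
    rw [hη]
    field_simp
  obtain ⟨h1, h2⟩ := real_mem φ (δ := 3 / 2 * δ) (s := 2 * s) (by linarith) (by linarith) ht
  have h3 := DD_X_norm hp hX h1 h2
  rw [c3, norm_real, Real.norm_eq_abs] at h3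
  have h4 : |r * η| ≤ 2 * r := by
    rw [abs_mul, abs_of_pos hr0]
    nlinarith
  refine ⟨by rw [← c4]; exact h4, ?_⟩
  have h5 := gS_d2 hB hr0 (x := (X φ t).re) (η := η) (by linarith)
  rw [c4, add_sub_cancel] at h5
  simp only [Pm, sm, mo, cmp]
  rw [c1, c3, real_val hX.real φ t, h5]
  rfl

private theorem Pm_der {σ σ' M M' ρ₀ r b δ s : ℝ} {B X : ℂ → ℂ → ℂ} (hB : BD σ' ρ₀ M' B)
    (hp : Par σ M r b δ s) (hl : LD σ M r (lB r B)) (hX : St r (lB r B) X b δ s)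
    (hr : 8 * r ≤ ρ₀) (θ : ℝ) {t : ℝ} (ht : |t| < 1 / 4) :
    p2 (Pm r (lB r B) X) θ t = ((deriv (fun τ : ℝ =>
      F0 B ((X ((θ - r * (1 + τ) : ℝ) : ℂ) τ).re, (X θ τ).re)) t / r : ℝ) : ℂ) ∧
    p1 (Pm r (lB r B) X) θ t = ((deriv (fun z : ℝ =>
      F0 B ((X ((z - r * (1 + t) : ℝ) : ℂ) t).re, (X z t).re)) θ / r : ℝ) : ℂ) := by
  have hr0 := hp.r_pos
  have hδ := hp.δ_pos
  have hs := hp.s_pos
  have d1 := (re_diff hX.hol (by linarith) (by linarith) θ ht).hasFDerivAt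
  have d2 := (re_diff hX.hol (by linarith) (by linarith) (θ - r * (1 + t)) ht).hasFDerivAt
  obtain ⟨p, q⟩ := path (x := fun θ t : ℝ => (X θ t).re) hB d1 d2
    (by have := (Pm_real hB hp hX hr θ ht).1; linarith)
  obtain ⟨h1, h2⟩ := real_mem θ (δ := 5 / 4 * δ) (s := 2 * s) (by linarith) (by linarith) ht
  have hP := (hol_Pm hp hl hX).1
  constructor
  · have a1 := (hP.hasDerivAt2 h1 h2).comp_ofReal
    have a2 := (p.div_const r).ofReal_comp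
    rw [p.deriv]
    refine a1.unique (a2.congr_of_eventuallyEq ?_)
    have h7 : ∀ᶠ τ : ℝ in nhds t, |τ| < 1 / 4 :=
      (isOpen_lt continuous_abs continuous_const).mem_nhds ht
    filter_upwards [h7] with τ hτ
    exact (Pm_real hB hp hX hr θ hτ).2
  · have a1 := (hP.hasDerivAt1 h1 h2).comp_ofReal
    have a2 := (q.div_const r).ofReal_comp
    rw [q.deriv]
    refine a1.unique (a2.congr_of_eventuallyEq ?_)
    exact Filter.Eventually.of_forall fun z => (Pm_real hB hp hX hr z ht).2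

theorem Jf_real {σ σ' M M' ρ₀ r b δ s : ℝ} {B X : ℂ → ℂ → ℂ} (hB : BD σ' ρ₀ M' B)
    (hp : Par σ M r b δ s) (hl : LD σ M r (lB r B)) (hX : St r (lB r B) X b δ s)
    (hr : 8 * r ≤ ρ₀) {θ t : ℝ} (ht : |t| < 1 / 4) :
    Jf r (lB r B) X θ t = ((deriv (fun y => deriv (fun Y => gS B y Y) (X θ t).re)
        (X ((θ - r * (1 + t) : ℝ) : ℂ) t).re / r *
      (((p2 X ((θ - r * (1 + t) : ℝ) : ℂ) t).re - r * (p1 X ((θ - r * (1 + t) : ℝ) : ℂ) t).re) *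
        (p1 X θ t).re - (p1 X ((θ - r * (1 + t) : ℝ) : ℂ) t).re * (p2 X θ t).re) : ℝ) : ℂ) := by
  have hr0 := hp.r_pos
  have hδ := hp.δ_pos
  have hs := hp.s_pos
  have d1 := re_diff hX.hol (by linarith) (by linarith) θ ht
  have d2 := re_diff hX.hol (by linarith) (by linarith) (θ - r * (1 + t)) ht
  have hj := jac_formula hB (x := fun θ t : ℝ => (X θ t).re) (r := r) d1 d2
    (by have := (Pm_real hB hp hX hr θ ht).1; linarith)
  obtain ⟨e1, e2⟩ := Pm_der hB hp hl hX hr θ ht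
  have g : ∀ φ : ℝ, deriv (fun z : ℝ => (X z t).re) φ = (p1 X φ t).re ∧
      deriv (fun τ : ℝ => (X φ τ).re) t = (p2 X φ t).re := by
    intro φ
    obtain ⟨h1, h2⟩ := real_mem φ (δ := 2 * δ) (s := 2 * s) (by linarith) (by linarith) ht
    exact ⟨(hX.hol.hasDerivAt1 h1 h2).real_of_complex.deriv,
      (hX.hol.hasDerivAt2 h1 h2).real_of_complex.deriv⟩
  simp only [(g _).1, (g _).2] at hj
  simp only [Jf]
  rw [e1, e2, real_val (rsym_p1 hX.real) θ t, real_val (rsym_p2 hX.real) θ t]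
  rw [← ofReal_mul, ← ofReal_mul, ← ofReal_sub]
  congr 1
  rw [div_mul_eq_mul_div, div_mul_eq_mul_div, div_mul_eq_mul_div, ← sub_div]
  congr 1

theorem twist_limit {σ σ' M M' ρ₀ r : ℝ} {B : ℂ → ℂ → ℂ} {X : ℕ → ℂ → ℂ → ℂ}
    {b δ s ε e : ℕ → ℝ} {x x₁ x₂ : ℝ → ℝ → ℝ} (hB : BD σ' ρ₀ M' B) (hl : LD σ M r (lB r B))
    (h : NSeq r σ M (lB r B) X b δ s ε e) (hx : NLim X x x₁ x₂) (hr : 8 * r ≤ ρ₀) {θ t : ℝ}
    (ht : |t| < 1 / 4) :
    0 < deriv (fun τ => deriv (fun Y => gS B (x (θ - r * (1 + τ)) τ) Y) (x θ τ)) t *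
        deriv (fun z => x z t) θ -
      deriv (fun z => deriv (fun Y => gS B (x (z - r * (1 + t)) t) Y) (x z t)) θ *
        deriv (fun τ => x θ τ) t := by
  have hr0 := (h.par 0).r_pos
  obtain ⟨φ, hφ⟩ : ∃ φ : ℝ, φ = θ - r * (1 + t) := ⟨_, rfl⟩
  have re_lim : ∀ {f : ℕ → ℂ} {a : ℝ}, Filter.Tendsto f Filter.atTop (nhds (a : ℂ)) →
      Filter.Tendsto (fun n => (f n).re) Filter.atTop (nhds a) := by
    intro f a hf
    have h1 := (continuous_re.tendsto _).comp hf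
    simpa [Function.comp_def] using h1
  -- the limits
  have l0 := re_lim (hx.lim0 θ t ht)
  have l0' := re_lim (hx.lim0 φ t ht)
  have l1 := re_lim (hx.lim1 θ t ht)
  have l1' := re_lim (hx.lim1 φ t ht)
  have l2 := re_lim (hx.lim2 θ t ht)
  have l2' := re_lim (hx.lim2 φ t ht)
  have hinc : |x θ t - x φ t| < ρ₀ := by
    have h1 : |x θ t - x φ t| ≤ 2 * r := by
      refine le_of_tendsto (l0.sub l0').abs (Filter.Eventually.of_forall fun n => ?_)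
      have h2 := (Pm_real hB (h.par n) (h.st n) hr θ ht).1
      rw [← hφ] at h2
      exact h2
    linarith
  have hG : ContinuousAt (fun z : ℝ × ℝ => fderiv ℝ (F0 B) z (1, 0)) (x φ t, x θ t) := by
    have h1 := (F0_smooth hB (z := (x φ t, x θ t)) hinc).fderiv_right (m := 0) (by norm_num)
    exact (h1.clm_apply contDiffAt_const).continuousAt
  have lG := hG.tendsto.comp (l0'.prodMk_nhds l0)
  have lJ := (lG.div_const r).mul ((((l2'.sub (l1'.const_mul r)).mul l1)).sub (l1'.mul l2))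
  have key : (1 : ℝ) ≤ fderiv ℝ (F0 B) (x φ t, x θ t) (1, 0) / r *
      ((x₂ φ t - r * x₁ φ t) * x₁ θ t - x₁ φ t * x₂ θ t) := by
    have he : Filter.Tendsto (fun n => 1 - e n) Filter.atTop (nhds (1 - 0)) := by
      have h1 : Summable e := by simpa using h.sum 0
      exact tendsto_const_nhds.sub h1.tendsto_atTop_zero
    rw [sub_zero] at he
    refine le_of_tendsto_of_tendsto' he lJ fun n => ?_
    have h1 := Jf_real hB (h.par n) hl (h.st n) hr (θ := θ) ht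
    have h2 := h.jac n θ t ht.le
    have h3 := (ta_bounds (h.par n) (h.st n)
      (real_mem 0 one_pos (h.par n).s_pos ht).2).2.2
    have h4 := (abs_le.mp ((Complex.abs_re_le_norm _).trans h2)).1
    rw [sub_re] at h4
    have h5 : 1 - e n ≤ (Jf r (lB r B) (X n) θ t).re := by linarith
    rw [h1, ofReal_re, ← hφ, G_eq hB] at h5
    · exact h5
    · have h6 := (Pm_real hB (h.par n) (h.st n) hr θ ht).1
      rw [← hφ] at h6
      linarith
  have hd : ∀ φ : ℝ, DifferentiableAt ℝ (fun z : ℝ × ℝ => x z.1 z.2) (φ, t) := by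
    intro φ
    have h1 : IsOpen {z : ℝ × ℝ | |z.2| < 1 / 4} := isOpen_lt continuous_snd.abs continuous_const
    have h2 : (φ, t) ∈ {z : ℝ × ℝ | |z.2| < 1 / 4} := ht
    exact (hx.smooth.contDiffAt (h1.mem_nhds h2)).differentiableAt (by norm_num)
  rw [hφ] at hinc
  rw [jac_formula hB (hd θ) (hd _) hinc, ← hφ, (hx.der1 θ t ht).deriv, (hx.der2 θ t ht).deriv,
    (hx.der1 φ t ht).deriv, (hx.der2 φ t ht).deriv, G_eq hB (by rw [hφ]; exact hinc)]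
  rw [div_mul_eq_mul_div, le_div_iff₀ hr0] at key
  linarith

end Pool.Agent.NOne
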