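import Pool.Agent.NOne.KIt
import Pool.Agent.NOne.KLim
import Pool.Agent.NOne.KEL
import Pool.Agent.NOne.KTw

/-!
# MP_74f563_an, n = 1, file KMain: Theorem C

PROOF.  `exists_NSeq`, `exists_limit`, `el_limit`, `twist_limit`.  `mono`: `deriv = x₁ ≥ 7/8`.
`inc`: by the mean value theorem `x(θ + ρ) - x θ = x₁(ξ) ρ`, `ρ = r (1 + t) ∈ (0, (5/4) r)`, so `0
< x(θ + ρ) - x θ ≤ (9/8)(5/4) r ≤ 2 r < ρ₀` (`8 r₀ ≤ ρ₀`). -/

set_option autoImplicit false

namespace Pool.Agent.NOne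

open Complex Set MeasureTheory

/-- Theorem C -/
theorem theoremC {σ ρ M : ℝ} {B : ℂ → ℂ → ℂ} (hB : BD σ ρ M B)
    (h0 : ∀ c > 0, c < ρ → ∃ κ > 0, HZ (gS B) c κ) :
    ∃ r₀ > (0 : ℝ), ∀ r : ℝ, 0 < r → r < r₀ → ∃ x : ℝ → ℝ → ℝ, LeafC B ρ r x := by
  obtain ⟨σ', M', r₀, hr₀, h8, H⟩ := exists_NSeq hB h0
  refine ⟨r₀, hr₀, fun r hr hrr => ?_⟩
  obtain ⟨hl, X, b, δ, s, ε, e, hN⟩ := H r hr hrr
  obtain ⟨x, x₁, x₂, hx⟩ := exists_limit hN
  have hr8 : 8 * r ≤ ρ := by linarith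
  refine ⟨x, hx.smooth, hx.per, ?_, ?_, fun θ t ht => el_limit hB hl hN hx hr8 ht,
    fun θ t ht => twist_limit hB hl hN hx hr8 ht⟩
  · intro θ t ht
    rw [(hx.der1 θ t ht).deriv]
    have := hx.low θ t ht
    linarith
  · intro θ t ht
    have ht' := abs_lt.mp ht
    have hρ0 : 0 < r * (1 + t) := mul_pos hr (by linarith [ht'.1])
    have hρ1 : r * (1 + t) < 5 / 4 * r := by nlinarith [ht'.2]
    have hab : θ < θ + r * (1 + t) := by linarith
    obtain ⟨c, -, hc⟩ := exists_hasDerivAt_eq_slope (fun z => x z t) (fun z => x₁ z t) hab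
      (fun z _ => (hx.der1 z t ht).continuousAt.continuousWithinAt)
      (fun z _ => hx.der1 z t ht)
    have h1 := hx.low c t ht
    have h2 := hx.up c t ht
    have h3 : x (θ + r * (1 + t)) t - x θ t = x₁ c t * (r * (1 + t)) := by
      have h4 : θ + r * (1 + t) - θ = r * (1 + t) := by ring
      rw [hc, h4, div_mul_cancel₀ _ hρ0.ne']
    rw [h3]
    constructor
    · exact mul_pos (by linarith) hρ0
    · have h4 : x₁ c t * (r * (1 + t)) ≤ 9 / 8 * (r * (1 + t)) :=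
        mul_le_mul_of_nonneg_right h2 hρ0.le
      nlinarith

end Pool.Agent.NOne
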