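import Pool.Agent.NOne.AOm

/-! ACv. Curves and their actions: restriction, gluing, translation, lower bound. -/

set_option autoImplicit false

namespace Pool.Agent.NOne

open Set MeasureTheory

variable {L : ℝ → ℝ → ℝ → ℝ} {z u z' u' : ℝ → ℝ} {a b c : ℝ}

/-- Proof. `L (z t) (u t) t` is measurable and bounded on `[a, b]`. (On `Icc a b`, `z` agrees with
a continuous function:
`ContinuousOn.measurable_piecewise` or `Set.IccExtend`.) -/
theorem cv_int (hL : Ton L) (h : Cv z u a b) :
    IntervalIntegrable (fun t => L (z t) (u t) t) volume a b := by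
  obtain ⟨M, hM⟩ := h.bdd
  obtain ⟨C, -, hC⟩ := ana_bdd hL.ana hL.perx hL.pert M
  rw [intervalIntegrable_iff_integrableOn_Icc_of_le h.le]
  have h1 : Continuous (IccExtend h.le (domRestrict (Icc a b) z)) :=
    (continuousOn_iff_continuous_domRestrict.1 h.cont).Icc_extend'
  have h2 : Measurable fun t => L (IccExtend h.le (domRestrict (Icc a b) z) t) (u t) t :=
    (ana_continuous hL.ana).measurable.comp
      (h1.measurable.prodMk (h.meas.prodMk measurable_id))
  have h3 : IntegrableOn (fun t => L (IccExtend h.le (domRestrict (Icc a b) z) t) (u t) t)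
      (Icc a b) volume := by
    refine Measure.integrableOn_of_bounded (M := C) ?_ h2.aestronglyMeasurable ?_
    · exact (isCompact_Icc (a := a) (b := b)).measure_lt_top.ne
    · refine (ae_restrict_mem measurableSet_Icc).mono fun t ht => ?_
      exact hC _ _ _ (hM t ht)
  refine h3.congr_fun (fun t ht => ?_) measurableSet_Icc
  show L (IccExtend h.le (domRestrict (Icc a b) z) t) (u t) t = L (z t) (u t) t
  rw [IccExtend_of_mem h.le _ ht]
  rfl

theorem cv_int_vel (h : Cv z u a b) : IntervalIntegrable u volume a b := by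
  obtain ⟨M, hM⟩ := h.bdd
  rw [intervalIntegrable_iff_integrableOn_Icc_of_le h.le]
  refine Measure.integrableOn_of_bounded (M := M) ?_ h.meas.aestronglyMeasurable ?_
  · exact (isCompact_Icc (a := a) (b := b)).measure_lt_top.ne
  · refine (ae_restrict_mem measurableSet_Icc).mono fun t ht => ?_
    exact hM t ht

/-- Proof. `MeasureTheory.integral_eq_of_hasDerivAt_off_countable` (the current name of
`intervalIntegral.integral_eq_of_has_deriv_at_off_countable`). -/
theorem cv_ftc (h : Cv z u a b) : ∫ t in a..b, u t = z b - z a := by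
  obtain ⟨N, hN, hd⟩ := h.der
  exact integral_eq_of_hasDerivAt_off_countable_of_le z u h.le hN h.cont
    (fun x hx => hd x hx.1 hx.2) (cv_int_vel h)

theorem cv_mono (h : Cv z u a b) {a' b' : ℝ} (h1 : a ≤ a') (h2 : a' ≤ b') (h3 : b' ≤ b) :
    Cv z u a' b' := by
  obtain ⟨N, hN, hd⟩ := h.der
  obtain ⟨M, hM⟩ := h.bdd
  exact ⟨h2, h.cont.mono (Icc_subset_Icc h1 h3),
    ⟨N, hN, fun t ht hn => hd t (Ioo_subset_Ioo h1 h3 ht) hn⟩, h.meas,
    ⟨M, fun t ht => hM t (Icc_subset_Icc h1 h3 ht)⟩⟩

theorem cv_congr (h : Cv z u a b) (hz : ∀ t ∈ Icc a b, z' t = z t) (hu : ∀ t ∈ Icc a b, u' t = u t)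
    (hm : Measurable u') : Cv z' u' a b := by
  obtain ⟨N, hN, hd⟩ := h.der
  obtain ⟨M, hM⟩ := h.bdd
  refine ⟨h.le, h.cont.congr hz, ⟨N, hN, fun t ht hn => ?_⟩, hm, ⟨M, fun t ht => ?_⟩⟩
  · rw [hu t (Ioo_subset_Icc_self ht)]
    refine (hd t ht hn).congr_of_eventuallyEq ?_
    filter_upwards [Ioo_mem_nhds ht.1 ht.2] with s hs
    exact hz s (Ioo_subset_Icc_self hs)
  · rw [hu t ht]
    exact hM t ht

theorem act_congr (hz : ∀ t ∈ Icc a b, z' t = z t) (hu : ∀ t ∈ Icc a b, u' t = u t) (hab : a ≤ b) :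
    act L z' u' a b = act L z u a b := by
  unfold act
  refine intervalIntegral.integral_congr fun t ht => ?_
  rw [uIcc_of_le hab] at ht
  show L (z' t) (u' t) t = L (z t) (u t) t
  rw [hz t ht, hu t ht]

theorem act_add (hL : Ton L) (h : Cv z u a c) (hab : a ≤ b) (hbc : b ≤ c) :
    act L z u a b + act L z u b c = act L z u a c := by
  exact intervalIntegral.integral_add_adjacent_intervals
    (cv_int hL (cv_mono h le_rfl hab hbc)) (cv_int hL (cv_mono h hab hbc le_rfl))

/-- Gluing. Proof. `fun t => if t ≤ b then z t else z' t`, `fun t => if t ≤ b then u t else u' t`.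
-/
theorem cv_glue (hL : Ton L) (h : Cv z u a b) (h' : Cv z' u' b c) (hb : z b = z' b) :
    ∃ y w : ℝ → ℝ, Cv y w a c ∧ (∀ t ∈ Icc a b, y t = z t) ∧ (∀ t ∈ Icc b c, y t = z' t) ∧
      (∀ t, t < b → w t = u t) ∧ (∀ t, b < t → w t = u' t) ∧
      act L y w a c = act L z u a b + act L z' u' b c := by
  classical
  set y : ℝ → ℝ := fun t => if t ≤ b then z t else z' t with hy
  set w : ℝ → ℝ := fun t => if t ≤ b then u t else u' t with hw
  have y1 : ∀ t ∈ Icc a b, y t = z t := fun t ht => if_pos ht.2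
  have y2 : ∀ t ∈ Icc b c, y t = z' t := by
    intro t ht
    rcases ht.1.eq_or_lt with rfl | h1
    · show (if b ≤ b then z b else z' b) = z' b
      rw [if_pos le_rfl, hb]
    · exact if_neg (not_le.2 h1)
  have w1 : ∀ t, t ≤ b → w t = u t := fun t ht => if_pos ht
  have w2 : ∀ t, b < t → w t = u' t := fun t ht => if_neg (not_le.2 ht)
  obtain ⟨N, hN, hd⟩ := h.der
  obtain ⟨M, hM⟩ := h.bdd
  obtain ⟨N', hN', hd'⟩ := h'.der
  obtain ⟨M', hM'⟩ := h'.bdd
  have hcv : Cv y w a c := by
    refine ⟨h.le.trans h'.le, ?_, ⟨N ∪ N' ∪ {b}, (hN.union hN').union (countable_singleton b), ?_⟩,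
      Measurable.ite measurableSet_Iic h.meas h'.meas, ⟨max M M', ?_⟩⟩
    · rw [← Icc_union_Icc_eq_Icc h.le h'.le]
      exact ContinuousOn.union_of_isClosed (h.cont.congr y1) (h'.cont.congr y2) isClosed_Icc
        isClosed_Icc
    · intro t ht hn
      rw [mem_union, mem_union, mem_singleton_iff, not_or, not_or] at hn
      rcases lt_or_gt_of_ne hn.2 with h1 | h1
      · rw [w1 t h1.le]
        refine (hd t ⟨ht.1, h1⟩ hn.1.1).congr_of_eventuallyEq ?_
        filter_upwards [Ioo_mem_nhds ht.1 h1] with s hs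
        exact y1 s (Ioo_subset_Icc_self hs)
      · rw [w2 t h1]
        refine (hd' t ⟨h1, ht.2⟩ hn.1.2).congr_of_eventuallyEq ?_
        filter_upwards [Ioo_mem_nhds h1 ht.2] with s hs
        exact y2 s (Ioo_subset_Icc_self hs)
    · intro t ht
      rcases le_or_gt t b with h1 | h1
      · rw [w1 t h1]
        exact (hM t ⟨ht.1, h1⟩).trans (le_max_left _ _)
      · rw [w2 t h1]
        exact (hM' t ⟨h1.le, ht.2⟩).trans (le_max_right _ _)
  refine ⟨y, w, hcv, y1, y2, fun t ht => w1 t ht.le, w2, ?_⟩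
  rw [← act_add hL hcv h.le h'.le, act_congr y1 (fun t ht => w1 t ht.2) h.le]
  congr 1
  unfold act
  rw [intervalIntegral.integral_of_le h'.le, intervalIntegral.integral_of_le h'.le]
  refine setIntegral_congr_fun measurableSet_Ioc fun t ht => ?_
  show L (y t) (w t) t = L (z' t) (u' t) t
  rw [y2 t (Ioc_subset_Icc_self ht), w2 t ht.1]

/-- Translation by integers: `z (t - n) + k` on `[a + n, b + n]`. -/
theorem cv_shift (h : Cv z u a b) (n k : ℤ) :
    Cv (fun t => z (t - n) + k) (fun t => u (t - n)) (a + n) (b + n) := by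
  obtain ⟨N, hN, hd⟩ := h.der
  obtain ⟨M, hM⟩ := h.bdd
  refine ⟨by linarith [h.le], ?_, ⟨(fun t => t + (n : ℝ)) '' N, hN.image _, ?_⟩,
    h.meas.comp (measurable_id.sub_const _), ⟨M, ?_⟩⟩
  · refine ContinuousOn.add ?_ continuousOn_const
    refine h.cont.comp (continuous_id.sub continuous_const).continuousOn fun t ht => ?_
    exact ⟨by simpa using sub_le_sub_right ht.1 (n : ℝ),
      by simpa using sub_le_sub_right ht.2 (n : ℝ)⟩
  · intro t ht hn
    have h1 : t - n ∈ Ioo a b := ⟨by linarith [ht.1], by linarith [ht.2]⟩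
    have h2 : t - n ∉ N := fun h3 => hn ⟨t - n, h3, by simp⟩
    have h3 := (hd _ h1 h2).comp_sub_const t (n : ℝ)
    exact h3.add_const _
  · intro t ht
    exact hM _ ⟨by linarith [ht.1], by linarith [ht.2]⟩

theorem act_shift (hL : Ton L) (z u : ℝ → ℝ) (a b : ℝ) (n k : ℤ) :
    act L (fun t => z (t - n) + k) (fun t => u (t - n)) (a + n) (b + n) = act L z u a b := by
  unfold act
  have h1 := intervalIntegral.integral_comp_sub_right (a := a + n) (b := b + n)
    (fun t => L (z t) (u t) t) (n : ℝ)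
  rw [add_sub_cancel_right, add_sub_cancel_right] at h1
  rw [← h1]
  refine intervalIntegral.integral_congr fun t _ => ?_
  show L (z (t - n) + k) (u (t - n)) t = L (z (t - n)) (u (t - n)) (t - n)
  rw [per_int hL.perx]
  conv_lhs => rw [show t = t - n + n by ring]
  rw [pet_int hL.pert]
  simp

/-- The same for the second form of the translation. -/
theorem act_shift' (hL : Ton L) (z u : ℝ → ℝ) (a b : ℝ) (n k : ℤ) :
    act L (fun t => z (t + n) + k) (fun t => u (t + n)) a b = act L z u (a + n) (b + n) := by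
  unfold act
  have h1 := intervalIntegral.integral_comp_add_right (a := a) (b := b)
    (fun t => L (z t) (u t) t) (n : ℝ)
  rw [← h1]
  refine intervalIntegral.integral_congr fun t _ => ?_
  show L (z (t + n) + k) (u (t + n)) t = L (z (t + n)) (u (t + n)) (t + n)
  rw [per_int hL.perx, pet_int hL.pert]

/-- Addition of an affine function. -/
theorem cv_affine (h : Cv z u a b) (l₀ l₁ : ℝ) :
    Cv (fun t => z t + (l₀ + l₁ * (t - a))) (fun t => u t + l₁) a b := by
  obtain ⟨N, hN, hd⟩ := h.der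
  obtain ⟨M, hM⟩ := h.bdd
  refine ⟨h.le, h.cont.add ?_, ⟨N, hN, fun t ht hn => ?_⟩, h.meas.add_const _,
    ⟨M + |l₁|, fun t ht => ?_⟩⟩
  · exact (continuous_const.add (continuous_const.mul
      (continuous_id.sub continuous_const))).continuousOn
  · refine (hd t ht hn).add ?_
    have h1 := (((hasDerivAt_id t).sub_const a).const_mul l₁).const_add l₀
    simpa using h1
  · exact (abs_add_le _ _).trans (by linarith [hM t ht])

/-- Superlinearity. Proof. Integrate `B |u| - C ≤ L`, and `|z b - z a| ≤ ∫ |u|`. -/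
theorem act_ge {B C : ℝ} (hL : Ton L) (hB : 0 ≤ B) (hC : ∀ x v t, B * |v| - C ≤ L x v t)
    (h : Cv z u a b) : B * |z b - z a| - C * (b - a) ≤ act L z u a b := by
  have h1 := (cv_int_vel h).abs
  have h2 : ∫ t in a..b, (B * |u t| - C) ≤ act L z u a b :=
    intervalIntegral.integral_mono_on h.le ((h1.const_mul B).sub intervalIntegrable_const)
      (cv_int hL h) fun t _ => hC _ _ _
  have h3 : ∫ t in a..b, (B * |u t| - C) = B * (∫ t in a..b, |u t|) - C * (b - a) := by
    rw [intervalIntegral.integral_sub (h1.const_mul B) intervalIntegrable_const,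
      intervalIntegral.integral_const_mul, intervalIntegral.integral_const, smul_eq_mul]
    ring
  have h4 : |z b - z a| ≤ ∫ t in a..b, |u t| := by
    rw [← cv_ftc h]
    exact intervalIntegral.abs_integral_le_integral_abs h.le
  nlinarith [mul_le_mul_of_nonneg_left h4 hB]

/-- A lower bound of the Lagrangian. -/
theorem ton_bdd_below (hL : Ton L) : ∃ C : ℝ, 0 ≤ C ∧ ∀ x v t, -C ≤ L x v t := by
  obtain ⟨C, hC⟩ := hL.sup 0
  refine ⟨max C 0, le_max_right _ _, fun x v t => ?_⟩
  have h1 := hC x v t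
  have h2 := le_max_left C 0
  linarith

end Pool.Agent.NOne
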