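import Pool.Agent.NOne.BAct
import Pool.Agent.NOne.ACv

/-!
# MP_74f563_an, n = 1, file BConc: concatenation of solution arcs

PROOF.  Induction on `k`.  `k = 0`: the constant curve on `[0, 0]` (`z = x 0`, `u = 0`, action `0`).
Step: a curve `z` on `[0, q k]` with `z (q k) = x k + p k` and the curve
`t ↦ FX L (t - q k) (x k) (v k) + p k` on `[q k, q (k + 1)]` (`cv_shift`, `sol_cv`, `fx_sol`, with the
integers `n = q k` and `p k`); glue (`cv_glue`) at `q k`, where both have the value `x k + p k`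
(`fx_zero`).  The end is `FX L q (x k) (v k) + p k = x (k + 1) + p (k + 1)`, and the action of the second
piece is `FA L q (x k) (v k)` (`act_shift`, `FA = act` of the solution on `[0, q]`).
-/

set_option autoImplicit false

namespace Pool.Agent.NOne

open Set MeasureTheory

variable {L : ℝ → ℝ → ℝ → ℝ}

theorem exists_concat (hL : Ton L) {q : ℕ} {p : ℤ} (k : ℕ) (x v : ℕ → ℝ)
    (h : ∀ j < k, FX L q (x j) (v j) = x (j + 1) + p) :
    ∃ z u : ℝ → ℝ, Cv z u 0 ((q * k : ℕ) : ℝ) ∧ z 0 = x 0 ∧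
      z ((q * k : ℕ) : ℝ) = x k + ((p * k : ℤ) : ℝ) ∧
      act L z u 0 ((q * k : ℕ) : ℝ) = ∑ j ∈ Finset.range k, FA L q (x j) (v j) := by
  induction k with
  | zero =>
    refine ⟨fun _ => x 0, fun _ => 0, ⟨by simp, continuousOn_const, ⟨∅, countable_empty,
      fun t _ _ => hasDerivAt_const t (x 0)⟩, measurable_const, ⟨0, fun t _ => by simp⟩⟩,
      rfl, by simp, ?_⟩
    unfold act
    simp
  | succ k ih =>
    obtain ⟨z, u, hc, h0, he, ha⟩ := ih fun j hj => h j (Nat.lt_succ_of_lt hj)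
    have hq : (0 : ℝ) ≤ (q : ℝ) := Nat.cast_nonneg q
    have hs := cv_shift (sol_cv (fx_sol hL (x k) (v k)) hq) ((q * k : ℕ) : ℤ) (p * k)
    have hs2 := act_shift hL (fun t => FX L t (x k) (v k)) (fun t => FW L t (x k) (v k)) 0 q
      ((q * k : ℕ) : ℤ) (p * k)
    have e1 : (0 : ℝ) + (((q * k : ℕ) : ℤ) : ℝ) = ((q * k : ℕ) : ℝ) := by
      rw [zero_add, Int.cast_natCast]
    have e2 : (q : ℝ) + (((q * k : ℕ) : ℤ) : ℝ) = ((q * (k + 1) : ℕ) : ℝ) := by
      push_cast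
      ring
    rw [e1, e2] at hs hs2
    have hz : z ((q * k : ℕ) : ℝ) =
        (fun t => FX L (t - (((q * k : ℕ) : ℤ) : ℝ)) (x k) (v k) + ((p * k : ℤ) : ℝ))
          ((q * k : ℕ) : ℝ) := by
      simp only [Int.cast_natCast, sub_self]
      rw [fx_zero hL, he]
    obtain ⟨y, w, hy, hy1, hy2, -, -, hya⟩ := cv_glue hL hc hs hz
    refine ⟨y, w, hy, ?_, ?_, ?_⟩
    · rw [hy1 0 ⟨le_rfl, hc.le⟩, h0]
    · rw [hy2 _ ⟨hs.le, le_rfl⟩]
      have e3 : ((q * (k + 1) : ℕ) : ℝ) - (((q * k : ℕ) : ℤ) : ℝ) = (q : ℝ) := by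
        rw [← e2]
        ring
      rw [e3, h k (Nat.lt_succ_self k)]
      push_cast
      ring
    · rw [hya, ha, hs2, Finset.sum_range_succ]
      rfl

end Pool.Agent.NOne
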