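import Pool.Agent.NOne.BGen

/-!
# MP_74f563_an, n = 1, file BGs: the normalised generating function `S1`

PROOFS.  `S1_ana`: `x ↦ ∫_0^x P0` is analytic by `analytic_of_deriv` and `P0_ana`
(`∫_x^Y = ∫_0^Y - ∫_0^x`).  `S1_dY`, `S1_dx`: `S0_dY`, `S0_dx`, fundamental theorem of calculus.
`diag`: at `Y = x`: `nu x x = V x`, `FW L q x (V x) = V (FX L q x (V x)) = V (x + p) = V x` (`fw_nat`,
`V_int`), so `∂_Y S0 (x, x) = P0 x` and `∂_x S0 (x, x) = -P0 x`; hence `x ↦ S0 x x` has derivative `0`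
and is constant: `S1 x x = 0`; `∂_Y S1 (x, Y) = ∂_Y S0 (x, Y) - P0 Y` vanishes at `Y = x`.
`S1_d2_pos`.  `g (x, Y) = ∂_Y S1 (x, Y)` is analytic (partial derivative of an analytic function) and
`g (x, x) = 0` for all `x`, so `∂_Y g (x, x) = - ∂_x g (x, x) = - ∂_x ∂_Y S1 = - ∂_Y ∂_x S1` (symmetry), and
`∂_x S1 (x, Y) = - d2 L x (nu x Y) 0 + P0 x`, `∂_Y ∂_x S1 = - d2 (d2 L) x (nu x Y) 0 · ∂_Y nu < 0`
(`Ton.conv`, `nu_dY`, `fx_dv_pos`).
`S1_per`: `S0_per`, `P0_per`: `∫_{x+1}^{Y+1} P0 = ∫_x^Y P0`.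
-/

set_option autoImplicit false

namespace Pool.Agent.NOne

open Set MeasureTheory

variable {L : ℝ → ℝ → ℝ → ℝ} {V : ℚ → ℝ → ℝ} {q : ℕ} {p : ℤ}

private theorem P0_cont (hC : C0I L V) (hq : 0 < q) : Continuous (P0 L V (p / q)) :=
  continuousOn_univ.1 (P0_ana hC hq).continuousOn

private theorem int_sub (hC : C0I L V) (hq : 0 < q) (x Y : ℝ) :
    ∫ τ in x..Y, P0 L V (p / q) τ =
      (∫ τ in (0 : ℝ)..Y, P0 L V (p / q) τ) - ∫ τ in (0 : ℝ)..x, P0 L V (p / q) τ :=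
  (intervalIntegral.integral_interval_sub_left ((P0_cont hC hq).intervalIntegrable _ _)
    ((P0_cont hC hq).intervalIntegrable _ _)).symm

private theorem int_deriv (hC : C0I L V) (hq : 0 < q) (x : ℝ) :
    HasDerivAt (fun x => ∫ τ in (0 : ℝ)..x, P0 L V (p / q) τ) (P0 L V (p / q) x) x :=
  ((P0_cont hC hq).integral_hasStrictDerivAt 0 x).hasDerivAt

theorem S1_ana (hC : C0I L V) (hq : 0 < q) :
    AnalyticOnNhd ℝ (fun z : ℝ × ℝ => S1 L V q p z.1 z.2) univ := by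
  have hG := analytic_of_deriv (int_deriv (p := p) hC hq) (P0_ana hC hq)
  have e : (fun z : ℝ × ℝ => S1 L V q p z.1 z.2) = fun z : ℝ × ℝ =>
      S0 L q p z.1 z.2 - S0 L q p 0 0 -
        ((fun x => ∫ τ in (0 : ℝ)..x, P0 L V (p / q) τ) z.2 -
          (fun x => ∫ τ in (0 : ℝ)..x, P0 L V (p / q) τ) z.1) := by
    funext z
    unfold S1
    rw [int_sub hC hq]
  rw [e]
  intro z hz
  have h1 : AnalyticAt ℝ (fun z : ℝ × ℝ =>
      (fun x => ∫ τ in (0 : ℝ)..x, P0 L V (p / q) τ) z.2) z :=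
    AnalyticAt.comp (g := fun x => ∫ τ in (0 : ℝ)..x, P0 L V (p / q) τ)
      (f := fun z : ℝ × ℝ => z.2) (hG z.2 (mem_univ _)) analyticAt_snd
  have h2 : AnalyticAt ℝ (fun z : ℝ × ℝ =>
      (fun x => ∫ τ in (0 : ℝ)..x, P0 L V (p / q) τ) z.1) z :=
    AnalyticAt.comp (g := fun x => ∫ τ in (0 : ℝ)..x, P0 L V (p / q) τ)
      (f := fun z : ℝ × ℝ => z.1) (hG z.1 (mem_univ _)) analyticAt_fst
  exact ((S0_ana hC hq z hz).sub analyticAt_const).sub (h1.sub h2)

theorem S1_per (hC : C0I L V) (hq : 0 < q) (x Y : ℝ) :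
    S1 L V q p (x + 1) (Y + 1) = S1 L V q p x Y := by
  unfold S1
  rw [S0_per hC hq, ← intervalIntegral.integral_comp_add_right]
  simp only [P0_per hC]

theorem S1_dY (hC : C0I L V) (hq : 0 < q) (x Y : ℝ) :
    HasDerivAt (fun Y => S1 L V q p x Y)
      (d2 L Y (FW L q x (nu L q p x Y)) 0 - P0 L V (p / q) Y) Y := by
  have h := ((S0_dY (p := p) hC hq x Y).sub_const (S0 L q p 0 0)).sub
    ((P0_cont (p := p) hC hq).integral_hasStrictDerivAt x Y).hasDerivAt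
  exact h

theorem S1_dx (hC : C0I L V) (hq : 0 < q) (x Y : ℝ) :
    HasDerivAt (fun x => S1 L V q p x Y)
      (P0 L V (p / q) x - d2 L x (nu L q p x Y) 0) x := by
  have h := ((S0_dx (p := p) hC hq x Y).sub_const (S0 L q p 0 0)).sub
    ((int_deriv (p := p) hC hq x).const_sub (∫ τ in (0 : ℝ)..Y, P0 L V (p / q) τ))
  have e : (fun x => S1 L V q p x Y) = fun x => S0 L q p x Y - S0 L q p 0 0 -
      ((∫ τ in (0 : ℝ)..Y, P0 L V (p / q) τ) - ∫ τ in (0 : ℝ)..x, P0 L V (p / q) τ) := by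
    funext x
    unfold S1
    rw [int_sub hC hq]
  rw [e]
  refine h.congr_deriv ?_
  ring

private theorem fw_diag (hC : C0I L V) (hq : 0 < q) (x : ℝ) :
    FW L q x (nu L q p x x) = V (p / q) x := by
  have h1 := nu_spec (p := p) hC hq x x
  rw [nu_diag hC hq] at h1 ⊢
  rw [fw_nat hC, h1, V_int hC]

private theorem gY_diag (hC : C0I L V) (hq : 0 < q) (x : ℝ) :
    d2 L x (FW L q x (nu L q p x x)) 0 - P0 L V (p / q) x = 0 := by
  rw [fw_diag hC hq]
  exact sub_self _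

private theorem F_fd (hC : C0I L V) (hq : 0 < q) (z : ℝ × ℝ) :
    HasFDerivAt (fun z : ℝ × ℝ => S1 L V q p z.1 z.2)
      (fderiv ℝ (fun z : ℝ × ℝ => S1 L V q p z.1 z.2) z) z :=
  (S1_ana hC hq z (mem_univ z)).differentiableAt.hasFDerivAt

private theorem F_b (hC : C0I L V) (hq : 0 < q) (x Y : ℝ) :
    fderiv ℝ (fun z : ℝ × ℝ => S1 L V q p z.1 z.2) (x, Y) (0, 1) =
      d2 L Y (FW L q x (nu L q p x Y)) 0 - P0 L V (p / q) Y := by
  have h1 : HasDerivAt (fun y : ℝ => ((x, y) : ℝ × ℝ)) (0, 1) Y :=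
    (hasDerivAt_const Y x).prodMk (hasDerivAt_id Y)
  have h2 := (F_fd (p := p) hC hq (x, Y)).comp_hasDerivAt Y h1
  exact h2.unique (S1_dY hC hq x Y)

private theorem F_a (hC : C0I L V) (hq : 0 < q) (x Y : ℝ) :
    fderiv ℝ (fun z : ℝ × ℝ => S1 L V q p z.1 z.2) (x, Y) (1, 0) =
      P0 L V (p / q) x - d2 L x (nu L q p x Y) 0 := by
  have h1 : HasDerivAt (fun y : ℝ => ((y, Y) : ℝ × ℝ)) (1, 0) x :=
    (hasDerivAt_id x).prodMk (hasDerivAt_const x Y)
  have h2 := (F_fd (p := p) hC hq (x, Y)).comp_hasDerivAt x h1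
  exact h2.unique (S1_dx hC hq x Y)

theorem S1_diag (hC : C0I L V) (hq : 0 < q) (x : ℝ) : S1 L V q p x x = 0 := by
  have hd : ∀ x : ℝ, HasDerivAt (fun x => S1 L V q p x x) 0 x := by
    intro x
    have h1 : HasDerivAt (fun y : ℝ => ((y, y) : ℝ × ℝ)) (1, 1) x :=
      (hasDerivAt_id x).prodMk (hasDerivAt_id x)
    have h2 := (F_fd (p := p) hC hq (x, x)).comp_hasDerivAt_of_eq x h1 rfl
    refine h2.congr_deriv ?_
    have h3 : ((1, 1) : ℝ × ℝ) = (1, 0) + (0, 1) := by simp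
    rw [h3, map_add, F_a hC hq, F_b hC hq, gY_diag hC hq, nu_diag hC hq, add_zero]
    exact sub_self _
  have h1 := is_const_of_deriv_eq_zero (f := fun x => S1 L V q p x x)
    (fun x => (hd x).differentiableAt) (fun x => (hd x).deriv) x 0
  have h2 : S1 L V q p x x = S1 L V q p 0 0 := h1
  rw [h2]
  unfold S1
  rw [intervalIntegral.integral_same, sub_self, sub_zero]

theorem S1_dY_diag (hC : C0I L V) (hq : 0 < q) (x : ℝ) :
    deriv (fun Y => S1 L V q p x Y) x = 0 := by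
  rw [(S1_dY hC hq x x).deriv, gY_diag hC hq]

theorem S1_d2_pos (hC : C0I L V) (hq : 0 < q) (x : ℝ) :
    0 < deriv (deriv fun Y => S1 L V q p x Y) x := by
  set F : ℝ × ℝ → ℝ := fun z => S1 L V q p z.1 z.2 with hF
  have hc : ContDiff ℝ 2 F := contDiffOn_univ.1 (S1_ana hC hq).contDiffOn_of_completeSpace
  have hc1 : ContDiff ℝ 1 (fderiv ℝ F) := hc.fderiv_right (by norm_num)
  have hD : HasFDerivAt (fderiv ℝ F) (fderiv ℝ (fderiv ℝ F) (x, x)) (x, x) :=
    ((hc1.differentiable (by norm_num)) (x, x)).hasFDerivAt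
  set D := fderiv ℝ (fderiv ℝ F) (x, x) with hDdef
  have hdir : ∀ (c : ℝ → ℝ × ℝ) (c' e : ℝ × ℝ), c x = (x, x) → HasDerivAt c c' x →
      HasDerivAt (fun t => fderiv ℝ F (c t) e) (D c' e) x := by
    intro c c' e hcx hcd
    have h1 : HasDerivAt (fun t => fderiv ℝ F (c t)) (D c') x := by
      have h2 : HasFDerivAt (fderiv ℝ F) D (c x) := by
        rw [hcx]
        exact hD
      exact h2.comp_hasDerivAt x hcd
    have h3 := h1.clm_apply (hasDerivAt_const x e)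
    simpa using h3
  have hsym : D (1, 0) (0, 1) = D (0, 1) (1, 0) := by
    have h1 : IsSymmSndFDerivAt ℝ F (x, x) :=
      hc.contDiffAt.isSymmSndFDerivAt (by simp)
    exact h1 (1, 0) (0, 1)
  -- the derivative along the diagonal
  have h1 : D (1, 1) (0, 1) = 0 := by
    have h2 := hdir (fun t => (t, t)) (1, 1) (0, 1) rfl ((hasDerivAt_id x).prodMk (hasDerivAt_id x))
    have h3 : (fun t : ℝ => fderiv ℝ F (t, t) (0, 1)) = fun _ => (0 : ℝ) := by
      funext t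
      rw [hF, F_b hC hq, gY_diag hC hq]
    rw [h3] at h2
    exact h2.unique (hasDerivAt_const x (0 : ℝ))
  -- the mixed derivative
  have h4 : D (0, 1) (1, 0) < 0 := by
    have h2 := hdir (fun t => (x, t)) (0, 1) (1, 0) rfl
      ((hasDerivAt_const x x).prodMk (hasDerivAt_id x))
    have h3 : (fun t : ℝ => fderiv ℝ F (x, t) (1, 0)) =
        fun t => P0 L V (p / q) x - d2 L x (nu L q p x t) 0 := by
      funext t
      rw [hF, F_a hC hq]
    rw [h3] at h2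
    have hn := nu_dY (p := p) hC hq x x
    have h5 := (ana_hd2 (ana_d2 hC.ton.ana) x (nu L q p x x) 0).comp x hn
    have h6 := h2.unique (h5.const_sub (P0 L V (p / q) x))
    rw [h6]
    have h7 := hC.ton.conv x (nu L q p x x) 0
    have h8 : 0 < deriv (fun v => FX L q x v) (nu L q p x x) :=
      fx_dv_pos hC (Nat.cast_pos.2 hq) x _
    have h9 := mul_pos h7 (one_div_pos.2 h8)
    linarith
  have h5 : D (1, 1) (0, 1) = D (1, 0) (0, 1) + D (0, 1) (0, 1) := by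
    have h3 : ((1, 1) : ℝ × ℝ) = (1, 0) + (0, 1) := by simp
    rw [h3, map_add]
    rfl
  have h6 : 0 < D (0, 1) (0, 1) := by
    rw [h5, hsym] at h1
    linarith
  have h7 : deriv (deriv fun Y => S1 L V q p x Y) x = D (0, 1) (0, 1) := by
    have h2 := hdir (fun t => (x, t)) (0, 1) (0, 1) rfl
      ((hasDerivAt_const x x).prodMk (hasDerivAt_id x))
    have h3 : (deriv fun Y => S1 L V q p x Y) = fun t : ℝ => fderiv ℝ F (x, t) (0, 1) := by
      funext t
      rw [(S1_dY hC hq x t).deriv, hF, F_b hC hq]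
    rw [h3]
    exact h2.deriv
  rw [h7]
  exact h6

end Pool.Agent.NOne
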