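import Pool.Agent.NOne.BLeaf
import Pool.Agent.NOne.BConc
import Pool.Agent.NOne.BGs
import Pool.Agent.NOne.KDefs

/-!
# MP_74f563_an, n = 1, file BHZ: minimal configurations (H0)

PROOF of `hz`.  `ξ` is a continuous strictly increasing bijection of `ℝ` with `ξ (a + 1) = ξ a + 1`; its
inverse `G` is continuous, `G (x + 1) = G x + 1`, hence uniformly continuous: there is `c' > 0` with
`|x - y| < c' → |G x - G y| < c`.  `κ` from `leaf_small` for `c'`.  Let `m / k < κ`, `a ∈ ℝ`, `x = ξ a`,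
`X j = cfg L V q p k m x j`, `y j = G (X j)`.  Then `y 0 = a`, `y k = G (x + m) = a + m`
(`leaf_config`), `0 < y (j+1) - y j < c`.
Minimality.  `nu L q p (X j) (X (j+1)) = V h (X j)` (`nu_eq`, `leaf_config`), so
`∑ S0 (X j) (X (j+1)) = ∑ FA L q (X j) (V h (X j)) = FA L (q k) x (V h x)`, and
`∑_{j<k} S1 (X j) (X (j+1)) = FA L (q k) x (V h x) - k S0 0 0 - ∫_x^{x+m} P0`
(`intervalIntegral.sum_integral_adjacent_intervals`).  For a competitor `b` (`b k = b 0 + m`) put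
`Y j = ξ (b j)`, `Y k = Y 0 + m`, `v j = nu L q p (Y j) (Y (j+1))` (`nu_spec`); `exists_concat` gives a curve
`z` on `[0, q k]` with `z (q k) = Y k + p k = z 0 + (p k + m)` and action `∑ S0 (Y j) (Y (j+1))`; `C0I.mini`
for the pair `(q k, p k + m)` and the point `x`: `FA L (q k) x (V h x) ≤ ∑ S0 (Y j) (Y (j+1))`.
The integrals agree: `∫_x^{x+m} P0 = m ∫_0^1 P0 = ∫_{Y 0}^{Y 0 + m} P0` (`P0_per`, `P0_ana` for continuity).
Divide by `β²`.
`HZ_congr`: in `HZ` only the values of `S` at pairs with `|b - a| < c` occur.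
-/

set_option autoImplicit false

namespace Pool.Agent.NOne

open Set MeasureTheory

variable {L : ℝ → ℝ → ℝ → ℝ} {V : ℚ → ℝ → ℝ} {q : ℕ} {p : ℤ}

theorem HZ_congr {S S' : ℝ → ℝ → ℝ} {c κ : ℝ} (h : HZ S c κ)
    (hS : ∀ a b : ℝ, |b - a| < c → S a b = S' a b) : HZ S' c κ := by
  intro k m hk hm hkm a
  obtain ⟨y, h0, h1, h2, h3⟩ := h k m hk hm hkm a
  refine ⟨y, h0, h1, h2, fun b hb hbc => ?_⟩
  have e1 : ∑ j ∈ Finset.range k, S' (y j) (y (j + 1)) =
      ∑ j ∈ Finset.range k, S (y j) (y (j + 1)) := by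
    refine Finset.sum_congr rfl fun j hj => (hS _ _ ?_).symm
    have h4 := h2 j (Finset.mem_range.1 hj)
    rw [abs_of_pos h4.1]
    exact h4.2
  have e2 : ∑ j ∈ Finset.range k, S' (b j) (b (j + 1)) =
      ∑ j ∈ Finset.range k, S (b j) (b (j + 1)) :=
    Finset.sum_congr rfl fun j hj => (hS _ _ (hbc j (Finset.mem_range.1 hj))).symm
  rw [e1, e2]
  exact h3 b hb hbc

/-- translation by natural numbers -/
private theorem xi_nat {ξ : ℝ → ℝ} (hξ1 : ∀ a, ξ (a + 1) = ξ a + 1) (n : ℕ) (a : ℝ) :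
    ξ (a + n) = ξ a + n := by
  induction n with
  | zero => simp
  | succ n ih =>
    have h1 : a + ((n + 1 : ℕ) : ℝ) = (a + n) + 1 := by
      push_cast
      ring
    rw [h1, hξ1, ih]
    push_cast
    ring

private theorem xi_surj {ξ : ℝ → ℝ} (hξ : Continuous ξ) (hξ1 : ∀ a, ξ (a + 1) = ξ a + 1)
    (y : ℝ) : ∃ a, ξ a = y := by
  obtain ⟨n, hn⟩ := exists_nat_ge (|y - ξ 0|)
  have h1 : ξ (-(n : ℝ)) ≤ y := by
    have h2 := xi_nat hξ1 n (-(n : ℝ))
    rw [neg_add_cancel] at h2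
    have h3 := neg_abs_le (y - ξ 0)
    linarith
  have h4 : y ≤ ξ (n : ℝ) := by
    have h2 := xi_nat hξ1 n 0
    rw [zero_add] at h2
    have h3 := le_abs_self (y - ξ 0)
    linarith
  exact mem_range_of_exists_le_of_exists_ge hξ ⟨_, h1⟩ ⟨_, h4⟩

/-- the increments of the inverse function are small -/
private theorem xi_inc {ξ : ℝ → ℝ} (hξ : Continuous ξ) (hξ1 : ∀ a, ξ (a + 1) = ξ a + 1)
    (hξm : StrictMono ξ) {c : ℝ} (hc : 0 < c) :
    ∃ c' > 0, ∀ a b : ℝ, ξ b - ξ a < c' → b - a < c := by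
  have hcont : Continuous fun a => ξ (a + c) - ξ a :=
    (hξ.comp (continuous_id.add continuous_const)).sub hξ
  have hper : Function.Periodic (fun a => ξ (a + c) - ξ a) 1 := by
    intro a
    have h1 : a + 1 + c = a + c + 1 := by ring
    simp only [h1, hξ1]
    ring
  obtain ⟨a₀, -, ha₀⟩ := isCompact_Icc.exists_isMinOn (nonempty_Icc.2 (zero_le_one (α := ℝ)))
    hcont.continuousOn
  refine ⟨ξ (a₀ + c) - ξ a₀, sub_pos.2 (hξm (by linarith)), fun a b hab => ?_⟩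
  by_contra hcon
  rw [not_lt] at hcon
  have h2 : ξ (a + c) ≤ ξ b := hξm.monotone (by linarith)
  obtain ⟨a₁, ha₁, h3⟩ := hper.exists_mem_Ico₀ one_pos a
  have h4 := ha₀ (Ico_subset_Icc_self ha₁)
  simp only [mem_ofPred_eq] at h3 h4
  linarith

/-- the integral over the periods -/
private theorem per_int_eq {f : ℝ → ℝ} (hf : ∀ x, f (x + 1) = f x) (m : ℕ) (x y : ℝ) :
    ∫ τ in x..x + m, f τ = ∫ τ in y..y + m, f τ := by
  have h1 : Function.Periodic f 1 := hf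
  have h2 := h1.nat_mul m
  rw [mul_one] at h2
  exact h2.intervalIntegral_add_eq x y

private theorem sum_int {f : ℝ → ℝ} (hf : Continuous f) (X : ℕ → ℝ) (k : ℕ) :
    ∑ j ∈ Finset.range k, ∫ τ in X j..X (j + 1), f τ = ∫ τ in X 0..X k, f τ :=
  intervalIntegral.sum_integral_adjacent_intervals fun _ _ => hf.intervalIntegrable _ _

/-- the sum of the values of `S1` -/
private theorem sum_S1 (hC : C0I L V) (hq : 0 < q) (X : ℕ → ℝ) (k : ℕ) :
    ∑ j ∈ Finset.range k, S1 L V q p (X j) (X (j + 1)) =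
      ∑ j ∈ Finset.range k, S0 L q p (X j) (X (j + 1)) - k * S0 L q p 0 0 -
        ∫ τ in X 0..X k, P0 L V (p / q) τ := by
  have hcont : Continuous (P0 L V (p / q)) := continuousOn_univ.1 (P0_ana hC hq).continuousOn
  rw [← sum_int hcont X k]
  simp only [S1, Finset.sum_sub_distrib, Finset.sum_const, Finset.card_range, nsmul_eq_mul]

/-- the minimality of the configurations on the leaves -/
private theorem leaf_mini (hC : C0I L V) (hq : 0 < q) {k m : ℕ} (hk : 0 < k) (hm : 0 < m) (x : ℝ)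
    (Y : ℕ → ℝ) (hY : Y k = Y 0 + m) :
    ∑ j ∈ Finset.range k, S1 L V q p (cfg L V q p k m x j) (cfg L V q p k m x (j + 1)) ≤
      ∑ j ∈ Finset.range k, S1 L V q p (Y j) (Y (j + 1)) := by
  obtain ⟨h0, h1, h2, -, h3⟩ := leaf_config (p := p) hC hq hk hm x
  rw [sum_S1 hC hq, sum_S1 hC hq, h0, h1, hY]
  have e1 : ∑ j ∈ Finset.range k, S0 L q p (cfg L V q p k m x j) (cfg L V q p k m x (j + 1)) =
      FA L ((q * k : ℕ) : ℝ) x (V (((p * k + m : ℤ) : ℚ) / ((q * k : ℕ) : ℚ)) x) := by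
    rw [← h3]
    refine Finset.sum_congr rfl fun j _ => ?_
    unfold S0
    rw [nu_eq hC hq (h2 j)]
  obtain ⟨z, u, hz, hz0, hz1, hz2⟩ := exists_concat hC.ton k Y
    (fun j => nu L q p (Y j) (Y (j + 1))) (fun j _ => nu_spec hC hq (Y j) (Y (j + 1)))
  have hz3 : z ((q * k : ℕ) : ℝ) = z 0 + ((p * k + m : ℤ) : ℝ) := by
    rw [hz1, hz0, hY]
    push_cast
    ring
  have h4 := hC.mini (q * k) (p * k + m) (Nat.mul_pos hq hk) x z u hz hz3
  rw [hz2] at h4
  have e2 : ∑ j ∈ Finset.range k, FA L q (Y j) (nu L q p (Y j) (Y (j + 1))) =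
      ∑ j ∈ Finset.range k, S0 L q p (Y j) (Y (j + 1)) := rfl
  rw [e2] at h4
  rw [e1, per_int_eq (P0_per hC _) m x (Y 0)]
  linarith

theorem hz (hC : C0I L V) (hq : 0 < q) {ξ : ℝ → ℝ} (hξ : Continuous ξ)
    (hξ1 : ∀ a, ξ (a + 1) = ξ a + 1) (hξm : StrictMono ξ) {β : ℝ} (hβ : 0 < β) {c : ℝ}
    (hc : 0 < c) : ∃ κ > 0, HZ (fun a b => S1 L V q p (ξ a) (ξ b) / β ^ 2) c κ := by
  obtain ⟨c', hc', hcc⟩ := xi_inc hξ hξ1 hξm hc
  obtain ⟨κ, hκ, hs⟩ := leaf_small (p := p) hC hq hc'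
  refine ⟨κ, hκ, fun k m hk hm hkm a => ?_⟩
  have h5 := hs k m hk hm hkm (ξ a)
  obtain ⟨h0, h1, -, h2, -⟩ := leaf_config (p := p) hC hq hk hm (ξ a)
  choose y hy using fun j => xi_surj hξ hξ1 (cfg L V q p k m (ξ a) j)
  have hy0 : y 0 = a := hξm.injective (by rw [hy, h0])
  have hyk : y k = a + m := hξm.injective (by rw [hy, h1, xi_nat hξ1])
  refine ⟨y, hy0, hyk, fun j _ => ⟨?_, ?_⟩, fun b hb _ => ?_⟩
  · have h6 := h2 j
    rw [← hy, ← hy] at h6
    have h7 : ξ (y j) < ξ (y (j + 1)) := by linarith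
    have h8 := hξm.lt_iff_lt.1 h7
    linarith
  · refine hcc _ _ ?_
    rw [hy, hy]
    exact h5 j
  · have h6 := leaf_mini (p := p) hC hq hk hm (ξ a) (fun j => ξ (b j)) (by
      simp only [hb, xi_nat hξ1])
    simp only [hy]
    rw [← Finset.sum_div, ← Finset.sum_div]
    exact div_le_div_of_nonneg_right h6 (by positivity)

end Pool.Agent.NOne
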