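import Pool.Agent.NOne.KSh

/-!
# MP_74f563_an, n = 1, file KLag: the Lagrangian `lam`

`LD.bounds`.  PROOF.  `f = lam - η²` is holomorphic on `|Im x| < σ`, `‖η‖ < 5` and bounded by `M r`
there.  Cauchy estimates in one variable at a time
(`Complex.norm_deriv_le_of_forall_mem_sphere_norm_le`, `hol_p_general`):
`p2 f` is bounded by `2 M r` on `|Im x| < σ`, `‖η‖ < 9/2` (radius `1/2`); `p2 (p2 f)` by `4 M r` on
`‖η‖ < 4`; `p1 f` by `4 M r / σ` on `|Im x| < 3σ/4` (radius `σ/4`), `p1 (p1 f)` by `16 M r / σ²` on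
`|Im x| < σ/2`, `p1 (p2 f)` by `(2 M r) / (σ/2) = 4 M r / σ` on `|Im x| < σ/2`.  All are
`≤ 16 M r / σ²` as `σ ≤ 1`.  (Use radii slightly smaller than the distance if closed discs are
needed: the distances above are attained with strict inequalities for the centres.)
Derivatives of `η²`: `p1 = 0`, `p2 = 2 η`, `p2 p2 = 2`.

`LD_of_BD`.  PROOF.  For `‖η‖ < 5` and `r < ρ / 5`: `‖r η‖ < ρ`, so `lB r B` is holomorphic.  The
function `w ↦ B x w - 1` is holomorphic on `‖w‖ < ρ`, bounded by `M + 1`, and vanishes at `0`: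
`‖B x w - 1‖ ≤ (M + 1) ‖w‖ / ρ` (Schwarz' lemma, `Complex.dist_le_div_mul_dist_of_mapsTo_ball`
for a slightly larger bound, or the Cauchy estimate and the mean value inequality on a smaller disc:
any bound `≤ C ‖w‖` for `‖w‖ < ρ / 2` is sufficient, take then `r₀ = ρ / 10`).  So
`‖lam x η - η²‖ = ‖η‖² ‖B x (r η) - 1‖ ≤ 25 · C · 5 r`.  `M' = max 1 (125 C)`.
(`M ≥ 1` since `1 = ‖B 0 0‖ ≤ M`.)
-/

set_option autoImplicit false

namespace Pool.Agent.NOne

open Complex Set MeasureTheory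
open scoped ComplexConjugate

variable {σ M r b δ s : ℝ} {lam : ℂ → ℂ → ℂ}

/-- the domains of the Cauchy estimates -/
private def Dd (a b : ℝ) : Set (ℂ × ℂ) := {q | |q.1.im| < a ∧ ‖q.2‖ < b}

private theorem isOpen_Dd (a b : ℝ) : IsOpen (Dd a b) := by
  have h1 : IsOpen {q : ℂ × ℂ | |q.1.im| < a} :=
    isOpen_lt ((continuous_im.comp continuous_fst).abs) continuous_const
  have h2 : IsOpen {q : ℂ × ℂ | ‖q.2‖ < b} := isOpen_lt continuous_snd.norm continuous_const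
  exact h1.inter h2

private theorem slice_fst {G : ℂ → ℂ → ℂ} {V : Set (ℂ × ℂ)} (hV : IsOpen V)
    (hG : DifferentiableOn ℂ (fun q : ℂ × ℂ => G q.1 q.2) V) {x η : ℂ} (h : (x, η) ∈ V) :
    DifferentiableAt ℂ (fun z => G z η) x := by
  have h1 : DifferentiableAt ℂ (fun q : ℂ × ℂ => G q.1 q.2) (x, η) :=
    (hG _ h).differentiableAt (hV.mem_nhds h)
  have h2 : DifferentiableAt ℂ (fun z : ℂ => ((z, η) : ℂ × ℂ)) x :=
    differentiableAt_id.prodMk (differentiableAt_const _)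
  exact DifferentiableAt.comp x h1 h2

private theorem slice_snd {G : ℂ → ℂ → ℂ} {V : Set (ℂ × ℂ)} (hV : IsOpen V)
    (hG : DifferentiableOn ℂ (fun q : ℂ × ℂ => G q.1 q.2) V) {x η : ℂ} (h : (x, η) ∈ V) :
    DifferentiableAt ℂ (fun z => G x z) η := by
  have h1 : DifferentiableAt ℂ (fun q : ℂ × ℂ => G q.1 q.2) (x, η) :=
    (hG _ h).differentiableAt (hV.mem_nhds h)
  have h2 : DifferentiableAt ℂ (fun z : ℂ => ((x, z) : ℂ × ℂ)) η :=
    (differentiableAt_const _).prodMk differentiableAt_id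
  exact DifferentiableAt.comp (g := fun q : ℂ × ℂ => G q.1 q.2) η h1 h2

private theorem cau_fst {G : ℂ → ℂ → ℂ} {a a' b C : ℝ}
    (hG : DifferentiableOn ℂ (fun q : ℂ × ℂ => G q.1 q.2) (Dd a b))
    (hC : ∀ q ∈ Dd a b, ‖G q.1 q.2‖ ≤ C) (ha : a' < a) :
    ∀ q ∈ Dd a' b, ‖p1 G q.1 q.2‖ ≤ C / (a - a') := by
  rintro ⟨x, η⟩ ⟨hx, hη⟩
  have hmem : ∀ z ∈ Metric.closedBall x (a - a'), (z, η) ∈ Dd a b := by
    intro z hz
    refine ⟨?_, hη⟩
    rw [Metric.mem_closedBall, dist_eq_norm] at hz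
    have h1 : |z.im - x.im| ≤ a - a' := by
      rw [← sub_im]
      exact (abs_im_le_norm _).trans hz
    have h2 : |z.im| ≤ |x.im| + |z.im - x.im| := by
      have := abs_add_le x.im (z.im - x.im)
      simpa using this
    have h3 : |x.im| < a' := hx
    show |z.im| < a
    linarith
  have hd : DifferentiableOn ℂ (fun z => G z η) (Metric.closedBall x (a - a')) := fun z hz =>
    (slice_fst (isOpen_Dd a b) hG (hmem z hz)).differentiableWithinAt
  refine norm_deriv_le_of_forall_mem_sphere_norm_le (sub_pos.2 ha) ?_ ?_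
  · exact hd.diffContOnCl_ball subset_rfl
  · intro z hz
    exact hC (z, η) (hmem z (Metric.sphere_subset_closedBall hz))

private theorem cau_snd {G : ℂ → ℂ → ℂ} {a b b' C : ℝ}
    (hG : DifferentiableOn ℂ (fun q : ℂ × ℂ => G q.1 q.2) (Dd a b))
    (hC : ∀ q ∈ Dd a b, ‖G q.1 q.2‖ ≤ C) (hb : b' < b) :
    ∀ q ∈ Dd a b', ‖p2 G q.1 q.2‖ ≤ C / (b - b') := by
  rintro ⟨x, η⟩ ⟨hx, hη⟩
  have hmem : ∀ z ∈ Metric.closedBall η (b - b'), (x, z) ∈ Dd a b := by
    intro z hz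
    refine ⟨hx, ?_⟩
    rw [Metric.mem_closedBall, dist_eq_norm] at hz
    have h2 : ‖z‖ ≤ ‖η‖ + ‖z - η‖ := by
      have := norm_add_le η (z - η)
      simpa using this
    have h3 : ‖η‖ < b' := hη
    show ‖z‖ < b
    linarith
  have hd : DifferentiableOn ℂ (fun z => G x z) (Metric.closedBall η (b - b')) := fun z hz =>
    (slice_snd (isOpen_Dd a b) hG (hmem z hz)).differentiableWithinAt
  refine norm_deriv_le_of_forall_mem_sphere_norm_le (sub_pos.2 hb) ?_ ?_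
  · exact hd.diffContOnCl_ball subset_rfl
  · intro z hz
    exact hC (x, z) (hmem z (Metric.sphere_subset_closedBall hz))

private theorem RR_subset (hσ : 0 < σ) : RR σ ⊆ Dd σ 5 := by
  rintro q ⟨h1, h2⟩
  exact ⟨by linarith, by linarith⟩

theorem isOpen_RR (σ : ℝ) : IsOpen (RR σ) := isOpen_Dd (σ / 2) 4

theorem LD.holR (h : LD σ M r lam) (hσ : 0 < σ) : HolR σ lam ∧ HolR σ (p1 lam) ∧
    HolR σ (p2 lam) ∧ HolR σ (p1 (p1 lam)) ∧ HolR σ (p1 (p2 lam)) ∧ HolR σ (p2 (p2 lam)) := by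
  have h0 : DifferentiableOn ℂ (fun q : ℂ × ℂ => lam q.1 q.2) (Dd σ 5) := h.hol
  obtain ⟨h1, h2, -, -⟩ := hol_p_general (isOpen_Dd σ 5) h0
  obtain ⟨h11, -, -, -⟩ := hol_p_general (isOpen_Dd σ 5) h1
  obtain ⟨h12, h22, -, -⟩ := hol_p_general (isOpen_Dd σ 5) h2
  have hs := RR_subset hσ
  exact ⟨h0.mono hs, h1.mono hs, h2.mono hs, h11.mono hs, h12.mono hs, h22.mono hs⟩

/-- the derivatives of `lam` along `RR σ` -/
theorem LD.schwarz (h : LD σ M r lam) (hσ : 0 < σ) {q : ℂ × ℂ} (hq : q ∈ RR σ) :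
    p1 (p2 lam) q.1 q.2 = p2 (p1 lam) q.1 q.2 := by
  have h0 : DifferentiableOn ℂ (fun q : ℂ × ℂ => lam q.1 q.2) (Dd σ 5) := h.hol
  exact (hol_p_general (isOpen_Dd σ 5) h0).2.2.2 q (RR_subset hσ hq)

/-- the derivative of a function on `RR σ` -/
theorem HolR.hasFDerivAt {G : ℂ → ℂ → ℂ} (hG : HolR σ G) {x η : ℂ} (h : (x, η) ∈ RR σ) :
    HasFDerivAt (fun q : ℂ × ℂ => G q.1 q.2)
      (p1 G x η • ContinuousLinearMap.fst ℂ ℂ ℂ + p2 G x η • ContinuousLinearMap.snd ℂ ℂ ℂ)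
      (x, η) := by
  exact (hol_p_general (isOpen_RR σ) hG).2.2.1 (x, η) h

theorem LD.bounds (h : LD σ M r lam) (hσ : 0 < σ) (hσ1 : σ ≤ 1) (hM : 0 ≤ M) (hr : 0 ≤ r)
    {x η : ℂ} (hq : (x, η) ∈ RR σ) :
    ‖p1 lam x η‖ ≤ 16 * M * r / σ ^ 2 ∧ ‖p2 lam x η - 2 * η‖ ≤ 16 * M * r / σ ^ 2 ∧
    ‖p1 (p1 lam) x η‖ ≤ 16 * M * r / σ ^ 2 ∧ ‖p1 (p2 lam) x η‖ ≤ 16 * M * r / σ ^ 2 ∧
    ‖p2 (p2 lam) x η - 2‖ ≤ 16 * M * r / σ ^ 2 := by
  have hO := isOpen_Dd σ 5
  have h0 : DifferentiableOn ℂ (fun q : ℂ × ℂ => lam q.1 q.2) (Dd σ 5) := h.hol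
  obtain ⟨-, hl2, -, -⟩ := hol_p_general hO h0
  let f : ℂ → ℂ → ℂ := fun x η => lam x η - η ^ 2
  have hf : DifferentiableOn ℂ (fun q : ℂ × ℂ => f q.1 q.2) (Dd σ 5) :=
    h0.sub ((differentiable_snd.pow 2).differentiableOn)
  have hfb : ∀ q ∈ Dd σ 5, ‖f q.1 q.2‖ ≤ M * r := fun q hq => h.near q.1 q.2 hq.1 hq.2
  obtain ⟨hf1, hf2, -, -⟩ := hol_p_general hO hf
  have e1 : p1 f = p1 lam := by
    funext x η
    exact deriv_sub_const (f := fun z => lam z η) (η ^ 2)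
  have e2 : ∀ x η : ℂ, (x, η) ∈ Dd σ 5 → p2 f x η = p2 lam x η - 2 * η := by
    intro x η hm
    have h1 := slice_snd hO h0 hm
    have h2 : HasDerivAt (fun z : ℂ => z ^ 2) (2 * η) η := by
      simpa using hasDerivAt_pow 2 η
    exact (h1.hasDerivAt.sub h2).deriv
  have hqD : (x, η) ∈ Dd σ 5 := RR_subset hσ hq
  have e12 : p1 (p2 f) x η = p1 (p2 lam) x η := by
    have hev : (fun z => p2 f z η) =ᶠ[nhds x] fun z => p2 lam z η - 2 * η := by
      have h1 : ∀ᶠ z in nhds x, (z, η) ∈ Dd σ 5 :=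
        (Continuous.prodMk_left η).continuousAt.eventually_mem (hO.mem_nhds hqD)
      exact h1.mono fun z hz => e2 z η hz
    show deriv (fun z => p2 f z η) x = deriv (fun z => p2 lam z η) x
    rw [hev.deriv_eq]
    exact deriv_sub_const (f := fun z => p2 lam z η) (2 * η)
  have e22 : p2 (p2 f) x η = p2 (p2 lam) x η - 2 := by
    have hev : (fun z => p2 f x z) =ᶠ[nhds η] fun z => p2 lam x z - 2 * z := by
      have h1 : ∀ᶠ z in nhds η, (x, z) ∈ Dd σ 5 :=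
        (Continuous.prodMk_right x).continuousAt.eventually_mem (hO.mem_nhds hqD)
      exact h1.mono fun z hz => e2 x z hz
    show deriv (fun z => p2 f x z) η = deriv (fun z => p2 lam x z) η - 2
    rw [hev.deriv_eq]
    have h1 := slice_snd hO hl2 hqD
    have h2 : HasDerivAt (fun z : ℂ => 2 * z) 2 η := by
      simpa using (hasDerivAt_id η).const_mul (2 : ℂ)
    exact (h1.hasDerivAt.sub h2).deriv
  have hMr : 0 ≤ M * r := mul_nonneg hM hr
  have hσ2 : 0 < σ ^ 2 := by positivity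
  have hs1 : σ ^ 2 ≤ σ := by nlinarith
  -- comparison of the constants
  have c1 : 4 * (M * r) ≤ 16 * M * r / σ ^ 2 := by
    rw [le_div_iff₀ hσ2]
    nlinarith [mul_le_mul_of_nonneg_left (hs1.trans hσ1) hMr]
  have c2 : 4 * (M * r) / σ ≤ 16 * M * r / σ ^ 2 := by
    rw [div_le_div_iff₀ hσ hσ2]
    nlinarith [mul_le_mul_of_nonneg_left hs1 hMr, mul_nonneg hMr hσ.le]
  have b2 := cau_snd hf hfb (show (9 / 2 : ℝ) < 5 by norm_num)
  have b1 := cau_fst hf hfb (show 3 * σ / 4 < σ by linarith)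
  have hm9 : Dd σ (9 / 2) ⊆ Dd σ 5 := fun q hq => ⟨hq.1, by linarith [hq.2]⟩
  have hm3 : Dd (3 * σ / 4) 5 ⊆ Dd σ 5 := fun q hq => ⟨by linarith [hq.1], hq.2⟩
  have b22 := cau_snd (hf2.mono hm9) b2 (show (4 : ℝ) < 9 / 2 by norm_num)
  have b12 := cau_fst (hf2.mono hm9) b2 (show σ / 2 < σ by linarith)
  have b11 := cau_fst (hf1.mono hm3) b1 (show σ / 2 < 3 * σ / 4 by linarith)
  have q1 : |x.im| < σ / 2 := hq.1
  have q2 : ‖η‖ < 4 := hq.2
  refine ⟨?_, ?_, ?_, ?_, ?_⟩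
  · have h1 := b1 (x, η) ⟨by linarith, by linarith⟩
    rw [e1] at h1
    refine h1.trans (le_trans (le_of_eq ?_) c2)
    field_simp
    ring
  · have h1 := b2 (x, η) ⟨by linarith, by linarith⟩
    rw [e2 x η hqD] at h1
    refine h1.trans (le_trans ?_ c1)
    norm_num
    linarith
  · have h1 := b11 (x, η) ⟨by linarith, by linarith⟩
    rw [e1] at h1
    refine h1.trans (le_of_eq ?_)
    field_simp
    ring
  · have h1 := b12 (x, η) ⟨by linarith, by linarith⟩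
    rw [show p1 (p2 f) (x, η).1 (x, η).2 = p1 (p2 lam) x η from e12] at h1
    refine h1.trans (le_trans (le_of_eq ?_) c2)
    field_simp
    ring
  · have h1 := b22 (x, η) ⟨by linarith, by linarith⟩
    rw [show p2 (p2 f) (x, η).1 (x, η).2 = p2 (p2 lam) x η - 2 from e22] at h1
    refine h1.trans (le_trans (le_of_eq ?_) c1)
    ring

/-- the bounds used in the Newton step -/
theorem LD.bounds' (h : LD σ M r lam) (hp : Par σ M r b δ s) {x η : ℂ} (hq : (x, η) ∈ RR σ) :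
    ‖p1 lam x η‖ ≤ 1 / 4 ∧ ‖p2 lam x η - 2 * η‖ ≤ 1 / 4 ∧
    ‖p1 (p1 lam) x η‖ ≤ 1 / 4 ∧ ‖p1 (p2 lam) x η‖ ≤ 1 / 4 ∧
    ‖p2 (p2 lam) x η - 2‖ ≤ 1 / 4 := by
  have hσ2 : 0 < σ ^ 2 := pow_pos hp.σ_pos 2
  have hc : 16 * M * r / σ ^ 2 ≤ 1 / 4 := by
    rw [div_le_iff₀ hσ2]
    linarith [hp.r_le]
  obtain ⟨h1, h2, h3, h4, h5⟩ := h.bounds hp.σ_pos hp.σ_le (zero_le_one.trans hp.M_ge)
    hp.r_pos.le hq
  exact ⟨h1.trans hc, h2.trans hc, h3.trans hc, h4.trans hc, h5.trans hc⟩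

/-- the Lagrangian of `B` -/
theorem LD_of_BD {ρ : ℝ} {B : ℂ → ℂ → ℂ} (hB : BD σ ρ M B) (hσ1 : σ ≤ 1) :
    ∃ M' ≥ (1 : ℝ), ∃ r₀ > (0 : ℝ), ∀ r : ℝ, 0 < r → r < r₀ → LD σ M' r (lB r B) := by
  have hρ := hB.ρ_pos
  have hM1 : 1 ≤ M := by
    have h1 := hB.bd 0 0 (by simpa using hB.σ_pos) (by simpa using hρ)
    rw [hB.one 0 (by simpa using hB.σ_pos)] at h1
    simpa using h1
  refine ⟨max 1 (250 * M / ρ), le_max_left _ _, ρ / 10, by positivity, ?_⟩
  intro r hr hr0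
  have hrn : ∀ η : ℂ, ‖(r : ℂ) * η‖ = r * ‖η‖ := by
    intro η
    rw [norm_mul, norm_real, Real.norm_eq_abs, abs_of_pos hr]
  have hw : ∀ η : ℂ, ‖η‖ < 5 → ‖(r : ℂ) * η‖ < ρ / 2 := by
    intro η hη
    rw [hrn]
    nlinarith [norm_nonneg η]
  refine ⟨?_, ?_, ?_, ?_⟩
  · have h1 : DifferentiableOn ℂ (fun q : ℂ × ℂ => B q.1 (r * q.2)) {q | |q.1.im| < σ ∧
        ‖q.2‖ < 5} := by
      have h2 : DifferentiableOn ℂ (fun q : ℂ × ℂ => ((q.1, (r : ℂ) * q.2) : ℂ × ℂ))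
          {q | |q.1.im| < σ ∧ ‖q.2‖ < 5} :=
        (differentiable_fst.prodMk (differentiable_snd.const_mul _)).differentiableOn
      refine hB.hol.comp h2 ?_
      rintro q ⟨hq1, hq2⟩
      exact ⟨hq1, (hw _ hq2).trans (by linarith)⟩
    exact ((differentiable_snd.pow 2).differentiableOn).mul h1
  · intro x η hx hη
    have hB1 : ‖B x (r * η) - 1‖ ≤ 10 * M * r / ρ := by
      have hb0 : 0 ≤ 10 * M * r / ρ := by positivity
      rcases eq_or_ne ((r : ℂ) * η) 0 with h0 | h0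
      · rw [h0, hB.one x hx, sub_self, norm_zero]
        exact hb0
      · have hn : 0 < ‖(r : ℂ) * η‖ := norm_pos_iff.2 h0
        have h2 := taylor1 (φ := fun z => B x (z * (r * η))) (R := ρ / ‖(r : ℂ) * η‖) (M := M)
          (by
            rw [le_div_iff₀ hn]
            linarith [hw η hη]) (by
            intro z hz
            have hz1 : ‖z * (r * η)‖ < ρ := by
              rw [norm_mul]
              rw [Metric.mem_ball, dist_zero_right, lt_div_iff₀ hn] at hz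
              exact hz
            have h3 := slice_snd (isOpen_Dd σ ρ) hB.hol (x := x) (η := z * (r * η)) ⟨hx, hz1⟩
            have h4 : DifferentiableAt ℂ (fun z : ℂ => z * (r * η)) z :=
              differentiableAt_id.mul_const _
            exact (DifferentiableAt.comp z h3 h4).differentiableWithinAt) (by
            intro z hz
            rw [Metric.mem_ball, dist_zero_right, lt_div_iff₀ hn] at hz
            exact hB.bd x _ hx (by rwa [norm_mul]))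
        have h3 : B x (1 * (r * η)) - B x (0 * (r * η)) = B x (r * η) - 1 := by
          rw [one_mul, zero_mul, hB.one x hx]
        have h4 : ‖B x (r * η) - 1‖ ≤ 2 * M / (ρ / ‖(r : ℂ) * η‖) := by
          rw [← h3]
          exact h2
        refine h4.trans ?_
        rw [hrn, div_div_eq_mul_div]
        refine div_le_div_of_nonneg_right ?_ hρ.le
        nlinarith [mul_pos (zero_lt_one.trans_le hM1) hr]
    have h5 : lB r B x η - η ^ 2 = η ^ 2 * (B x (r * η) - 1) := by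
      unfold lB
      ring
    rw [h5, norm_mul, norm_pow]
    have h6 : ‖η‖ ^ 2 ≤ 25 := by nlinarith [norm_nonneg η]
    calc ‖η‖ ^ 2 * ‖B x (r * η) - 1‖ ≤ 25 * (10 * M * r / ρ) :=
          mul_le_mul h6 hB1 (norm_nonneg _) (by norm_num)
      _ = 250 * M / ρ * r := by ring
      _ ≤ max 1 (250 * M / ρ) * r := mul_le_mul_of_nonneg_right (le_max_right _ _) hr.le
  · intro x η
    unfold lB
    rw [hB.per]
  · intro x η
    unfold lB
    rw [map_mul, map_pow, ← hB.real, map_mul, conj_ofReal]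

end Pool.Agent.NOne
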