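import Pool.Agent.NOne.KSh

/-!
# MP_74f563_an, n = 1, file KAvg: means and Fourier coefficients

`avg F t = ∫₀¹ F(x, t) dx`, `cf l F t = ∫₀¹ F(x, t) e^{-2πilx} dx`, for `F` holomorphic on `Om δ s`,
`δ > 0`, periodic in `θ`.

PROOFS.
`cf_hol`: differentiation under the integral sign (the integrand is holomorphic in `t`, jointly
continuous in `(x, t)` and its `t` derivative `p2 F x t * e^{-2πilx}` is jointly continuous, hence
bounded near every `t₀ ∈ UU s` uniformly in `x ∈ [0, 1]`: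
`intervalIntegral.hasDerivAt_integral_of_dominated_loc_of_deriv_le`); this gives also
`cf_p2 : cf l (p2 F) t = deriv (cf l F) t`.
`shift_integral`: for a function `g` holomorphic on the strip `|Im z| < δ` with `g (z + 1) = g z`
the function `J z = ∫₀¹ g(x + z) dx` has derivative `∫₀¹ g'(x + z) dx = g(1 + z) - g(z) = 0` on the
(convex) strip, so it is constant (alternatively: Cauchy's theorem for rectangles).
`cf_sh`: with `G z = F z t * e^{-2πilz}` (periodic, holomorphic on the strip) and `ρ = r (1 + t)`,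
`|Im ρ| < δ`:  `cf l (sh r F) t = ∫ F(x + ρ, t) e^{-2πilx} dx = e^{2πilρ} ∫ G(x + ρ) dx =
e^{2πilρ} ∫ G(x) dx`.
`cf_p1`: integrate by parts (boundary terms cancel by periodicity).
`cf_bound`: for `0 < δ' < δ` and the sign `σ' = ± 1` with `σ' l ≥ 0` shift the contour by
`-i σ' δ'`:
`cf l F t = ∫ F(x - iσ'δ', t) e^{-2πil(x - iσ'δ')} dx`, and `|e^{-2πil(x - iσ'δ')}| = e^{-2π|l|δ'}`;
let `δ' → δ`.
`cf_real`: substitute and use `conj` of an integral; `conj (F x t) = F x (conj t)` for real `x`.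
-/

set_option autoImplicit false

namespace Pool.Agent.NOne

open Complex Set MeasureTheory
open scoped ComplexConjugate

variable {r δ s c : ℝ} {F G : ℂ → ℂ → ℂ} {l : ℤ}

private theorem hasDerivAt_par {V : Set (ℂ × ℂ)} (hV : IsOpen V) {f : ℂ → ℂ → ℂ}
    (hf : DifferentiableOn ℂ (fun q : ℂ × ℂ => f q.1 q.2) V) {t : ℂ}
    (ht : ∀ x ∈ Icc (0 : ℝ) 1, ((x : ℂ), t) ∈ V) :
    HasDerivAt (fun t => ∫ x in (0 : ℝ)..1, f x t) (∫ x in (0 : ℝ)..1, p2 f x t) t := by
  obtain ⟨-, hp2, hfd, -⟩ := hol_p_general hV hf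
  have hK : IsCompact ((fun x : ℝ => (x : ℂ)) '' Icc (0 : ℝ) 1) :=
    isCompact_Icc.image continuous_ofReal
  have hsub : ((fun x : ℝ => (x : ℂ)) '' Icc (0 : ℝ) 1) ×ˢ ({t} : Set ℂ) ⊆ V := by
    rintro ⟨a, b⟩ ⟨⟨x, hx, hxa⟩, hb⟩
    simp only [mem_singleton_iff] at hb
    subst hb
    simp only at hxa
    subst hxa
    exact ht x hx
  obtain ⟨u, v, -, hv, hu, htv, huv⟩ := generalized_tube_lemma hK isCompact_singleton hV hsub
  have htv' : t ∈ v := htv (mem_singleton t)
  obtain ⟨ε, hε, hεv⟩ := Metric.nhds_basis_closedBall.mem_iff.1 (hv.mem_nhds htv')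
  have hin : ∀ x ∈ Icc (0 : ℝ) 1, ∀ z ∈ Metric.closedBall t ε, ((x : ℂ), z) ∈ V := by
    intro x hx z hz
    exact huv ⟨hu ⟨x, hx, rfl⟩, hεv hz⟩
  have hKK : IsCompact (((fun x : ℝ => (x : ℂ)) '' Icc (0 : ℝ) 1) ×ˢ Metric.closedBall t ε) :=
    hK.prod (isCompact_closedBall t ε)
  have hKV : ((fun x : ℝ => (x : ℂ)) '' Icc (0 : ℝ) 1) ×ˢ Metric.closedBall t ε ⊆ V := by
    rintro ⟨a, b⟩ ⟨⟨x, hx, hxa⟩, hb⟩
    simp only at hxa
    subst hxa
    exact hin x hx b hb
  obtain ⟨C, hC⟩ := hKK.exists_bound_of_continuousOn (hp2.continuousOn.mono hKV)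
  have hcont : ∀ (g : ℂ × ℂ → ℂ), ContinuousOn g V → ∀ z ∈ Metric.closedBall t ε,
      ContinuousOn (fun x : ℝ => g ((x : ℂ), z)) (Icc (0 : ℝ) 1) := by
    intro g hg z hz
    refine hg.comp (by fun_prop) ?_
    intro x hx
    exact hin x hx z hz
  have hmeas : ∀ (g : ℂ × ℂ → ℂ), ContinuousOn g V → ∀ z ∈ Metric.closedBall t ε,
      AEStronglyMeasurable (fun x : ℝ => g ((x : ℂ), z)) (volume.restrict (uIoc 0 1)) := by
    intro g hg z hz
    refine ContinuousOn.aestronglyMeasurable ?_ measurableSet_uIoc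
    refine (hcont g hg z hz).mono ?_
    rw [uIoc_of_le zero_le_one]
    exact Ioc_subset_Icc_self
  have htb : t ∈ Metric.closedBall t ε := Metric.mem_closedBall_self hε.le
  have hu1 : ∀ x : ℝ, x ∈ uIoc (0 : ℝ) 1 → x ∈ Icc (0 : ℝ) 1 := by
    intro x hx
    rw [uIoc_of_le zero_le_one] at hx
    exact Ioc_subset_Icc_self hx
  refine (intervalIntegral.hasDerivAt_integral_of_dominated_loc_of_deriv_le
    (F := fun z (x : ℝ) => f x z) (F' := fun z (x : ℝ) => p2 f x z) (bound := fun _ => C)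
    (Metric.closedBall_mem_nhds t hε) ?_ ?_ ?_ ?_ ?_ ?_).2
  · filter_upwards [Metric.closedBall_mem_nhds t hε] with z hz
    exact hmeas _ hf.continuousOn z hz
  · refine ContinuousOn.intervalIntegrable ?_
    rw [uIcc_of_le zero_le_one]
    exact hcont _ hf.continuousOn t htb
  · exact hmeas _ hp2.continuousOn t htb
  · refine Filter.Eventually.of_forall fun x hx z hz => ?_
    exact hC (x, z) ⟨⟨x, hu1 x hx, rfl⟩, hz⟩
  · exact intervalIntegrable_const
  · refine Filter.Eventually.of_forall fun x hx z hz => ?_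
    have h1 := hfd _ (hin x (hu1 x hx) z hz)
    have h2 : HasDerivAt (fun w : ℂ => ((x : ℂ), w)) ((0 : ℂ), (1 : ℂ)) z :=
      (hasDerivAt_const z (x : ℂ)).prodMk (hasDerivAt_id z)
    have h3 : HasDerivAt (fun w : ℂ => f (x : ℂ) w) _ z := h1.comp_hasDerivAt z h2
    simpa using h3

private theorem mem_Om_real (hδ : 0 < δ) {t : ℂ} (ht : t ∈ UU s) (x : ℝ) :
    ((x : ℂ), t) ∈ Om δ s := by
  refine ⟨?_, ht⟩
  simpa using hδ

private theorem hasDerivAt_avg (hF : Hol δ s F) (hδ : 0 < δ) {t : ℂ} (ht : t ∈ UU s) :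
    HasDerivAt (avg F) (avg (p2 F) t) t :=
  hasDerivAt_par (isOpen_Om δ s) hF fun x _ => mem_Om_real hδ ht x

/-- the product of `F` and the exponential -/
private noncomputable def mu (l : ℤ) (F : ℂ → ℂ → ℂ) : ℂ → ℂ → ℂ :=
  fun θ t => F θ t * exp (-(2 * Real.pi * I * l * θ))

private theorem cf_eq_avg_mu (l : ℤ) (F : ℂ → ℂ → ℂ) : cf l F = avg (mu l F) := rfl

private theorem hol_mu (hF : Hol δ s F) (l : ℤ) : Hol δ s (mu l F) := by
  refine Hol.mul hF ?_
  refine hol_of_strip (g := fun θ => exp (-(2 * Real.pi * I * l * θ))) ?_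
  fun_prop

private theorem per_exp (l : ℤ) (z : ℂ) :
    exp (-(2 * Real.pi * I * l * (z + 1))) = exp (-(2 * Real.pi * I * l * z)) := by
  have h1 : -(2 * Real.pi * I * l * (z + 1)) =
      -(2 * Real.pi * I * l * z) + ((-l : ℤ) : ℂ) * (2 * Real.pi * I) := by
    push_cast
    ring
  rw [h1, exp_add, exp_int_mul_two_pi_mul_I, mul_one]

private theorem per_mu (hP : Per F) (l : ℤ) : Per (mu l F) := by
  intro θ t
  simp only [mu]
  rw [hP, per_exp]

private theorem p2_mu (F : ℂ → ℂ → ℂ) (l : ℤ) (θ t : ℂ) :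
    p2 (mu l F) θ t = mu l (p2 F) θ t := by
  simp only [p2, mu]
  exact deriv_mul_const_field _

private theorem hasDerivAt_exp' (l : ℤ) (θ : ℂ) :
    HasDerivAt (fun z => exp (-(2 * Real.pi * I * l * z)))
      (exp (-(2 * Real.pi * I * l * θ)) * (-(2 * Real.pi * I * l))) θ := by
  have h1 : HasDerivAt (fun z : ℂ => -(2 * Real.pi * I * l * z)) (-(2 * Real.pi * I * l)) θ := by
    have h2 := (hasDerivAt_id θ).const_mul (-(2 * Real.pi * I * l))
    simp only [id, neg_mul, mul_one] at h2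
    exact h2
  exact h1.cexp

private theorem p1_mu (hF : Hol δ s F) (l : ℤ) {θ t : ℂ} (hθ : |θ.im| < δ) (ht : t ∈ UU s) :
    p1 (mu l F) θ t = mu l (p1 F) θ t - 2 * Real.pi * I * l * mu l F θ t := by
  have h1 := (hF.hasDerivAt1 hθ ht).mul (hasDerivAt_exp' l θ)
  have h2 : p1 (mu l F) θ t = _ := h1.deriv
  rw [h2]
  simp only [mu]
  ring

private theorem intervalIntegrable_real (hF : Hol δ s F) (hδ : 0 < δ) {t : ℂ} (ht : t ∈ UU s) :
    IntervalIntegrable (fun x : ℝ => F x t) volume 0 1 := by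
  refine Continuous.intervalIntegrable ?_ _ _
  have h1 : ContinuousOn (fun q : ℂ × ℂ => F q.1 q.2) (Om δ s) := hF.continuousOn
  exact h1.comp_continuous (by fun_prop : Continuous fun x : ℝ => ((x : ℂ), t))
    fun x => mem_Om_real hδ ht x

private theorem avg_deriv_one (hF : Hol δ s F) (hδ : 0 < δ) (hP : Per F) {t : ℂ} (ht : t ∈ UU s) :
    avg (p1 F) t = 0 := by
  have h1 : ∀ x ∈ uIcc (0 : ℝ) 1, HasDerivAt (fun y : ℝ => F y t) (p1 F x t) x := by
    intro x _
    exact (hF.hasDerivAt1 (mem_Om_real hδ ht x).1 ht).comp_ofReal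
  have h2 := intervalIntegral.integral_eq_sub_of_hasDerivAt h1
    (intervalIntegrable_real hF.hol_p1 hδ ht)
  simp only [avg]
  rw [h2]
  have h3 := hP 0 t
  rw [zero_add] at h3
  simp [h3]

private theorem mul_conj_exp (l : ℤ) (x : ℝ) :
    exp (-(2 * Real.pi * I * ((-l : ℤ) : ℂ) * x)) = conj (exp (-(2 * Real.pi * I * l * x))) := by
  rw [← exp_conj]
  congr 1
  simp only [map_neg, map_mul, map_ofNat, conj_ofReal, conj_I, map_intCast]
  push_cast
  ring

theorem cf_zero (F : ℂ → ℂ → ℂ) : cf 0 F = avg F := by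
  funext t
  simp [cf, avg]

theorem cf_hol (hF : Hol δ s F) (hδ : 0 < δ) (l : ℤ) : DifferentiableOn ℂ (cf l F) (UU s) := by
  intro t ht
  rw [cf_eq_avg_mu]
  exact (hasDerivAt_avg (hol_mu hF l) hδ ht).differentiableAt.differentiableWithinAt

theorem cf_p2 (hF : Hol δ s F) (hδ : 0 < δ) (l : ℤ) {t : ℂ} (ht : t ∈ UU s) :
    cf l (p2 F) t = deriv (cf l F) t := by
  rw [cf_eq_avg_mu, cf_eq_avg_mu, (hasDerivAt_avg (hol_mu hF l) hδ ht).deriv]
  have h1 : p2 (mu l F) = mu l (p2 F) := by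
    funext θ t
    exact p2_mu F l θ t
  rw [h1]

theorem shift_integral {g : ℂ → ℂ} (hδ : 0 < δ) (hg : DifferentiableOn ℂ g {z | |z.im| < δ})
    (hp : ∀ z, g (z + 1) = g z) {z : ℂ} (hz : |z.im| < δ) :
    ∫ x in (0 : ℝ)..1, g (x + z) = ∫ x in (0 : ℝ)..1, g x := by
  have hS : IsOpen {z : ℂ | |z.im| < δ} := isOpen_lt (continuous_im.abs) continuous_const
  have hC : Convex ℝ {z : ℂ | |z.im| < δ} := by
    intro x hx y hy a b ha hb hab
    have h1 := convex_Ioo (-δ) δ (abs_lt.1 hx) (abs_lt.1 hy) ha hb hab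
    change |(a • x + b • y).im| < δ
    rw [abs_lt]
    simpa using h1
  have hV : IsOpen {q : ℂ × ℂ | |(q.1 + q.2).im| < δ} :=
    isOpen_lt ((continuous_im.comp (continuous_fst.add continuous_snd)).abs) continuous_const
  have hf : DifferentiableOn ℂ (fun q : ℂ × ℂ => (fun a b => g (a + b)) q.1 q.2)
      {q : ℂ × ℂ | |(q.1 + q.2).im| < δ} := by
    have h1 : DifferentiableOn ℂ (fun q : ℂ × ℂ => q.1 + q.2) {q : ℂ × ℂ | |(q.1 + q.2).im| < δ} :=
      by fun_prop
    exact hg.comp h1 fun q hq => hq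
  have hreal : ∀ w : ℂ, |w.im| < δ → ∀ x : ℝ, |((x : ℂ) + w).im| < δ := by
    intro w hw x
    simpa using hw
  have hJ : ∀ w : ℂ, |w.im| < δ → HasDerivAt (fun w => ∫ x in (0 : ℝ)..1, g (x + w)) 0 w := by
    intro w hw
    have h1 := hasDerivAt_par (f := fun a b => g (a + b)) hV hf (t := w)
      fun x _ => hreal w hw x
    have h2 : ∫ x in (0 : ℝ)..1, p2 (fun a b => g (a + b)) x w = 0 := by
      have h3 : ∀ x ∈ uIcc (0 : ℝ) 1, HasDerivAt (fun y : ℝ => g (y + w))
          (p2 (fun a b => g (a + b)) x w) x := by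
        intro x _
        have h4 : HasDerivAt g (deriv g (x + w)) (x + w) :=
          (hg.differentiableAt (hS.mem_nhds (hreal w hw x))).hasDerivAt
        have h5 : p2 (fun a b => g (a + b)) x w = deriv g (x + w) := by
          simp only [p2]
          exact deriv_comp_const_add _ _ _
        rw [h5]
        have h6 : HasDerivAt (fun y : ℂ => g (y + w)) (deriv g (x + w)) (x : ℂ) :=
          HasDerivAt.comp_add_const (x : ℂ) w h4
        exact h6.comp_ofReal
      have h7 : IntervalIntegrable (fun x : ℝ => p2 (fun a b => g (a + b)) x w) volume 0 1 := by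
        have h8 := (hol_p_general (F := fun a b => g (a + b)) hV hf).2.1.continuousOn
        refine Continuous.intervalIntegrable ?_ _ _
        exact h8.comp_continuous (by fun_prop : Continuous fun x : ℝ => ((x : ℂ), w))
          fun x => hreal w hw x
      rw [intervalIntegral.integral_eq_sub_of_hasDerivAt h3 h7]
      have h9 := hp w
      simp [add_comm, h9]
    rw [← h2]
    exact h1
  have hD : DifferentiableOn ℂ (fun w => ∫ x in (0 : ℝ)..1, g (x + w)) {z : ℂ | |z.im| < δ} :=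
    fun w hw => (hJ w hw).differentiableAt.differentiableWithinAt
  have h0 : (0 : ℂ) ∈ {z : ℂ | |z.im| < δ} := by simpa using hδ
  have h10 := hS.is_const_of_deriv_eq_zero hC.isPreconnected hD
    (fun w hw => (hJ w hw).deriv) (show z ∈ {z : ℂ | |z.im| < δ} from hz) h0
  simpa using h10

private theorem im_rho (hδ : 0 < δ) (hr : 0 ≤ r) (h : r * s ≤ δ) {t : ℂ} (ht : t ∈ UU s) :
    |((r : ℂ) * (1 + t)).im| < δ := by
  have h1 : ((r : ℂ) * (1 + t)).im = r * t.im := by simp
  rw [h1, abs_mul, abs_of_nonneg hr]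
  rcases hr.eq_or_lt with h0 | h0
  · rw [← h0, zero_mul]
    exact hδ
  · exact (mul_lt_mul_of_pos_left ht.2 h0).trans_le h

theorem cf_sh (hF : Hol δ s F) (hδ : 0 < δ) (hP : Per F) (hr : 0 ≤ r) (h : r * s ≤ δ) (l : ℤ)
    {t : ℂ} (ht : t ∈ UU s) :
    cf l (sh r F) t = exp (2 * Real.pi * I * l * (r * (1 + t))) * cf l F t := by
  have h1 := shift_integral (g := fun z => mu l F z t) hδ ((hol_mu hF l).slice1 ht)
    (fun z => per_mu hP l z t) (im_rho hδ hr h ht)
  have h2 : cf l F t = ∫ x in (0 : ℝ)..1, mu l F x t := rfl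
  rw [h2, ← h1, ← intervalIntegral.integral_const_mul]
  refine intervalIntegral.integral_congr fun x _ => ?_
  simp only [mu, sh]
  have h3 : exp (-(2 * Real.pi * I * l * (x : ℂ))) = exp (2 * Real.pi * I * l * (r * (1 + t))) *
      exp (-(2 * Real.pi * I * l * (x + r * (1 + t)))) := by
    rw [← exp_add]
    congr 1
    ring
  rw [h3]
  ring

private theorem intervalIntegrable_sh (hF : Hol δ s F) (hδ : 0 < δ) (hr : 0 ≤ r) (h : r * s ≤ δ)
    (l : ℤ) {t : ℂ} (ht : t ∈ UU s) :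
    IntervalIntegrable (fun x : ℝ => mu l (sh r F) x t) volume 0 1 := by
  refine Continuous.intervalIntegrable ?_ _ _
  have h1 : ContinuousOn (fun q : ℂ × ℂ => F q.1 q.2) (Om δ s) := hF.continuousOn
  have h2 : Continuous fun x : ℝ => F (x + r * (1 + t)) t := by
    refine h1.comp_continuous (by fun_prop : Continuous fun x : ℝ => ((x : ℂ) + r * (1 + t), t)) ?_
    intro x
    refine ⟨?_, ht⟩
    have h3 := im_rho hδ hr h ht
    rw [add_im, ofReal_im, zero_add]
    exact h3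
  exact h2.mul (by fun_prop)

theorem cf_DD (hF : Hol δ s F) (hδ : 0 < δ) (hP : Per F) (hr : 0 ≤ r) (h : r * s ≤ δ) (l : ℤ)
    {t : ℂ} (ht : t ∈ UU s) : cf l (DD r F) t = dl r l t * cf l F t := by
  have h1 := cf_sh hF hδ hP hr h l ht
  have h2 : cf l (DD r F) t = (cf l (sh r F) t - cf l F t) / r := by
    have h3 : cf l (sh r F) t - cf l F t =
        ∫ x in (0 : ℝ)..1, (mu l (sh r F) x t - mu l F x t) := by
      rw [intervalIntegral.integral_sub (intervalIntegrable_sh hF hδ hr h l ht)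
        (intervalIntegrable_real (hol_mu hF l) hδ ht)]
      rfl
    rw [h3, ← intervalIntegral.integral_div]
    refine intervalIntegral.integral_congr fun x _ => ?_
    simp only [mu, sh, DD]
    ring
  rw [h2, h1, dl]
  ring

theorem cf_p1 (hF : Hol δ s F) (hδ : 0 < δ) (hP : Per F) (l : ℤ) {t : ℂ} (ht : t ∈ UU s) :
    cf l (p1 F) t = 2 * Real.pi * I * l * cf l F t := by
  have h1 := avg_deriv_one (hol_mu hF l) hδ (per_mu hP l) ht
  have h2 : avg (p1 (mu l F)) t = cf l (p1 F) t - 2 * Real.pi * I * l * cf l F t := by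
    have h3 : cf l (p1 F) t - 2 * Real.pi * I * l * cf l F t =
        ∫ x in (0 : ℝ)..1, (mu l (p1 F) x t - 2 * Real.pi * I * l * mu l F x t) := by
      rw [intervalIntegral.integral_sub (intervalIntegrable_real (hol_mu hF.hol_p1 l) hδ ht)
        ((intervalIntegrable_real (hol_mu hF l) hδ ht).const_mul _),
        intervalIntegral.integral_const_mul]
      rfl
    rw [h3]
    refine intervalIntegral.integral_congr fun x _ => ?_
    exact p1_mu hF l (mem_Om_real hδ ht x).1 ht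
  rw [h2] at h1
  exact sub_eq_zero.1 h1

private theorem cf_bound_aux (hF : Hol δ s F) (hP : Per F) (hb : Bd δ s c F) (l : ℤ)
    {t : ℂ} (ht : t ∈ UU s) {δ' : ℝ} (h0 : 0 < δ') (h1 : δ' < δ) :
    ‖cf l F t‖ ≤ c * Real.exp (-(2 * Real.pi * |(l : ℝ)| * δ')) := by
  obtain ⟨σ, hσ, hσl⟩ : ∃ σ : ℝ, |σ| = 1 ∧ σ * l = |(l : ℝ)| := by
    rcases le_total 0 (l : ℝ) with h | h
    · exact ⟨1, by simp, by rw [one_mul, abs_of_nonneg h]⟩
    · exact ⟨-1, by simp, by rw [abs_of_nonpos h]; ring⟩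
  set z : ℂ := ((-(σ * δ') : ℝ) : ℂ) * I with hz
  have hzim : z.im = -(σ * δ') := by simp [hz]
  have hzre : z.re = 0 := by simp [hz]
  have hz1 : |z.im| < δ := by
    rw [hzim, abs_neg, abs_mul, hσ, one_mul, abs_of_pos h0]
    exact h1
  have h2 := shift_integral (g := fun z => mu l F z t) (h0.trans h1) ((hol_mu hF l).slice1 ht)
    (fun z => per_mu hP l z t) hz1
  have h3 : cf l F t = ∫ x in (0 : ℝ)..1, mu l F (x + z) t := h2.symm
  rw [h3]
  have h4 : ∀ x ∈ uIoc (0 : ℝ) 1, ‖mu l F (x + z) t‖ ≤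
      c * Real.exp (-(2 * Real.pi * |(l : ℝ)| * δ')) := by
    intro x _
    simp only [mu]
    rw [norm_mul, norm_exp]
    have h5 : (-(2 * Real.pi * I * l * (x + z))).re = -(2 * Real.pi * |(l : ℝ)| * δ') := by
      have h6 : (-(2 * Real.pi * I * l * (x + z)) : ℂ) =
          ((-(2 * Real.pi * (σ * l) * δ') : ℝ) : ℂ) + ((-(2 * Real.pi * l * x) : ℝ) : ℂ) * I := by
        rw [hz]
        push_cast
        linear_combination (2 * (Real.pi : ℂ) * l * σ * δ') * I_sq
      rw [h6, add_re, ofReal_re, mul_re, I_re, I_im, ofReal_re, ofReal_im, hσl]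
      ring
    rw [h5]
    refine mul_le_mul_of_nonneg_right (hb _ _ ?_ ht) (Real.exp_pos _).le
    rw [add_im, ofReal_im, zero_add]
    exact hz1
  have h7 := intervalIntegral.norm_integral_le_of_norm_le_const h4
  simpa using h7

theorem cf_bound (hF : Hol δ s F) (hδ : 0 < δ) (hP : Per F) (hb : Bd δ s c F) (l : ℤ) {t : ℂ}
    (ht : t ∈ UU s) : ‖cf l F t‖ ≤ c * Real.exp (-(2 * Real.pi * |(l : ℝ)| * δ)) := by
  have h1 : Filter.Tendsto (fun d : ℝ => c * Real.exp (-(2 * Real.pi * |(l : ℝ)| * d)))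
      (nhdsWithin δ (Iio δ)) (nhds (c * Real.exp (-(2 * Real.pi * |(l : ℝ)| * δ)))) := by
    have h2 : Continuous fun d : ℝ => c * Real.exp (-(2 * Real.pi * |(l : ℝ)| * d)) := by
      fun_prop
    exact (h2.tendsto δ).mono_left nhdsWithin_le_nhds
  refine ge_of_tendsto h1 ?_
  filter_upwards [Ioo_mem_nhdsLT hδ] with d hd
  exact cf_bound_aux hF hP hb l ht hd.1 hd.2

private theorem integral_conj' (f : ℝ → ℂ) :
    ∫ x in (0 : ℝ)..1, conj (f x) = conj (∫ x in (0 : ℝ)..1, f x) := by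
  rw [intervalIntegral.integral_of_le zero_le_one, intervalIntegral.integral_of_le zero_le_one]
  exact integral_conj

theorem cf_real (hF : RSym F) (l : ℤ) (t : ℂ) : cf (-l) F (conj t) = conj (cf l F t) := by
  simp only [cf]
  rw [← integral_conj']
  refine intervalIntegral.integral_congr fun x _ => ?_
  rw [mul_conj_exp, map_mul]
  have h1 := hF x t
  rw [conj_ofReal] at h1
  rw [h1]

theorem cf_add (hF : Hol δ s F) (hG : Hol δ s G) (hδ : 0 < δ) (l : ℤ) {t : ℂ} (ht : t ∈ UU s) :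
    cf l (fun θ t => F θ t + G θ t) t = cf l F t + cf l G t := by
  have h1 : cf l F t + cf l G t = ∫ x in (0 : ℝ)..1, (mu l F x t + mu l G x t) := by
    rw [intervalIntegral.integral_add (intervalIntegrable_real (hol_mu hF l) hδ ht)
      (intervalIntegrable_real (hol_mu hG l) hδ ht)]
    rfl
  rw [h1]
  refine intervalIntegral.integral_congr fun x _ => ?_
  simp only [mu]
  ring

theorem cf_sub (hF : Hol δ s F) (hG : Hol δ s G) (hδ : 0 < δ) (l : ℤ) {t : ℂ} (ht : t ∈ UU s) :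
    cf l (fun θ t => F θ t - G θ t) t = cf l F t - cf l G t := by
  have h1 : cf l F t - cf l G t = ∫ x in (0 : ℝ)..1, (mu l F x t - mu l G x t) := by
    rw [intervalIntegral.integral_sub (intervalIntegrable_real (hol_mu hF l) hδ ht)
      (intervalIntegrable_real (hol_mu hG l) hδ ht)]
    rfl
  rw [h1]
  refine intervalIntegral.integral_congr fun x _ => ?_
  simp only [mu]
  ring

private theorem integral_exp_int (l : ℤ) :
    ∫ x in (0 : ℝ)..1, exp (-(2 * Real.pi * I * l * x)) = if l = 0 then 1 else 0 := by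
  split_ifs with h
  · subst h
    simp
  · have h1 : (-(2 * Real.pi * I * l) : ℂ) ≠ 0 := by
      refine neg_ne_zero.2 (mul_ne_zero two_pi_I_ne_zero ?_)
      exact_mod_cast h
    have h2 := integral_exp_mul_complex (a := 0) (b := 1) h1
    have h3 : ∫ x in (0 : ℝ)..1, exp (-(2 * Real.pi * I * l * x)) =
        ∫ x in (0 : ℝ)..1, exp (-(2 * Real.pi * I * l) * x) := by
      refine intervalIntegral.integral_congr fun x _ => ?_
      congr 1
      ring
    rw [h3, h2]
    have h4 := per_exp l 0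
    simp only [zero_add, mul_one, mul_zero, neg_zero, exp_zero] at h4
    simp [h4]

/-- coefficients of functions of `t` only -/
theorem cf_of_t (g : ℂ → ℂ) (l : ℤ) (t : ℂ) :
    cf l (fun _ t => g t) t = if l = 0 then g t else 0 := by
  simp only [cf]
  rw [intervalIntegral.integral_const_mul, integral_exp_int]
  simp

/-- coefficients of trigonometric polynomials -/
theorem cf_trig (S : Finset ℤ) (g : ℤ → ℂ → ℂ) (l : ℤ) (t : ℂ) :
    cf l (fun θ t => ∑ k ∈ S, g k t * exp (2 * Real.pi * I * k * θ)) t =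
      if l ∈ S then g l t else 0 := by
  simp only [cf]
  have h1 : ∀ x : ℝ, (∑ k ∈ S, g k t * exp (2 * Real.pi * I * k * x)) *
      exp (-(2 * Real.pi * I * l * x)) =
      ∑ k ∈ S, g k t * exp (-(2 * Real.pi * I * ((l - k : ℤ) : ℂ) * x)) := by
    intro x
    rw [Finset.sum_mul]
    refine Finset.sum_congr rfl fun k _ => ?_
    rw [mul_assoc, ← exp_add]
    congr 2
    push_cast
    ring
  simp only [h1]
  rw [intervalIntegral.integral_finsetSum]
  · have h2 : ∀ k ∈ S, ∫ x in (0 : ℝ)..1,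
        g k t * exp (-(2 * Real.pi * I * ((l - k : ℤ) : ℂ) * x)) = if l = k then g k t else 0 := by
      intro k _
      rw [intervalIntegral.integral_const_mul, integral_exp_int]
      by_cases hk : l = k
      · simp [hk]
      · simp [hk, sub_eq_zero]
    rw [Finset.sum_congr rfl h2]
    simp
  · intro k _
    refine Continuous.intervalIntegrable ?_ _ _
    fun_prop

theorem avg_hol (hF : Hol δ s F) (hδ : 0 < δ) : DifferentiableOn ℂ (avg F) (UU s) := by
  rw [← cf_zero]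
  exact cf_hol hF hδ 0

theorem avg_bound (hb : Bd δ s c F) (hδ : 0 < δ) {t : ℂ} (ht : t ∈ UU s) : ‖avg F t‖ ≤ c := by
  have h1 : ∀ x ∈ uIoc (0 : ℝ) 1, ‖F x t‖ ≤ c := fun x _ => hb _ _ (mem_Om_real hδ ht x).1 ht
  have h2 := intervalIntegral.norm_integral_le_of_norm_le_const h1
  rw [sub_zero, abs_one, mul_one] at h2
  exact h2

theorem avg_p2 (hF : Hol δ s F) (hδ : 0 < δ) {t : ℂ} (ht : t ∈ UU s) :
    avg (p2 F) t = deriv (avg F) t := by
  rw [(hasDerivAt_avg hF hδ ht).deriv]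

theorem avg_p1 (hF : Hol δ s F) (hδ : 0 < δ) (hP : Per F) {t : ℂ} (ht : t ∈ UU s) :
    avg (p1 F) t = 0 :=
  avg_deriv_one hF hδ hP ht

theorem avg_sh (hF : Hol δ s F) (hδ : 0 < δ) (hP : Per F) (hr : 0 ≤ r) (h : r * s ≤ δ) {t : ℂ}
    (ht : t ∈ UU s) : avg (sh r F) t = avg F t := by
  have h1 := cf_sh hF hδ hP hr h 0 ht
  rw [cf_zero, cf_zero] at h1
  simpa using h1

theorem avg_DD (hF : Hol δ s F) (hδ : 0 < δ) (hP : Per F) (hr : 0 ≤ r) (h : r * s ≤ δ) {t : ℂ}
    (ht : t ∈ UU s) : avg (DD r F) t = 0 := by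
  have h1 := cf_DD hF hδ hP hr h 0 ht
  rw [cf_zero, cf_zero] at h1
  rw [h1]
  simp [dl]

theorem avg_sub (hF : Hol δ s F) (hG : Hol δ s G) (hδ : 0 < δ) {t : ℂ} (ht : t ∈ UU s) :
    avg (fun θ t => F θ t - G θ t) t = avg F t - avg G t := by
  have h1 := cf_sub hF hG hδ 0 ht
  rwa [cf_zero, cf_zero, cf_zero] at h1

theorem avg_of_t (g : ℂ → ℂ) (t : ℂ) : avg (fun _ t => g t) t = g t := by
  simp [avg]

theorem avg_real (hF : RSym F) (t : ℂ) : avg F (conj t) = conj (avg F t) := by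
  have h1 := cf_real hF 0 t
  rw [neg_zero, cf_zero] at h1
  exact h1

end Pool.Agent.NOne
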