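import Pool.Agent.NOne.KAvg

/-!
# MP_74f563_an, n = 1, file KFou: Fourier expansions on strips

PROOFS. `hasSum_strip`: let `g` be holomorphic on `|Im z| < δ` and 1-periodic, `c l = ∫₀¹ g(x)
e^{-2πilx} dx`. For a fixed `z = a + ib`, `|b| < δ`, the function `x ↦ g(x + ib)` on `ℝ` is
1-periodic and smooth; its `l`-th Fourier coefficient is `e^{-2πlb} c l` (`shift_integral` applied
to `g(z) e^{-2πilz}`), and `|c l| ≤ C_{δ'} e^{-2π|l|δ'}` for every `δ' < δ` (shift the contour;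
`g` is bounded on `|Im z| ≤ δ'` by periodicity and compactness).  Choose `|b| < δ' < δ`: the
coefficients of `x ↦ g(x + ib)` are summable, so its Fourier series converges to it
(`has_pointwise_sum_fourier_series_of_summable`, for the continuous function on `UnitAddCircle`
given by `x ↦ g(x + ib)`; `fourierCoeff_eq_intervalIntegral`).  At `x = a` this is the claim.
`hasSum_cf` is the special case `g = F(·, t)`. `norm_sub_le`: from `hasSum_cf`, `‖F θ t - cf 0 F
t‖ ≤ ∑_{l ≠ 0} ‖cf l F t‖ e^{2π|l||Im θ|}` and the hypothesis `‖cf l F t‖ ≤ A e^{-2π|l|δ₁}`, `|Im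
θ| ≤ δ₂ < δ₁`, so `≤ 2 A ∑_{l ≥ 1} e^{-2πl(δ₁ - δ₂)} = 2A / (e^{2π(δ₁ - δ₂)} - 1) ≤ 2A / (2π(δ₁ -
δ₂)) ≤ A / (3 (δ₁ - δ₂))`. `norm_le_of_cf` : the same with the first `K` terms separated.  Let
`‖cf l F t‖ ≤ A` for `0 < |l| ≤ K`, `cf 0 F t = 0` and `‖cf l F t‖ ≤ A' e^{-2π|l|δ₁}` for `|l| >
K`. For `|Im θ| ≤ δ₂ < δ₁`: the terms with `|l| ≤ K` contribute at most `2 K A e^{2πKδ₂}`, the
others `2A' ∑_{l > K} e^{-2πl(δ₁-δ₂)} ≤ 2A' e^{-2πK(δ₁-δ₂)} / (2π(δ₁-δ₂)) ≤ A' e^{-2πK(δ₁-δ₂)} /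
(δ₁-δ₂)`. -/

set_option autoImplicit false

namespace Pool.Agent.NOne

open Complex Set MeasureTheory
open scoped ComplexConjugate

variable {δ s : ℝ} {F : ℂ → ℂ → ℂ}

private theorem kf_congr {ι E : Type*} [AddCommMonoid E] [TopologicalSpace E] {f g : ι → E} {a : E}
    (hf : HasSum f a) (h : ∀ i, g i = f i) : HasSum g a := by
  have : g = f := funext h
  rw [this]
  exact hf

/-- a periodic function on the strip is bounded on the closed substrips -/
private theorem kf_bdd {g : ℂ → ℂ} {δ' : ℝ} (hδ' : δ' < δ)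
    (hg : DifferentiableOn ℂ g {z | |z.im| < δ}) (hp : ∀ z, g (z + 1) = g z) :
    ∃ C : ℝ, 0 ≤ C ∧ ∀ z : ℂ, |z.im| ≤ δ' → ‖g z‖ ≤ C := by
  have hK : IsCompact (Set.Icc (0 : ℝ) 1 ×ℂ Set.Icc (-δ') δ') :=
    isCompact_Icc.reProdIm isCompact_Icc
  have hc : ContinuousOn g (Set.Icc (0 : ℝ) 1 ×ℂ Set.Icc (-δ') δ') := by
    refine hg.continuousOn.mono ?_
    intro z hz
    have h2 := hz.2
    simp only [Set.mem_preimage, Set.mem_Icc] at h2
    exact lt_of_le_of_lt (abs_le.mpr h2) hδ'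
  obtain ⟨C, hC⟩ := hK.exists_bound_of_continuousOn hc
  refine ⟨max C 0, le_max_right _ _, ?_⟩
  intro z hz
  have hpn : ∀ (n : ℤ) (w : ℂ), g (w + n) = g w := by
    have hper : Function.Periodic g 1 := hp
    intro n w
    have := hper.int_mul n w
    simpa using this
  have h1 : g z = g (z + ((-⌊z.re⌋ : ℤ) : ℂ)) := (hpn _ _).symm
  rw [h1]
  refine (hC _ ?_).trans (le_max_left _ _)
  refine ⟨?_, ?_⟩
  · simp only [Set.mem_preimage, Set.mem_Icc, add_re, intCast_re]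
    push_cast
    constructor
    · have := Int.floor_le z.re
      linarith
    · have := (Int.lt_floor_add_one z.re).le
      linarith
  · simp only [Set.mem_preimage, Set.mem_Icc, add_im, intCast_im, add_zero]
    exact abs_le.mp hz

/-- the bound for the coefficients of a function on the strip -/
private theorem kf_cb {g : ℂ → ℂ} {δ' C : ℝ} (h0 : 0 < δ') (hδ' : δ' < δ)
    (hg : DifferentiableOn ℂ g {z | |z.im| < δ}) (hp : ∀ z, g (z + 1) = g z)
    (hC : ∀ z : ℂ, |z.im| ≤ δ' → ‖g z‖ ≤ C) (l : ℤ) :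
    ‖∫ x in (0 : ℝ)..1, g x * exp (-(2 * Real.pi * I * l * x))‖ ≤
      C * Real.exp (-(2 * Real.pi * |(l : ℝ)| * δ')) := by
  have hH : Hol δ' 1 (fun θ _ => g θ) := by
    have hg' : DifferentiableOn ℂ g {z | |z.im| < δ'} :=
      hg.mono fun z hz => lt_trans hz hδ'
    exact hg'.comp differentiable_fst.differentiableOn (fun q hq => hq.1)
  have hB : Bd δ' 1 C (fun θ _ => g θ) := fun θ _ hθ _ => hC θ hθ.le
  have hPe : Per (fun θ _ => g θ) := fun θ _ => hp θ
  have h0U : (0 : ℂ) ∈ UU 1 := by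
    simp only [UU, Set.mem_ofPred_eq, zero_re, zero_im, abs_zero]
    norm_num
  exact cf_bound hH h0 hPe hB l h0U

/-- the coefficients of the shifted function -/
private theorem kf_shift {g : ℂ → ℂ} (hδ : 0 < δ) (hg : DifferentiableOn ℂ g {z | |z.im| < δ})
    (hp : ∀ z, g (z + 1) = g z) {z : ℂ} (hz : |z.im| < δ) (l : ℤ) :
    ∫ x in (0 : ℝ)..1, g (x + z) * exp (-(2 * Real.pi * I * l * x)) =
      (∫ x in (0 : ℝ)..1, g x * exp (-(2 * Real.pi * I * l * x))) *
        exp (2 * Real.pi * I * l * z) := by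
  have hG : DifferentiableOn ℂ (fun w => g w * exp (-(2 * Real.pi * I * l * w)))
      {z | |z.im| < δ} := by
    refine hg.mul ?_
    have : Differentiable ℂ (fun w : ℂ => exp (-(2 * Real.pi * I * l * w))) := by fun_prop
    exact this.differentiableOn
  have hGp : ∀ w, (fun w => g w * exp (-(2 * Real.pi * I * l * w))) (w + 1) =
      (fun w => g w * exp (-(2 * Real.pi * I * l * w))) w := by
    intro w
    simp only
    rw [hp]
    congr 1
    have : -(2 * Real.pi * I * l * (w + 1)) =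
        -(2 * Real.pi * I * l * w) + ((-l : ℤ) : ℂ) * (2 * Real.pi * I) := by
      push_cast
      ring
    rw [this, Complex.exp_add, Complex.exp_int_mul_two_pi_mul_I, mul_one]
  have h := shift_integral hδ hG hGp hz
  beta_reduce at h
  rw [← h, ← intervalIntegral.integral_mul_const]
  refine intervalIntegral.integral_congr ?_
  intro x _
  beta_reduce
  rw [mul_assoc (g (x + z)), ← Complex.exp_add]
  congr 2
  ring

theorem hasSum_strip {g : ℂ → ℂ} (hδ : 0 < δ) (hg : DifferentiableOn ℂ g {z | |z.im| < δ})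
    (hp : ∀ z, g (z + 1) = g z) {z : ℂ} (hz : |z.im| < δ) :
    HasSum (fun l : ℤ => (∫ x in (0 : ℝ)..1, g x * exp (-(2 * Real.pi * I * l * x))) *
      exp (2 * Real.pi * I * l * z)) (g z) := by
  set f : ℝ → ℂ := fun x => g (x + z) with hf
  have hper : Function.Periodic f 1 := by
    intro x
    simp only [hf]
    push_cast
    rw [show (x : ℂ) + 1 + z = (x + z) + 1 by ring, hp]
  have hcont : Continuous f := by
    have h1 : ContinuousOn g {z | |z.im| < δ} := hg.continuousOn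
    refine h1.comp_continuous (by fun_prop) ?_
    intro x
    simpa using hz
  have hcl : Continuous hper.lift := continuous_coinduced_dom.mpr hcont
  set fc : C(UnitAddCircle, ℂ) := ⟨hper.lift, hcl⟩ with hfc
  have hcoef : ∀ l : ℤ, fourierCoeff (fc : UnitAddCircle → ℂ) l =
      (∫ x in (0 : ℝ)..1, g x * exp (-(2 * Real.pi * I * l * x))) *
        exp (2 * Real.pi * I * l * z) := by
    intro l
    rw [fourierCoeff_eq_intervalIntegral _ _ 0, ← kf_shift hδ hg hp hz l]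
    simp only [zero_add, ne_eq, one_ne_zero, not_false_eq_true, div_self, one_smul]
    refine intervalIntegral.integral_congr ?_
    intro x _
    simp only
    rw [fourier_coe_apply, smul_eq_mul, mul_comm]
    have h1 : fc (x : UnitAddCircle) = g (x + z) := by
      simp only [hfc, ContinuousMap.coe_mk]
      exact hper.lift_coe x
    rw [h1]
    congr 2
    push_cast
    ring
  -- summability
  obtain ⟨δ', h1, h2⟩ := exists_between hz
  have hδ'0 : 0 < δ' := lt_of_le_of_lt (abs_nonneg _) h1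
  obtain ⟨C, hC0, hC⟩ := kf_bdd h2 hg hp
  set ρ : ℝ := Real.exp (-(2 * Real.pi * (δ' - |z.im|))) with hρ
  have hρ0 : 0 ≤ ρ := (Real.exp_pos _).le
  have hρ1 : ρ < 1 := by
    rw [hρ, Real.exp_lt_one_iff]
    have := Real.pi_pos
    have h3 : 0 < δ' - |z.im| := by linarith
    have : 0 < 2 * Real.pi * (δ' - |z.im|) := by positivity
    linarith
  have hb : ∀ l : ℤ, ‖fourierCoeff (fc : UnitAddCircle → ℂ) l‖ ≤ C * ρ ^ l.natAbs := by
    intro l
    rw [hcoef, norm_mul]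
    have e1 := kf_cb hδ'0 h2 hg hp hC l
    have e2 : ‖exp (2 * Real.pi * I * l * z)‖ ≤ Real.exp (2 * Real.pi * |(l : ℝ)| * |z.im|) := by
      rw [Complex.norm_exp]
      apply Real.exp_le_exp.mpr
      have : (2 * Real.pi * I * l * z).re = -(2 * Real.pi * ((l : ℝ) * z.im)) := by
        simp
        ring
      rw [this]
      have h5 : -((l : ℝ) * z.im) ≤ |(l : ℝ)| * |z.im| := by
        rw [← abs_mul]
        exact neg_le_abs _
      have := Real.pi_pos
      nlinarith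
    calc _ ≤ (C * Real.exp (-(2 * Real.pi * |(l : ℝ)| * δ'))) *
          Real.exp (2 * Real.pi * |(l : ℝ)| * |z.im|) :=
          mul_le_mul e1 e2 (norm_nonneg _) (by positivity)
      _ = C * ρ ^ l.natAbs := by
          rw [mul_assoc, ← Real.exp_add, hρ, ← Real.exp_nat_mul]
          congr 2
          have : ((l.natAbs : ℕ) : ℝ) = |(l : ℝ)| := by
            rw [← Int.cast_abs, Int.abs_eq_natAbs]
            simp
          rw [this]
          ring
  have hsum : Summable (fourierCoeff (fc : UnitAddCircle → ℂ)) := by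
    refine Summable.of_norm_bounded (g := fun l : ℤ => C * ρ ^ l.natAbs) ?_ hb
    have hgeo : Summable (fun n : ℕ => C * ρ ^ n) :=
      (summable_geometric_of_lt_one hρ0 hρ1).mul_left C
    refine Summable.of_nat_of_neg ?_ ?_
    · simpa using hgeo
    · simpa using hgeo
  have hfin := has_pointwise_sum_fourier_series_of_summable hsum (0 : UnitAddCircle)
  have h0 : fc (0 : UnitAddCircle) = g z := by
    have h1 : fc ((0 : ℝ) : UnitAddCircle) = g ((0 : ℝ) + z) := by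
      simp only [hfc, ContinuousMap.coe_mk]
      exact hper.lift_coe 0
    simpa using h1
  rw [h0] at hfin
  refine kf_congr hfin ?_
  intro l
  simp [hcoef]

theorem hasSum_cf (hF : Hol δ s F) (hδ : 0 < δ) (hP : Per F) {θ t : ℂ} (hθ : |θ.im| < δ)
    (ht : t ∈ UU s) : HasSum (fun l : ℤ => cf l F t * exp (2 * Real.pi * I * l * θ)) (F θ t) := by
  have hg : DifferentiableOn ℂ (fun z => F z t) {z | |z.im| < δ} := by
    have h1 : DifferentiableOn ℂ (fun z : ℂ => ((z, t) : ℂ × ℂ)) {z | |z.im| < δ} := by fun_prop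
    exact hF.comp h1 (fun z hz => ⟨hz, ht⟩)
  exact hasSum_strip hδ hg (fun z => hP z t) hθ

/-- two functions with the same coefficients are equal -/
theorem eq_of_cf {G : ℂ → ℂ → ℂ} (hF : Hol δ s F) (hG : Hol δ s G) (hδ : 0 < δ) (hPF : Per F)
    (hPG : Per G) {t : ℂ} (ht : t ∈ UU s) (h : ∀ l : ℤ, cf l F t = cf l G t) {θ : ℂ}
    (hθ : |θ.im| < δ) : F θ t = G θ t := by
  have h1 := hasSum_cf hF hδ hPF hθ ht
  have h2 := hasSum_cf hG hδ hPG hθ ht
  simp only [h] at h1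
  exact h1.unique h2

private theorem kf_natAbs (l : ℤ) : ((l.natAbs : ℕ) : ℝ) = |(l : ℝ)| := by
  rw [← Int.cast_abs, Int.abs_eq_natAbs]
  simp

/-- the tails of the two-sided geometric series -/
private theorem kf_tail {ρ : ℝ} (h0 : 0 ≤ ρ) (h1 : ρ < 1) (B : ℝ) (K : ℕ) :
    HasSum (fun l : ℤ => if (K : ℤ) < |l| then B * ρ ^ l.natAbs else 0)
      (B * ρ ^ (K + 1) * (1 - ρ)⁻¹ + B * ρ ^ (K + 1) * (1 - ρ)⁻¹) := by
  have hgeo : HasSum (fun n : ℕ => B * ρ ^ (K + 1) * ρ ^ n) (B * ρ ^ (K + 1) * (1 - ρ)⁻¹) :=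
    (hasSum_geometric_of_lt_one h0 h1).mul_left _
  have hA : HasSum (fun n : ℕ => if K < n then B * ρ ^ n else 0)
      (B * ρ ^ (K + 1) * (1 - ρ)⁻¹) := by
    rw [← hasSum_nat_add_iff' (K + 1)]
    have hz : ∑ i ∈ Finset.range (K + 1), (if K < i then B * ρ ^ i else 0) = 0 := by
      apply Finset.sum_eq_zero
      intro i hi
      rw [Finset.mem_range] at hi
      rw [if_neg (by omega)]
    rw [hz, sub_zero]
    refine kf_congr hgeo ?_
    intro n
    rw [if_pos (by omega), pow_add ρ n (K + 1)]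
    ring
  have hB : HasSum (fun n : ℕ => if K < n + 1 then B * ρ ^ (n + 1) else 0)
      (B * ρ ^ (K + 1) * (1 - ρ)⁻¹) := by
    have h := (hasSum_nat_add_iff' (f := fun n : ℕ => if K < n then B * ρ ^ n else 0) 1).mpr hA
    simpa using h
  refine HasSum.of_nat_of_neg_add_one ?_ ?_
  · refine kf_congr hA ?_
    intro n
    simp
  · refine kf_congr hB ?_
    intro n
    have e1 : (-((n : ℤ) + 1)).natAbs = n + 1 := by omega
    have e2 : |(-((n : ℤ) + 1))| = (n : ℤ) + 1 := by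
      rw [abs_neg]
      exact abs_of_nonneg (by omega)
    rw [e1, e2]
    by_cases hc : K < n + 1
    · rw [if_pos hc, if_pos (by exact_mod_cast hc)]
    · rw [if_neg hc, if_neg (by exact_mod_cast hc)]

/-- the size of the tail -/
private theorem kf_size {x : ℝ} (hx : 0 < x) :
    Real.exp (-x) * (1 - Real.exp (-x))⁻¹ ≤ 1 / x := by
  have h1 : Real.exp (-x) < 1 := by
    rw [Real.exp_lt_one_iff]
    linarith
  have h2 : x + 1 ≤ Real.exp x := Real.add_one_le_exp x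
  have h3 : Real.exp (-x) * Real.exp x = 1 := by
    rw [← Real.exp_add]
    simp
  have hp := Real.exp_pos (-x)
  rw [← div_eq_mul_inv, div_le_div_iff₀ (by linarith) hx]
  nlinarith

/-- the norm of a term of the series -/
private theorem kf_term {A δ₁ δ₂ : ℝ} (hA : 0 ≤ A) {θ a : ℂ} (hθ1 : |θ.im| ≤ δ₂) (l : ℤ)
    (h : ‖a‖ ≤ A * Real.exp (-(2 * Real.pi * |(l : ℝ)| * δ₁))) :
    ‖a * exp (2 * Real.pi * I * l * θ)‖ ≤
      A * Real.exp (-(2 * Real.pi * (δ₁ - δ₂))) ^ l.natAbs := by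
  have e2 : ‖exp (2 * Real.pi * I * l * θ)‖ ≤ Real.exp (2 * Real.pi * |(l : ℝ)| * δ₂) := by
    rw [Complex.norm_exp]
    apply Real.exp_le_exp.mpr
    have : (2 * Real.pi * I * l * θ).re = -(2 * Real.pi * ((l : ℝ) * θ.im)) := by
      simp
      ring
    rw [this]
    have h5 : -((l : ℝ) * θ.im) ≤ |(l : ℝ)| * |θ.im| := by
      rw [← abs_mul]
      exact neg_le_abs _
    have h6 : |(l : ℝ)| * |θ.im| ≤ |(l : ℝ)| * δ₂ := mul_le_mul_of_nonneg_left hθ1 (abs_nonneg _)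
    have := Real.pi_pos
    nlinarith
  rw [norm_mul]
  calc _ ≤ (A * Real.exp (-(2 * Real.pi * |(l : ℝ)| * δ₁))) *
        Real.exp (2 * Real.pi * |(l : ℝ)| * δ₂) :=
        mul_le_mul h e2 (norm_nonneg _) (by positivity)
    _ = A * Real.exp (-(2 * Real.pi * (δ₁ - δ₂))) ^ l.natAbs := by
        rw [mul_assoc, ← Real.exp_add, ← Real.exp_nat_mul]
        congr 2
        rw [kf_natAbs]
        ring

theorem norm_sub_avg_le (hF : Hol δ s F) (hδ : 0 < δ) (hP : Per F) {θ t : ℂ} (ht : t ∈ UU s)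
    {A δ₁ δ₂ : ℝ} (hA : 0 ≤ A) (h12 : δ₂ < δ₁) (hθ1 : |θ.im| ≤ δ₂) (hθ : |θ.im| < δ)
    (h : ∀ l : ℤ, l ≠ 0 → ‖cf l F t‖ ≤ A * Real.exp (-(2 * Real.pi * |(l : ℝ)| * δ₁))) :
    ‖F θ t - avg F t‖ ≤ A / (3 * (δ₁ - δ₂)) := by
  have hs := hasSum_cf hF hδ hP hθ ht
  have hpi := Real.pi_gt_three
  have hd : 0 < δ₁ - δ₂ := by linarith
  have hx : 0 < 2 * Real.pi * (δ₁ - δ₂) := by positivity
  set ρ : ℝ := Real.exp (-(2 * Real.pi * (δ₁ - δ₂))) with hρ
  have hρ0 : 0 ≤ ρ := (Real.exp_pos _).le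
  have hρ1 : ρ < 1 := by
    rw [hρ, Real.exp_lt_one_iff]
    linarith
  have h0 := hs.update (0 : ℤ) (0 : ℂ)
  have e0 : (0 : ℂ) - cf 0 F t * exp (2 * Real.pi * I * ((0 : ℤ) : ℂ) * θ) + F θ t =
      F θ t - avg F t := by
    rw [cf_zero]
    simp
    ring
  rw [e0] at h0
  have ht0 := kf_tail hρ0 hρ1 A 0
  have hle := h0.norm_le_of_bounded ht0 (by
    intro l
    by_cases hl : l = 0
    · subst hl
      simp
    · rw [Function.update_of_ne hl]
      have : ((0 : ℕ) : ℤ) < |l| := by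
        simpa using hl
      rw [if_pos this]
      exact kf_term hA hθ1 l (h l hl))
  refine hle.trans ?_
  have hsz := kf_size hx
  rw [← hρ] at hsz
  have e3 : A * ρ ^ (0 + 1) * (1 - ρ)⁻¹ + A * ρ ^ (0 + 1) * (1 - ρ)⁻¹ =
      2 * A * (ρ * (1 - ρ)⁻¹) := by ring
  rw [e3]
  calc 2 * A * (ρ * (1 - ρ)⁻¹) ≤ 2 * A * (1 / (2 * Real.pi * (δ₁ - δ₂))) :=
        mul_le_mul_of_nonneg_left hsz (by positivity)
    _ = A / (Real.pi * (δ₁ - δ₂)) := by
        field_simp
    _ ≤ A / (3 * (δ₁ - δ₂)) := by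
        apply div_le_div_of_nonneg_left hA (by positivity)
        nlinarith

theorem norm_le_of_cf (hF : Hol δ s F) (hδ : 0 < δ) (hP : Per F) {θ t : ℂ} (ht : t ∈ UU s)
    {A A' δ₁ δ₂ : ℝ} {K : ℕ} (hA : 0 ≤ A) (hA' : 0 ≤ A') (hδ₂ : 0 ≤ δ₂) (h12 : δ₂ < δ₁)
    (hθ1 : |θ.im| ≤ δ₂) (hθ : |θ.im| < δ) (h0 : cf 0 F t = 0)
    (h1 : ∀ l : ℤ, l ≠ 0 → |l| ≤ K → ‖cf l F t‖ ≤ A)
    (h2 : ∀ l : ℤ, (K : ℤ) < |l| →
      ‖cf l F t‖ ≤ A' * Real.exp (-(2 * Real.pi * |(l : ℝ)| * δ₁))) :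
    ‖F θ t‖ ≤ 2 * K * A * Real.exp (2 * Real.pi * K * δ₂) +
      A' * Real.exp (-(2 * Real.pi * K * (δ₁ - δ₂))) / (δ₁ - δ₂) := by
  have hs := hasSum_cf hF hδ hP hθ ht
  have hpi := Real.pi_gt_three
  have hd : 0 < δ₁ - δ₂ := by linarith
  have hx : 0 < 2 * Real.pi * (δ₁ - δ₂) := by positivity
  set ρ : ℝ := Real.exp (-(2 * Real.pi * (δ₁ - δ₂))) with hρ
  have hρ0 : 0 ≤ ρ := (Real.exp_pos _).le
  have hρ1 : ρ < 1 := by
    rw [hρ, Real.exp_lt_one_iff]
    linarith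
  have ht0 := kf_tail hρ0 hρ1 A' K
  set S : Finset ℤ := (Finset.Icc (-(K : ℤ)) K).erase 0 with hS
  set M : ℝ := A * Real.exp (2 * Real.pi * K * δ₂) with hM
  have hM0 : 0 ≤ M := by positivity
  have hfin : HasSum (fun l : ℤ => if l ∈ S then M else 0) (∑ l ∈ S, if l ∈ S then M else 0) :=
    hasSum_sum_of_ne_finset_zero (fun b hb => if_neg hb)
  have hcard : (∑ l ∈ S, if l ∈ S then M else 0) = 2 * K * M := by
    rw [Finset.sum_congr rfl (fun l hl => if_pos hl), Finset.sum_const, nsmul_eq_mul]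
    congr 1
    rw [hS, Finset.card_erase_of_mem (by simp), Int.card_Icc]
    have : ((K : ℤ) + 1 - (-(K : ℤ))).toNat - 1 = 2 * K := by omega
    rw [this]
    push_cast
    ring
  rw [hcard] at hfin
  have hle := hs.norm_le_of_bounded (hfin.add ht0) (by
    intro l
    by_cases hl : (K : ℤ) < |l|
    · have hlS : l ∉ S := by
        rw [hS, Finset.mem_erase, Finset.mem_Icc]
        rintro ⟨-, h3, h4⟩
        have := abs_le.mpr ⟨h3, h4⟩
        omega
      rw [if_neg hlS, if_pos hl, zero_add]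
      exact kf_term hA' hθ1 l (h2 l hl)
    · rw [if_neg hl, add_zero]
      push Not at hl
      by_cases hl0 : l = 0
      · subst hl0
        rw [h0]
        split_ifs <;> simp [hM0]
      · have hlS : l ∈ S := by
          rw [hS, Finset.mem_erase, Finset.mem_Icc]
          exact ⟨hl0, (abs_le.mp hl).1, (abs_le.mp hl).2⟩
        rw [if_pos hlS]
        have h3 : ‖cf l F t‖ ≤ A * Real.exp (-(2 * Real.pi * |(l : ℝ)| * 0)) := by
          simpa using h1 l hl0 hl
        have h4 := kf_term hA hθ1 l h3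
        refine h4.trans ?_
        rw [hM, ← Real.exp_nat_mul]
        apply mul_le_mul_of_nonneg_left _ hA
        apply Real.exp_le_exp.mpr
        have h5 : ((l.natAbs : ℕ) : ℝ) ≤ K := by
          rw [kf_natAbs, ← Int.cast_abs]
          exact_mod_cast hl
        have h6 : ((l.natAbs : ℕ) : ℝ) * δ₂ ≤ K * δ₂ := mul_le_mul_of_nonneg_right h5 hδ₂
        nlinarith)
  refine hle.trans ?_
  have hsz := kf_size hx
  rw [← hρ] at hsz
  have e3 : A' * ρ ^ (K + 1) * (1 - ρ)⁻¹ + A' * ρ ^ (K + 1) * (1 - ρ)⁻¹ =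
      2 * (A' * ρ ^ K) * (ρ * (1 - ρ)⁻¹) := by ring
  have e4 : ρ ^ K = Real.exp (-(2 * Real.pi * K * (δ₁ - δ₂))) := by
    rw [hρ, ← Real.exp_nat_mul]
    congr 1
    ring
  have hK0 : 0 ≤ A' * ρ ^ K := by positivity
  have e5 : A' * ρ ^ (K + 1) * (1 - ρ)⁻¹ + A' * ρ ^ (K + 1) * (1 - ρ)⁻¹ ≤
      A' * Real.exp (-(2 * Real.pi * K * (δ₁ - δ₂))) / (δ₁ - δ₂) := by
    rw [e3, ← e4]
    calc 2 * (A' * ρ ^ K) * (ρ * (1 - ρ)⁻¹) ≤
          2 * (A' * ρ ^ K) * (1 / (2 * Real.pi * (δ₁ - δ₂))) :=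
          mul_le_mul_of_nonneg_left hsz (by positivity)
      _ = A' * ρ ^ K / (Real.pi * (δ₁ - δ₂)) := by
          field_simp
      _ ≤ A' * ρ ^ K / (δ₁ - δ₂) := by
          apply div_le_div_of_nonneg_left hK0 hd
          nlinarith
  have e6 : 2 * K * M = 2 * K * A * Real.exp (2 * Real.pi * K * δ₂) := by
    rw [hM]
    ring
  rw [e6]
  exact add_le_add le_rfl e5

end Pool.Agent.NOne
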