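import Pool.Agent.NOne.KDivS
import Pool.Agent.NOne.KFou

/-!
# MP_74f563_an, n = 1, file KDiv: inversion of `D`

PROOF of `div_DD`.  By `cf_DD`, `cf_bound` (applied to `DD r F`, which is holomorphic on `Om δ s` by
`Hol.hol_DD`, periodic by `per_DD`, bounded by `M`):
`|dl r l t * cf l F t| ≤ M e^{-2π|l|δ}` on `UU s`.  `cf l F` is holomorphic on `UU s`, so by
`div_small` `|cf l F t| ≤ (8 M / a) e^{-2π|l|δ}` for `l ≠ 0`, `t ∈ UU (s - a)`.  `norm_sub_avg_le`
with `A = 8 M / a`, `δ₁ = δ`, `δ₂ = |Im θ| < δ'` gives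
`‖F θ t - avg F t‖ ≤ (8 M / a) / (3 (δ - δ')) ≤ 3 M / (a (δ - δ'))`.
(`M ≥ 0` because `Om δ s` is not empty when there is a `t ∈ UU (s - a)`.)
-/

set_option autoImplicit false

namespace Pool.Agent.NOne

open Complex Set MeasureTheory

theorem div_DD {F : ℂ → ℂ → ℂ} {δ δ₁ δ' s a r M : ℝ} (hF : Hol δ₁ s F) (hP : Per F)
    (hδ' : 0 < δ') (hδ : δ' < δ) (h1 : δ + r * s ≤ δ₁) (hs : s ≤ 1 / 8) (ha : 0 < a) (hr : 0 < r)
    (hr1 : r ≤ 1) (hM : Bd δ s M (DD r F)) :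
    Bd δ' (s - a) (3 * M / (a * (δ - δ'))) fun θ t => F θ t - avg F t := by
  intro θ t hθ ht
  have hδ0 : 0 < δ := hδ'.trans hδ
  have hs0 : 0 < s := by
    have h2 := ht.2
    have h3 := abs_nonneg t.im
    linarith
  have hrs : 0 < r * s := mul_pos hr hs0
  have hδ1 : 0 < δ₁ := by linarith
  have hsub : UU (s - a) ⊆ UU s := by
    intro u hu
    exact ⟨hu.1.trans_le (by linarith), hu.2.trans_le (by linarith)⟩
  have htU : t ∈ UU s := hsub ht
  have hM0 : 0 ≤ M := by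
    have h2 := hM 0 t (by simpa using hδ0) htU
    exact (norm_nonneg _).trans h2
  have hcf : ∀ l : ℤ, l ≠ 0 →
      ‖cf l F t‖ ≤ 8 * M / a * Real.exp (-(2 * Real.pi * |(l : ℝ)| * δ)) := by
    intro l hl
    have h2 : ∀ u ∈ UU s, ‖dl r l u * cf l F u‖ ≤
        M * Real.exp (-(2 * Real.pi * |(l : ℝ)| * δ)) := by
      intro u hu
      rw [← cf_DD hF hδ1 hP hr.le (by linarith) l hu]
      exact cf_bound (hF.hol_DD hr.le h1) hδ0 (per_DD hP) hM l hu
    have h3 := div_small (cf_hol hF hδ1 l) hs ha hr hr1 hl h2 t ht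
    refine h3.trans (le_of_eq ?_)
    ring
  have hA : 0 ≤ 8 * M / a := by positivity
  have hθδ : |θ.im| < δ := hθ.trans hδ
  have h2 := norm_sub_avg_le hF hδ1 hP htU hA hθδ le_rfl (by linarith) hcf
  refine h2.trans ?_
  have h3 : 0 < δ - δ' := by linarith
  have h4 : 8 * M / a / (3 * (δ - |θ.im|)) ≤ 8 * M / a / (3 * (δ - δ')) :=
    div_le_div_of_nonneg_left hA (by linarith) (by linarith)
  refine h4.trans ?_
  rw [div_div, div_le_div_iff₀ (by positivity) (by positivity)]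
  have h5 : 0 ≤ M * (a * (δ - δ')) := by positivity
  nlinarith

end Pool.Agent.NOne
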