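import Pool.Agent.NOne.KDom

/-!
# MP_74f563_an, n = 1, file KRem: division at simple zeros, interpolation at the resonances

`exists_quot`.  PROOF.  Put `h z = f z / d z` if `d z ≠ 0` and `h z = deriv f z / deriv d z` if
`d z = 0`.  Near a point with `d z₀ ≠ 0` (an open condition) `h = f / d` is differentiable.  If
`d z₀ = 0` then `f z₀ = 0` and near `z₀`: `d z = (z - z₀) dslope d z₀ z`,
`f z = (z - z₀) dslope f z₀ z` with `dslope d z₀ z₀ = deriv d z₀ ≠ 0`, so
`h z = dslope f z₀ z / dslope d z₀ z` for all `z` near `z₀` (also for `z = z₀`; for `z ≠ z₀` near `z₀`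
`d z ≠ 0`), and `dslope f z₀`, `dslope d z₀` are differentiable at `z₀`
(`Complex.differentiableOn_dslope`).

`interp` (interpolation at the resonances).  PROOF.  Let `l ≠ 0`, `z(t) = l r (1 + t)`.  Let `Z` be the
finite set of the integers `m` with `m = l r (1 + t_m)`, `|t_m| < 1/4 + s` (`t_m` real, in `UU s`):
there are at most `|l| r (1/2 + 2s) + 1 ≤ |l| + 2` of them, since these `m` lie in an interval of
length `|l| r (1/2 + 2 s) ≤ |l|`.  Let `sinc z = sin(πz) / (πz)`, `sinc 0 = 1`, which is entire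
(e.g. the `dslope` of `sin (π z) / π` at `0`), and `|sinc z| ≤ e^{π|Im z|}`, because
`sinc z = ∫₀¹ cos(π z x) dx` and `|cos(π z x)| ≤ cosh(π x |Im z|) ≤ e^{π|Im z|}`.  Put
`b t = ∑_{m ∈ Z} g(t_m) sinc(z(t) - m)`, `|z.im| = |l| r |Im t| ≤ |l| r s`, so
`|b t| ≤ (|l| + 2) e^{π|l|rs} A`.  For `m' ∈ Z`: `b(t_{m'}) = g(t_{m'})` as `sinc` vanishes at the
integers `≠ 0`.  The zeros of `dl r l` in `UU s` are exactly the `t_m`, `m ∈ Z`
(`e^{2πiz} = 1` iff `z ∈ ℤ`; `l r (1 + t) ∈ ℤ` forces `t` real), and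
`deriv (dl r l) t = 2πi l e^{2πi z(t)} ≠ 0` everywhere.  Apply `exists_quot` to `f = g - b`,
`d = dl r l`.
-/

set_option autoImplicit false

namespace Pool.Agent.NOne

open Complex Set MeasureTheory

theorem exists_quot {U : Set ℂ} (hU : IsOpen U) {f d : ℂ → ℂ} (hf : DifferentiableOn ℂ f U)
    (hd : DifferentiableOn ℂ d U) (h : ∀ z ∈ U, d z = 0 → deriv d z ≠ 0 ∧ f z = 0) :
    ∃ h : ℂ → ℂ, DifferentiableOn ℂ h U ∧ ∀ z ∈ U, h z * d z = f z := by
  classical
  refine ⟨fun z => if d z = 0 then deriv f z / deriv d z else f z / d z, fun z₀ hz₀ => ?_,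
    fun z hz => ?_⟩
  · have hU₀ := hU.mem_nhds hz₀
    refine DifferentiableAt.differentiableWithinAt ?_
    by_cases hd0 : d z₀ = 0
    · obtain ⟨h1, h2⟩ := h z₀ hz₀ hd0
      have hF : DifferentiableAt ℂ (dslope f z₀) z₀ :=
        ((Complex.differentiableOn_dslope hU₀).2 hf).differentiableAt hU₀
      have hD : DifferentiableAt ℂ (dslope d z₀) z₀ :=
        ((Complex.differentiableOn_dslope hU₀).2 hd).differentiableAt hU₀
      have hD0 : dslope d z₀ z₀ ≠ 0 := by
        rw [dslope_same]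
        exact h1
      have hne : ∀ᶠ z in nhds z₀, dslope d z₀ z ≠ 0 := hD.continuousAt.eventually_ne hD0
      refine (hF.div hD hD0).congr_of_eventuallyEq ?_
      filter_upwards [hne] with z hz
      have hd1 : (z - z₀) * dslope d z₀ z = d z := by
        have := sub_smul_dslope d z₀ z
        rwa [smul_eq_mul, hd0, sub_zero] at this
      have hf1 : (z - z₀) * dslope f z₀ z = f z := by
        have := sub_smul_dslope f z₀ z
        rwa [smul_eq_mul, h2, sub_zero] at this
      change (if d z = 0 then deriv f z / deriv d z else f z / d z) = dslope f z₀ z / dslope d z₀ z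
      by_cases hzz : z = z₀
      · subst hzz
        rw [if_pos hd0, dslope_same, dslope_same]
      · have h3 : z - z₀ ≠ 0 := sub_ne_zero.2 hzz
        rw [if_neg (by rw [← hd1]; exact mul_ne_zero h3 hz), ← hd1, ← hf1,
          mul_div_mul_left _ _ h3]
    · have hd2 := hd.differentiableAt hU₀
      have hne : ∀ᶠ z in nhds z₀, d z ≠ 0 := hd2.continuousAt.eventually_ne hd0
      refine ((hf.differentiableAt hU₀).div hd2 hd0).congr_of_eventuallyEq ?_
      filter_upwards [hne] with z hz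
      change (if d z = 0 then deriv f z / deriv d z else f z / d z) = f z / d z
      rw [if_neg hz]
  · change (if d z = 0 then deriv f z / deriv d z else f z / d z) * d z = f z
    by_cases hz0 : d z = 0
    · rw [hz0, mul_zero, (h z hz hz0).2]
    · rw [if_neg hz0, div_mul_cancel₀ _ hz0]

private theorem KRem_norm_cos (w : ℂ) : ‖Complex.cos w‖ ≤ Real.exp |w.im| := by
  rw [Complex.cos]
  have h1 : ‖Complex.exp (w * I)‖ ≤ Real.exp |w.im| := by
    rw [Complex.norm_exp]
    refine Real.exp_le_exp.2 ?_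
    simp only [mul_re, I_re, I_im, mul_zero, mul_one, zero_sub]
    exact neg_le_abs _
  have h2 : ‖Complex.exp (-w * I)‖ ≤ Real.exp |w.im| := by
    rw [Complex.norm_exp]
    refine Real.exp_le_exp.2 ?_
    simp only [mul_re, neg_re, neg_im, I_re, I_im, mul_zero, mul_one, zero_sub, neg_neg]
    exact le_abs_self _
  have h3 : ‖(2 : ℂ)‖ = 2 := by simp
  rw [norm_div, h3, div_le_iff₀ (by norm_num)]
  refine (norm_add_le _ _).trans ?_
  linarith

private theorem KRem_norm_sin (w : ℂ) : ‖Complex.sin w‖ ≤ Real.exp |w.im| * ‖w‖ := by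
  have hs : Convex ℝ {z : ℂ | |z.im| ≤ |w.im|} := by
    have h1 : {z : ℂ | |z.im| ≤ |w.im|} = Complex.imLm ⁻¹' (Icc (-|w.im|) |w.im|) := by
      ext z
      simp only [mem_ofPred_eq, mem_preimage, mem_Icc, abs_le]
      rfl
    rw [h1]
    exact (convex_Icc _ _).linear_preimage _
  have h1 := Convex.norm_image_sub_le_of_norm_deriv_le (f := Complex.sin) (C := Real.exp |w.im|)
    (s := {z : ℂ | |z.im| ≤ |w.im|}) (x := 0) (y := w)
    (fun x _ => Complex.differentiable_sin.differentiableAt) (fun x hx => by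
      rw [Complex.deriv_sin]
      exact (KRem_norm_cos x).trans (Real.exp_le_exp.2 hx)) hs (by simp) (by simp)
  rwa [Complex.sin_zero, sub_zero, sub_zero] at h1

/-- the function `sin (π z) / (π z)` -/
private noncomputable def snc : ℂ → ℂ := dslope (fun z => Complex.sin (Real.pi * z) / Real.pi) 0

private theorem KRem_pi : (Real.pi : ℂ) ≠ 0 := by exact_mod_cast Real.pi_ne_zero

private theorem snc_hasDeriv (z : ℂ) :
    HasDerivAt (fun z => Complex.sin (Real.pi * z) / Real.pi) (Complex.cos (Real.pi * z)) z := by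
  have h1 : HasDerivAt (fun z : ℂ => (Real.pi : ℂ) * z) Real.pi z := by
    simpa using (hasDerivAt_id z).const_mul (Real.pi : ℂ)
  have h2 := (h1.csin).div_const (Real.pi : ℂ)
  rwa [mul_div_assoc, div_self KRem_pi, mul_one] at h2

private theorem snc_zero : snc 0 = 1 := by
  unfold snc
  rw [dslope_same, (snc_hasDeriv 0).deriv, mul_zero, Complex.cos_zero]

private theorem snc_ne {z : ℂ} (hz : z ≠ 0) : snc z = Complex.sin (Real.pi * z) / Real.pi / z := by
  unfold snc
  rw [dslope_of_ne _ hz, slope_def_field, mul_zero, Complex.sin_zero, zero_div, sub_zero, sub_zero]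

private theorem snc_int {m : ℤ} (hm : m ≠ 0) : snc m = 0 := by
  rw [snc_ne (Int.cast_ne_zero.2 hm), mul_comm, Complex.sin_int_mul_pi, zero_div, zero_div]

private theorem snc_diff : Differentiable ℂ snc := by
  have h1 : DifferentiableOn ℂ snc univ :=
    (Complex.differentiableOn_dslope Filter.univ_mem).2 fun z _ =>
      (snc_hasDeriv z).differentiableAt.differentiableWithinAt
  exact differentiableOn_univ.1 h1

private theorem snc_norm (z : ℂ) : ‖snc z‖ ≤ Real.exp (Real.pi * |z.im|) := by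
  by_cases hz : z = 0
  · rw [hz, snc_zero, norm_one, Complex.zero_im, abs_zero, mul_zero, Real.exp_zero]
  · have h1 := KRem_norm_sin (Real.pi * z)
    have h2 : ((Real.pi : ℂ) * z).im = Real.pi * z.im := by
      simp [Complex.mul_im]
    have h3 : ‖(Real.pi : ℂ)‖ = Real.pi := by
      rw [Complex.norm_real, Real.norm_eq_abs, abs_of_pos Real.pi_pos]
    rw [h2, abs_mul, abs_of_pos Real.pi_pos, norm_mul, h3] at h1
    rw [snc_ne hz, norm_div, norm_div, h3, div_div]
    refine (div_le_iff₀ (mul_pos Real.pi_pos (norm_pos_iff.2 hz))).2 h1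

theorem interp {g : ℂ → ℂ} {s r A : ℝ} {l : ℤ} (hg : DifferentiableOn ℂ g (UU s)) (hs0 : 0 < s)
    (hs : s ≤ 1 / 8) (hr : 0 < r) (hr1 : r ≤ 1) (hl : l ≠ 0) (hA0 : 0 ≤ A)
    (hA : ∀ t : ℝ, |t| < 1 / 4 + s → (∃ m : ℤ, (l : ℝ) * (r * (1 + t)) = m) → ‖g t‖ ≤ A) :
    ∃ b h : ℂ → ℂ, DifferentiableOn ℂ b (UU s) ∧ DifferentiableOn ℂ h (UU s) ∧
      (∀ t ∈ UU s, g t = b t + h t * dl r l t) ∧
      ∀ t ∈ UU s, ‖b t‖ ≤ (|(l : ℝ)| + 2) * Real.exp (Real.pi * |(l : ℝ)| * r * s) * A := by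
  classical
  have hlR : (l : ℝ) ≠ 0 := Int.cast_ne_zero.2 hl
  have hlC : (l : ℂ) ≠ 0 := Int.cast_ne_zero.2 hl
  have hrC : (r : ℂ) ≠ 0 := Complex.ofReal_ne_zero.2 hr.ne'
  have hlr : (l : ℝ) * r ≠ 0 := mul_ne_zero hlR hr.ne'
  have hla : 0 < |(l : ℝ)| := abs_pos.2 hlR
  -- the points
  set tm : ℤ → ℝ := fun m => m / (l * r) - 1 with htm
  have htm1 : ∀ m : ℤ, (l : ℝ) * (r * (1 + tm m)) = m := by
    intro m
    rw [htm]
    field_simp
    ring
  set c : ℝ := |(l : ℝ)| * r * (1 / 4 + s) with hc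
  have hc0 : 0 ≤ c := by positivity
  have hcl : 2 * c ≤ |(l : ℝ)| := by
    rw [hc]
    have h1 : r * (1 / 4 + s) ≤ 1 * (1 / 4 + 1 / 8) := by
      apply mul_le_mul hr1 (by linarith) (by linarith) (by norm_num)
    nlinarith
  set Z : Finset ℤ := (Finset.Icc ⌈(l : ℝ) * r - c⌉ ⌊(l : ℝ) * r + c⌋).filter
    fun m => |tm m| < 1 / 4 + s with hZ
  have hZmem : ∀ m : ℤ, m ∈ Z ↔ |tm m| < 1 / 4 + s := by
    intro m
    rw [hZ, Finset.mem_filter, Finset.mem_Icc]
    refine ⟨fun h => h.2, fun h => ⟨?_, h⟩⟩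
    have h1 : |(m : ℝ) - l * r| ≤ c := by
      have h2 : (m : ℝ) - l * r = l * r * tm m := by
        rw [htm]
        field_simp
      rw [h2, abs_mul, abs_mul, abs_of_pos hr, hc]
      exact mul_le_mul_of_nonneg_left h.le (by positivity)
    rw [abs_le] at h1
    exact ⟨Int.ceil_le.2 (by linarith [h1.1]), Int.le_floor.2 (by linarith [h1.2])⟩
  have hcard : (Z.card : ℝ) ≤ |(l : ℝ)| + 2 := by
    have h1 : Z.card ≤ (Finset.Icc ⌈(l : ℝ) * r - c⌉ ⌊(l : ℝ) * r + c⌋).card :=
      Finset.card_filter_le _ _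
    rw [Int.card_Icc] at h1
    have h2 : ((⌊(l : ℝ) * r + c⌋ + 1 - ⌈(l : ℝ) * r - c⌉).toNat : ℝ) ≤ |(l : ℝ)| + 2 := by
      have h3 : ((⌊(l : ℝ) * r + c⌋ : ℤ) : ℝ) ≤ (l : ℝ) * r + c := Int.floor_le _
      have h4 : (l : ℝ) * r - c ≤ ((⌈(l : ℝ) * r - c⌉ : ℤ) : ℝ) := Int.le_ceil _
      rcases le_total 0 (⌊(l : ℝ) * r + c⌋ + 1 - ⌈(l : ℝ) * r - c⌉) with h5 | h5
      · have h6 : ((⌊(l : ℝ) * r + c⌋ + 1 - ⌈(l : ℝ) * r - c⌉).toNat : ℤ) =
            ⌊(l : ℝ) * r + c⌋ + 1 - ⌈(l : ℝ) * r - c⌉ := Int.toNat_of_nonneg h5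
        have h7 : ((⌊(l : ℝ) * r + c⌋ + 1 - ⌈(l : ℝ) * r - c⌉).toNat : ℝ) =
            ((⌊(l : ℝ) * r + c⌋ + 1 - ⌈(l : ℝ) * r - c⌉ : ℤ) : ℝ) := by
          exact_mod_cast congrArg (fun x : ℤ => (x : ℝ)) h6
        rw [h7]
        push_cast
        linarith
      · rw [Int.toNat_of_nonpos h5]
        push_cast
        linarith
    exact (by exact_mod_cast h1 : (Z.card : ℝ) ≤
      ((⌊(l : ℝ) * r + c⌋ + 1 - ⌈(l : ℝ) * r - c⌉).toNat : ℝ)).trans h2
  -- the function
  set zt : ℂ → ℂ := fun t => l * (r * (1 + t)) with hzt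
  set b : ℂ → ℂ := fun t => ∑ m ∈ Z, g (tm m) * snc (zt t - m) with hb
  have hztd : Differentiable ℂ zt := by
    rw [hzt]
    fun_prop
  have hbd : Differentiable ℂ b := by
    rw [hb]
    refine Differentiable.fun_sum fun m _ => ?_
    exact (snc_diff.comp (hztd.sub_const _)).const_mul _
  have hztm : ∀ m : ℤ, zt (tm m) = m := by
    intro m
    rw [hzt]
    have h1 := htm1 m
    have h2 : ((l : ℝ) * (r * (1 + tm m)) : ℝ) = ((m : ℝ) : ℝ) := h1
    have h3 := congrArg (fun x : ℝ => (x : ℂ)) h2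
    push_cast at h3
    exact h3
  have hbt : ∀ m ∈ Z, b (tm m) = g (tm m) := by
    intro m hm
    rw [hb]
    change ∑ m' ∈ Z, g (tm m') * snc (zt (tm m) - m') = g (tm m)
    rw [Finset.sum_eq_single m, hztm, sub_self, snc_zero, mul_one]
    · intro m' _ hne
      rw [hztm, ← Int.cast_sub, snc_int (sub_ne_zero.2 hne.symm), mul_zero]
    · exact fun h => absurd hm h
  have hbb : ∀ t ∈ UU s, ‖b t‖ ≤ (|(l : ℝ)| + 2) * Real.exp (Real.pi * |(l : ℝ)| * r * s) * A := by
    intro t ht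
    have h1 : ∀ m ∈ Z, ‖g (tm m) * snc (zt t - m)‖ ≤
        Real.exp (Real.pi * |(l : ℝ)| * r * s) * A := by
      intro m hm
      rw [norm_mul, mul_comm]
      refine mul_le_mul ?_ (hA _ ((hZmem m).1 hm) ⟨m, htm1 m⟩) (norm_nonneg _) (Real.exp_pos _).le
      refine (snc_norm _).trans (Real.exp_le_exp.2 ?_)
      have h2 : (zt t - m).im = l * (r * t.im) := by
        rw [hzt]
        simp
      rw [h2, abs_mul, abs_mul, abs_of_pos hr]
      have h3 : |t.im| ≤ s := ht.2.le
      have h4 : r * |t.im| ≤ r * s := mul_le_mul_of_nonneg_left h3 hr.le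
      have h5 : |(l : ℝ)| * (r * |t.im|) ≤ |(l : ℝ)| * (r * s) :=
        mul_le_mul_of_nonneg_left h4 hla.le
      calc Real.pi * (|(l : ℝ)| * (r * |t.im|)) ≤ Real.pi * (|(l : ℝ)| * (r * s)) :=
            mul_le_mul_of_nonneg_left h5 Real.pi_pos.le
        _ = Real.pi * |(l : ℝ)| * r * s := by ring
    calc ‖b t‖ ≤ ∑ m ∈ Z, ‖g (tm m) * snc (zt t - m)‖ := norm_sum_le _ _
      _ ≤ ∑ _m ∈ Z, Real.exp (Real.pi * |(l : ℝ)| * r * s) * A := Finset.sum_le_sum h1
      _ = Z.card * (Real.exp (Real.pi * |(l : ℝ)| * r * s) * A) := by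
        rw [Finset.sum_const, nsmul_eq_mul]
      _ ≤ (|(l : ℝ)| + 2) * (Real.exp (Real.pi * |(l : ℝ)| * r * s) * A) :=
        mul_le_mul_of_nonneg_right hcard (mul_nonneg (Real.exp_pos _).le hA0)
      _ = _ := by ring
  have hdd : ∀ t : ℂ, HasDerivAt (dl r l) (exp (2 * Real.pi * I * l * (r * (1 + t))) *
      (2 * Real.pi * I * l)) t := by
    intro t
    have h1 : HasDerivAt (fun t : ℂ => 2 * Real.pi * I * l * (r * (1 + t)))
        (2 * Real.pi * I * l * (r * 1)) t :=
      (((hasDerivAt_id t).const_add 1).const_mul (r : ℂ)).const_mul (2 * Real.pi * I * l)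
    have h2 := ((h1.cexp).sub_const 1).div_const (r : ℂ)
    have h3 : exp (2 * Real.pi * I * l * (r * (1 + t))) * (2 * Real.pi * I * l * (r * 1)) / r =
        exp (2 * Real.pi * I * l * (r * (1 + t))) * (2 * Real.pi * I * l) := by
      field_simp
    rw [h3] at h2
    exact h2
  obtain ⟨h, hh1, hh2⟩ := exists_quot (isOpen_UU s) (hg.sub hbd.differentiableOn)
    (d := dl r l) (fun t _ => (hdd t).differentiableAt.differentiableWithinAt) (by
      intro t ht h0
      refine ⟨?_, ?_⟩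
      · rw [(hdd t).deriv]
        exact mul_ne_zero (exp_ne_zero _) (mul_ne_zero two_pi_I_ne_zero hlC)
      · have h1 : exp (2 * Real.pi * I * l * (r * (1 + t))) = 1 := by
          unfold dl at h0
          rcases div_eq_zero_iff.1 h0 with h2 | h2
          · exact sub_eq_zero.1 h2
          · exact absurd h2 hrC
        obtain ⟨n, hn⟩ := exp_eq_one_iff.1 h1
        have h2 : (l : ℂ) * (r * (1 + t)) = n := by
          have h3 : (2 * Real.pi * I) * (l * (r * (1 + t))) = (2 * Real.pi * I) * n := by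
            linear_combination hn
          exact mul_left_cancel₀ two_pi_I_ne_zero h3
        have h4 : t = (tm n : ℂ) := by
          have h5 := hztm n
          rw [hzt] at h5
          have h6 : (l : ℂ) * (r * (1 + t)) = l * (r * (1 + (tm n : ℂ))) := h2.trans h5.symm
          have h7 := mul_left_cancel₀ hrC (mul_left_cancel₀ hlC h6)
          exact add_left_cancel h7
        have h8 : n ∈ Z := by
          rw [hZmem]
          have h9 := ht.1
          rw [h4, Complex.ofReal_re] at h9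
          exact h9
        rw [h4]
        change g (tm n) - b (tm n) = 0
        rw [hbt n h8, sub_self])
  refine ⟨b, h, hbd.differentiableOn, hh1, fun t ht => ?_, hbb⟩
  have h1 := hh2 t ht
  rw [h1]
  change g t = b t + (g t - b t)
  ring

end Pool.Agent.NOne
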