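import Mathlib

/-! # MP_74f563_an, n = 1, file KNum: the sequences of the iteration

`δ_n = δ₀ / 4096^n`, `s_n = s₀ / 4096^n`, `ε_n = ε₀ ^ ((3/2)^n)`.

PROOF.  Write `ε₀ = e^{-N}`, `N` large, so `ε_n = e^{-N (3/2)^n}` and `(3/2)^n ≥ 1 + n/2`:
`ε_n^{1/8} ≤ e^{-N/8} e^{-Nn/16}`.  Let `Q = 4096^{60}`; for `N ≥ 16 log (2 Q)`:
`e^{-Nn/16} ≤ (2Q)^{-n}`, so `ε_n^{1/8} ≤ e^{-N/8} 2^{-n} Q^{-n}` and
`(δ_n s_n)^{20} = (δ₀ s₀)^{20} 4096^{-40n} ≥ (δ₀ s₀)^{20} Q^{-n}`.  So the three quantities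
`ε_n / (δ_n s_n)^{20}`, `ε_n^{1/8} / (δ_n s_n)^{15}`, `ε_n / (δ_n s_n)^9` are all at most
`ε_n^{1/8} / (δ_n s_n)^{20} ≤ e^{-N/8} 2^{-n} / (δ₀ s₀)^{20}`, and `e^{-N/8} → 0`. (3):
`C ε_n^{13/8} / (σ² (δ_n s_n)^{15})
= ε_n^{3/2} · C ε_n^{1/8} / (σ² (δ_n s_n)^{15}) ≤ ε_n^{3/2} = ε_{n+1}`.
(5) summability of `ε_n A^n` for every `A`: `ε_n ≤ e^{-N (3/2)^n}` tends to `0` faster than every
geometric sequence (ratio test: `ε_{n+1} A^{n+1} / (ε_n A^n) = A ε_n^{1/2} → 0`). -/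

set_option autoImplicit false

namespace Pool.Agent.NOne

open Filter Topology

private theorem kn_succ {ε₀ : ℝ} (h0 : 0 < ε₀) (n : ℕ) :
    ε₀ ^ ((3 / 2 : ℝ) ^ (n + 1)) = (ε₀ ^ ((3 / 2 : ℝ) ^ n)) ^ (3 / 2 : ℝ) := by
  rw [← Real.rpow_mul h0.le, pow_succ]

/-- The main estimate. -/
private theorem kn_main {ε₀ η Q : ℝ} (h0 : 0 < ε₀) (hη : 0 < η) (hη1 : η ≤ 1) (hQ : 0 < Q)
    (h1 : ε₀ ≤ η ^ 8) (h2 : ε₀ ≤ (1 / Q) ^ 16) (n : ℕ) :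
    (ε₀ ^ ((3 / 2 : ℝ) ^ n)) ^ (1 / 8 : ℝ) ≤ η / Q ^ n := by
  have hle1 : ε₀ ≤ 1 := h1.trans (pow_le_one₀ hη.le hη1)
  have h3 : 1 + (n : ℝ) / 2 ≤ (3 / 2 : ℝ) ^ n := by
    have h := one_add_mul_le_pow (a := (1 / 2 : ℝ)) (by norm_num) n
    have h' : (1 + 1 / 2 : ℝ) = 3 / 2 := by norm_num
    rw [h'] at h
    linarith
  have h4 : ε₀ ^ (1 / 8 : ℝ) ≤ η := by
    calc ε₀ ^ (1 / 8 : ℝ) ≤ (η ^ 8) ^ (1 / 8 : ℝ) := Real.rpow_le_rpow h0.le h1 (by norm_num)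
      _ = η := by
        rw [← Real.rpow_natCast, ← Real.rpow_mul hη.le]
        norm_num
  have h5 : ε₀ ^ (1 / 16 : ℝ) ≤ 1 / Q := by
    have hq : 0 ≤ 1 / Q := by positivity
    calc ε₀ ^ (1 / 16 : ℝ) ≤ ((1 / Q) ^ 16) ^ (1 / 16 : ℝ) :=
          Real.rpow_le_rpow h0.le h2 (by norm_num)
      _ = 1 / Q := by
        rw [← Real.rpow_natCast, ← Real.rpow_mul hq]
        norm_num
  calc (ε₀ ^ ((3 / 2 : ℝ) ^ n)) ^ (1 / 8 : ℝ)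
      = ε₀ ^ ((3 / 2 : ℝ) ^ n * (1 / 8)) := (Real.rpow_mul h0.le _ _).symm
    _ ≤ ε₀ ^ ((1 + (n : ℝ) / 2) * (1 / 8)) :=
        Real.rpow_le_rpow_of_exponent_ge h0 hle1 (by linarith)
    _ = ε₀ ^ (1 / 8 : ℝ) * (ε₀ ^ (1 / 16 : ℝ)) ^ n := by
        rw [← Real.rpow_natCast, ← Real.rpow_mul h0.le, ← Real.rpow_add h0]
        congr 1
        ring
    _ ≤ η * (1 / Q) ^ n := by
        refine mul_le_mul h4 (pow_le_pow_left₀ (Real.rpow_nonneg h0.le _) h5 n)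
          (by positivity) hη.le
    _ = η / Q ^ n := by rw [one_div, inv_pow, div_eq_mul_inv]

theorem numerics (C σ δ₀ s₀ : ℝ) (hC : 1 ≤ C) (hσ : 0 < σ) (hσ1 : σ ≤ 1) (hδ : 0 < δ₀)
    (hδ1 : δ₀ ≤ 1) (hs : 0 < s₀) (hs1 : s₀ ≤ 1) :
    ∃ ε₁ > (0 : ℝ), ε₁ < 1 ∧ ∀ ε₀ : ℝ, 0 < ε₀ → ε₀ ≤ ε₁ → ∀ n : ℕ,
      0 < ε₀ ^ ((3 / 2 : ℝ) ^ n) ∧
      C * ε₀ ^ ((3 / 2 : ℝ) ^ n) ≤ σ ^ 2 * ((δ₀ / 4096 ^ n) * (s₀ / 4096 ^ n)) ^ 20 ∧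
      C * (ε₀ ^ ((3 / 2 : ℝ) ^ n)) ^ (13 / 8 : ℝ) /
          (σ ^ 2 * ((δ₀ / 4096 ^ n) * (s₀ / 4096 ^ n)) ^ 15) ≤ ε₀ ^ ((3 / 2 : ℝ) ^ (n + 1)) ∧
      C * ε₀ ^ ((3 / 2 : ℝ) ^ n) / (σ * ((δ₀ / 4096 ^ n) * (s₀ / 4096 ^ n)) ^ 9) ≤
        σ / 32 / 2 ^ n := by
  have hC0 : 0 < C := by linarith
  have hu0 : 0 < δ₀ * s₀ := mul_pos hδ hs
  have hu1 : δ₀ * s₀ ≤ 1 := mul_le_one₀ hδ1 hs.le hs1
  obtain ⟨η, hη⟩ : ∃ η : ℝ, η = σ ^ 2 * (δ₀ * s₀) ^ 20 / (32 * C) := ⟨_, rfl⟩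
  obtain ⟨P, hP⟩ : ∃ P : ℝ, P = (4096 : ℝ) ^ 40 := ⟨_, rfl⟩
  have hP0 : 0 < P := by rw [hP]; positivity
  have hη0 : 0 < η := by rw [hη]; positivity
  have hη1 : η < 1 := by
    rw [hη, div_lt_one (by positivity)]
    have h1 : σ ^ 2 ≤ 1 := pow_le_one₀ hσ.le hσ1
    have h2 : (δ₀ * s₀) ^ 20 ≤ 1 := pow_le_one₀ hu0.le hu1
    have h3 : σ ^ 2 * (δ₀ * s₀) ^ 20 ≤ 1 := mul_le_one₀ h1 (by positivity) h2
    linarith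
  refine ⟨min (η ^ 8) ((1 / (2 * P)) ^ 16), lt_min (by positivity) (by positivity),
    (min_le_left _ _).trans_lt (pow_lt_one₀ hη0.le hη1 (by norm_num)), ?_⟩
  intro ε₀ h0 h1 n
  have hle8 : ε₀ ≤ η ^ 8 := h1.trans (min_le_left _ _)
  have hkey := kn_main h0 hη0 hη1.le (by positivity : 0 < 2 * P) hle8
    (h1.trans (min_le_right _ _)) n
  have hle1 : ε₀ ≤ 1 := hle8.trans (pow_le_one₀ hη0.le hη1.le)
  obtain ⟨E, hE⟩ : ∃ E : ℝ, E = ε₀ ^ ((3 / 2 : ℝ) ^ n) := ⟨_, rfl⟩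
  have hE0 : 0 < E := by rw [hE]; exact Real.rpow_pos_of_pos h0 _
  have hE1 : E ≤ 1 := by rw [hE]; exact Real.rpow_le_one h0.le hle1 (by positivity)
  rw [kn_succ h0, ← hE]
  rw [← hE] at hkey
  obtain ⟨D, hD⟩ : ∃ D : ℝ, D = E ^ (1 / 8 : ℝ) := ⟨_, rfl⟩
  rw [← hD] at hkey
  have hD0 : 0 < D := by rw [hD]; exact Real.rpow_pos_of_pos hE0 _
  have hED : E ≤ D := by
    rw [hD]
    exact Real.self_le_rpow_of_le_one hE0.le hE1 (by norm_num)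
  obtain ⟨u, hu⟩ : ∃ u : ℝ, u = (δ₀ / 4096 ^ n) * (s₀ / 4096 ^ n) := ⟨_, rfl⟩
  have h4096 : (1 : ℝ) ≤ 4096 ^ n := one_le_pow₀ (by norm_num)
  have hun0 : 0 < u := by rw [hu]; positivity
  have hun1 : u ≤ 1 := by
    rw [hu]
    refine mul_le_one₀ ?_ (by positivity) ?_
    · rw [div_le_one (by positivity)]
      linarith
    · rw [div_le_one (by positivity)]
      linarith
  rw [← hu]
  have hpow : u ^ 20 = (δ₀ * s₀) ^ 20 / P ^ n := by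
    rw [hu, hP, div_mul_div_comm, div_pow, ← pow_add, ← pow_mul, ← pow_mul]
    congr 2
    ring
  have hmain : C * D ≤ σ ^ 2 * u ^ 20 / (32 * 2 ^ n) := by
    calc C * D ≤ C * (η / (2 * P) ^ n) := mul_le_mul_of_nonneg_left hkey hC0.le
      _ = σ ^ 2 * u ^ 20 / (32 * 2 ^ n) := by
        rw [hpow, hη, mul_pow 2 P n]
        field_simp
  have h2n : (1 : ℝ) ≤ 2 ^ n := one_le_pow₀ (by norm_num)
  have hmain2 : C * D ≤ σ ^ 2 * u ^ 20 := by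
    refine hmain.trans (div_le_self (by positivity) ?_)
    linarith
  have hu15 : u ^ 20 ≤ u ^ 15 := pow_le_pow_of_le_one hun0.le hun1 (by norm_num)
  have hu9 : u ^ 20 ≤ u ^ 9 := pow_le_pow_of_le_one hun0.le hun1 (by norm_num)
  refine ⟨hE0, ?_, ?_, ?_⟩
  · exact (mul_le_mul_of_nonneg_left hED hC0.le).trans hmain2
  · have h13 : E ^ (13 / 8 : ℝ) = E ^ (3 / 2 : ℝ) * D := by
      rw [hD, ← Real.rpow_add hE0]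
      norm_num
    rw [h13, div_le_iff₀ (by positivity)]
    have h15 : C * D ≤ σ ^ 2 * u ^ 15 :=
      hmain2.trans (mul_le_mul_of_nonneg_left hu15 (by positivity))
    have h32 : 0 < E ^ (3 / 2 : ℝ) := Real.rpow_pos_of_pos hE0 _
    calc C * (E ^ (3 / 2 : ℝ) * D) = E ^ (3 / 2 : ℝ) * (C * D) := by ring
      _ ≤ E ^ (3 / 2 : ℝ) * (σ ^ 2 * u ^ 15) := mul_le_mul_of_nonneg_left h15 h32.le
  · rw [div_le_iff₀ (by positivity)]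
    calc C * E ≤ C * D := mul_le_mul_of_nonneg_left hED hC0.le
      _ ≤ σ ^ 2 * u ^ 20 / (32 * 2 ^ n) := hmain
      _ ≤ σ ^ 2 * u ^ 9 / (32 * 2 ^ n) := by gcongr
      _ = σ / 32 / 2 ^ n * (σ * u ^ 9) := by
        field_simp

theorem tendsto_eps {ε₀ : ℝ} (h0 : 0 < ε₀) (h1 : ε₀ < 1) :
    Tendsto (fun n : ℕ => ε₀ ^ ((3 / 2 : ℝ) ^ n)) atTop (𝓝 0) :=
  (tendsto_rpow_atTop_of_base_lt_one ε₀ (by linarith) h1).comp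
    (tendsto_pow_atTop_atTop_of_one_lt (by norm_num))

theorem summable_eps {ε₀ : ℝ} (h0 : 0 < ε₀) (h1 : ε₀ < 1) (A : ℝ) (hA : 0 < A) :
    Summable (fun n : ℕ => ε₀ ^ ((3 / 2 : ℝ) ^ n) * A ^ n) := by
  have hpos : ∀ n : ℕ, 0 < ε₀ ^ ((3 / 2 : ℝ) ^ n) := fun n => Real.rpow_pos_of_pos h0 _
  refine summable_of_ratio_test_tendsto_lt_one (l := 0) one_pos
    (Eventually.of_forall fun n => (mul_pos (hpos n) (pow_pos hA n)).ne') ?_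
  have h2 : Tendsto (fun n : ℕ => (ε₀ ^ ((3 / 2 : ℝ) ^ n)) ^ (1 / 2 : ℝ) * A) atTop (𝓝 0) := by
    have h3 := ((tendsto_eps h0 h1).rpow_const (p := (1 / 2 : ℝ)) (Or.inr (by norm_num)))
    have h4 := h3.mul_const A
    rw [Real.zero_rpow (by norm_num), zero_mul] at h4
    exact h4
  refine h2.congr fun n => ?_
  have h5 := hpos n
  rw [Real.norm_of_nonneg (mul_pos (hpos (n + 1)) (pow_pos hA _)).le,
    Real.norm_of_nonneg (mul_pos (hpos n) (pow_pos hA _)).le, kn_succ h0]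
  have h6 : (ε₀ ^ ((3 / 2 : ℝ) ^ n)) ^ (3 / 2 : ℝ) =
      ε₀ ^ ((3 / 2 : ℝ) ^ n) * (ε₀ ^ ((3 / 2 : ℝ) ^ n)) ^ (1 / 2 : ℝ) := by
    nth_rewrite 2 [← Real.rpow_one (ε₀ ^ ((3 / 2 : ℝ) ^ n))]
    rw [← Real.rpow_add h5]
    norm_num
  rw [h6, pow_succ]
  field_simp

end Pool.Agent.NOne
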