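import Pool.Agent.NOne.KRea

/-!
# MP_74f563_an, n = 1, file KReb: almost minimality of an approximate invariant circle

The resonance estimate (replaces the Diophantine condition).  Data (all real):
`ρ = r T > 0`, `k ρ = m` a positive integer; `S`, `S₂` (the derivative of `S` with respect to the second
variable) with the strong convexity inequality `hconv` for increments `< c`; a `C¹` lift `x` of a circle
diffeomorphism, `x' = x₁ ≥ 1/2`; `P θ = S₂(x(θ - ρ), x θ) / r`; `Sig θ = S(x θ, x(θ + ρ)) / r²` has the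
derivative `D(P x₁) + e`, `|e| ≤ N`; `hmin`: through every point there is a minimal configuration
of type `(k, m)`; `hLip`: `V = P + H / x₁` is Lipschitz with constant `1 / (4r)`, where
`H θ = (r / k) ∑_{j<k} (j - (k-1)/2) e(θ + jρ)`, so `|H| ≤ (r / k)(k²/4) N = r k N / 4` (`sum_abs_le`).

PROOF.  `omega_real` (with `g = P x₁`) gives `ω`, `κ` with `ω' = g + H - κ` and
`ω(θ + ρ) - ω(θ) = r (Sig - A / k)`, `A θ = ∑_{j<k} Sig(θ + jρ)`.  Put `Φ θ = ω θ + κ θ`, so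
`Φ' = g + H = V x₁`, `Φ(θ + 1) = Φ(θ) + κ`,
`Φ(θ + ρ) - Φ(θ) = r (Sig - A/k) + κ ρ`.
(a) For all `θ₁, θ₂`: `Φ θ₂ - Φ θ₁ - V θ₁ (x θ₂ - x θ₁) ≤ (x θ₂ - x θ₁)² / (4r)`.
Proof: the left side is `∫_{θ₁}^{θ₂} (V - V θ₁) x₁`, and `|V θ - V θ₁| ≤ |θ - θ₁| / (4r) ≤
|x θ - x θ₁| / (2r)` (since `x' ≥ 1/2`), so it is at most `∫ |x - x θ₁| x₁ / (2r) =
(x θ₂ - x θ₁)² / (4r)` (both orders of `θ₁, θ₂`; alternatively a monotonicity argument: the
derivative in `θ₂` of right side minus left side is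
`x₁ θ₂ ((x θ₂ - x θ₁) / (2r) - (V θ₂ - V θ₁))`, which has the sign of `θ₂ - θ₁`).
(b) Let `y = x θ`, `θ' ∈ ℝ` with `|x θ' - x θ| < c`.  With `Y₁ = x(θ + ρ)` (`|Y₁ - y| < c` by `hxc`),
`Y₂ = x θ'`, `d = Y₂ - Y₁`: `hconv` and (a) with `θ₁ = θ + ρ`, `θ₂ = θ'` give
`S(y, Y₂) / r² - (Φ θ' - Φ θ) / r ≥ S(y, Y₁) / r² - (Φ(θ + ρ) - Φ θ) / r
   + (S₂(y, Y₁) / r² - V(θ + ρ) / r) d + (1 / (2r²) - 1 / (4r²)) d²`.
Here `S₂(y, Y₁) / r = P(θ + ρ)`, so the bracket is `-(H / x₁)(θ + ρ) / r =: -β / r`, `|β| ≤ 2 h`,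
`h = r k N / 4`, and `-β d / r + d² / (4 r²) ≥ -β² ≥ -4 h²`.  And
`S(y, Y₁) / r² - (Φ(θ + ρ) - Φ θ) / r = Sig θ - (Sig θ - A θ / k) - κ ρ / r = A θ / k - κ T`.
So `S(x θ, x θ') / r² - (Φ θ' - Φ θ) / r ≥ A θ / k - κ T - 4 h²`.
(c) Let `θ₀` be given, `a = x θ₀`, and `y` the minimal configuration of `hmin` with `y 0 = a`.
`x` is a bijection of `ℝ` (continuous, strictly increasing, `x(θ + 1) = x θ + 1`): `y j = x θ_j`,
`θ_k = θ_0 + m` (as `y k = y 0 + m`).  Sum (b) over `j < k` (`|y (j+1) - y j| < c`):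
`(∑ S(y j, y (j+1))) / r² - (Φ(θ₀ + m) - Φ θ₀) / r ≥ (1/k) ∑ A θ_j - k κ T - 4 k h²`, and
`Φ(θ₀ + m) - Φ(θ₀) = m κ`, `m / r = k ρ / r = k T`.  So with
`A* (a) = (∑_{j<k} S(y j, y (j+1))) / r²`:  `A* ≥ (1/k) ∑_{j<k} A θ_j - 4 k h²`.
(d) For every `θ` the configuration `b_j = x(θ + jρ)` has type `(k, m)` and increments `< c` (`hxc`), so
by minimality `A* ≤ ∑_{j<k} S(b_j, b_{j+1}) / r² = A θ`.  In particular `A*` does not depend on `a`:
if `y`, `y'` are minimal then each sum is `≤` the other (both have increments in `(0, c)`), so `A*` is a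
constant.  Hence `A* ≥ (1/k)(A θ₀ + (k - 1) A*) - 4 k h²`, i.e. `A θ₀ ≤ A* + 4 k² h²
 = A* + k⁴ r² N² / 4`.
-/

set_option autoImplicit false

namespace Pool.Agent.NOne

open Set MeasureTheory

/-- The growth of `x`. -/
private theorem kr_lower {x x₁ : ℝ → ℝ} (hx : ∀ θ, HasDerivAt x (x₁ θ) θ)
    (hx₁ : ∀ θ, 1 / 2 ≤ x₁ θ) {a b : ℝ} (h : a ≤ b) : 1 / 2 * (b - a) ≤ x b - x a :=
  mul_sub_le_image_sub_of_le_deriv (fun θ => (hx θ).differentiableAt)
    (fun θ => by rw [(hx θ).deriv]; exact hx₁ θ) h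

private theorem kr_surj {x x₁ : ℝ → ℝ} (hx : ∀ θ, HasDerivAt x (x₁ θ) θ)
    (hx₁ : ∀ θ, 1 / 2 ≤ x₁ θ) (y : ℝ) : ∃ θ, x θ = y := by
  have hc : Continuous x := continuous_iff_continuousAt.2 fun θ => (hx θ).continuousAt
  refine mem_range_of_exists_le_of_exists_ge hc ⟨-(2 * |y - x 0|), ?_⟩ ⟨2 * |y - x 0|, ?_⟩
  · have h1 := kr_lower hx hx₁ (a := -(2 * |y - x 0|)) (b := 0) (by
      have := abs_nonneg (y - x 0)
      linarith)
    have h2 := neg_abs_le (y - x 0)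
    linarith
  · have h1 := kr_lower hx hx₁ (a := 0) (b := 2 * |y - x 0|) (by positivity)
    have h2 := le_abs_self (y - x 0)
    linarith

private theorem kr_inj {x x₁ : ℝ → ℝ} (hx : ∀ θ, HasDerivAt x (x₁ θ) θ)
    (hx₁ : ∀ θ, 1 / 2 ≤ x₁ θ) {a b : ℝ} (h : x a = x b) : a = b := by
  rcases le_total a b with hab | hab
  · have h1 := kr_lower hx hx₁ hab
    linarith
  · have h1 := kr_lower hx hx₁ hab
    linarith

/-- Step (a). -/
private theorem kr_a {r : ℝ} (hr : 0 < r) {x x₁ Φ V : ℝ → ℝ} (hx : ∀ θ, HasDerivAt x (x₁ θ) θ)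
    (hx₁ : ∀ θ, 1 / 2 ≤ x₁ θ) (hΦ : ∀ θ, HasDerivAt Φ (V θ * x₁ θ) θ)
    (hV : ∀ θ θ', |V θ - V θ'| ≤ 1 / (4 * r) * |θ - θ'|) (a b : ℝ) :
    Φ b - Φ a - V a * (x b - x a) ≤ (x b - x a) ^ 2 / (4 * r) := by
  set F : ℝ → ℝ := fun θ => (x θ - x a) ^ 2 / (4 * r) - (Φ θ - Φ a - V a * (x θ - x a)) with hF
  have hd : ∀ θ, HasDerivAt F (x₁ θ * ((x θ - x a) / (2 * r) - (V θ - V a))) θ := by
    intro θ
    have h1 : HasDerivAt (fun θ => (x θ - x a) ^ 2 / (4 * r))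
        (2 * (x θ - x a) * x₁ θ / (4 * r)) θ := by
      have h2 : HasDerivAt (fun θ => (x θ - x a) ^ 2 / (4 * r))
          (((2 : ℕ) : ℝ) * (x θ - x a) ^ (2 - 1) * x₁ θ / (4 * r)) θ :=
        (((hx θ).sub_const (x a)).pow 2).div_const (4 * r)
      have e : 2 * (x θ - x a) * x₁ θ / (4 * r) =
          ((2 : ℕ) : ℝ) * (x θ - x a) ^ (2 - 1) * x₁ θ / (4 * r) := by
        push_cast
        ring
      rw [e]
      exact h2
    have h3 : HasDerivAt (fun θ => Φ θ - Φ a - V a * (x θ - x a))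
        (V θ * x₁ θ - V a * x₁ θ) θ :=
      ((hΦ θ).sub_const (Φ a)).sub (((hx θ).sub_const (x a)).const_mul (V a))
    have e : x₁ θ * ((x θ - x a) / (2 * r) - (V θ - V a)) =
        2 * (x θ - x a) * x₁ θ / (4 * r) - (V θ * x₁ θ - V a * x₁ θ) := by
      field_simp
      ring
    rw [e]
    exact h1.sub h3
  have hc : Continuous F := continuous_iff_continuousAt.2 fun θ => (hd θ).continuousAt
  have hF0 : F a = 0 := by simp [hF]
  have hx1p : ∀ θ, 0 < x₁ θ := fun θ => by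
    have := hx₁ θ
    linarith
  have key : 0 ≤ F b := by
    rcases le_total a b with hab | hab
    · have hm : MonotoneOn F (Set.Ici a) := by
        refine monotoneOn_of_deriv_nonneg (convex_Ici a) hc.continuousOn
          (fun θ _ => (hd θ).differentiableAt.differentiableWithinAt) fun θ hθ => ?_
        rw [interior_Ici] at hθ
        have hθ' : a ≤ θ := le_of_lt hθ
        rw [(hd θ).deriv]
        refine mul_nonneg (hx1p θ).le ?_
        have h1 := kr_lower hx hx₁ hθ'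
        have h2 := (le_abs_self _).trans (hV θ a)
        rw [abs_of_nonneg (sub_nonneg.2 hθ')] at h2
        have h3 : 1 / (4 * r) * (θ - a) ≤ (x θ - x a) / (2 * r) := by
          rw [div_mul_eq_mul_div, div_le_div_iff₀ (by positivity) (by positivity)]
          nlinarith
        linarith
      have h1 := hm (Set.mem_Ici.2 le_rfl) (Set.mem_Ici.2 hab) hab
      rwa [hF0] at h1
    · have hm : AntitoneOn F (Set.Iic a) := by
        refine antitoneOn_of_deriv_nonpos (convex_Iic a) hc.continuousOn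
          (fun θ _ => (hd θ).differentiableAt.differentiableWithinAt) fun θ hθ => ?_
        rw [interior_Iic] at hθ
        have hθ' : θ ≤ a := le_of_lt hθ
        rw [(hd θ).deriv]
        refine mul_nonpos_of_nonneg_of_nonpos (hx1p θ).le ?_
        have h1 := kr_lower hx hx₁ hθ'
        have h2 := (neg_abs_le _).trans' (neg_le_neg (hV θ a))
        rw [abs_of_nonpos (sub_nonpos.2 hθ')] at h2
        have h3 : 1 / (4 * r) * (a - θ) ≤ (x a - x θ) / (2 * r) := by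
          rw [div_mul_eq_mul_div, div_le_div_iff₀ (by positivity) (by positivity)]
          nlinarith
        have h4 : (x θ - x a) / (2 * r) = -((x a - x θ) / (2 * r)) := by ring
        rw [h4]
        have h5 : 1 / (4 * r) * -(θ - a) = 1 / (4 * r) * (a - θ) := by ring
        rw [h5] at h2
        linarith
      have h1 := hm (Set.mem_Iic.2 hab) (Set.mem_Iic.2 le_rfl) hab
      rwa [hF0] at h1
  simp only [hF] at key
  linarith

theorem almost_minimal {r ρ T c N : ℝ} {k m : ℕ} (hr : 0 < r) (hk : 0 < k) (hm : 0 < m)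
    (hρT : ρ = r * T) (hρ : (k : ℝ) * ρ = m) {S S₂ : ℝ → ℝ → ℝ}
    (hconv : ∀ y Y₁ Y₂ : ℝ, |Y₁ - y| < c → |Y₂ - y| < c →
      S y Y₁ + S₂ y Y₁ * (Y₂ - Y₁) + 1 / 2 * (Y₂ - Y₁) ^ 2 ≤ S y Y₂)
    {x x₁ : ℝ → ℝ} (hx : ∀ θ, HasDerivAt x (x₁ θ) θ) (hx₁ : ∀ θ, 1 / 2 ≤ x₁ θ)
    (hx₁c : Continuous x₁) (hxp : ∀ θ, x (θ + 1) = x θ + 1) (hxc : ∀ θ, |x (θ + ρ) - x θ| < c)
    {P e : ℝ → ℝ} (hP : ∀ θ, P θ = S₂ (x (θ - ρ)) (x θ) / r) (hPc : Continuous P)
    (he : ∀ θ, |e θ| ≤ N) (hep : ∀ θ, e (θ + 1) = e θ) (hPp : ∀ θ, P (θ + 1) = P θ)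
    {Sig : ℝ → ℝ} (hSig : ∀ θ, Sig θ = S (x θ) (x (θ + ρ)) / r ^ 2)
    (hSp : ∀ θ, Sig (θ + 1) = Sig θ)
    (hS : ∀ θ, HasDerivAt Sig ((P (θ + ρ) * x₁ (θ + ρ) - P θ * x₁ θ) / r + e θ) θ)
    (hLip : ∀ θ θ' : ℝ, |(P θ + r / k * (∑ j ∈ Finset.range k,
        ((j : ℝ) - ((k : ℝ) - 1) / 2) * e (θ + j * ρ)) / x₁ θ) -
      (P θ' + r / k * (∑ j ∈ Finset.range k,
        ((j : ℝ) - ((k : ℝ) - 1) / 2) * e (θ' + j * ρ)) / x₁ θ')| ≤ 1 / (4 * r) * |θ - θ'|)
    (hmin : ∀ a : ℝ, ∃ y : ℕ → ℝ, y 0 = a ∧ y k = a + m ∧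
      (∀ j < k, 0 < y (j + 1) - y j ∧ y (j + 1) - y j < c) ∧
      ∀ b : ℕ → ℝ, b k = b 0 + m → (∀ j < k, |b (j + 1) - b j| < c) →
        ∑ j ∈ Finset.range k, S (y j) (y (j + 1)) ≤ ∑ j ∈ Finset.range k, S (b j) (b (j + 1))) :
    ∃ A : ℝ, ∀ θ, A ≤ ∑ j ∈ Finset.range k, Sig (θ + j * ρ) ∧
      ∑ j ∈ Finset.range k, Sig (θ + j * ρ) ≤ A + (k : ℝ) ^ 4 * r ^ 2 * N ^ 2 / 4 := by
  classical
  have hkr : (0 : ℝ) < k := by exact_mod_cast hk
  have hN : 0 ≤ N := (abs_nonneg _).trans (he 0)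
  have hx1p : ∀ θ, 0 < x₁ θ := fun θ => by
    have := hx₁ θ
    linarith
  have hx₁p : ∀ θ, x₁ (θ + 1) = x₁ θ := by
    intro θ
    have h1 : HasDerivAt (fun θ => x (θ + 1)) (x₁ (θ + 1)) θ := (hx (θ + 1)).comp_add_const θ 1
    have h2 : HasDerivAt (fun θ => x (θ + 1)) (x₁ θ) θ := by
      have h3 : (fun θ => x (θ + 1)) = fun θ => x θ + 1 := funext hxp
      rw [h3]
      exact (hx θ).add_const 1
    exact h1.unique h2
  obtain ⟨ω, κ, hω1, hω2, hω3⟩ := omega_real (m := (m : ℤ)) hr hk (by push_cast; exact hρ)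
    (g := fun θ => P θ * x₁ θ) (hPc.mul hx₁c) (fun θ => by simp only [hPp, hx₁p]) hep hSp hS
  set H : ℝ → ℝ := fun θ => r / k * ∑ j ∈ Finset.range k,
    ((j : ℝ) - ((k : ℝ) - 1) / 2) * e (θ + j * ρ) with hH
  set A : ℝ → ℝ := fun θ => ∑ j ∈ Finset.range k, Sig (θ + j * ρ) with hA
  set h : ℝ := r * k * N / 4 with hh
  have hHb : ∀ θ, |H θ| ≤ h := by
    intro θ
    simp only [hH]
    rw [abs_mul, abs_of_pos (by positivity : 0 < r / (k : ℝ))]
    have h1 : |∑ j ∈ Finset.range k, ((j : ℝ) - ((k : ℝ) - 1) / 2) * e (θ + j * ρ)| ≤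
        (k : ℝ) ^ 2 / 4 * N := by
      refine (Finset.abs_sum_le_sum_abs _ _).trans ?_
      refine le_trans (Finset.sum_le_sum
        (g := fun j : ℕ => |(j : ℝ) - ((k : ℝ) - 1) / 2| * N) fun j _ => ?_) ?_
      · rw [abs_mul]
        exact mul_le_mul_of_nonneg_left (he _) (abs_nonneg _)
      · rw [← Finset.sum_mul]
        exact mul_le_mul_of_nonneg_right (sum_abs_le k) hN
    refine (mul_le_mul_of_nonneg_left h1 (by positivity)).trans (le_of_eq ?_)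
    rw [hh]
    field_simp
  have hh0 : 0 ≤ h := (abs_nonneg _).trans (hHb 0)
  -- the function `Φ`
  have hΦ : ∀ θ, HasDerivAt (fun θ => ω θ + κ * θ) ((P θ + H θ / x₁ θ) * x₁ θ) θ := by
    intro θ
    have h1 : HasDerivAt (fun θ => ω θ + κ * θ) (P θ * x₁ θ + H θ - κ + κ * 1) θ :=
      (hω2 θ).add ((hasDerivAt_id θ).const_mul κ)
    have e : (P θ + H θ / x₁ θ) * x₁ θ = P θ * x₁ θ + H θ - κ + κ * 1 := by
      have := (hx1p θ).ne'
      field_simp
      ring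
    rw [e]
    exact h1
  have ha := kr_a hr hx hx₁ hΦ hLip
  have hρr : ρ / r = T := by
    rw [hρT]
    field_simp
  -- step (b)
  have hb : ∀ θ θ', |x θ' - x θ| < c →
      A θ / k - κ * T - 4 * h ^ 2 ≤
        S (x θ) (x θ') / r ^ 2 - ((ω θ' + κ * θ') - (ω θ + κ * θ)) / r := by
    intro θ θ' hθ
    have h1 := hconv (x θ) (x (θ + ρ)) (x θ') (hxc θ) hθ
    have h2 := ha (θ + ρ) θ'
    have h3 : S₂ (x θ) (x (θ + ρ)) = r * P (θ + ρ) := by
      rw [hP (θ + ρ), add_sub_cancel_right]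
      field_simp
    rw [h3] at h1
    have h4 : S (x θ) (x (θ + ρ)) = r ^ 2 * Sig θ := by
      rw [hSig θ]
      field_simp
    rw [h4] at h1
    have h5 := hω3 θ
    set d := x θ' - x (θ + ρ) with hd
    set β := H (θ + ρ) / x₁ (θ + ρ) with hβ
    have h6 : |β| ≤ 2 * h := by
      rw [hβ, abs_div, abs_of_pos (hx1p _), div_le_iff₀ (hx1p _)]
      have h7 := hHb (θ + ρ)
      have h8 := hx₁ (θ + ρ)
      nlinarith
    have h7 : β ^ 2 ≤ 4 * h ^ 2 := by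
      have h8 := abs_le.1 h6
      nlinarith
    have h8 : 0 ≤ (d / (2 * r) - β) ^ 2 := sq_nonneg _
    have h9 : S (x θ) (x θ') / r ^ 2 ≥ Sig θ + P (θ + ρ) * d / r + d ^ 2 / (2 * r ^ 2) := by
      rw [ge_iff_le, le_div_iff₀ (by positivity)]
      refine le_trans (le_of_eq ?_) h1
      field_simp
    have h10 : ((ω θ' + κ * θ') - (ω (θ + ρ) + κ * (θ + ρ))) / r ≤
        (P (θ + ρ) + β) * d / r + d ^ 2 / (4 * r ^ 2) := by
      rw [div_le_iff₀ hr]
      have h11 : ((P (θ + ρ) + β) * d / r + d ^ 2 / (4 * r ^ 2)) * r =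
          (P (θ + ρ) + β) * d + d ^ 2 / (4 * r) := by
        field_simp
      rw [h11]
      linarith
    have h11 : ((ω (θ + ρ) + κ * (θ + ρ)) - (ω θ + κ * θ)) / r = Sig θ - A θ / k + κ * T := by
      have h12 : (ω (θ + ρ) + κ * (θ + ρ)) - (ω θ + κ * θ) =
          r * (Sig θ - 1 / k * A θ) + κ * ρ := by
        rw [← h5]
        ring
      rw [h12, add_div, mul_div_cancel_left₀ _ hr.ne', mul_div_assoc, hρr]
      ring
    have h12 : ((ω θ' + κ * θ') - (ω θ + κ * θ)) / r =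
        ((ω θ' + κ * θ') - (ω (θ + ρ) + κ * (θ + ρ))) / r +
          ((ω (θ + ρ) + κ * (θ + ρ)) - (ω θ + κ * θ)) / r := by
      ring
    rw [h12, h11]
    have h13 : (d / (2 * r) - β) ^ 2 = d ^ 2 / (4 * r ^ 2) - β * d / r + β ^ 2 := by
      field_simp
      ring
    rw [h13] at h8
    have h14 : (P (θ + ρ) + β) * d / r = P (θ + ρ) * d / r + β * d / r := by ring
    have h15 : d ^ 2 / (2 * r ^ 2) = d ^ 2 / (4 * r ^ 2) + d ^ 2 / (4 * r ^ 2) := by
      field_simp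
      ring
    rw [h14] at h10
    rw [h15] at h9
    linarith
  -- periodicity
  have hxn : ∀ (n : ℕ) (θ : ℝ), x (θ + n) = x θ + n := by
    intro n
    induction n with
    | zero => intro θ; simp
    | succ n ih =>
      intro θ
      have h1 : θ + ((n + 1 : ℕ) : ℝ) = (θ + n) + 1 := by push_cast; ring
      rw [h1, hxp, ih]
      push_cast
      ring
  have hωn : ∀ (n : ℕ) (θ : ℝ), ω (θ + n) = ω θ := by
    intro n
    induction n with
    | zero => intro θ; simp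
    | succ n ih =>
      intro θ
      have h1 : θ + ((n + 1 : ℕ) : ℝ) = (θ + n) + 1 := by push_cast; ring
      rw [h1, hω1, ih]
  -- step (d), the upper bound for minimal configurations
  have hconf : ∀ θ, ∑ j ∈ Finset.range k, S (x (θ + j * ρ)) (x (θ + ((j + 1 : ℕ) : ℝ) * ρ)) =
      r ^ 2 * A θ := by
    intro θ
    simp only [hA]
    rw [Finset.mul_sum]
    refine Finset.sum_congr rfl fun j _ => ?_
    rw [hSig]
    have h1 : θ + ((j + 1 : ℕ) : ℝ) * ρ = θ + j * ρ + ρ := by push_cast; ring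
    rw [h1]
    field_simp
  obtain ⟨y₀, hy0, hy1, hy2, hy3⟩ := hmin (x 0)
  have hMin : ∀ θ, ∑ j ∈ Finset.range k, S (y₀ j) (y₀ (j + 1)) ≤ r ^ 2 * A θ := by
    intro θ
    have h1 := hy3 (fun j => x (θ + j * ρ)) (by
      rw [hρ]
      have h2 := hxn m θ
      rw [h2]
      simp) (fun j _ => by
      have h1 : θ + ((j + 1 : ℕ) : ℝ) * ρ = θ + j * ρ + ρ := by push_cast; ring
      rw [h1]
      exact hxc _)
    rw [← hconf θ]
    exact h1
  refine ⟨(∑ j ∈ Finset.range k, S (y₀ j) (y₀ (j + 1))) / r ^ 2, fun θ => ⟨?_, ?_⟩⟩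
  · rw [div_le_iff₀ (by positivity), mul_comm]
    exact hMin θ
  · obtain ⟨y, hz0, hz1, hz2, hz3⟩ := hmin (x θ)
    have hE : ∑ j ∈ Finset.range k, S (y j) (y (j + 1)) ≤
        ∑ j ∈ Finset.range k, S (y₀ j) (y₀ (j + 1)) := by
      refine hz3 y₀ (by rw [hy1, hy0]) fun j hj => ?_
      have h1 := hy2 j hj
      rw [abs_of_pos h1.1]
      exact h1.2
    choose t ht using fun j => kr_surj hx hx₁ (y j)
    have ht0 : t 0 = θ := kr_inj hx hx₁ (by rw [ht, hz0])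
    have htk : t k = t 0 + m := kr_inj hx hx₁ (by rw [ht, hz1, hxn, ht, hz0])
    have h1 : ∀ j ∈ Finset.range k, A (t j) / k - κ * T - 4 * h ^ 2 ≤
        S (y j) (y (j + 1)) / r ^ 2 -
          ((ω (t (j + 1)) + κ * t (j + 1)) - (ω (t j) + κ * t j)) / r := by
      intro j hj
      have h2 := hb (t j) (t (j + 1)) (by
        rw [ht, ht]
        have h3 := hz2 j (Finset.mem_range.1 hj)
        rw [abs_of_pos h3.1]
        exact h3.2)
      rwa [ht, ht] at h2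
    have h2 := Finset.sum_le_sum h1
    rw [Finset.sum_sub_distrib (f := fun j => S (y j) (y (j + 1)) / r ^ 2), ← Finset.sum_div,
      ← Finset.sum_div, Finset.sum_range_sub (fun j => ω (t j) + κ * t j), htk, hωn] at h2
    simp only [Finset.sum_sub_distrib, Finset.sum_const, Finset.card_range, nsmul_eq_mul] at h2
    rw [← Finset.sum_div] at h2
    set M₀ := (∑ j ∈ Finset.range k, S (y₀ j) (y₀ (j + 1))) / r ^ 2 with hM₀
    have h3 : (∑ j ∈ Finset.range k, S (y j) (y (j + 1))) / r ^ 2 ≤ M₀ :=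
      div_le_div_of_nonneg_right hE (by positivity)
    have h4 : ∀ j, M₀ ≤ A (t j) := by
      intro j
      rw [hM₀, div_le_iff₀ (by positivity), mul_comm]
      exact hMin _
    have h5 : A θ + ((k : ℝ) - 1) * M₀ ≤ ∑ j ∈ Finset.range k, A (t j) := by
      obtain ⟨l, rfl⟩ : ∃ l, k = l + 1 := ⟨k - 1, by omega⟩
      rw [Finset.sum_range_succ', ht0]
      have h6 : ∑ _j ∈ Finset.range l, M₀ ≤ ∑ j ∈ Finset.range l, A (t (j + 1)) :=
        Finset.sum_le_sum fun j _ => h4 (j + 1)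
      rw [Finset.sum_const, Finset.card_range, nsmul_eq_mul] at h6
      push_cast
      linarith
    have h6 : (ω (t 0) + κ * (t 0 + m) - (ω (t 0) + κ * t 0)) / r = k * (κ * T) := by
      have h7 : ω (t 0) + κ * (t 0 + m) - (ω (t 0) + κ * t 0) = κ * m := by ring
      rw [h7, ← hρ, hρT]
      field_simp
    rw [h6] at h2
    have h7 : (∑ j ∈ Finset.range k, A (t j)) / k ≤ M₀ + k * (4 * h ^ 2) := by linarith
    rw [div_le_iff₀ hkr] at h7
    have h8 : (k : ℝ) * (4 * h ^ 2) * k = (k : ℝ) ^ 4 * r ^ 2 * N ^ 2 / 4 := by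
      rw [hh]
      ring
    have h9 : A θ ≤ M₀ + (k : ℝ) * (4 * h ^ 2) * k := by linarith
    rw [h8] at h9
    exact h9

end Pool.Agent.NOne
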