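import Pool.Agent.NOne.KGen
import Pool.Agent.NOne.KReb
import Pool.Agent.NOne.KIda

/-!
# MP_74f563_an, n = 1, file KRes: the error is quadratically small at the resonances

PROOF of `resonance`.  Let `t` be real, `|t| < 1/4 + s`, `l ≠ 0` with `l r (1 + t) = m₀ ∈ ℤ`;
`ρ = r (1 + t) > 0`.  Write `ρ = m / k` in lowest terms (`k, m ≥ 1`, `k ∣ l`, so `k ≤ |l|`):
`ρ = m₀ / l` is a rational number `> 0`; take its numerator and denominator.
The functions of the real variable `θ` (all values are real, by `RSym` of `X`, `Pm`, `Er`, `Sg`,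
`p1 X`):
`x θ = (X θ t).re`, `x₁ θ = (p1 X θ t).re`, `P θ = (Pm r lam X θ t).re`, `e θ = (sg r lam X θ
t).re`,
`Sig θ = (Sg r lam X θ t).re`, `S = gS B`, `S₂ y Y = deriv (fun Y => gS B y Y) Y`, `T = 1 + t`.
Check the hypotheses of `almost_minimal` with `N = 2 ε`:
`hρT`, `hρ` clear; `hconv` = `hc`; `x₁ ≥ 1 - b ≥ 1/2`; `hxc`: `|x(θ + ρ) - x θ| = r |DD r X| ≤ 2 r
< c`;
`hP`: `Pm θ = p2 lam (X(θ - ρ), DD r X (θ - ρ))` and `X(θ - ρ) + r DD r X (θ - ρ) = X θ`, use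
`gS_d2`;
`hSig`: `gS_lam`; `hS`: `I1` (real parts; complex derivative at real points:
`HasDerivAt.real_of_complex`);
`|e| ≤ 2 ε` (`bd_sg`); periodicities: `bd_sg`, `hol_Pm`, `hol_Sg`; `hmin` = `h0` for `k`, `m`
(`m / k = ρ ≤ (3/2) r < κ`).
`hLip`: the function in question is differentiable; its derivative is bounded by
`|P'| + (r k / 4)(sup|e'| / x₁ + sup|e| |x₁'| / x₁²)`.  Here `P' = Re p1 (Pm) = Re sm r (p1 mo)`
and by
`p1_cmp` `|p1 mo| ≤ (1/4)(9/8) + (9/4) · (3/2) b ≤ 2` (`bd_DD` applied to `p1 X` with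
`Bd .. b (p1 (p1 X))`); `|e'| ≤ 2ε / δ` (Cauchy: `Bd δ s (2ε) (sg)` and the disc of radius `< δ`
around
the real point), `|x₁'| ≤ b ≤ 1/8`; with `∑|j - (k-1)/2| ≤ k²/4` the derivative is at most
`2 + (r k / 4)(2 · 2ε/δ + 4 · 2ε · (1/8)) ≤ 2 + 2 r k ε / δ ≤ 2 + 2 = 4 ≤ 1 / (4 r)`, using `r |l|
ε ≤ δ`,
`k ≤ |l|` and `r ≤ 1/64` (`Par.r_le`).
CONCLUSION: `A(θ) = ∑_{j<k} Sig(θ + jρ)` satisfies `A* ≤ A ≤ A* + k⁴ r² ε²` (`N²/4 = ε²`).  Fourier
coefficient: since `k ∣ l`, `e^{2πiljρ} = 1` and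
`∫₀¹ A(θ) e^{-2πilθ} dθ = k · cf l (Sg) t` (shift invariance of the integral over a period), and
`∫₀¹ A* e^{-2πilθ} dθ = 0` (`l ≠ 0`), so `k |cf l (Sg) t| ≤ k⁴ r² ε²`, `|cf l (Sg) t| ≤ k³ r² ε²`.
Finally `cf l (sg) t = cf l (p1 Sg) t - dl r l t * cf l (Pm p1 X) t = 2πi l cf l (Sg) t` by `I1`,
`cf_DD`,
`cf_p1` and `dl r l t = 0` (`e^{2πi l ρ} = e^{2πi m₀} = 1`), so
`|cf l (sg) t| ≤ 2π |l| k³ r² ε² ≤ 7 |l|⁴ ε²` (`2π ≤ 7`, `k ≤ |l|`, `r ≤ 1`).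
-/

set_option autoImplicit false

namespace Pool.Agent.NOne

open Complex Set MeasureTheory

/-- the values of a symmetric function at real points are real -/
private theorem kr_real {F : ℂ → ℂ → ℂ} (hF : RSym F) (θ t : ℝ) :
    F (θ : ℂ) (t : ℂ) = (((F (θ : ℂ) (t : ℂ)).re : ℝ) : ℂ) := by
  have h := hF (θ : ℂ) (t : ℂ)
  rw [conj_ofReal, conj_ofReal] at h
  exact (conj_eq_iff_re.1 h.symm).symm

private theorem kr_im {F : ℂ → ℂ → ℂ} (hF : RSym F) (θ t : ℝ) :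
    (F (θ : ℂ) (t : ℂ)).im = 0 := by
  rw [kr_real hF θ t]
  exact ofReal_im _

/-- the derivative of the real part along the real axis -/
private theorem kr_deriv {δ s : ℝ} {F : ℂ → ℂ → ℂ} (hF : Hol δ s F) (hδ : 0 < δ) {t : ℂ}
    (ht : t ∈ UU s) (θ : ℝ) :
    HasDerivAt (fun x : ℝ => (F (x : ℂ) t).re) (p1 F (θ : ℂ) t).re θ := by
  have h1 : HasDerivAt (fun z => F z t) (p1 F (θ : ℂ) t) (θ : ℂ) :=
    hF.hasDerivAt1 (by rw [ofReal_im, abs_zero]; exact hδ) ht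
  exact h1.real_of_complex

private theorem kr_cont {δ s : ℝ} {F : ℂ → ℂ → ℂ} (hF : Hol δ s F) (hδ : 0 < δ) {t : ℂ}
    (ht : t ∈ UU s) : Continuous (fun x : ℝ => (F (x : ℂ) t).re) :=
  continuous_iff_continuousAt.2 fun θ => (kr_deriv hF hδ ht θ).continuousAt

/-- the Fourier coefficient of an almost constant sum over an orbit -/
private theorem kr_fourier {k : ℕ} {ρ : ℝ} {l m₀ : ℤ} (hl : l ≠ 0)
    (hm : (l : ℝ) * ρ = m₀) {Sig : ℝ → ℝ} (hSc : Continuous Sig) (hSp : ∀ θ, Sig (θ + 1) = Sig θ)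
    {A C : ℝ} (hA : ∀ θ, A ≤ ∑ j ∈ Finset.range k, Sig (θ + j * ρ) ∧
      ∑ j ∈ Finset.range k, Sig (θ + j * ρ) ≤ A + C) :
    k * ‖∫ x in (0 : ℝ)..1, (Sig x : ℂ) * exp (-(2 * Real.pi * I * l * x))‖ ≤ C := by
  have hec : Continuous fun x : ℝ => exp (-(2 * Real.pi * I * l * x)) := by fun_prop
  have hfc : Continuous fun x : ℝ => (Sig x : ℂ) * exp (-(2 * Real.pi * I * l * x)) :=
    (continuous_ofReal.comp hSc).mul hec
  have hfp : Function.Periodic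
      (fun x : ℝ => (Sig x : ℂ) * exp (-(2 * Real.pi * I * l * x))) 1 := by
    intro x
    beta_reduce
    rw [hSp]
    congr 1
    rw [exp_eq_exp_iff_exists_int]
    refine ⟨-l, ?_⟩
    push_cast
    ring
  have hE : ∀ (j : ℕ) (x : ℝ), exp (-(2 * Real.pi * I * l * ((x + j * ρ : ℝ) : ℂ))) =
      exp (-(2 * Real.pi * I * l * x)) := by
    intro j x
    rw [exp_eq_exp_iff_exists_int]
    refine ⟨-(j * m₀), ?_⟩
    have h1 : (l : ℂ) * (ρ : ℂ) = (m₀ : ℂ) := by exact_mod_cast hm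
    push_cast
    rw [← h1]
    ring
  have hj : ∀ j : ℕ, ∫ x in (0 : ℝ)..1, (Sig (x + j * ρ) : ℂ) *
      exp (-(2 * Real.pi * I * l * x)) =
      ∫ x in (0 : ℝ)..1, (Sig x : ℂ) * exp (-(2 * Real.pi * I * l * x)) := by
    intro j
    have h1 := hfp.intervalIntegral_add_eq (j * ρ) 0
    have h2 := intervalIntegral.integral_comp_add_right (a := 0) (b := 1)
      (fun x : ℝ => (Sig x : ℂ) * exp (-(2 * Real.pi * I * l * x))) (j * ρ)
    rw [zero_add, add_comm (1 : ℝ)] at h2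
    rw [zero_add] at h1
    rw [← h1, ← h2]
    refine intervalIntegral.integral_congr fun x _ => ?_
    beta_reduce
    rw [hE j x]
  have h0 : ∫ x in (0 : ℝ)..1, exp (-(2 * Real.pi * I * l * x)) = 0 := by
    have hc : -(2 * Real.pi * I * l) ≠ 0 := by
      refine neg_ne_zero.2 (mul_ne_zero (mul_ne_zero (mul_ne_zero two_ne_zero ?_) I_ne_zero) ?_)
      · exact_mod_cast Real.pi_ne_zero
      · exact_mod_cast hl
    have h1 := integral_exp_mul_complex (a := 0) (b := 1) hc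
    have h2 : exp (-(2 * Real.pi * I * l) * ((1 : ℝ) : ℂ)) = 1 := by
      rw [exp_eq_one_iff]
      refine ⟨-l, ?_⟩
      push_cast
      ring
    rw [h2, ofReal_zero, mul_zero, exp_zero, sub_self, zero_div] at h1
    rw [← h1]
    refine intervalIntegral.integral_congr fun x _ => ?_
    beta_reduce
    rw [neg_mul]
  have hI : ∀ j : ℕ, IntervalIntegrable (fun x : ℝ => (Sig (x + j * ρ) : ℂ) *
      exp (-(2 * Real.pi * I * l * x))) volume 0 1 := fun j =>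
    ((continuous_ofReal.comp (hSc.comp (continuous_id.add continuous_const))).mul
      hec).intervalIntegrable _ _
  have hsum : (k : ℂ) * ∫ x in (0 : ℝ)..1, (Sig x : ℂ) * exp (-(2 * Real.pi * I * l * x)) =
      ∫ x in (0 : ℝ)..1, (((∑ j ∈ Finset.range k, Sig (x + j * ρ)) - A : ℝ) : ℂ) *
        exp (-(2 * Real.pi * I * l * x)) := by
    have h1 : ∀ x : ℝ, (((∑ j ∈ Finset.range k, Sig (x + j * ρ)) - A : ℝ) : ℂ) *
        exp (-(2 * Real.pi * I * l * x)) = (∑ j ∈ Finset.range k, (Sig (x + j * ρ) : ℂ) *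
        exp (-(2 * Real.pi * I * l * x))) - (A : ℂ) * exp (-(2 * Real.pi * I * l * x)) := by
      intro x
      rw [← Finset.sum_mul]
      push_cast
      ring
    have h2 : IntervalIntegrable (fun x : ℝ => ∑ j ∈ Finset.range k, (Sig (x + j * ρ) : ℂ) *
        exp (-(2 * Real.pi * I * l * x))) volume 0 1 :=
      (continuous_finsetSum _ fun j _ => (continuous_ofReal.comp (hSc.comp
        (continuous_id.add continuous_const))).mul hec).intervalIntegrable _ _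
    have h3 : IntervalIntegrable (fun x : ℝ => (A : ℂ) * exp (-(2 * Real.pi * I * l * x)))
        volume 0 1 := (continuous_const.mul hec).intervalIntegrable _ _
    have h4 := intervalIntegral.integral_finsetSum (s := Finset.range k) fun j _ => hI j
    rw [intervalIntegral.integral_congr fun x _ => h1 x, intervalIntegral.integral_sub h2 h3,
      h4, intervalIntegral.integral_const_mul, h0, mul_zero, sub_zero,
      Finset.sum_congr rfl fun j _ => hj j, Finset.sum_const, Finset.card_range, nsmul_eq_mul]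
  have hn : ‖(k : ℂ) * ∫ x in (0 : ℝ)..1, (Sig x : ℂ) * exp (-(2 * Real.pi * I * l * x))‖ ≤ C := by
    rw [hsum]
    have h1 := intervalIntegral.norm_integral_le_of_norm_le_const (a := 0) (b := 1) (C := C)
      (f := fun x : ℝ => (((∑ j ∈ Finset.range k, Sig (x + j * ρ)) - A : ℝ) : ℂ) *
        exp (-(2 * Real.pi * I * l * x))) (by
      intro x _
      rw [norm_mul, norm_real, norm_exp]
      have h2 : (-(2 * Real.pi * I * l * (x : ℂ))).re = 0 := by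
        simp
      rw [h2, Real.exp_zero, mul_one, Real.norm_eq_abs, abs_le]
      have h3 := hA x
      constructor <;> linarith [h3.1, h3.2])
    rwa [sub_zero, abs_one, mul_one] at h1
  rwa [norm_mul, Complex.norm_natCast] at hn

/-- a weighted sum over the orbit -/
private theorem kr_sum {k : ℕ} {ρ C : ℝ} {e : ℝ → ℝ} (he : ∀ θ, |e θ| ≤ C) (θ : ℝ) :
    |∑ j ∈ Finset.range k, ((j : ℝ) - ((k : ℝ) - 1) / 2) * e (θ + j * ρ)| ≤
      (k : ℝ) ^ 2 / 4 * C := by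
  have hC : 0 ≤ C := (abs_nonneg _).trans (he 0)
  refine (Finset.abs_sum_le_sum_abs _ _).trans ?_
  refine le_trans (Finset.sum_le_sum fun j _ => ?_)
    (b := ∑ j ∈ Finset.range k, |(j : ℝ) - ((k : ℝ) - 1) / 2| * C) ?_
  · rw [abs_mul]
    exact mul_le_mul_of_nonneg_left (he _) (abs_nonneg _)
  · rw [← Finset.sum_mul]
    exact mul_le_mul_of_nonneg_right (sum_abs_le k) hC

/-- the Lipschitz condition -/
private theorem kr_lip {r ρ ε δ : ℝ} {k : ℕ} (hr : 0 < r) (hr1 : 64 * r ≤ 1) (hk : 0 < k)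
    (hδ : 0 < δ) (hδ1 : δ ≤ 1) (hsmall : r * k * ε ≤ δ)
    {P P' x₁ x₁' e e' : ℝ → ℝ} (hP : ∀ θ, HasDerivAt P (P' θ) θ) (hP' : ∀ θ, |P' θ| ≤ 1)
    (hx : ∀ θ, HasDerivAt x₁ (x₁' θ) θ) (hx' : ∀ θ, |x₁' θ| ≤ 1 / 8) (hx1 : ∀ θ, 1 / 2 ≤ x₁ θ)
    (he : ∀ θ, HasDerivAt e (e' θ) θ) (he0 : ∀ θ, |e θ| ≤ 2 * ε)
    (he' : ∀ θ, |e' θ| ≤ 4 * ε / δ) (θ θ' : ℝ) :
    |(P θ + r / k * (∑ j ∈ Finset.range k,
        ((j : ℝ) - ((k : ℝ) - 1) / 2) * e (θ + j * ρ)) / x₁ θ) -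
      (P θ' + r / k * (∑ j ∈ Finset.range k,
        ((j : ℝ) - ((k : ℝ) - 1) / 2) * e (θ' + j * ρ)) / x₁ θ')| ≤ 1 / (4 * r) * |θ - θ'| := by
  have hk0 : (0 : ℝ) < k := by exact_mod_cast hk
  have hd : ∀ θ : ℝ, HasDerivAt (fun θ => P θ + r / k * (∑ j ∈ Finset.range k,
        ((j : ℝ) - ((k : ℝ) - 1) / 2) * e (θ + j * ρ)) / x₁ θ)
      (P' θ + ((r / k * ∑ j ∈ Finset.range k,
        ((j : ℝ) - ((k : ℝ) - 1) / 2) * e' (θ + j * ρ)) * x₁ θ -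
        (r / k * ∑ j ∈ Finset.range k,
        ((j : ℝ) - ((k : ℝ) - 1) / 2) * e (θ + j * ρ)) * x₁' θ) / x₁ θ ^ 2) θ := by
    intro θ
    have h0 : x₁ θ ≠ 0 := by
      have := hx1 θ
      intro h
      rw [h] at this
      linarith
    refine (hP θ).add (HasDerivAt.fun_div (HasDerivAt.const_mul _ (HasDerivAt.fun_sum fun j _ =>
      HasDerivAt.const_mul _ ?_)) (hx θ) h0)
    exact HasDerivAt.comp_add_const θ (j * ρ) (he (θ + j * ρ))
  have hb : ∀ θ : ℝ, |P' θ + ((r / k * ∑ j ∈ Finset.range k,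
        ((j : ℝ) - ((k : ℝ) - 1) / 2) * e' (θ + j * ρ)) * x₁ θ -
        (r / k * ∑ j ∈ Finset.range k,
        ((j : ℝ) - ((k : ℝ) - 1) / 2) * e (θ + j * ρ)) * x₁' θ) / x₁ θ ^ 2| ≤ 1 / (4 * r) := by
    intro θ
    have h1 := kr_sum (k := k) (ρ := ρ) he' θ
    have h2 := kr_sum (k := k) (ρ := ρ) he0 θ
    generalize ∑ j ∈ Finset.range k, ((j : ℝ) - ((k : ℝ) - 1) / 2) * e' (θ + j * ρ) = a at h1 ⊢
    generalize ∑ j ∈ Finset.range k, ((j : ℝ) - ((k : ℝ) - 1) / 2) * e (θ + j * ρ) = d at h2 ⊢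
    have h3 : |r / k * a| ≤ 1 := by
      rw [abs_mul, abs_of_nonneg (div_nonneg hr.le hk0.le)]
      refine (mul_le_mul_of_nonneg_left h1 (div_nonneg hr.le hk0.le)).trans ?_
      have h4 : r / k * ((k : ℝ) ^ 2 / 4 * (4 * ε / δ)) = r * k * ε / δ := by
        field_simp
      rw [h4, div_le_one hδ]
      exact hsmall
    have h5 : |r / k * d| ≤ 1 / 2 := by
      rw [abs_mul, abs_of_nonneg (div_nonneg hr.le hk0.le)]
      refine (mul_le_mul_of_nonneg_left h2 (div_nonneg hr.le hk0.le)).trans ?_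
      have h4 : r / k * ((k : ℝ) ^ 2 / 4 * (2 * ε)) = r * k * ε / 2 := by
        field_simp
        ring
      rw [h4]
      linarith
    generalize r / k * a = a' at h3 ⊢
    generalize r / k * d = d' at h5 ⊢
    have h6 := hx1 θ
    have h7 : |(a' * x₁ θ - d' * x₁' θ) / x₁ θ ^ 2| ≤ 3 := by
      rw [abs_div, abs_of_pos (by positivity : 0 < x₁ θ ^ 2), div_le_iff₀ (by positivity)]
      have h8 : |a' * x₁ θ - d' * x₁' θ| ≤ x₁ θ + 1 / 16 := by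
        refine (abs_sub _ _).trans ?_
        rw [abs_mul, abs_mul, abs_of_pos (by linarith : 0 < x₁ θ)]
        have h9 : |a'| * x₁ θ ≤ 1 * x₁ θ := mul_le_mul_of_nonneg_right h3 (by linarith)
        have h10 : |d'| * |x₁' θ| ≤ 1 / 2 * (1 / 8) :=
          mul_le_mul h5 (hx' θ) (abs_nonneg _) (by norm_num)
        linarith
      nlinarith
    have h11 : (16 : ℝ) ≤ 1 / (4 * r) := by
      rw [le_div_iff₀ (by positivity)]
      linarith
    have h12 := abs_add_le (P' θ) ((a' * x₁ θ - d' * x₁' θ) / x₁ θ ^ 2)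
    have h13 := hP' θ
    linarith
  have h := Convex.norm_image_sub_le_of_norm_hasDerivWithin_le
    (s := (Set.univ : Set ℝ)) (fun x _ => (hd x).hasDerivWithinAt) (fun x _ => hb x) convex_univ
    (Set.mem_univ θ') (Set.mem_univ θ)
  exact h

theorem resonance {σ σ' M M' ρ₀ r b δ s ε c κ : ℝ} {B X : ℂ → ℂ → ℂ} (hB : BD σ' ρ₀ M' B)
    (hp : Par σ M r b δ s) (hl : LD σ M r (lB r B)) (hX : St r (lB r B) X b δ s)
    (hE : Bd δ s ε (Er r (lB r B) X)) (hc0 : 0 < c) (hcρ : c < ρ₀)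
    (hc : ∀ y Y₁ Y₂ : ℝ, |Y₁ - y| < c → |Y₂ - y| < c →
      gS B y Y₁ + deriv (fun Y => gS B y Y) Y₁ * (Y₂ - Y₁) + 1 / 2 * (Y₂ - Y₁) ^ 2 ≤ gS B y Y₂)
    (h0 : HZ (gS B) c κ) (hrc : 4 * r < c) (hrκ : 2 * r < κ) {l m₀ : ℤ} (hl0 : l ≠ 0) {t : ℝ}
    (ht : |t| < 1 / 4 + s) (hm : (l : ℝ) * (r * (1 + t)) = m₀) (hsmall : r * |(l : ℝ)| * ε ≤ δ) :
    ‖cf l (sg r (lB r B) X) t‖ ≤ 7 * |(l : ℝ)| ^ 4 * ε ^ 2 := by
  have hσ0 := hp.σ_pos
  have hσ1 := hp.σ_le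
  have hM := hp.M_ge
  have hr := hp.r_pos
  have hδ := hp.δ_pos
  have hs := hp.s_pos
  have hs1 := hp.s_le
  have hb0 := hp.b_nonneg
  have hb1 : b ≤ 1 / 8 := hp.b_le.trans (by linarith)
  have hδ8 : δ ≤ 1 / 8 := hp.δ_le.trans (by linarith)
  have hr1 : 64 * r ≤ 1 := by
    have h1 := hp.r_le
    have h2 : r ≤ M * r := le_mul_of_one_le_left hr.le hM
    nlinarith
  have hrs := hp.rs
  have htU : (t : ℂ) ∈ UU s := ofReal_mem_UU hs ht
  have htU2 : (t : ℂ) ∈ UU (2 * s) := UU_mono (by linarith) htU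
  have him : ∀ (x a : ℝ), 0 < a → |((x : ℂ)).im| < a := fun x a ha => by
    rw [ofReal_im, abs_zero]
    exact ha
  obtain ⟨lam, hlam⟩ : ∃ lam, lam = lB r B := ⟨_, rfl⟩
  rw [← hlam] at hl hX hE ⊢
  obtain ⟨hSg, -, hSgP, hSgR⟩ := hol_Sg hp hl hX
  obtain ⟨hPm, -, hPmP, hPmR⟩ := hol_Pm hp hl hX
  obtain ⟨hsg, hsgB, hsgP, hsgR⟩ := bd_sg hp hl hX hE
  have hXR := hX.real
  have hp1 := hX.hol.hol_p1
  have hp1R := rsym_p1 hXR
  have hp1P := per_p1_X hX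
  have hε : 0 ≤ ε := (norm_nonneg _).trans (hE 0 t (by rw [zero_im, abs_zero]; exact hδ) htU)
  rw [abs_lt] at ht
  have hT : 0 < 1 + t := by linarith [ht.1]
  obtain ⟨ρ, hρ⟩ : ∃ ρ, ρ = r * (1 + t) := ⟨_, rfl⟩
  have hρ0 : 0 < ρ := by
    rw [hρ]
    exact mul_pos hr hT
  have hρC : (ρ : ℂ) = r * (1 + t) := by
    rw [hρ]
    push_cast
    ring
  rw [← hρ] at hm
  have hk : 0 < l.natAbs := Int.natAbs_pos.2 hl0
  have hkl : ((l.natAbs : ℕ) : ℝ) = |(l : ℝ)| := by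
    rw [Nat.cast_natAbs, Int.cast_abs]
  have hkρ : ((l.natAbs : ℕ) : ℝ) * ρ = ((m₀.natAbs : ℕ) : ℝ) := by
    rw [hkl, Nat.cast_natAbs, Int.cast_abs, ← hm, abs_mul, abs_of_pos hρ0]
  have hm0 : 0 < m₀.natAbs := by
    rw [Int.natAbs_pos]
    rintro rfl
    rw [Int.cast_zero] at hm
    rcases mul_eq_zero.1 hm with h | h
    · exact hl0 (by exact_mod_cast h)
    · exact hρ0.ne' h
  -- the increments
  have hinc : ∀ θ : ℝ, |(X ((θ + ρ : ℝ) : ℂ) t).re - (X (θ : ℂ) t).re| ≤ 2 * r := by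
    intro θ
    have h1 := DD_X_norm hp hX (him θ (3 / 2 * δ) (by linarith)) htU2
    unfold DD at h1
    rw [norm_div, norm_real, Real.norm_eq_abs, abs_of_pos hr, div_le_iff₀ hr, ← hρC,
      ← ofReal_add] at h1
    rw [← sub_re]
    exact (abs_re_le_norm _).trans h1
  have hXr : ∀ θ : ℝ, X (θ : ℂ) t = (((X (θ : ℂ) t).re : ℝ) : ℂ) := fun θ => kr_real hXR θ t
  have hη : ∀ θ : ℝ, DD r X (θ : ℂ) t =
      ((((X ((θ + ρ : ℝ) : ℂ) t).re - (X (θ : ℂ) t).re) / r : ℝ) : ℂ) := by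
    intro θ
    unfold DD
    rw [← hρC, ← ofReal_add, hXr (θ + ρ), hXr θ]
    simp only [ofReal_re]
    push_cast
    ring
  have hηρ : ∀ θ : ℝ, |r * (((X ((θ + ρ : ℝ) : ℂ) t).re - (X (θ : ℂ) t).re) / r)| < ρ₀ := by
    intro θ
    rw [mul_div_cancel₀ _ hr.ne']
    linarith [hinc θ]
  have hηx : ∀ θ : ℝ, (X (θ : ℂ) t).re +
      r * (((X ((θ + ρ : ℝ) : ℂ) t).re - (X (θ : ℂ) t).re) / r) =
      (X ((θ + ρ : ℝ) : ℂ) t).re := by
    intro θ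
    rw [mul_div_cancel₀ _ hr.ne']
    ring
  have hSgv : ∀ θ : ℝ, (Sg r lam X (θ : ℂ) t).re =
      gS B (X (θ : ℂ) t).re (X ((θ + ρ : ℝ) : ℂ) t).re / r ^ 2 := by
    intro θ
    unfold Sg cmp
    rw [hη θ, hXr θ, hlam]
    simp only [ofReal_re]
    rw [gS_lam hB hr (hηρ θ), ofReal_re, hηx θ]
  have hPmv : ∀ θ : ℝ, (Pm r lam X (θ : ℂ) t).re =
      deriv (fun Y => gS B (X ((θ - ρ : ℝ) : ℂ) t).re Y) (X (θ : ℂ) t).re / r := by
    intro θ
    unfold Pm sm mo cmp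
    rw [← hρC, ← ofReal_sub, hη (θ - ρ), hXr (θ - ρ), hlam]
    simp only [ofReal_re]
    have h1 := hηρ (θ - ρ)
    have h2 := hηx (θ - ρ)
    rw [sub_add_cancel] at h1 h2 ⊢
    rw [gS_d2 hB hr h1, ofReal_re, h2]
  -- derivatives
  have hXd := kr_deriv hX.hol (by linarith : 0 < 2 * δ) htU2
  have hp1d := kr_deriv hp1 (by linarith : 0 < 2 * δ) htU2
  have hPmd := kr_deriv hPm (by linarith : 0 < 5 / 4 * δ) htU2
  have hSgd := kr_deriv hSg (by linarith : 0 < 3 / 2 * δ) htU2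
  have hsgd := kr_deriv hsg (by linarith : 0 < 9 / 8 * δ) htU2
  have hx1 : ∀ θ : ℝ, 1 / 2 ≤ (p1 X (θ : ℂ) t).re := by
    intro θ
    have h1 := hX.b1 (θ : ℂ) t (him θ _ (by linarith)) htU2
    have h2 := (abs_re_le_norm _).trans h1
    rw [sub_re, one_re, abs_le] at h2
    linarith [h2.1]
  have hx1' : ∀ θ : ℝ, |(p1 (p1 X) (θ : ℂ) t).re| ≤ 1 / 8 := by
    intro θ
    have h1 := hX.b11 (θ : ℂ) t (him θ _ (by linarith)) htU2
    exact ((abs_re_le_norm _).trans h1).trans hb1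
  have he0 : ∀ θ : ℝ, |(sg r lam X (θ : ℂ) t).re| ≤ 2 * ε := fun θ =>
    (abs_re_le_norm _).trans (hsgB (θ : ℂ) t (him θ _ hδ) htU)
  have he1 : ∀ θ : ℝ, |(p1 (sg r lam X) (θ : ℂ) t).re| ≤ 4 * ε / δ := by
    intro θ
    have h1 := Bd.cauchy1 (δ' := δ / 2) hsgB (hsg.mono (by linarith) (by linarith)) (by linarith)
    refine ((abs_re_le_norm _).trans (h1 (θ : ℂ) t (him θ _ (by linarith)) htU)).trans
      (le_of_eq ?_)
    field_simp
    ring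
  have hPm1 : ∀ θ : ℝ, |(p1 (Pm r lam X) (θ : ℂ) t).re| ≤ 1 := by
    intro θ
    refine (abs_re_le_norm _).trans ?_
    unfold Pm
    rw [p1_sm]
    unfold sm
    rw [← hρC, ← ofReal_sub]
    obtain ⟨θ', hθ'⟩ : ∃ θ' : ℝ, θ' = θ - ρ := ⟨_, rfl⟩
    rw [← hθ']
    unfold mo
    obtain ⟨-, -, hG, -⟩ := hl.holR hσ0
    have h3 : |((θ' : ℂ)).im| < 3 / 2 * δ := him θ' _ (by linarith)
    rw [p1_cmp hp hX hG h3 htU2]
    have hRR := mem_RR hp hX h3 htU2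
    obtain ⟨-, -, -, h4, h5⟩ := hl.bounds' hp hRR
    have h6 := (p1_X_bounds hp hX (him θ' (2 * δ) (by linarith)) htU2).1
    have h7 := bd_DD (δ' := 3 / 2 * δ) hp1 hX.b11 hr (by linarith) (by linarith) (θ' : ℂ) t h3 htU2
    have h8 : ‖cmp r (p1 (p2 lam)) X (θ' : ℂ) t‖ ≤ 1 / 4 := h4
    have h9 : ‖cmp r (p2 (p2 lam)) X (θ' : ℂ) t‖ ≤ 9 / 4 := by
      have h10 : cmp r (p2 (p2 lam)) X (θ' : ℂ) t =
          (p2 (p2 lam) (X (θ' : ℂ) t) (DD r X (θ' : ℂ) t) - 2) + 2 := by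
        unfold cmp
        ring
      rw [h10]
      refine (norm_add_le _ _).trans ?_
      have h11 : ‖(2 : ℂ)‖ = 2 := by norm_num
      rw [h11]
      linarith
    refine (norm_add_le _ _).trans ?_
    rw [norm_mul, norm_mul]
    have h12 : ‖cmp r (p1 (p2 lam)) X (θ' : ℂ) t‖ * ‖p1 X (θ' : ℂ) t‖ ≤ 1 / 4 * (9 / 8) :=
      mul_le_mul h8 h6 (norm_nonneg _) (by norm_num)
    have h13 : ‖cmp r (p2 (p2 lam)) X (θ' : ℂ) t‖ * ‖DD r (p1 X) (θ' : ℂ) t‖ ≤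
        9 / 4 * (3 / 2 * b) := mul_le_mul h9 h7 (norm_nonneg _) (by norm_num)
    linarith
  have hI1 : ∀ θ : ℝ, (p1 (Sg r lam X) (θ : ℂ) t).re =
      ((Pm r lam X ((θ + ρ : ℝ) : ℂ) t).re * (p1 X ((θ + ρ : ℝ) : ℂ) t).re -
        (Pm r lam X (θ : ℂ) t).re * (p1 X (θ : ℂ) t).re) / r + (sg r lam X (θ : ℂ) t).re := by
    intro θ
    rw [I1 hp hl hX (him θ _ (by linarith)) htU2]
    unfold DD sg
    rw [← hρC, ← ofReal_add, add_re, div_ofReal_re, sub_re, mul_re (Pm r lam X _ _),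
      mul_re (Pm r lam X _ _), kr_im hPmR (θ + ρ), kr_im hPmR θ, zero_mul, zero_mul, sub_zero,
      sub_zero]
  have hmk : ((m₀.natAbs : ℕ) : ℝ) / ((l.natAbs : ℕ) : ℝ) < κ := by
    rw [← hkρ, mul_div_cancel_left₀ _ (by exact_mod_cast hk.ne'), hρ]
    have h1 : r * (1 + t) ≤ r * 2 := mul_le_mul_of_nonneg_left (by linarith [ht.2]) hr.le
    linarith
  have hmin := h0 l.natAbs m₀.natAbs hk hm0 hmk
  have hLip := kr_lip (ρ := ρ) hr hr1 hk hδ (by linarith) (by rw [hkl]; exact hsmall) hPmd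
    hPm1 hp1d hx1' hx1 hsgd he0 he1
  have hxp : ∀ θ : ℝ, (X ((θ + 1 : ℝ) : ℂ) t).re = (X (θ : ℂ) t).re + 1 := fun θ => by
    rw [ofReal_add, ofReal_one, hX.per, add_re, one_re]
  have hsgp : ∀ θ : ℝ, (sg r lam X ((θ + 1 : ℝ) : ℂ) t).re = (sg r lam X (θ : ℂ) t).re :=
    fun θ => by rw [ofReal_add, ofReal_one, hsgP]
  have hPmp : ∀ θ : ℝ, (Pm r lam X ((θ + 1 : ℝ) : ℂ) t).re = (Pm r lam X (θ : ℂ) t).re :=
    fun θ => by rw [ofReal_add, ofReal_one, hPmP]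
  have hSgp : ∀ θ : ℝ, (Sg r lam X ((θ + 1 : ℝ) : ℂ) t).re = (Sg r lam X (θ : ℂ) t).re :=
    fun θ => by rw [ofReal_add, ofReal_one, hSgP]
  have hSd : ∀ θ : ℝ, HasDerivAt (fun x : ℝ => (Sg r lam X (x : ℂ) t).re)
      (((Pm r lam X ((θ + ρ : ℝ) : ℂ) t).re * (p1 X ((θ + ρ : ℝ) : ℂ) t).re -
        (Pm r lam X (θ : ℂ) t).re * (p1 X (θ : ℂ) t).re) / r + (sg r lam X (θ : ℂ) t).re) θ := by
    intro θ
    rw [← hI1 θ]
    exact hSgd θ
  have hxc : ∀ θ : ℝ, |(X ((θ + ρ : ℝ) : ℂ) t).re - (X (θ : ℂ) t).re| < c := fun θ => by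
    linarith [hinc θ]
  have hpc := kr_cont hp1 (by linarith : 0 < 2 * δ) htU2
  have hPc := kr_cont hPm (by linarith : 0 < 5 / 4 * δ) htU2
  have hSc := kr_cont hSg (by linarith : 0 < 3 / 2 * δ) htU2
  obtain ⟨A, hA⟩ := almost_minimal (N := 2 * ε) (T := 1 + t) (ρ := ρ) hr hk hm0 hρ hkρ
    (S := gS B) (S₂ := fun y Y => deriv (fun Y => gS B y Y) Y) hc
    (x := fun θ : ℝ => (X (θ : ℂ) t).re) (x₁ := fun θ : ℝ => (p1 X (θ : ℂ) t).re) hXd hx1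
    hpc hxp hxc
    (P := fun θ : ℝ => (Pm r lam X (θ : ℂ) t).re) (e := fun θ : ℝ => (sg r lam X (θ : ℂ) t).re)
    hPmv hPc he0 hsgp hPmp
    (Sig := fun θ : ℝ => (Sg r lam X (θ : ℂ) t).re) hSgv hSgp hSd hLip hmin
  have hA' : ∀ θ : ℝ, A ≤ ∑ j ∈ Finset.range l.natAbs, (Sg r lam X ((θ + j * ρ : ℝ) : ℂ) t).re ∧
      ∑ j ∈ Finset.range l.natAbs, (Sg r lam X ((θ + j * ρ : ℝ) : ℂ) t).re ≤
        A + (l.natAbs : ℝ) ^ 4 * r ^ 2 * ε ^ 2 := by
    intro θ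
    obtain ⟨h1, h2⟩ := hA θ
    refine ⟨h1, h2.trans (le_of_eq ?_)⟩
    ring
  have hF := kr_fourier hl0 hm hSc hSgp hA'
  have hcfS : ∫ x in (0 : ℝ)..1, (((Sg r lam X (x : ℂ) t).re : ℝ) : ℂ) *
      exp (-(2 * Real.pi * I * l * x)) = cf l (Sg r lam X) t := by
    unfold cf
    refine intervalIntegral.integral_congr fun x _ => ?_
    beta_reduce
    rw [← kr_real hSgR x t]
  rw [hcfS, hkl] at hF
  have hl1 : 0 < |(l : ℝ)| := by
    rw [← hkl]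
    exact_mod_cast hk
  have hF' : ‖cf l (Sg r lam X) t‖ ≤ |(l : ℝ)| ^ 3 * r ^ 2 * ε ^ 2 := by
    have h1 : |(l : ℝ)| * ‖cf l (Sg r lam X) t‖ ≤
        |(l : ℝ)| * (|(l : ℝ)| ^ 3 * r ^ 2 * ε ^ 2) := by
      refine hF.trans (le_of_eq ?_)
      ring
    exact le_of_mul_le_mul_left h1 hl1
  -- the coefficient of the error
  have hG : Hol (5 / 4 * δ) (2 * s) fun θ t => Pm r lam X θ t * p1 X θ t :=
    hPm.mul (hp1.mono (by linarith) le_rfl)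
  have hGP : Per fun θ t => Pm r lam X θ t * p1 X θ t := by
    intro θ t
    beta_reduce
    rw [hPmP, hp1P]
  have hsgI : cf l (sg r lam X) t = cf l (fun θ t => p1 (Sg r lam X) θ t -
      DD r (fun θ t => Pm r lam X θ t * p1 X θ t) θ t) t := by
    unfold cf
    refine intervalIntegral.integral_congr fun x _ => ?_
    beta_reduce
    rw [I1 hp hl hX (him x _ (by linarith)) htU2, add_sub_cancel_left]
    rfl
  have hdl : dl r l t = 0 := by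
    unfold dl
    have h1 : exp (2 * Real.pi * I * l * (r * (1 + (t : ℂ)))) = 1 := by
      rw [exp_eq_one_iff]
      refine ⟨m₀, ?_⟩
      have h2 : (l : ℂ) * (ρ : ℂ) = (m₀ : ℂ) := by exact_mod_cast hm
      rw [← hρC, ← h2]
      ring
    rw [h1, sub_self, zero_div]
  have hcf : cf l (sg r lam X) t = 2 * Real.pi * I * l * cf l (Sg r lam X) t := by
    rw [hsgI, cf_sub (δ := δ) (s := 2 * s) (hSg.hol_p1.mono (by linarith) le_rfl)
      (hG.hol_DD hr.le (by linarith)) hδ l htU2,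
      cf_p1 hSg (by linarith) hSgP l htU2,
      cf_DD hG (by linarith) hGP hr.le (by linarith) l htU2, hdl, zero_mul, sub_zero]
  rw [hcf, norm_mul, norm_mul, norm_mul, norm_mul, norm_I, mul_one]
  have h2 : ‖(2 : ℂ)‖ = 2 := by norm_num
  have h3 : ‖(Real.pi : ℂ)‖ = Real.pi := by
    rw [norm_real, Real.norm_eq_abs, abs_of_pos Real.pi_pos]
  have h4 : ‖(l : ℂ)‖ = |(l : ℝ)| := by
    rw [norm_intCast]
  rw [h2, h3, h4]
  have h5 : 2 * Real.pi * |(l : ℝ)| ≤ 7 * |(l : ℝ)| :=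
    mul_le_mul_of_nonneg_right (by linarith [Real.pi_lt_d2]) hl1.le
  have h6 : |(l : ℝ)| ^ 3 * r ^ 2 * ε ^ 2 ≤ |(l : ℝ)| ^ 3 * ε ^ 2 := by
    have h7 : r ^ 2 ≤ 1 := by nlinarith
    have h8 : |(l : ℝ)| ^ 3 * r ^ 2 ≤ |(l : ℝ)| ^ 3 := mul_le_of_le_one_right (by positivity) h7
    exact mul_le_mul_of_nonneg_right h8 (by positivity)
  refine (mul_le_mul h5 (hF'.trans h6) (norm_nonneg _) (by positivity)).trans (le_of_eq ?_)
  ring

end Pool.Agent.NOne
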