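import Pool.Agent.NOne.KOm
import Pool.Agent.NOne.KRes

/-!
# MP_74f563_an, n = 1, file KOmN: choice of the order `K`, bound of `Z`

`exists_K`.  PROOF.  `K = ⌈log (1/ε) / (π δ)⌉₊ ≥ 1`.  `π K δ ≥ log (1/ε)`; `π K δ ≤ log (1/ε) + π δ ≤
log (1/ε) + π`, and `e^π ≤ 24`.  `log (1/ε) ≤ 96 ε^{-1/96}` (`log y ≤ y^a / a`:
`Real.log_le_rpow_div`), so `K ≤ log (1/ε) / (π δ) + 1 ≤ 32 ε^{-1/96} / δ`.

`num_Z`.  PROOF.  `K ≥ 1`, so `2 K (K + 2) ≤ 6 K²`.  As `r s ≤ δ / 65536`,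
`e^{πKrs} ≤ (e^{πKδ})^{1/65536} ≤ (24/ε)^{1/65536} ≤ 2 ε^{-1/64}`, and
`e^{2πKδ/16} = (e^{πKδ})^{1/8} ≤ (24/ε)^{1/8} ≤ 2 ε^{-1/8}`.  First summand:
`≤ 42 K⁶ ε² · 4 ε^{-1/8 - 1/64} ≤ 168 · 32⁶ δ^{-6} ε^{2 - 1/16 - 1/8 - 1/64} ≤ C δ^{-6} ε^{13/8}`
(the exponent is `1.79.. ≥ 13/8`, `ε ≤ 1`).  Second summand: `e^{-2πK(15/16)δ} ≤ ε^{15/8} ≤ ε^{13/8}` and
`5 / ((15/16) δ) ≤ 6 / δ ≤ 6 / δ⁶`.

`omega_bound`.  PROOF.  Take `K` from `exists_K` and `C ≥ 64` also larger than the constant of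
`num_Z`.  For `0 < |l| ≤ K`: `r |l| ε ≤ K ε ≤ 32 ε^{95/96} / δ ≤ δ`, because `ε ≤ δ³ / C`, so
`ε^{95/96} ≤ δ^{3·95/96} / C^{95/96} ≤ δ² / 32` (`C^{95/96} ≥ 32`, `δ ≤ 1`).  So `resonance` (KRes)
gives the hypothesis of `exists_w` with `A = 7 K⁴ ε²`.
-/

set_option autoImplicit false

namespace Pool.Agent.NOne

open Complex Set MeasureTheory

theorem exists_K {ε δ : ℝ} (hε : 0 < ε) (hε1 : ε ≤ 1 / 2) (hδ : 0 < δ) (hδ1 : δ ≤ 1) :
    ∃ K : ℕ, 1 ≤ K ∧ Real.exp (-(Real.pi * K * δ)) ≤ ε ∧ Real.exp (Real.pi * K * δ) ≤ 24 / ε ∧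
      (K : ℝ) ≤ 32 * ε ^ (-(1 / 96) : ℝ) / δ := by
  have hπ := Real.pi_pos
  have hπ3 := Real.pi_gt_three
  have hlog : 0 < -Real.log ε := by
    have := Real.log_neg hε (by linarith)
    linarith
  have hπδ : 0 < Real.pi * δ := by positivity
  set K : ℕ := ⌈(-Real.log ε) / (Real.pi * δ)⌉₊ with hK
  have hKge : (-Real.log ε) / (Real.pi * δ) ≤ (K : ℝ) := Nat.le_ceil _
  have hKlt : (K : ℝ) < (-Real.log ε) / (Real.pi * δ) + 1 :=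
    Nat.ceil_lt_add_one (by positivity)
  have hK1 : 1 ≤ K := by
    rw [hK]
    exact Nat.one_le_iff_ne_zero.mpr (Nat.ceil_pos.mpr (by positivity)).ne'
  have h1 : -Real.log ε ≤ Real.pi * K * δ := by
    have := (div_le_iff₀ hπδ).mp hKge
    nlinarith
  have h2 : Real.pi * K * δ ≤ -Real.log ε + Real.pi := by
    have h := mul_lt_mul_of_pos_right hKlt hπδ
    rw [add_mul, div_mul_cancel₀ _ hπδ.ne'] at h
    nlinarith
  refine ⟨K, hK1, ?_, ?_, ?_⟩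
  · calc Real.exp (-(Real.pi * K * δ)) ≤ Real.exp (Real.log ε) :=
          Real.exp_le_exp.mpr (by linarith)
      _ = ε := Real.exp_log hε
  · have he : Real.exp Real.pi ≤ 24 := by
      have hπ' : Real.pi ≤ 3 + 0.1416 := by
        have := Real.pi_lt_d4
        linarith
      have hx : Real.exp (0.1416 : ℝ) ≤ 1 / (1 - 0.1416) := by
        have h := Real.add_one_le_exp (-(0.1416 : ℝ))
        rw [Real.exp_neg] at h
        have hp := Real.exp_pos (0.1416 : ℝ)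
        rw [le_div_iff₀ (by norm_num)]
        have h' := mul_le_mul_of_nonneg_left h hp.le
        rw [mul_inv_cancel₀ hp.ne'] at h'
        linarith
      have h1 := Real.exp_one_lt_d9
      have h10 := Real.exp_pos (1 : ℝ)
      have h3 : Real.exp (3 : ℝ) = Real.exp 1 ^ 3 := by
        rw [← Real.exp_nat_mul]
        norm_num
      have h3' : Real.exp (3 : ℝ) ≤ 2.7182818286 ^ 3 := by
        rw [h3]
        gcongr
      calc Real.exp Real.pi ≤ Real.exp (3 + 0.1416) := Real.exp_le_exp.mpr hπ'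
        _ = Real.exp 3 * Real.exp 0.1416 := Real.exp_add _ _
        _ ≤ 2.7182818286 ^ 3 * (1 / (1 - 0.1416)) :=
            mul_le_mul h3' hx (Real.exp_pos _).le (by norm_num)
        _ ≤ 24 := by norm_num
    calc Real.exp (Real.pi * K * δ) ≤ Real.exp (-Real.log ε + Real.pi) :=
          Real.exp_le_exp.mpr h2
      _ = ε⁻¹ * Real.exp Real.pi := by
          rw [Real.exp_add, Real.exp_neg, Real.exp_log hε]
      _ ≤ ε⁻¹ * 24 := by gcongr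
      _ = 24 / ε := by ring
  · have hy : 1 ≤ ε ^ (-(1 / 96) : ℝ) :=
      Real.one_le_rpow_of_pos_of_le_one_of_nonpos hε (by linarith) (by norm_num)
    have hl : -Real.log ε ≤ 96 * ε ^ (-(1 / 96) : ℝ) := by
      have h := Real.log_le_rpow_div (x := ε⁻¹) (ε := 1 / 96) (by positivity) (by norm_num)
      rw [Real.log_inv, Real.inv_rpow hε.le, ← Real.rpow_neg hε.le] at h
      calc -Real.log ε ≤ ε ^ (-(1 / 96) : ℝ) / (1 / 96) := h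
        _ = 96 * ε ^ (-(1 / 96) : ℝ) := by ring
    have h3 : (-Real.log ε) / (Real.pi * δ) ≤ 31 * ε ^ (-(1 / 96) : ℝ) / δ := by
      rw [div_le_div_iff₀ hπδ hδ]
      have hπ4 : 96 ≤ 31 * Real.pi := by
        have := Real.pi_gt_d2
        linarith
      have : 96 * ε ^ (-(1 / 96) : ℝ) ≤ 31 * Real.pi * ε ^ (-(1 / 96) : ℝ) :=
        mul_le_mul_of_nonneg_right hπ4 (by linarith)
      nlinarith
    have h4 : (1 : ℝ) ≤ ε ^ (-(1 / 96) : ℝ) / δ := by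
      rw [le_div_iff₀ hδ]
      linarith
    calc (K : ℝ) ≤ 31 * ε ^ (-(1 / 96) : ℝ) / δ + ε ^ (-(1 / 96) : ℝ) / δ := by linarith
      _ = 32 * ε ^ (-(1 / 96) : ℝ) / δ := by ring

theorem num_Z : ∃ C : ℝ, 1 ≤ C ∧ ∀ (ε δ r s : ℝ) (K : ℕ), 0 < ε → ε ≤ 1 / 2 → 0 < δ → δ ≤ 1 →
    0 ≤ r * s → 65536 * (r * s) ≤ δ → 1 ≤ K → Real.exp (-(Real.pi * K * δ)) ≤ ε →
    Real.exp (Real.pi * K * δ) ≤ 24 / ε → (K : ℝ) ≤ 32 * ε ^ (-(1 / 96) : ℝ) / δ →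
    2 * K * ((K + 2) * Real.exp (Real.pi * K * r * s) * (7 * (K : ℝ) ^ 4 * ε ^ 2)) *
        Real.exp (2 * Real.pi * K * (δ / 16)) +
        5 * Real.exp (-(2 * Real.pi * K * (δ - δ / 16))) / (δ - δ / 16) ≤
      C * ε ^ (13 / 8 : ℝ) / δ ^ 6 := by
  refine ⟨42 * 32 ^ 6 * 24 + 6, by norm_num, ?_⟩
  intro ε δ r s K hε hε1 hδ hδ1 hrs hrs' hK1 hem hep hKu
  have hπ := Real.pi_pos
  have hK1' : (1 : ℝ) ≤ K := by exact_mod_cast hK1
  have hK0 : (0 : ℝ) ≤ K := by linarith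
  have hεle : ε ≤ 1 := by linarith
  have hX0 : 0 ≤ Real.pi * K * δ := by positivity
  have hq : (1 : ℝ) ≤ 24 / ε := by
    rw [le_div_iff₀ hε]
    linarith
  -- the exponentials
  have he1 : Real.exp (Real.pi * K * r * s) * Real.exp (2 * Real.pi * K * (δ / 16)) ≤
      24 * ε ^ (-(9 / 64) : ℝ) := by
    have h1 : Real.pi * K * r * s ≤ Real.pi * K * δ * (1 / 64) := by
      have : Real.pi * K * (r * s) ≤ Real.pi * K * (δ * (1 / 64)) := by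
        apply mul_le_mul_of_nonneg_left _ (by positivity)
        linarith
      nlinarith
    calc Real.exp (Real.pi * K * r * s) * Real.exp (2 * Real.pi * K * (δ / 16))
        = Real.exp (Real.pi * K * r * s + 2 * Real.pi * K * (δ / 16)) :=
          (Real.exp_add _ _).symm
      _ ≤ Real.exp (Real.pi * K * δ * (9 / 64)) := by
          apply Real.exp_le_exp.mpr
          linarith
      _ = Real.exp (Real.pi * K * δ) ^ (9 / 64 : ℝ) := Real.exp_mul _ _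
      _ ≤ (24 / ε) ^ (9 / 64 : ℝ) :=
          Real.rpow_le_rpow (Real.exp_pos _).le hep (by norm_num)
      _ = 24 ^ (9 / 64 : ℝ) * ε ^ (-(9 / 64) : ℝ) := by
          rw [Real.div_rpow (by norm_num) hε.le, Real.rpow_neg hε.le]
          rfl
      _ ≤ 24 * ε ^ (-(9 / 64) : ℝ) := by
          apply mul_le_mul_of_nonneg_right _ (Real.rpow_nonneg hε.le _)
          calc (24 : ℝ) ^ (9 / 64 : ℝ) ≤ 24 ^ (1 : ℝ) :=
                Real.rpow_le_rpow_of_exponent_le (by norm_num) (by norm_num)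
            _ = 24 := Real.rpow_one _
  have hKp : (K : ℝ) ^ 6 ≤ 32 ^ 6 * ε ^ (-(1 / 16) : ℝ) / δ ^ 6 := by
    calc (K : ℝ) ^ 6 ≤ (32 * ε ^ (-(1 / 96) : ℝ) / δ) ^ 6 := pow_le_pow_left₀ hK0 hKu 6
      _ = 32 ^ 6 * ε ^ (-(1 / 16) : ℝ) / δ ^ 6 := by
          rw [div_pow, mul_pow, ← Real.rpow_natCast (ε ^ (-(1 / 96) : ℝ)) 6,
            ← Real.rpow_mul hε.le]
          norm_num
  have hδ6 : 0 < δ ^ 6 := by positivity
  have hpoly : 2 * (K : ℝ) * ((K + 2) * (7 * (K : ℝ) ^ 4)) ≤ 42 * (K : ℝ) ^ 6 := by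
    have h : (K : ℝ) + 2 ≤ 3 * K := by linarith
    calc 2 * (K : ℝ) * ((K + 2) * (7 * (K : ℝ) ^ 4))
        ≤ 2 * (K : ℝ) * ((3 * K) * (7 * (K : ℝ) ^ 4)) := by gcongr
      _ = 42 * (K : ℝ) ^ 6 := by ring
  have hT1 : 2 * K * ((K + 2) * Real.exp (Real.pi * K * r * s) * (7 * (K : ℝ) ^ 4 * ε ^ 2)) *
        Real.exp (2 * Real.pi * K * (δ / 16)) ≤
      42 * 32 ^ 6 * 24 * ε ^ (13 / 8 : ℝ) / δ ^ 6 := by
    calc 2 * K * ((K + 2) * Real.exp (Real.pi * K * r * s) * (7 * (K : ℝ) ^ 4 * ε ^ 2)) *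
          Real.exp (2 * Real.pi * K * (δ / 16))
        = (2 * (K : ℝ) * ((K + 2) * (7 * (K : ℝ) ^ 4))) *
          (Real.exp (Real.pi * K * r * s) * Real.exp (2 * Real.pi * K * (δ / 16))) *
            ε ^ 2 := by ring
      _ ≤ (42 * (K : ℝ) ^ 6) * (24 * ε ^ (-(9 / 64) : ℝ)) * ε ^ 2 := by gcongr
      _ ≤ (42 * (32 ^ 6 * ε ^ (-(1 / 16) : ℝ) / δ ^ 6)) * (24 * ε ^ (-(9 / 64) : ℝ)) *
            ε ^ 2 := by gcongr
      _ = 42 * 32 ^ 6 * 24 * (ε ^ (-(1 / 16) : ℝ) * ε ^ (-(9 / 64) : ℝ) * ε ^ (2 : ℝ)) /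
            δ ^ 6 := by
          rw [Real.rpow_two]
          ring
      _ = 42 * 32 ^ 6 * 24 * ε ^ (115 / 64 : ℝ) / δ ^ 6 := by
          rw [← Real.rpow_add hε, ← Real.rpow_add hε]
          norm_num
      _ ≤ 42 * 32 ^ 6 * 24 * ε ^ (13 / 8 : ℝ) / δ ^ 6 := by
          have : ε ^ (115 / 64 : ℝ) ≤ ε ^ (13 / 8 : ℝ) :=
            Real.rpow_le_rpow_of_exponent_ge hε hεle (by norm_num)
          gcongr
  have hT2 : 5 * Real.exp (-(2 * Real.pi * K * (δ - δ / 16))) / (δ - δ / 16) ≤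
      6 * ε ^ (13 / 8 : ℝ) / δ ^ 6 := by
    have h1 : Real.exp (-(2 * Real.pi * K * (δ - δ / 16))) ≤ ε ^ (13 / 8 : ℝ) := by
      calc Real.exp (-(2 * Real.pi * K * (δ - δ / 16)))
          = Real.exp (-(Real.pi * K * δ) * (15 / 8)) := by
            congr 1
            ring
        _ = Real.exp (-(Real.pi * K * δ)) ^ (15 / 8 : ℝ) := Real.exp_mul _ _
        _ ≤ ε ^ (15 / 8 : ℝ) := Real.rpow_le_rpow (Real.exp_pos _).le hem (by norm_num)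
        _ ≤ ε ^ (13 / 8 : ℝ) := Real.rpow_le_rpow_of_exponent_ge hε hεle (by norm_num)
    have h2 : δ ^ 6 ≤ δ := by
      calc δ ^ 6 ≤ δ ^ 1 := pow_le_pow_of_le_one hδ.le hδ1 (by norm_num)
        _ = δ := pow_one _
    have h3 : 0 < δ - δ / 16 := by linarith
    rw [div_le_div_iff₀ h3 hδ6]
    have h4 : 0 ≤ ε ^ (13 / 8 : ℝ) := Real.rpow_nonneg hε.le _
    calc 5 * Real.exp (-(2 * Real.pi * K * (δ - δ / 16))) * δ ^ 6
        ≤ 5 * ε ^ (13 / 8 : ℝ) * δ := by gcongr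
      _ ≤ 6 * ε ^ (13 / 8 : ℝ) * (δ - δ / 16) := by nlinarith [mul_nonneg h4 hδ.le]
  calc _ ≤ 42 * 32 ^ 6 * 24 * ε ^ (13 / 8 : ℝ) / δ ^ 6 + 6 * ε ^ (13 / 8 : ℝ) / δ ^ 6 :=
        add_le_add hT1 hT2
    _ = (42 * 32 ^ 6 * 24 + 6) * ε ^ (13 / 8 : ℝ) / δ ^ 6 := by ring

theorem omega_bound : ∃ C : ℝ, 1 ≤ C ∧ ∀ {σ σ' M M' ρ₀ r b δ s ε c κ : ℝ} {B X : ℂ → ℂ → ℂ},
    BD σ' ρ₀ M' B → Par σ M r b δ s → LD σ M r (lB r B) → St r (lB r B) X b δ s →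
    Bd δ s ε (Er r (lB r B) X) → 0 < c → c < ρ₀ →
    (∀ y Y₁ Y₂ : ℝ, |Y₁ - y| < c → |Y₂ - y| < c →
      gS B y Y₁ + deriv (fun Y => gS B y Y) Y₁ * (Y₂ - Y₁) + 1 / 2 * (Y₂ - Y₁) ^ 2 ≤ gS B y Y₂) →
    HZ (gS B) c κ → 4 * r < c → 2 * r < κ → 0 < ε → C * ε ≤ δ ^ 3 →
    ∃ w : ℂ → ℂ → ℂ, (∀ δ' : ℝ, Hol δ' s w) ∧ Per w ∧ RSym w ∧
      Bd (δ / 16) s (C * ε ^ (13 / 8 : ℝ) / δ ^ 6) (Zf r (lB r B) X w) := by
  obtain ⟨C₀, hC₀, hZ⟩ := num_Z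
  refine ⟨C₀ + 32768, by linarith, ?_⟩
  intro σ σ' M M' ρ₀ r b δ s ε c κ B X hB hp hl hX hE hc0 hcρ hc h0 hrc hrκ hε hCε
  have hδ := hp.δ_pos
  have hδ8 : δ ≤ 1 / 8 := by
    have := hp.δ_le
    have := hp.σ_le
    linarith
  have hδ1 : δ ≤ 1 := by linarith
  have hδ3 : δ ^ 3 ≤ 1 := pow_le_one₀ hδ.le hδ1
  have hε32 : 32768 * ε ≤ δ ^ 3 := by nlinarith
  have hε1 : ε ≤ 1 / 2 := by linarith
  have hrpos := hp.r_pos
  have hr1 : r ≤ 1 := by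
    have h1 := hp.r_le
    have h2 : σ ^ 2 ≤ 1 := pow_le_one₀ hp.σ_pos.le hp.σ_le
    have h3 := mul_le_mul_of_nonneg_right hp.M_ge hrpos.le
    nlinarith
  obtain ⟨K, hK1, hem, hep, hKu⟩ := exists_K hε hε1 hδ hδ1
  have hK0 : (0 : ℝ) ≤ K := Nat.cast_nonneg K
  have hKε : (K : ℝ) * ε ≤ δ := by
    have h1 : ε ^ (95 / 96 : ℝ) ≤ δ ^ 2 / 32 := by
      calc ε ^ (95 / 96 : ℝ) ≤ ε ^ (2 / 3 : ℝ) :=
            Real.rpow_le_rpow_of_exponent_ge hε (by linarith) (by norm_num)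
        _ ≤ ((δ / 32) ^ (3 : ℝ)) ^ (2 / 3 : ℝ) := by
            apply Real.rpow_le_rpow hε.le _ (by norm_num)
            rw [show (3 : ℝ) = ((3 : ℕ) : ℝ) by norm_num, Real.rpow_natCast, div_pow]
            rw [le_div_iff₀ (by norm_num)]
            norm_num
            linarith
        _ = (δ / 32) ^ 2 := by
            rw [← Real.rpow_mul (by positivity)]
            norm_num
        _ ≤ δ ^ 2 / 32 := by nlinarith [sq_nonneg δ]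
    have h2 : ε ^ (-(1 / 96) : ℝ) * ε = ε ^ (95 / 96 : ℝ) := by
      conv_lhs => rw [← Real.rpow_one ε, ← Real.rpow_mul hε.le]
      rw [← Real.rpow_add hε]
      norm_num
    calc (K : ℝ) * ε ≤ 32 * ε ^ (-(1 / 96) : ℝ) / δ * ε := by gcongr
      _ = 32 * ε ^ (95 / 96 : ℝ) / δ := by
          rw [← h2]
          ring
      _ ≤ 32 * (δ ^ 2 / 32) / δ := by gcongr
      _ = δ := by
          field_simp
  obtain ⟨w, hw1, hw2, hw3, hw4⟩ := exists_w (K := K) (A := 7 * (K : ℝ) ^ 4 * ε ^ 2) hp hl hX hE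
    (by positivity) (by
      intro l hl0 hlK t ht hm
      obtain ⟨m₀, hm⟩ := hm
      have hlK' : |(l : ℝ)| ≤ K := by exact_mod_cast hlK
      have hsmall : r * |(l : ℝ)| * ε ≤ δ := by
        calc r * |(l : ℝ)| * ε ≤ 1 * K * ε := by gcongr
          _ = K * ε := by ring
          _ ≤ δ := hKε
      have h := resonance hB hp hl hX hE hc0 hcρ hc h0 hrc hrκ hl0 ht hm hsmall
      calc ‖cf l (sg r (lB r B) X) t‖ ≤ 7 * |(l : ℝ)| ^ 4 * ε ^ 2 := h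
        _ ≤ 7 * (K : ℝ) ^ 4 * ε ^ 2 := by gcongr)
  refine ⟨w, hw1, hw2, hw3, ?_⟩
  intro θ t hθ ht
  have h1 := hZ ε δ r s K hε hε1 hδ hδ1 (mul_nonneg hrpos.le hp.s_pos.le) hp.rs hK1 hem hep hKu
  calc ‖Zf r (lB r B) X w θ t‖ ≤ _ := hw4 θ t hθ ht
    _ ≤ C₀ * ε ^ (13 / 8 : ℝ) / δ ^ 6 := h1
    _ ≤ (C₀ + 32768) * ε ^ (13 / 8 : ℝ) / δ ^ 6 := by
        gcongr
        linarith

end Pool.Agent.NOne
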