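import Pool.Agent.NOne.KStep
import Pool.Agent.NOne.KOmN

/-!
# MP_74f563_an, n = 1, file KNew: the Newton step with the resonance estimate

PROOF of `newton`.  Let `C₁`, `C₂` be the constants of `omega_bound` and `step`.  The hypothesis
`C ε ≤ σ² (δ s)²⁰` (with `C` large) implies `C₁ ε ≤ δ³`; let `w` be the function of `omega_bound`,
`ζ = C₁ ε^{13/8} / δ⁶ = ε · C₁ ε^{5/8} / δ⁶ ≤ ε`, because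
`ε^{5/8} ≤ (δ²⁰ / C)^{5/8} = δ^{12.5} / C^{5/8}`, and `C^{5/8} ≥ C₁`.  So `ε + ζ ≤ 2 ε`,
`C₂ (ε + ζ) ≤ 2 C₂ ε ≤ σ (δ s)⁹`, and `step` applies.  The new error:
`C₂ (ζ + 4 ε²) / (σ² (δ s)⁹) ≤ C₂ (C₁ + 4) ε^{13/8} / (σ² δ⁶ (δ s)⁹) ≤ C ε^{13/8} / (σ² (δ s)^{15})`
(`ε² ≤ ε^{13/8}`, `s ≤ 1`).  All other bounds are `C₂ (ε + ζ) / (σ (δ s)⁹) ≤ C ε / (σ (δ s)⁹)`.
-/

set_option autoImplicit false

namespace Pool.Agent.NOne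

open Complex Set MeasureTheory

private lemma kn_mono {r b b' δ s : ℝ} {lam X : ℂ → ℂ → ℂ} (h : St r lam X b δ s)
    (hb : b ≤ b') : St r lam X b' δ s :=
  ⟨h.per, h.real, h.hol, h.b0.mono le_rfl le_rfl hb, h.b1.mono le_rfl le_rfl hb,
    h.b2.mono le_rfl le_rfl hb, h.b11.mono le_rfl le_rfl hb,
    fun t ht => (h.tau t ht).trans (by linarith)⟩

/-- the numbers -/
private lemma kn_num {σ δ s ε K₁ K₂ : ℝ} (hσ : 0 < σ) (hσ1 : σ ≤ 1) (hδ : 0 < δ) (hδ1 : δ ≤ 1)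
    (hs : 0 < s) (hs1 : s ≤ 1) (hε : 0 < ε) (hK₁ : 1 ≤ K₁) (hK₂ : 1 ≤ K₂)
    (h : (K₁ ^ 2 + K₂ * (K₁ + 4)) * ε ≤ σ ^ 2 * (δ * s) ^ 20) :
    K₁ * ε ≤ δ ^ 3 ∧ K₁ * ε ^ (13 / 8 : ℝ) / δ ^ 6 ≤ ε ∧
    0 ≤ K₁ * ε ^ (13 / 8 : ℝ) / δ ^ 6 ∧
    K₂ * (ε + K₁ * ε ^ (13 / 8 : ℝ) / δ ^ 6) ≤ σ * (δ * s) ^ 9 ∧
    K₂ * (K₁ * ε ^ (13 / 8 : ℝ) / δ ^ 6 + (ε + K₁ * ε ^ (13 / 8 : ℝ) / δ ^ 6) ^ 2) /
      (σ ^ 2 * (δ * s) ^ 9) ≤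
      (K₁ ^ 2 + K₂ * (K₁ + 4)) * ε ^ (13 / 8 : ℝ) / (σ ^ 2 * (δ * s) ^ 15) := by
  obtain ⟨u, hu, hu8⟩ : ∃ u : ℝ, 0 < u ∧ u ^ 8 = ε :=
    ⟨ε ^ (1 / 8 : ℝ), by positivity, by
      rw [← Real.rpow_natCast, ← Real.rpow_mul hε.le]
      norm_num⟩
  have hu13 : ε ^ (13 / 8 : ℝ) = u ^ 13 := by
    rw [← hu8, ← Real.rpow_natCast u 8, ← Real.rpow_mul hu.le, ← Real.rpow_natCast u 13]
    norm_num
  rw [hu13]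
  subst hu8
  have hδs : δ * s ≤ δ := by nlinarith
  have hδs0 : 0 < δ * s := by positivity
  have hδs1 : δ * s ≤ 1 := hδs.trans hδ1
  have hp20 : (δ * s) ^ 20 ≤ δ ^ 20 := pow_le_pow_left₀ hδs0.le hδs 20
  have hσ2 : σ ^ 2 ≤ 1 := pow_le_one₀ hσ.le hσ1
  have hK12 : K₁ ≤ K₁ ^ 2 := by nlinarith
  have hKK : 0 ≤ K₂ * (K₁ + 4) := by positivity
  have hA : (K₁ ^ 2 + K₂ * (K₁ + 4)) * u ^ 8 ≤ δ ^ 20 := by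
    refine h.trans ?_
    have : σ ^ 2 * (δ * s) ^ 20 ≤ 1 * δ ^ 20 :=
      mul_le_mul hσ2 hp20 (by positivity) (by norm_num)
    linarith
  have hu8 : 0 < u ^ 8 := by positivity
  have hA1 : K₁ ^ 2 * u ^ 8 ≤ δ ^ 20 := by nlinarith
  have h1 : K₁ * u ^ 8 ≤ δ ^ 3 := by
    have h2 : K₁ * u ^ 8 ≤ K₁ ^ 2 * u ^ 8 := mul_le_mul_of_nonneg_right hK12 hu8.le
    have h3 : δ ^ 20 ≤ δ ^ 3 := pow_le_pow_of_le_one hδ.le hδ1 (by norm_num)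
    linarith
  have hu1 : u ≤ 1 := by
    by_contra hc
    push Not at hc
    have h2 : 1 < u ^ 8 := one_lt_pow₀ hc (by norm_num)
    have h3 : δ ^ 3 ≤ 1 := pow_le_one₀ hδ.le hδ1
    nlinarith
  have hA2 : K₁ * u ^ 4 ≤ δ ^ 10 := by
    have h2 : (K₁ * u ^ 4) ^ 2 ≤ (δ ^ 10) ^ 2 := by
      calc (K₁ * u ^ 4) ^ 2 = K₁ ^ 2 * u ^ 8 := by ring
        _ ≤ δ ^ 20 := hA1
        _ = (δ ^ 10) ^ 2 := by ring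
    exact le_of_sq_le_sq h2 (by positivity)
  have hA3 : K₁ * u ^ 5 ≤ δ ^ 6 := by
    have h2 : K₁ * u ^ 5 ≤ K₁ * u ^ 4 :=
      mul_le_mul_of_nonneg_left (pow_le_pow_of_le_one hu.le hu1 (by norm_num)) (by linarith)
    have h3 : δ ^ 10 ≤ δ ^ 6 := pow_le_pow_of_le_one hδ.le hδ1 (by norm_num)
    linarith
  have hδ6 : 0 < δ ^ 6 := by positivity
  have hζ : K₁ * u ^ 13 / δ ^ 6 ≤ u ^ 8 := by
    rw [div_le_iff₀ hδ6]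
    calc K₁ * u ^ 13 = u ^ 8 * (K₁ * u ^ 5) := by ring
      _ ≤ u ^ 8 * δ ^ 6 := mul_le_mul_of_nonneg_left hA3 hu8.le
  have hζ0 : 0 ≤ K₁ * u ^ 13 / δ ^ 6 := by positivity
  refine ⟨h1, hζ, hζ0, ?_, ?_⟩
  · have h2 : K₂ * (u ^ 8 + K₁ * u ^ 13 / δ ^ 6) ≤ K₂ * (2 * u ^ 8) :=
      mul_le_mul_of_nonneg_left (by linarith) (by linarith)
    have h3 : K₂ * (2 * u ^ 8) ≤ (K₁ ^ 2 + K₂ * (K₁ + 4)) * u ^ 8 := by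
      have : 2 * K₂ ≤ K₁ ^ 2 + K₂ * (K₁ + 4) := by nlinarith
      calc K₂ * (2 * u ^ 8) = (2 * K₂) * u ^ 8 := by ring
        _ ≤ _ := mul_le_mul_of_nonneg_right this hu8.le
    have h4 : σ ^ 2 * (δ * s) ^ 20 ≤ σ * (δ * s) ^ 9 :=
      mul_le_mul (by nlinarith) (pow_le_pow_of_le_one hδs0.le hδs1 (by norm_num))
        (by positivity) hσ.le
    linarith
  · have hd : 0 < (δ * s) ^ 9 := by positivity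
    have h6 : (δ * s) ^ 15 ≤ δ ^ 6 * (δ * s) ^ 9 := by
      calc (δ * s) ^ 15 = (δ * s) ^ 6 * (δ * s) ^ 9 := by ring
        _ ≤ δ ^ 6 * (δ * s) ^ 9 :=
          mul_le_mul_of_nonneg_right (pow_le_pow_left₀ hδs0.le hδs 6) hd.le
    have h9 : δ ^ 6 * (δ * s) ^ 9 ≤ (δ * s) ^ 9 := by
      have : δ ^ 6 ≤ 1 := pow_le_one₀ hδ.le hδ1
      nlinarith
    rw [div_le_div_iff₀ (by positivity) (by positivity)]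
    have hsq : (u ^ 8 + K₁ * u ^ 13 / δ ^ 6) ^ 2 ≤ 4 * u ^ 13 := by
      have h2 : (u ^ 8 + K₁ * u ^ 13 / δ ^ 6) ^ 2 ≤ (2 * u ^ 8) ^ 2 :=
        pow_le_pow_left₀ (by positivity) (by linarith) 2
      have h3 : u ^ 16 ≤ u ^ 13 := pow_le_pow_of_le_one hu.le hu1 (by norm_num)
      nlinarith
    have hz : K₁ * u ^ 13 / δ ^ 6 * (δ * s) ^ 15 ≤ K₁ * u ^ 13 * (δ * s) ^ 9 := by
      calc K₁ * u ^ 13 / δ ^ 6 * (δ * s) ^ 15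
          ≤ K₁ * u ^ 13 / δ ^ 6 * (δ ^ 6 * (δ * s) ^ 9) :=
            mul_le_mul_of_nonneg_left h6 hζ0
        _ = K₁ * u ^ 13 * (δ * s) ^ 9 := by field_simp
    have hq : (u ^ 8 + K₁ * u ^ 13 / δ ^ 6) ^ 2 * (δ * s) ^ 15 ≤ 4 * u ^ 13 * (δ * s) ^ 9 :=
      mul_le_mul hsq (h6.trans h9) (by positivity) (by positivity)
    have hsum : (K₁ * u ^ 13 / δ ^ 6 + (u ^ 8 + K₁ * u ^ 13 / δ ^ 6) ^ 2) * (δ * s) ^ 15 ≤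
        (K₁ + 4) * (u ^ 13 * (δ * s) ^ 9) := by
      calc _ = K₁ * u ^ 13 / δ ^ 6 * (δ * s) ^ 15 +
            (u ^ 8 + K₁ * u ^ 13 / δ ^ 6) ^ 2 * (δ * s) ^ 15 := by ring
        _ ≤ K₁ * u ^ 13 * (δ * s) ^ 9 + 4 * u ^ 13 * (δ * s) ^ 9 := add_le_add hz hq
        _ = _ := by ring
    have hσ20 : 0 ≤ σ ^ 2 := by positivity
    have hP : 0 ≤ u ^ 13 * (δ * s) ^ 9 := by positivity
    calc K₂ * (K₁ * u ^ 13 / δ ^ 6 + (u ^ 8 + K₁ * u ^ 13 / δ ^ 6) ^ 2) *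
          (σ ^ 2 * (δ * s) ^ 15)
        = (K₂ * σ ^ 2) * ((K₁ * u ^ 13 / δ ^ 6 + (u ^ 8 + K₁ * u ^ 13 / δ ^ 6) ^ 2) *
          (δ * s) ^ 15) := by ring
      _ ≤ (K₂ * σ ^ 2) * ((K₁ + 4) * (u ^ 13 * (δ * s) ^ 9)) :=
        mul_le_mul_of_nonneg_left hsum (by positivity)
      _ = (K₂ * (K₁ + 4)) * (σ ^ 2 * (u ^ 13 * (δ * s) ^ 9)) := by ring
      _ ≤ (K₁ ^ 2 + K₂ * (K₁ + 4)) * (σ ^ 2 * (u ^ 13 * (δ * s) ^ 9)) :=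
        mul_le_mul_of_nonneg_right (by nlinarith [sq_nonneg K₁]) (by positivity)
      _ = (K₁ ^ 2 + K₂ * (K₁ + 4)) * u ^ 13 * (σ ^ 2 * (δ * s) ^ 9) := by ring

theorem newton : ∃ C : ℝ, 1 ≤ C ∧ ∀ {σ σ' M M' ρ₀ r b δ s ε c κ : ℝ} {B X : ℂ → ℂ → ℂ},
    BD σ' ρ₀ M' B → Par σ M r b δ s → LD σ M r (lB r B) → St r (lB r B) X b δ s →
    Bd δ s ε (Er r (lB r B) X) → 0 < c → c < ρ₀ →
    (∀ y Y₁ Y₂ : ℝ, |Y₁ - y| < c → |Y₂ - y| < c →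
      gS B y Y₁ + deriv (fun Y => gS B y Y) Y₁ * (Y₂ - Y₁) + 1 / 2 * (Y₂ - Y₁) ^ 2 ≤ gS B y Y₂) →
    HZ (gS B) c κ → 4 * r < c → 2 * r < κ → 0 < ε → C * ε ≤ σ ^ 2 * (δ * s) ^ 20 →
    ∃ y : ℂ → ℂ → ℂ, Per y ∧ RSym y ∧
      Hol (2 * (δ / 4096)) (2 * (s / 4096)) y ∧
      Bd (2 * (δ / 4096)) (2 * (s / 4096)) (C * ε / (σ * (δ * s) ^ 9)) y ∧
      St r (lB r B) (fun θ t => X θ t + y θ t) (b + C * ε / (σ * (δ * s) ^ 9)) (δ / 4096)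
        (s / 4096) ∧
      Bd (δ / 4096) (s / 4096) (C * ε ^ (13 / 8 : ℝ) / (σ ^ 2 * (δ * s) ^ 15))
        (Er r (lB r B) fun θ t => X θ t + y θ t) ∧
      ∀ θ t : ℝ, |t| ≤ 1 / 4 → ‖Jf r (lB r B) X θ t - ta r (lB r B) X t‖ ≤
        C * ε / (σ * (δ * s) ^ 9) := by
  obtain ⟨K₁, hK₁, hO⟩ := omega_bound
  obtain ⟨K₂, hK₂, hS⟩ := step
  have hK : 1 ≤ K₁ ^ 2 + K₂ * (K₁ + 4) := by nlinarith
  refine ⟨K₁ ^ 2 + K₂ * (K₁ + 4), hK, ?_⟩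
  intro σ σ' M M' ρ₀ r b δ s ε c κ B X hB hp hl hX hE hc0 hcρ hc h0 hrc hrκ hε hCε
  have hδ := hp.δ_pos
  have hσ := hp.σ_pos
  have hs := hp.s_pos
  have hσ1 := hp.σ_le
  have hδ1 : δ ≤ 1 := by
    have := hp.δ_le
    linarith
  have hs1 : s ≤ 1 := hp.s_le.trans (by norm_num)
  obtain ⟨h1, h2, h3, h4, h5⟩ := kn_num hσ hσ1 hδ hδ1 hs hs1 hε hK₁ hK₂ hCε
  obtain ⟨w, hw, hwP, hwR, hZ⟩ := hO hB hp hl hX hE hc0 hcρ hc h0 hrc hrκ hε h1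
  obtain ⟨y, hyP, hyR, hyH, hyB, hySt, hyE, hyJ⟩ :=
    hS hp hl hX hw hwP hwR hε h3 hE hZ h4
  have hd : 0 < σ * (δ * s) ^ 9 := by positivity
  have h6 : K₂ * (ε + K₁ * ε ^ (13 / 8 : ℝ) / δ ^ 6) / (σ * (δ * s) ^ 9) ≤
      (K₁ ^ 2 + K₂ * (K₁ + 4)) * ε / (σ * (δ * s) ^ 9) := by
    refine div_le_div_of_nonneg_right ?_ hd.le
    have h7 : K₂ * (ε + K₁ * ε ^ (13 / 8 : ℝ) / δ ^ 6) ≤ K₂ * (2 * ε) :=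
      mul_le_mul_of_nonneg_left (by linarith) (by linarith)
    have h8 : 2 * K₂ ≤ K₁ ^ 2 + K₂ * (K₁ + 4) := by nlinarith
    have h9 : (2 * K₂) * ε ≤ (K₁ ^ 2 + K₂ * (K₁ + 4)) * ε :=
      mul_le_mul_of_nonneg_right h8 hε.le
    linarith
  exact ⟨y, hyP, hyR, hyH, hyB.mono le_rfl le_rfl h6, kn_mono hySt (by linarith),
    hyE.mono le_rfl le_rfl h5, fun θ t ht => (hyJ θ t ht).trans h6⟩

end Pool.Agent.NOne
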