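import Pool.Agent.NOne.KCau

/-!
# MP_74f563_an, n = 1, file KSh: shifts and difference quotients

`sh r F = F⁺`, `sm r F = F⁻`, `DD r F = (F⁺ - F) / r`; the shift is `ρ = r (1 + t)`, with
`|Im ρ| ≤ r s` for `t ∈ UU s` (`im_shift`, `shift_im_lt`, `shift_im_lt'`, `segment_im_lt`).

PROOFS.  Holomorphy: composition with the holomorphic map `(θ, t) ↦ (θ ± r (1 + t), t)`, which maps
`Om δ' s` into `Om δ s` if `δ' + r s ≤ δ`.  `bd_DD`: `F(θ + ρ) - F θ` is at most `|ρ|` times the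
supremum of `|p1 F|` on the segment (`Convex.norm_image_sub_le_of_norm_deriv_le` or the mean value
inequality on the convex strip), and `|ρ| ≤ (3/2) r` (`norm_one_add_le`).  `bd_DD'`: the same with
`Bd.cauchy1` for the strip of width `δ' + r s` (use: `Bd (δ' + r s) s (c / (δ - δ' - r s)) (p1 F)`).
Derivative rules: `p1 (sh r F) = sh r (p1 F)` (`deriv_comp_add_const`); `p2 (sh r F)`: chain rule
for `z ↦ F (θ + r (1 + z)) z` with `Hol.hasFDerivAt`.  The algebraic rules follow by unfolding.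
`RSym`: `conj (θ + r (1 + t)) = conj θ + r (1 + conj t)` as `r` is real; `RSym (p1 F)`: the function
`z ↦ F z (conj t)` is `z ↦ conj (F (conj z) t)`; its derivative is the conjugate of the derivative
of `z ↦ F z t` at `θ` (`deriv_conj_conj` or `HasDerivAt.conj_conj`, both for differentiable and
non-differentiable `F`).
-/

set_option autoImplicit false

namespace Pool.Agent.NOne

open Complex Set MeasureTheory
open scoped ComplexConjugate

variable {r δ s δ' c : ℝ} {F G : ℂ → ℂ → ℂ}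

private theorem im_lt_of_shift {θ t : ℂ} (hr : 0 ≤ r) (hθ : |θ.im| < δ') (ht : t ∈ UU s)
    (h : δ' + r * s ≤ δ) : |θ.im| < δ := by
  have h1 := mul_nonneg hr (pos_of_mem_UU ht).le
  linarith

private theorem hol_sub_dom (hF : Hol δ s F) (hr : 0 ≤ r) (h : δ' + r * s ≤ δ) :
    Hol δ' s F :=
  DifferentiableOn.mono hF fun _ hq => ⟨im_lt_of_shift hr hq.1 hq.2 h, hq.2⟩

private theorem hasDerivAt_sh2 (hF : Hol δ s F) (hr : 0 ≤ r) (h : δ' + r * s ≤ δ) {θ t : ℂ}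
    (hθ : |θ.im| < δ') (ht : t ∈ UU s) :
    HasDerivAt (fun z => sh r F θ z) (sh r (p2 F) θ t + r * sh r (p1 F) θ t) t := by
  have h1 := hF.hasFDerivAt (shift_im_lt hr hθ ht h) ht
  have h2 : HasDerivAt (fun z : ℂ => (θ + r * (1 + z), z)) ((r : ℂ), (1 : ℂ)) t := by
    have h3 : HasDerivAt (fun z : ℂ => θ + r * (1 + z)) (r : ℂ) t := by
      have h4 := (((hasDerivAt_id t).const_add (1 : ℂ)).const_mul (r : ℂ)).const_add θ
      rw [mul_one] at h4
      exact h4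
    exact h3.prodMk (hasDerivAt_id t)
  have h3 := HasFDerivAt.comp_hasDerivAt (f := fun z : ℂ => (θ + r * (1 + z), z)) t h1 h2
  have h4 : (p1 F (θ + r * (1 + t)) t • ContinuousLinearMap.fst ℂ ℂ ℂ +
      p2 F (θ + r * (1 + t)) t • ContinuousLinearMap.snd ℂ ℂ ℂ) ((r : ℂ), (1 : ℂ)) =
      sh r (p2 F) θ t + r * sh r (p1 F) θ t := by
    simp only [add_apply, smul_apply,
      ContinuousLinearMap.coe_fst', ContinuousLinearMap.coe_snd', smul_eq_mul, sh]
    ring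
  rw [h4] at h3
  exact h3

private theorem hasDerivAt_sm2 (hF : Hol δ s F) (hr : 0 ≤ r) (h : δ' + r * s ≤ δ) {θ t : ℂ}
    (hθ : |θ.im| < δ') (ht : t ∈ UU s) :
    HasDerivAt (fun z => sm r F θ z) (sm r (p2 F) θ t - r * sm r (p1 F) θ t) t := by
  have h1 := hF.hasFDerivAt (shift_im_lt' hr hθ ht h) ht
  have h2 : HasDerivAt (fun z : ℂ => (θ - r * (1 + z), z)) (-(r : ℂ), (1 : ℂ)) t := by
    have h3 : HasDerivAt (fun z : ℂ => θ - r * (1 + z)) (-(r : ℂ)) t := by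
      have h4 := (((hasDerivAt_id t).const_add (1 : ℂ)).const_mul (r : ℂ)).const_sub θ
      rw [mul_one] at h4
      exact h4
    exact h3.prodMk (hasDerivAt_id t)
  have h3 := HasFDerivAt.comp_hasDerivAt (f := fun z : ℂ => (θ - r * (1 + z), z)) t h1 h2
  have h4 : (p1 F (θ - r * (1 + t)) t • ContinuousLinearMap.fst ℂ ℂ ℂ +
      p2 F (θ - r * (1 + t)) t • ContinuousLinearMap.snd ℂ ℂ ℂ) (-(r : ℂ), (1 : ℂ)) =
      sm r (p2 F) θ t - r * sm r (p1 F) θ t := by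
    simp only [add_apply, smul_apply,
      ContinuousLinearMap.coe_fst', ContinuousLinearMap.coe_snd', smul_eq_mul, sm]
    ring
  rw [h4] at h3
  exact h3

theorem Hol.hol_sh (hF : Hol δ s F) (hr : 0 ≤ r) (h : δ' + r * s ≤ δ) : Hol δ' s (sh r F) := by
  have h1 : DifferentiableOn ℂ (fun q : ℂ × ℂ => (q.1 + r * (1 + q.2), q.2)) (Om δ' s) := by
    apply Differentiable.differentiableOn
    fun_prop
  exact DifferentiableOn.comp (g := fun q : ℂ × ℂ => F q.1 q.2) hF h1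
    fun q hq => ⟨shift_im_lt hr hq.1 hq.2 h, hq.2⟩

theorem Hol.hol_sm (hF : Hol δ s F) (hr : 0 ≤ r) (h : δ' + r * s ≤ δ) : Hol δ' s (sm r F) := by
  have h1 : DifferentiableOn ℂ (fun q : ℂ × ℂ => (q.1 - r * (1 + q.2), q.2)) (Om δ' s) := by
    apply Differentiable.differentiableOn
    fun_prop
  exact DifferentiableOn.comp (g := fun q : ℂ × ℂ => F q.1 q.2) hF h1
    fun q hq => ⟨shift_im_lt' hr hq.1 hq.2 h, hq.2⟩

theorem Hol.hol_DD (hF : Hol δ s F) (hr : 0 ≤ r) (h : δ' + r * s ≤ δ) : Hol δ' s (DD r F) := by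
  have h1 : DifferentiableOn ℂ (fun q : ℂ × ℂ => sh r F q.1 q.2 - F q.1 q.2) (Om δ' s) :=
    DifferentiableOn.sub (hF.hol_sh hr h) (hol_sub_dom hF hr h)
  refine (h1.const_mul ((r : ℂ)⁻¹)).congr fun q _ => ?_
  simp only [DD, sh, div_eq_inv_mul]

theorem Bd.bd_sh (hF : Bd δ s c F) (hr : 0 ≤ r) (h : δ' + r * s ≤ δ) : Bd δ' s c (sh r F) :=
  fun _ _ hθ ht => hF _ _ (shift_im_lt hr hθ ht h) ht

theorem Bd.bd_sm (hF : Bd δ s c F) (hr : 0 ≤ r) (h : δ' + r * s ≤ δ) : Bd δ' s c (sm r F) :=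
  fun _ _ hθ ht => hF _ _ (shift_im_lt' hr hθ ht h) ht

private theorem convex_strip (δ : ℝ) : Convex ℝ {z : ℂ | |z.im| < δ} := by
  have h1 : {z : ℂ | |z.im| < δ} = imLm ⁻¹' Ioo (-δ) δ := by
    ext z
    simp [abs_lt]
  rw [h1]
  exact (convex_Ioo (-δ) δ).linear_preimage imLm

theorem bd_DD (hF : Hol δ s F) (hb : Bd δ s c (p1 F)) (hr : 0 < r) (hs : s ≤ 1 / 8)
    (h : δ' + r * s ≤ δ) : Bd δ' s (3 / 2 * c) (DD r F) := by
  intro θ t hθ ht
  have h1 : ‖F (θ + r * (1 + t)) t - F θ t‖ ≤ c * ‖(θ + r * (1 + t)) - θ‖ := by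
    refine Convex.norm_image_sub_le_of_norm_deriv_le (f := fun z => F z t)
      (s := {z : ℂ | |z.im| < δ}) (fun z hz => ?_) (fun z hz => ?_) (convex_strip δ)
      (im_lt_of_shift hr.le hθ ht h) (shift_im_lt hr.le hθ ht h)
    · exact (hF.hasDerivAt1 hz ht).differentiableAt
    · exact hb z t hz ht
  have h2 : ‖(θ + r * (1 + t)) - θ‖ ≤ r * (3 / 2) := by
    rw [add_sub_cancel_left, norm_mul, Complex.norm_real, Real.norm_eq_abs, abs_of_pos hr]
    exact mul_le_mul_of_nonneg_left (norm_one_add_le hs ht) hr.le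
  have h3 : 0 ≤ c := (norm_nonneg _).trans (hb θ t (im_lt_of_shift hr.le hθ ht h) ht)
  have h4 : ‖F (θ + r * (1 + t)) t - F θ t‖ ≤ 3 / 2 * c * r :=
    h1.trans ((mul_le_mul_of_nonneg_left h2 h3).trans_eq (by ring))
  rw [DD, norm_div, Complex.norm_real, Real.norm_eq_abs, abs_of_pos hr, div_le_iff₀ hr]
  exact h4

theorem bd_DD' (hF : Hol δ s F) (hb : Bd δ s c F) (hr : 0 < r) (hs : s ≤ 1 / 8)
    (h : δ' + r * s < δ) : Bd δ' s (3 / 2 * c / (δ - δ' - r * s)) (DD r F) := by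
  have h1 := bd_DD (δ := δ' + r * s) (δ' := δ') (DifferentiableOn.mono hF fun q hq =>
    ⟨lt_trans hq.1 h, hq.2⟩) (hb.cauchy1 hF h) hr hs le_rfl
  have h2 : 3 / 2 * (c / (δ - (δ' + r * s))) = 3 / 2 * c / (δ - δ' - r * s) := by
    rw [sub_add_eq_sub_sub, mul_div_assoc]
  rwa [h2] at h1

theorem sh_sm (r : ℝ) (F : ℂ → ℂ → ℂ) : sh r (sm r F) = F := by
  funext θ t
  simp only [sh, sm, add_sub_cancel_right]

theorem sm_sh (r : ℝ) (F : ℂ → ℂ → ℂ) : sm r (sh r F) = F := by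
  funext θ t
  simp only [sh, sm, sub_add_cancel]

theorem sm_DD (r : ℝ) (F : ℂ → ℂ → ℂ) (θ t : ℂ) :
    sm r (DD r F) θ t = (F θ t - sm r F θ t) / r := by
  simp only [sm, DD, sub_add_cancel]

/-- Leibniz' rule for `D` -/
theorem DD_mul (r : ℝ) (F G : ℂ → ℂ → ℂ) (θ t : ℂ) :
    DD r (fun θ t => F θ t * G θ t) θ t = F θ t * DD r G θ t + sh r G θ t * DD r F θ t := by
  simp only [sh, DD]
  ring

theorem DD_add (r : ℝ) (F G : ℂ → ℂ → ℂ) (θ t : ℂ) :
    DD r (fun θ t => F θ t + G θ t) θ t = DD r F θ t + DD r G θ t := by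
  simp only [DD]
  ring

theorem DD_sub (r : ℝ) (F G : ℂ → ℂ → ℂ) (θ t : ℂ) :
    DD r (fun θ t => F θ t - G θ t) θ t = DD r F θ t - DD r G θ t := by
  simp only [DD]
  ring

/-- functions of `t` are constants for `D` -/
theorem DD_const_mul (r : ℝ) (g : ℂ → ℂ) (F : ℂ → ℂ → ℂ) (θ t : ℂ) :
    DD r (fun θ t => g t * F θ t) θ t = g t * DD r F θ t := by
  simp only [DD]
  ring

theorem DD_of_t (r : ℝ) (g : ℂ → ℂ) (θ t : ℂ) : DD r (fun _ t => g t) θ t = 0 := by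
  simp only [DD, sub_self, zero_div]

theorem p1_sh (r : ℝ) (F : ℂ → ℂ → ℂ) (θ t : ℂ) : p1 (sh r F) θ t = sh r (p1 F) θ t :=
  deriv_comp_add_const (fun z => F z t) (r * (1 + t)) θ

theorem p1_sm (r : ℝ) (F : ℂ → ℂ → ℂ) (θ t : ℂ) : p1 (sm r F) θ t = sm r (p1 F) θ t :=
  deriv_comp_sub_const (fun z => F z t) (r * (1 + t)) θ

theorem p1_DD (hF : Hol δ s F) (hr : 0 ≤ r) (h : δ' + r * s ≤ δ) {θ t : ℂ} (hθ : |θ.im| < δ')
    (ht : t ∈ UU s) : p1 (DD r F) θ t = DD r (p1 F) θ t := by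
  have h1 := (hF.hasDerivAt1 (shift_im_lt hr hθ ht h) ht).comp_add_const θ (r * (1 + t))
  have h2 := hF.hasDerivAt1 (im_lt_of_shift hr hθ ht h) ht
  exact ((h1.sub h2).div_const (r : ℂ)).deriv

theorem p2_sh (hF : Hol δ s F) (hr : 0 ≤ r) (h : δ' + r * s ≤ δ) {θ t : ℂ} (hθ : |θ.im| < δ')
    (ht : t ∈ UU s) : p2 (sh r F) θ t = sh r (p2 F) θ t + r * sh r (p1 F) θ t :=
  (hasDerivAt_sh2 hF hr h hθ ht).deriv

theorem p2_sm (hF : Hol δ s F) (hr : 0 ≤ r) (h : δ' + r * s ≤ δ) {θ t : ℂ} (hθ : |θ.im| < δ')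
    (ht : t ∈ UU s) : p2 (sm r F) θ t = sm r (p2 F) θ t - r * sm r (p1 F) θ t :=
  (hasDerivAt_sm2 hF hr h hθ ht).deriv

theorem p2_DD (hF : Hol δ s F) (hr : 0 < r) (h : δ' + r * s ≤ δ) {θ t : ℂ} (hθ : |θ.im| < δ')
    (ht : t ∈ UU s) : p2 (DD r F) θ t = DD r (p2 F) θ t + sh r (p1 F) θ t := by
  have h1 := hasDerivAt_sh2 hF hr.le h hθ ht
  have h2 := hF.hasDerivAt2 (im_lt_of_shift hr.le hθ ht h) ht
  have h3 := ((h1.sub h2).div_const (r : ℂ)).deriv
  have h4 : p2 (DD r F) θ t =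
      (sh r (p2 F) θ t + r * sh r (p1 F) θ t - p2 F θ t) / r := h3
  have hr' : (r : ℂ) ≠ 0 := Complex.ofReal_ne_zero.2 hr.ne'
  rw [h4]
  simp only [DD, sh]
  field_simp
  ring

theorem per_sh (hF : Per F) : Per (sh r F) := by
  intro θ t
  have h1 : θ + 1 + r * (1 + t) = θ + r * (1 + t) + 1 := by ring
  simp only [sh]
  rw [h1, hF]

theorem per_sm (hF : Per F) : Per (sm r F) := by
  intro θ t
  have h1 : θ + 1 - r * (1 + t) = θ - r * (1 + t) + 1 := by ring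
  simp only [sm]
  rw [h1, hF]

theorem per_DD (hF : Per F) : Per (DD r F) := by
  intro θ t
  have h1 : θ + 1 + r * (1 + t) = θ + r * (1 + t) + 1 := by ring
  simp only [DD]
  rw [h1, hF, hF]

theorem per_p1 (hF : Per F) : Per (p1 F) := by
  intro θ t
  have h1 : (fun z => F (z + 1) t) = fun z => F z t := funext fun z => hF z t
  have h2 := deriv_comp_add_const (fun z => F z t) 1 θ
  simp only [p1]
  rw [← h2, h1]

theorem per_p2 (hF : Per F) : Per (p2 F) := by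
  intro θ t
  have h1 : (fun z => F (θ + 1) z) = fun z => F θ z := funext fun z => hF θ z
  simp only [p2]
  rw [h1]

theorem rsym_sh (hF : RSym F) : RSym (sh r F) := by
  intro θ t
  have h1 : conj θ + r * (1 + conj t) = conj (θ + r * (1 + t)) := by simp
  simp only [sh]
  rw [h1, hF]

theorem rsym_sm (hF : RSym F) : RSym (sm r F) := by
  intro θ t
  have h1 : conj θ - r * (1 + conj t) = conj (θ - r * (1 + t)) := by simp
  simp only [sm]
  rw [h1, hF]

theorem rsym_DD (hF : RSym F) : RSym (DD r F) := by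
  intro θ t
  have h1 : conj θ + r * (1 + conj t) = conj (θ + r * (1 + t)) := by simp
  simp only [DD]
  rw [h1, hF, hF, map_div₀, map_sub, Complex.conj_ofReal]

private theorem deriv_conj' {f g : ℂ → ℂ} (h : ∀ z, g (conj z) = conj (f z)) (z : ℂ) :
    deriv g (conj z) = conj (deriv f z) := by
  have h1 : g = conj ∘ f ∘ conj := by
    funext w
    have h2 := h (conj w)
    rw [Complex.conj_conj] at h2
    exact h2
  rw [h1, deriv_conj_conj]
  simp

theorem rsym_p1 (hF : RSym F) : RSym (p1 F) := fun θ t =>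
  deriv_conj' (f := fun z => F z t) (g := fun z => F z (conj t)) (fun z => hF z t) θ

theorem rsym_p2 (hF : RSym F) : RSym (p2 F) := fun θ t =>
  deriv_conj' (f := fun z => F θ z) (g := fun z => F (conj θ) z) (fun z => hF θ z) t

end Pool.Agent.NOne
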