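import Mathlib

/-!
# MP_74f563_an, one degree of freedom: definitions and interfaces

THEOREM (n = 1).  A real-analytic time-periodic Tonelli Lagrangian on `𝕋 × ℝ × 𝕋` with complete flow
whose function `α` is strictly convex is completely integrable.

* Part A: strictly convex `α` gives `C0I L V` (foliation by minimal periodic orbits);
* Parts B, C: `C0I L V` gives `Band`s near every rational rotation number;
* Part D: `Band`s give the smooth first integral.

All functions are lifted to `ℝ`; a scalar Lagrangian is `L : ℝ → ℝ → ℝ → ℝ`, `L x v t`.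
-/

set_option autoImplicit false

namespace Pool.Agent.NOne

open Set MeasureTheory
open scoped ContDiff

/-! ## Lagrangians and solutions -/

/-- the derivative with respect to the first variable -/
noncomputable def d1 (F : ℝ → ℝ → ℝ → ℝ) : ℝ → ℝ → ℝ → ℝ := fun x v t => deriv (fun y => F y v t) x

/-- the derivative with respect to the second variable -/
noncomputable def d2 (F : ℝ → ℝ → ℝ → ℝ) : ℝ → ℝ → ℝ → ℝ := fun x v t => deriv (fun w => F x w t) v

/-- the derivative with respect to the third variable -/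
noncomputable def d3 (F : ℝ → ℝ → ℝ → ℝ) : ℝ → ℝ → ℝ → ℝ := fun x v t => deriv (fun s => F x v s) t

/-- real-analytic functions of three variables -/
def Ana (F : ℝ → ℝ → ℝ → ℝ) : Prop :=
  AnalyticOnNhd ℝ (fun z : ℝ × ℝ × ℝ => F z.1 z.2.1 z.2.2) univ

/-- the acceleration given by the Euler-Lagrange equation -/
noncomputable def acc (L : ℝ → ℝ → ℝ → ℝ) (x v t : ℝ) : ℝ :=
  (d1 L x v t - v * d1 (d2 L) x v t - d3 (d2 L) x v t) / d2 (d2 L) x v t

/-- `X` is a solution of the Euler-Lagrange equation, with velocity `W` -/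
structure Sol (L : ℝ → ℝ → ℝ → ℝ) (X W : ℝ → ℝ) : Prop where
  pos : ∀ t, HasDerivAt X (W t) t
  vel : ∀ t, HasDerivAt W (acc L (X t) (W t) t) t

/-- time-periodic Tonelli Lagrangians with complete flow -/
structure Ton (L : ℝ → ℝ → ℝ → ℝ) : Prop where
  ana : Ana L
  perx : ∀ x v t, L (x + 1) v t = L x v t
  pert : ∀ x v t, L x v (t + 1) = L x v t
  conv : ∀ x v t, 0 < d2 (d2 L) x v t
  sup : ∀ B : ℝ, ∃ C : ℝ, ∀ x v t, B * |v| - C ≤ L x v t
  compl : ∀ s x v : ℝ, ∃ X W : ℝ → ℝ, Sol L X W ∧ X s = x ∧ W s = v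

open Classical in
/-- the position at time `t` of the solution with position `x` and velocity `v` at time `0` -/
noncomputable def FX (L : ℝ → ℝ → ℝ → ℝ) (t x v : ℝ) : ℝ :=
  if h : ∃ X W : ℝ → ℝ, Sol L X W ∧ X 0 = x ∧ W 0 = v then h.choose t else 0

open Classical in
/-- the velocity at time `t` of the solution with position `x` and velocity `v` at time `0` -/
noncomputable def FW (L : ℝ → ℝ → ℝ → ℝ) (t x v : ℝ) : ℝ :=
  if h : ∃ X W : ℝ → ℝ, Sol L X W ∧ X 0 = x ∧ W 0 = v then h.choose_spec.choose t else 0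

/-- the action on `[0, t]` of the solution with position `x` and velocity `v` at time `0` -/
noncomputable def FA (L : ℝ → ℝ → ℝ → ℝ) (t x v : ℝ) : ℝ :=
  ∫ τ in (0 : ℝ)..t, L (FX L τ x v) (FW L τ x v) τ

/-! ## Curves -/

/-- a curve on `[a, b]` with bounded velocity `u`: continuous, differentiable off a countable set -/
structure Cv (z u : ℝ → ℝ) (a b : ℝ) : Prop where
  le : a ≤ b
  cont : ContinuousOn z (Icc a b)
  der : ∃ N : Set ℝ, N.Countable ∧ ∀ t ∈ Ioo a b, t ∉ N → HasDerivAt z (u t) t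
  meas : Measurable u
  bdd : ∃ M : ℝ, ∀ t ∈ Icc a b, |u t| ≤ M

/-- the action of a curve -/
noncomputable def act (L : ℝ → ℝ → ℝ → ℝ) (z u : ℝ → ℝ) (a b : ℝ) : ℝ :=
  ∫ t in a..b, L (z t) (u t) t

/-! ## The result of Part A -/

/-- `C⁰`-integrability: for every rational number `h` the solutions with initial velocity `V h x` at
`x` are minimal loops of rotation number `h` -/
structure C0I (L : ℝ → ℝ → ℝ → ℝ) (V : ℚ → ℝ → ℝ) : Prop where
  ton : Ton L
  per : ∀ h x, V h (x + 1) = V h x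
  cont : ∀ h, Continuous (V h)
  mono : ∀ (h h' : ℚ) (x : ℝ), h < h' → V h x < V h' x
  dense : ∀ x v v' : ℝ, v < v' → ∃ h : ℚ, v < V h x ∧ V h x < v'
  cross : ∀ (h h' : ℚ) (x t : ℝ), h < h' → 0 < t → FX L t x (V h x) < FX L t x (V h' x)
  order : ∀ (h : ℚ) (x y t : ℝ), x < y → FX L t x (V h x) < FX L t y (V h y)
  orb : ∀ (q : ℕ) (p : ℤ), 0 < q → ∀ x t : ℝ,
    FX L (t + q) x (V (p / q) x) = FX L t x (V (p / q) x) + p
  inv : ∀ (h : ℚ) (x : ℝ), FW L 1 x (V h x) = V h (FX L 1 x (V h x))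
  mini : ∀ (q : ℕ) (p : ℤ), 0 < q → ∀ (x : ℝ) (z u : ℝ → ℝ), Cv z u 0 q → z q = z 0 + p →
    FA L q x (V (p / q) x) ≤ act L z u 0 q

/-! ## The result of Parts B and C -/

/-- a smooth invariant foliation of a band around the circle of rotation number `p / q`: the leaf `t`
has rotation number `(p + r (1 + t)) / q` -/
structure Band (L : ℝ → ℝ → ℝ → ℝ) (q : ℕ) (p : ℤ) (r : ℝ) (Q W : ℝ → ℝ → ℝ) : Prop where
  smoothQ : ContDiffOn ℝ ∞ (fun z : ℝ × ℝ => Q z.1 z.2) {z | |z.2| < 1 / 4}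
  smoothW : ContDiffOn ℝ ∞ (fun z : ℝ × ℝ => W z.1 z.2) {z | |z.2| < 1 / 4}
  perQ : ∀ θ t : ℝ, |t| < 1 / 4 → Q (θ + 1) t = Q θ t + 1
  perW : ∀ θ t : ℝ, |t| < 1 / 4 → W (θ + 1) t = W θ t
  mono : ∀ θ t : ℝ, |t| < 1 / 4 → 0 < deriv (fun z => Q z t) θ
  jac : ∀ θ t : ℝ, |t| < 1 / 4 →
    deriv (fun z => Q z t) θ * deriv (fun z => W θ z) t -
      deriv (fun z => Q θ z) t * deriv (fun z => W z t) θ ≠ 0
  orbQ : ∀ θ t : ℝ, |t| < 1 / 4 → FX L q (Q θ t) (W θ t) = Q (θ + r * (1 + t)) t + p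
  orbW : ∀ θ t : ℝ, |t| < 1 / 4 → FW L q (Q θ t) (W θ t) = W (θ + r * (1 + t)) t

/-- there are bands next to every rational rotation number -/
def HasBands (L : ℝ → ℝ → ℝ → ℝ) : Prop :=
  ∀ (q : ℕ) (p : ℤ), 0 < q → ∃ r₀ > 0, ∀ r : ℝ, 0 < r → r < r₀ → ∃ Q W : ℝ → ℝ → ℝ, Band L q p r Q W

end Pool.Agent.NOne
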