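import Pool.Agent.MechAlpha.Liouville
import Pool.Agent.NOne.Defs

/-!
# MP_74f563_an, n = 1, file BrDefs: the bridge between `Torus 1 × Vec 1 × UnitAddCircle` and `ℝ`
-/

set_option autoImplicit false

namespace Pool.Agent.NOne

open Set MeasureTheory Pool.Agent.MechAlpha
open scoped RealInnerProductSpace ContDiff

/-- the standard hypotheses of Mather theory (without completeness, which is `IsELFlow`): `L` is
real-analytic, `∂²L/∂v²` is positive definite, `L` is superlinear in `v`, uniformly in `(x, t)` -/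
structure Tonelli {n : ℕ} (L : Torus n → Vec n → UnitAddCircle → ℝ) : Prop where
  ana : AnalyticOnNhd ℝ
    (fun q : Vec n × Vec n × ℝ => L (proj q.1) q.2.1 (q.2.2 : UnitAddCircle)) univ
  conv : ∀ (x v w : Vec n) (t : ℝ), w ≠ 0 →
    0 < fderiv ℝ (fderiv ℝ fun u : Vec n => L (proj x) u (t : UnitAddCircle)) v w w
  sup : ∀ B : ℝ, ∃ R : ℝ, ∀ (x : Torus n) (v : Vec n) (t : UnitAddCircle), R ≤ ‖v‖ →
    B * ‖v‖ ≤ L x v t

/-- the vector of `ℝ¹` with coordinate `x` -/
noncomputable def ev (x : ℝ) : Vec 1 := WithLp.toLp 2 fun _ => x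

/-- the Lagrangian as a function of three real variables -/
noncomputable def lft (L : Torus 1 → Vec 1 → UnitAddCircle → ℝ) (x v t : ℝ) : ℝ :=
  L (proj (ev x)) (ev v) (t : UnitAddCircle)

theorem ev_apply (x : ℝ) (i : Fin 1) : ev x i = x := rfl

theorem ev_coord (v : Vec 1) : ev (v 0) = v := by
  ext i
  rw [ev_apply, Subsingleton.elim i 0]

/-- `ev` as a continuous linear map -/
noncomputable def evL : ℝ →L[ℝ] Vec 1 :=
  LinearMap.toContinuousLinearMap
    { toFun := ev
      map_add' := fun x y => by ext i; simp [ev_apply]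
      map_smul' := fun r x => by ext i; simp [ev_apply] }

theorem evL_apply (x : ℝ) : evL x = ev x := rfl

/-- the coordinate as a continuous linear map -/
noncomputable def coL : Vec 1 →L[ℝ] ℝ := EuclideanSpace.proj 0

theorem coL_apply (v : Vec 1) : coL v = v 0 := rfl

theorem coL_ev (x : ℝ) : coL (ev x) = x := rfl

theorem ev_add (x y : ℝ) : ev (x + y) = ev x + ev y := evL.map_add x y

theorem ev_smul (r x : ℝ) : ev (r * x) = r • ev x := evL.map_smul r x

theorem norm_ev (x : ℝ) : ‖ev x‖ = |x| := by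
  rw [EuclideanSpace.norm_eq]
  simp [ev_apply, Real.sqrt_sq_eq_abs]

theorem inner_ev (x y : ℝ) : ⟪ev x, ev y⟫ = x * y := by
  simp [PiLp.inner_apply, ev_apply, mul_comm]

theorem ev_one_ne : ev 1 ≠ 0 := by
  intro h
  have := congrArg (fun v : Vec 1 => v 0) h
  simp [ev_apply] at this

theorem proj_int (x : ℝ) (k : ℤ) : proj (ev (x + k)) = proj (ev x) := by
  funext i
  show ((x + k : ℝ) : UnitAddCircle) = (x : UnitAddCircle)
  rw [AddCircle.coe_add]
  have : ((k : ℝ) : UnitAddCircle) = 0 := (AddCircle.coe_eq_zero_iff (p := (1 : ℝ))).2 ⟨k, by simp⟩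
  rw [this, add_zero]

theorem proj_ev_eq {x y : ℝ} (h : proj (ev x) = proj (ev y)) : ∃ k : ℤ, x = y + k := by
  have h1 : ((x : ℝ) : UnitAddCircle) = (y : UnitAddCircle) := congrFun h 0
  have h2 : ((x - y : ℝ) : UnitAddCircle) = 0 := by
    rw [AddCircle.coe_sub, h1, sub_self]
  obtain ⟨k, hk⟩ := (AddCircle.coe_eq_zero_iff (p := (1 : ℝ))).1 h2
  refine ⟨k, ?_⟩
  have : (k : ℝ) = x - y := by simpa using hk
  linarith

theorem circle_eq {s t : ℝ} (h : (s : UnitAddCircle) = (t : UnitAddCircle)) :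
    ∃ k : ℤ, s = t + k := by
  have h2 : ((s - t : ℝ) : UnitAddCircle) = 0 := by
    rw [AddCircle.coe_sub, h, sub_self]
  obtain ⟨k, hk⟩ := (AddCircle.coe_eq_zero_iff (p := (1 : ℝ))).1 h2
  refine ⟨k, ?_⟩
  have : (k : ℝ) = s - t := by simpa using hk
  linarith

theorem proj_surj (z : Torus 1) : ∃ x : ℝ, proj (ev x) = z := by
  obtain ⟨x, hx⟩ := QuotientAddGroup.mk_surjective (z 0)
  refine ⟨x, ?_⟩
  funext i
  rw [Subsingleton.elim i 0]
  exact hx

theorem proj_coord (x : Vec 1) : proj (ev (x 0)) = proj x := by rw [ev_coord]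

theorem lft_perx (L : Torus 1 → Vec 1 → UnitAddCircle → ℝ) (x v t : ℝ) :
    lft L (x + 1) v t = lft L x v t := by
  unfold lft
  have := proj_int x 1
  rw [Int.cast_one] at this
  rw [this]

theorem lft_pert (L : Torus 1 → Vec 1 → UnitAddCircle → ℝ) (x v t : ℝ) :
    lft L x v (t + 1) = lft L x v t := by
  unfold lft
  rw [AddCircle.coe_add_period]

end Pool.Agent.NOne
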