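import Pool.Agent.NOne.AMz

/-! AAl. The function `α`: abstract interface, and its values. -/

set_option autoImplicit false

namespace Pool.Agent.NOne

open Set MeasureTheory

variable {L : ℝ → ℝ → ℝ → ℝ}

/-- what is used of Mather's function `al`: periodic orbits give lower bounds, bounds for all
solutions give
upper bounds -/
structure AlOK (L : ℝ → ℝ → ℝ → ℝ) (al : ℝ → ℝ) : Prop where
  ge : ∀ (q : ℕ) (p : ℤ) (X W : ℝ → ℝ), 0 < q → Sol L X W → (∀ t, X (t + q) = X t + p) →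
    ∀ c : ℝ, (c * p - act L X W 0 q) / q ≤ al c
  le : ∀ (q : ℕ) (κ C c : ℝ), 0 < q → (∀ X W : ℝ → ℝ, Sol L X W → ∀ n : ℕ,
    n * κ - C ≤ act L X W 0 (n * q) - c * (X (n * q) - X 0)) → al c ≤ -κ / q

/-- Proof. `exists_loop_some`. -/
theorem al_ge (hL : Ton L) {al : ℝ → ℝ} (h : AlOK L al) {q : ℕ} (hq : 0 < q) (p : ℤ) (c : ℝ) :
    (c * p - m0 L q p) / q ≤ al c := by
  obtain ⟨X, W, hl⟩ := exists_loop_some hL hq p
  have h1 := h.ge q p X W hq hl.sol hl.per c
  rw [hl.mn] at h1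
  exact h1

/-- Proof. `curve_ge` with `κ = m0 L q p - c p`, and `al_ge`. -/
theorem al_eq (hL : Ton L) {al : ℝ → ℝ} (h : AlOK L al) {q : ℕ} (hq : 0 < q) (p : ℤ) {c : ℝ}
    (hc : -bn L q p ≤ c) (hc' : c ≤ bq L q p) : al c = (c * p - m0 L q p) / q := by
  refine le_antisymm ?_ (al_ge hL h hq p c)
  obtain ⟨C, hC⟩ := curve_ge hL hq p hc hc'
  have h1 := h.le q (m0 L q p - c * p) C c hq (by
    intro X W hs n
    have hn : (0 : ℝ) ≤ (n : ℝ) * q := by positivity
    have h2 := hC n X W (sol_cv hs hn)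
    linarith)
  calc al c ≤ -(m0 L q p - c * p) / q := h1
    _ = (c * p - m0 L q p) / q := by ring

/-- Proof. `al` is affine on `[-bn, bq]`, and `bq + bn ≥ 0` (`bq_add_bn`). -/
theorem bq_add_bn_eq (hL : Ton L) {al : ℝ → ℝ} (h : AlOK L al) (hs : StrictConvexOn ℝ univ al)
    {q : ℕ} (hq : 0 < q) (p : ℤ) : bq L q p + bn L q p = 0 := by
  refine le_antisymm ?_ (bq_add_bn hL hq p)
  by_contra hcon
  have hlt : -bn L q p < bq L q p := by linarith
  have h1 := hs.2 (mem_univ (-bn L q p)) (mem_univ (bq L q p)) hlt.ne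
    (show (0 : ℝ) < 1 / 2 by norm_num) (show (0 : ℝ) < 1 / 2 by norm_num) (by norm_num)
  rw [smul_eq_mul, smul_eq_mul, smul_eq_mul, smul_eq_mul,
    al_eq hL h hq p le_rfl hlt.le, al_eq hL h hq p hlt.le le_rfl,
    al_eq hL h hq p (c := 1 / 2 * -bn L q p + 1 / 2 * bq L q p) (by linarith) (by linarith)] at h1
  have e : ((1 / 2 * -bn L q p + 1 / 2 * bq L q p) * p - m0 L q p) / q =
      1 / 2 * ((-bn L q p * p - m0 L q p) / q) + 1 / 2 * ((bq L q p * p - m0 L q p) / q) := by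
    ring
  rw [e] at h1
  exact lt_irrefl _ h1

end Pool.Agent.NOne
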