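import Pool.Agent.NOne.Defs

/-! AAna. Real-analytic functions `F x v t` of three variables: partial derivatives, chain rule. -/

set_option autoImplicit false

namespace Pool.Agent.NOne

open Set
open scoped ContDiff

variable {F G L : ℝ → ℝ → ℝ → ℝ}

private theorem ana_fd (h : Ana F) (z : ℝ × ℝ × ℝ) :
    HasFDerivAt (fun z : ℝ × ℝ × ℝ => F z.1 z.2.1 z.2.2)
      (fderiv ℝ (fun z : ℝ × ℝ × ℝ => F z.1 z.2.1 z.2.2) z) z :=
  (h z (mem_univ z)).differentiableAt.hasFDerivAt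

private theorem d1_eq (h : Ana F) (x v t : ℝ) :
    d1 F x v t = fderiv ℝ (fun z : ℝ × ℝ × ℝ => F z.1 z.2.1 z.2.2) (x, v, t) (1, 0, 0) := by
  have h1 : HasDerivAt (fun y : ℝ => ((y, v, t) : ℝ × ℝ × ℝ)) (1, 0, 0) x :=
    (hasDerivAt_id x).prodMk ((hasDerivAt_const x v).prodMk (hasDerivAt_const x t))
  exact ((ana_fd h (x, v, t)).comp_hasDerivAt x h1).deriv

private theorem d2_eq (h : Ana F) (x v t : ℝ) :
    d2 F x v t = fderiv ℝ (fun z : ℝ × ℝ × ℝ => F z.1 z.2.1 z.2.2) (x, v, t) (0, 1, 0) := by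
  have h1 : HasDerivAt (fun y : ℝ => ((x, y, t) : ℝ × ℝ × ℝ)) (0, 1, 0) v :=
    (hasDerivAt_const v x).prodMk ((hasDerivAt_id v).prodMk (hasDerivAt_const v t))
  exact ((ana_fd h (x, v, t)).comp_hasDerivAt v h1).deriv

private theorem d3_eq (h : Ana F) (x v t : ℝ) :
    d3 F x v t = fderiv ℝ (fun z : ℝ × ℝ × ℝ => F z.1 z.2.1 z.2.2) (x, v, t) (0, 0, 1) := by
  have h1 : HasDerivAt (fun y : ℝ => ((x, v, y) : ℝ × ℝ × ℝ)) (0, 0, 1) t :=
    (hasDerivAt_const t x).prodMk ((hasDerivAt_const t v).prodMk (hasDerivAt_id t))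
  exact ((ana_fd h (x, v, t)).comp_hasDerivAt t h1).deriv

private theorem ana_dir (h : Ana F) (e : ℝ × ℝ × ℝ) (D : ℝ → ℝ → ℝ → ℝ)
    (hD : ∀ z : ℝ × ℝ × ℝ, D z.1 z.2.1 z.2.2 =
      fderiv ℝ (fun z : ℝ × ℝ × ℝ => F z.1 z.2.1 z.2.2) z e) : Ana D := by
  have h1 : AnalyticOnNhd ℝ (fun z : ℝ × ℝ × ℝ =>
      (ContinuousLinearMap.apply ℝ ℝ e)
        (fderiv ℝ (fun z : ℝ × ℝ × ℝ => F z.1 z.2.1 z.2.2) z)) univ :=
    (ContinuousLinearMap.apply ℝ ℝ e).comp_analyticOnNhd h.fderiv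
  have h2 : (fun z : ℝ × ℝ × ℝ => D z.1 z.2.1 z.2.2) = fun z : ℝ × ℝ × ℝ =>
      (ContinuousLinearMap.apply ℝ ℝ e)
        (fderiv ℝ (fun z : ℝ × ℝ × ℝ => F z.1 z.2.1 z.2.2) z) := by
    funext z
    simp [hD]
  rw [Ana, h2]
  exact h1

private def bx (R : ℝ) : Set (ℝ × ℝ × ℝ) := Icc 0 1 ×ˢ (Icc (-R) R ×ˢ Icc 0 1)

private theorem cpt (R : ℝ) : IsCompact (bx R) :=
  isCompact_Icc.prod (isCompact_Icc.prod isCompact_Icc)

private theorem mem_bx {R : ℝ} (x t : ℝ) {v : ℝ} (hv : |v| ≤ R) :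
    ((Int.fract x, v, Int.fract t) : ℝ × ℝ × ℝ) ∈ bx R :=
  ⟨⟨Int.fract_nonneg x, (Int.fract_lt_one x).le⟩, abs_le.mp hv,
    ⟨Int.fract_nonneg t, (Int.fract_lt_one t).le⟩⟩

theorem ana_continuous (h : Ana F) : Continuous fun z : ℝ × ℝ × ℝ => F z.1 z.2.1 z.2.2 := by
  exact continuousOn_univ.mp h.continuousOn

theorem ana_contDiff (h : Ana F) (n : WithTop ℕ∞) :
    ContDiff ℝ n fun z : ℝ × ℝ × ℝ => F z.1 z.2.1 z.2.2 := by
  exact contDiffOn_univ.mp h.contDiffOn_of_completeSpace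

theorem ana_hd1 (h : Ana F) (x v t : ℝ) : HasDerivAt (fun y => F y v t) (d1 F x v t) x := by
  have h1 : HasDerivAt (fun y : ℝ => ((y, v, t) : ℝ × ℝ × ℝ)) (1, 0, 0) x :=
    (hasDerivAt_id x).prodMk ((hasDerivAt_const x v).prodMk (hasDerivAt_const x t))
  exact ((ana_fd h (x, v, t)).comp_hasDerivAt x h1).differentiableAt.hasDerivAt

theorem ana_hd2 (h : Ana F) (x v t : ℝ) : HasDerivAt (fun w => F x w t) (d2 F x v t) v := by
  have h1 : HasDerivAt (fun y : ℝ => ((x, y, t) : ℝ × ℝ × ℝ)) (0, 1, 0) v :=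
    (hasDerivAt_const v x).prodMk ((hasDerivAt_id v).prodMk (hasDerivAt_const v t))
  exact ((ana_fd h (x, v, t)).comp_hasDerivAt v h1).differentiableAt.hasDerivAt

theorem ana_hd3 (h : Ana F) (x v t : ℝ) : HasDerivAt (fun s => F x v s) (d3 F x v t) t := by
  have h1 : HasDerivAt (fun y : ℝ => ((x, v, y) : ℝ × ℝ × ℝ)) (0, 0, 1) t :=
    (hasDerivAt_const t x).prodMk ((hasDerivAt_const t v).prodMk (hasDerivAt_id t))
  exact ((ana_fd h (x, v, t)).comp_hasDerivAt t h1).differentiableAt.hasDerivAt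

/-- Proof. `d1 F x v t = fderiv ℝ (uncurried F) (x, v, t) (1, 0, 0)`, and `AnalyticOnNhd.fderiv`. -/
theorem ana_d1 (h : Ana F) : Ana (d1 F) := by
  exact ana_dir h (1, 0, 0) (d1 F) fun z => d1_eq h z.1 z.2.1 z.2.2

theorem ana_d2 (h : Ana F) : Ana (d2 F) := by
  exact ana_dir h (0, 1, 0) (d2 F) fun z => d2_eq h z.1 z.2.1 z.2.2

theorem ana_d3 (h : Ana F) : Ana (d3 F) := by
  exact ana_dir h (0, 0, 1) (d3 F) fun z => d3_eq h z.1 z.2.1 z.2.2

/-- The chain rule with all three variables. -/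
theorem ana_chain (h : Ana F) {X V T : ℝ → ℝ} {X' V' T' t : ℝ} (hX : HasDerivAt X X' t)
    (hV : HasDerivAt V V' t) (hT : HasDerivAt T T' t) :
    HasDerivAt (fun s => F (X s) (V s) (T s))
      (d1 F (X t) (V t) (T t) * X' + d2 F (X t) (V t) (T t) * V' + d3 F (X t) (V t) (T t) * T')
      t := by
  have h1 := (ana_fd h (X t, V t, T t)).comp_hasDerivAt_of_eq t (hX.prodMk (hV.prodMk hT)) rfl
  have h3 : d1 F (X t) (V t) (T t) * X' + d2 F (X t) (V t) (T t) * V' + d3 F (X t) (V t) (T t) * T'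
      = (fderiv ℝ (fun z : ℝ × ℝ × ℝ => F z.1 z.2.1 z.2.2) (X t, V t, T t)) (X', V', T') := by
    have h2 : ((X', V', T') : ℝ × ℝ × ℝ) = X' • ((1, 0, 0) : ℝ × ℝ × ℝ)
        + V' • ((0, 1, 0) : ℝ × ℝ × ℝ) + T' • ((0, 0, 1) : ℝ × ℝ × ℝ) := by
      simp
    rw [h2, map_add, map_add, map_smul, map_smul, map_smul, d1_eq h, d2_eq h, d3_eq h]
    simp only [smul_eq_mul]
    ring
  rw [h3]
  exact h1

/-- Proof. `acc` is a quotient of analytic functions, the denominator is positive. -/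
theorem acc_ana (hL : Ton L) : Ana (acc L) := by
  have h1 : AnalyticOnNhd ℝ (fun z : ℝ × ℝ × ℝ => z.2.1) univ :=
    ((ContinuousLinearMap.fst ℝ ℝ ℝ).comp (ContinuousLinearMap.snd ℝ ℝ (ℝ × ℝ))).analyticOnNhd univ
  have h2 := ana_d2 hL.ana
  exact (((ana_d1 hL.ana).sub (h1.mul (ana_d1 h2))).sub (ana_d3 h2)).div (ana_d2 h2)
    fun z _ => (hL.conv z.1 z.2.1 z.2.2).ne'

theorem per_d1 (h : ∀ x v t, F (x + 1) v t = F x v t) (x v t : ℝ) :
    d1 F (x + 1) v t = d1 F x v t := by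
  have h1 : deriv (fun y => F (y + 1) v t) x = deriv (fun y => F y v t) (x + 1) :=
    deriv_comp_add_const (fun y => F y v t) 1 x
  rw [d1, d1, ← h1]
  simp only [h]

theorem per_d2 (h : ∀ x v t, F (x + 1) v t = F x v t) (x v t : ℝ) :
    d2 F (x + 1) v t = d2 F x v t := by
  simp only [d2, h]

theorem per_d3 (h : ∀ x v t, F (x + 1) v t = F x v t) (x v t : ℝ) :
    d3 F (x + 1) v t = d3 F x v t := by
  simp only [d3, h]

theorem pet_d1 (h : ∀ x v t, F x v (t + 1) = F x v t) (x v t : ℝ) :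
    d1 F x v (t + 1) = d1 F x v t := by
  simp only [d1, h]

theorem pet_d2 (h : ∀ x v t, F x v (t + 1) = F x v t) (x v t : ℝ) :
    d2 F x v (t + 1) = d2 F x v t := by
  simp only [d2, h]

theorem pet_d3 (h : ∀ x v t, F x v (t + 1) = F x v t) (x v t : ℝ) :
    d3 F x v (t + 1) = d3 F x v t := by
  have h1 : deriv (fun y => F x v (y + 1)) t = deriv (fun y => F x v y) (t + 1) :=
    deriv_comp_add_const (fun y => F x v y) 1 t
  rw [d3, d3, ← h1]
  simp only [h]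

theorem acc_perx (hL : Ton L) (x v t : ℝ) : acc L (x + 1) v t = acc L x v t := by
  have h2 := per_d2 hL.perx
  rw [acc, acc, per_d1 hL.perx, per_d1 h2, per_d3 h2, per_d2 h2]

theorem acc_pert (hL : Ton L) (x v t : ℝ) : acc L x v (t + 1) = acc L x v t := by
  have h2 := pet_d2 hL.pert
  rw [acc, acc, pet_d1 hL.pert, pet_d1 h2, pet_d3 h2, pet_d2 h2]

theorem per_int (h : ∀ x v t, F (x + 1) v t = F x v t) (x v t : ℝ) (k : ℤ) :
    F (x + k) v t = F x v t := by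
  have h1 : Function.Periodic (fun y => F y v t) 1 := fun y => h y v t
  have h2 := h1.int_mul k x
  simpa using h2

theorem pet_int (h : ∀ x v t, F x v (t + 1) = F x v t) (x v t : ℝ) (k : ℤ) :
    F x v (t + k) = F x v t := by
  have h1 : Function.Periodic (fun y => F x v y) 1 := fun y => h x v y
  have h2 := h1.int_mul k t
  simpa using h2

private theorem fr_eq (hx : ∀ x v t, F (x + 1) v t = F x v t)
    (ht : ∀ x v t, F x v (t + 1) = F x v t) (x v t : ℝ) :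
    F x v t = F (Int.fract x) v (Int.fract t) := by
  conv_lhs => rw [← Int.fract_add_floor x, ← Int.fract_add_floor t]
  rw [per_int hx, pet_int ht]

/-- Proof. Compactness of `[0, 1] × [-R, R] × [0, 1]` and `Int.fract`. -/
theorem ana_bdd (h : Ana F) (hx : ∀ x v t, F (x + 1) v t = F x v t)
    (ht : ∀ x v t, F x v (t + 1) = F x v t) (R : ℝ) :
    ∃ C : ℝ, 0 ≤ C ∧ ∀ x v t : ℝ, |v| ≤ R → |F x v t| ≤ C := by
  obtain ⟨C, hC⟩ := (cpt R).exists_bound_of_continuousOn (ana_continuous h).continuousOn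
  refine ⟨max C 0, le_max_right _ _, fun x v t hv => ?_⟩
  rw [fr_eq hx ht x v t]
  exact (hC (Int.fract x, v, Int.fract t) (mem_bx x t hv)).trans (le_max_left _ _)

/-- Proof. The same, a positive continuous function has a positive minimum. -/
theorem conv_min (hL : Ton L) (R : ℝ) :
    ∃ c : ℝ, 0 < c ∧ ∀ x v t : ℝ, |v| ≤ R → c ≤ d2 (d2 L) x v t := by
  have h2 := ana_d2 (ana_d2 hL.ana)
  rcases lt_or_ge R 0 with hR | hR
  · exact ⟨1, one_pos, fun x v t hv => absurd ((abs_nonneg v).trans hv) (not_le.mpr hR)⟩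
  · have hne : (bx R).Nonempty := ⟨(0, 0, 0), by
      refine ⟨⟨le_rfl, zero_le_one⟩, ⟨by simpa using hR, hR⟩, ⟨le_rfl, zero_le_one⟩⟩⟩
    obtain ⟨z, hz, hm⟩ := (cpt R).exists_isMinOn hne (ana_continuous h2).continuousOn
    refine ⟨d2 (d2 L) z.1 z.2.1 z.2.2, hL.conv _ _ _, fun x v t hv => ?_⟩
    rw [fr_eq (per_d2 (per_d2 hL.perx)) (pet_d2 (pet_d2 hL.pert)) x v t]
    exact hm (mem_bx x t hv)

/-- Proof. `d2 (d2 L) > 0`. -/
theorem d2_strictMono (hL : Ton L) (x t : ℝ) : StrictMono fun v => d2 L x v t := by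
  exact strictMono_of_deriv_pos fun v => hL.conv x v t

end Pool.Agent.NOne
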