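import Pool.Agent.NOne.AFlow
import Pool.Agent.NOne.BFlow

/-! AAut. The autonomous flow on `(x, v, t)`: analyticity. -/

set_option autoImplicit false

namespace Pool.Agent.NOne

open Set

variable {L : ℝ → ℝ → ℝ → ℝ} {X W : ℝ → ℝ}

open Classical in
/-- the state at time `t + s` of the solution with state `(x, v)` at time `t`; `z = (x, v, t)` -/
noncomputable def AF (L : ℝ → ℝ → ℝ → ℝ) (s : ℝ) (z : ℝ × ℝ × ℝ) : ℝ × ℝ × ℝ :=
  if h : ∃ X W : ℝ → ℝ, Sol L X W ∧ X z.2.2 = z.1 ∧ W z.2.2 = z.2.1 then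
    (h.choose (z.2.2 + s), h.choose_spec.choose (z.2.2 + s), z.2.2 + s) else z

/-- Proof. `hL.compl`, uniqueness (`sol_uniq`). -/
theorem af_sol (hL : Ton L) (h : Sol L X W) (t s : ℝ) :
    AF L s (X t, W t, t) = (X (t + s), W (t + s), t + s) := by
  have he : ∃ X' W' : ℝ → ℝ, Sol L X' W' ∧ X' ((X t, W t, t) : ℝ × ℝ × ℝ).2.2 =
      ((X t, W t, t) : ℝ × ℝ × ℝ).1 ∧ W' ((X t, W t, t) : ℝ × ℝ × ℝ).2.2 =
      ((X t, W t, t) : ℝ × ℝ × ℝ).2.1 := ⟨X, W, h, rfl, rfl⟩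
  unfold AF
  rw [dif_pos he]
  obtain ⟨h1, h2, h3⟩ := he.choose_spec.choose_spec
  obtain ⟨e1, e2⟩ := sol_uniq hL h1 h h2 h3
  exact Prod.ext (congrFun e1 (t + s)) (Prod.ext (congrFun e2 (t + s)) rfl)

private theorem af_ex (hL : Ton L) (z : ℝ × ℝ × ℝ) : ∃ X W : ℝ → ℝ, Sol L X W ∧
    ∀ s, AF L s z = (X (z.2.2 + s), W (z.2.2 + s), z.2.2 + s) := by
  obtain ⟨X, W, h, hx, hw⟩ := hL.compl z.2.2 z.1 z.2.1
  refine ⟨X, W, h, fun s => ?_⟩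
  have h1 := af_sol hL h z.2.2 s
  rw [hx, hw] at h1
  exact h1

theorem af_zero (hL : Ton L) (z : ℝ × ℝ × ℝ) : AF L 0 z = z := by
  obtain ⟨X, W, h, hx, hw⟩ := hL.compl z.2.2 z.1 z.2.1
  have h1 := af_sol hL h z.2.2 0
  rw [add_zero, hx, hw] at h1
  exact h1

theorem af_deriv (hL : Ton L) (z : ℝ × ℝ × ℝ) (s : ℝ) :
    HasDerivAt (fun s => AF L s z)
      ((AF L s z).2.1, acc L (AF L s z).1 (AF L s z).2.1 (AF L s z).2.2, 1) s := by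
  obtain ⟨X, W, h, hz⟩ := af_ex hL z
  have e : (fun s => AF L s z) = fun s => (X (z.2.2 + s), W (z.2.2 + s), z.2.2 + s) := funext hz
  rw [e, hz s]
  have h1 := (h.pos (z.2.2 + s)).comp_const_add z.2.2 s
  have h2 := (h.vel (z.2.2 + s)).comp_const_add z.2.2 s
  have h3 : HasDerivAt (fun s : ℝ => z.2.2 + s) 1 s := (hasDerivAt_id s).const_add z.2.2
  exact h1.prodMk (h2.prodMk h3)

/-- Proof. `flow_analytic` for `F (x, v, t) = (v, acc L x v t, 1)`. -/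
theorem af_analytic (hL : Ton L) :
    AnalyticOnNhd ℝ (fun p : ℝ × ℝ × ℝ × ℝ => AF L p.1 p.2) univ := by
  refine flow_analytic (E := ℝ × ℝ × ℝ) (fun z => (z.2.1, acc L z.1 z.2.1 z.2.2, 1)) ?_ (AF L)
    (af_zero hL) (af_deriv hL)
  intro z _
  have h1 : AnalyticAt ℝ (fun z : ℝ × ℝ × ℝ => z.2.1) z :=
    analyticAt_fst.comp analyticAt_snd
  have h2 : AnalyticAt ℝ (fun z : ℝ × ℝ × ℝ => acc L z.1 z.2.1 z.2.2) z :=
    acc_ana hL z (mem_univ z)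
  exact h1.prod (h2.prod analyticAt_const)

/-- `FX L t x v = (AF L t (x, v, 0)).1`. -/
theorem fx_af (hL : Ton L) (t x v : ℝ) : AF L t (x, v, 0) = (FX L t x v, FW L t x v, t) := by
  have h := af_sol hL (fx_sol hL x v) 0 t
  rw [zero_add, fx_zero hL, fw_zero hL] at h
  exact h

private theorem ana_af0 (hL : Ton L) :
    AnalyticOnNhd ℝ (fun z : ℝ × ℝ × ℝ => AF L z.1 (z.2.1, z.2.2, 0)) univ := by
  intro z _
  have h1 : AnalyticAt ℝ (fun z : ℝ × ℝ × ℝ => ((z.1, z.2.1, z.2.2, 0) : ℝ × ℝ × ℝ × ℝ)) z :=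
    analyticAt_fst.prod ((analyticAt_fst.comp analyticAt_snd).prod
      ((analyticAt_snd.comp analyticAt_snd).prod analyticAt_const))
  exact AnalyticAt.comp (g := fun p : ℝ × ℝ × ℝ × ℝ => AF L p.1 p.2)
    (f := fun z : ℝ × ℝ × ℝ => ((z.1, z.2.1, z.2.2, 0) : ℝ × ℝ × ℝ × ℝ))
    (af_analytic hL (z.1, z.2.1, z.2.2, 0) (mem_univ _)) h1

theorem ana_fx (hL : Ton L) : AnalyticOnNhd ℝ (fun z : ℝ × ℝ × ℝ => FX L z.1 z.2.1 z.2.2) univ := by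
  have e : (fun z : ℝ × ℝ × ℝ => FX L z.1 z.2.1 z.2.2) =
      fun z => (AF L z.1 (z.2.1, z.2.2, 0)).1 := by
    funext z
    rw [fx_af hL]
  rw [e]
  exact fun z hz => analyticAt_fst.comp (ana_af0 hL z hz)

theorem ana_fw (hL : Ton L) : AnalyticOnNhd ℝ (fun z : ℝ × ℝ × ℝ => FW L z.1 z.2.1 z.2.2) univ := by
  have e : (fun z : ℝ × ℝ × ℝ => FW L z.1 z.2.1 z.2.2) =
      fun z => (AF L z.1 (z.2.1, z.2.2, 0)).2.1 := by
    funext z
    rw [fx_af hL]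
  rw [e]
  exact fun z hz => (analyticAt_fst.comp analyticAt_snd).comp (ana_af0 hL z hz)

theorem cont_fx (hL : Ton L) : Continuous fun z : ℝ × ℝ × ℝ => FX L z.1 z.2.1 z.2.2 :=
  continuousOn_univ.1 (ana_fx hL).continuousOn

theorem cont_fw (hL : Ton L) : Continuous fun z : ℝ × ℝ × ℝ => FW L z.1 z.2.1 z.2.2 :=
  continuousOn_univ.1 (ana_fw hL).continuousOn

end Pool.Agent.NOne
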