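import Mathlib

/-!
# Discrete Aubry-Mather theory (Part A of MP_74f563_an, n = 1): definitions

`m x y` is the minimal action of the curves from `x` (time `0`) to `y` (time `1`).
The `AT` files use only Mathlib.
-/

set_option autoImplicit false

namespace Pool.Agent.NOne

open Finset

/-- the properties of the minimal action: continuity, periodicity, coercivity, crossing -/
structure Tw (m : ℝ → ℝ → ℝ) : Prop where
  cont : Continuous fun z : ℝ × ℝ => m z.1 z.2
  per : ∀ x y, m (x + 1) (y + 1) = m x y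
  coer : ∀ B : ℝ, ∃ C : ℝ, ∀ x y, B * |y - x| - C ≤ m x y
  cross : ∀ x y X Y : ℝ, (x - y) * (X - Y) ≤ 0 → m x Y + m y X ≤ m x X + m y Y
  strict : ∀ x y X Y : ℝ, x < y → Y < X → m x Y + m y X < m x X + m y Y

/-- `a` is the action of a path with `n` steps from `x` to `y` -/
def Rch (m : ℝ → ℝ → ℝ) (n : ℕ) (x y a : ℝ) : Prop :=
  ∃ z : ℕ → ℝ, z 0 = x ∧ z n = y ∧ ∑ i ∈ range n, m (z i) (z (i + 1)) = a

/-- `x` is of type `(N, j)` -/
def Ty (N : ℕ) (j : ℤ) (x : ℤ → ℝ) : Prop := ∀ i : ℤ, x (i + N) = x i + j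

/-- the action of the `n` steps of `x` which begin at the index `i` -/
noncomputable def sga (m : ℝ → ℝ → ℝ) (x : ℤ → ℝ) (i : ℤ) (n : ℕ) : ℝ :=
  ∑ s ∈ range n, m (x (i + s)) (x (i + s + 1))

/-- the minimal action of the paths with `N` steps which end at `x + j` if they begin at `x` -/
noncomputable def MM (m : ℝ → ℝ → ℝ) (N : ℕ) (j : ℤ) : ℝ := sInf {a | ∃ x : ℝ, Rch m N x (x + j) a}

/-- minimal sequences of type `(N, j)` -/
structure IsMin (m : ℝ → ℝ → ℝ) (N : ℕ) (j : ℤ) (x : ℤ → ℝ) : Prop where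
  ty : Ty N j x
  mn : ∀ i : ℤ, sga m x i N = MM m N j

/-- the slope of the minimal action to the right of the rotation number `0` -/
noncomputable def bp (m : ℝ → ℝ → ℝ) : ℝ :=
  sInf {b | ∃ N : ℕ, 0 < N ∧ b = MM m N 1 - N * MM m 1 0}

/-- the slope of the minimal action to the left of the rotation number `0` -/
noncomputable def bm (m : ℝ → ℝ → ℝ) : ℝ :=
  sInf {b | ∃ N : ℕ, 0 < N ∧ b = MM m N (-1) - N * MM m 1 0}

end Pool.Agent.NOne
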