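import Pool.Agent.NOne.AVm
import Pool.Agent.NOne.ATDefs

/-! ACr. Corners and crossing. -/

set_option autoImplicit false

namespace Pool.Agent.NOne

open Set MeasureTheory

variable {L : ℝ → ℝ → ℝ → ℝ} {X W X' W' : ℝ → ℝ}

/-- a quadratic inequality with both signs -/
private theorem quad_zero {C D : ℝ} (hC : 0 ≤ C) (h : ∀ e : ℝ, |e| ≤ 1 → 0 ≤ e * D + C * e ^ 2) :
    D = 0 := by
  have hS : 0 < C + |D| + 1 := by positivity
  have h1 : |(-D / (2 * (C + |D| + 1)))| ≤ 1 := by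
    rw [abs_div, abs_neg, abs_of_pos (by positivity : (0 : ℝ) < 2 * (C + |D| + 1)),
      div_le_one (by positivity)]
    have := abs_nonneg D
    linarith
  have h2 := h _ h1
  have h3 : -D / (2 * (C + |D| + 1)) * D + C * (-D / (2 * (C + |D| + 1))) ^ 2 =
      (D ^ 2 * (C - 2 * (C + |D| + 1))) / (4 * (C + |D| + 1) ^ 2) := by
    field_simp
    ring
  rw [h3] at h2
  by_contra hD
  have h4 : 0 < D ^ 2 := by positivity
  have h5 : C - 2 * (C + |D| + 1) < 0 := by
    have := abs_nonneg D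
    linarith
  have h6 : (D ^ 2 * (C - 2 * (C + |D| + 1))) / (4 * (C + |D| + 1) ^ 2) < 0 :=
    div_neg_of_neg_of_pos (mul_neg_of_pos_of_neg h4 h5) (by positivity)
  linarith

/-- composition of two solutions -/
private theorem glue_sol (hL : Ton L) {t₀ T : ℝ} (h0 : 0 ≤ t₀) (h1 : t₀ ≤ T) (h : Sol L X W)
    (h' : Sol L X' W') (hX : X t₀ = X' t₀) : ∃ z u : ℝ → ℝ, Cv z u 0 T ∧ z 0 = X 0 ∧
      z T = X' T ∧ act L z u 0 T = act L X W 0 t₀ + act L X' W' t₀ T := by
  obtain ⟨y, w, hc, e1, e2, -, -, ha⟩ := cv_glue hL (sol_cv h h0) (sol_cv h' h1) hX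
  exact ⟨y, w, hc, e1 0 ⟨le_refl _, h0⟩, e2 T ⟨h1, le_refl _⟩, ha⟩

/-- **Corner lemma.** A minimal curve composed of two solutions has no corner. Proof. For small `e`
(both signs) take the curve
`X` on `[0, t₀ - h]`, `X + e (affine 0 → 1)` on `[t₀ - h, t₀]`, `X' + e (affine 1 → 0)` on
`[t₀, t₀ + h]`, `X'` on
`[t₀ + h, T]` (`cv_glue`, `h = min t₀ (T - t₀) / 2`, or simply `h = t₀` resp. `T - t₀`: affine
variations on the whole
intervals `[0, t₀]` and `[t₀, T]`); `first_var` gives `0 ≤ e (P - P') + C e²`,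
`P = d2 L (X t₀) (W t₀) t₀`. -/
theorem corner_eq (hL : Ton L) {t₀ T : ℝ} (h0 : 0 < t₀) (h1 : t₀ < T) (h : Sol L X W)
    (h' : Sol L X' W') (hX : X t₀ = X' t₀)
    (hm : ∀ z u : ℝ → ℝ, Cv z u 0 T → z 0 = X 0 → z T = X' T →
      act L X W 0 t₀ + act L X' W' t₀ T ≤ act L z u 0 T) : W t₀ = W' t₀ := by
  obtain ⟨M₁, hM₁⟩ := (isCompact_Icc (a := (0 : ℝ)) (b := t₀)).exists_bound_of_continuousOn
    (sol_cont h).2.continuousOn
  obtain ⟨M₂, hM₂⟩ := (isCompact_Icc (a := t₀) (b := T)).exists_bound_of_continuousOn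
    (sol_cont h').2.continuousOn
  have hT : 0 < T - t₀ := sub_pos.2 h1
  obtain ⟨C, hC, hv⟩ := first_var hL (max M₁ M₂) (max (1 / t₀) (1 / (T - t₀))) T
  have key : ∀ e : ℝ, |e| ≤ 1 → 0 ≤ e * (d2 L (X t₀) (W t₀) t₀ - d2 L (X' t₀) (W' t₀) t₀) +
      (2 * C) * e ^ 2 := by
    intro e he
    have k1 := hv X W h 0 t₀ h0.le (by linarith) (fun t ht => (hM₁ t ht).trans (le_max_left _ _))
      0 (1 / t₀) (by rw [abs_of_pos (by positivity)]; exact le_max_left _ _) (by
        intro t ht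
        rw [zero_add, sub_zero, one_div_mul_eq_div, abs_of_nonneg (div_nonneg ht.1 h0.le)]
        exact (div_le_one h0).2 ht.2) e he
    have k2 := hv X' W' h' t₀ T h1.le (by linarith)
      (fun t ht => (hM₂ t ht).trans (le_max_right _ _))
      1 (-(1 / (T - t₀))) (by
        rw [abs_neg, abs_of_pos (by positivity)]
        exact le_max_right _ _) (by
        intro t ht
        have h3 : 1 + -(1 / (T - t₀)) * (t - t₀) = (T - t) / (T - t₀) := by
          field_simp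
          ring
        rw [h3, abs_of_nonneg (div_nonneg (sub_nonneg.2 ht.2) hT.le)]
        exact (div_le_one hT).2 (by linarith [ht.1])) e he
    obtain ⟨z, u, hz, e1, e2, -, -, ha⟩ := cv_glue hL
      (var_cv h h0.le 0 (1 / t₀) e) (var_cv h' h1.le 1 (-(1 / (T - t₀))) e) (by
        rw [hX, sub_zero, sub_self, mul_zero, add_zero, zero_add, one_div_mul_cancel h0.ne'])
    have k3 := hm z u hz (by
        rw [e1 0 ⟨le_refl _, h0.le⟩]
        ring) (by
        rw [e2 T ⟨h1.le, le_refl _⟩, neg_mul, one_div_mul_cancel hT.ne']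
        ring)
    rw [ha] at k3
    have h4 : (0 : ℝ) + 1 / t₀ * (t₀ - 0) = 1 := by
      rw [sub_zero, zero_add, one_div_mul_cancel h0.ne']
    have h5 : (1 : ℝ) + -(1 / (T - t₀)) * (T - t₀) = 0 := by
      rw [neg_mul, one_div_mul_cancel hT.ne', add_neg_cancel]
    rw [h4] at k1
    rw [h5] at k2
    linarith
  have h3 := quad_zero (mul_nonneg zero_le_two hC) key
  rw [← hX] at h3
  exact sol_mom_eq hL (sub_eq_zero.1 h3)

/-- **Exchange.** Two solutions which meet at the time `t₀`: the sum of the actions of the two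
exchanged curves is the sum
of the actions. (Bookkeeping: `act_add`, `cv_glue`.) If both exchanged curves are not shorter than
minimal curves with the sum
`A`, then both are minimal. Here: lower bounds `m₁`, `m₂` for the curves with the exchanged ends,
`m₁ + m₂ ≥ A`. -/
theorem exchange (hL : Ton L) {t₀ T : ℝ} (h0 : 0 < t₀) (h1 : t₀ < T) (h : Sol L X W)
    (h' : Sol L X' W') (hX : X t₀ = X' t₀) {m₁ m₂ : ℝ}
    (hm₁ : ∀ z u : ℝ → ℝ, Cv z u 0 T → z 0 = X 0 → z T = X' T → m₁ ≤ act L z u 0 T)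
    (hm₂ : ∀ z u : ℝ → ℝ, Cv z u 0 T → z 0 = X' 0 → z T = X T → m₂ ≤ act L z u 0 T)
    (hA : act L X W 0 T + act L X' W' 0 T ≤ m₁ + m₂) : X = X' ∧ W = W' := by
  obtain ⟨z, u, hz, z0, zT, za⟩ := glue_sol hL h0.le h1.le h h' hX
  obtain ⟨z', u', hz', z0', zT', za'⟩ := glue_sol hL h0.le h1.le h' h hX.symm
  have k1 := hm₁ z u hz z0 zT
  have k2 := hm₂ z' u' hz' z0' zT'
  have k3 := act_add hL (sol_cv h (h0.le.trans h1.le)) h0.le h1.le
  have k4 := act_add hL (sol_cv h' (h0.le.trans h1.le)) h0.le h1.le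
  rw [za] at k1
  rw [za'] at k2
  have k5 : act L X W 0 t₀ + act L X' W' t₀ T ≤ m₁ := by linarith
  exact sol_uniq hL h h' hX (corner_eq hL h0 h1 h h' hX fun w v hw w0 wT =>
    k5.trans (hm₁ w v hw w0 wT))

/-- Proof. Trivial if `x = y` or `X = Y`. Otherwise the minimal arcs `x → X`, `y → Y`
(`exists_arc`) meet at some
`t₀ ∈ (0, 1)` (intermediate value theorem); exchange the ends (`cv_glue`, `act_add`, `mm_le`). -/
theorem mm_cross (hL : Ton L) (x y X Y : ℝ) (h : (x - y) * (X - Y) ≤ 0) :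
    mm L x Y + mm L y X ≤ mm L x X + mm L y Y := by
  obtain ⟨P, U, hP⟩ := exists_arc hL x X
  obtain ⟨Q, V, hQ⟩ := exists_arc hL y Y
  have hc : ContinuousOn (fun t => P t - Q t) (Icc 0 1) :=
    ((sol_cont hP.sol).1.sub (sol_cont hQ.sol).1).continuousOn
  obtain ⟨t₀, ht, h0⟩ : ∃ t₀ ∈ Icc (0 : ℝ) 1, P t₀ - Q t₀ = 0 := by
    rcases mul_nonpos_iff.1 h with h1 | h1
    · have h2 := intermediate_value_Icc' zero_le_one hc
      have h3 : (0 : ℝ) ∈ Icc (P 1 - Q 1) (P 0 - Q 0) := by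
        rw [hP.st, hP.en, hQ.st, hQ.en]
        exact ⟨h1.2, h1.1⟩
      exact h2 h3
    · have h2 := intermediate_value_Icc zero_le_one hc
      have h3 : (0 : ℝ) ∈ Icc (P 0 - Q 0) (P 1 - Q 1) := by
        rw [hP.st, hP.en, hQ.st, hQ.en]
        exact ⟨h1.1, h1.2⟩
      exact h2 h3
  have h0' : P t₀ = Q t₀ := sub_eq_zero.1 h0
  obtain ⟨z, u, hz, z0, zT, za⟩ := glue_sol hL ht.1 ht.2 hP.sol hQ.sol h0'
  obtain ⟨z', u', hz', z0', zT', za'⟩ := glue_sol hL ht.1 ht.2 hQ.sol hP.sol h0'.symm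
  have k1 := mm_le hL hz
  have k2 := mm_le hL hz'
  rw [z0, zT, za, hP.st, hQ.en] at k1
  rw [z0', zT', za', hQ.st, hP.en] at k2
  have k3 := act_add hL (sol_cv hP.sol zero_le_one) ht.1 ht.2
  have k4 := act_add hL (sol_cv hQ.sol zero_le_one) ht.1 ht.2
  rw [hP.mn] at k3
  rw [hQ.mn] at k4
  linarith

/-- Proof. In the case of equality `exchange` (with `m₁ = mm L x Y`, `m₂ = mm L y X`) shows that
the two arcs are
equal, but `x < y`. -/
theorem mm_strict (hL : Ton L) {x y X Y : ℝ} (h : x < y) (h' : Y < X) :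
    mm L x Y + mm L y X < mm L x X + mm L y Y := by
  by_contra hcon
  push Not at hcon
  obtain ⟨P, U, hP⟩ := exists_arc hL x X
  obtain ⟨Q, V, hQ⟩ := exists_arc hL y Y
  have hc : ContinuousOn (fun t => P t - Q t) (Icc 0 1) :=
    ((sol_cont hP.sol).1.sub (sol_cont hQ.sol).1).continuousOn
  obtain ⟨t₀, ht, h0⟩ : ∃ t₀ ∈ Ioo (0 : ℝ) 1, P t₀ - Q t₀ = 0 := by
    have h2 := intermediate_value_Ioo zero_le_one hc
    have h3 : (0 : ℝ) ∈ Ioo (P 0 - Q 0) (P 1 - Q 1) := by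
      rw [hP.st, hP.en, hQ.st, hQ.en]
      exact ⟨sub_neg.2 h, sub_pos.2 h'⟩
    exact h2 h3
  have h0' : P t₀ = Q t₀ := sub_eq_zero.1 h0
  have hE := exchange hL ht.1 ht.2 hP.sol hQ.sol h0' (m₁ := mm L x Y) (m₂ := mm L y X)
    (by
      intro z u hz z0 z1
      have k := mm_le hL hz
      rwa [z0, z1, hP.st, hQ.en] at k)
    (by
      intro z u hz z0 z1
      have k := mm_le hL hz
      rwa [z0, z1, hQ.st, hP.en] at k)
    (by rw [hP.mn, hQ.mn]; exact hcon)
  have h4 : P 0 = Q 0 := by rw [hE.1]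
  rw [hP.st, hQ.st] at h4
  exact absurd h4 h.ne

/-- The minimal action satisfies the hypotheses of the discrete theory. -/
theorem mm_tw (hL : Ton L) : Tw (mm L) where
  cont := mm_cont hL
  per := mm_per hL
  coer := mm_coer hL
  cross := mm_cross hL
  strict := fun _ _ _ _ h h' => mm_strict hL h h'

end Pool.Agent.NOne
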