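import Pool.Agent.NOne.ATay

/-! ASh. Short solution arcs: existence and minimality. -/

set_option autoImplicit false

namespace Pool.Agent.NOne

open Set MeasureTheory

variable {L : ℝ → ℝ → ℝ → ℝ}

private theorem sh_int {f : ℝ → ℝ} {a b M : ℝ} (hab : a ≤ b) (hf : Measurable f)
    (hM : ∀ t ∈ Icc a b, |f t| ≤ M) : IntervalIntegrable f volume a b := by
  rw [intervalIntegrable_iff_integrableOn_Icc_of_le hab]
  refine Measure.integrableOn_of_bounded (M := M) (by simp) hf.aestronglyMeasurable ?_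
  rw [ae_restrict_iff' measurableSet_Icc]
  exact Filter.Eventually.of_forall hM

private theorem sh_cs {f : ℝ → ℝ} {a b M : ℝ} (hab : a ≤ b) (hf : Measurable f)
    (hM : ∀ t ∈ Icc a b, |f t| ≤ M) :
    (∫ t in a..b, |f t|) ^ 2 ≤ (b - a) * ∫ t in a..b, f t ^ 2 := by
  rcases eq_or_lt_of_le hab with rfl | hlt
  · simp
  have h1 : IntervalIntegrable (fun t => |f t|) volume a b :=
    sh_int hab hf.abs (M := M) fun t ht => by
      rw [abs_abs]
      exact hM t ht
  have h2 : IntervalIntegrable (fun t => f t ^ 2) volume a b :=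
    sh_int hab (hf.pow_const 2) (M := M ^ 2) fun t ht => by
      rw [abs_pow]
      exact pow_le_pow_left₀ (abs_nonneg _) (hM t ht) 2
  set N := ∫ t in a..b, |f t| with hN
  set S := ∫ t in a..b, f t ^ 2 with hS
  set l := N / (b - a) with hl
  have h3 : 0 ≤ ∫ t in a..b, (f t ^ 2 - 2 * l * |f t| + l ^ 2) := by
    refine intervalIntegral.integral_nonneg hab fun t _ => ?_
    have h4 : f t ^ 2 - 2 * l * |f t| + l ^ 2 = (|f t| - l) ^ 2 := by
      rw [← sq_abs (f t)]
      ring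
    rw [h4]
    exact sq_nonneg _
  have h5 : ∫ t in a..b, (f t ^ 2 - 2 * l * |f t| + l ^ 2) = S - 2 * l * N + (b - a) * l ^ 2 := by
    rw [intervalIntegral.integral_add (h2.sub (h1.const_mul _)) intervalIntegrable_const,
      intervalIntegral.integral_sub h2 (h1.const_mul _), intervalIntegral.integral_const_mul,
      intervalIntegral.integral_const, smul_eq_mul]
  rw [h5] at h3
  have h6 : 0 < b - a := by linarith
  have h7 : (b - a) * l = N := by
    rw [hl]
    field_simp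
  have h8 : (b - a) * (S - 2 * l * N + (b - a) * l ^ 2) = (b - a) * S - N ^ 2 := by
    have h9 : (b - a) * (S - 2 * l * N + (b - a) * l ^ 2) =
        (b - a) * S - 2 * ((b - a) * l) * N + ((b - a) * l) ^ 2 := by ring
    rw [h9, h7]
    ring
  have h10 := mul_nonneg h6.le h3
  rw [h8] at h10
  linarith

/-- Proof. `taylor_conv` at `(X t, W t)` with `dx = z t - X t`, `dv = u t - W t`; integrate: the
linear terms give
`[d2 L (X t) (W t) t * (z t - X t)]_a^b = 0` (`sol_mom`, product rule off a countable set). With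
`S = ∫ (u - W)²`:
`|z t - X t| ≤ ∫ |u - W| ≤ sqrt ((b - a) S)` (Cauchy-Schwarz), so the difference of the actions is
at least
`(c - C (b - a) - C (b - a)²) S ≥ 0` for `b - a ≤ min 1 (c / (2 C + 1))`. -/
theorem short_min (hL : Ton L) (R : ℝ) : ∃ τ₀ : ℝ, 0 < τ₀ ∧ τ₀ ≤ 1 ∧ ∀ X W : ℝ → ℝ, Sol L X W →
    ∀ a b : ℝ, a ≤ b → b - a ≤ τ₀ → (∀ t ∈ Icc a b, |W t| ≤ R) → ∀ z u : ℝ → ℝ, Cv z u a b →
    (∀ t ∈ Icc a b, |u t| ≤ R) → z a = X a → z b = X b → act L X W a b ≤ act L z u a b := by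
  obtain ⟨c, C, hc, hC, hT⟩ := taylor_conv hL R
  refine ⟨min 1 (c / (2 * C + 1)), lt_min one_pos (by positivity), min_le_left _ _, ?_⟩
  intro X W hS a b hab hτ hW z u hz hu hza hzb
  have hτ1 : b - a ≤ 1 := hτ.trans (min_le_left _ _)
  have hτ2 : b - a ≤ c / (2 * C + 1) := hτ.trans (min_le_right _ _)
  obtain ⟨hXc, hWc⟩ := sol_cont hS
  have hX : Cv X W a b := sol_cv hS hab
  have hηm : Measurable fun t => u t - W t := hz.meas.sub hWc.measurable
  have hηb : ∀ t ∈ Icc a b, |u t - W t| ≤ 2 * R := fun t ht => by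
    have h1 := abs_sub (u t) (W t)
    linarith [hu t ht, hW t ht]
  have iη : IntervalIntegrable (fun t => u t - W t) volume a b := sh_int hab hηm hηb
  have iηa : IntervalIntegrable (fun t => |u t - W t|) volume a b :=
    sh_int hab hηm.abs (M := 2 * R) fun t ht => by
      rw [abs_abs]
      exact hηb t ht
  have iη2 : IntervalIntegrable (fun t => (u t - W t) ^ 2) volume a b :=
    sh_int hab (hηm.pow_const 2) (M := (2 * R) ^ 2) fun t ht => by
      rw [abs_pow]
      exact pow_le_pow_left₀ (abs_nonneg _) (hηb t ht) 2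
  obtain ⟨N, hN⟩ : ∃ N, N = ∫ t in a..b, |u t - W t| := ⟨_, rfl⟩
  obtain ⟨S, hSS⟩ : ∃ S, S = ∫ t in a..b, (u t - W t) ^ 2 := ⟨_, rfl⟩
  have hcs : N ^ 2 ≤ (b - a) * S := by
    rw [hN, hSS]
    exact sh_cs hab hηm hηb
  have hN0 : 0 ≤ N := by
    rw [hN]
    exact intervalIntegral.integral_nonneg hab fun t _ => abs_nonneg _
  have hS0 : 0 ≤ S := by
    rw [hSS]
    exact intervalIntegral.integral_nonneg hab fun t _ => sq_nonneg _
  have hδ : ∀ t ∈ Icc a b, |z t - X t| ≤ N := by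
    intro t ht
    have e1 := cv_ftc (cv_mono hz le_rfl ht.1 ht.2)
    have e2 := cv_ftc (cv_mono hX le_rfl ht.1 ht.2)
    have e3 : z t - X t = ∫ s in a..t, (u s - W s) := by
      rw [intervalIntegral.integral_sub (cv_int_vel (cv_mono hz le_rfl ht.1 ht.2))
        (cv_int_vel (cv_mono hX le_rfl ht.1 ht.2)), e1, e2, hza]
      ring
    rw [e3, hN]
    refine (intervalIntegral.abs_integral_le_integral_abs ht.1).trans ?_
    exact intervalIntegral.integral_mono_interval le_rfl ht.1 ht.2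
      (Filter.Eventually.of_forall fun s => abs_nonneg _) iηa
  have hXW : Continuous fun t => ((X t, W t, t) : ℝ × ℝ × ℝ) :=
    hXc.prodMk (hWc.prodMk continuous_id)
  have c1 : Continuous fun t => d1 L (X t) (W t) t :=
    (ana_continuous (ana_d1 hL.ana)).comp hXW
  have c2 : Continuous fun t => d2 L (X t) (W t) t :=
    (ana_continuous (ana_d2 hL.ana)).comp hXW
  have cδ : ContinuousOn (fun t => z t - X t) (Icc a b) := hz.cont.sub hXc.continuousOn
  have iG1 : IntervalIntegrable (fun t => d1 L (X t) (W t) t * (z t - X t)) volume a b := by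
    refine ContinuousOn.intervalIntegrable ?_
    rw [uIcc_of_le hab]
    exact c1.continuousOn.mul cδ
  have iG2 : IntervalIntegrable (fun t => d2 L (X t) (W t) t * (u t - W t)) volume a b :=
    iη.continuousOn_mul c2.continuousOn
  have hG : ∫ t in a..b, (d1 L (X t) (W t) t * (z t - X t) + d2 L (X t) (W t) t * (u t - W t)) =
      0 := by
    obtain ⟨A, hA, hd⟩ := hz.der
    rw [integral_eq_of_hasDerivAt_off_countable_of_le
      (fun t => d2 L (X t) (W t) t * (z t - X t)) _ hab hA (c2.continuousOn.mul cδ) ?_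
      (iG1.add iG2), hza, hzb]
    · simp
    · rintro t ⟨ht, htA⟩
      exact (sol_mom hL hS t).mul ((hd t ht htA).sub (hS.pos t))
  have iL1 := cv_int hL hX
  have iL2 := cv_int hL hz
  have hmono : ∫ t in a..b, (L (X t) (W t) t + (d1 L (X t) (W t) t * (z t - X t) +
      d2 L (X t) (W t) t * (u t - W t)) + c * (u t - W t) ^ 2 - C * N * |u t - W t| -
      C * N ^ 2) ≤ ∫ t in a..b, L (z t) (u t) t := by
    refine intervalIntegral.integral_mono_on hab ((((iL1.add (iG1.add iG2)).add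
      (iη2.const_mul c)).sub (iηa.const_mul (C * N))).sub intervalIntegrable_const) iL2
      fun t ht => ?_
    have h1 := hT (X t) (W t) t (z t - X t) (u t - W t) (hW t ht) (by
      rw [add_sub_cancel]
      exact hu t ht)
    rw [add_sub_cancel, add_sub_cancel] at h1
    have h2 := hδ t ht
    have h3 : C * |z t - X t| * |u t - W t| ≤ C * N * |u t - W t| :=
      mul_le_mul_of_nonneg_right (mul_le_mul_of_nonneg_left h2 hC) (abs_nonneg _)
    have h4 : C * (z t - X t) ^ 2 ≤ C * N ^ 2 := by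
      refine mul_le_mul_of_nonneg_left ?_ hC
      rw [← sq_abs (z t - X t)]
      exact pow_le_pow_left₀ (abs_nonneg _) h2 2
    linarith
  rw [intervalIntegral.integral_sub (((iL1.add (iG1.add iG2)).add
      (iη2.const_mul c)).sub (iηa.const_mul (C * N))) intervalIntegrable_const,
    intervalIntegral.integral_sub ((iL1.add (iG1.add iG2)).add (iη2.const_mul c))
      (iηa.const_mul (C * N)),
    intervalIntegral.integral_add (iL1.add (iG1.add iG2)) (iη2.const_mul c),
    intervalIntegral.integral_add iL1 (iG1.add iG2), hG,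
    intervalIntegral.integral_const_mul, intervalIntegral.integral_const_mul, ← hN, ← hSS,
    intervalIntegral.integral_const, smul_eq_mul] at hmono
  unfold act
  have h5 : (b - a) * (2 * C + 1) ≤ c := (le_div_iff₀ (by positivity)).1 hτ2
  have h6 : 0 ≤ b - a := by linarith
  have h7 : (b - a) * (C * N ^ 2) ≤ C * N ^ 2 := by
    have : 0 ≤ C * N ^ 2 := by positivity
    nlinarith
  have h8 : C * N ^ 2 ≤ C * ((b - a) * S) := mul_le_mul_of_nonneg_left hcs hC
  have h9 : (b - a) * (2 * C + 1) * S ≤ c * S := mul_le_mul_of_nonneg_right h5 hS0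
  have h10 : 0 ≤ (b - a) * S := mul_nonneg h6 hS0
  nlinarith

/-- Proof. `G` = bound of `acc L` on `|v| ≤ Ω (R + 1)` (`exists_omg`, `acc_ana`, `ana_bdd`),
`τ₀ ≤ 1 / (8 (G + 1))`. The
solution with `X a = x`, `W a = v`, `|v| ≤ R + 1/8` has `|W t - v| ≤ G τ ≤ 1/8` on `[a, b]`,
`τ = b - a`, so
`|X b - x - v τ| ≤ τ / 8`. `X b` is a continuous function of `v` (`cont_fx` for the translated
problem or `af_analytic`:
`X b = (AF L (b - a) (x, v, a)).1`); intermediate value theorem on `[-R - 1/8, R + 1/8]`. Then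
`|W t - (y - x) / τ| ≤ |W t - v| + |v - (y - x) / τ| ≤ 1/4`. -/
theorem short_ex (hL : Ton L) {R : ℝ} (hR : 1 ≤ R) : ∃ τ₀ : ℝ, 0 < τ₀ ∧ τ₀ ≤ 1 ∧
    ∀ a b : ℝ, a < b → b - a ≤ τ₀ → ∀ x y : ℝ, |y - x| ≤ R * (b - a) →
    ∃ X W : ℝ → ℝ, Sol L X W ∧ X a = x ∧ X b = y ∧
      ∀ t ∈ Icc a b, |W t - (y - x) / (b - a)| ≤ 1 / 4 := by
  obtain ⟨Ω, hΩ⟩ := exists_omg hL
  obtain ⟨G, hG0, hG⟩ := ana_bdd (acc_ana hL) (acc_perx hL) (acc_pert hL) (Ω (R + 1))
  have hG1 : (0 : ℝ) < 8 * (G + 1) := by positivity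
  have hτ8 : 1 / (8 * (G + 1)) ≤ 1 := by
    rw [div_le_one hG1]
    linarith
  refine ⟨1 / (8 * (G + 1)), by positivity, hτ8, ?_⟩
  intro a b hab hτ x y hxy
  have hτ0 : 0 < b - a := by linarith
  have hτ2 : (b - a) * (8 * (G + 1)) ≤ 1 := by
    rwa [le_div_iff₀ hG1] at hτ
  have hGτ : G * (b - a) ≤ 1 / 8 := by nlinarith
  have key : ∀ X W : ℝ → ℝ, Sol L X W → |W a| ≤ R + 1 / 8 →
      (∀ t ∈ Icc a b, |W t - W a| ≤ 1 / 8) ∧ |X b - X a - W a * (b - a)| ≤ (b - a) / 8 := by
    intro X W hS hW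
    have h1 : ∀ t ∈ Icc a b, |W t| ≤ Ω (R + 1) := fun t ht => by
      refine hΩ.bd X W hS a t (R + 1) (by linarith) ?_
      rw [abs_of_nonneg (by linarith [ht.1])]
      linarith [ht.2]
    have h2 : ∀ t ∈ Icc a b, |W t - W a| ≤ 1 / 8 := by
      intro t ht
      have h3 := (convex_Icc a b).norm_image_sub_le_of_norm_hasDerivWithin_le (f := W)
        (C := G) (fun s _ => (hS.vel s).hasDerivWithinAt) (fun s hs => by
          rw [Real.norm_eq_abs]
          exact hG _ _ _ (h1 s hs)) (left_mem_Icc.2 hab.le) ht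
      have h30 : 0 ≤ t - a := by linarith [ht.1]
      rw [Real.norm_eq_abs, Real.norm_eq_abs, abs_of_nonneg h30] at h3
      have h4 : G * (t - a) ≤ G * (b - a) :=
        mul_le_mul_of_nonneg_left (by linarith [ht.2]) hG0
      linarith
    refine ⟨h2, ?_⟩
    have h3 := (convex_Icc a b).norm_image_sub_le_of_norm_hasDerivWithin_le
      (f := fun t => X t - W a * t) (f' := fun t => W t - W a) (C := 1 / 8)
      (fun s _ => by
        have h4 := (hS.pos s).sub ((hasDerivAt_id s).const_mul (W a))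
        simp only [id_eq, mul_one] at h4
        exact h4.hasDerivWithinAt) (fun s hs => by
          rw [Real.norm_eq_abs]
          exact h2 s hs) (left_mem_Icc.2 hab.le) (right_mem_Icc.2 hab.le)
    rw [Real.norm_eq_abs, Real.norm_eq_abs, abs_of_nonneg hτ0.le] at h3
    have h5 : X b - W a * b - (X a - W a * a) = X b - X a - W a * (b - a) := by ring
    rw [h5] at h3
    linarith
  have hE : ∀ v : ℝ, |v| ≤ R + 1 / 8 →
      |(AF L (b - a) (x, v, a)).1 - x - v * (b - a)| ≤ (b - a) / 8 := by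
    intro v hv
    obtain ⟨X, W, hS, hX, hW⟩ := hL.compl a x v
    have h1 := af_sol hL hS a (b - a)
    rw [hX, hW, add_sub_cancel] at h1
    rw [h1]
    have h2 := (key X W hS (by rwa [hW])).2
    rw [hX, hW] at h2
    exact h2
  have hcont : Continuous fun v : ℝ => (AF L (b - a) (x, v, a)).1 := by
    have h1 : Continuous fun p : ℝ × ℝ × ℝ × ℝ => AF L p.1 p.2 :=
      continuousOn_univ.1 (af_analytic hL).continuousOn
    have h2 : Continuous fun v : ℝ => ((b - a, x, v, a) : ℝ × ℝ × ℝ × ℝ) := by fun_prop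
    exact (h1.comp h2).fst
  have hR0 : (0 : ℝ) ≤ R + 1 / 8 := by linarith
  have h1 := hE (R + 1 / 8) (by rw [abs_of_nonneg hR0])
  have h2 := hE (-(R + 1 / 8)) (by rw [abs_neg, abs_of_nonneg hR0])
  rw [abs_le] at h1 h2 hxy
  obtain ⟨v, hv, hvy⟩ := intermediate_value_Icc (by linarith : -(R + 1 / 8) ≤ R + 1 / 8)
    hcont.continuousOn (show y ∈ Icc _ _ from ⟨by nlinarith [h2.2, hxy.1], by
      nlinarith [h1.1, hxy.2]⟩)
  have hv' : |v| ≤ R + 1 / 8 := abs_le.2 hv
  obtain ⟨X, W, hS, hX, hW⟩ := hL.compl a x v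
  have h3 := af_sol hL hS a (b - a)
  rw [hX, hW, add_sub_cancel] at h3
  have h4 : X b = y := by
    rw [← hvy]
    simp only [h3]
  refine ⟨X, W, hS, hX, h4, fun t ht => ?_⟩
  obtain ⟨h5, h6⟩ := key X W hS (by rwa [hW])
  rw [hW, hX, h4] at h6
  have h7 := h5 t ht
  rw [hW] at h7
  have h8 : |v - (y - x) / (b - a)| ≤ 1 / 8 := by
    have h9 : v - (y - x) / (b - a) = -(y - x - v * (b - a)) / (b - a) := by
      field_simp
      ring
    rw [h9, abs_div, abs_neg, abs_of_pos hτ0, div_le_iff₀ hτ0]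
    linarith
  have h9 := abs_add_le (W t - v) (v - (y - x) / (b - a))
  rw [sub_add_sub_cancel] at h9
  linarith

/-- the two statements together -/
theorem short_arc (hL : Ton L) {R : ℝ} (hR : 1 ≤ R) : ∃ τ₀ : ℝ, 0 < τ₀ ∧ τ₀ ≤ 1 ∧
    ∀ a b : ℝ, a < b → b - a ≤ τ₀ → ∀ x y : ℝ, |y - x| ≤ R * (b - a) →
    ∃ X W : ℝ → ℝ, Sol L X W ∧ X a = x ∧ X b = y ∧
      (∀ t ∈ Icc a b, |W t - (y - x) / (b - a)| ≤ 1 / 4) ∧
      ∀ z u : ℝ → ℝ, Cv z u a b → (∀ t ∈ Icc a b, |u t| ≤ 2 * R) → z a = x → z b = y →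
        act L X W a b ≤ act L z u a b := by
  obtain ⟨τ₁, h1, h1', hex⟩ := short_ex hL hR
  obtain ⟨τ₂, h2, h2', hmin⟩ := short_min hL (2 * R)
  refine ⟨min τ₁ τ₂, lt_min h1 h2, (min_le_left _ _).trans h1', ?_⟩
  intro a b hab hτ x y hxy
  obtain ⟨X, W, hS, hX, hY, hW⟩ := hex a b hab (hτ.trans (min_le_left _ _)) x y hxy
  have hτ0 : 0 < b - a := by linarith
  refine ⟨X, W, hS, hX, hY, hW, fun z u hz hu hza hzb => ?_⟩
  refine hmin X W hS a b hab.le (hτ.trans (min_le_right _ _)) (fun t ht => ?_) z u hz hu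
    (hza.trans hX.symm) (hzb.trans hY.symm)
  have h3 : |(y - x) / (b - a)| ≤ R := by
    rw [abs_div, abs_of_pos hτ0, div_le_iff₀ hτ0]
    exact hxy
  have h4 := abs_add_le (W t - (y - x) / (b - a)) ((y - x) / (b - a))
  rw [sub_add_cancel] at h4
  linarith [hW t ht]

end Pool.Agent.NOne
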