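import Pool.Agent.NOne.AVr
import Pool.Agent.NOne.ASh

/-! AExD. The action of short arcs as a function of the end points: definition and continuity. -/

set_option autoImplicit false

namespace Pool.Agent.NOne

open Set MeasureTheory

variable {L : ℝ → ℝ → ℝ → ℝ}

/-- the minimal action on `[a, b]` from `x` to `y` among the curves with speed at most `K` -/
noncomputable def sa (L : ℝ → ℝ → ℝ → ℝ) (K a b x y : ℝ) : ℝ :=
  sInf {r | ∃ z u : ℝ → ℝ, Cv z u a b ∧ (∀ t ∈ Icc a b, |u t| ≤ K) ∧ z a = x ∧ z b = y ∧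
    act L z u a b = r}

/-- The properties of the length `τ₀` of the short arcs for the speed `R`. -/
def IsShort (L : ℝ → ℝ → ℝ → ℝ) (R τ₀ : ℝ) : Prop :=
  ∀ a b : ℝ, a < b → b - a ≤ τ₀ → ∀ x y : ℝ, |y - x| ≤ R * (b - a) →
    ∃ X W : ℝ → ℝ, Sol L X W ∧ X a = x ∧ X b = y ∧
      (∀ t ∈ Icc a b, |W t - (y - x) / (b - a)| ≤ 1 / 4) ∧
      ∀ z u : ℝ → ℝ, Cv z u a b → (∀ t ∈ Icc a b, |u t| ≤ 2 * R) → z a = x → z b = y →
        act L X W a b ≤ act L z u a b

theorem exists_isShort (hL : Ton L) {R : ℝ} (hR : 1 ≤ R) : ∃ τ₀ : ℝ, 0 < τ₀ ∧ τ₀ ≤ 1 ∧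
    IsShort L R τ₀ := short_arc hL hR

/-- Proof. Bounded below (`ton_bdd_below`). -/
theorem sa_le (hL : Ton L) {K a b : ℝ} {z u : ℝ → ℝ} (h : Cv z u a b)
    (hu : ∀ t ∈ Icc a b, |u t| ≤ K) : sa L K a b (z a) (z b) ≤ act L z u a b := by
  obtain ⟨C, hC0, hC⟩ := ton_bdd_below hL
  refine csInf_le ⟨-C * (b - a), ?_⟩ ⟨z, u, h, hu, rfl, rfl, rfl⟩
  rintro r ⟨z', u', h', -, -, -, rfl⟩
  have := act_ge (B := 0) (C := C) hL le_rfl (fun x v t => by simpa using hC x v t) h'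
  linarith

/-- the speed of a short arc -/
private theorem arc_speed {R a b x y w : ℝ} (hR : 1 ≤ R) (hab : a < b)
    (hxy : |y - x| ≤ R * (b - a)) (hw : |w - (y - x) / (b - a)| ≤ 1 / 4) : |w| ≤ R + 1 / 4 := by
  have hba : 0 < b - a := sub_pos.2 hab
  have h1 : |(y - x) / (b - a)| ≤ R := by
    rw [abs_div, abs_of_pos hba, div_le_iff₀ hba]
    exact hxy
  have h2 : w = (w - (y - x) / (b - a)) + (y - x) / (b - a) := by ring
  calc |w| = |(w - (y - x) / (b - a)) + (y - x) / (b - a)| := by rw [← h2]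
    _ ≤ |w - (y - x) / (b - a)| + |(y - x) / (b - a)| := abs_add_le _ _
    _ ≤ 1 / 4 + R := add_le_add hw h1
    _ = R + 1 / 4 := by ring

/-- Proof. The arc itself is admissible: `|W| ≤ R + 1/4 ≤ 2 R`. -/
theorem sa_eq (hL : Ton L) {R τ₀ : ℝ} (hR : 1 ≤ R) (hs : IsShort L R τ₀) {a b : ℝ} (hab : a < b)
    (hb : b - a ≤ τ₀) {x y : ℝ} (hxy : |y - x| ≤ R * (b - a)) :
    ∃ X W : ℝ → ℝ, Sol L X W ∧ X a = x ∧ X b = y ∧
      (∀ t ∈ Icc a b, |W t - (y - x) / (b - a)| ≤ 1 / 4) ∧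
      act L X W a b = sa L (2 * R) a b x y := by
  obtain ⟨X, W, hS, hXa, hXb, hW, hmin⟩ := hs a b hab hb x y hxy
  have hWb : ∀ t ∈ Icc a b, |W t| ≤ 2 * R := fun t ht =>
    (arc_speed hR hab hxy (hW t ht)).trans (by linarith)
  refine ⟨X, W, hS, hXa, hXb, hW, le_antisymm ?_ ?_⟩
  · refine le_csInf ⟨_, X, W, sol_cv hS hab.le, hWb, hXa, hXb, rfl⟩ ?_
    rintro r ⟨z, u, hz, hu, h1, h2, rfl⟩
    exact hmin z u hz hu h1 h2
  · have := sa_le (K := 2 * R) hL (sol_cv hS hab.le) hWb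
    rwa [hXa, hXb] at this

/-- the one-sided Lipschitz estimate -/
private theorem sa_lip (hL : Ton L) {R τ₀ : ℝ} (hR : 1 ≤ R) (hs : IsShort L R τ₀) {a b : ℝ}
    (hab : a < b) (hb : b - a ≤ τ₀) : ∃ K : ℝ, 0 ≤ K ∧ ∀ x y x' y' : ℝ,
      |y - x| ≤ R * (b - a) → |x' - x| + |y' - y| ≤ (b - a) / 4 →
      |x' - x| + |y' - y| ≤ 1 →
      sa L (2 * R) a b x' y' ≤ sa L (2 * R) a b x y + K * (|x' - x| + |y' - y|) := by
  have hba : 0 < b - a := sub_pos.2 hab
  obtain ⟨C, hC0, hC⟩ := taylor_two hL (2 * R)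
  obtain ⟨C₁, hC₁0, hC₁⟩ := ana_bdd (ana_d1 hL.ana) (per_d1 hL.perx) (pet_d1 hL.pert) (2 * R)
  obtain ⟨C₂, hC₂0, hC₂⟩ := ana_bdd (ana_d2 hL.ana) (per_d2 hL.perx) (pet_d2 hL.pert) (2 * R)
  set M : ℝ := C₁ + C₂ / (b - a) + C * (1 + 1 / (b - a)) with hM
  have hM0 : 0 ≤ M := by positivity
  refine ⟨M * (b - a), by positivity, fun x y x' y' hxy hd hd1 => ?_⟩
  obtain ⟨X, W, hS, hXa, hXb, hW, hact⟩ := sa_eq hL hR hs hab hb hxy
  set δ : ℝ := |x' - x| + |y' - y| with hδ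
  have hδ0 : 0 ≤ δ := by positivity
  set l₀ : ℝ := x' - x with hl₀
  set l₁ : ℝ := ((y' - y) - (x' - x)) / (b - a) with hl₁
  have hl₁b : |l₁| ≤ δ / (b - a) := by
    rw [hl₁, abs_div, abs_of_pos hba]
    refine div_le_div_of_nonneg_right ?_ hba.le
    calc |(y' - y) - (x' - x)| ≤ |y' - y| + |x' - x| := abs_sub _ _
      _ = δ := by rw [hδ]; ring
  have hl₁q : |l₁| ≤ 1 / 4 := by
    refine hl₁b.trans ?_
    rw [div_le_iff₀ hba]
    linarith
  have hWb : ∀ t ∈ Icc a b, |W t| ≤ R + 1 / 4 := fun t ht => arc_speed hR hab hxy (hW t ht)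
  have hcv : Cv X W a b := sol_cv hS hab.le
  have hcv' := cv_affine hcv l₀ l₁
  have hu' : ∀ t ∈ Icc a b, |W t + l₁| ≤ 2 * R := fun t ht =>
    (abs_add_le _ _).trans (by linarith [hWb t ht])
  have h1 := sa_le (K := 2 * R) hL hcv' hu'
  have e1 : X a + (l₀ + l₁ * (a - a)) = x' := by
    rw [hXa, hl₀]; ring
  have e2 : X b + (l₀ + l₁ * (b - a)) = y' := by
    rw [hXb, hl₁, hl₀]
    field_simp
    ring
  simp only [e1, e2] at h1
  refine h1.trans ?_
  rw [← hact]
  have hdx : ∀ t ∈ Icc a b, |l₀ + l₁ * (t - a)| ≤ δ := by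
    intro t ht
    have hs0 : 0 ≤ (t - a) / (b - a) := div_nonneg (by linarith [ht.1]) hba.le
    have hs1 : (t - a) / (b - a) ≤ 1 := by
      rw [div_le_one hba]; linarith [ht.2]
    have e : l₀ + l₁ * (t - a) =
        (1 - (t - a) / (b - a)) * (x' - x) + (t - a) / (b - a) * (y' - y) := by
      rw [hl₁, hl₀]
      field_simp
      ring
    rw [e]
    calc |(1 - (t - a) / (b - a)) * (x' - x) + (t - a) / (b - a) * (y' - y)|
        ≤ |(1 - (t - a) / (b - a)) * (x' - x)| + |(t - a) / (b - a) * (y' - y)| :=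
          abs_add_le _ _
      _ = (1 - (t - a) / (b - a)) * |x' - x| + (t - a) / (b - a) * |y' - y| := by
          rw [abs_mul, abs_mul, abs_of_nonneg hs0, abs_of_nonneg (sub_nonneg.2 hs1)]
      _ ≤ 1 * |x' - x| + 1 * |y' - y| := by
          gcongr
          linarith
      _ = δ := by rw [hδ]; ring
  have hpt : ∀ t ∈ Icc a b, L (X t + (l₀ + l₁ * (t - a))) (W t + l₁) t ≤
      L (X t) (W t) t + M * δ := by
    intro t ht
    have hWt : |W t| ≤ 2 * R := (hWb t ht).trans (by linarith)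
    have h2 := (abs_le.1 (hC (X t) (W t) t (l₀ + l₁ * (t - a)) l₁ hWt (hu' t ht))).2
    have h3 : d1 L (X t) (W t) t * (l₀ + l₁ * (t - a)) ≤ C₁ * δ := by
      calc d1 L (X t) (W t) t * (l₀ + l₁ * (t - a))
          ≤ |d1 L (X t) (W t) t * (l₀ + l₁ * (t - a))| := le_abs_self _
        _ = |d1 L (X t) (W t) t| * |l₀ + l₁ * (t - a)| := abs_mul _ _
        _ ≤ C₁ * δ := mul_le_mul (hC₁ _ _ _ hWt) (hdx t ht) (abs_nonneg _) hC₁0
    have h4 : d2 L (X t) (W t) t * l₁ ≤ C₂ * (δ / (b - a)) := by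
      calc d2 L (X t) (W t) t * l₁
          ≤ |d2 L (X t) (W t) t * l₁| := le_abs_self _
        _ = |d2 L (X t) (W t) t| * |l₁| := abs_mul _ _
        _ ≤ C₂ * (δ / (b - a)) := mul_le_mul (hC₂ _ _ _ hWt) hl₁b (abs_nonneg _) hC₂0
    have h5 : (l₀ + l₁ * (t - a)) ^ 2 ≤ δ := by
      have : (l₀ + l₁ * (t - a)) ^ 2 = |l₀ + l₁ * (t - a)| * |l₀ + l₁ * (t - a)| := by
        rw [← sq, sq_abs]
      rw [this]
      calc |l₀ + l₁ * (t - a)| * |l₀ + l₁ * (t - a)| ≤ δ * 1 :=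
            mul_le_mul (hdx t ht) ((hdx t ht).trans hd1) (abs_nonneg _) hδ0
        _ = δ := mul_one _
    have h6 : l₁ ^ 2 ≤ δ / (b - a) := by
      have : l₁ ^ 2 = |l₁| * |l₁| := by rw [← sq, sq_abs]
      rw [this]
      calc |l₁| * |l₁| ≤ δ / (b - a) * 1 :=
            mul_le_mul hl₁b (hl₁q.trans (by norm_num)) (abs_nonneg _) (by positivity)
        _ = δ / (b - a) := mul_one _
    have h7 : C * ((l₀ + l₁ * (t - a)) ^ 2 + l₁ ^ 2) ≤ C * (δ + δ / (b - a)) :=
      mul_le_mul_of_nonneg_left (add_le_add h5 h6) hC0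
    have h8 : M * δ = C₁ * δ + C₂ * (δ / (b - a)) + C * (δ + δ / (b - a)) := by
      rw [hM]; ring
    rw [h8]
    linarith
  have h9 : act L (fun t => X t + (l₀ + l₁ * (t - a))) (fun t => W t + l₁) a b ≤
      ∫ t in a..b, (L (X t) (W t) t + M * δ) := by
    unfold act
    exact intervalIntegral.integral_mono_on hab.le (cv_int hL hcv')
      ((cv_int hL hcv).add intervalIntegrable_const) hpt
  rw [intervalIntegral.integral_add (cv_int hL hcv) intervalIntegrable_const,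
    intervalIntegral.integral_const, smul_eq_mul] at h9
  refine h9.trans (le_of_eq ?_)
  unfold act
  ring

/-- Proof. Let `(x, y)`, `(x', y')` be in the set, `|x' - x| + |y' - y| ≤ (b - a) / 4`, `(X, W)`
the short arc from `x` to `y`. The curve
`X + (affine function from x' - x to y' - y)` has speed at most `R + 1/4 + 1/4 ≤ 2 R`, and its
action is at most
`act L X W a b + C (|x' - x| + |y' - y|)` (`taylor_two`, or a Lipschitz bound of `L` for
`|v| ≤ 2 R`), so
`sa (x', y') ≤ sa (x, y) + C (..)`, and by symmetry `sa` is locally Lipschitz on the set. -/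
theorem sa_cont (hL : Ton L) {R τ₀ : ℝ} (hR : 1 ≤ R) (hs : IsShort L R τ₀) {a b : ℝ}
    (hab : a < b) (hb : b - a ≤ τ₀) :
    ContinuousOn (fun q : ℝ × ℝ => sa L (2 * R) a b q.1 q.2) {q | |q.2 - q.1| ≤ R * (b - a)} := by
  have hba : 0 < b - a := sub_pos.2 hab
  obtain ⟨K, hK0, hK⟩ := sa_lip hL hR hs hab hb
  rw [Metric.continuousOn_iff]
  intro q hq ε hε
  refine ⟨min (min ((b - a) / 8) (1 / 2)) (ε / (2 * K + 1)), by positivity, ?_⟩
  intro q' hq' hd
  have hd1 : dist q' q < (b - a) / 8 :=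
    hd.trans_le ((min_le_left _ _).trans (min_le_left _ _))
  have hd2 : dist q' q < 1 / 2 :=
    hd.trans_le ((min_le_left _ _).trans (min_le_right _ _))
  have hd3 : dist q' q < ε / (2 * K + 1) := hd.trans_le (min_le_right _ _)
  have h1 : |q'.1 - q.1| ≤ dist q' q := by
    rw [Prod.dist_eq, ← Real.dist_eq]; exact le_max_left _ _
  have h2 : |q'.2 - q.2| ≤ dist q' q := by
    rw [Prod.dist_eq, ← Real.dist_eq]; exact le_max_right _ _
  have h3 : |q'.1 - q.1| + |q'.2 - q.2| ≤ 2 * dist q' q := by linarith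
  have h4 : |q.1 - q'.1| + |q.2 - q'.2| = |q'.1 - q.1| + |q'.2 - q.2| := by
    rw [abs_sub_comm q.1, abs_sub_comm q.2]
  have e1 := hK q.1 q.2 q'.1 q'.2 hq (by linarith) (by linarith)
  have e2 := hK q'.1 q'.2 q.1 q.2 hq' (by rw [h4]; linarith) (by rw [h4]; linarith)
  rw [h4] at e2
  have h5 : K * (|q'.1 - q.1| + |q'.2 - q.2|) < ε := by
    have hp : 0 < 2 * K + 1 := by linarith
    have h6 : dist q' q * (2 * K + 1) < ε := (lt_div_iff₀ hp).1 hd3
    have h7 : K * (|q'.1 - q.1| + |q'.2 - q.2|) ≤ K * (2 * dist q' q) :=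
      mul_le_mul_of_nonneg_left h3 hK0
    nlinarith [dist_nonneg (x := q') (y := q)]
  rw [Real.dist_eq, abs_lt]
  constructor <;> linarith

/-- the broken action of the nodes `n 0, .., n N` at the times `i / N` -/
noncomputable def bra (L : ℝ → ℝ → ℝ → ℝ) (R : ℝ) (N : ℕ) (n : ℕ → ℝ) : ℝ :=
  ∑ i ∈ Finset.range N, sa L (2 * R) (i / N) ((i + 1) / N) (n i) (n (i + 1))

/-- admissible nodes -/
structure Adm (R : ℝ) (N : ℕ) (x y : ℝ) (n : ℕ → ℝ) : Prop where
  st : n 0 = x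
  en : n N = y
  bd : ∀ i < N, |n (i + 1) - n i| ≤ R / N

/-- minimal nodes -/
structure MinN (L : ℝ → ℝ → ℝ → ℝ) (R : ℝ) (N : ℕ) (x y : ℝ) (n : ℕ → ℝ) : Prop where
  adm : Adm R N x y n
  mn : ∀ n' : ℕ → ℝ, Adm R N x y n' → bra L R N n ≤ bra L R N n'

/-- admissible nodes stay near the start -/
private theorem adm_near {R x y : ℝ} {N : ℕ} {n : ℕ → ℝ} (hN : 0 < N) (h : Adm R N x y n)
    (i : ℕ) (hi : i ≤ N) : |n i - x| ≤ i * (R / N) := by
  induction i with
  | zero => simp [h.st]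
  | succ i ih =>
    have h1 := ih (by omega)
    have h2 := h.bd i (by omega)
    have e : n (i + 1) - x = (n (i + 1) - n i) + (n i - x) := by ring
    rw [e]
    push_cast
    calc |(n (i + 1) - n i) + (n i - x)| ≤ |n (i + 1) - n i| + |n i - x| := abs_add_le _ _
      _ ≤ R / N + i * (R / N) := add_le_add h2 h1
      _ = ((i : ℝ) + 1) * (R / N) := by ring

/-- Proof. The set of the admissible `n : Fin (N + 1) → ℝ` is compact (`|n i - x| ≤ R`) and not
empty (the straight line,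
`|y - x| ≤ R`); `sa_cont`; `IsCompact.exists_isMinOn`. -/
theorem exists_minN (hL : Ton L) {R τ₀ : ℝ} (hR : 1 ≤ R) (hs : IsShort L R τ₀) {N : ℕ}
    (hN : 0 < N) (hN' : 1 / (N : ℝ) ≤ τ₀) {x y : ℝ} (hxy : |y - x| ≤ R) :
    ∃ n : ℕ → ℝ, MinN L R N x y n := by
  have hNr : (0 : ℝ) < N := Nat.cast_pos.2 hN
  set S : Set (ℕ → ℝ) := {n | Adm R N x y n ∧ ∀ i, N < i → n i = y} with hS
  have hsub : S ⊆ Set.pi univ (fun _ : ℕ => Icc (x - R) (x + R)) := by
    rintro n ⟨h1, h2⟩ i -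
    rcases le_or_gt i N with hi | hi
    · have h3 := adm_near hN h1 i hi
      have h4 : (i : ℝ) * (R / N) ≤ R := by
        have h5 : (i : ℝ) ≤ N := Nat.cast_le.2 hi
        have h6 : (0 : ℝ) ≤ R / N := by positivity
        calc (i : ℝ) * (R / N) ≤ N * (R / N) := mul_le_mul_of_nonneg_right h5 h6
          _ = R := by field_simp
      have h5 := abs_le.1 (h3.trans h4)
      exact ⟨by linarith [h5.1], by linarith [h5.2]⟩
    · rw [h2 i hi]
      have h5 := abs_le.1 hxy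
      exact ⟨by linarith [h5.1], by linarith [h5.2]⟩
  have hclosed : IsClosed S := by
    have e : S = ({n | n 0 = x} ∩ {n | n N = y} ∩
        ⋂ i, ⋂ (_ : i < N), {n | |n (i + 1) - n i| ≤ R / N}) ∩
        ⋂ i, ⋂ (_ : N < i), {n | n i = y} := by
      ext n
      simp only [hS, mem_setOf_eq, mem_inter_iff, mem_iInter]
      constructor
      · rintro ⟨h, h'⟩
        exact ⟨⟨⟨h.st, h.en⟩, h.bd⟩, h'⟩
      · rintro ⟨⟨⟨h1, h2⟩, h3⟩, h'⟩
        exact ⟨⟨h1, h2, h3⟩, h'⟩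
    rw [e]
    refine ((IsClosed.inter ?_ ?_).inter ?_).inter ?_
    · exact isClosed_eq (continuous_apply 0) continuous_const
    · exact isClosed_eq (continuous_apply N) continuous_const
    · refine isClosed_iInter fun i => isClosed_iInter fun _ => ?_
      exact isClosed_le ((continuous_apply (i + 1)).sub (continuous_apply i)).abs continuous_const
    · refine isClosed_iInter fun i => isClosed_iInter fun _ => ?_
      exact isClosed_eq (continuous_apply i) continuous_const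
  have hcomp : IsCompact S :=
    (isCompact_univ_pi fun _ => isCompact_Icc).of_isClosed_subset hclosed hsub
  have hmemS : ∀ n : ℕ → ℝ, Adm R N x y n → (fun i => if i ≤ N then n i else y) ∈ S := by
    intro n h
    refine ⟨⟨by simp [h.st], by simp [h.en], fun i hi => ?_⟩, fun i hi => ?_⟩
    · have h1 : i + 1 ≤ N := hi
      have h2 : i ≤ N := hi.le
      simp only [h1, h2, if_true]
      exact h.bd i hi
    · simp only [not_le.2 hi, if_false]
  have hbraS : ∀ n : ℕ → ℝ, bra L R N (fun i => if i ≤ N then n i else y) = bra L R N n := by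
    intro n
    unfold bra
    refine Finset.sum_congr rfl fun i hi => ?_
    have hi' : i < N := Finset.mem_range.1 hi
    have h1 : i + 1 ≤ N := hi'
    have h2 : i ≤ N := hi'.le
    simp only [h1, h2, if_true]
  have hne : S.Nonempty := by
    refine ⟨_, hmemS (fun i => x + (y - x) * (i / N)) ⟨by simp, ?_, fun i _ => ?_⟩⟩
    · field_simp
      ring
    · have e : x + (y - x) * (((i + 1 : ℕ) : ℝ) / N) - (x + (y - x) * (i / N)) = (y - x) / N := by
        push_cast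
        field_simp
        ring
      rw [e, abs_div, abs_of_pos hNr]
      exact div_le_div_of_nonneg_right hxy hNr.le
  have hcont : ContinuousOn (fun n => bra L R N n) S := by
    unfold bra
    refine continuousOn_finset_sum _ fun i hi => ?_
    have hi' : i < N := Finset.mem_range.1 hi
    have e : ((i : ℝ) + 1) / N - i / N = 1 / N := by ring
    have hab : (i : ℝ) / N < ((i : ℝ) + 1) / N := by
      have : (0 : ℝ) < 1 / N := by positivity
      linarith
    have h1 := sa_cont hL hR hs hab (by rw [e]; exact hN')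
    have h2 : ContinuousOn (fun n : ℕ → ℝ => (n i, n (i + 1))) S :=
      ((continuous_apply i).prodMk (continuous_apply (i + 1))).continuousOn
    refine h1.comp h2 ?_
    rintro n ⟨hn, -⟩
    simp only [mem_setOf_eq]
    rw [e]
    have := hn.bd i hi'
    calc |n (i + 1) - n i| ≤ R / N := this
      _ = R * (1 / N) := by ring
  obtain ⟨n, hn, hmin⟩ := hcomp.exists_isMinOn hne hcont
  refine ⟨n, hn.1, fun n' hn' => ?_⟩
  rw [← hbraS n']
  exact hmin (hmemS n' hn')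

end Pool.Agent.NOne
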