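import Pool.Agent.NOne.AExD

/-! AExN. Variation of one node. -/

set_option autoImplicit false

namespace Pool.Agent.NOne

open Set MeasureTheory

variable {L : ℝ → ℝ → ℝ → ℝ}

private theorem bra_diff (L : ℝ → ℝ → ℝ → ℝ) (R : ℝ) {N : ℕ} (n n' : ℕ → ℝ) {i : ℕ}
    (hi : i + 1 < N) (hn : ∀ j, j ≠ i + 1 → n' j = n j) :
    bra L R N n' - bra L R N n =
      (sa L (2 * R) (i / N) ((i + 1) / N) (n i) (n' (i + 1)) -
        sa L (2 * R) (i / N) ((i + 1) / N) (n i) (n (i + 1))) +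
      (sa L (2 * R) ((i + 1) / N) ((i + 2) / N) (n' (i + 1)) (n (i + 2)) -
        sa L (2 * R) ((i + 1) / N) ((i + 2) / N) (n (i + 1)) (n (i + 2))) := by
  have hsub : ({i, i + 1} : Finset ℕ) ⊆ Finset.range N := by
    intro j hj
    simp only [Finset.mem_insert, Finset.mem_singleton] at hj
    rw [Finset.mem_range]
    omega
  have h2 : ((i : ℝ) + 1 + 1) = (i : ℝ) + 2 := by ring
  rw [bra, bra, ← Finset.sum_sub_distrib, ← Finset.sum_subset hsub, Finset.sum_pair (by omega)]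
  · rw [hn i (by omega), hn (i + 1 + 1) (by omega)]
    push_cast
    rw [h2]
  · intro j _ hj
    simp only [Finset.mem_insert, Finset.mem_singleton, not_or] at hj
    rw [hn j hj.2, hn (j + 1) (by omega), sub_self]

private theorem adm_move {R : ℝ} {N : ℕ} {x y : ℝ} {n : ℕ → ℝ} (h : Adm R N x y n) {i : ℕ}
    (hi : i + 1 < N) (w : ℝ) (hw : |w - n i| ≤ R / N) (hw' : |n (i + 2) - w| ≤ R / N) :
    Adm R N x y (Function.update n (i + 1) w) := by
  refine ⟨?_, ?_, fun j hj => ?_⟩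
  · rw [Function.update_of_ne (by omega), h.st]
  · rw [Function.update_of_ne (by omega), h.en]
  · rcases eq_or_ne j i with rfl | h1
    · rw [Function.update_self, Function.update_of_ne (by omega)]
      exact hw
    · rcases eq_or_ne j (i + 1) with rfl | h2
      · rw [Function.update_self, Function.update_of_ne (by omega)]
        exact hw'
      · rw [Function.update_of_ne (by omega), Function.update_of_ne (by omega)]
        exact h.bd j hj

private theorem node_aux (hL : Ton L) {R : ℝ} (hR : 1 ≤ R) {N : ℕ} {x y : ℝ} {n : ℕ → ℝ}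
    (h : MinN L R N x y n) {i : ℕ} (hi : i + 1 < N) {X W X' W' : ℝ → ℝ} (hS : Sol L X W)
    (hS' : Sol L X' W') (h0 : X (i / N) = n i) (h1 : X ((i + 1) / N) = n (i + 1))
    (h1' : X' ((i + 1) / N) = n (i + 1)) (h2' : X' ((i + 2) / N) = n (i + 2))
    (hW : ∀ t ∈ Icc ((i : ℝ) / N) ((i + 1) / N), |W t| ≤ R + 1 / 4)
    (hW' : ∀ t ∈ Icc (((i : ℝ) + 1) / N) ((i + 2) / N), |W' t| ≤ R + 1 / 4)
    (hA : act L X W (i / N) ((i + 1) / N) = sa L (2 * R) (i / N) ((i + 1) / N) (n i) (n (i + 1)))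
    (hA' : act L X' W' ((i + 1) / N) ((i + 2) / N) =
      sa L (2 * R) ((i + 1) / N) ((i + 2) / N) (n (i + 1)) (n (i + 2)))
    (σ : ℝ) (hσ : |σ| = 1) (δ : ℝ) (hδ : 0 < δ)
    (hadm : ∀ e, 0 < e → e ≤ δ → |n (i + 1) + σ * e - n i| ≤ R / N ∧
      |n (i + 2) - (n (i + 1) + σ * e)| ≤ R / N) :
    0 ≤ σ * (d2 L (n (i + 1)) (W ((i + 1) / N)) ((i + 1) / N) -
      d2 L (n (i + 1)) (W' ((i + 1) / N)) ((i + 1) / N)) := by
  have hN : (1 : ℝ) ≤ (N : ℝ) := by exact_mod_cast (by omega : 1 ≤ N)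
  have hN0 : (0 : ℝ) < (N : ℝ) := by linarith
  obtain ⟨a, ha⟩ : ∃ a : ℝ, a = (i : ℝ) / N := ⟨_, rfl⟩
  obtain ⟨b, hb⟩ : ∃ b : ℝ, b = ((i : ℝ) + 1) / N := ⟨_, rfl⟩
  obtain ⟨c, hc⟩ : ∃ c : ℝ, c = ((i : ℝ) + 2) / N := ⟨_, rfl⟩
  have hab : b - a = 1 / N := by rw [ha, hb]; ring
  have hbc : c - b = 1 / N := by rw [hc, hb]; ring
  have hN1 : 1 / (N : ℝ) ≤ 1 := by rw [div_le_one hN0]; exact hN
  have hN2 : 0 < 1 / (N : ℝ) := by positivity
  have hNb : (N : ℝ) * (1 / N) = 1 := by field_simp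
  rw [← ha] at h0
  rw [← ha, ← hb] at hW hA
  rw [← hb, ← hc] at hW' hA'
  rw [← hb] at h1 h1' ⊢
  rw [← hc] at h2'
  obtain ⟨P, hP⟩ : ∃ P, P = d2 L (n (i + 1)) (W b) b := ⟨_, rfl⟩
  obtain ⟨P', hP'⟩ : ∃ P', P' = d2 L (n (i + 1)) (W' b) b := ⟨_, rfl⟩
  rw [← hP, ← hP']
  obtain ⟨C, hC0, hC⟩ := first_var hL (R + 1 / 4) N 1
  have hlam : ∀ {a b t : ℝ}, b - a = 1 / N → t ∈ Icc a b →
      0 ≤ (N : ℝ) * (t - a) ∧ (N : ℝ) * (t - a) ≤ 1 := by
    intro a b t hab ht
    refine ⟨mul_nonneg hN0.le (by linarith [ht.1]), ?_⟩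
    rw [← hNb]
    exact mul_le_mul_of_nonneg_left (by linarith [ht.2]) hN0.le
  have key : ∀ e : ℝ, 0 < e → e ≤ δ → e ≤ 1 / (2 * N) → 0 ≤ e * (σ * (P - P')) + 2 * C * e ^ 2 := by
    intro e he he1 he2
    have heN : e * N ≤ 1 / 2 := by
      calc e * N ≤ 1 / (2 * N) * N := by gcongr
        _ = 1 / 2 := by field_simp
    have he3 : e ≤ 1 := by nlinarith
    have habs : |σ * e| = e := by rw [abs_mul, hσ, one_mul, abs_of_pos he]
    have hsq : (σ * e) ^ 2 = e ^ 2 := by rw [← sq_abs, habs]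
    obtain ⟨ad1, ad2⟩ := hadm e he he1
    have hm := h.mn _ (adm_move h.adm hi (n (i + 1) + σ * e) ad1 ad2)
    have hd := bra_diff L R n (Function.update n (i + 1) (n (i + 1) + σ * e)) hi
      (fun j hj => Function.update_of_ne hj _ _)
    rw [Function.update_self, ← ha, ← hb, ← hc] at hd
    -- first arc
    have f1 := hC X W hS a b (by linarith) (by linarith) hW 0 N (by rw [abs_of_pos hN0])
      (fun t ht => by
        obtain ⟨k1, k2⟩ := hlam hab ht
        rw [zero_add, abs_of_nonneg k1]; exact k2) (σ * e) (by rw [habs]; exact he3)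
    have s1 := sa_le hL (K := 2 * R) (var_cv hS (show a ≤ b by linarith) 0 N (σ * e))
      (fun t ht => by
        have k1 := hW t ht
        calc |W t + σ * e * N| ≤ |W t| + |σ * e * N| := abs_add_le _ _
          _ = |W t| + e * N := by rw [abs_mul (σ * e), habs, abs_of_pos hN0]
          _ ≤ 2 * R := by linarith)
    rw [sub_self, hab, hNb, h0, h1] at s1
    rw [hab, hNb, h1, hsq, hA, ← hP] at f1
    -- second arc
    have f2 := hC X' W' hS' b c (by linarith) (by linarith) hW' 1 (-N)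
      (by rw [abs_neg, abs_of_pos hN0])
      (fun t ht => by
        obtain ⟨k1, k2⟩ := hlam hbc ht
        rw [abs_le]
        constructor <;> linarith) (σ * e) (by rw [habs]; exact he3)
    have s2 := sa_le hL (K := 2 * R) (var_cv hS' (show b ≤ c by linarith) 1 (-N) (σ * e))
      (fun t ht => by
        have k1 := hW' t ht
        calc |W' t + σ * e * -N| ≤ |W' t| + |σ * e * -N| := abs_add_le _ _
          _ = |W' t| + e * N := by rw [abs_mul (σ * e), habs, abs_neg, abs_of_pos hN0]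
          _ ≤ 2 * R := by linarith)
    have hNb' : (-(N : ℝ)) * (1 / N) = -1 := by rw [neg_mul, hNb]
    rw [sub_self, hbc, hNb', h1', h2'] at s2
    rw [hbc, hNb', h1', h2', hsq, hA', ← hP'] at f2
    have e1 : n i + σ * e * (0 + N * 0) = n i := by ring
    have e2 : n (i + 1) + σ * e * (0 + 1) = n (i + 1) + σ * e := by ring
    have e3 : n (i + 1) + σ * e * (1 + -N * 0) = n (i + 1) + σ * e := by ring
    have e4 : n (i + 2) + σ * e * (1 + -1) = n (i + 2) := by ring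
    rw [e1, e2] at s1
    rw [e3, e4] at s2
    have t1 := s1.trans f1
    have t2 := s2.trans f2
    have e5 : σ * e * (P * (0 + 1) - d2 L (X a) (W a) a * 0) = e * (σ * P) := by ring
    have e6 : σ * e * (d2 L (n (i + 2)) (W' c) c * (1 + -1) - P' * 1) = -(e * (σ * P')) := by ring
    rw [h0] at t1
    rw [h0] at e5
    rw [e5] at t1
    rw [e6] at t2
    have e7 : e * (σ * (P - P')) = e * (σ * P) - e * (σ * P') := by ring
    rw [e7]
    linarith
  by_contra hneg
  push Not at hneg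
  obtain ⟨D, hD⟩ : ∃ D, D = -(σ * (P - P')) := ⟨_, rfl⟩
  have hD0 : 0 < D := by linarith
  obtain ⟨e, he⟩ : ∃ e, e = min (min δ (1 / (2 * N))) (D / (2 * (2 * C + 1))) := ⟨_, rfl⟩
  have he0 : 0 < e := by rw [he]; positivity
  have he1 : e ≤ δ := he ▸ (min_le_left _ _).trans (min_le_left _ _)
  have he2 : e ≤ 1 / (2 * N) := he ▸ (min_le_left _ _).trans (min_le_right _ _)
  have he3 : e ≤ D / (2 * (2 * C + 1)) := he ▸ min_le_right _ _
  have k := key e he0 he1 he2
  have k1 : 0 ≤ e * (-D + 2 * C * e) := by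
    have : e * (-D + 2 * C * e) = e * (σ * (P - P')) + 2 * C * e ^ 2 := by rw [hD]; ring
    rw [this]; exact k
  have k2 : 0 ≤ -D + 2 * C * e := nonneg_of_mul_nonneg_right k1 he0
  have k3 : e * (2 * (2 * C + 1)) ≤ D := by rwa [le_div_iff₀ (by positivity)] at he3
  nlinarith

/-- Moving the node `i + 1` in the positive direction is admissible if the increment before it is
`< R / N` and the
increment after it is `> - R / N`. Proof. For small `e > 0` the nodes `n + e (at i + 1)` are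
admissible, so the broken action does
not decrease; the curves `X + e * affine (0 → 1)` on `[i / N, (i + 1) / N]` and
`X' + e * affine (1 → 0)` on
`[(i + 1) / N, (i + 2) / N]` have speed `≤ 2 R` (`|W| ≤ R + 1/4`, `e N ≤ 1/2`) and bound the two
new terms (`sa_le`), and `first_var`
gives `0 ≤ e (P - P') + C e²` with `P = d2 L (n (i + 1)) (W ..) ..`, `P'` the same with `W'`: so
`P' ≤ P`, and `d2 L` is
strictly increasing in `v` (`d2_strictMono`). `act L X W = sa` by `hA`, `hA'`. -/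
theorem node_pos (hL : Ton L) {R : ℝ} (hR : 1 ≤ R) {N : ℕ} {x y : ℝ} {n : ℕ → ℝ}
    (h : MinN L R N x y n) {i : ℕ} (hi : i + 1 < N) {X W X' W' : ℝ → ℝ} (hS : Sol L X W)
    (hS' : Sol L X' W') (h0 : X (i / N) = n i) (h1 : X ((i + 1) / N) = n (i + 1))
    (h1' : X' ((i + 1) / N) = n (i + 1)) (h2' : X' ((i + 2) / N) = n (i + 2))
    (hW : ∀ t ∈ Icc ((i : ℝ) / N) ((i + 1) / N), |W t| ≤ R + 1 / 4)
    (hW' : ∀ t ∈ Icc (((i : ℝ) + 1) / N) ((i + 2) / N), |W' t| ≤ R + 1 / 4)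
    (hA : act L X W (i / N) ((i + 1) / N) = sa L (2 * R) (i / N) ((i + 1) / N) (n i) (n (i + 1)))
    (hA' : act L X' W' ((i + 1) / N) ((i + 2) / N) =
      sa L (2 * R) ((i + 1) / N) ((i + 2) / N) (n (i + 1)) (n (i + 2)))
    (hb : n (i + 1) - n i < R / N) (hb' : -(R / N) < n (i + 2) - n (i + 1)) :
    W' ((i + 1) / N) ≤ W ((i + 1) / N) := by
  have hb1 := abs_le.1 (h.adm.bd i (by omega))
  have hb2 := abs_le.1 (h.adm.bd (i + 1) hi)
  have key := node_aux hL hR h hi hS hS' h0 h1 h1' h2' hW hW' hA hA' 1 abs_one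
    (min (R / N - (n (i + 1) - n i)) (n (i + 2) - n (i + 1) + R / N))
    (lt_min (by linarith) (by linarith)) (fun e he he' => by
      have k1 := he'.trans (min_le_left _ _)
      have k2 := he'.trans (min_le_right _ _)
      have e1 : n (i + 1 + 1) = n (i + 2) := rfl
      rw [e1] at hb2
      rw [one_mul, abs_le, abs_le]
      refine ⟨⟨?_, ?_⟩, ?_, ?_⟩ <;> linarith [hb1.1, hb1.2, hb2.1, hb2.2])
  rw [one_mul, sub_nonneg] at key
  exact (d2_strictMono hL _ _).le_iff_le.1 key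

/-- The same in the negative direction. -/
theorem node_neg (hL : Ton L) {R : ℝ} (hR : 1 ≤ R) {N : ℕ} {x y : ℝ} {n : ℕ → ℝ}
    (h : MinN L R N x y n) {i : ℕ} (hi : i + 1 < N) {X W X' W' : ℝ → ℝ} (hS : Sol L X W)
    (hS' : Sol L X' W') (h0 : X (i / N) = n i) (h1 : X ((i + 1) / N) = n (i + 1))
    (h1' : X' ((i + 1) / N) = n (i + 1)) (h2' : X' ((i + 2) / N) = n (i + 2))
    (hW : ∀ t ∈ Icc ((i : ℝ) / N) ((i + 1) / N), |W t| ≤ R + 1 / 4)
    (hW' : ∀ t ∈ Icc (((i : ℝ) + 1) / N) ((i + 2) / N), |W' t| ≤ R + 1 / 4)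
    (hA : act L X W (i / N) ((i + 1) / N) = sa L (2 * R) (i / N) ((i + 1) / N) (n i) (n (i + 1)))
    (hA' : act L X' W' ((i + 1) / N) ((i + 2) / N) =
      sa L (2 * R) ((i + 1) / N) ((i + 2) / N) (n (i + 1)) (n (i + 2)))
    (hb : -(R / N) < n (i + 1) - n i) (hb' : n (i + 2) - n (i + 1) < R / N) :
    W ((i + 1) / N) ≤ W' ((i + 1) / N) := by
  have hb1 := abs_le.1 (h.adm.bd i (by omega))
  have hb2 := abs_le.1 (h.adm.bd (i + 1) hi)
  have key := node_aux hL hR h hi hS hS' h0 h1 h1' h2' hW hW' hA hA' (-1) (by simp)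
    (min (R / N + (n (i + 1) - n i)) (R / N - (n (i + 2) - n (i + 1))))
    (lt_min (by linarith) (by linarith)) (fun e he he' => by
      have k1 := he'.trans (min_le_left _ _)
      have k2 := he'.trans (min_le_right _ _)
      have e1 : n (i + 1 + 1) = n (i + 2) := rfl
      rw [e1] at hb2
      rw [neg_one_mul, abs_le, abs_le]
      refine ⟨⟨?_, ?_⟩, ?_, ?_⟩ <;> linarith [hb1.1, hb1.2, hb2.1, hb2.2])
  rw [neg_one_mul, neg_sub, sub_nonneg] at key
  exact (d2_strictMono hL _ _).le_iff_le.1 key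

end Pool.Agent.NOne
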