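import Pool.Agent.NOne.ACv

/-! AMm. The minimal action `mm L x y` of the curves from `x` (time `0`) to `y` (time `1`), minimal
arcs:
definitions and first properties. -/

set_option autoImplicit false

namespace Pool.Agent.NOne

open Set MeasureTheory

variable {L : ℝ → ℝ → ℝ → ℝ} {z u X W : ℝ → ℝ}

/-- the minimal action from `x` (time `0`) to `y` (time `1`) -/
noncomputable def mm (L : ℝ → ℝ → ℝ → ℝ) (x y : ℝ) : ℝ :=
  sInf {r | ∃ z u : ℝ → ℝ, Cv z u 0 1 ∧ z 0 = x ∧ z 1 = y ∧ act L z u 0 1 = r}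

/-- minimal arcs -/
structure Arc (L : ℝ → ℝ → ℝ → ℝ) (x y : ℝ) (X W : ℝ → ℝ) : Prop where
  sol : Sol L X W
  st : X 0 = x
  en : X 1 = y
  mn : act L X W 0 1 = mm L x y

private theorem mm_bddBelow (hL : Ton L) (x y : ℝ) :
    BddBelow {r | ∃ z u : ℝ → ℝ, Cv z u 0 1 ∧ z 0 = x ∧ z 1 = y ∧ act L z u 0 1 = r} := by
  obtain ⟨C, _, hC⟩ := ton_bdd_below hL
  refine ⟨-C, ?_⟩
  rintro r ⟨z, u, h, -, -, rfl⟩
  have h1 := act_ge (B := 0) (C := C) hL le_rfl (fun x v t => by simpa using hC x v t) h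
  simpa using h1

private theorem mm_nonempty (L : ℝ → ℝ → ℝ → ℝ) (x y : ℝ) :
    Set.Nonempty {r | ∃ z u : ℝ → ℝ, Cv z u 0 1 ∧ z 0 = x ∧ z 1 = y ∧ act L z u 0 1 = r} := by
  refine ⟨_, fun t => x + (y - x) * t, fun _ => y - x, ?_, by simp, by simp, rfl⟩
  refine ⟨zero_le_one, by fun_prop, ⟨∅, countable_empty, fun t _ _ => ?_⟩, measurable_const,
    ⟨|y - x|, fun _ _ => le_rfl⟩⟩
  simpa using ((hasDerivAt_id t).const_mul (y - x)).const_add x

private theorem mm_sub (hL : Ton L) (x y : ℝ) (k : ℤ) :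
    {r | ∃ z u : ℝ → ℝ, Cv z u 0 1 ∧ z 0 = x ∧ z 1 = y ∧ act L z u 0 1 = r} ⊆
    {r | ∃ z u : ℝ → ℝ, Cv z u 0 1 ∧ z 0 = x + k ∧ z 1 = y + k ∧ act L z u 0 1 = r} := by
  rintro r ⟨z, u, h, rfl, rfl, rfl⟩
  have h1 := cv_shift h 0 k
  have h2 := act_shift hL z u 0 1 0 k
  simp only [Int.cast_zero, sub_zero, add_zero] at h1 h2
  exact ⟨_, _, h1, rfl, rfl, h2⟩

private theorem mm_int (hL : Ton L) (x y : ℝ) (k : ℤ) : mm L (x + k) (y + k) = mm L x y := by
  unfold mm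
  congr 1
  apply Set.Subset.antisymm
  · have h1 := mm_sub hL (x + k) (y + k) (-k)
    have e1 : x + k + ((-k : ℤ) : ℝ) = x := by push_cast; ring
    have e2 : y + k + ((-k : ℤ) : ℝ) = y := by push_cast; ring
    rw [e1, e2] at h1
    exact h1
  · exact mm_sub hL x y k

/-- Proof. `csInf_le`, bounded below by `ton_bdd_below`. -/
theorem mm_le (hL : Ton L) (h : Cv z u 0 1) : mm L (z 0) (z 1) ≤ act L z u 0 1 := by
  exact csInf_le (mm_bddBelow hL _ _) ⟨z, u, h, rfl, rfl, rfl⟩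

/-- Proof. Translate the curve to `[0, 1]` (`cv_shift`, `act_shift`). -/
theorem mm_le_int (hL : Ton L) {n : ℤ} (h : Cv z u n (n + 1)) :
    mm L (z n) (z (n + 1)) ≤ act L z u n (n + 1) := by
  have h1 : Cv (fun t => z (t + n) + ((0 : ℤ) : ℝ)) (fun t => u (t + n)) 0 1 := by
    have h0 := cv_shift h (-n) 0
    have e1 : (fun t : ℝ => z (t - ((-n : ℤ) : ℝ)) + ((0 : ℤ) : ℝ)) =
        fun t => z (t + n) + ((0 : ℤ) : ℝ) := by
      funext t
      push_cast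
      rw [sub_neg_eq_add]
    have e2 : (fun t : ℝ => u (t - ((-n : ℤ) : ℝ))) = fun t => u (t + n) := by
      funext t
      push_cast
      rw [sub_neg_eq_add]
    have e3 : (n : ℝ) + ((-n : ℤ) : ℝ) = 0 := by push_cast; ring
    have e4 : (n : ℝ) + 1 + ((-n : ℤ) : ℝ) = 1 := by push_cast; ring
    rw [e1, e2, e3, e4] at h0
    exact h0
  have h2 := mm_le hL h1
  rw [act_shift' hL z u 0 1 n 0] at h2
  simpa [add_comm] using h2

/-- Proof. Translate the curves by `1` (both inequalities). -/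
theorem mm_per (hL : Ton L) (x y : ℝ) : mm L (x + 1) (y + 1) = mm L x y := by
  have h1 := mm_int hL x y 1
  simpa using h1

/-- Proof. `act_ge`; for `B < 0` use `B = 0`. -/
theorem mm_coer (hL : Ton L) (B : ℝ) : ∃ C : ℝ, ∀ x y, B * |y - x| - C ≤ mm L x y := by
  obtain ⟨C, hC⟩ := hL.sup (max B 0)
  refine ⟨C, fun x y => le_csInf (mm_nonempty L x y) ?_⟩
  rintro r ⟨z, u, h, rfl, rfl, rfl⟩
  have h1 := act_ge hL (le_max_right B 0) hC h
  have h2 : B * |z 1 - z 0| ≤ max B 0 * |z 1 - z 0| :=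
    mul_le_mul_of_nonneg_right (le_max_left _ _) (abs_nonneg _)
  linarith

/-- The velocities of an arc. Proof. Mean value theorem on `[0, 1]` and `Ω`. -/
theorem arc_bd {Ω : ℝ → ℝ} (hΩ : Omg L Ω) {x y : ℝ} (h : Arc L x y X W) {t : ℝ}
    (ht : t ∈ Icc (-1 : ℝ) 2) : |W t| ≤ Ω |y - x| := by
  obtain ⟨s, hs, hs'⟩ := exists_hasDerivAt_eq_slope X W zero_lt_one
    (sol_cont h.sol).1.continuousOn (fun t _ => h.sol.pos t)
  rw [h.st, h.en] at hs'
  refine hΩ.bd X W h.sol s t _ (by rw [hs']; simp) ?_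
  obtain ⟨h1, h2⟩ := hs
  obtain ⟨h3, h4⟩ := ht
  rw [abs_le]
  constructor <;> linarith

theorem arc_shift (hL : Ton L) {x y : ℝ} (h : Arc L x y X W) (k : ℤ) :
    Arc L (x + k) (y + k) (fun t => X t + k) W := by
  refine ⟨sol_shift_x hL h.sol k, by simp [h.st], by simp [h.en], ?_⟩
  rw [mm_int hL, ← h.mn]
  have h2 := act_shift hL X W 0 1 0 k
  simpa using h2

end Pool.Agent.NOne
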