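import Pool.Agent.NOne.AExN
import Pool.Agent.NOne.AMm

/-! AExS. The minimal broken curve is a solution. -/

set_option autoImplicit false

namespace Pool.Agent.NOne

open Set MeasureTheory

variable {L : ℝ → ℝ → ℝ → ℝ}

private theorem exs_sum {N : ℕ} (hN : 0 < N) (hL : Ton L) {z u : ℝ → ℝ} (h : Cv z u 0 1) :
    ∀ k ≤ N, act L z u 0 ((k : ℝ) / N) =
      ∑ i ∈ Finset.range k, act L z u ((i : ℝ) / N) (((i : ℝ) + 1) / N) := by
  have hN0 : (0 : ℝ) < N := Nat.cast_pos.2 hN
  intro k
  induction k with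
  | zero =>
    intro _
    rw [Finset.sum_range_zero, Nat.cast_zero, zero_div]
    exact intervalIntegral.integral_same
  | succ k ih =>
    intro hk
    have h1 : ((k : ℝ) + 1) / N ≤ 1 := by
      rw [div_le_one hN0]
      exact_mod_cast hk
    have h2 : (k : ℝ) / N ≤ ((k : ℝ) + 1) / N := by gcongr; linarith
    have h0 : 0 ≤ (k : ℝ) / N := by positivity
    rw [Finset.sum_range_succ, ← ih (by omega), Nat.cast_succ]
    exact (act_add hL (cv_mono h le_rfl (h0.trans h2) h1) h0 h2).symm

private theorem exs_node {N : ℕ} (hN : 0 < N) {i : ℕ} (hi : i < N) :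
    0 ≤ (i : ℝ) / N ∧ (i : ℝ) / N ≤ ((i : ℝ) + 1) / N ∧ ((i : ℝ) + 1) / N ≤ 1 ∧
      ((i : ℝ) + 1) / N - (i : ℝ) / N = 1 / N := by
  have hN0 : (0 : ℝ) < N := Nat.cast_pos.2 hN
  refine ⟨by positivity, by gcongr; linarith, ?_, by ring⟩
  rw [div_le_one hN0]
  exact_mod_cast hi

/-- Proof. Short arcs `(X_i, W_i)` on `[i / N, (i + 1) / N]` from `sa_eq`, `Δ_i = n (i + 1) - n i`,
`D = |y - x| + 1`;
`|W_i - N Δ_i| ≤ 1/4`. (1) Some `j < N` has `|Δ_j| ≤ D / N`: otherwise consecutive increments have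
the same sign (if
`Δ_i > D / N` and `Δ_(i+1) < - D / N` then `node_neg` gives `W_i ≤ W_(i+1)` at the common node, but
`W_i ≥ D - 1/4 > 0 > W_(i+1)`; in the other case `node_pos`), so `|y - x| = ∑ |Δ_i| > D`. (2)
Induction upward from `j`: if the
steps `j, .., i` are parts of one solution `(X, W)` with `|Δ| < R / N`, then this solution has a
velocity `≤ D` at some time of the step `j`
(mean value theorem), so `|W| ≤ Ω D` there (`hΩ.bd`, the times differ by at most `1`). If
`Δ_(i+1) = R / N` then `node_pos` gives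
`W_(i+1) ≤ W_i ≤ Ω D` at the node, but `W_(i+1) ≥ R - 1/4 > Ω D`; if `Δ_(i+1) = - R / N`:
`node_neg`. So
`|Δ_(i+1)| < R / N` and `node_pos`, `node_neg` give equality of the velocities at the node, the two
arcs are the same solution
(`sol_uniq`). (3) Downward from `j`: the same. (4) `act L X W 0 1 = ∑ = bra L R N n` (`act_add`). -/
theorem minN_sol (hL : Ton L) {Ω : ℝ → ℝ} (hΩ : Omg L Ω) {R τ₀ x y : ℝ} (hR : 1 ≤ R)
    (hR' : Ω (|y - x| + 1) + 1 ≤ R) (hs : IsShort L R τ₀) {N : ℕ} (hN : 0 < N)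
    (hN' : 1 / (N : ℝ) ≤ τ₀) {n : ℕ → ℝ} (h : MinN L R N x y n) :
    ∃ X W : ℝ → ℝ, Sol L X W ∧ X 0 = x ∧ X 1 = y ∧ (∀ t ∈ Icc (0 : ℝ) 1, |W t| ≤ Ω (|y - x| + 1)) ∧
      act L X W 0 1 = bra L R N n := by
  have hN0 : (0 : ℝ) < N := Nat.cast_pos.2 hN
  set D : ℝ := |y - x| + 1 with hD
  have hD1 : 1 ≤ D := by
    have := abs_nonneg (y - x)
    linarith
  have hDΩ : D ≤ Ω D := hΩ.le D
  have hex : ∀ i : ℕ, i < N → ∃ X W : ℝ → ℝ, Sol L X W ∧ X ((i : ℝ) / N) = n i ∧
      X (((i : ℝ) + 1) / N) = n (i + 1) ∧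
      (∀ t ∈ Icc ((i : ℝ) / N) (((i : ℝ) + 1) / N), |W t - N * (n (i + 1) - n i)| ≤ 1 / 4) ∧
      act L X W ((i : ℝ) / N) (((i : ℝ) + 1) / N) =
        sa L (2 * R) ((i : ℝ) / N) (((i : ℝ) + 1) / N) (n i) (n (i + 1)) := by
    intro i hi
    obtain ⟨-, -, -, e1⟩ := exs_node hN hi
    have e2 : (i : ℝ) / N < ((i : ℝ) + 1) / N := by
      have : (0 : ℝ) < 1 / N := by positivity
      linarith
    obtain ⟨X, W, b1, b2, b3, b4, b5⟩ := sa_eq hL hR hs e2 (by rw [e1]; exact hN')
      (x := n i) (y := n (i + 1)) (by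
        rw [e1, mul_one_div]
        exact h.adm.bd i hi)
    refine ⟨X, W, b1, b2, b3, fun t ht => ?_, b5⟩
    have b6 := b4 t ht
    rw [e1] at b6
    have e3 : (n (i + 1) - n i) / (1 / (N : ℝ)) = N * (n (i + 1) - n i) := by
      field_simp
    rwa [e3] at b6
  choose! X W hS h0 h1 hW hA using hex
  -- increments
  have hΔ : ∀ i, i < N → |N * (n (i + 1) - n i)| ≤ R := by
    intro i hi
    have := h.adm.bd i hi
    rw [abs_mul, abs_of_pos hN0]
    calc (N : ℝ) * |n (i + 1) - n i| ≤ N * (R / N) := by gcongr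
      _ = R := by field_simp
  have hWR : ∀ i, i < N → ∀ t ∈ Icc ((i : ℝ) / N) (((i : ℝ) + 1) / N), |W i t| ≤ R + 1 / 4 := by
    intro i hi t ht
    have b1 := hW i hi t ht
    have b2 := hΔ i hi
    rw [abs_le] at b1 b2 ⊢
    constructor <;> linarith [b1.1, b1.2, b2.1, b2.2]
  have hc1 : ∀ i : ℕ, (((i + 1 : ℕ) : ℝ)) / N = ((i : ℝ) + 1) / N := fun i => by
    rw [Nat.cast_succ]
  have hc2 : ∀ i : ℕ, ((((i + 1 : ℕ) : ℝ)) + 1) / N = ((i : ℝ) + 2) / N := fun i => by
    rw [Nat.cast_succ]
    ring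
  have hleft : ∀ i, i < N → (i : ℝ) / N ∈ Icc ((i : ℝ) / N) (((i : ℝ) + 1) / N) := fun i hi =>
    ⟨le_rfl, (exs_node hN hi).2.1⟩
  have hright : ∀ i, i < N → ((i : ℝ) + 1) / N ∈ Icc ((i : ℝ) / N) (((i : ℝ) + 1) / N) :=
    fun i hi => ⟨(exs_node hN hi).2.1, le_rfl⟩
  have np : ∀ i, i + 1 < N → n (i + 1) - n i < R / N → -(R / N) < n (i + 2) - n (i + 1) →
      W (i + 1) (((i : ℝ) + 1) / N) ≤ W i (((i : ℝ) + 1) / N) := by
    intro i hi g1 g2
    have hi0 : i < N := by omega
    have a0 := h0 (i + 1) hi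
    have a1 := h1 (i + 1) hi
    have a2 := hWR (i + 1) hi
    have a3 := hA (i + 1) hi
    rw [hc1] at a0 a2 a3
    rw [hc2] at a1 a2 a3
    exact node_pos hL hR h hi (hS i hi0) (hS (i + 1) hi) (h0 i hi0) (h1 i hi0) a0 a1
      (hWR i hi0) a2 (hA i hi0) a3 g1 g2
  have nn : ∀ i, i + 1 < N → -(R / N) < n (i + 1) - n i → n (i + 2) - n (i + 1) < R / N →
      W i (((i : ℝ) + 1) / N) ≤ W (i + 1) (((i : ℝ) + 1) / N) := by
    intro i hi g1 g2
    have hi0 : i < N := by omega
    have a0 := h0 (i + 1) hi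
    have a1 := h1 (i + 1) hi
    have a2 := hWR (i + 1) hi
    have a3 := hA (i + 1) hi
    rw [hc1] at a0 a2 a3
    rw [hc2] at a1 a2 a3
    exact node_neg hL hR h hi (hS i hi0) (hS (i + 1) hi) (h0 i hi0) (h1 i hi0) a0 a1
      (hWR i hi0) a2 (hA i hi0) a3 g1 g2
  have hlo : ∀ i, i + 1 < N → |W (i + 1) (((i : ℝ) + 1) / N) - N * (n (i + 2) - n (i + 1))| ≤
      1 / 4 := by
    intro i hi
    have b := hW (i + 1) hi _ (hleft (i + 1) hi)
    rwa [hc1] at b
  have hhi : ∀ i, i < N → |W i (((i : ℝ) + 1) / N) - N * (n (i + 1) - n i)| ≤ 1 / 4 := by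
    intro i hi
    exact hW i hi _ (hright i hi)
  have hDN : D / N ≤ R / N := by
    gcongr
    linarith
  have hDN0 : 0 < D / N := by positivity
  have hRN0 : 0 < R / N := by positivity
  have hmD : (N : ℝ) * (D / N) = D := by field_simp
  have hmR : (N : ℝ) * (R / N) = R := by field_simp
  have hsum : y - x = ∑ i ∈ Finset.range N, (n (i + 1) - n i) := by
    rw [Finset.sum_range_sub, h.adm.st, h.adm.en]
  -- step 1
  obtain ⟨j, hj, hjD⟩ : ∃ j, j < N ∧ |n (j + 1) - n j| ≤ D / N := by
    by_contra hcon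
    push Not at hcon
    rcases lt_or_ge 0 (n (0 + 1) - n 0) with hpos | hneg
    · have hall : ∀ i, i < N → D / N ≤ n (i + 1) - n i := by
        intro i
        induction i with
        | zero =>
          intro hi
          have b := hcon 0 hi
          rw [abs_of_pos hpos] at b
          exact b.le
        | succ i ih =>
          intro hi
          have b0 := ih (by omega)
          by_contra hc
          rw [not_le] at hc
          have b1 := hcon (i + 1) hi
          have b2 : n (i + 1 + 1) - n (i + 1) < -(D / N) := by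
            rcases lt_abs.1 b1 with b | b
            · exact absurd hc (not_lt.2 b.le)
            · linarith
          have b3 := nn i hi (by linarith) (by
            have : n (i + 2) - n (i + 1) < -(D / N) := b2
            linarith)
          have b4 := abs_le.1 (hlo i hi)
          have b5 := abs_le.1 (hhi i (by omega))
          have b6 : (N : ℝ) * (D / N) ≤ N * (n (i + 1) - n i) := by gcongr
          have b7 : (N : ℝ) * (n (i + 2) - n (i + 1)) ≤ N * (-(D / N)) :=
            mul_le_mul_of_nonneg_left b2.le hN0.le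
          rw [mul_neg, hmD] at b7
          rw [hmD] at b6
          linarith [b4.1, b4.2, b5.1, b5.2]
      have b1 : (N : ℝ) * (D / N) ≤ y - x := by
        rw [hsum]
        have b2 := Finset.card_nsmul_le_sum (Finset.range N) (fun i => n (i + 1) - n i) (D / N)
          (fun i hi => hall i (Finset.mem_range.1 hi))
        rwa [Finset.card_range, nsmul_eq_mul] at b2
      rw [hmD] at b1
      have b2 := le_abs_self (y - x)
      linarith
    · have hall : ∀ i, i < N → n (i + 1) - n i ≤ -(D / N) := by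
        intro i
        induction i with
        | zero =>
          intro hi
          have b := hcon 0 hi
          rw [abs_of_nonpos hneg] at b
          linarith
        | succ i ih =>
          intro hi
          have b0 := ih (by omega)
          by_contra hc
          rw [not_le] at hc
          have b1 := hcon (i + 1) hi
          have b2 : D / N < n (i + 1 + 1) - n (i + 1) := by
            rcases lt_abs.1 b1 with b | b
            · exact b
            · exact absurd hc (not_lt.2 (by linarith))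
          have b3 := np i hi (by linarith) (by
            have : D / N < n (i + 2) - n (i + 1) := b2
            linarith)
          have b4 := abs_le.1 (hlo i hi)
          have b5 := abs_le.1 (hhi i (by omega))
          have b6 : (N : ℝ) * (n (i + 1) - n i) ≤ N * (-(D / N)) :=
            mul_le_mul_of_nonneg_left b0 hN0.le
          have b7 : (N : ℝ) * (D / N) ≤ N * (n (i + 2) - n (i + 1)) :=
            mul_le_mul_of_nonneg_left b2.le hN0.le
          rw [mul_neg, hmD] at b6
          rw [hmD] at b7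
          linarith [b4.1, b4.2, b5.1, b5.2]
      have b1 : y - x ≤ (N : ℝ) * (-(D / N)) := by
        rw [hsum]
        have b2 := Finset.sum_le_card_nsmul (Finset.range N) (fun i => n (i + 1) - n i) (-(D / N))
          (fun i hi => hall i (Finset.mem_range.1 hi))
        rwa [Finset.card_range, nsmul_eq_mul] at b2
      rw [mul_neg, hmD] at b1
      have b2 := neg_abs_le (y - x)
      linarith
  -- the velocity bound of the solution `j`
  have hnj := exs_node hN hj
  have hbd : ∀ t ∈ Icc (0 : ℝ) 1, |W j t| ≤ Ω D := by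
    have e2 : (j : ℝ) / N < ((j : ℝ) + 1) / N := by
      have : (0 : ℝ) < 1 / N := by positivity
      linarith [hnj.2.2.2]
    obtain ⟨s, hs1, hs2⟩ := exists_hasDerivAt_eq_slope (X j) (W j) e2
      (fun t _ => ((hS j hj).pos t).continuousAt.continuousWithinAt) (fun t _ => (hS j hj).pos t)
    rw [h0 j hj, h1 j hj, hnj.2.2.2] at hs2
    have e3 : (n (j + 1) - n j) / (1 / (N : ℝ)) = N * (n (j + 1) - n j) := by
      field_simp
    rw [e3] at hs2
    have e4 : |W j s| ≤ D := by
      rw [hs2, abs_mul, abs_of_pos hN0, ← hmD]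
      gcongr
    intro t ht
    refine hΩ.bd (X j) (W j) (hS j hj) s t D e4 ?_
    rw [abs_le]
    constructor <;> linarith [hs1.1, hs1.2, ht.1, ht.2, hnj.1, hnj.2.2.1]
  have hnode : ∀ i, i < N → ((i : ℝ) + 1) / N ∈ Icc (0 : ℝ) 1 := fun i hi =>
    ⟨by positivity, (exs_node hN hi).2.2.1⟩
  have hglue : ∀ i, i + 1 < N → |n (i + 1) - n i| < R / N → |n (i + 2) - n (i + 1)| < R / N →
      X i = X (i + 1) ∧ W i = W (i + 1) := by
    intro i hi g1 g2
    rw [abs_lt] at g1 g2
    have b1 := np i hi g1.2 g2.1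
    have b2 := nn i hi g1.1 g2.2
    have a0 := h0 (i + 1) hi
    rw [hc1] at a0
    exact sol_uniq hL (hS i (by omega)) (hS (i + 1) hi)
      (s := ((i : ℝ) + 1) / N) ((h1 i (by omega)).trans a0.symm) (le_antisymm b2 b1)
  have hbd0 : ∀ i, i < N → |n (i + 1) - n i| ≤ R / N := h.adm.bd
  have hj0 : |n (j + 1) - n j| < R / N := by
    refine hjD.trans_lt ?_
    gcongr
    linarith
  have hup : ∀ k, j + k < N → |n (j + k + 1) - n (j + k)| < R / N ∧ X (j + k) = X j ∧
      W (j + k) = W j := by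
    intro k
    induction k with
    | zero =>
      intro _
      exact ⟨hj0, rfl, rfl⟩
    | succ k ih =>
      intro hk
      obtain ⟨g1, g2, g3⟩ := ih (by omega)
      have hk' : j + k + 1 < N := hk
      have g4 : |n (j + k + 2) - n (j + k + 1)| < R / N := by
        refine lt_of_le_of_ne (hbd0 (j + k + 1) hk') fun hcon => ?_
        have c1 := abs_le.1 (hlo (j + k) hk')
        have c2 := hbd _ (hnode (j + k) (by omega))
        rw [← g3] at c2
        have c3 := abs_le.1 c2
        rw [abs_lt] at g1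
        rcases abs_cases (n (j + k + 2) - n (j + k + 1)) with c | c
        · rw [c.1] at hcon
          have d1 := np (j + k) hk' g1.2 (by rw [hcon]; linarith)
          rw [hcon, hmR] at c1
          linarith [c1.1, c1.2, c3.1, c3.2]
        · rw [c.1] at hcon
          have hcon' : n (j + k + 2) - n (j + k + 1) = -(R / N) := by linarith
          have d1 := nn (j + k) hk' g1.1 (by rw [hcon']; linarith)
          rw [hcon', mul_neg, hmR] at c1
          linarith [c1.1, c1.2, c3.1, c3.2]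
      have g5 := hglue (j + k) hk' g1 g4
      exact ⟨g4, g5.1.symm.trans g2, g5.2.symm.trans g3⟩
  have hdown : ∀ k, k ≤ j → |n (j - k + 1) - n (j - k)| < R / N ∧ X (j - k) = X j ∧
      W (j - k) = W j := by
    intro k
    induction k with
    | zero =>
      intro _
      exact ⟨hj0, rfl, rfl⟩
    | succ k ih =>
      intro hk
      obtain ⟨g1, g2, g3⟩ := ih (by omega)
      obtain ⟨i, hi⟩ : ∃ i, j - k = i + 1 := ⟨j - k - 1, by omega⟩
      have hi' : j - (k + 1) = i := by omega
      rw [hi] at g1 g2 g3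
      rw [hi']
      have hiN : i + 1 < N := by omega
      have g4 : |n (i + 1) - n i| < R / N := by
        refine lt_of_le_of_ne (hbd0 i (by omega)) fun hcon => ?_
        have c1 := abs_le.1 (hhi i (by omega))
        have c2 := hbd _ (hnode i (by omega))
        rw [← g3] at c2
        have c3 := abs_le.1 c2
        have g1' : |n (i + 2) - n (i + 1)| < R / N := g1
        rw [abs_lt] at g1'
        rcases abs_cases (n (i + 1) - n i) with c | c
        · rw [c.1] at hcon
          have d1 := nn i hiN (by rw [hcon]; linarith) g1'.2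
          rw [hcon, hmR] at c1
          linarith [c1.1, c1.2, c3.1, c3.2]
        · rw [c.1] at hcon
          have hcon' : n (i + 1) - n i = -(R / N) := by linarith
          have d1 := np i hiN (by rw [hcon']; linarith) g1'.1
          rw [hcon', mul_neg, hmR] at c1
          linarith [c1.1, c1.2, c3.1, c3.2]
      have g5 := hglue i hiN g4 g1
      exact ⟨g4, g5.1.trans g2, g5.2.trans g3⟩
  have hall : ∀ i, i < N → X i = X j ∧ W i = W j := by
    intro i hi
    rcases le_total i j with hij | hij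
    · have b := (hdown (j - i) (by omega)).2
      rwa [show j - (j - i) = i by omega] at b
    · have b := (hup (i - j) (by omega)).2
      rwa [show j + (i - j) = i by omega] at b
  refine ⟨X j, W j, hS j hj, ?_, ?_, hbd, ?_⟩
  · have b := h0 0 hN
    rw [(hall 0 hN).1, Nat.cast_zero, zero_div] at b
    rw [b, h.adm.st]
  · have hN1 : N - 1 < N := by omega
    have b := h1 (N - 1) hN1
    have e : ((N - 1 : ℕ) : ℝ) + 1 = N := by
      have : N - 1 + 1 = N := by omega
      exact_mod_cast this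
    rw [(hall _ hN1).1, e, div_self hN0.ne', show N - 1 + 1 = N by omega] at b
    rw [b, h.adm.en]
  · have b := exs_sum hN hL (sol_cv (hS j hj) (zero_le_one' ℝ)) N le_rfl
    rw [div_self hN0.ne'] at b
    rw [b, bra]
    refine Finset.sum_congr rfl fun i hi => ?_
    have hi' := Finset.mem_range.1 hi
    have c := hA i hi'
    rw [(hall i hi').1, (hall i hi').2] at c
    exact c

/-- Existence of minimal arcs. Proof. `R₀ = Ω (|y - x| + 1) + 1`, the solution `γ_R` of `minN_sol`
for every `R ≥ R₀`.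
Independence of `R`: for `R' ≥ R` the nodes of `γ_{R'}` at the times `i / N_R` are admissible for
`R` (`|W| ≤ Ω ≤ R`) and
`sa_le` gives `act γ_R ≤ bra (nodes) ≤ act γ_{R'}`. A curve `(z, u)` from `x` to `y` has `|u| ≤ R'`
on `[0, 1]` for some
`R' ≥ R₀`; its nodes are admissible for `R'` (`|z (b) - z (a)| ≤ R' (b - a)`), so
`act γ_{R'} ≤ bra (nodes of z) ≤ act z`. So
`γ_{R₀}` is minimal: `act = mm L x y`. -/
theorem exists_arc (hL : Ton L) (x y : ℝ) : ∃ X W : ℝ → ℝ, Arc L x y X W := by
  obtain ⟨Ω, hΩ⟩ := exists_omg hL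
  set D : ℝ := |y - x| + 1 with hD
  have hD1 : 1 ≤ D := by
    have := abs_nonneg (y - x)
    linarith
  have hDΩ : D ≤ Ω D := hΩ.le D
  -- the arcs for every `R`
  have hR : ∀ R : ℝ, Ω D + 1 ≤ R → ∃ X W : ℝ → ℝ, Sol L X W ∧ X 0 = x ∧ X 1 = y ∧
      (∀ t ∈ Icc (0 : ℝ) 1, |W t| ≤ Ω D) ∧ ∀ z u : ℝ → ℝ, Cv z u 0 1 → z 0 = x → z 1 = y →
        (∀ t ∈ Icc (0 : ℝ) 1, |u t| ≤ R) → act L X W 0 1 ≤ act L z u 0 1 := by
    intro R hR
    have hR1 : 1 ≤ R := by linarith
    obtain ⟨τ₀, ht0, -, hs⟩ := exists_isShort hL hR1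
    obtain ⟨N, hN⟩ := exists_nat_gt (1 / τ₀)
    have hN0' : (0 : ℝ) < N := lt_trans (by positivity) hN
    have hN0 : 0 < N := Nat.cast_pos.1 hN0'
    have hN1 : 1 / (N : ℝ) ≤ τ₀ := by
      rw [div_le_iff₀ hN0']
      rw [div_lt_iff₀ ht0] at hN
      linarith
    obtain ⟨n, hn⟩ := exists_minN hL hR1 hs hN0 hN1 (x := x) (y := y) (by linarith)
    obtain ⟨X, W, a1, a2, a3, a4, a5⟩ := minN_sol hL hΩ hR1 hR hs hN0 hN1 hn
    refine ⟨X, W, a1, a2, a3, a4, fun z u hz hz0 hz1 hu => ?_⟩
    have hsub : ∀ i, i < N → Cv z u ((i : ℝ) / N) (((i : ℝ) + 1) / N) := by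
      intro i hi
      obtain ⟨e1, e2, e3, -⟩ := exs_node hN0 hi
      exact cv_mono hz e1 e2 e3
    have husub : ∀ i, i < N → ∀ t ∈ Icc ((i : ℝ) / N) (((i : ℝ) + 1) / N), |u t| ≤ R := by
      intro i hi t ht
      obtain ⟨e1, e2, e3, -⟩ := exs_node hN0 hi
      exact hu t ⟨e1.trans ht.1, ht.2.trans e3⟩
    have hadm : Adm R N x y (fun i => z ((i : ℝ) / N)) := by
      refine ⟨?_, ?_, fun i hi => ?_⟩
      · change z (((0 : ℕ) : ℝ) / N) = x
        rw [Nat.cast_zero, zero_div, hz0]
      · change z ((N : ℝ) / N) = y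
        rw [div_self hN0'.ne', hz1]
      · change |z (((i + 1 : ℕ) : ℝ) / N) - z ((i : ℝ) / N)| ≤ R / N
        obtain ⟨e1, e2, e3, e4⟩ := exs_node hN0 hi
        rw [Nat.cast_succ, ← cv_ftc (hsub i hi)]
        have b := intervalIntegral.norm_integral_le_of_norm_le_const (a := (i : ℝ) / N)
          (b := ((i : ℝ) + 1) / N) (f := u) (C := R) (fun t ht => by
            rw [uIoc_of_le e2] at ht
            exact husub i hi t ⟨ht.1.le, ht.2⟩)
        rw [Real.norm_eq_abs, e4, abs_of_pos (by positivity : (0 : ℝ) < 1 / N), mul_one_div] at b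
        exact b
    have b1 := hn.mn _ hadm
    rw [a5]
    refine b1.trans ?_
    have b2 := exs_sum hN0 hL hz N le_rfl
    rw [div_self hN0'.ne'] at b2
    rw [b2, bra]
    refine Finset.sum_le_sum fun i hi => ?_
    have hi' := Finset.mem_range.1 hi
    have b3 := sa_le hL (K := 2 * R) (hsub i hi')
      (fun t ht => (husub i hi' t ht).trans (by linarith))
    have e5 : (((i + 1 : ℕ) : ℝ)) / N = ((i : ℝ) + 1) / N := by rw [Nat.cast_succ]
    rw [e5]
    exact b3
  obtain ⟨X, W, a1, a2, a3, a4, a5⟩ := hR (Ω D + 1) le_rfl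
  refine ⟨X, W, a1, a2, a3, le_antisymm ?_ ?_⟩
  · refine le_csInf ⟨_, X, W, sol_cv a1 zero_le_one, a2, a3, rfl⟩ ?_
    rintro r ⟨z, u, hz, hz0, hz1, rfl⟩
    obtain ⟨M, hM⟩ := hz.bdd
    obtain ⟨X', W', c1, c2, c3, c4, c5⟩ := hR (max (Ω D + 1) M) (le_max_left _ _)
    refine (a5 X' W' (sol_cv c1 zero_le_one) c2 c3
      fun t ht => (c4 t ht).trans (by linarith)).trans ?_
    exact c5 z u hz hz0 hz1 fun t ht => (hM t ht).trans (le_max_right _ _)
  · have b := mm_le hL (sol_cv a1 (zero_le_one' ℝ))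
    rwa [a2, a3] at b

end Pool.Agent.NOne
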