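import Pool.Agent.NOne.AAna

/-! AFlow. Solutions: uniqueness, the functions `FX`, `FW`, translations by integers. -/

set_option autoImplicit false

namespace Pool.Agent.NOne

open Set

variable {L : ℝ → ℝ → ℝ → ℝ} {X W X' W' : ℝ → ℝ}

theorem sol_cont (h : Sol L X W) : Continuous X ∧ Continuous W :=
  ⟨continuous_iff_continuousAt.mpr fun t => (h.pos t).continuousAt,
    continuous_iff_continuousAt.mpr fun t => (h.vel t).continuousAt⟩

private theorem bdd_on {f : ℝ → ℝ} (hf : Continuous f) (a b : ℝ) :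
    ∃ R : ℝ, ∀ t ∈ Icc a b, |f t| ≤ R := by
  obtain ⟨R, hR⟩ := isCompact_Icc.exists_bound_of_continuousOn (s := Icc a b) hf.continuousOn
  exact ⟨R, fun t ht => hR t ht⟩

private theorem uniq_on (hL : Ton L) (h : Sol L X W) (h' : Sol L X' W') {s : ℝ}
    (hx : X s = X' s) (hw : W s = W' s) {a b : ℝ} (hs : s ∈ Ioo a b) :
    EqOn (fun t => (X t, W t)) (fun t => (X' t, W' t)) (Icc a b) := by
  obtain ⟨R₁, h₁⟩ := bdd_on (sol_cont h).1 a b
  obtain ⟨R₂, h₂⟩ := bdd_on (sol_cont h).2 a b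
  obtain ⟨R₃, h₃⟩ := bdd_on (sol_cont h').1 a b
  obtain ⟨R₄, h₄⟩ := bdd_on (sol_cont h').2 a b
  obtain ⟨R₅, h₅⟩ := bdd_on continuous_id a b
  set R : ℝ := max (max (max R₁ R₂) (max R₃ R₄)) R₅ with hR
  have e₁ : R₁ ≤ R := by simp [hR]
  have e₂ : R₂ ≤ R := by simp [hR]
  have e₃ : R₃ ≤ R := by simp [hR]
  have e₄ : R₄ ≤ R := by simp [hR]
  have e₅ : R₅ ≤ R := by simp [hR]
  have hacc := ana_contDiff (acc_ana hL) 1
  have hΦ : ContDiff ℝ 1 (fun z : ℝ × ℝ × ℝ => (z.2.1, acc L z.1 z.2.1 z.2.2)) :=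
    (contDiff_snd.fst).prodMk hacc
  obtain ⟨K, hK⟩ := ContDiffOn.exists_lipschitzOnWith
    (hΦ.contDiffOn (s := Metric.closedBall (0 : ℝ × ℝ × ℝ) R)) one_ne_zero
    (convex_closedBall _ _) (isCompact_closedBall _ _)
  have hmem : ∀ x v t : ℝ, |x| ≤ R → |v| ≤ R → |t| ≤ R →
      ((x, v, t) : ℝ × ℝ × ℝ) ∈ Metric.closedBall (0 : ℝ × ℝ × ℝ) R := by
    intro x v t h1 h2 h3
    rw [mem_closedBall_zero_iff]
    exact max_le h1 (max_le h2 h3)
  refine ODE_solution_unique_of_mem_Icc (v := fun t z => (z.2, acc L z.1 z.2 t))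
    (s := fun _ => Metric.closedBall (0 : ℝ × ℝ) R) (K := K) ?_ hs ?_ ?_ ?_ ?_ ?_ ?_ ?_
  · intro t ht
    have htR : |t| ≤ R := (h₅ t (Ioo_subset_Icc_self ht)).trans e₅
    rw [lipschitzOnWith_iff_dist_le_mul]
    intro z hz z' hz'
    rw [mem_closedBall_zero_iff] at hz hz'
    have hz1 : |z.1| ≤ R := (le_max_left _ _).trans hz
    have hz2 : |z.2| ≤ R := (le_max_right _ _).trans hz
    have hz1' : |z'.1| ≤ R := (le_max_left _ _).trans hz'
    have hz2' : |z'.2| ≤ R := (le_max_right _ _).trans hz'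
    have h := hK.dist_le_mul (z.1, z.2, t) (hmem _ _ _ hz1 hz2 htR) (z'.1, z'.2, t)
      (hmem _ _ _ hz1' hz2' htR)
    have e : dist ((z.1, z.2, t) : ℝ × ℝ × ℝ) (z'.1, z'.2, t) = dist z z' := by
      rw [Prod.dist_eq, Prod.dist_eq, Prod.dist_eq (x := z)]
      simp
    rw [e] at h
    exact h
  · exact ((sol_cont h).1.prodMk (sol_cont h).2).continuousOn
  · intro t _
    exact (h.pos t).prodMk (h.vel t)
  · intro t ht
    rw [mem_closedBall_zero_iff]
    exact max_le ((h₁ t (Ioo_subset_Icc_self ht)).trans e₁)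
      ((h₂ t (Ioo_subset_Icc_self ht)).trans e₂)
  · exact ((sol_cont h').1.prodMk (sol_cont h').2).continuousOn
  · intro t _
    exact (h'.pos t).prodMk (h'.vel t)
  · intro t ht
    rw [mem_closedBall_zero_iff]
    exact max_le ((h₃ t (Ioo_subset_Icc_self ht)).trans e₃)
      ((h₄ t (Ioo_subset_Icc_self ht)).trans e₄)
  · exact Prod.ext hx hw

/-- Uniqueness. Proof. The curve `t ↦ (X t, W t)` in `ℝ × ℝ` is a trajectory of the time-dependent
field
`(t, z) ↦ (z.2, acc L z.1 z.2 t)`, which is Lipschitz in `z` on compact sets, uniformly for `t` in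
compact sets
(`acc_ana`, `ana_contDiff`; a bound for `fderiv` on a ball,
`Convex.lipschitzOnWith_of_nnnorm_fderiv_le`):
`ODE_solution_unique_of_mem_Icc` on `[s - T, s + T]` for every `T`. -/
theorem sol_uniq (hL : Ton L) (h : Sol L X W) (h' : Sol L X' W') {s : ℝ} (hx : X s = X' s)
    (hw : W s = W' s) : X = X' ∧ W = W' := by
  have key : ∀ t : ℝ, (X t, W t) = (X' t, W' t) := by
    intro t
    have hs : s ∈ Ioo (min s t - 1) (max s t + 1) :=
      ⟨by linarith [min_le_left s t], by linarith [le_max_left s t]⟩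
    have ht : t ∈ Icc (min s t - 1) (max s t + 1) :=
      ⟨by linarith [min_le_right s t], by linarith [le_max_right s t]⟩
    exact uniq_on hL h h' hx hw hs ht
  exact ⟨funext fun t => congrArg Prod.fst (key t), funext fun t => congrArg Prod.snd (key t)⟩

private theorem fx_spec (hL : Ton L) (x v : ℝ) :
    Sol L (fun t => FX L t x v) (fun t => FW L t x v) ∧ FX L 0 x v = x ∧ FW L 0 x v = v := by
  have h : ∃ X W : ℝ → ℝ, Sol L X W ∧ X 0 = x ∧ W 0 = v := hL.compl 0 x v
  have h1 : (fun t => FX L t x v) = h.choose := by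
    funext t
    unfold FX
    rw [dif_pos h]
  have h2 : (fun t => FW L t x v) = h.choose_spec.choose := by
    funext t
    unfold FW
    rw [dif_pos h]
  have h3 := h.choose_spec.choose_spec
  have h4 : FX L 0 x v = h.choose 0 := congrFun h1 0
  have h5 : FW L 0 x v = h.choose_spec.choose 0 := congrFun h2 0
  rw [h1, h2, h4, h5]
  exact h3

theorem fx_sol (hL : Ton L) (x v : ℝ) : Sol L (fun t => FX L t x v) (fun t => FW L t x v) :=
  (fx_spec hL x v).1

theorem fx_zero (hL : Ton L) (x v : ℝ) : FX L 0 x v = x := (fx_spec hL x v).2.1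

theorem fw_zero (hL : Ton L) (x v : ℝ) : FW L 0 x v = v := (fx_spec hL x v).2.2

theorem sol_eq (hL : Ton L) (h : Sol L X W) (t : ℝ) :
    X t = FX L t (X 0) (W 0) ∧ W t = FW L t (X 0) (W 0) := by
  have h1 := sol_uniq hL h (fx_sol hL (X 0) (W 0)) (s := 0) (fx_zero hL _ _).symm
    (fw_zero hL _ _).symm
  exact ⟨congrFun h1.1 t, congrFun h1.2 t⟩

theorem sol_shift_x (hL : Ton L) (h : Sol L X W) (k : ℤ) : Sol L (fun t => X t + k) W := by
  refine ⟨fun t => (h.pos t).add_const _, fun t => ?_⟩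
  rw [per_int (F := acc L) (acc_perx hL)]
  exact h.vel t

theorem sol_shift_t (hL : Ton L) (h : Sol L X W) (k : ℤ) :
    Sol L (fun t => X (t + k)) (fun t => W (t + k)) := by
  refine ⟨fun t => (h.pos (t + k)).comp_add_const t k, fun t => ?_⟩
  rw [← pet_int (F := acc L) (acc_pert hL) _ _ t k]
  exact (h.vel (t + k)).comp_add_const t k

theorem fx_int (hL : Ton L) (t x v : ℝ) (k : ℤ) : FX L t (x + k) v = FX L t x v + k := by
  have h := (sol_eq hL (sol_shift_x hL (fx_sol hL x v) k) t).1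
  simp only [fx_zero hL, fw_zero hL] at h
  exact h.symm

theorem fw_int (hL : Ton L) (t x v : ℝ) (k : ℤ) : FW L t (x + k) v = FW L t x v := by
  have h := (sol_eq hL (sol_shift_x hL (fx_sol hL x v) k) t).2
  simp only [fx_zero hL, fw_zero hL] at h
  exact h.symm

theorem fx_add (hL : Ton L) (t x v : ℝ) (k : ℤ) :
    FX L (t + k) x v = FX L t (FX L k x v) (FW L k x v) := by
  have h := (sol_eq hL (sol_shift_t hL (fx_sol hL x v) k) t).1
  simp only [zero_add] at h
  exact h

theorem fw_add (hL : Ton L) (t x v : ℝ) (k : ℤ) :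
    FW L (t + k) x v = FW L t (FX L k x v) (FW L k x v) := by
  have h := (sol_eq hL (sol_shift_t hL (fx_sol hL x v) k) t).2
  simp only [zero_add] at h
  exact h

/-- The Euler-Lagrange equation. Proof. `ana_chain` for `d2 L`, definition of `acc`. -/
theorem sol_mom (hL : Ton L) (h : Sol L X W) (t : ℝ) :
    HasDerivAt (fun s => d2 L (X s) (W s) s) (d1 L (X t) (W t) t) t := by
  have h1 := ana_chain (ana_d2 hL.ana) (h.pos t) (h.vel t) (hasDerivAt_id t)
  have hc := hL.conv (X t) (W t) t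
  have e : d1 (d2 L) (X t) (W t) (id t) * W t +
      d2 (d2 L) (X t) (W t) (id t) * acc L (X t) (W t) t + d3 (d2 L) (X t) (W t) (id t) * 1 =
      d1 L (X t) (W t) t := by
    unfold acc
    simp only [id_eq]
    field_simp
    ring
  rw [e] at h1
  exact h1

theorem sol_cv (h : Sol L X W) {a b : ℝ} (hab : a ≤ b) : Cv X W a b :=
  ⟨hab, (sol_cont h).1.continuousOn, ⟨∅, countable_empty, fun t _ _ => h.pos t⟩,
    (sol_cont h).2.measurable, bdd_on (sol_cont h).2 a b⟩

/-- Two solutions with the same position at time `s` and the same momentum have the same velocity.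
-/
theorem sol_mom_eq (hL : Ton L) {x v w t : ℝ} (h : d2 L x v t = d2 L x w t) : v = w :=
  (d2_strictMono hL x t).injective h

end Pool.Agent.NOne
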