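import Pool.Agent.NOne.AT6

/-! AT7. The limits exist; conclusion for the discrete problem. -/

set_option autoImplicit false

namespace Pool.Agent.NOne

open Finset Filter Topology

variable {m : ℝ → ℝ → ℝ}

/-- Proof. For `N ≥ 3` let `u, v` be the sequences of `exists_mono_at`, `exists_anti_at`:
`u (-1), u 0, u 1, u 2` are in
`[x₁ - 2, x₁ + 2]` (monotone and `u (i + 1) ≤ u (i + N) = u i + 1`), the same for `v`. A
subsequence of the points of `ℝ^8` converges
(`IsCompact.tendsto_subseq` for a product of intervals), and the inequalities `pre_*` (for `i = 0`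
and `i = 1`) pass to the limit
(`h.cont`, `tendsto_bp`, `tendsto_bm`, `hb`: `MM m N 1 + MM m N (-1) - 2 N m₀ → bp + bm = 0`). -/
theorem exists_lim (h : Tw m) (hb : bp m + bm m = 0) (x₁ : ℝ) :
    ∃ a₀ a₁ a₂ a₃ b₀ b₁ b₂ b₃ : ℝ, Lim m x₁ a₀ a₁ a₂ a₃ b₀ b₁ b₂ b₃ := by
  have hN0 : ∀ n : ℕ, 0 < n + 3 := fun n => by omega
  choose u hu humono hu0 hu1 using fun n : ℕ => exists_mono_at h (hN0 n) x₁
  choose v hv hvanti hv0 hv1 using fun n : ℕ => exists_anti_at h (hN0 n) x₁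
  -- bounds
  have hub : ∀ n : ℕ, ∀ i ∈ ({-1, 0, 1, 2} : Set ℤ), u n i ∈ Set.Icc (x₁ - 1) (x₁ + 1) := by
    intro n i hi
    have e1 := (hu n).ty 0
    have e2 := (hu n).ty (-1)
    have k1 : u n 2 ≤ u n (0 + ((n + 3 : ℕ) : ℤ)) := humono n (by push_cast; omega)
    have k2 : u n 1 ≤ u n (-1 + ((n + 3 : ℕ) : ℤ)) := humono n (by push_cast; omega)
    have k3 : u n (-1) ≤ u n 0 := humono n (by omega)
    have k4 : u n 0 ≤ u n 1 := humono n (by omega)
    have k5 : u n 1 ≤ u n 2 := humono n (by omega)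
    have l0 := hu0 n
    have l1 := hu1 n
    push_cast at e1 e2 k1 k2
    simp only [Set.mem_insert_iff, Set.mem_singleton_iff] at hi
    rcases hi with rfl | rfl | rfl | rfl <;> constructor <;> linarith
  have hvb : ∀ n : ℕ, ∀ i ∈ ({-1, 0, 1, 2} : Set ℤ), v n i ∈ Set.Icc (x₁ - 1) (x₁ + 1) := by
    intro n i hi
    have e1 := (hv n).ty 0
    have e2 := (hv n).ty (-1)
    have k1 : v n (0 + ((n + 3 : ℕ) : ℤ)) ≤ v n 2 := hvanti n (by push_cast; omega)
    have k2 : v n (-1 + ((n + 3 : ℕ) : ℤ)) ≤ v n 1 := hvanti n (by push_cast; omega)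
    have k3 : v n 0 ≤ v n (-1) := hvanti n (by omega)
    have k4 : v n 1 ≤ v n 0 := hvanti n (by omega)
    have k5 : v n 2 ≤ v n 1 := hvanti n (by omega)
    have l0 := hv0 n
    have l1 := hv1 n
    push_cast at e1 e2 k1 k2
    simp only [Set.mem_insert_iff, Set.mem_singleton_iff] at hi
    rcases hi with rfl | rfl | rfl | rfl <;> constructor <;> linarith
  -- a convergent subsequence
  let W : ℕ → (Fin 4 → ℝ) × (Fin 4 → ℝ) := fun n =>
    (fun k => u n ((k : ℤ) - 1), fun k => v n ((k : ℤ) - 1))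
  have hK : IsCompact ((Set.univ.pi fun _ : Fin 4 => Set.Icc (x₁ - 1) (x₁ + 1)) ×ˢ
      (Set.univ.pi fun _ : Fin 4 => Set.Icc (x₁ - 1) (x₁ + 1))) :=
    (isCompact_univ_pi fun _ => isCompact_Icc).prod (isCompact_univ_pi fun _ => isCompact_Icc)
  have hidx : ∀ k : Fin 4, ((k : ℤ) - 1) ∈ ({-1, 0, 1, 2} : Set ℤ) := by
    intro k
    fin_cases k <;> simp
  have hW : ∀ n, W n ∈ ((Set.univ.pi fun _ : Fin 4 => Set.Icc (x₁ - 1) (x₁ + 1)) ×ˢ
      (Set.univ.pi fun _ : Fin 4 => Set.Icc (x₁ - 1) (x₁ + 1))) := fun n =>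
    ⟨fun k _ => hub n _ (hidx k), fun k _ => hvb n _ (hidx k)⟩
  obtain ⟨p, -, φ, hφ, hp⟩ := hK.tendsto_subseq hW
  have hp1 := (Prod.tendsto_iff _ _).1 hp
  have hpu := tendsto_pi_nhds.1 hp1.1
  have hpv := tendsto_pi_nhds.1 hp1.2
  have U0 : Tendsto (fun n => u (φ n) (-1)) atTop (𝓝 (p.1 0)) := by
    have := hpu 0
    simpa [W] using this
  have U1 : Tendsto (fun n => u (φ n) 0) atTop (𝓝 (p.1 1)) := by
    have := hpu 1
    simpa [W] using this
  have U2 : Tendsto (fun n => u (φ n) 1) atTop (𝓝 (p.1 2)) := by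
    have := hpu 2
    simpa [W] using this
  have U3 : Tendsto (fun n => u (φ n) 2) atTop (𝓝 (p.1 3)) := by
    have := hpu 3
    simpa [W] using this
  have V0 : Tendsto (fun n => v (φ n) (-1)) atTop (𝓝 (p.2 0)) := by
    have := hpv 0
    simpa [W] using this
  have V1 : Tendsto (fun n => v (φ n) 0) atTop (𝓝 (p.2 1)) := by
    have := hpv 1
    simpa [W] using this
  have V2 : Tendsto (fun n => v (φ n) 1) atTop (𝓝 (p.2 2)) := by
    have := hpv 2
    simpa [W] using this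
  have V3 : Tendsto (fun n => v (φ n) 2) atTop (𝓝 (p.2 3)) := by
    have := hpv 3
    simpa [W] using this
  generalize p.1 0 = a₀ at U0
  generalize p.1 1 = a₁ at U1
  generalize p.1 2 = a₂ at U2
  generalize p.1 3 = a₃ at U3
  generalize p.2 0 = b₀ at V0
  generalize p.2 1 = b₁ at V1
  generalize p.2 2 = b₂ at V2
  generalize p.2 3 = b₃ at V3
  -- the errors
  have hN : Tendsto (fun n => φ n + 3) atTop atTop :=
    tendsto_atTop_mono (fun n => Nat.le_add_right _ _) hφ.tendsto_atTop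
  have E1 : Tendsto (fun n => MM m (φ n + 3) 1 - ((φ n + 3 : ℕ) : ℝ) * MM m 1 0) atTop
      (𝓝 (bp m)) := (tendsto_bp h).comp hN
  have E2 : Tendsto (fun n => MM m (φ n + 3) (-1) - ((φ n + 3 : ℕ) : ℝ) * MM m 1 0) atTop
      (𝓝 (bm m)) := (tendsto_bm h).comp hN
  have E3 : Tendsto (fun n => MM m (φ n + 3) 1 + MM m (φ n + 3) (-1) -
      2 * ((φ n + 3 : ℕ) : ℝ) * MM m 1 0) atTop (𝓝 0) := by
    have := E1.add E2
    rw [hb] at this
    refine this.congr fun n => ?_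
    ring
  have E4 : Tendsto (fun n => MM m (φ n + 3) 1 - ((φ n + 3 : ℕ) : ℝ) * MM m 1 0 - bp m) atTop
      (𝓝 0) := by
    have := E1.sub_const (bp m)
    rwa [sub_self] at this
  -- continuity
  have hm : ∀ {f g : ℕ → ℝ} {a b : ℝ}, Tendsto f atTop (𝓝 a) → Tendsto g atTop (𝓝 b) →
      Tendsto (fun n => m (f n) (g n)) atTop (𝓝 (m a b)) := by
    intro f g a b hf hg
    exact (h.cont.tendsto (a, b)).comp (hf.prodMk_nhds hg)
  have hc : ∀ y : ℝ, Tendsto (fun _ : ℕ => y) atTop (𝓝 y) := fun y => tendsto_const_nhds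
  have h3 : ∀ n, 3 ≤ φ n + 3 := fun n => by omega
  refine ⟨a₀, a₁, a₂, a₃, b₀, b₁, b₂, b₃, ?_⟩
  constructor
  · exact le_of_tendsto_of_tendsto' U0 U1 fun n => humono _ (by omega)
  · exact le_of_tendsto' U1 fun n => hu0 _
  · exact ge_of_tendsto' U2 fun n => (hu1 _).le
  · exact le_of_tendsto_of_tendsto' U2 U3 fun n => humono _ (by omega)
  · exact le_of_tendsto_of_tendsto' V1 V0 fun n => hvanti _ (by omega)
  · exact ge_of_tendsto' V1 fun n => (hv0 _).le
  · exact le_of_tendsto' V2 fun n => hv1 _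
  · exact le_of_tendsto_of_tendsto' V3 V2 fun n => hvanti _ (by omega)
  · have L := (hm U1 U2).add (hm V1 V2)
    have R := ((hm U1 V2).add (hm V1 U2)).add E3
    rw [add_zero] at R
    exact le_of_tendsto_of_tendsto' L R fun n => pre_cr h (h3 n) (hu _) (hv _)
  · intro y
    refine le_of_tendsto_of_tendsto' ((hm U0 U1).add (hm U1 U2)) ((hm U0 (hc y)).add
      (hm (hc y) U2)) fun n => ?_
    have := pre_min h (h3 n) (hu (φ n)) 0 y
    simpa using this
  · intro y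
    refine le_of_tendsto_of_tendsto' ((hm V0 V1).add (hm V1 V2)) ((hm V0 (hc y)).add
      (hm (hc y) V2)) fun n => ?_
    have := pre_min h (h3 n) (hv (φ n)) 0 y
    simpa using this
  · intro y x
    have L := ((hm U0 U1).add (hm U1 U2)).add ((hm V0 V1).add (hm V1 V2))
    have R := (((hm U0 (hc y)).add (hm (hc y) V2)).add ((hm V0 (hc x)).add (hm (hc x) U2))).add E3
    rw [add_zero] at R
    refine le_of_tendsto_of_tendsto' L R fun n => ?_
    have := pre_mix h (h3 n) (hu (φ n)) (hv (φ n)) 0 y x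
    simpa using this
  · intro y
    refine le_of_tendsto_of_tendsto' ((hm U1 U2).add (hm U2 U3)) ((hm U1 (hc y)).add
      (hm (hc y) U3)) fun n => ?_
    have := pre_min h (h3 n) (hu (φ n)) 1 y
    norm_num at this
    exact this
  · intro y
    refine le_of_tendsto_of_tendsto' ((hm V1 V2).add (hm V2 V3)) ((hm V1 (hc y)).add
      (hm (hc y) V3)) fun n => ?_
    have := pre_min h (h3 n) (hv (φ n)) 1 y
    norm_num at this
    exact this
  · intro y x
    have L := ((hm U1 U2).add (hm U2 U3)).add ((hm V1 V2).add (hm V2 V3))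
    have R := (((hm U1 (hc y)).add (hm (hc y) V3)).add ((hm V1 (hc x)).add (hm (hc x) U3))).add E3
    rw [add_zero] at R
    refine le_of_tendsto_of_tendsto' L R fun n => ?_
    have := pre_mix h (h3 n) (hu (φ n)) (hv (φ n)) 1 y x
    rw [show (1 : ℤ) - 1 = 0 by norm_num, show (1 : ℤ) + 1 = 2 by norm_num] at this
    exact this
  · have R := ((hm U0 U2).add (hc (MM m 1 0))).add E4
    rw [add_zero] at R
    refine le_of_tendsto_of_tendsto' ((hm U0 U1).add (hm U1 U2)) R fun n => ?_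
    have := pre_rem h (h3 n) (hu (φ n)) 0
    simpa using this
  · have R := ((hm U1 U3).add (hc (MM m 1 0))).add E4
    rw [add_zero] at R
    refine le_of_tendsto_of_tendsto' ((hm U1 U2).add (hm U2 U3)) R fun n => ?_
    have := pre_rem h (h3 n) (hu (φ n)) 1
    rw [show (1 : ℤ) - 1 = 0 by norm_num, show (1 : ℤ) + 1 = 2 by norm_num] at this
    exact this

/-- Proof. `exists_lim`. If `a₁ < b₁` and `b₂ < a₂` then `h.strict` (for `a₁ < b₁`, `b₂ < a₂`)
contradicts `cr`. So `a₁ = b₁ = x₁`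
(because `a₁ ≤ x₁ ≤ b₁`) or `a₂ = b₂ = x₁`. In the first case take
`(a, b, a', b') = (a₀, b₀, a₂, b₂)`: `mina1`, `minb1`, and
`mix1` with `x = x₁` resp. `y = x₁`, and `rem1`. In the second case `(a₁, b₁, a₃, b₃)`. -/
theorem exists_four (h : Tw m) (hb : bp m + bm m = 0) (x₁ : ℝ) :
    ∃ a b a' b' : ℝ, a ≤ x₁ ∧ x₁ ≤ b ∧ x₁ ≤ a' ∧ b' ≤ x₁ ∧
      (∀ y, m a x₁ + m x₁ a' ≤ m a y + m y a') ∧ (∀ y, m b x₁ + m x₁ b' ≤ m b y + m y b') ∧
      (∀ y, m a x₁ + m x₁ b' ≤ m a y + m y b') ∧ (∀ y, m b x₁ + m x₁ a' ≤ m b y + m y a') ∧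
      m a x₁ + m x₁ a' ≤ m a a' + MM m 1 0 := by
  obtain ⟨a₀, a₁, a₂, a₃, b₀, b₁, b₂, b₃, L⟩ := exists_lim h hb x₁
  by_cases h1 : a₁ < b₁
  · have h2 : ¬ b₂ < a₂ := fun h2 => absurd L.cr (not_le.2 (h.strict _ _ _ _ h1 h2))
    have ha2 : a₂ = x₁ := le_antisymm ((not_lt.1 h2).trans L.bx2) L.ax2
    have hb2 : b₂ = x₁ := le_antisymm L.bx2 (L.ax2.trans (not_lt.1 h2))
    have m1 := L.mina2
    have m2 := L.minb2
    have m3 := L.mix2
    have m4 := L.rem2
    have c1 := L.a23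
    have c2 := L.b23
    rw [ha2] at m1 m3 m4 c1
    rw [hb2] at m2 m3 c2
    refine ⟨a₁, b₁, a₃, b₃, L.a1x, L.b1x, c1, c2, m1, m2, fun y => ?_, fun y => ?_, m4⟩
    · have := m3 y x₁
      linarith
    · have := m3 x₁ y
      linarith
  · have ha1 : a₁ = x₁ := le_antisymm L.a1x (L.b1x.trans (not_lt.1 h1))
    have hb1 : b₁ = x₁ := le_antisymm ((not_lt.1 h1).trans L.a1x) L.b1x
    have m1 := L.mina1
    have m2 := L.minb1
    have m3 := L.mix1
    have m4 := L.rem1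
    have c1 := L.a01
    have c2 := L.b01
    rw [ha1] at m1 m3 m4 c1
    rw [hb1] at m2 m3 c2
    refine ⟨a₀, b₀, a₂, b₂, c1, c2, L.ax2, L.bx2, m1, m2, fun y => ?_, fun y => ?_, m4⟩
    · have := m3 y x₁
      linarith
    · have := m3 x₁ y
      linarith

end Pool.Agent.NOne
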