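import Pool.Agent.NOne.AT5

/-! AT8. A minimal diagonal point; the slopes and the integral of the momentum. -/

set_option autoImplicit false

namespace Pool.Agent.NOne

open Finset Filter Topology MeasureTheory

variable {m : ℝ → ℝ → ℝ}

/-- Riemann sums with arbitrary tags -/
private theorem riemann_tag {f : ℝ → ℝ} (hf : Continuous f) {ε : ℝ} (hε : 0 < ε) :
    ∃ N₀ : ℕ, ∀ N ≥ N₀, 0 < N → ∀ y : ℕ → ℝ,
      (∀ i < N, (i : ℝ) / N ≤ y i ∧ y i ≤ ((i + 1 : ℕ) : ℝ) / N) →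
      |∑ i ∈ Finset.range N, 1 / (N : ℝ) * f (y i) - ∫ t in (0 : ℝ)..1, f t| ≤ ε := by
  have hu := isCompact_Icc.uniformContinuousOn_of_continuous
    (hf.continuousOn (s := Set.Icc (0 : ℝ) 1))
  obtain ⟨δ, hδ, hd⟩ := Metric.uniformContinuousOn_iff.1 hu ε hε
  obtain ⟨N₀, hN₀⟩ := exists_nat_gt (1 / δ)
  refine ⟨N₀, fun N hN hN0 y hy => ?_⟩
  have hNp : (0 : ℝ) < N := by exact_mod_cast hN0
  have hstep : 1 / (N : ℝ) < δ := by
    rw [div_lt_iff₀ hNp]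
    rw [div_lt_iff₀ hδ] at hN₀
    have : (N₀ : ℝ) ≤ N := by exact_mod_cast hN
    nlinarith
  have hdiff : ∀ i : ℕ, ((i + 1 : ℕ) : ℝ) / N - (i : ℝ) / N = 1 / N := by
    intro i
    push_cast
    ring
  have hle : ∀ i : ℕ, (i : ℝ) / N ≤ ((i + 1 : ℕ) : ℝ) / N := by
    intro i
    have h1 := hdiff i
    have h2 : (0 : ℝ) < 1 / N := by positivity
    linarith
  have hsum := intervalIntegral.sum_integral_adjacent_intervals (μ := volume) (f := f)
    (a := fun i : ℕ => (i : ℝ) / N) (n := N) (fun i _ => hf.intervalIntegrable _ _)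
  simp only [Nat.cast_zero, zero_div, div_self hNp.ne'] at hsum
  rw [← hsum, ← Finset.sum_sub_distrib]
  refine (Finset.abs_sum_le_sum_abs _ _).trans ?_
  have h3 : ε = ∑ _i ∈ Finset.range N, 1 / (N : ℝ) * ε := by
    rw [Finset.sum_const, Finset.card_range, nsmul_eq_mul]
    field_simp
  rw [h3]
  refine Finset.sum_le_sum fun i hi => ?_
  have hi' := Finset.mem_range.1 hi
  obtain ⟨hy1, hy2⟩ := hy i hi'
  have h0 : (0 : ℝ) ≤ (i : ℝ) / N := by positivity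
  have h1 : ((i + 1 : ℕ) : ℝ) / N ≤ 1 := by
    rw [div_le_one hNp]
    exact_mod_cast hi'
  have h4 : ∫ _t in ((i : ℝ) / N)..(((i + 1 : ℕ) : ℝ) / N), f (y i) = 1 / (N : ℝ) * f (y i) := by
    rw [intervalIntegral.integral_const, smul_eq_mul, hdiff]
  rw [← h4, ← intervalIntegral.integral_sub intervalIntegrable_const (hf.intervalIntegrable _ _)]
  have h5 : ∀ t ∈ Set.uIoc ((i : ℝ) / N) (((i + 1 : ℕ) : ℝ) / N), ‖f (y i) - f t‖ ≤ ε := by
    intro t ht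
    rw [Set.uIoc_of_le (hle i)] at ht
    have h6 : dist (y i) t < δ := by
      rw [Real.dist_eq, abs_lt]
      have h7 := hdiff i
      constructor <;> linarith [ht.1, ht.2]
    have h8 := hd (y i) ⟨h0.trans hy1, hy2.trans h1⟩ t ⟨h0.trans ht.1.le, ht.2.trans h1⟩ h6
    rw [Real.dist_eq] at h8
    rw [Real.norm_eq_abs]
    exact h8.le
  have h9 := intervalIntegral.norm_integral_le_of_norm_le_const h5
  rw [hdiff, abs_of_nonneg (by positivity : (0 : ℝ) ≤ 1 / N), Real.norm_eq_abs, mul_comm] at h9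
  exact h9

/-- Proof. `x` from `MM_one_zero`; `2 * MM m 1 0 = MM m 2 0 ≤ m x y + m y x` (`MM_zero`). -/
theorem exists_diag (h : Tw m) :
    ∃ x, m x x = MM m 1 0 ∧ ∀ y, m x x + m x x ≤ m x y + m y x := by
  obtain ⟨_, x, hx⟩ := MM_one_zero h
  refine ⟨x, hx, fun y => ?_⟩
  have h1 := Rch.trans (Rch.one (m := m) x y) (Rch.one (m := m) y x)
  have h2 : Rch m 2 x (x + ((0 : ℤ) : ℝ)) (m x y + m y x) := by
    simpa using h1
  have h3 := MM_le h h2
  have h4 := MM_zero h (N := 2) (by norm_num)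
  rw [h4] at h3
  push_cast at h3
  rw [hx]
  linarith

/-- Proof. The path `0, 1/N, .., 1` gives
`bp m ≤ MM m N 1 - N m₀ ≤ ∑ i < N, (m (i/N) ((i+1)/N) - m₀) ≤
∑ i < N, P (i/N) / N + C / N`, and the right side tends to `∫
P` (Riemann sums of a continuous function; as in
`Pool.Agent.MechAlpha.Periodic`, private theorem `riemann`, whose proof can be copied). -/
theorem bp_le_integral (h : Tw m) {P : ℝ → ℝ} (hP : Continuous P) {C : ℝ}
    (hC : ∀ x e : ℝ, 0 ≤ e → e ≤ 1 → m x (x + e) ≤ MM m 1 0 + e * P x + C * e ^ 2) :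
    bp m ≤ ∫ x in (0 : ℝ)..1, P x := by
  refine le_of_forall_pos_le_add fun ε hε => ?_
  obtain ⟨N₀, hN₀⟩ := riemann_tag hP (half_pos hε)
  obtain ⟨N₁, hN₁⟩ := exists_nat_gt (|C| / (ε / 2))
  obtain ⟨N, hN, hNN, hNpos⟩ : ∃ N : ℕ, N₀ ≤ N ∧ N₁ ≤ N ∧ 0 < N :=
    ⟨N₀ + N₁ + 1, by omega, by omega, by omega⟩
  have hNp : (0 : ℝ) < N := by exact_mod_cast hNpos
  have hr := hN₀ N hN hNpos (fun i => (i : ℝ) / N) (fun i _ => ⟨le_rfl, by
    rw [div_le_div_iff_of_pos_right hNp]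
    push_cast
    linarith⟩)
  have hz : Rch m N 0 (0 + ((1 : ℤ) : ℝ))
      (∑ i ∈ range N, m ((i : ℝ) / N) (((i + 1 : ℕ) : ℝ) / N)) := by
    refine ⟨fun i => (i : ℝ) / N, by simp, ?_, rfl⟩
    simp [div_self hNp.ne']
  have h1 := MM_le h hz
  have h2 := bp_le h hNpos
  have h3 : ∑ i ∈ range N, m ((i : ℝ) / N) (((i + 1 : ℕ) : ℝ) / N) ≤
      ∑ i ∈ range N, (MM m 1 0 + 1 / (N : ℝ) * P ((i : ℝ) / N) + C * (1 / (N : ℝ)) ^ 2) := by
    refine Finset.sum_le_sum fun i _ => ?_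
    have h4 := hC ((i : ℝ) / N) (1 / N) (by positivity) (by
      rw [div_le_one hNp]
      exact_mod_cast hNpos)
    have h5 : ((i + 1 : ℕ) : ℝ) / N = (i : ℝ) / N + 1 / N := by
      push_cast
      ring
    rw [h5]
    exact h4
  rw [Finset.sum_add_distrib, Finset.sum_add_distrib, Finset.sum_const, Finset.sum_const,
    Finset.card_range, nsmul_eq_mul, nsmul_eq_mul] at h3
  have h6 : (N : ℝ) * (C * (1 / (N : ℝ)) ^ 2) = C / N := by
    field_simp
  rw [h6] at h3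
  have h7 : C / N ≤ ε / 2 := by
    have h8 : (N₁ : ℝ) ≤ N := by exact_mod_cast hNN
    have h9 : |C| / (ε / 2) < N := hN₁.trans_le h8
    rw [div_lt_iff₀ (half_pos hε)] at h9
    rw [div_le_iff₀ hNp]
    have := le_abs_self C
    nlinarith
  have h10 := (abs_le.1 hr).2
  linarith

/-- Proof. The path `1, 1 - 1/N, .., 0`. -/
theorem bm_le_integral (h : Tw m) {P : ℝ → ℝ} (hP : Continuous P) {C : ℝ}
    (hC : ∀ x e : ℝ, 0 ≤ e → e ≤ 1 → m x (x - e) ≤ MM m 1 0 - e * P x + C * e ^ 2) :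
    bm m ≤ -∫ x in (0 : ℝ)..1, P x := by
  refine le_of_forall_pos_le_add fun ε hε => ?_
  obtain ⟨N₀, hN₀⟩ := riemann_tag hP (half_pos hε)
  obtain ⟨N₁, hN₁⟩ := exists_nat_gt (|C| / (ε / 2))
  obtain ⟨N, hN, hNN, hNpos⟩ : ∃ N : ℕ, N₀ ≤ N ∧ N₁ ≤ N ∧ 0 < N :=
    ⟨N₀ + N₁ + 1, by omega, by omega, by omega⟩
  have hNp : (0 : ℝ) < N := by exact_mod_cast hNpos
  have hr := hN₀ N hN hNpos (fun i => ((i + 1 : ℕ) : ℝ) / N) (fun i _ => ⟨by
    rw [div_le_div_iff_of_pos_right hNp]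
    push_cast
    linarith, le_rfl⟩)
  have hz : Rch m N 1 (1 + ((-1 : ℤ) : ℝ))
      (∑ i ∈ range N, m (1 - (i : ℝ) / N) (1 - ((i + 1 : ℕ) : ℝ) / N)) := by
    refine ⟨fun i => 1 - (i : ℝ) / N, by simp, ?_, rfl⟩
    simp [div_self hNp.ne']
  have h1 := MM_le h hz
  have h2 := bm_le h hNpos
  have h3 : ∑ i ∈ range N, m (1 - (i : ℝ) / N) (1 - ((i + 1 : ℕ) : ℝ) / N) ≤
      ∑ i ∈ range N, (MM m 1 0 - 1 / (N : ℝ) * P (1 - (i : ℝ) / N) +
        C * (1 / (N : ℝ)) ^ 2) := by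
    refine Finset.sum_le_sum fun i _ => ?_
    have h4 := hC (1 - (i : ℝ) / N) (1 / N) (by positivity) (by
      rw [div_le_one hNp]
      exact_mod_cast hNpos)
    have h5 : 1 - ((i + 1 : ℕ) : ℝ) / N = 1 - (i : ℝ) / N - 1 / N := by
      push_cast
      ring
    rw [h5]
    exact h4
  rw [Finset.sum_add_distrib, Finset.sum_sub_distrib, Finset.sum_const, Finset.sum_const,
    Finset.card_range, nsmul_eq_mul, nsmul_eq_mul] at h3
  have h6 : (N : ℝ) * (C * (1 / (N : ℝ)) ^ 2) = C / N := by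
    field_simp
  rw [h6] at h3
  have h11 : ∑ i ∈ range N, 1 / (N : ℝ) * P (1 - (i : ℝ) / N) =
      ∑ i ∈ range N, 1 / (N : ℝ) * P (((i + 1 : ℕ) : ℝ) / N) := by
    rw [← Finset.sum_range_reflect]
    refine Finset.sum_congr rfl fun i hi => ?_
    have hi' := Finset.mem_range.1 hi
    have h12 : (1 : ℝ) - ((N - 1 - i : ℕ) : ℝ) / N = ((i + 1 : ℕ) : ℝ) / N := by
      have h13 : ((N - 1 - i : ℕ) : ℝ) = N - (i + 1 : ℕ) := by
        rw [Nat.sub_sub, Nat.add_comm 1 i, Nat.cast_sub hi']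
      rw [h13]
      field_simp
      ring
    rw [h12]
  rw [h11] at h3
  have h7 : C / N ≤ ε / 2 := by
    have h8 : (N₁ : ℝ) ≤ N := by exact_mod_cast hNN
    have h9 : |C| / (ε / 2) < N := hN₁.trans_le h8
    rw [div_lt_iff₀ (half_pos hε)] at h9
    rw [div_le_iff₀ hNp]
    have := le_abs_self C
    nlinarith
  have h10 := (abs_le.1 hr).1
  linarith

end Pool.Agent.NOne
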