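import Pool.Agent.NOne.ACr
import Pool.Agent.NOne.AT7
import Pool.Agent.NOne.AT8

/-! AL7. Periodic minimal solutions through every point. -/

set_option autoImplicit false

namespace Pool.Agent.NOne

open Set MeasureTheory

variable {L : ℝ → ℝ → ℝ → ℝ} {X W : ℝ → ℝ}

private theorem al_loop (hL : Ton L) {x : ℝ} (h : Arc L x x X W)
    (hm : ∀ y, mm L x x + mm L x x ≤ mm L x y + mm L y x) :
    (∀ t, X (t + 1) = X t) ∧ ∀ t, W (t + 1) = W t := by
  have h1 : W 1 = W 0 := node_match hL h h hm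
  have h2 := sol_shift_t hL h.sol 1
  have h3 := sol_uniq hL h2 h.sol (s := 0)
    (by simp only [Int.cast_one, zero_add]; rw [h.en, h.st])
    (by simp only [Int.cast_one, zero_add]; exact h1)
  constructor
  · intro t
    have := congrFun h3.1 t
    simpa using this
  · intro t
    have := congrFun h3.2 t
    simpa using this

/-- Proof. `exists_four` for `mm L` (`mm_tw`). Minimal arcs `A : a → x`, `B : b → x`,
`A' : x → a'`, `B' : x → b'` (`exists_arc`).
`node_match` for the four pairs: the final velocities of `A`, `B` and the initial velocities of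
`A'`, `B'` are all equal. So `A'` and
`B'` are the same solution (`sol_uniq`, at time `0`), `a' = b'`, and `b' ≤ x ≤ a'` gives
`a' = b' = x`; in the same way (at time `1`)
`a = b = x`. The last inequality of `exists_four` gives `mm L x x ≤ MM (mm L) 1 0`, and `≥` by
`MM_one_zero`. The arc `A : x → x`
satisfies `W 1 = W 0` (`node_match` for the pair `(A, A)`:
`mm L x x + mm L x x ≤ mm L x y + mm L y x`), so the solutions `t ↦ X (t + 1)`
and `X` agree (`sol_shift_t`, `sol_uniq`). -/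
theorem exists_periodic (hL : Ton L) (hb : bp (mm L) + bm (mm L) = 0) (x : ℝ) :
    ∃ X W : ℝ → ℝ, Sol L X W ∧ X 0 = x ∧ (∀ t, X (t + 1) = X t) ∧ (∀ t, W (t + 1) = W t) ∧
      act L X W 0 1 = MM (mm L) 1 0 := by
  obtain ⟨a, b, a', b', h1, h2, h3, h4, n1, n2, n3, n4, h5⟩ := exists_four (mm_tw hL) hb x
  obtain ⟨XA, WA, hA⟩ := exists_arc hL a x
  obtain ⟨XB, WB, hB⟩ := exists_arc hL b x
  obtain ⟨XA', WA', hA'⟩ := exists_arc hL x a'
  obtain ⟨XB', WB', hB'⟩ := exists_arc hL x b'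
  have k1 := node_match hL hA hA' n1
  have k3 := node_match hL hA hB' n3
  have k4 := node_match hL hB hA' n4
  have e1 : XA' = XB' :=
    (sol_uniq hL hA'.sol hB'.sol (s := 0) (by rw [hA'.st, hB'.st]) (k1.symm.trans k3)).1
  have e2 : XA = XB :=
    (sol_uniq hL hA.sol hB.sol (s := 1) (by rw [hA.en, hB.en]) (k1.trans k4.symm)).1
  have e3 : a' = b' := by rw [← hA'.en, ← hB'.en, e1]
  have e4 : a = b := by rw [← hA.st, ← hB.st, e2]
  have e5 : a' = x := le_antisymm (e3 ▸ h4) h3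
  have e6 : a = x := le_antisymm h1 (e4 ▸ h2)
  subst e6
  rw [e5] at n1 h5
  have h6 : mm L a a = MM (mm L) 1 0 :=
    le_antisymm (by linarith) ((MM_one_zero (mm_tw hL)).1 a)
  obtain ⟨p1, p2⟩ := al_loop hL hA n1
  exact ⟨XA, WA, hA.sol, hA.st, p1, p2, hA.mn.trans h6⟩

/-- Proof. `exists_diag` and `node_match`. -/
theorem exists_periodic_min (hL : Ton L) :
    ∃ X W : ℝ → ℝ, Sol L X W ∧ (∀ t, X (t + 1) = X t) ∧ (∀ t, W (t + 1) = W t) ∧
      act L X W 0 1 = MM (mm L) 1 0 := by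
  obtain ⟨x, hx, hm⟩ := exists_diag (mm_tw hL)
  obtain ⟨X, W, hA⟩ := exists_arc hL x x
  obtain ⟨p1, p2⟩ := al_loop hL hA hm
  exact ⟨X, W, hA.sol, p1, p2, hA.mn.trans hx⟩

end Pool.Agent.NOne
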