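import Pool.Agent.NOne.AAut

/-! AL8l (package). Lipschitz bounds for periodic analytic functions; two solutions which do not
meet. -/

set_option autoImplicit false

namespace Pool.Agent.NOne

open Set

variable {F L : ℝ → ℝ → ℝ → ℝ}

/-- Proof. `ana_bdd` for `d1 F` and `d2 F` (`ana_d1`, `ana_d2`, `per_d1`, `pet_d1`, `per_d2`,
`pet_d2`): constants `C₁, C₂`. Then
`F x v t - F y w t = (F x v t - F y v t) + (F y v t - F y w t)`; the mean value inequality in the
first variable (`ana_hd1`, `Convex.norm_image_sub_le_of_norm_hasDerivWithin_le` on `univ`) and in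
the second variable
(`ana_hd2`, on the convex set `Icc (-R) R`). `C = max C₁ C₂`. -/
theorem ana_lip (h : Ana F) (hx : ∀ x v t, F (x + 1) v t = F x v t)
    (ht : ∀ x v t, F x v (t + 1) = F x v t) (R : ℝ) :
    ∃ C : ℝ, 0 ≤ C ∧ ∀ x y v w t : ℝ, |v| ≤ R → |w| ≤ R →
      |F x v t - F y w t| ≤ C * (|x - y| + |v - w|) := by
  obtain ⟨C₁, h1, H1⟩ := ana_bdd (ana_d1 h) (per_d1 hx) (pet_d1 ht) R
  obtain ⟨C₂, h2, H2⟩ := ana_bdd (ana_d2 h) (per_d2 hx) (pet_d2 ht) R
  refine ⟨max C₁ C₂, h1.trans (le_max_left _ _), fun x y v w t hv hw => ?_⟩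
  have e1 : |F x v t - F y v t| ≤ C₁ * |x - y| := by
    have := Convex.norm_image_sub_le_of_norm_hasDerivWithin_le (f := fun z => F z v t)
      (f' := fun z => d1 F z v t) (s := univ) (C := C₁) (x := y) (y := x)
      (fun z _ => (ana_hd1 h z v t).hasDerivWithinAt) (fun z _ => by
        rw [Real.norm_eq_abs]; exact H1 z v t hv) convex_univ (mem_univ _) (mem_univ _)
    simpa [Real.norm_eq_abs] using this
  have e2 : |F y v t - F y w t| ≤ C₂ * |v - w| := by
    have := Convex.norm_image_sub_le_of_norm_hasDerivWithin_le (f := fun z => F y z t)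
      (f' := fun z => d2 F y z t) (s := Icc (-R) R) (C := C₂) (x := w) (y := v)
      (fun z _ => (ana_hd2 h y z t).hasDerivWithinAt) (fun z hz => by
        rw [Real.norm_eq_abs]; exact H2 y z t (abs_le.2 hz)) (convex_Icc _ _)
      (abs_le.1 hw) (abs_le.1 hv)
    simpa [Real.norm_eq_abs] using this
  have e3 : F x v t - F y w t = (F x v t - F y v t) + (F y v t - F y w t) := by ring
  have m1 := mul_le_mul_of_nonneg_right (le_max_left C₁ C₂) (abs_nonneg (x - y))
  have m2 := mul_le_mul_of_nonneg_right (le_max_right C₁ C₂) (abs_nonneg (v - w))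
  rw [e3, mul_add]
  exact (abs_add_le _ _).trans (add_le_add (e1.trans m1) (e2.trans m2))

end Pool.Agent.NOne
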