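import Pool.Agent.NOne.AAut

/-! AOm. The velocity bound `Ω`. -/

set_option autoImplicit false

namespace Pool.Agent.NOne

open Set

variable {L : ℝ → ℝ → ℝ → ℝ}

/-- `Ω` bounds the velocities of the solutions in the time interval `[s - 2, s + 2]` in terms of the
velocity at time `s` -/
structure Omg (L : ℝ → ℝ → ℝ → ℝ) (Ω : ℝ → ℝ) : Prop where
  mono : Monotone Ω
  le : ∀ r, r ≤ Ω r
  bd : ∀ X W : ℝ → ℝ, Sol L X W → ∀ s t r : ℝ, |W s| ≤ r → |t - s| ≤ 2 → |W t| ≤ Ω r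

/-- Proof. `Ω r` = supremum of `|(AF L τ (x, v, s)).2.1|` over the compact set `x ∈ [0, 1]`,
`|v| ≤ r`,
`s ∈ [0, 1]`, `|τ| ≤ 2`, plus `|r|` (for `r < 0` the condition `|W s| ≤ r` is void). Translate a
solution by integers in
`x` and in `t` (`sol_shift_x`, `sol_shift_t`). -/
theorem exists_omg (hL : Ton L) : ∃ Ω : ℝ → ℝ, Omg L Ω := by
  let G : ℝ × ℝ × ℝ × ℝ → ℝ := fun p => |(AF L p.1 p.2).2.1|
  have hG : Continuous G :=
    ((continuousOn_univ.1 (af_analytic hL).continuousOn).snd.fst).abs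
  let K : ℝ → Set (ℝ × ℝ × ℝ × ℝ) := fun r =>
    Icc (-2) 2 ×ˢ (Icc 0 1 ×ˢ (Icc (-(max r 0)) (max r 0) ×ˢ Icc 0 1))
  have hK : ∀ r, IsCompact (K r) := fun r =>
    isCompact_Icc.prod (isCompact_Icc.prod (isCompact_Icc.prod isCompact_Icc))
  have hbdd : ∀ r, BddAbove (G '' K r) := fun r => ((hK r).image hG).bddAbove
  have hne : ∀ r, (G '' K r).Nonempty := by
    intro r
    refine ⟨_, (0, 0, 0, 0), ?_, rfl⟩
    have h1 : (0 : ℝ) ≤ max r 0 := le_max_right _ _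
    refine ⟨⟨by norm_num, by norm_num⟩, ⟨le_refl _, by norm_num⟩,
      ⟨neg_nonpos.2 h1, h1⟩, ⟨le_refl _, by norm_num⟩⟩
  have hmono : ∀ r r', r ≤ r' → K r ⊆ K r' := by
    rintro r r' h ⟨a, b, c, d⟩ ⟨h1, h2, h3, h4⟩
    have h5 : max r 0 ≤ max r' 0 := max_le_max_right 0 h
    exact ⟨h1, h2, ⟨(neg_le_neg h5).trans h3.1, h3.2.trans h5⟩, h4⟩
  have hnn : ∀ r, 0 ≤ sSup (G '' K r) := fun r =>
    Real.sSup_nonneg (by
      rintro _ ⟨p, -, rfl⟩
      exact abs_nonneg _)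
  refine ⟨fun r => max r 0 + sSup (G '' K r), ⟨?_, ?_, ?_⟩⟩
  · intro r r' h
    exact add_le_add (max_le_max_right 0 h)
      (csSup_le_csSup (hbdd r') (hne r) (image_mono (hmono r r' h)))
  · intro r
    exact (le_max_left r 0).trans (le_add_of_nonneg_right (hnn r))
  · intro X W hS s t r hr ht
    have h1 := sol_shift_x hL (sol_shift_t hL hS ⌊s⌋) (-⌊X s⌋)
    have h2 := af_sol hL h1 (s - ⌊s⌋) (t - s)
    have e1 : s - (⌊s⌋ : ℝ) + ⌊s⌋ = s := by ring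
    have e2 : s - (⌊s⌋ : ℝ) + (t - s) + ⌊s⌋ = t := by ring
    simp only [e1, e2] at h2
    have h3 : G (t - s, X s + ((-⌊X s⌋ : ℤ) : ℝ), W s, s - ⌊s⌋) = |W t| := by
      show |(AF L (t - s) (X s + ((-⌊X s⌋ : ℤ) : ℝ), W s, s - ⌊s⌋)).2.1| = |W t|
      rw [h2]
    have h4 : (t - s, X s + ((-⌊X s⌋ : ℤ) : ℝ), W s, s - (⌊s⌋ : ℝ)) ∈ K r := by
      have h5 := abs_le.1 ht
      have h6 := abs_le.1 (hr.trans (le_max_left r 0))
      have h7 := Int.fract_nonneg (X s)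
      have h8 := (Int.fract_lt_one (X s)).le
      have h9 := Int.fract_nonneg s
      have h10 := (Int.fract_lt_one s).le
      rw [Int.fract] at h7 h8 h9 h10
      refine ⟨⟨h5.1, h5.2⟩, ⟨?_, ?_⟩, ⟨h6.1, h6.2⟩, ⟨h9, h10⟩⟩
      · show 0 ≤ X s + ((-⌊X s⌋ : ℤ) : ℝ)
        push_cast
        linarith
      · show X s + ((-⌊X s⌋ : ℤ) : ℝ) ≤ 1
        push_cast
        linarith
    have h11 : |W t| ≤ sSup (G '' K r) := by
      rw [← h3]
      exact le_csSup (hbdd r) ⟨_, h4, rfl⟩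
    exact h11.trans (le_add_of_nonneg_left (le_max_right r 0))

end Pool.Agent.NOne
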