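import Pool.Agent.NOne.AL8g
import Pool.Agent.NOne.AL8l
import Pool.Agent.NOne.AOm

/-! AL8f (package). Two solutions which do not meet on `[-1, 1]`. -/

set_option autoImplicit false

namespace Pool.Agent.NOne

open Set

variable {L : ℝ → ℝ → ℝ → ℝ}

/-- Proof. On `[-1, 1]` the velocities are bounded by `R' = Ω R` (`hΩ.bd` with `s = 0`, `|t| ≤ 2`).
Let `C` be the constant of `ana_lip (acc_ana hL) (acc_perx hL) (acc_pert hL) R'` and `K` the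
constant of
`abs_slope_le_of_pos` for `C`. Apply it to `D = Y - X`, `E = V - W`,
`F t = acc L (Y t) (V t) t - acc L (X t) (W t) t`. -/
theorem sol_lip (hL : Ton L) {Ω : ℝ → ℝ} (hΩ : Omg L Ω) (R : ℝ) :
    ∃ K : ℝ, 0 ≤ K ∧ ∀ X W Y V : ℝ → ℝ, Sol L X W → Sol L Y V → |W 0| ≤ R → |V 0| ≤ R →
      (∀ t ∈ Icc (-1 : ℝ) 1, X t < Y t) → |V 0 - W 0| ≤ K * (Y 0 - X 0) := by
  obtain ⟨C, hC, hlip⟩ := ana_lip (acc_ana hL) (acc_perx hL) (acc_pert hL) (Ω R)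
  obtain ⟨K, hK, hs⟩ := abs_slope_le_of_pos hC
  refine ⟨K, hK, fun X W Y V hX hY hW hV hlt => ?_⟩
  have hb : ∀ {X W : ℝ → ℝ}, Sol L X W → |W 0| ≤ R → ∀ t ∈ Icc (-1 : ℝ) 1, |W t| ≤ Ω R := by
    intro X W h h0 t ht
    refine hΩ.bd X W h 0 t R h0 ?_
    rw [sub_zero, abs_le]
    constructor <;> linarith [ht.1, ht.2]
  refine hs (fun t => Y t - X t) (fun t => V t - W t)
    (fun t => acc L (Y t) (V t) t - acc L (X t) (W t) t) (fun t _ => ?_) (fun t _ => ?_)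
    (fun t ht => ?_) (fun t ht => ?_)
  · exact (hY.pos t).sub (hX.pos t)
  · exact (hY.vel t).sub (hX.vel t)
  · exact hlip _ _ _ _ _ (hb hY hV t ht) (hb hX hW t ht)
  · exact sub_pos.2 (hlt t ht)

end Pool.Agent.NOne
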