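import Pool.Agent.NOne.AL8v
import Pool.Agent.NOne.AL8f

/-! AL8b (package). Bounds and Lipschitz constants of `VV L h x`, and of the momentum `PP L h x`. -/

set_option autoImplicit false

namespace Pool.Agent.NOne

open Set MeasureTheory

variable {L : ℝ → ℝ → ℝ → ℝ}

/-- The loop of type `(1, p)` and a time with velocity `p`. -/
private theorem int_loop (hL : Ton L) (hb : HB L) (p : ℤ) (x : ℝ) :
    ∃ X W : ℝ → ℝ, Sol L X W ∧ W 0 = VV L (p : ℚ) x ∧ ∃ c ∈ Ioo (0 : ℝ) 1, W c = p := by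
  obtain ⟨X, W, h, hx, hw⟩ := vv_loop hL hb one_pos p x
  rw [Nat.cast_one, div_one] at hw
  refine ⟨X, W, h.sol, hw, ?_⟩
  obtain ⟨c, hc, he⟩ := exists_hasDerivAt_eq_slope X W (a := 0) (b := 1) one_pos
    (fun t _ => (h.sol.pos t).continuousAt.continuousWithinAt) (fun t _ => h.sol.pos t)
  refine ⟨c, hc, ?_⟩
  have h1 := h.per 0
  rw [Nat.cast_one, zero_add] at h1
  rw [he, h1]
  ring

/-- `VV` is weakly increasing in the rotation number. -/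
private theorem vv_mono' (hL : Ton L) (hb : HB L) {h h' : ℚ} (hh : h ≤ h') (x : ℝ) :
    VV L h x ≤ VV L h' x := by
  rcases hh.eq_or_lt with rfl | hlt
  · exact le_rfl
  · exact (vv_mono hL hb hlt x).le

private theorem cont_of_lip {f : ℝ → ℝ} {K : ℝ} (hK : 0 ≤ K)
    (h : ∀ x y, |f x - f y| ≤ K * |x - y|) : Continuous f := by
  have h1 : LipschitzWith ⟨K, hK⟩ f := LipschitzWith.of_dist_le_mul fun x y => by
    rw [Real.dist_eq, Real.dist_eq]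
    exact h x y
  exact h1.continuous

/-- (F6) Proof. `vv_loop` with `q = 1`: `X 1 = X 0 + p`, so `W s = p` for some `s ∈ (0, 1)`
(`exists_hasDerivAt_eq_slope`); `hΩ.bd` with `t = 0`. -/
theorem vv_bd_int (hL : Ton L) (hb : HB L) {Ω : ℝ → ℝ} (hΩ : Omg L Ω) (p : ℤ) (x : ℝ) :
    |VV L (p : ℚ) x| ≤ Ω |(p : ℝ)| := by
  obtain ⟨X, W, hS, h0, c, hc, hcp⟩ := int_loop hL hb p x
  rw [← h0]
  refine hΩ.bd X W hS c 0 _ (by rw [hcp]) ?_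
  rw [zero_sub, abs_neg, abs_of_pos hc.1]
  linarith [hc.2]

/-- Proof. As before, `hΩ.bd` with `s = 0` and `t` the point of `(0, 1)` where `W t = p`. -/
theorem vv_big (hL : Ton L) (hb : HB L) {Ω : ℝ → ℝ} (hΩ : Omg L Ω) (p : ℤ) {x R : ℝ}
    (h : |VV L (p : ℚ) x| ≤ R) : |(p : ℝ)| ≤ Ω R := by
  obtain ⟨X, W, hS, h0, c, hc, hcp⟩ := int_loop hL hb p x
  rw [← h0] at h
  rw [← hcp]
  refine hΩ.bd X W hS 0 c R h ?_
  rw [sub_zero, abs_of_pos hc.1]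
  linarith [hc.2]

/-- Proof. `⌊h⌋ ≤ h ≤ ⌈h⌉`, `vv_mono` (weakly), `vv_bd_int`, `|⌊h⌋|, |⌈h⌉| ≤ |h| + 1`,
`hΩ.mono`. -/
theorem vv_bd (hL : Ton L) (hb : HB L) {Ω : ℝ → ℝ} (hΩ : Omg L Ω) (h : ℚ) (x : ℝ) :
    |VV L h x| ≤ Ω (|(h : ℝ)| + 1) := by
  have h1 : ((⌊h⌋ : ℤ) : ℚ) ≤ h := Int.floor_le h
  have h2 : h ≤ ((⌈h⌉ : ℤ) : ℚ) := Int.le_ceil h
  have h3 : h < ((⌊h⌋ : ℤ) : ℚ) + 1 := Int.lt_floor_add_one h
  have h4 : ((⌈h⌉ : ℤ) : ℚ) < h + 1 := Int.ceil_lt_add_one h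
  have h1' : ((⌊h⌋ : ℤ) : ℝ) ≤ h := by exact_mod_cast h1
  have h2' : (h : ℝ) ≤ ((⌈h⌉ : ℤ) : ℝ) := by exact_mod_cast h2
  have h3' : (h : ℝ) < ((⌊h⌋ : ℤ) : ℝ) + 1 := by exact_mod_cast h3
  have h4' : ((⌈h⌉ : ℤ) : ℝ) < (h : ℝ) + 1 := by exact_mod_cast h4
  have a1 : |((⌊h⌋ : ℤ) : ℝ)| ≤ |(h : ℝ)| + 1 := by
    rw [abs_le]
    constructor <;> linarith [le_abs_self (h : ℝ), neg_abs_le (h : ℝ)]
  have a2 : |((⌈h⌉ : ℤ) : ℝ)| ≤ |(h : ℝ)| + 1 := by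
    rw [abs_le]
    constructor <;> linarith [le_abs_self (h : ℝ), neg_abs_le (h : ℝ)]
  have b1 := (abs_le.1 ((vv_bd_int hL hb hΩ ⌊h⌋ x).trans (hΩ.mono a1))).1
  have b2 := (abs_le.1 ((vv_bd_int hL hb hΩ ⌈h⌉ x).trans (hΩ.mono a2))).2
  rw [abs_le]
  exact ⟨b1.trans (vv_mono' hL hb h1 x), (vv_mono' hL hb h2 x).trans b2⟩

/-- (F7) Proof. `sol_lip` with `R = Ω (H + 1)` for the loops of `vv_loop'` through `x` and `y`,
`x < y` (`loop_order`, `vv_bd`). -/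
theorem vv_lip (hL : Ton L) (hb : HB L) (H : ℝ) : ∃ K : ℝ, 0 ≤ K ∧ ∀ h : ℚ, |(h : ℝ)| ≤ H →
    ∀ x y, |VV L h x - VV L h y| ≤ K * |x - y| := by
  obtain ⟨Ω, hΩ⟩ := exists_omg hL
  obtain ⟨K, hK, hs⟩ := sol_lip hL hΩ (Ω (H + 1))
  have key : ∀ h : ℚ, |(h : ℝ)| ≤ H → ∀ x y, x < y →
      |VV L h y - VV L h x| ≤ K * (y - x) := by
    intro h hh x y hxy
    obtain ⟨X, W, hX, hx, hw⟩ := vv_loop' hL hb h x
    obtain ⟨Y, V, hY, hy, hv⟩ := vv_loop' hL hb h y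
    have hb' : ∀ x, |VV L h x| ≤ Ω (H + 1) := fun x =>
      (vv_bd hL hb hΩ h x).trans (hΩ.mono (by linarith))
    have h1 := hs X W Y V hX.sol hY.sol (by rw [hw]; exact hb' x) (by rw [hv]; exact hb' y)
      fun t _ => loop_order hL h.den_pos hX hY (by rw [hx, hy]; exact hxy) t
    rw [hw, hv, hx, hy] at h1
    exact h1
  refine ⟨K, hK, fun h hh x y => ?_⟩
  rcases lt_trichotomy x y with hxy | rfl | hxy
  · rw [abs_sub_comm, abs_sub_comm x y, abs_of_pos (sub_pos.2 hxy)]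
    exact key h hh x y hxy
  · simp
  · rw [abs_of_pos (sub_pos.2 hxy)]
    exact key h hh y x hxy

theorem vv_cont (hL : Ton L) (hb : HB L) (h : ℚ) : Continuous (VV L h) := by
  obtain ⟨K, hK, h1⟩ := vv_lip hL hb |(h : ℝ)|
  exact cont_of_lip hK (h1 h le_rfl)

/-- the momentum at `x` (time `0`) of the minimal loop of rotation number `h` -/
noncomputable def PP (L : ℝ → ℝ → ℝ → ℝ) (h : ℚ) (x : ℝ) : ℝ := d2 L x (VV L h x) 0

/-- Proof. `ana_lip` for `d2 L` with `R = Ω (H + 1)`, `vv_bd`, `vv_lip`. -/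
theorem pp_lip (hL : Ton L) (hb : HB L) (H : ℝ) : ∃ K : ℝ, 0 ≤ K ∧ ∀ h : ℚ, |(h : ℝ)| ≤ H →
    ∀ x y, |PP L h x - PP L h y| ≤ K * |x - y| := by
  obtain ⟨Ω, hΩ⟩ := exists_omg hL
  obtain ⟨K, hK, h1⟩ := vv_lip hL hb H
  obtain ⟨C, hC, h2⟩ := ana_lip (ana_d2 hL.ana) (per_d2 hL.perx) (pet_d2 hL.pert) (Ω (H + 1))
  refine ⟨C * (1 + K), by positivity, fun h hh x y => ?_⟩
  have hb' : ∀ x, |VV L h x| ≤ Ω (H + 1) := fun x =>
    (vv_bd hL hb hΩ h x).trans (hΩ.mono (by linarith))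
  refine (h2 x y (VV L h x) (VV L h y) 0 (hb' x) (hb' y)).trans ?_
  rw [mul_assoc]
  refine mul_le_mul_of_nonneg_left ?_ hC
  have h3 := h1 h hh x y
  linarith

theorem pp_cont (hL : Ton L) (hb : HB L) (h : ℚ) : Continuous (PP L h) := by
  obtain ⟨K, hK, h1⟩ := pp_lip hL hb |(h : ℝ)|
  exact cont_of_lip hK (h1 h le_rfl)

theorem pp_per (hL : Ton L) (hb : HB L) (h : ℚ) (x : ℝ) : PP L h (x + 1) = PP L h x := by
  unfold PP
  rw [vv_per hL hb h x, per_d2 hL.perx]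

/-- Proof. `vv_mono`, `d2_strictMono`. -/
theorem pp_mono (hL : Ton L) (hb : HB L) {h h' : ℚ} (hh : h < h') (x : ℝ) :
    PP L h x < PP L h' x := by
  exact d2_strictMono hL x 0 (vv_mono hL hb hh x)

end Pool.Agent.NOne
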