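import Pool.Agent.NOne.AL8x

/-! AL8c (package). Loops of different rotation numbers through the same point. -/

set_option autoImplicit false

namespace Pool.Agent.NOne

open Set MeasureTheory

variable {L : ℝ → ℝ → ℝ → ℝ} {X W X' W' : ℝ → ℝ}

/-- (F2) Proof. (1) `X t ≠ X' t` for all `t > 0`: suppose `X t₁ = X' t₁`, `t₁ > 0`; `exch_uniq`
with `T = t₁ + 1`. A curve `y` from `X 0 = X' 0` to `X' T` has `act L X' W' 0 T ≤ A (y)`
(`loop_mini` for `X'`), a curve `y'` from `X' 0 = X 0` to `X T` has `act L X W 0 T ≤ A (y')`; add.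
So `X = X'`. But `X (q q') = X 0 + q' p` and `X' (q q') = X' 0 + q p'` (`loop_per_int`), so
`p q' = p' q`, contradiction.
(2) At `t₂ = q q' > 0`: `X t₂ < X' t₂`. If `X' t < X t` for some `t > 0`, the continuous function
`X' - X` has a zero between `t` and `t₂` (`intermediate_value_uIcc`), contradiction. -/
theorem loop_cross (hL : Ton L) {q q' : ℕ} (hq : 0 < q) (hq' : 0 < q') {p p' : ℤ}
    (h : Loop L q p X W) (h' : Loop L q' p' X' W') (hx : X 0 = X' 0)
    (hpq : (p : ℝ) * q' < p' * q) {t : ℝ} (ht : 0 < t) : X t < X' t := by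
  have hp1 := loop_per_int h 0 (q' : ℤ)
  have hp2 := loop_per_int h' 0 (q : ℤ)
  have e1 : X ((q : ℝ) * q') = X 0 + (q' : ℝ) * p := by
    rw [zero_add, Int.cast_natCast] at hp1
    rw [← hp1, mul_comm]
  have e2 : X' ((q : ℝ) * q') = X' 0 + (q : ℝ) * p' := by
    rw [zero_add, Int.cast_natCast] at hp2
    exact hp2
  have hne : ∀ s, 0 < s → X s ≠ X' s := by
    intro s hs he
    have hm : X = X' ∧ W = W' := by
      refine exch_uniq hL h.sol h'.sol hs (lt_add_one s) he ?_
      intro y w y' w' hy hy' h1 h2 h3 h4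
      have h5 := loop_mini hL hq' h' (by linarith) hy (h1.trans hx) h2
      have h6 := loop_mini hL hq h (by linarith) hy' (h3.trans hx.symm) h4
      linarith
    have e3 : X ((q : ℝ) * q') = X' ((q : ℝ) * q') := congrFun hm.1 _
    rw [e1, e2, hx] at e3
    nlinarith
  have hcX : Continuous X := continuous_iff_continuousAt.2 fun s => (h.sol.pos s).continuousAt
  have hcX' : Continuous X' := continuous_iff_continuousAt.2 fun s => (h'.sol.pos s).continuousAt
  by_contra hcon
  have h1 : X' t - X t < 0 := by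
    have := lt_of_le_of_ne (not_lt.1 hcon) (hne t ht).symm
    linarith
  have hqq : (0 : ℝ) < (q : ℝ) * q' := by positivity
  have h2 : 0 < X' ((q : ℝ) * q') - X ((q : ℝ) * q') := by
    rw [e1, e2, hx]
    nlinarith
  have h3 : (0 : ℝ) ∈ uIcc (X' t - X t) (X' ((q : ℝ) * q') - X ((q : ℝ) * q')) := by
    rw [uIcc_of_le (by linarith)]
    exact ⟨h1.le, h2.le⟩
  have h4 := intermediate_value_uIcc (f := fun s => X' s - X s) (a := t) (b := (q : ℝ) * q')
    (hcX'.sub hcX).continuousOn h3
  obtain ⟨s, hs, h5⟩ := h4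
  have h6 : 0 < s := lt_of_lt_of_le (lt_min ht hqq) hs.1
  have h7 : X' s - X s = 0 := h5
  exact hne s h6 (by linarith)

/-- (F4) Proof. `X' - X` has the derivative `W' 0 - W 0` at `0`, vanishes at `0` and is positive
for
`t > 0` (`loop_cross`), so `0 ≤ W' 0 - W 0` (for instance `HasDerivAt.tendsto_slope` and
`ge_of_tendsto`, or `hasDerivWithinAt` on `Ioi 0`). If `W 0 = W' 0` then `X = X'` (`sol_uniq`),
contradiction with `loop_cross` at `t = 1`. -/
theorem loop_vel_lt (hL : Ton L) {q q' : ℕ} (hq : 0 < q) (hq' : 0 < q') {p p' : ℤ}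
    (h : Loop L q p X W) (h' : Loop L q' p' X' W') (hx : X 0 = X' 0)
    (hpq : (p : ℝ) * q' < p' * q) : W 0 < W' 0 := by
  have h1 : HasDerivAt (fun s => X' s - X s) (W' 0 - W 0) 0 := (h'.sol.pos 0).sub (h.sol.pos 0)
  have h2 := h1.tendsto_slope_zero_right
  have h3 : 0 ≤ W' 0 - W 0 := by
    refine ge_of_tendsto h2 ?_
    filter_upwards [self_mem_nhdsWithin] with s hs
    have h4 : 0 < s := hs
    have h5 := loop_cross hL hq hq' h h' hx hpq h4
    have h6 : (0 : ℝ) < s⁻¹ := inv_pos.2 h4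
    rw [smul_eq_mul, zero_add, hx, sub_self, sub_zero]
    exact (mul_pos h6 (by linarith)).le
  rcases lt_or_eq_of_le (sub_nonneg.1 h3) with h4 | h4
  · exact h4
  · have h5 := sol_uniq hL h.sol h'.sol hx h4
    have h6 := loop_cross hL hq hq' h h' hx hpq one_pos
    rw [h5.1] at h6
    exact absurd h6 (lt_irrefl _)

end Pool.Agent.NOne
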