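import Mathlib

/-! AL8s (package). Subgradients of a strictly convex function; integrals of Lipschitz functions
(Mathlib only). -/

set_option autoImplicit false

namespace Pool.Agent.NOne

open Set MeasureTheory

/-- `c` is monotone. Proof. `hc h (c h')` and `hc h' (c h)` add up to
`(h' - h) (c h' - c h) ≥ 0`. -/
theorem subgrad_mono {al : ℝ → ℝ} {c : ℚ → ℝ}
    (hc : ∀ (h : ℚ) (x : ℝ), al (c h) + h * (x - c h) ≤ al x) {h h' : ℚ} (hh : h < h') :
    c h ≤ c h' := by
  by_contra hcon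
  push Not at hcon
  have h1 := hc h (c h')
  have h2 := hc h' (c h)
  have h3 : (h : ℝ) < h' := by exact_mod_cast hh
  nlinarith [mul_pos (sub_pos.2 h3) (sub_pos.2 hcon)]

/-- Two points with rational subgradients on the two sides of `om`, close to each other.

Proof. Suppose not: `ε ≤ c h' - c h` for all rational `h, h'` with
`om - 1 < h < om < h' < om + 1`. Let `c₁ = sup {c h | om - 1 < h < om}` (nonempty; bounded above by
`c h'` for any such `h'`, `subgrad_mono`) and `c₂ = inf {c h' | om < h' < om + 1}`; then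
`c₁ + ε ≤ c₂` (`le_csInf`, `csSup_le`). Let `m = (c₁ + c₂) / 2`.
(1) `om (m - c₁) ≤ al m - al c₁`: for every rational `h ∈ (om - 1, om)`: `c h ≤ c₁ < m`. If
`c h = c₁` this is `hc h m` up to `h (m - c₁) ≤ al m - al c₁`. If `c h < c₁` then convexity gives
`h ≤ (al c₁ - al (c h)) / (c₁ - c h) ≤ (al m - al c₁) / (m - c₁)` (the first inequality is
`hc h c₁`; `ConvexOn.slope_mono_adjacent`). So `h (m - c₁) ≤ al m - al c₁` for all rational
`h ∈ (om - 1, om)`, hence for `om` (`le_of_forall_lt` type argument: if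
`al m - al c₁ < om (m - c₁)` choose a rational `h` in `(max (om - 1) ((al m - al c₁) / (m - c₁)),
om)`, `exists_rat_btwn`).
(2) `al c₂ - al m ≤ om (c₂ - m)`: in the same way from the `h' ∈ (om, om + 1)`.
(3) Strict convexity: `StrictConvexOn.slope_strict_mono_adjacent` for `c₁ < m < c₂`:
`(al m - al c₁) / (m - c₁) < (al c₂ - al m) / (c₂ - m)`. Contradiction with (1), (2). -/
theorem exists_subgrad_close {al : ℝ → ℝ} (hs : StrictConvexOn ℝ univ al) {c : ℚ → ℝ}
    (hc : ∀ (h : ℚ) (x : ℝ), al (c h) + h * (x - c h) ≤ al x) (om : ℝ) {ε : ℝ} (hε : 0 < ε) :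
    ∃ h h' : ℚ, om - 1 < h ∧ (h : ℝ) < om ∧ om < h' ∧ (h' : ℝ) < om + 1 ∧ c h' - c h < ε := by
  by_contra hcon
  push Not at hcon
  obtain ⟨h0, ha0, hb0⟩ := exists_rat_btwn (show om - 1 < om by linarith)
  obtain ⟨k0, hc0, hd0⟩ := exists_rat_btwn (show om < om + 1 by linarith)
  have hlt : ∀ h k : ℚ, (h : ℝ) < om → om < k → h < k := fun h k h1 h2 => by
    exact_mod_cast h1.trans h2
  set S1 : Set ℝ := {y | ∃ h : ℚ, om - 1 < h ∧ (h : ℝ) < om ∧ y = c h} with hS1
  set S2 : Set ℝ := {y | ∃ h : ℚ, om < h ∧ (h : ℝ) < om + 1 ∧ y = c h} with hS2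
  have hn1 : S1.Nonempty := ⟨c h0, h0, ha0, hb0, rfl⟩
  have hn2 : S2.Nonempty := ⟨c k0, k0, hc0, hd0, rfl⟩
  have hb1 : BddAbove S1 := by
    refine ⟨c k0, ?_⟩
    rintro y ⟨h, h1, h2, rfl⟩
    exact subgrad_mono hc (hlt h k0 h2 hc0)
  have hb2 : BddBelow S2 := by
    refine ⟨c h0, ?_⟩
    rintro y ⟨h, h1, h2, rfl⟩
    exact subgrad_mono hc (hlt h0 h hb0 h1)
  set c1 := sSup S1 with hc1
  set c2 := sInf S2 with hc2
  have hcc : c1 + ε ≤ c2 := by
    refine le_csInf hn2 ?_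
    rintro y ⟨k, h1, h2, rfl⟩
    have h3 : c1 ≤ c k - ε := by
      refine csSup_le hn1 ?_
      rintro y ⟨h, h4, h5, rfl⟩
      linarith [hcon h k h4 h5 h1 h2]
    linarith
  have hle1 : ∀ h : ℚ, om - 1 < h → (h : ℝ) < om → c h ≤ c1 := fun h h1 h2 =>
    le_csSup hb1 ⟨h, h1, h2, rfl⟩
  have hle2 : ∀ h : ℚ, om < h → (h : ℝ) < om + 1 → c2 ≤ c h := fun h h1 h2 =>
    csInf_le hb2 ⟨h, h1, h2, rfl⟩
  set m := (c1 + c2) / 2 with hm
  have hm1 : c1 < m := by rw [hm]; linarith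
  have hm2 : m < c2 := by rw [hm]; linarith
  have key1 : om ≤ (al m - al c1) / (m - c1) := by
    by_contra hcon1
    push Not at hcon1
    obtain ⟨h, h1, h2⟩ := exists_rat_btwn (max_lt (show om - 1 < om by linarith) hcon1)
    have h3 := (max_lt_iff.1 h1).1
    have h4 := (max_lt_iff.1 h1).2
    refine absurd h4 (not_lt.2 ?_)
    rcases (hle1 h h3 h2).lt_or_eq with h5 | h5
    · refine le_trans ?_ (hs.convexOn.slope_mono_adjacent (mem_univ (c h)) (mem_univ m) h5 hm1)
      rw [le_div_iff₀ (sub_pos.2 h5)]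
      linarith [hc h c1]
    · rw [le_div_iff₀ (sub_pos.2 hm1), ← h5]
      linarith [hc h m]
  have key2 : (al c2 - al m) / (c2 - m) ≤ om := by
    by_contra hcon1
    push Not at hcon1
    obtain ⟨h, h1, h2⟩ := exists_rat_btwn (lt_min (show om < om + 1 by linarith) hcon1)
    have h3 := (lt_min_iff.1 h2).1
    have h4 := (lt_min_iff.1 h2).2
    refine absurd h4 (not_lt.2 ?_)
    rcases (hle2 h h1 h3).lt_or_eq with h5 | h5
    · refine (hs.convexOn.slope_mono_adjacent (mem_univ m) (mem_univ (c h)) hm2 h5).trans ?_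
      rw [div_le_iff₀ (sub_pos.2 h5)]
      linarith [hc h c2]
    · rw [div_le_iff₀ (sub_pos.2 hm2), h5]
      linarith [hc h m]
  have key3 := hs.slope_strict_mono_adjacent (mem_univ c1) (mem_univ c2) hm1 hm2
  linarith

/-- A nonnegative `K`-Lipschitz function of period one with a value `≥ δ` has integral `≥ δ'`.

Proof. Let `η = min 1 (δ / (2 K + 1))`, `δ' = η δ / 2`. `∫₀¹ g = ∫ₓ^{x+1} g`
(`Function.Periodic.intervalIntegral_add_eq`), `g` is continuous (Lipschitz), and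
`g y ≥ δ - K η ≥ δ / 2` for `y ∈ [x, x + η]`; `∫ₓ^{x+1} g ≥ ∫ₓ^{x+η} g ≥ η δ / 2`. -/
theorem int_lower {K δ : ℝ} (hK : 0 ≤ K) (hδ : 0 < δ) : ∃ δ' : ℝ, 0 < δ' ∧ ∀ g : ℝ → ℝ,
    (∀ y, 0 ≤ g y) → (∀ y y', |g y - g y'| ≤ K * |y - y'|) → (∀ y, g (y + 1) = g y) →
    ∀ x, δ ≤ g x → δ' ≤ ∫ y in (0 : ℝ)..1, g y := by
  have hK1 : 0 < 2 * (K + 1) := by linarith
  set η := min 1 (δ / (2 * (K + 1))) with hη
  have hη0 : 0 < η := lt_min one_pos (div_pos hδ hK1)
  have hη1 : η ≤ 1 := min_le_left _ _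
  have hη2 : K * η ≤ δ / 2 := by
    have h1 : η ≤ δ / (2 * (K + 1)) := min_le_right _ _
    rw [le_div_iff₀ hK1] at h1
    nlinarith
  refine ⟨η * (δ / 2), mul_pos hη0 (by linarith), fun g h0 hL hp x hx => ?_⟩
  have hcont : Continuous g := by
    have h1 : LipschitzWith ⟨K, hK⟩ g := LipschitzWith.of_dist_le_mul fun y y' => by
      rw [Real.dist_eq, Real.dist_eq]
      exact hL y y'
    exact h1.continuous
  have hper : Function.Periodic g 1 := hp
  have h1 : ∫ y in (0 : ℝ)..1, g y = ∫ y in x..x + 1, g y := by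
    have h2 := hper.intervalIntegral_add_eq 0 x
    rwa [zero_add] at h2
  rw [h1]
  have h3 : ∫ y in x..x + η, g y ≤ ∫ y in x..x + 1, g y :=
    intervalIntegral.integral_mono_interval le_rfl (by linarith) (by linarith)
      (Filter.Eventually.of_forall h0) (hcont.intervalIntegrable _ _)
  refine le_trans ?_ h3
  have h4 : ∫ _y in x..x + η, (δ / 2) = η * (δ / 2) := by
    rw [intervalIntegral.integral_const, smul_eq_mul]
    ring
  rw [← h4]
  refine intervalIntegral.integral_mono_on (by linarith) (continuous_const.intervalIntegrable _ _)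
    (hcont.intervalIntegrable _ _) fun y hy => ?_
  have h5 := hL x y
  have h6 : |x - y| ≤ η := by
    rw [abs_le]
    constructor <;> linarith [hy.1, hy.2]
  have h7 := abs_le.1 h5
  nlinarith [mul_le_mul_of_nonneg_left h6 hK]

end Pool.Agent.NOne
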