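import Pool.Agent.NOne.AL8i
import Pool.Agent.NOne.AL8s

/-! AL8d (package). Density of the velocities (F10). -/

set_option autoImplicit false

namespace Pool.Agent.NOne

open Set MeasureTheory

variable {L : ℝ → ℝ → ℝ → ℝ}

/-- (F9) Proof. `exists_subgrad_close` for `c h = bq L h.den h.num` (`bq_subgrad`), and `bq_eq_int`
(`Rat.num_div_den`). -/
theorem pp_close (hL : Ton L) {al : ℝ → ℝ} (h : AlOK L al) (hs : StrictConvexOn ℝ univ al)
    (om : ℝ) {ε : ℝ} (hε : 0 < ε) : ∃ r r' : ℚ, om - 1 < r ∧ (r : ℝ) < om ∧ om < r' ∧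
      (r' : ℝ) < om + 1 ∧
      ∫ x in (0 : ℝ)..1, PP L r' x < (∫ x in (0 : ℝ)..1, PP L r x) + ε := by
  have hb := hb_of_alOK hL h hs
  obtain ⟨r, r', h1, h2, h3, h4, h5⟩ := exists_subgrad_close hs
    (c := fun r : ℚ => bq L r.den r.num) (fun r x => bq_subgrad hL h hs r x) om hε
  refine ⟨r, r', h1, h2, h3, h4, ?_⟩
  have key : ∀ r : ℚ, bq L r.den r.num = ∫ x in (0 : ℝ)..1, PP L r x := by
    intro r
    rw [bq_eq_int hL hb r.den_pos r.num, Rat.num_div_den]
  have h5' : bq L r'.den r'.num - bq L r.den r.num < ε := h5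
  rw [key r, key r'] at h5'
  linarith

/-- (F10) Proof. Suppose that no `h` has `v < VV L h x < v'`.
Let `S = {h : ℝ | ∃ r : ℚ, r = h ∧ VV L r x ≤ v}`. `S` is nonempty: otherwise `v < VV L (-n) x` for
all `n : ℕ`, and `VV L (-n) x ≤ VV L 0 x` (`vv_mono`), so `|VV L (-n) x| ≤ R`
(`R = max |v| |VV L 0 x|`) and `n ≤ Ω R` for all `n` (`vv_big`, `exists_omg`). `S` is bounded above:
otherwise (`vv_mono`) `VV L n x ≤ v` for all `n : ℕ`, and `VV L 0 x ≤ VV L n x`, again
`n ≤ Ω R`. Let `om = sSup S`. For rational `h < om`: `VV L h x ≤ v` (there is `s ∈ S`, `h < s`;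
`vv_mono`). For rational `h' > om`: `h' ∉ S`, so `v < VV L h' x` and, by the assumption,
`v' ≤ VV L h' x`. So for rational `h < om < h'`:
`PP L h' x - PP L h x ≥ d2 L x v' 0 - d2 L x v 0 =: δ > 0` (`d2_strictMono`). Let `K` be the
constant of `pp_lip` for `H = |om| + 1`, and `δ'` the constant of `int_lower` for `2 K`, `δ`.
`pp_close` with `ε = δ'`: `r, r'` with `|r|, |r'| ≤ H`. Apply `int_lower` to
`g = PP L r' - PP L r`: `g ≥ 0` (`pp_mono`), Lipschitz with `2 K`, periodic (`pp_per`), `δ ≤ g x`: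
`δ' ≤ ∫ g = ∫ PP L r' - ∫ PP L r < δ'` (`pp_cont`), contradiction. -/
theorem vv_dense (hL : Ton L) {al : ℝ → ℝ} (h : AlOK L al) (hs : StrictConvexOn ℝ univ al)
    (x : ℝ) {v v' : ℝ} (hv : v < v') : ∃ r : ℚ, v < VV L r x ∧ VV L r x < v' := by
  by_contra hcon
  push Not at hcon
  have hb := hb_of_alOK hL h hs
  obtain ⟨Ω, hΩ⟩ := exists_omg hL
  have hmono : ∀ r r' : ℚ, r ≤ r' → VV L r x ≤ VV L r' x := fun r r' hr => by
    rcases hr.lt_or_eq with h1 | h1
    · exact (vv_mono hL hb h1 x).le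
    · rw [h1]
  have hm1 := le_max_left |v| |VV L 0 x|
  have hm2 := le_max_right |v| |VV L 0 x|
  have hv1 := neg_abs_le v
  have hv2 := le_abs_self v
  have hw1 := neg_abs_le (VV L 0 x)
  have hw2 := le_abs_self (VV L 0 x)
  have hne : {y : ℝ | ∃ r : ℚ, y = r ∧ VV L r x ≤ v}.Nonempty := by
    by_contra hemp
    have h1 : ∀ r : ℚ, v < VV L r x := by
      intro r
      by_contra h2
      exact hemp ⟨r, r, rfl, not_lt.1 h2⟩
    obtain ⟨n, hn⟩ := exists_nat_gt (Ω (max |v| |VV L 0 x|))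
    have h2 : |VV L ((-(n : ℤ) : ℤ) : ℚ) x| ≤ max |v| |VV L 0 x| := by
      have h3 := h1 ((-(n : ℤ) : ℤ) : ℚ)
      have h4 : VV L ((-(n : ℤ) : ℤ) : ℚ) x ≤ VV L 0 x := hmono _ _ (by push_cast; simp)
      rw [abs_le]
      constructor <;> linarith
    have h5 := vv_big hL hb hΩ (-(n : ℤ)) h2
    push_cast at h5
    rw [abs_neg, abs_of_nonneg (Nat.cast_nonneg n)] at h5
    linarith
  have hbd : BddAbove {y : ℝ | ∃ r : ℚ, y = r ∧ VV L r x ≤ v} := by
    by_contra hnb
    have h1 : ∀ r : ℚ, VV L r x ≤ v := by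
      intro r
      obtain ⟨y, ⟨s, rfl, h2⟩, h3⟩ := not_bddAbove_iff.1 hnb r
      have h4 : r < s := by exact_mod_cast h3
      exact (hmono r s h4.le).trans h2
    obtain ⟨n, hn⟩ := exists_nat_gt (Ω (max |v| |VV L 0 x|))
    have h2 : |VV L ((n : ℤ) : ℚ) x| ≤ max |v| |VV L 0 x| := by
      have h3 := h1 ((n : ℤ) : ℚ)
      have h4 : VV L 0 x ≤ VV L ((n : ℤ) : ℚ) x := hmono _ _ (by push_cast; simp)
      rw [abs_le]
      constructor <;> linarith
    have h5 := vv_big hL hb hΩ (n : ℤ) h2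
    push_cast at h5
    rw [abs_of_nonneg (Nat.cast_nonneg n)] at h5
    linarith
  set om := sSup {y : ℝ | ∃ r : ℚ, y = r ∧ VV L r x ≤ v} with hom
  have hlow : ∀ r : ℚ, (r : ℝ) < om → VV L r x ≤ v := by
    intro r hr
    obtain ⟨y, ⟨s, rfl, h2⟩, h3⟩ := exists_lt_of_lt_csSup hne hr
    have h4 : r < s := by exact_mod_cast h3
    exact (hmono r s h4.le).trans h2
  have hhigh : ∀ r : ℚ, om < r → v' ≤ VV L r x := by
    intro r hr
    refine hcon r ?_
    by_contra h2
    exact absurd (le_csSup hbd ⟨r, rfl, not_lt.1 h2⟩) (not_le.2 hr)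
  have hd := d2_strictMono hL x 0
  have hδ : 0 < d2 L x v' 0 - d2 L x v 0 := sub_pos.2 (hd hv)
  obtain ⟨K, hK, hlip⟩ := pp_lip hL hb (|om| + 1)
  obtain ⟨δ', hδ', hint⟩ := int_lower (K := 2 * K) (by linarith) hδ
  obtain ⟨r, r', h1, h2, h3, h4, h5⟩ := pp_close hL h hs om hδ'
  have hrr : r < r' := by exact_mod_cast h2.trans h3
  have ho1 := neg_abs_le om
  have ho2 := le_abs_self om
  have hr1 : |(r : ℝ)| ≤ |om| + 1 := by
    rw [abs_le]
    constructor <;> linarith
  have hr2 : |(r' : ℝ)| ≤ |om| + 1 := by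
    rw [abs_le]
    constructor <;> linarith
  have h6 := hint (fun y => PP L r' y - PP L r y)
    (fun y => sub_nonneg.2 (pp_mono hL hb hrr y).le)
    (fun y y' => by
      have e1 := hlip r' hr2 y y'
      have e2 := hlip r hr1 y y'
      have e3 : PP L r' y - PP L r y - (PP L r' y' - PP L r y') =
          (PP L r' y - PP L r' y') - (PP L r y - PP L r y') := by ring
      rw [e3]
      refine (abs_sub _ _).trans ?_
      linarith)
    (fun y => by
      rw [pp_per hL hb r' y, pp_per hL hb r y]) x (by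
      have e1 : d2 L x v' 0 ≤ PP L r' x := hd.monotone (hhigh r' h3)
      have e2 : PP L r x ≤ d2 L x v 0 := hd.monotone (hlow r h2)
      linarith)
  rw [intervalIntegral.integral_sub ((pp_cont hL hb r').intervalIntegrable _ _)
    ((pp_cont hL hb r).intervalIntegrable _ _)] at h6
  linarith

/-- **The result of Part A.** Finished up to the theorems above. -/
theorem exists_c0i (hL : Ton L) {al : ℝ → ℝ} (h : AlOK L al) (hs : StrictConvexOn ℝ univ al) :
    ∃ V : ℚ → ℝ → ℝ, C0I L V := by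
  have hb := hb_of_alOK hL h hs
  exact ⟨VV L,
    { ton := hL
      per := fun r x => vv_per hL hb r x
      cont := fun r => vv_cont hL hb r
      mono := fun r r' x hh => vv_mono hL hb hh x
      dense := fun x v v' hv => vv_dense hL h hs x hv
      cross := fun r r' x t hh ht => vv_cross hL hb x hh ht
      order := fun r x y t hxy => vv_order hL hb r t hxy
      orb := fun q p hq x t => vv_orb hL hb hq p x t
      inv := fun r x => vv_inv hL hb r x
      mini := fun q p hq x z u hz hzp => vv_mini hL hb hq p x hz hzp }⟩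

end Pool.Agent.NOne
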