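import Mathlib

/-! AL8g (package). A positive function with a linear second order inequality cannot decrease too
fast (Mathlib only). -/

set_option autoImplicit false

namespace Pool.Agent.NOne

open Set

/-- Let `D' = E`, `E' = F`, `|F| ≤ C (|D| + |E|)` and `D > 0` on `[0, 1]`. Then `- K (D 0) ≤ E 0`,
and `K` depends only on `C`.

Proof. Put `M = exp (1 + C)`, `C' = 2 C M + 1`, `τ = min 1 (1 / C') = 1 / C'`, `K = 2 / τ` (so
`1 ≤ K`). Suppose
`E 0 < - K (D 0)`; put `d = D 0 > 0`, `e = - E 0 > K d ≥ d`.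
(1) `|D t| + |E t| ≤ (d + e) exp ((1 + C) t) ≤ 2 e M` on `[0, 1]`. This is Gronwall: the curve
`t ↦ (D t, E t)` in `ℝ × ℝ` (sup norm), with derivative `(E t, F t)` of norm
`≤ (1 + 2 C) ‖(D t, E t)‖`;
`norm_le_gronwallBound_of_norm_deriv_right_le` with `K = 1 + 2 C`, `ε = 0`, `δ = e`
(`‖(D 0, E 0)‖ = max d e = e`) gives
`‖(D t, E t)‖ ≤ e exp (1 + 2 C)`; so use `M = exp (1 + 2 C)` (any constant which depends only on
`C` is fine).
(2) So `|F t| ≤ 2 C M e ≤ C' e`, thus `E t ≤ - e + C' e t` on `[0, 1]` (the function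
`t ↦ E t - C' e t` is antitone:
`antitoneOn_of_deriv_nonpos`, or the mean value inequality) and
`D t ≤ d - e t + C' e t ^ 2 / 2` (same argument with the antitone function
`t ↦ D t + e t - C' e t ^ 2 / 2`).
(3) At `t = τ = 1 / C' ≤ 1`: `D τ ≤ d - e τ + e τ / 2 = d - e τ / 2 < 0` because
`e > K d = 2 d / τ`. Contradiction with `0 < D τ`. -/
theorem slope_ge_of_pos {C : ℝ} (hC : 0 ≤ C) : ∃ K : ℝ, 0 ≤ K ∧ ∀ D E F : ℝ → ℝ,
    (∀ t ∈ Icc (0 : ℝ) 1, HasDerivAt D (E t) t) → (∀ t ∈ Icc (0 : ℝ) 1, HasDerivAt E (F t) t) →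
    (∀ t ∈ Icc (0 : ℝ) 1, |F t| ≤ C * (|D t| + |E t|)) → (∀ t ∈ Icc (0 : ℝ) 1, 0 < D t) →
    -K * D 0 ≤ E 0 := by
  obtain ⟨M, hM⟩ : ∃ M : ℝ, M = Real.exp (1 + 2 * C) := ⟨_, rfl⟩
  have hM0 : 0 < M := by rw [hM]; exact Real.exp_pos _
  obtain ⟨C', hC'⟩ : ∃ C' : ℝ, C' = 2 * C * M + 1 := ⟨_, rfl⟩
  have hC'1 : 1 ≤ C' := by
    have : 0 ≤ 2 * C * M := by positivity
    linarith
  have hC'0 : 0 < C' := by linarith
  refine ⟨2 * C', by positivity, ?_⟩
  intro D E F hD hE hF hpos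
  by_contra hcon
  push Not at hcon
  have h01 : (0 : ℝ) ∈ Icc (0 : ℝ) 1 := ⟨le_refl _, zero_le_one⟩
  have hd : 0 < D 0 := hpos 0 h01
  obtain ⟨e, he⟩ : ∃ e : ℝ, e = -E 0 := ⟨_, rfl⟩
  have heK : 2 * C' * D 0 < e := by
    rw [he]
    linarith
  have hde : D 0 ≤ e := by nlinarith
  have he0 : 0 < e := lt_of_lt_of_le hd hde
  have hcD : ContinuousOn D (Icc 0 1) := fun t ht => (hD t ht).continuousAt.continuousWithinAt
  have hcE : ContinuousOn E (Icc 0 1) := fun t ht => (hE t ht).continuousAt.continuousWithinAt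
  -- (1) Gronwall
  have hgr : ∀ t ∈ Icc (0 : ℝ) 1, ‖(D t, E t)‖ ≤ e * M := by
    have h1 := norm_le_gronwallBound_of_norm_deriv_right_le (f := fun t => (D t, E t))
      (f' := fun t => (E t, F t)) (δ := e) (K := 1 + 2 * C) (ε := 0) (a := 0) (b := 1)
      (hcD.prodMk hcE)
      (fun t ht => ((hD t ⟨ht.1, ht.2.le⟩).prodMk (hE t ⟨ht.1, ht.2.le⟩)).hasDerivWithinAt)
      (by
        rw [Prod.norm_def, Real.norm_eq_abs, Real.norm_eq_abs]
        refine max_le ?_ ?_
        · rw [abs_of_pos hd]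
          exact hde
        · rw [← abs_neg, ← he, abs_of_pos he0])
      (fun t ht => by
        have hn0 : 0 ≤ ‖(D t, E t)‖ := norm_nonneg _
        have hnD : |D t| ≤ ‖(D t, E t)‖ := by
          rw [Prod.norm_def, ← Real.norm_eq_abs]
          exact le_max_left _ _
        have hnE : |E t| ≤ ‖(D t, E t)‖ := by
          rw [Prod.norm_def, ← Real.norm_eq_abs (E t)]
          exact le_max_right _ _
        have hFt := hF t ⟨ht.1, ht.2.le⟩
        have h3 : 0 ≤ C * ‖(D t, E t)‖ := mul_nonneg hC hn0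
        have h4 : C * (|D t| + |E t|) ≤ C * (‖(D t, E t)‖ + ‖(D t, E t)‖) :=
          mul_le_mul_of_nonneg_left (add_le_add hnD hnE) hC
        rw [add_zero]
        change ‖(E t, F t)‖ ≤ (1 + 2 * C) * ‖(D t, E t)‖
        rw [Prod.norm_def (x := (E t, F t)), Real.norm_eq_abs, Real.norm_eq_abs]
        refine max_le ?_ ?_
        · change |E t| ≤ _
          linarith
        · change |F t| ≤ _
          linarith)
    intro t ht
    have h2 := h1 t ht
    rw [gronwallBound_ε0] at h2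
    refine h2.trans (mul_le_mul_of_nonneg_left ?_ he0.le)
    rw [hM, Real.exp_le_exp]
    have h5 : 0 ≤ 1 + 2 * C := by linarith
    have h6 := mul_le_mul_of_nonneg_left ht.2 h5
    linarith
  -- (2)
  have hFb : ∀ t ∈ Icc (0 : ℝ) 1, F t ≤ C' * e := by
    intro t ht
    have h1 := hgr t ht
    have hnD : |D t| ≤ ‖(D t, E t)‖ := by
      rw [Prod.norm_def, ← Real.norm_eq_abs]
      exact le_max_left _ _
    have hnE : |E t| ≤ ‖(D t, E t)‖ := by
      rw [Prod.norm_def, ← Real.norm_eq_abs (E t)]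
      exact le_max_right _ _
    have h4 : C * (|D t| + |E t|) ≤ C * (e * M + e * M) :=
      mul_le_mul_of_nonneg_left (add_le_add (hnD.trans h1) (hnE.trans h1)) hC
    calc F t ≤ |F t| := le_abs_self _
      _ ≤ C * (e * M + e * M) := (hF t ht).trans h4
      _ ≤ C' * e := by
        rw [hC']
        linarith
  have hEb : ∀ t ∈ Icc (0 : ℝ) 1, E t ≤ -e + C' * e * t := by
    have hanti : AntitoneOn (fun t => E t - C' * e * t) (Icc 0 1) := by
      refine antitoneOn_of_deriv_nonpos (convex_Icc 0 1)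
        (hcE.sub ((continuous_const.mul continuous_id).continuousOn)) ?_ ?_
      · intro t ht
        rw [interior_Icc] at ht
        exact ((hE t ⟨ht.1.le, ht.2.le⟩).sub ((hasDerivAt_id t).const_mul
          (C' * e))).differentiableAt.differentiableWithinAt
      · intro t ht
        rw [interior_Icc] at ht
        have h1 := ((hE t ⟨ht.1.le, ht.2.le⟩).sub ((hasDerivAt_id t).const_mul (C' * e)))
        have h2 : deriv (fun t => E t - C' * e * t) t = F t - C' * e * 1 := h1.deriv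
        rw [h2]
        have := hFb t ⟨ht.1.le, ht.2.le⟩
        linarith
    intro t ht
    have h1 := hanti h01 ht ht.1
    simp only [mul_zero, sub_zero] at h1
    rw [he]
    rw [he] at h1
    linarith
  obtain ⟨τ, hτ⟩ : ∃ τ : ℝ, τ = 1 / C' := ⟨_, rfl⟩
  have hτ0 : 0 < τ := by rw [hτ]; positivity
  have hτ1 : τ ≤ 1 := by
    rw [hτ, div_le_one hC'0]
    exact hC'1
  have hτC : C' * τ = 1 := by
    rw [hτ]
    field_simp
  have hDb : D τ ≤ D 0 - e * τ + C' * e * τ ^ 2 / 2 := by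
    have hder : ∀ t ∈ Icc (0 : ℝ) 1, HasDerivAt (fun t => D t + e * t - C' * e * t ^ 2 / 2)
        (E t + e - C' * e * t) t := by
      intro t ht
      have h1 := ((hD t ht).add ((hasDerivAt_id t).const_mul e)).sub
        (((hasDerivAt_pow 2 t).const_mul (C' * e)).div_const 2)
      refine (h1.congr_deriv ?_)
      simp only [Nat.cast_ofNat, Nat.add_one_sub_one, pow_one]
      ring
    have hanti : AntitoneOn (fun t => D t + e * t - C' * e * t ^ 2 / 2) (Icc 0 1) := by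
      refine antitoneOn_of_deriv_nonpos (convex_Icc 0 1)
        (fun t ht => (hder t ht).continuousAt.continuousWithinAt) ?_ ?_
      · intro t ht
        rw [interior_Icc] at ht
        exact (hder t ⟨ht.1.le, ht.2.le⟩).differentiableAt.differentiableWithinAt
      · intro t ht
        rw [interior_Icc] at ht
        rw [(hder t ⟨ht.1.le, ht.2.le⟩).deriv]
        have := hEb t ⟨ht.1.le, ht.2.le⟩
        linarith
    have h1 := hanti h01 ⟨hτ0.le, hτ1⟩ hτ0.le
    simp only [mul_zero, add_zero, ne_eq, OfNat.ofNat_ne_zero, not_false_eq_true, zero_pow,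
      zero_div, sub_zero] at h1
    linarith
  have hfin : C' * e * τ ^ 2 / 2 = e * τ / 2 := by
    calc C' * e * τ ^ 2 / 2 = (C' * τ) * (e * τ) / 2 := by ring
      _ = e * τ / 2 := by rw [hτC, one_mul]
  have h2d : 2 * D 0 < e * τ := by
    calc 2 * D 0 = 2 * (C' * τ) * D 0 := by rw [hτC, mul_one]
      _ = 2 * C' * D 0 * τ := by ring
      _ < e * τ := mul_lt_mul_of_pos_right heK hτ0
  have hneg := hpos τ ⟨hτ0.le, hτ1⟩
  rw [hfin] at hDb
  linarith

/-- The same on `[-1, 1]`, in both directions.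

Proof. `slope_ge_of_pos` for `(D, E, F)` and for
`(t ↦ D (-t), t ↦ - E (-t), t ↦ F (-t))`. -/
theorem abs_slope_le_of_pos {C : ℝ} (hC : 0 ≤ C) : ∃ K : ℝ, 0 ≤ K ∧ ∀ D E F : ℝ → ℝ,
    (∀ t ∈ Icc (-1 : ℝ) 1, HasDerivAt D (E t) t) → (∀ t ∈ Icc (-1 : ℝ) 1, HasDerivAt E (F t) t) →
    (∀ t ∈ Icc (-1 : ℝ) 1, |F t| ≤ C * (|D t| + |E t|)) → (∀ t ∈ Icc (-1 : ℝ) 1, 0 < D t) →
    |E 0| ≤ K * D 0 := by
  obtain ⟨K, hK0, hK⟩ := slope_ge_of_pos hC
  refine ⟨K, hK0, ?_⟩
  intro D E F hD hE hF hpos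
  have hsub : ∀ t ∈ Icc (0 : ℝ) 1, t ∈ Icc (-1 : ℝ) 1 := fun t ht => ⟨by linarith [ht.1], ht.2⟩
  have hsub' : ∀ t ∈ Icc (0 : ℝ) 1, -t ∈ Icc (-1 : ℝ) 1 := fun t ht =>
    ⟨by linarith [ht.2], by linarith [ht.1]⟩
  have h1 := hK D E F (fun t ht => hD t (hsub t ht)) (fun t ht => hE t (hsub t ht))
    (fun t ht => hF t (hsub t ht)) (fun t ht => hpos t (hsub t ht))
  have h2 := hK (fun t => D (-t)) (fun t => -E (-t)) (fun t => F (-t))
    (fun t ht => by
      have h3 := (hD (-t) (hsub' t ht)).comp t (hasDerivAt_neg t)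
      refine h3.congr_deriv ?_
      ring)
    (fun t ht => by
      have h3 := ((hE (-t) (hsub' t ht)).comp t (hasDerivAt_neg t)).neg
      refine h3.congr_deriv ?_
      ring)
    (fun t ht => by
      have h3 := hF (-t) (hsub' t ht)
      rw [abs_neg]
      exact h3)
    (fun t ht => hpos (-t) (hsub' t ht))
  simp only [neg_zero] at h2
  rw [abs_le]
  constructor <;> linarith

end Pool.Agent.NOne
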