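import Pool.Agent.NOne.AL8b
import Pool.Agent.NOne.AAl

/-! AL8i (package). The slope `bq L q p` is the integral of the momentum. -/

set_option autoImplicit false

namespace Pool.Agent.NOne

open Set MeasureTheory

variable {L : ℝ → ℝ → ℝ → ℝ}

/-- (F8) Proof. Let `C` be the constant of `loop_var`. For every `x` take the loop of `vv_loop`
through `x`: `mm (tr L q p) x (x + e) ≤ m0 L q p + e * PP L (p / q) x + C e ^ 2` for `|e| ≤ 1`, and
`m0 L q p = MM (mm (tr L q p)) 1 0` by definition. `bp_le_integral` and `bm_le_integral` (for `-e`)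
for `m = mm (tr L q p)` (`Tw`: `mm_tw (tr_ton hL hq p)`, file `ACr`) give `bq L q p ≤ ∫ PP` and
`bn L q p ≤ - ∫ PP`; the sum is `0` (`hb`). -/
theorem bq_eq_int (hL : Ton L) (hb : HB L) {q : ℕ} (hq : 0 < q) (p : ℤ) :
    bq L q p = ∫ x in (0 : ℝ)..1, PP L ((p : ℚ) / q) x := by
  obtain ⟨C, hC⟩ := loop_var hL hq p
  have hT : Tw (mm (tr L q p)) := mm_tw (tr_ton hL hq p)
  have hP : Continuous (PP L ((p : ℚ) / q)) := pp_cont hL hb _
  have key : ∀ x e : ℝ, |e| ≤ 1 → mm (tr L q p) x (x + e) ≤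
      MM (mm (tr L q p)) 1 0 + e * PP L ((p : ℚ) / q) x + C * e ^ 2 := by
    intro x e he
    obtain ⟨X, W, hXW, hx, hw⟩ := vv_loop hL hb hq p x
    have h := hC X W hXW e he
    rw [hx, hw] at h
    exact h
  have h1 := bp_le_integral hT hP (C := C)
    (fun x e h0 h1 => key x e (abs_le.2 ⟨by linarith, h1⟩))
  have h2 := bm_le_integral hT hP (C := C) (fun x e h0 h1 => by
    have h := key x (-e) (by rw [abs_neg]; exact abs_le.2 ⟨by linarith, h1⟩)
    rw [← sub_eq_add_neg, neg_sq] at h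
    linarith)
  have h3 := hb q p hq
  have h4 : bq L q p = bp (mm (tr L q p)) := rfl
  have h5 : bn L q p = bm (mm (tr L q p)) := rfl
  rw [← h4] at h1
  rw [← h5] at h2
  linarith

/-- Proof. `bq_add_bn_eq`. -/
theorem hb_of_alOK (hL : Ton L) {al : ℝ → ℝ} (h : AlOK L al) (hs : StrictConvexOn ℝ univ al) :
    HB L := by
  exact fun q p hq => bq_add_bn_eq hL h hs hq p

/-- The slope is a subgradient of `al`. Proof. With `c = bq L q p`, `q = h.den`, `p = h.num`:
`al c = (c p - m0 L q p) / q` (`al_eq`; `-bn = bq` by `hb`), `al x ≥ (x p - m0 L q p) / q`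
(`al_ge`), and `p / q = h`. -/
theorem bq_subgrad (hL : Ton L) {al : ℝ → ℝ} (h : AlOK L al) (hs : StrictConvexOn ℝ univ al)
    (r : ℚ) (x : ℝ) :
    al (bq L r.den r.num) + r * (x - bq L r.den r.num) ≤ al x := by
  have hq : 0 < r.den := r.den_pos
  have hqr : (0 : ℝ) < r.den := by exact_mod_cast hq
  have h0 := bq_add_bn_eq hL h hs hq r.num
  have h1 := al_eq hL h hq r.num (c := bq L r.den r.num) (by linarith) le_rfl
  have h2 := al_ge hL h hq r.num x
  have h3 : (r : ℝ) = (r.num : ℝ) / r.den := Rat.cast_def r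
  rw [h1, h3]
  refine le_trans (le_of_eq ?_) h2
  field_simp
  ring

end Pool.Agent.NOne
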