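import Pool.Agent.NOne.AMz

/-! AL8m (package). Loops minimise the action between their ends on all intervals `[0, T]`. -/

set_option autoImplicit false

namespace Pool.Agent.NOne

open Set MeasureTheory

variable {L : ℝ → ℝ → ℝ → ℝ} {z u X W X' W' : ℝ → ℝ}

/-- Proof. Induction on `k` in both directions. -/
theorem loop_per_int {q : ℕ} {p : ℤ} (h : Loop L q p X W) (t : ℝ) (k : ℤ) :
    X (t + k * q) = X t + k * p := by
  induction k using Int.induction_on with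
  | zero => simp
  | succ k ih =>
    have h1 := h.per (t + ((k : ℤ) : ℝ) * q)
    have h2 : t + (((k : ℤ) + 1 : ℤ) : ℝ) * q = t + ((k : ℤ) : ℝ) * q + q := by
      push_cast
      ring
    rw [h2, h1, ih]
    push_cast
    ring
  | pred k ih =>
    have h1 := h.per (t + ((-(k : ℤ) - 1 : ℤ) : ℝ) * q)
    have h2 : t + ((-(k : ℤ) - 1 : ℤ) : ℝ) * q + q = t + ((-(k : ℤ) : ℤ) : ℝ) * q := by
      push_cast
      ring
    rw [h2, ih] at h1
    have h3 : (((-(k : ℤ) - 1 : ℤ) : ℝ)) * p = ((-(k : ℤ) : ℤ) : ℝ) * p - p := by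
      push_cast
      ring
    rw [h3]
    linarith

theorem loop_pew_int {q : ℕ} {p : ℤ} (h : Loop L q p X W) (t : ℝ) (k : ℤ) :
    W (t + k * q) = W t := by
  induction k using Int.induction_on with
  | zero => simp
  | succ k ih =>
    have h1 := h.pew (t + ((k : ℤ) : ℝ) * q)
    have h2 : t + (((k : ℤ) + 1 : ℤ) : ℝ) * q = t + ((k : ℤ) : ℝ) * q + q := by
      push_cast
      ring
    rw [h2, h1, ih]
  | pred k ih =>
    have h1 := h.pew (t + ((-(k : ℤ) - 1 : ℤ) : ℝ) * q)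
    have h2 : t + ((-(k : ℤ) - 1 : ℤ) : ℝ) * q + q = t + ((-(k : ℤ) : ℤ) : ℝ) * q := by
      push_cast
      ring
    rw [h2, ih] at h1
    exact h1.symm

/-- (F1) Proof. Let `k : ℕ`, `0 < k`, `T ≤ k q` (`k = ⌈T⌉₊ + 1`). Glue `z` on `[0, T]` and `X` on
`[T, k q]` (`cv_glue`, `sol_cv`): the new curve has the action
`act L z u 0 T + act L X W T (k q)` and leads from `X 0` to `X (k q) = X 0 + k p`
(`loop_per_int`). `closed_ge_zero`: its action is `≥ k (m0 L q p) = act L X W 0 (k q)`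
(`loop_act`) `= act L X W 0 T + act L X W T (k q)` (`act_add`). -/
theorem loop_mini (hL : Ton L) {q : ℕ} (hq : 0 < q) {p : ℤ} (h : Loop L q p X W) {T : ℝ}
    (hT : 0 ≤ T) (hz : Cv z u 0 T) (h0 : z 0 = X 0) (h1 : z T = X T) :
    act L X W 0 T ≤ act L z u 0 T := by
  have hk : 0 < ⌈T⌉₊ + 1 := Nat.succ_pos _
  generalize hkk : ⌈T⌉₊ + 1 = k at hk
  have hkT : T ≤ (k : ℝ) * q := by
    have e1 : T ≤ (⌈T⌉₊ : ℝ) := Nat.le_ceil T
    have e2 : (⌈T⌉₊ : ℝ) ≤ (k : ℝ) := by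
      rw [← hkk]
      push_cast
      linarith
    have e3 : (1 : ℝ) ≤ (q : ℝ) := by exact_mod_cast hq
    have e4 : (0 : ℝ) ≤ (k : ℝ) := Nat.cast_nonneg k
    nlinarith
  obtain ⟨y, w, hcv, hy1, hy2, -, -, hact⟩ := cv_glue hL hz (sol_cv h.sol hkT) h1
  have e0 : y 0 = X 0 := by rw [hy1 0 ⟨le_rfl, hT⟩, h0]
  have e1 : y ((k : ℝ) * q) = X ((k : ℝ) * q) := hy2 _ ⟨hkT, le_rfl⟩
  have e2 : X ((k : ℝ) * q) = X 0 + (k : ℝ) * p := by
    have := loop_per_int h 0 (k : ℤ)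
    rw [zero_add] at this
    exact_mod_cast this
  have e3 := closed_ge_zero hL hq p hk hcv (by rw [e1, e2, e0])
  have e4 := loop_act hL hq k h
  have e5 := act_add hL (sol_cv h.sol (hT.trans hkT)) hT hkT
  rw [hact] at e3
  linarith

end Pool.Agent.NOne
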