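import Pool.Agent.NOne.AL8x

/-! AL8o (package). Loops of the same rotation number do not meet. -/

set_option autoImplicit false

namespace Pool.Agent.NOne

open Set MeasureTheory

variable {L : ℝ → ℝ → ℝ → ℝ} {X W X' W' : ℝ → ℝ}

/-- Two curves with exchanged ends form a closed curve of type `(2 k q, 2 k p)`.

Proof. Glue `y` on `[0, k q]` and `y' (t - k q) + k p` on `[k q, 2 k q]` (`cv_shift` with
`n = k q`, `cv_glue`; at `t = k q` both are `b + k p`), action `act y + act y'` (`act_shift`). The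
new curve leads from `a` to `a + k p + k p`: `closed_ge_zero` with `2 k` for `k`. -/
theorem pair_ge (hL : Ton L) {q : ℕ} (hq : 0 < q) {p : ℤ} {k : ℕ} (hk : 0 < k) {a b : ℝ}
    {y w y' w' : ℝ → ℝ} (h : Cv y w 0 (k * q)) (h' : Cv y' w' 0 (k * q)) (h0 : y 0 = a)
    (h1 : y (k * q) = b + k * p) (h0' : y' 0 = b) (h1' : y' (k * q) = a + k * p) :
    2 * k * m0 L q p ≤ act L y w 0 (k * q) + act L y' w' 0 (k * q) := by
  have hn : (((k * q : ℕ) : ℤ) : ℝ) = (k : ℝ) * q := by push_cast; ring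
  have hkp : (((k : ℤ) * p : ℤ) : ℝ) = (k : ℝ) * p := by push_cast; ring
  have c1 := cv_shift h' ((k * q : ℕ) : ℤ) ((k : ℤ) * p)
  have a1 := act_shift hL y' w' 0 (k * q) ((k * q : ℕ) : ℤ) ((k : ℤ) * p)
  rw [hn, hkp, zero_add] at c1 a1
  have hend : (k : ℝ) * q + k * q = ((2 * k : ℕ) : ℝ) * q := by push_cast; ring
  rw [hend] at c1 a1
  obtain ⟨Y, V, hY, hY1, hY2, -, -, hA⟩ := cv_glue hL h c1 (by
    show y (k * q) = y' ((k : ℝ) * q - k * q) + k * p
    rw [sub_self, h1, h0'])
  have h0k : (0 : ℝ) ≤ (k : ℝ) * q := by positivity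
  have h2k : (k : ℝ) * q ≤ ((2 * k : ℕ) : ℝ) * q := by rw [← hend]; linarith
  have hY0 : Y 0 = a := by rw [hY1 0 ⟨le_rfl, h0k⟩, h0]
  have hYe : Y (((2 * k : ℕ) : ℝ) * q) = Y 0 + ((2 * k : ℕ) : ℝ) * p := by
    rw [hY2 _ ⟨h2k, le_rfl⟩, hY0]
    show y' (((2 * k : ℕ) : ℝ) * q - k * q) + k * p = _
    have e : ((2 * k : ℕ) : ℝ) * q - k * q = k * q := by rw [← hend]; ring
    rw [e, h1']
    push_cast
    ring
  have hfin := closed_ge_zero hL hq p (k := 2 * k) (by omega) hY hYe
  rw [hA, a1] at hfin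
  have e2 : ((2 * k : ℕ) : ℝ) = 2 * (k : ℝ) := by push_cast; ring
  rw [e2] at hfin
  exact hfin

/-- (F3) Proof. (1) `X t ≠ X' t` for all `t`: suppose `X t₁ = X' t₁`. Then also at
`t₂ = t₁ + j q > 0`, `j : ℤ` large (`loop_per_int`). `exch_uniq` with `T = k q > t₂`, `k : ℕ`: the
total action of `X, X'` on `[0, k q]` is `2 k (m0 L q p)` (`loop_act`) and `pair_ge`
(`a = X 0`, `b = X' 0`; `X (k q) = X 0 + k p`). So `X = X'`, contradiction with
`X 0 < X' 0`.
(2) The continuous function `X' - X` has no zero and is positive at `0`, so it is positive. -/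
theorem loop_order (hL : Ton L) {q : ℕ} (hq : 0 < q) {p : ℤ} (h : Loop L q p X W)
    (h' : Loop L q p X' W') (hx : X 0 < X' 0) (t : ℝ) : X t < X' t := by
  have hq' : (0 : ℝ) < q := by exact_mod_cast hq
  have hne : ∀ t₁, X t₁ ≠ X' t₁ := by
    intro t₁ he
    obtain ⟨j, hj⟩ := exists_int_gt (-t₁ / q)
    have hpos : 0 < t₁ + j * q := by
      rw [div_lt_iff₀ hq'] at hj
      linarith
    obtain ⟨k, hk⟩ := exists_nat_gt ((t₁ + j * q) / q)
    rw [div_lt_iff₀ hq'] at hk
    have hk0 : 0 < k := by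
      rcases Nat.eq_zero_or_pos k with h0 | h0
      · subst h0
        simp only [Nat.cast_zero, zero_mul] at hk
        linarith
      · exact h0
    have he2 : X (t₁ + j * q) = X' (t₁ + j * q) := by
      rw [loop_per_int h, loop_per_int h', he]
    have hXk : X (k * q) = X 0 + k * p := by
      have := loop_per_int h 0 (k : ℤ)
      simpa using this
    have hXk' : X' (k * q) = X' 0 + k * p := by
      have := loop_per_int h' 0 (k : ℤ)
      simpa using this
    have hu := exch_uniq hL h.sol h'.sol hpos hk he2 (by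
      intro y w y' w' hy hy' y0 yT y0' yT'
      have := pair_ge hL hq hk0 hy hy' y0 (by rw [yT, hXk']) y0' (by rw [yT', hXk])
      rw [loop_act hL hq k h, loop_act hL hq k h']
      linarith)
    have := congrFun hu.1 0
    linarith
  have hcX : Continuous X := (sol_cont h.sol).1
  have hcX' : Continuous X' := (sol_cont h'.sol).1
  by_contra hcon
  rw [not_lt] at hcon
  have hc : ContinuousOn (fun s => X' s - X s) (uIcc 0 t) := (hcX'.sub hcX).continuousOn
  have hiv := intermediate_value_uIcc hc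
  have hmem : (0 : ℝ) ∈ uIcc (X' 0 - X 0) (X' t - X t) := by
    rw [mem_uIcc]
    right
    constructor
    · linarith
    · linarith
  obtain ⟨s, -, hs⟩ := hiv hmem
  exact hne s (by
    have : X' s - X s = 0 := hs
    linarith)

end Pool.Agent.NOne
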