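import Pool.Agent.NOne.AL8c
import Pool.Agent.NOne.AL8o

/-! AL8v (package). The velocity `VV L h x` of the minimal loop of rotation number `h` through
`x`: most fields of `C0I`. -/

set_option autoImplicit false

namespace Pool.Agent.NOne

open Set MeasureTheory

variable {L : ℝ → ℝ → ℝ → ℝ} {z u X W : ℝ → ℝ}

open Classical in
/-- the velocity at `x` (time `0`) of the minimal loop of rotation number `h` through `x` -/
noncomputable def VV (L : ℝ → ℝ → ℝ → ℝ) (h : ℚ) (x : ℝ) : ℝ :=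
  if H : ∃ X W : ℝ → ℝ, Loop L h.den h.num X W ∧ X 0 = x then H.choose_spec.choose 0 else 0

/-- the hypothesis: there is a minimal loop of every type through every point (`exists_loop`) -/
def HB (L : ℝ → ℝ → ℝ → ℝ) : Prop := ∀ (q : ℕ) (p : ℤ), 0 < q → bq L q p + bn L q p = 0

private theorem vvl' (hL : Ton L) (hb : HB L) (h : ℚ) (x : ℝ) :
    ∃ X W : ℝ → ℝ, Loop L h.den h.num X W ∧ X 0 = x ∧ W 0 = VV L h x := by
  have H : ∃ X W : ℝ → ℝ, Loop L h.den h.num X W ∧ X 0 = x :=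
    exists_loop hL h.den_pos h.num (hb _ _ h.den_pos) x
  refine ⟨H.choose, H.choose_spec.choose, H.choose_spec.choose_spec.1,
    H.choose_spec.choose_spec.2, ?_⟩
  unfold VV
  rw [dif_pos H]

private theorem vv_lt {h h' : ℚ} (hh : h < h') : (h.num : ℝ) * h'.den < h'.num * h.den := by
  have h1 : h.num * (h'.den : ℤ) < h'.num * h.den := (Rat.lt_iff _ _).1 hh
  exact_mod_cast h1

/-- Proof. `h = (p : ℚ) / q`, `q = k * h.den`, `p = k * h.num` with a natural number `k > 0`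
(`Rat.den_div_natCast..`, or: `p * h.den = h.num * q` and `h.num, h.den` are coprime, so
`h.den ∣ q`). `exists_loop` for
`(h.den, h.num)` gives the existence, so `VV L h x` is `W 0` for the chosen loop;
`loop_mul`. -/
theorem vv_loop (hL : Ton L) (hb : HB L) {q : ℕ} (hq : 0 < q) (p : ℤ) (x : ℝ) :
    ∃ X W : ℝ → ℝ, Loop L q p X W ∧ X 0 = x ∧ W 0 = VV L ((p : ℚ) / q) x := by
  obtain ⟨X, W, h1, h2, h3⟩ := vvl' hL hb ((p : ℚ) / q) x
  have hq0 : (q : ℤ) ≠ 0 := by exact_mod_cast hq.ne'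
  obtain ⟨c, hc1, hc2⟩ := Rat.num_den_mk (q := (p : ℚ) / q) (n := p) (d := q) hq0
    (by rw [Rat.divInt_eq_div]; push_cast; rfl)
  have hd : (0 : ℤ) < (((p : ℚ) / q).den : ℤ) := by exact_mod_cast ((p : ℚ) / q).den_pos
  have hc : 0 < c := by
    by_contra hcon
    have h4 : c * (((p : ℚ) / q).den : ℤ) ≤ 0 :=
      mul_nonpos_of_nonpos_of_nonneg (not_lt.1 hcon) hd.le
    have h5 : (0 : ℤ) < q := by exact_mod_cast hq
    linarith
  obtain ⟨k, rfl⟩ : ∃ k : ℕ, c = k := ⟨c.toNat, (Int.toNat_of_nonneg hc.le).symm⟩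
  have hk : 0 < k := by exact_mod_cast hc
  have h6 := loop_mul hL ((p : ℚ) / q).den_pos hk h1
  have h7 : k * ((p : ℚ) / q).den = q := by
    have : ((k * ((p : ℚ) / q).den : ℕ) : ℤ) = q := by
      push_cast
      exact hc2.symm
    exact_mod_cast this
  rw [h7, ← hc1] at h6
  exact ⟨X, W, h6, h2, h3⟩

/-- Proof. `vv_loop` at `x = X 0` and `loop_uniq`. -/
theorem vv_eq (hL : Ton L) (hb : HB L) {q : ℕ} (hq : 0 < q) {p : ℤ} (h : Loop L q p X W) :
    W 0 = VV L ((p : ℚ) / q) (X 0) := by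
  obtain ⟨X', W', h1, h2, h3⟩ := vv_loop hL hb hq p (X 0)
  rw [(loop_uniq hL hq h h1 h2.symm).2, h3]

/-- Proof. `vv_loop` with `q = h.den`, `p = h.num` (`Rat.num_div_den`). -/
theorem vv_loop' (hL : Ton L) (hb : HB L) (h : ℚ) (x : ℝ) :
    ∃ X W : ℝ → ℝ, Loop L h.den h.num X W ∧ X 0 = x ∧ W 0 = VV L h x := by
  exact vvl' hL hb h x

/-- Proof. `vv_loop'` at `x`; `X + 1` is a loop (`loop_shift` with `n = 0`, `k = 1`); `vv_eq`. -/
theorem vv_per (hL : Ton L) (hb : HB L) (h : ℚ) (x : ℝ) : VV L h (x + 1) = VV L h x := by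
  obtain ⟨X, W, h1, h2, h3⟩ := vv_loop' hL hb h x
  have h4 := loop_shift hL h.den_pos h1 0 1
  have h5 := vv_eq hL hb h.den_pos h4
  have h6 : ((h.num : ℚ) / h.den) = h := Rat.num_div_den h
  simp only [h6, Int.cast_zero, add_zero, Int.cast_one] at h5
  rw [← h3, h5, h2]

/-- Proof. `vv_loop'` for `h` and `h'`, `loop_vel_lt`; `h < h'` means
`h.num * h'.den < h'.num * h.den` (`Rat.lt_iff`). -/
theorem vv_mono (hL : Ton L) (hb : HB L) {h h' : ℚ} (hh : h < h') (x : ℝ) :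
    VV L h x < VV L h' x := by
  obtain ⟨X, W, h1, h2, h3⟩ := vv_loop' hL hb h x
  obtain ⟨X', W', h1', h2', h3'⟩ := vv_loop' hL hb h' x
  rw [← h3, ← h3']
  exact loop_vel_lt hL h.den_pos h'.den_pos h1 h1' (h2.trans h2'.symm) (vv_lt hh)

/-- Proof. `vv_loop'`, `sol_eq`, `loop_cross`. -/
theorem vv_cross (hL : Ton L) (hb : HB L) {h h' : ℚ} (x : ℝ) {t : ℝ} (hh : h < h') (ht : 0 < t) :
    FX L t x (VV L h x) < FX L t x (VV L h' x) := by
  obtain ⟨X, W, h1, h2, h3⟩ := vv_loop' hL hb h x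
  obtain ⟨X', W', h1', h2', h3'⟩ := vv_loop' hL hb h' x
  have h4 := (sol_eq hL h1.sol t).1
  have h4' := (sol_eq hL h1'.sol t).1
  rw [h2, h3] at h4
  rw [h2', h3'] at h4'
  rw [← h4, ← h4']
  exact loop_cross hL h.den_pos h'.den_pos h1 h1' (h2.trans h2'.symm) (vv_lt hh) ht

/-- Proof. `vv_loop'`, `sol_eq`, `loop_order`. -/
theorem vv_order (hL : Ton L) (hb : HB L) (h : ℚ) {x y : ℝ} (t : ℝ) (hxy : x < y) :
    FX L t x (VV L h x) < FX L t y (VV L h y) := by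
  obtain ⟨X, W, h1, h2, h3⟩ := vv_loop' hL hb h x
  obtain ⟨X', W', h1', h2', h3'⟩ := vv_loop' hL hb h y
  have h4 := (sol_eq hL h1.sol t).1
  have h4' := (sol_eq hL h1'.sol t).1
  rw [h2, h3] at h4
  rw [h2', h3'] at h4'
  rw [← h4, ← h4']
  exact loop_order hL h.den_pos h1 h1' (by rw [h2, h2']; exact hxy) t

/-- Proof. `vv_loop`, `sol_eq`. -/
theorem vv_orb (hL : Ton L) (hb : HB L) {q : ℕ} (hq : 0 < q) (p : ℤ) (x t : ℝ) :
    FX L (t + q) x (VV L ((p : ℚ) / q) x) = FX L t x (VV L ((p : ℚ) / q) x) + p := by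
  obtain ⟨X, W, h1, h2, h3⟩ := vv_loop hL hb hq p x
  have h4 := (sol_eq hL h1.sol t).1
  have h5 := (sol_eq hL h1.sol (t + q)).1
  rw [h2, h3] at h4 h5
  rw [← h4, ← h5]
  exact h1.per t

/-- Proof. `vv_loop'`: `(X, W)`. `t ↦ X (t + 1)` is a loop (`loop_shift` with `n = 1`, `k = 0`), so
`W 1 = VV L h (X 1)` (`vv_eq`, `Rat.num_div_den`); `sol_eq`. -/
theorem vv_inv (hL : Ton L) (hb : HB L) (h : ℚ) (x : ℝ) :
    FW L 1 x (VV L h x) = VV L h (FX L 1 x (VV L h x)) := by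
  obtain ⟨X, W, h1, h2, h3⟩ := vv_loop' hL hb h x
  have h4 := loop_shift hL h.den_pos h1 1 0
  have h5 := vv_eq hL hb h.den_pos h4
  have h6 : ((h.num : ℚ) / h.den) = h := Rat.num_div_den h
  have h7 := sol_eq hL h1.sol 1
  rw [h2, h3] at h7
  simp only [h6, Int.cast_zero, add_zero, Int.cast_one, zero_add] at h5
  rw [← h7.1, ← h7.2, h5]

/-- Proof. `FA L q x (VV ..) = act L X W 0 q = m0 L q p` for the loop `(X, W)` of `vv_loop`
(`sol_eq`), and `closed_ge_zero` with `k = 1`. -/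
theorem vv_mini (hL : Ton L) (hb : HB L) {q : ℕ} (hq : 0 < q) (p : ℤ) (x : ℝ)
    (h : Cv z u 0 q) (hz : z q = z 0 + p) :
    FA L q x (VV L ((p : ℚ) / q) x) ≤ act L z u 0 q := by
  obtain ⟨X, W, h1, h2, h3⟩ := vv_loop hL hb hq p x
  have h4 : FA L q x (VV L ((p : ℚ) / q) x) = act L X W 0 q := by
    unfold FA act
    congr 1
    funext τ
    have h5 := sol_eq hL h1.sol τ
    rw [h2, h3] at h5
    rw [h5.1, h5.2]
  rw [h4, h1.mn]
  have h6 := closed_ge_zero hL hq p (k := 1) one_pos (z := z) (u := u) (by simpa using h)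
    (by simpa using hz)
  simpa using h6

end Pool.Agent.NOne
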