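import Pool.Agent.NOne.AL8m
import Pool.Agent.NOne.ACr

/-! AL8x (package). Exchange of two solutions at a common point; uniqueness of loops. -/

set_option autoImplicit false

namespace Pool.Agent.NOne

open Set MeasureTheory

variable {L : ℝ → ℝ → ℝ → ℝ} {z u X W X' W' : ℝ → ℝ}

/-- **Exchange.** Two solutions meet at `t₁ ∈ (0, T)`, and their total action on `[0, T]` is
minimal among the pairs of
curves with exchanged ends. Then they are equal.

Proof. Exchanged curves (`cv_glue`, `sol_cv`): `Z₁` = `X` on `[0, t₁]`, `X'` on `[t₁, T]`, and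
`Z₂` = `X'` on `[0, t₁]`, `X` on `[t₁, T]`. Actions (`act_add`):
`A (Z₁) = act X 0 t₁ + act X' t₁ T`, `A (Z₂) = act X' 0 t₁ + act X t₁ T`,
`A (Z₁) + A (Z₂) = act X 0 T + act X' 0 T`.
`corner_eq` (file `ACr`) for `X` on `[0, t₁]` and `X'` on `[t₁, T]`: for a curve `y` on `[0, T]`
from `X 0` to `X' T` the hypothesis `hm` for `(y, Z₂)` gives
`act X 0 T + act X' 0 T ≤ A (y) + A (Z₂)`, that is, `A (Z₁) ≤ A (y)`. So
`W t₁ = W' t₁`, and `sol_uniq`. -/
theorem exch_uniq (hL : Ton L) (h : Sol L X W) (h' : Sol L X' W') {t₁ T : ℝ} (h0 : 0 < t₁)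
    (hT : t₁ < T) (he : X t₁ = X' t₁)
    (hm : ∀ y w y' w' : ℝ → ℝ, Cv y w 0 T → Cv y' w' 0 T → y 0 = X 0 → y T = X' T →
      y' 0 = X' 0 → y' T = X T → act L X W 0 T + act L X' W' 0 T ≤ act L y w 0 T +
      act L y' w' 0 T) : X = X' ∧ W = W' := by
  obtain ⟨y, w, hy, y1, y2, -, -, ya⟩ := cv_glue hL (sol_cv h' h0.le) (sol_cv h hT.le) he.symm
  have k1 := act_add hL (sol_cv h (h0.le.trans hT.le)) h0.le hT.le
  have k2 := act_add hL (sol_cv h' (h0.le.trans hT.le)) h0.le hT.le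
  refine sol_uniq hL h h' he (corner_eq hL h0 hT h h' he fun z u hz z0 zT => ?_)
  have k3 := hm z u y w hz hy z0 zT (y1 0 ⟨le_rfl, h0.le⟩) (y2 T ⟨hT.le, le_rfl⟩)
  rw [ya] at k3
  linarith

/-- (F5) Uniqueness of the loop through a point.

Proof. `corner_eq` for `X` on `[0, q]` and `X'` on `[q, 2 q]`, `X q = X 0 + p = X' q`: a curve `z`
on `[0, 2 q]` from `X 0` to `X' (2 q) = X' 0 + 2 p` has `2 (m0 L q p) ≤ act L z u 0 (2 q)`
(`closed_ge_zero`, `k = 2`), and
`act L X W 0 q = m0 L q p`, `act L X' W' q (2 q) = act L X' W' 0 (2 q) - act L X' W' 0 q =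
m0 L q p` (`loop_act`, `act_add`). So `W q = W' q`; `sol_uniq` at `s = q`. -/
theorem loop_uniq (hL : Ton L) {q : ℕ} (hq : 0 < q) {p : ℤ} (h : Loop L q p X W)
    (h' : Loop L q p X' W') (hx : X 0 = X' 0) : X = X' ∧ W = W' := by
  have hq' : (0 : ℝ) < q := by exact_mod_cast hq
  have hT : (q : ℝ) < ((2 : ℕ) : ℝ) * q := by
    push_cast
    linarith
  have e1 : X q = X' q := by
    have a1 := h.per 0
    have a2 := h'.per 0
    rw [zero_add] at a1 a2
    rw [a1, a2, hx]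
  have e2 : X' (((2 : ℕ) : ℝ) * q) = X' 0 + ((2 : ℕ) : ℝ) * p := by
    have a1 := h'.per 0
    have a2 := h'.per q
    have a3 : ((2 : ℕ) : ℝ) * q = (q : ℝ) + q := by
      push_cast
      ring
    rw [zero_add] at a1
    rw [a3, a2, a1]
    push_cast
    ring
  have k1 := loop_act hL hq 2 h'
  have k2 := act_add hL (sol_cv h'.sol (hq'.le.trans hT.le)) hq'.le hT.le
  have k3 := h.mn
  have k4 := h'.mn
  refine sol_uniq hL h.sol h'.sol e1
    (corner_eq hL hq' hT h.sol h'.sol e1 fun z u hz z0 zT => ?_)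
  have k5 := closed_ge_zero hL hq p two_pos hz (by rw [zT, z0, e2, hx])
  have k6 : ((2 : ℕ) : ℝ) * m0 L q p = m0 L q p + m0 L q p := by
    push_cast
    ring
  rw [k6] at k1 k5
  linarith

end Pool.Agent.NOne
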