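import Pool.Agent.NOne.ATr
import Pool.Agent.NOne.AL7

/-! AMz. Loops of type `(q, p)`: minimal action `m0 L q p`, minimal loops. Everything follows from
the
discrete theory for `mm (tr L q p)`. -/

set_option autoImplicit false

namespace Pool.Agent.NOne

open Set MeasureTheory

variable {L : ℝ → ℝ → ℝ → ℝ} {z u X W X' W' : ℝ → ℝ}

/-- the minimal action of the loops of type `(q, p)` -/
noncomputable def m0 (L : ℝ → ℝ → ℝ → ℝ) (q : ℕ) (p : ℤ) : ℝ := MM (mm (tr L q p)) 1 0

/-- the right and left slopes at the rotation number `p / q` -/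
noncomputable def bq (L : ℝ → ℝ → ℝ → ℝ) (q : ℕ) (p : ℤ) : ℝ := bp (mm (tr L q p))

/-- see `bq` -/
noncomputable def bn (L : ℝ → ℝ → ℝ → ℝ) (q : ℕ) (p : ℤ) : ℝ := bm (mm (tr L q p))

/-- minimal loops of type `(q, p)` -/
structure Loop (L : ℝ → ℝ → ℝ → ℝ) (q : ℕ) (p : ℤ) (X W : ℝ → ℝ) : Prop where
  sol : Sol L X W
  per : ∀ t, X (t + q) = X t + p
  pew : ∀ t, W (t + q) = W t
  mn : act L X W 0 q = m0 L q p

/-- splitting at the integers -/
private theorem amz_rch (hL : Ton L) : ∀ k : ℕ, Cv z u 0 k →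
    ∃ a : ℝ, Rch (mm L) k (z 0) (z k) a ∧ a ≤ act L z u 0 k
  | 0, _ => by
    refine ⟨0, ?_, ?_⟩
    · rw [Nat.cast_zero]
      exact Rch.zero _
    · unfold act
      rw [Nat.cast_zero, intervalIntegral.integral_same]
  | k + 1, h => by
    have hk : (0 : ℝ) ≤ k := Nat.cast_nonneg k
    have hk1 : (k : ℝ) ≤ ((k + 1 : ℕ) : ℝ) := by push_cast; linarith
    obtain ⟨a, h1, h2⟩ := amz_rch hL k (cv_mono h le_rfl hk hk1)
    have h3 : Cv z u ((k : ℤ) : ℝ) ((k : ℤ) + 1) := by
      have h4 := cv_mono h hk hk1 le_rfl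
      push_cast at h4 ⊢
      exact h4
    have h5 := mm_le_int hL h3
    have h6 := act_add hL h hk hk1
    refine ⟨a + mm L (z k) (z (k + 1)), ?_, ?_⟩
    · have h7 := h1.trans (Rch.one (m := mm L) (z k) (z (k + 1)))
      push_cast
      exact h7
    · push_cast at h5 h6 ⊢
      linarith

/-- the transformed curve -/
private theorem amz_tr (hL : Ton L) {q : ℕ} (hq : 0 < q) (p : ℤ) (k : ℕ)
    (h : Cv z u 0 (k * q)) : ∃ a : ℝ, Rch (mm (tr L q p)) k (z 0) (z (k * q) - k * p) a ∧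
      a ≤ act L z u 0 (k * q) := by
  have e1 : (q : ℝ) * 0 = 0 := mul_zero _
  have e2 : (q : ℝ) * k = k * q := mul_comm _ _
  have h1 : Cv z u (q * 0) (q * k) := by rwa [e1, e2]
  obtain ⟨a, h2, h3⟩ := amz_rch (tr_ton hL hq p) k (tr_cv hq p h1)
  rw [tr_act hq, e1, e2] at h3
  refine ⟨a, ?_, h3⟩
  simp only [mul_zero, sub_zero, e2] at h2
  rwa [mul_comm (p : ℝ) k] at h2

/-- Closed curves. Proof. The transformed curve is a curve for `tr L q p` on `[0, k]` with
`z̃ k = z̃ 0 + j` (`tr_cv`, `tr_act`); split it at the integers (`act_add`, `mm_le_int`): a path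
for `mm (tr L q p)`
(`Rch`), `MM_le`. -/
theorem closed_ge (hL : Ton L) {q : ℕ} (hq : 0 < q) (p : ℤ) {k : ℕ} (hk : 0 < k) (j : ℤ)
    (h : Cv z u 0 (k * q)) (hz : z (k * q) = z 0 + k * p + j) :
    MM (mm (tr L q p)) k j ≤ act L z u 0 (k * q) := by
  obtain ⟨a, h1, h2⟩ := amz_tr hL hq p k h
  have h3 : z (k * q) - k * p = z 0 + j := by rw [hz]; ring
  rw [h3] at h1
  exact (MM_le (mm_tw (tr_ton hL hq p)) h1).trans h2

/-- Proof. `closed_ge` with `j = 0`, `MM_zero` (needs `Tw (mm (tr L q p))`, file `ACr`). -/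
theorem closed_ge_zero (hL : Ton L) {q : ℕ} (hq : 0 < q) (p : ℤ) {k : ℕ} (hk : 0 < k)
    (h : Cv z u 0 (k * q)) (hz : z (k * q) = z 0 + k * p) :
    k * m0 L q p ≤ act L z u 0 (k * q) := by
  have h1 := closed_ge hL hq p hk 0 h (by rw [hz, Int.cast_zero, add_zero])
  rwa [MM_zero (mm_tw (tr_ton hL hq p)) hk] at h1

/-- transformation back of a periodic minimal solution -/
private theorem amz_back (hL : Ton L) {q : ℕ} (hq : 0 < q) (p : ℤ) (h : Sol (tr L q p) X W)
    (h1 : ∀ t, X (t + 1) = X t) (h2 : ∀ t, W (t + 1) = W t)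
    (h3 : act (tr L q p) X W 0 1 = m0 L q p) :
    Loop L q p (fun t => X (t / q) + p * (t / q)) (fun t => (W (t / q) + p) / q) := by
  have hq' : (q : ℝ) ≠ 0 := by positivity
  have e : ∀ t : ℝ, (t + q) / (q : ℝ) = t / q + 1 := fun t => by
    rw [add_div, div_self hq']
  refine ⟨tr_sol_inv hL hq p h, fun t => ?_, fun t => ?_, ?_⟩
  · simp only [e, h1]
    ring
  · simp only [e, h2]
  · have h4 := tr_act_inv (L := L) (z := X) (u := W) hq p 0 1
    rw [mul_zero, mul_one] at h4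
    rw [h4, h3]

/-- Proof. File `AL7`: `exists_periodic` resp. `exists_periodic_min` for `tr L q p`, transformed
back (`tr_sol_inv`, `tr_act_inv`). -/
theorem exists_loop (hL : Ton L) {q : ℕ} (hq : 0 < q) (p : ℤ) (hb : bq L q p + bn L q p = 0)
    (x : ℝ) : ∃ X W : ℝ → ℝ, Loop L q p X W ∧ X 0 = x := by
  obtain ⟨X, W, h, h0, h1, h2, h3⟩ := exists_periodic (tr_ton hL hq p) hb x
  exact ⟨_, _, amz_back hL hq p h h1 h2 h3, by simp [h0]⟩

theorem exists_loop_some (hL : Ton L) {q : ℕ} (hq : 0 < q) (p : ℤ) :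
    ∃ X W : ℝ → ℝ, Loop L q p X W := by
  obtain ⟨X, W, h, h1, h2, h3⟩ := exists_periodic_min (tr_ton hL hq p)
  exact ⟨_, _, amz_back hL hq p h h1 h2 h3⟩

private theorem amz_mul {q : ℕ} {p : ℤ} (h : Loop L q p X W) : ∀ (k : ℕ) (t : ℝ),
    X (t + k * q) = X t + k * p ∧ W (t + k * q) = W t
  | 0, t => by simp
  | k + 1, t => by
    have h1 := amz_mul h k t
    have e : t + ((k + 1 : ℕ) : ℝ) * q = t + k * q + q := by push_cast; ring
    rw [e, h.per, h.pew, h1.1, h1.2]
    refine ⟨?_, rfl⟩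
    push_cast
    ring

private theorem amz_act (hL : Ton L) {q : ℕ} {p : ℤ} (h : Loop L q p X W) :
    ∀ k : ℕ, act L X W 0 (k * q) = k * m0 L q p
  | 0 => by
    unfold act
    rw [Nat.cast_zero, zero_mul, zero_mul, intervalIntegral.integral_same]
  | k + 1 => by
    have hk : (0 : ℝ) ≤ k * q := by positivity
    have hk1 : (k : ℝ) * q ≤ ((k + 1 : ℕ) : ℝ) * q := by
      have : (0 : ℝ) ≤ q := Nat.cast_nonneg q
      push_cast
      linarith
    have h1 := act_add hL (sol_cv h.sol (hk.trans hk1)) hk hk1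
    have h2 := act_shift' hL X W 0 q ((k * q : ℕ) : ℤ) (-(k * p))
    have e1 : (fun t : ℝ => X (t + (((k * q : ℕ) : ℤ) : ℝ)) + ((-(k * p) : ℤ) : ℝ)) = X := by
      funext t
      push_cast
      rw [(amz_mul h k t).1]
      ring
    have e2 : (fun t : ℝ => W (t + (((k * q : ℕ) : ℤ) : ℝ))) = W := by
      funext t
      push_cast
      exact (amz_mul h k t).2
    rw [e1, e2, h.mn] at h2
    have e3 : (0 : ℝ) + (((k * q : ℕ) : ℤ) : ℝ) = k * q := by push_cast; ring
    have e4 : (q : ℝ) + (((k * q : ℕ) : ℤ) : ℝ) = ((k + 1 : ℕ) : ℝ) * q := by push_cast; ring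
    rw [e3, e4] at h2
    rw [← h1, ← h2, amz_act hL h k]
    push_cast
    ring

/-- A loop is a loop of type `(k q, k p)`, and `m0 L (k q) (k p) = k m0 L q p`. Proof. The action
of `X` on `[0, k q]` is
`k` times the action on `[0, q]` (periodicity), so `m0 L (k q) (k p) ≤ k m0 L q p`
(`closed_ge_zero` for the type `(k q, k p)`,
`exists_loop_some`); a minimal loop of type `(k q, k p)` (`exists_loop_some`) and `closed_ge_zero`
for `(q, p)` give `≥`. -/
theorem m0_mul (hL : Ton L) {q : ℕ} (hq : 0 < q) (p : ℤ) {k : ℕ} (hk : 0 < k) :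
    m0 L (k * q) (k * p) = k * m0 L q p := by
  have hkq : 0 < k * q := Nat.mul_pos hk hq
  apply le_antisymm
  · obtain ⟨X, W, h⟩ := exists_loop_some hL hq p
    have e : ((1 : ℕ) : ℝ) * ((k * q : ℕ) : ℝ) = k * q := by push_cast; ring
    have h1 := closed_ge_zero hL hkq (k * p) one_pos (z := X) (u := W)
      (sol_cv h.sol (by positivity)) (by
        rw [e]
        have h2 := (amz_mul h k 0).1
        rw [zero_add] at h2
        rw [h2]
        push_cast
        ring)
    rw [e, amz_act hL h k, Nat.cast_one, one_mul] at h1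
    exact h1
  · obtain ⟨X, W, h⟩ := exists_loop_some hL hkq (k * p)
    have h1 := closed_ge_zero hL hq p hk (z := X) (u := W)
      (sol_cv h.sol (by positivity)) (by
        have h2 := h.per 0
        rw [zero_add] at h2
        push_cast at h2
        exact h2)
    have h3 := h.mn
    push_cast at h3
    rwa [h3] at h1

theorem loop_mul (hL : Ton L) {q : ℕ} (hq : 0 < q) {p : ℤ} {k : ℕ} (hk : 0 < k)
    (h : Loop L q p X W) : Loop L (k * q) (k * p) X W := by
  refine ⟨h.sol, fun t => ?_, fun t => ?_, ?_⟩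
  · push_cast
    exact (amz_mul h k t).1
  · push_cast
    exact (amz_mul h k t).2
  · rw [m0_mul hL hq p hk]
    push_cast
    exact amz_act hL h k

/-- The action of a loop over `[0, k q]`. -/
theorem loop_act (hL : Ton L) {q : ℕ} (hq : 0 < q) {p : ℤ} (k : ℕ) (h : Loop L q p X W) :
    act L X W 0 (k * q) = k * m0 L q p :=
  amz_act hL h k

/-- The time-one shift of a loop. Proof. `∫` over a period of a periodic function. -/
theorem loop_shift (hL : Ton L) {q : ℕ} (hq : 0 < q) {p : ℤ} (h : Loop L q p X W) (n k : ℤ) :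
    Loop L q p (fun t => X (t + n) + k) (fun t => W (t + n)) := by
  refine ⟨sol_shift_x hL (sol_shift_t hL h.sol n) k, fun t => ?_, fun t => ?_, ?_⟩
  · have e : t + (q : ℝ) + n = t + n + q := by ring
    simp only [e, h.per]
    ring
  · have e : t + (q : ℝ) + n = t + n + q := by ring
    simp only [e, h.pew]
  · rw [act_shift' hL]
    have h1 : Function.Periodic (fun t => L (X t) (W t) t) (q : ℝ) := by
      intro t
      have e : t + (q : ℝ) = t + ((q : ℤ) : ℝ) := by push_cast; ring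
      simp only [h.per, h.pew]
      rw [per_int hL.perx, e, pet_int hL.pert]
    have h2 := h1.intervalIntegral_add_eq (n : ℝ) 0
    rw [zero_add, ← h.mn]
    unfold act
    rw [zero_add] at h2
    rw [← h2, add_comm (q : ℝ) n]

/-- All curves: for `-bn ≤ c ≤ bq` there is `C` with
`n m0 + c (z (n q) - z 0 - n p) - C ≤ action on [0, n q]`. Proof. `path_ge` for `mm (tr L q p)`,
split at the integers. -/
theorem curve_ge (hL : Ton L) {q : ℕ} (hq : 0 < q) (p : ℤ) {c : ℝ} (hc : -bn L q p ≤ c)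
    (hc' : c ≤ bq L q p) : ∃ C : ℝ, ∀ (n : ℕ) (z u : ℝ → ℝ), Cv z u 0 (n * q) →
      n * m0 L q p + c * (z (n * q) - z 0 - n * p) - C ≤ act L z u 0 (n * q) := by
  obtain ⟨C, hC⟩ := path_ge (mm_tw (tr_ton hL hq p)) hc hc'
  refine ⟨C, fun n z u h => ?_⟩
  obtain ⟨a, h1, h2⟩ := amz_tr hL hq p n h
  have h3 := hC n _ _ a h1
  have e : z (n * q) - n * p - z 0 = z (n * q) - z 0 - n * p := by ring
  rw [e] at h3
  exact h3.trans h2

/-- Variation of the end point of the loops, in the notation of the discrete problem: if every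
point is on a minimal
loop then for `|e| ≤ 1`: `mm (tr L q p) x (x + e) ≤ m0 + e P + C e²`, `P = d2 L x (W 0) 0` for the
loop `(X, W)` with
`X 0 = x`. Proof. `mm_var_end` (file `AVm`) for `tr L q p` and the minimal arc `s ↦ X (q s) - p s`
from `x` to `x`; its
momentum at time `1` is `d2 L (X q) (W q) q = d2 L x (W 0) 0` (`tr_d2`, periodicity). `C` depends
only on `L, q, p`. -/
theorem loop_var (hL : Ton L) {q : ℕ} (hq : 0 < q) (p : ℤ) : ∃ C : ℝ, ∀ (X W : ℝ → ℝ),
    Loop L q p X W → ∀ e : ℝ, |e| ≤ 1 → mm (tr L q p) (X 0) (X 0 + e) ≤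
      m0 L q p + e * d2 L (X 0) (W 0) 0 + C * e ^ 2 := by
  have hT := tr_ton hL hq p
  have hq' : (q : ℝ) ≠ 0 := by positivity
  obtain ⟨C, -, hC⟩ := mm_var_end hT 0
  refine ⟨C, fun X W h e he => ?_⟩
  have hXq : X q = X 0 + p := by
    have := h.per 0
    rwa [zero_add] at this
  have hWq : W q = W 0 := by
    have := h.pew 0
    rwa [zero_add] at this
  have hs := tr_sol hL hq p h.sol
  have ha : act (tr L q p) (fun s => X (q * s) - p * s) (fun s => q * W (q * s) - p) 0 1 =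
      m0 L q p := by
    rw [tr_act hq, mul_zero, mul_one, h.mn]
  have s0 : X (q * 0) - p * 0 = X 0 := by rw [mul_zero, mul_zero, sub_zero]
  have s1 : X (q * 1) - p * 1 = X 0 := by rw [mul_one, mul_one, hXq, add_sub_cancel_right]
  have hm : mm (tr L q p) (X 0) (X 0) = m0 L q p := by
    apply le_antisymm
    · have h1 := mm_le hT (sol_cv hs zero_le_one)
      simp only [s0, s1] at h1
      rwa [ha] at h1
    · exact (MM_one_zero (mm_tw hT)).1 (X 0)
  have hA : Arc (tr L q p) (X 0) (X 0) (fun s => X (q * s) - p * s)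
      (fun s => q * W (q * s) - p) := ⟨hs, s0, s1, by rw [ha, hm]⟩
  have h1 := hC _ _ _ _ hA (by simp) e he
  have h2 : d2 (tr L q p) (X (q * 1) - p * 1) (q * W (q * 1) - p) 1 = d2 L (X 0) (W 0) 0 := by
    rw [tr_d2 hL hq, s1, mul_one, mul_one, hWq, sub_add_cancel, mul_div_cancel_left₀ _ hq']
    have h3 := per_int (per_d2 hL.perx) (X 0) (W 0) (q : ℝ) p
    have h4 := pet_int (pet_d2 hL.pert) (X 0) (W 0) 0 (q : ℤ)
    rw [zero_add, Int.cast_natCast] at h4
    rw [h3, h4]
  rw [hm, h2] at h1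
  exact h1

/-- `bp` and `bm` of the transformed problem: nonnegative sum. -/
theorem bq_add_bn (hL : Ton L) {q : ℕ} (hq : 0 < q) (p : ℤ) :
    0 ≤ bq L q p + bn L q p :=
  bp_add_bm (mm_tw (tr_ton hL hq p))

end Pool.Agent.NOne
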