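import Pool.Agent.NOne.ATDefs

/-! AT0. Paths: concatenation, translation (elementary, finite sums). -/

set_option autoImplicit false

namespace Pool.Agent.NOne

open Finset

variable {m : ℝ → ℝ → ℝ}

/-- Proof. Induction on `k` in both directions from `h.per`. -/
theorem Tw.per_int (h : Tw m) (x y : ℝ) (k : ℤ) : m (x + k) (y + k) = m x y := by
  induction k using Int.induction_on with
  | zero => simp
  | succ k ih =>
    have h1 := h.per (x + ((k : ℤ) : ℝ)) (y + ((k : ℤ) : ℝ))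
    rw [Int.cast_add, Int.cast_one, ← add_assoc, ← add_assoc, h1, ih]
  | pred k ih =>
    have h1 := h.per (x + ((-(k : ℤ) - 1 : ℤ) : ℝ)) (y + ((-(k : ℤ) - 1 : ℤ) : ℝ))
    rw [← h1]
    have h2 : ∀ t : ℝ, t + ((-(k : ℤ) - 1 : ℤ) : ℝ) + 1 = t + ((-(k : ℤ) : ℤ) : ℝ) := by
      intro t
      push_cast
      ring
    rw [h2, h2, ih]

theorem Rch.zero (x : ℝ) : Rch m 0 x x 0 := by
  exact ⟨fun _ => x, rfl, rfl, by simp⟩

theorem Rch.one (x y : ℝ) : Rch m 1 x y (m x y) := by
  exact ⟨fun i => if i = 0 then x else y, by simp, by simp, by simp⟩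

/-- Proof. `fun i => if i ≤ n then z i else z' (i - n)`; `Finset.sum_range_add` or
`Finset.sum_range_succ`. -/
theorem Rch.trans {n n' : ℕ} {x y w a a' : ℝ} (h1 : Rch m n x y a) (h2 : Rch m n' y w a') :
    Rch m (n + n') x w (a + a') := by
  obtain ⟨z, hz0, hzn, hz⟩ := h1
  obtain ⟨z', hz0', hzn', hz'⟩ := h2
  have hb : ∀ i, (fun i => if i ≤ n then z i else z' (i - n)) (n + i) = z' i := by
    intro i
    rcases Nat.eq_zero_or_pos i with h | h
    · subst h
      simp [hzn, hz0']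
    · have h3 : ¬ n + i ≤ n := by omega
      have h4 : n + i - n = i := by omega
      simp only [h3, if_false, h4]
  refine ⟨fun i => if i ≤ n then z i else z' (i - n), ?_, ?_, ?_⟩
  · simp [hz0]
  · rw [hb, hzn']
  · rw [Finset.sum_range_add]
    congr 1
    · rw [← hz]
      refine Finset.sum_congr rfl fun i hi => ?_
      have h3 := Finset.mem_range.1 hi
      have h4 : i ≤ n := h3.le
      have h5 : i + 1 ≤ n := h3
      simp only [h4, h5, if_true]
    · rw [← hz']
      refine Finset.sum_congr rfl fun i _ => ?_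
      rw [hb i, add_assoc, hb (i + 1)]

theorem Rch.shift (h : Tw m) {n : ℕ} {x y a : ℝ} (h1 : Rch m n x y a) (k : ℤ) :
    Rch m n (x + k) (y + k) a := by
  obtain ⟨z, hz0, hzn, hz⟩ := h1
  refine ⟨fun i => z i + k, congrArg (fun t => t + (k : ℝ)) hz0,
    congrArg (fun t => t + (k : ℝ)) hzn, ?_⟩
  rw [← hz]
  exact Finset.sum_congr rfl fun i _ => h.per_int _ _ k

/-- Proof. The sequence `fun i => x (i₀ + i)`. -/
theorem rch_sg (x : ℤ → ℝ) (i : ℤ) (n : ℕ) : Rch m n (x i) (x (i + n)) (sga m x i n) := by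
  refine ⟨fun s => x (i + s), by simp, rfl, ?_⟩
  unfold sga
  refine Finset.sum_congr rfl fun s _ => ?_
  change m (x (i + (s : ℤ))) (x (i + ((s + 1 : ℕ) : ℤ))) = _
  rw [Nat.cast_add, Nat.cast_one, ← add_assoc]

theorem sg_add (x : ℤ → ℝ) (i : ℤ) (a b : ℕ) :
    sga m x i (a + b) = sga m x i a + sga m x (i + a) b := by
  unfold sga
  rw [Finset.sum_range_add]
  congr 1
  refine Finset.sum_congr rfl fun s _ => ?_
  rw [Nat.cast_add, ← add_assoc]

theorem sg_one (x : ℤ → ℝ) (i : ℤ) : sga m x i 1 = m (x i) (x (i + 1)) := by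
  simp [sga]

/-- Proof. `sga m x i (N + 1)` in two ways: `m (x i) (x (i + 1)) + sga m x (i + 1) N =
sga m x i N + m (x (i + N)) (x (i + N + 1))`, and the last term is `m (x i) (x (i +
1))`. Induction on
`i` in both directions (`Int.induction_on`). -/
theorem Ty.sg_eq (h : Tw m) {N : ℕ} {j : ℤ} {x : ℤ → ℝ} (hx : Ty N j x) (i : ℤ) :
    sga m x i N = sga m x 0 N := by
  have hstep : ∀ i : ℤ, sga m x (i + 1) N = sga m x i N := by
    intro i
    have h1 := sg_add (m := m) x i 1 N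
    have h2 := sg_add (m := m) x i N 1
    rw [add_comm 1 N] at h1
    rw [h1, sg_one, sg_one] at h2
    have h3 : x (i + N + 1) = x (i + 1) + j := by
      rw [← hx (i + 1)]
      congr 1
      ring
    rw [hx i, h3, h.per_int] at h2
    rw [Nat.cast_one] at h2
    linarith
  induction i using Int.induction_on with
  | zero => rfl
  | succ k ih => rw [hstep, ih]
  | pred k ih =>
    rw [← ih, ← hstep (-(k : ℤ) - 1), sub_add_cancel]

theorem Ty.add_mul {N : ℕ} {j : ℤ} {x : ℤ → ℝ} (hx : Ty N j x) (i k : ℤ) :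
    x (i + k * N) = x i + k * j := by
  induction k using Int.induction_on with
  | zero => simp
  | succ k ih =>
    have h1 : i + ((k : ℤ) + 1) * (N : ℤ) = (i + (k : ℤ) * N) + N := by ring
    rw [h1, hx, ih]
    push_cast
    ring
  | pred k ih =>
    have h1 := hx (i + (-(k : ℤ) - 1) * (N : ℤ))
    have h2 : i + (-(k : ℤ) - 1) * (N : ℤ) + N = i + (-(k : ℤ)) * N := by ring
    rw [h2, ih] at h1
    push_cast at h1 ⊢
    linarith

theorem Ty.mul {N : ℕ} {j : ℤ} {x : ℤ → ℝ} (hx : Ty N j x) (k : ℕ) : Ty (k * N) (k * j) x := by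
  intro i
  have h1 := hx.add_mul i k
  push_cast at h1 ⊢
  exact h1

/-- Proof. Induction on `k` with `sg_add` and `Ty.sg_eq`. -/
theorem Ty.sg_mul (h : Tw m) {N : ℕ} {j : ℤ} {x : ℤ → ℝ} (hx : Ty N j x) (k : ℕ) :
    sga m x 0 (k * N) = k * sga m x 0 N := by
  induction k with
  | zero => simp [sga]
  | succ k ih =>
    rw [Nat.succ_mul, sg_add, ih, Ty.sg_eq h hx (0 + ((k * N : ℕ) : ℤ))]
    push_cast
    ring

theorem Ty.shift {N : ℕ} {j : ℤ} {x : ℤ → ℝ} (hx : Ty N j x) (k l : ℤ) :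
    Ty N j (fun i => x (i + k) + l) := by
  intro i
  change x (i + N + k) + l = x (i + k) + l + j
  have h1 : i + N + k = (i + k) + N := by ring
  rw [h1, hx]
  ring

/-- `h.coer` for paths. Proof. Sum of `h.coer`, triangle inequality. -/
theorem Rch.coer {B C : ℝ} (hB : 0 ≤ B) (hC : ∀ x y, B * |y - x| - C ≤ m x y) {n : ℕ}
    {x y a : ℝ} (h1 : Rch m n x y a) : B * |y - x| - n * C ≤ a := by
  obtain ⟨z, hz0, hzn, hz⟩ := h1
  have h2 : |y - x| ≤ ∑ i ∈ range n, |z (i + 1) - z i| := by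
    rw [← hz0, ← hzn, ← Finset.sum_range_sub]
    exact Finset.abs_sum_le_sum_abs _ _
  have h3 : ∑ i ∈ range n, (B * |z (i + 1) - z i| - C) ≤ a := by
    rw [← hz]
    exact Finset.sum_le_sum fun i _ => hC _ _
  rw [Finset.sum_sub_distrib, ← Finset.mul_sum, Finset.sum_const, card_range,
    nsmul_eq_mul] at h3
  have h4 := mul_le_mul_of_nonneg_left h2 hB
  linarith

/-- A path from `x` to `x + j` with `N > 0` steps can be extended to a sequence of type `(N, j)`.
Proof. `fun i => z (i % N).toNat + (i / N) * j`. -/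
theorem Rch.exists_seq (h : Tw m) {N : ℕ} (hN : 0 < N) {j : ℤ} {x a : ℝ}
    (h1 : Rch m N x (x + j) a) : ∃ y : ℤ → ℝ, Ty N j y ∧ y 0 = x ∧ sga m y 0 N = a := by
  obtain ⟨z, hz0, hzn, hz⟩ := h1
  have hN' : (0 : ℤ) < N := by exact_mod_cast hN
  have hy : ∀ s : ℕ, s < N → z ((s : ℤ) % N).toNat + (((s : ℤ) / N : ℤ) : ℝ) * j = z s := by
    intro s hs
    have h2 : (s : ℤ) % N = s := Int.emod_eq_of_lt (by omega) (by omega)
    have h3 : (s : ℤ) / N = 0 := Int.ediv_eq_zero_of_lt (by omega) (by omega)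
    rw [h2, h3, Int.toNat_natCast]
    simp
  refine ⟨fun i => z (i % N).toNat + ((i / N : ℤ) : ℝ) * j, ?_, ?_, ?_⟩
  · intro i
    change z ((i + N) % N).toNat + (((i + N) / N : ℤ) : ℝ) * j = _
    rw [Int.add_emod_right, Int.add_ediv_of_dvd_right (dvd_refl (N : ℤ)),
      Int.ediv_self hN'.ne']
    push_cast
    ring
  · have h2 := hy 0 hN
    rw [Nat.cast_zero] at h2
    change z ((0 : ℤ) % N).toNat + (((0 : ℤ) / N : ℤ) : ℝ) * j = x
    rw [h2, hz0]
  · rw [← hz]
    unfold sga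
    refine Finset.sum_congr rfl fun s hs => ?_
    have h2 := Finset.mem_range.1 hs
    rw [zero_add]
    have h3 : z (((s : ℤ) + 1) % N).toNat + ((((s : ℤ) + 1) / N : ℤ) : ℝ) * j = z (s + 1) := by
      rcases Nat.lt_or_ge (s + 1) N with h4 | h4
      · have h5 := hy (s + 1) h4
        rw [Nat.cast_add, Nat.cast_one] at h5
        exact h5
      · have h5 : s + 1 = N := le_antisymm h2 h4
        have h6 : (s : ℤ) + 1 = N := by exact_mod_cast h5
        rw [h6, Int.emod_self, Int.ediv_self hN'.ne', h5, hzn, Int.toNat_zero, hz0]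
        push_cast
        ring
    change m (z ((s : ℤ) % N).toNat + (((s : ℤ) / N : ℤ) : ℝ) * j)
      (z (((s : ℤ) + 1) % N).toNat + ((((s : ℤ) + 1) / N : ℤ) : ℝ) * j) = _
    rw [hy s h2, h3]

end Pool.Agent.NOne
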