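import Pool.Agent.NOne.AT0

/-! AT1. Existence of minimal sequences. -/

set_option autoImplicit false

namespace Pool.Agent.NOne

open Finset

variable {m : ℝ → ℝ → ℝ}

private theorem bdd (h : Tw m) (N : ℕ) (j : ℤ) :
    BddBelow {a | ∃ x : ℝ, Rch m N x (x + j) a} := by
  obtain ⟨C, hC⟩ := h.coer 0
  refine ⟨-(N * C), ?_⟩
  rintro a ⟨x, hx⟩
  have h1 := Rch.coer le_rfl hC hx
  linarith

/-- Proof. `csInf_le`; bounded below by `Rch.coer` with `B = 0`. -/
theorem MM_le (h : Tw m) {N : ℕ} {j : ℤ} {x a : ℝ} (h1 : Rch m N x (x + j) a) : MM m N j ≤ a :=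
  csInf_le (bdd h N j) ⟨x, h1⟩

/-- The points of a path stay in a bounded interval. -/
private theorem path_bd {C : ℝ} (hC : ∀ x y, 1 * |y - x| - C ≤ m x y) {N : ℕ} {z : ℕ → ℝ}
    {i : ℕ} (hi : i ≤ N) : |z i - z 0| ≤ ∑ s ∈ range N, m (z s) (z (s + 1)) + N * C := by
  have h1 : |z i - z 0| ≤ ∑ s ∈ range i, |z (s + 1) - z s| := by
    rw [← Finset.sum_range_sub]
    exact Finset.abs_sum_le_sum_abs _ _
  have h2 : ∑ s ∈ range i, |z (s + 1) - z s| ≤ ∑ s ∈ range N, |z (s + 1) - z s| :=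
    Finset.sum_le_sum_of_subset_of_nonneg (Finset.range_mono hi) fun _ _ _ => abs_nonneg _
  have h3 : ∑ s ∈ range N, |z (s + 1) - z s| ≤ ∑ s ∈ range N, (m (z s) (z (s + 1)) + C) := by
    refine Finset.sum_le_sum fun s _ => ?_
    have := hC (z s) (z (s + 1))
    linarith
  rw [Finset.sum_add_distrib, Finset.sum_const, Finset.card_range, nsmul_eq_mul] at h3
  linarith

/-- Proof. Let `a₀` be the action of some path from `0` to `j`. By translation (`Rch.shift`) only
the paths with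
`x ∈ [0, 1]` matter; if the action is at most `a₀` then `∑ |z (i + 1) - z i| ≤ a₀ + N * C`
(`h.coer 1`, applied to
the single steps), so all `z i` (`i ≤ N`) are in a fixed interval `[-R, R]`. The set of the
`z : Fin (N + 1) → ℝ` with `z 0 ∈ [0, 1]`, `z N = z 0 + j`, `|z i| ≤ R` is compact and the action
is continuous on
it (`h.cont`): `IsCompact.exists_isMinOn`. Then `Rch.exists_seq` and `Ty.sg_eq`. -/
theorem exists_isMin (h : Tw m) {N : ℕ} (hN : 0 < N) (j : ℤ) : ∃ x : ℤ → ℝ, IsMin m N j x := by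
  classical
  obtain ⟨C, hC⟩ := h.coer 1
  set A : (ℕ → ℝ) → ℝ := fun z => ∑ s ∈ range N, m (z s) (z (s + 1)) with hA
  set p₀ : ℕ → ℝ := fun i => if i = N then (j : ℝ) else 0 with hp₀
  set R : ℝ := 1 + (A p₀ + N * C) with hR
  have hR0 : 0 ≤ A p₀ + N * C :=
    (abs_nonneg _).trans (path_bd hC (N := N) (z := p₀) (i := 0) (Nat.zero_le _))
  set K : Set (ℕ → ℝ) := (Set.univ.pi fun _ => Set.Icc (-R) R) ∩
    ({z | z 0 ∈ Set.Icc (0 : ℝ) 1} ∩ {z | z N = z 0 + j}) with hK
  have hKc : IsCompact K := by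
    refine (isCompact_univ_pi fun _ => isCompact_Icc).inter_right (IsClosed.inter ?_ ?_)
    · exact isClosed_Icc.preimage (continuous_apply 0)
    · exact isClosed_eq (continuous_apply N) ((continuous_apply 0).add continuous_const)
  have hAc : Continuous A := by
    refine continuous_finsetSum _ fun s _ => ?_
    have h1 : Continuous fun z : ℕ → ℝ => (z s, z (s + 1)) :=
      (continuous_apply s).prodMk (continuous_apply (s + 1))
    exact h.cont.comp h1
  -- paths with small action, after a translation, are in `K`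
  have hmem : ∀ z : ℕ → ℝ, z 0 ∈ Set.Icc (0 : ℝ) 1 → z N = z 0 + j → A z ≤ A p₀ →
      ∃ z' ∈ K, A z' = A z := by
    intro z h0 hN' ha
    refine ⟨fun i => if i ≤ N then z i else 0, ⟨fun i _ => ?_, ?_, ?_⟩, ?_⟩
    · dsimp only
      split_ifs with hi
      · have h1 := path_bd hC hi (z := z)
        have h2 : |z i - z 0| ≤ A p₀ + N * C := h1.trans (by simp only [hA] at ha ⊢; linarith)
        rw [abs_le] at h2
        exact ⟨by rw [hR]; linarith [h0.1], by rw [hR]; linarith [h0.2]⟩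
      · exact ⟨by rw [hR]; linarith, by rw [hR]; linarith⟩
    · change (if 0 ≤ N then z 0 else 0) ∈ Set.Icc (0 : ℝ) 1
      rw [if_pos (Nat.zero_le _)]
      exact h0
    · change (if N ≤ N then z N else 0) = (if 0 ≤ N then z 0 else 0) + j
      rw [if_pos le_rfl, if_pos (Nat.zero_le _)]
      exact hN'
    · simp only [hA]
      refine Finset.sum_congr rfl fun s hs => ?_
      have hs' := Finset.mem_range.1 hs
      rw [if_pos hs'.le, if_pos (Nat.succ_le_of_lt hs')]
  have hp0 : p₀ 0 = 0 := if_neg hN.ne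
  obtain ⟨q₀, hq₀, hAq⟩ := hmem p₀ (by rw [hp0]; exact ⟨le_rfl, zero_le_one⟩)
    (by rw [hp0, zero_add]; exact if_pos rfl) le_rfl
  obtain ⟨w, hw, hmin⟩ := hKc.exists_isMinOn ⟨q₀, hq₀⟩ hAc.continuousOn
  have hwmin : ∀ z ∈ K, A w ≤ A z := fun z hz => hmin hz
  have hwR : Rch m N (w 0) (w 0 + j) (A w) := ⟨w, rfl, hw.2.2, rfl⟩
  have hMM : MM m N j = A w := by
    refine le_antisymm (MM_le h hwR) (le_csInf ⟨_, w 0, hwR⟩ ?_)
    rintro a ⟨x, hx⟩
    by_cases ha : A p₀ ≤ a
    · exact (hwmin q₀ hq₀).trans (hAq.le.trans ha)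
    · push Not at ha
      have h1 := Rch.shift h hx (-⌊x⌋)
      obtain ⟨z, hz0, hzN, hza⟩ := h1
      have hAz : A z = a := hza
      obtain ⟨z', hz', hAz'⟩ := hmem z (by
        rw [hz0]
        push_cast
        have h2 := Int.floor_le x
        have h3 := Int.lt_floor_add_one x
        exact ⟨by linarith, by linarith⟩) (by rw [hzN, hz0]; ring) (by rw [hAz]; exact ha.le)
      rw [← hAz, ← hAz']
      exact hwmin z' hz'
  obtain ⟨y, hy, -, hsg⟩ := Rch.exists_seq h hN hwR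
  exact ⟨y, hy, fun i => by rw [hy.sg_eq h i, hsg, hMM]⟩

theorem IsMin.shift (h : Tw m) {N : ℕ} {j : ℤ} {x : ℤ → ℝ} (hx : IsMin m N j x) (k l : ℤ) :
    IsMin m N j (fun i => x (i + k) + l) := by
  refine ⟨hx.ty.shift k l, fun i => ?_⟩
  rw [← hx.mn (i + k)]
  unfold sga
  refine Finset.sum_congr rfl fun s _ => ?_
  rw [h.per_int, show i + (s : ℤ) + k = i + k + s by ring,
    show i + (s : ℤ) + 1 + k = i + k + s + 1 by ring]

theorem isMin_of_sg (h : Tw m) {N : ℕ} {j : ℤ} {x : ℤ → ℝ} (hx : Ty N j x)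
    (hs : sga m x 0 N ≤ MM m N j) : IsMin m N j x := by
  refine ⟨hx, fun i => ?_⟩
  rw [hx.sg_eq h i]
  refine le_antisymm hs (MM_le h (x := x 0) ?_)
  have h1 := rch_sg (m := m) x 0 N
  rwa [hx 0] at h1

/-- A diagonal point: `MM m 1 0` is the minimum of `m x x`. -/
theorem MM_one_zero (h : Tw m) : (∀ x, MM m 1 0 ≤ m x x) ∧ ∃ x, m x x = MM m 1 0 := by
  constructor
  · intro x
    refine MM_le h (x := x) ?_
    rw [Int.cast_zero, add_zero]
    exact Rch.one x x
  · obtain ⟨x, hx⟩ := exists_isMin h one_pos 0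
    refine ⟨x 0, ?_⟩
    have h1 := hx.mn 0
    have h2 := hx.ty 0
    rw [sg_one] at h1
    rw [Nat.cast_one, Int.cast_zero, add_zero] at h2
    rw [← h1, h2]

end Pool.Agent.NOne
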