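import Pool.Agent.NOne.AT1

/-! AT2. Maximum and minimum of minimal sequences; monotone minimal sequences. -/

set_option autoImplicit false

namespace Pool.Agent.NOne

open Finset

variable {m : ℝ → ℝ → ℝ}

/-- Proof. Termwise: `m (max x y) (max X Y) + m (min x y) (min X Y) ≤ m x X + m y Y`: equality if
`x ≤ y, X ≤ Y` or
`y ≤ x, Y ≤ X`, otherwise `h.cross`. -/
theorem cross_max_min (h : Tw m) (x y X Y : ℝ) :
    m (max x y) (max X Y) + m (min x y) (min X Y) ≤ m x X + m y Y := by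
  rcases le_total x y with h1 | h1 <;> rcases le_total X Y with h2 | h2
  · rw [max_eq_right h1, max_eq_right h2, min_eq_left h1, min_eq_left h2]
    linarith
  · rw [max_eq_right h1, max_eq_left h2, min_eq_left h1, min_eq_right h2]
    have h3 := h.cross x y X Y (mul_nonpos_of_nonpos_of_nonneg (by linarith) (by linarith))
    linarith
  · rw [max_eq_left h1, max_eq_right h2, min_eq_right h1, min_eq_left h2]
    have h3 := h.cross x y X Y (mul_nonpos_of_nonneg_of_nonpos (by linarith) (by linarith))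
    linarith
  · rw [max_eq_left h1, max_eq_left h2, min_eq_right h1, min_eq_right h2]

/-- Proof. `max` and `min` are of type `(N, j)`, so their actions are `≥ MM m N j` (`rch_sg`,
`MM_le`), and the
sum of the two actions is at most `2 * MM m N j` (sum of `cross_max_min`). -/
theorem IsMin.max_min (h : Tw m) {N : ℕ} {j : ℤ} {x y : ℤ → ℝ} (hx : IsMin m N j x)
    (hy : IsMin m N j y) :
    IsMin m N j (fun i => max (x i) (y i)) ∧ IsMin m N j (fun i => min (x i) (y i)) := by
  have t1 : Ty N j (fun i => max (x i) (y i)) := fun i => by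
    change max (x (i + N)) (y (i + N)) = max (x i) (y i) + j
    rw [hx.ty i, hy.ty i, max_add_add_right]
  have t2 : Ty N j (fun i => min (x i) (y i)) := fun i => by
    change min (x (i + N)) (y (i + N)) = min (x i) (y i) + j
    rw [hx.ty i, hy.ty i, min_add_add_right]
  have low : ∀ {z : ℤ → ℝ}, Ty N j z → MM m N j ≤ sga m z 0 N := by
    intro z hz
    refine MM_le h (x := z 0) ?_
    have h1 := rch_sg (m := m) z 0 N
    rwa [hz 0] at h1
  have h1 := low t1
  have h2 := low t2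
  have h3 : sga m (fun i => max (x i) (y i)) 0 N + sga m (fun i => min (x i) (y i)) 0 N ≤
      sga m x 0 N + sga m y 0 N := by
    unfold sga
    rw [← Finset.sum_add_distrib, ← Finset.sum_add_distrib]
    exact Finset.sum_le_sum fun s _ => cross_max_min h _ _ _ _
  rw [hx.mn 0, hy.mn 0] at h3
  exact ⟨isMin_of_sg h t1 (by linarith), isMin_of_sg h t2 (by linarith)⟩

/-- the maximum of the first shifts -/
private theorem exists_shmax (h : Tw m) {N : ℕ} {j : ℤ} {x : ℤ → ℝ} (hx : IsMin m N j x) (n : ℕ) :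
    ∃ w : ℤ → ℝ, IsMin m N j w ∧ (∀ i : ℤ, ∀ s : ℕ, s ≤ n → x (i + s) ≤ w i) ∧
      ∀ i : ℤ, ∃ s : ℕ, s ≤ n ∧ w i = x (i + s) := by
  induction n with
  | zero =>
    refine ⟨x, hx, fun i s hs => ?_, fun i => ⟨0, le_rfl, by simp⟩⟩
    obtain rfl : s = 0 := by omega
    simp
  | succ n ih =>
    obtain ⟨w, hw, h1, h2⟩ := ih
    have h3 : IsMin m N j (fun i => x (i + ((n + 1 : ℕ) : ℤ))) := by
      have := IsMin.shift h hx ((n + 1 : ℕ) : ℤ) 0
      simpa using this
    refine ⟨fun i => max (w i) (x (i + ((n + 1 : ℕ) : ℤ))), (IsMin.max_min h hw h3).1,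
      fun i s hs => ?_, fun i => ?_⟩
    · rcases Nat.lt_or_ge n s with h4 | h4
      · obtain rfl : s = n + 1 := by omega
        exact le_max_right _ _
      · exact (h1 i s h4).trans (le_max_left _ _)
    · rcases le_total (w i) (x (i + ((n + 1 : ℕ) : ℤ))) with h4 | h4
      · exact ⟨n + 1, le_rfl, max_eq_right h4⟩
      · obtain ⟨s, hs, h5⟩ := h2 i
        exact ⟨s, by omega, (max_eq_left h4).trans h5⟩

/-- the minimum of the first shifts -/
private theorem exists_shmin (h : Tw m) {N : ℕ} {j : ℤ} {x : ℤ → ℝ} (hx : IsMin m N j x) (n : ℕ) :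
    ∃ w : ℤ → ℝ, IsMin m N j w ∧ (∀ i : ℤ, ∀ s : ℕ, s ≤ n → w i ≤ x (i + s)) ∧
      ∀ i : ℤ, ∃ s : ℕ, s ≤ n ∧ w i = x (i + s) := by
  induction n with
  | zero =>
    refine ⟨x, hx, fun i s hs => ?_, fun i => ⟨0, le_rfl, by simp⟩⟩
    obtain rfl : s = 0 := by omega
    simp
  | succ n ih =>
    obtain ⟨w, hw, h1, h2⟩ := ih
    have h3 : IsMin m N j (fun i => x (i + ((n + 1 : ℕ) : ℤ))) := by
      have := IsMin.shift h hx ((n + 1 : ℕ) : ℤ) 0
      simpa using this
    refine ⟨fun i => min (w i) (x (i + ((n + 1 : ℕ) : ℤ))), (IsMin.max_min h hw h3).2,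
      fun i s hs => ?_, fun i => ?_⟩
    · rcases Nat.lt_or_ge n s with h4 | h4
      · obtain rfl : s = n + 1 := by omega
        exact min_le_right _ _
      · exact (min_le_left _ _).trans (h1 i s h4)
    · rcases le_total (w i) (x (i + ((n + 1 : ℕ) : ℤ))) with h4 | h4
      · obtain ⟨s, hs, h5⟩ := h2 i
        exact ⟨s, by omega, (min_eq_left h4).trans h5⟩
      · exact ⟨n + 1, le_rfl, min_eq_right h4⟩

/-- Proof. `w i = max (0 ≤ s < N), x (i + s)` for a minimal `x` (`exists_isMin`): minimal by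
`IsMin.max_min` and
`IsMin.shift` (induction: the maximum over `0 ≤ s ≤ n`), and `w i ≤ w (i + 1)` because
`x (i + N) = x i + 1 ≥ x i`. -/
theorem exists_mono (h : Tw m) {N : ℕ} (hN : 0 < N) :
    ∃ x : ℤ → ℝ, IsMin m N 1 x ∧ Monotone x := by
  obtain ⟨x, hx⟩ := exists_isMin h hN 1
  obtain ⟨w, hw, h1, h2⟩ := exists_shmax h hx N
  refine ⟨w, hw, monotone_int_of_le_succ fun i => ?_⟩
  obtain ⟨s, hs, h3⟩ := h2 i
  rw [h3]
  rcases Nat.eq_zero_or_pos s with rfl | hs0
  · have h4 := hx.ty i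
    have h5 := h1 (i + 1) (N - 1) (by omega)
    rw [show i + 1 + ((N - 1 : ℕ) : ℤ) = i + N by push_cast [Nat.cast_sub hN]; ring, h4] at h5
    rw [Nat.cast_zero, add_zero]
    push_cast at h5
    linarith
  · have h5 := h1 (i + 1) (s - 1) (by omega)
    rwa [show i + 1 + ((s - 1 : ℕ) : ℤ) = i + s by push_cast [Nat.cast_sub hs0]; ring] at h5

/-- Proof. The same with `min`: `x (i + N) = x i - 1 ≤ x i`. -/
theorem exists_anti (h : Tw m) {N : ℕ} (hN : 0 < N) :
    ∃ x : ℤ → ℝ, IsMin m N (-1) x ∧ Antitone x := by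
  obtain ⟨x, hx⟩ := exists_isMin h hN (-1)
  obtain ⟨w, hw, h1, h2⟩ := exists_shmin h hx N
  refine ⟨w, hw, antitone_int_of_succ_le fun i => ?_⟩
  obtain ⟨s, hs, h3⟩ := h2 i
  rw [h3]
  rcases Nat.eq_zero_or_pos s with rfl | hs0
  · have h4 := hx.ty i
    have h5 := h1 (i + 1) (N - 1) (by omega)
    rw [show i + 1 + ((N - 1 : ℕ) : ℤ) = i + N by push_cast [Nat.cast_sub hN]; ring, h4] at h5
    rw [Nat.cast_zero, add_zero]
    push_cast at h5
    linarith
  · have h5 := h1 (i + 1) (s - 1) (by omega)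
    rwa [show i + 1 + ((s - 1 : ℕ) : ℤ) = i + s by push_cast [Nat.cast_sub hs0]; ring] at h5

/-- Given `x₁`, the sequence can be shifted so that `x 0 ≤ x₁ < x 1`. Proof.
`x (k * N) = x 0 + k → ± ∞`; let `i`
be the greatest index with `x i ≤ x₁` (`Int.exists_greatest_of_bdd`), shift by `i` (`IsMin.shift`
with `l = 0`). -/
theorem exists_mono_at (h : Tw m) {N : ℕ} (hN : 0 < N) (x₁ : ℝ) :
    ∃ x : ℤ → ℝ, IsMin m N 1 x ∧ Monotone x ∧ x 0 ≤ x₁ ∧ x₁ < x 1 := by
  obtain ⟨x, hx, hm⟩ := exists_mono h hN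
  have hk : ∀ k : ℤ, x (k * N) = x 0 + k := by
    intro k
    have h1 := hx.ty.add_mul 0 k
    rw [zero_add] at h1
    rw [h1]
    push_cast
    ring
  obtain ⟨i₀, h1, h2⟩ := Int.exists_greatest_of_bdd (P := fun i => x i ≤ x₁)
    ⟨(⌊x₁ - x 0⌋ + 1) * N, fun z hz => by
      by_contra hcon
      push Not at hcon
      have h3 := hm hcon.le
      rw [hk] at h3
      have h4 := Int.lt_floor_add_one (x₁ - x 0)
      push_cast at h3
      linarith⟩
    ⟨⌊x₁ - x 0⌋ * N, by
      rw [hk]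
      have h4 := Int.floor_le (x₁ - x 0)
      linarith⟩
  have h3 : IsMin m N 1 (fun i => x (i + i₀)) := by
    have := IsMin.shift h hx i₀ 0
    simpa using this
  refine ⟨_, h3, fun a b hab => hm (by omega), ?_, ?_⟩
  · change x (0 + i₀) ≤ x₁
    rw [zero_add]
    exact h1
  · change x₁ < x (1 + i₀)
    by_contra hcon
    push Not at hcon
    have h4 := h2 _ hcon
    omega

theorem exists_anti_at (h : Tw m) {N : ℕ} (hN : 0 < N) (x₁ : ℝ) :
    ∃ x : ℤ → ℝ, IsMin m N (-1) x ∧ Antitone x ∧ x₁ < x 0 ∧ x 1 ≤ x₁ := by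
  obtain ⟨x, hx, hm⟩ := exists_anti h hN
  have hk : ∀ k : ℤ, x (k * N) = x 0 - k := by
    intro k
    have h1 := hx.ty.add_mul 0 k
    rw [zero_add] at h1
    rw [h1]
    push_cast
    ring
  obtain ⟨i₀, h1, h2⟩ := Int.exists_greatest_of_bdd (P := fun i => x₁ < x i)
    ⟨(⌊x 0 - x₁⌋ + 1) * N, fun z hz => by
      by_contra hcon
      push Not at hcon
      have h3 := hm hcon.le
      rw [hk] at h3
      have h4 := Int.lt_floor_add_one (x 0 - x₁)
      push_cast at h3
      linarith⟩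
    ⟨(⌊x 0 - x₁⌋ - 1) * N, by
      rw [hk]
      have h4 := Int.floor_le (x 0 - x₁)
      push_cast
      linarith⟩
  have h3 : IsMin m N (-1) (fun i => x (i + i₀)) := by
    have := IsMin.shift h hx i₀ 0
    simpa using this
  refine ⟨_, h3, fun a b hab => hm (by omega), ?_, ?_⟩
  · change x₁ < x (0 + i₀)
    rw [zero_add]
    exact h1
  · change x (1 + i₀) ≤ x₁
    by_contra hcon
    push Not at hcon
    have h4 := h2 _ hcon
    omega

end Pool.Agent.NOne
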