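import Pool.Agent.NOne.AT1

/-! AT3. Multiples of a type. -/

set_option autoImplicit false

namespace Pool.Agent.NOne

open Finset

variable {m : ℝ → ℝ → ℝ}

private theorem at3_exists {N : ℕ} (j : ℤ) {k : ℕ} {x : ℤ → ℝ}
    (hx : Ty ((k + 1) * N) ((k + 1 : ℕ) * j) x) :
    ∃ i : ℤ, (x i - (x (i + N) - j)) * (x (i + 1) - (x (i + 1 + N) - j)) ≤ 0 := by
  by_contra hcon
  push Not at hcon
  set D : ℤ → ℝ := fun i => x i - (x (i + N) - j) with hD
  have hcon' : ∀ i, 0 < D i * D (i + 1) := hcon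
  have h1 : ∀ n : ℕ, 0 < D 0 * D n := by
    intro n
    induction n with
    | zero =>
      have h2 := hcon' 0
      have h3 : D 0 ≠ 0 := by
        intro h4
        rw [h4, zero_mul] at h2
        exact lt_irrefl _ h2
      have h4 : 0 < D 0 * D 0 := mul_self_pos.2 h3
      simpa using h4
    | succ n ih =>
      have h2 := hcon' n
      have h3 := mul_pos ih h2
      have h4 : D 0 * D n * (D n * D (n + 1)) = D 0 * D (n + 1) * (D n * D n) := by ring
      rw [h4] at h3
      push_cast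
      exact (pos_iff_pos_of_mul_pos h3).2 (by
        by_contra h5
        have h6 : D n * D n = 0 := le_antisymm (not_lt.1 h5) (mul_self_nonneg _)
        rw [h6, mul_zero] at h3
        exact lt_irrefl _ h3)
  have h2 : ∑ s ∈ range (k + 1), D ((s * N : ℕ) : ℤ) = 0 := by
    have h3 : ∀ s : ℕ, D ((s * N : ℕ) : ℤ) =
        (x ((s * N : ℕ) : ℤ) - s * j) - (x (((s + 1) * N : ℕ) : ℤ) - (s + 1 : ℕ) * j) := by
      intro s
      simp only [hD]
      have h4 : ((s * N : ℕ) : ℤ) + N = (((s + 1) * N : ℕ) : ℤ) := by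
        push_cast
        ring
      rw [h4]
      push_cast
      ring
    rw [sum_congr rfl fun s _ => h3 s,
      sum_range_sub' (fun s : ℕ => x ((s * N : ℕ) : ℤ) - s * j)]
    have h4 := hx 0
    rw [zero_add] at h4
    rw [h4]
    push_cast
    simp
  have h3 : 0 < ∑ s ∈ range (k + 1), D 0 * D ((s * N : ℕ) : ℤ) :=
    sum_pos (fun s _ => h1 _) ⟨0, by simp⟩
  rw [← mul_sum, h2, mul_zero] at h3
  exact lt_irrefl _ h3

/-- Proof. `x` minimal of type `(kN, kj)`, `k = k' + 1`, `y i = x (i + N) - j`. The sum over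
`s < k` of
`(y - x) (i + s N)` telescopes to `x (i + kN) - kj - x i = 0`, so `y - x` is neither positive
everywhere nor
negative everywhere: there is `i` with `(x i - y i) * (x (i + 1) - y (i + 1)) ≤ 0` (otherwise the
sign of
`x i - y i` is the same for all `i`). The path `x (i + 1), .., x (i + N), x (i + 1) + j` has `N`
steps, the last one has
action `m (x (i + N)) (x (i + 1) + j) = m (y i) (x (i + 1))` (`Tw.per_int`); the path
`x (i + N + 1), .., x (i + kN), x (i + N + 1) + k' j` has `k' N` steps, the last one has action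
`m (x (i + kN)) (x (i + N + 1) + k' j) = m (x i) (y (i + 1))`. (Use `rch_sg`, `Rch.one`,
`Rch.trans`, `MM_le`.) The other steps are the
steps of one period `i + 1, .., i + kN + 1` of `x` except
`m (x (i + N)) (x (i + N + 1)) = m (y i) (y (i + 1))` and
`m (x (i + kN)) (x (i + kN + 1)) = m (x i) (x (i + 1))`; `h.cross` for
`x i, y i, x (i + 1), y (i + 1)`. -/
theorem MM_succ_mul_ge (h : Tw m) {N : ℕ} (hN : 0 < N) (j : ℤ) {k : ℕ} (hk : 0 < k) :
    MM m N j + MM m (k * N) (k * j) ≤ MM m ((k + 1) * N) ((k + 1 : ℕ) * j) := by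
  obtain ⟨x, hx⟩ := exists_isMin h (N := (k + 1) * N) (by positivity) ((k + 1 : ℕ) * j)
  obtain ⟨i, hi⟩ := at3_exists j hx.ty
  have hc := h.cross _ _ _ _ hi
  obtain ⟨n, rfl⟩ : ∃ n, N = n + 1 := ⟨N - 1, by omega⟩
  obtain ⟨n', hn'⟩ : ∃ n', k * (n + 1) = n' + 1 := ⟨k * (n + 1) - 1, by
    have : 0 < k * (n + 1) := by positivity
    omega⟩
  -- the first path
  have hA : MM m (n + 1) j ≤ sga m x (i + 1) n + m (x (i + (n + 1 : ℕ)) - j) (x (i + 1)) := by
    have h1 := (rch_sg (m := m) x (i + 1) n).trans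
      (Rch.one (m := m) (x (i + 1 + n)) (x (i + 1) + j))
    have h2 := MM_le h h1
    have h3 : m (x (i + 1 + n)) (x (i + 1) + j) =
        m (x (i + (n + 1 : ℕ)) - j) (x (i + 1)) := by
      have h4 := h.per_int (x (i + (n + 1 : ℕ)) - j) (x (i + 1)) j
      rw [sub_add_cancel] at h4
      rw [← h4]
      congr 2
      push_cast
      ring
    rwa [h3] at h2
  -- the second path
  have hB : MM m (k * (n + 1)) (k * j) ≤ sga m x (i + (n + 1 : ℕ) + 1) n' +
      m (x i) (x (i + 1 + (n + 1 : ℕ)) - j) := by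
    have h1 := (rch_sg (m := m) x (i + (n + 1 : ℕ) + 1) n').trans
      (Rch.one (m := m) (x (i + (n + 1 : ℕ) + 1 + n'))
        (x (i + (n + 1 : ℕ) + 1) + ((k * j : ℤ) : ℝ)))
    rw [← hn'] at h1
    have h2 := MM_le h h1
    have h3 : m (x (i + (n + 1 : ℕ) + 1 + n')) (x (i + (n + 1 : ℕ) + 1) + ((k * j : ℤ) : ℝ)) =
        m (x i) (x (i + 1 + (n + 1 : ℕ)) - j) := by
      have h4 := h.per_int (x i) (x (i + 1 + (n + 1 : ℕ)) - j) ((k + 1 : ℕ) * j)
      rw [← h4]
      have h5 := hx.ty i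
      have h6 : i + (n + 1 : ℕ) + 1 + n' = i + ((k + 1) * (n + 1) : ℕ) := by
        have h7 : ((k * (n + 1) : ℕ) : ℤ) = n' + 1 := by exact_mod_cast hn'
        push_cast at h7 ⊢
        linarith
      rw [h6, h5]
      congr 1
      have h8 : i + (n + 1 : ℕ) + 1 = i + 1 + (n + 1 : ℕ) := by ring
      rw [h8]
      push_cast
      ring
    rwa [h3] at h2
  -- the whole period
  have hT : sga m x i ((k + 1) * (n + 1)) = m (x i) (x (i + 1)) + sga m x (i + 1) n +
      (m (x (i + (n + 1 : ℕ)) - j) (x (i + 1 + (n + 1 : ℕ)) - j) +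
        sga m x (i + (n + 1 : ℕ) + 1) n') := by
    have e1 : (k + 1) * (n + 1) = (1 + n) + (1 + n') := by
      rw [add_mul, one_mul, hn']
      ring
    rw [e1, sg_add, sg_add, sg_add, sg_one, sg_one]
    have e2 : i + ((1 + n : ℕ) : ℤ) = i + (n + 1 : ℕ) := by
      push_cast
      ring
    have e3 : i + ((1 : ℕ) : ℤ) = i + 1 := by norm_num
    have e4 : i + (n + 1 : ℕ) + ((1 : ℕ) : ℤ) = i + (n + 1 : ℕ) + 1 := by norm_num
    rw [e2, e3, e4]
    congr 2
    have h4 := h.per_int (x (i + (n + 1 : ℕ)) - j) (x (i + 1 + (n + 1 : ℕ)) - j) j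
    rw [sub_add_cancel, sub_add_cancel] at h4
    rw [← h4]
    congr 2
    ring
  have hM := hx.mn i
  rw [hT] at hM
  linarith

/-- Proof. `≤`: `Ty.mul`, `Ty.sg_mul`. `≥`: induction with `MM_succ_mul_ge`. -/
theorem MM_mul (h : Tw m) {N : ℕ} (hN : 0 < N) (j : ℤ) {k : ℕ} (hk : 0 < k) :
    MM m (k * N) (k * j) = k * MM m N j := by
  refine le_antisymm ?_ ?_
  · obtain ⟨x, hx⟩ := exists_isMin h hN j
    have h1 := hx.ty.mul k
    have h2 := hx.ty.sg_mul h k
    have h3 := rch_sg (m := m) x 0 (k * N)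
    rw [h1 0, h2, hx.mn 0] at h3
    exact MM_le h h3
  · induction k with
    | zero => omega
    | succ k ih =>
      rcases Nat.eq_zero_or_pos k with rfl | hk'
      · simp
      · have h1 := ih hk'
        have h2 := MM_succ_mul_ge h hN j hk'
        push_cast at h2 ⊢
        linarith

theorem MM_zero (h : Tw m) {N : ℕ} (hN : 0 < N) : MM m N 0 = N * MM m 1 0 := by
  have h1 := MM_mul h one_pos 0 hN
  rwa [mul_one, mul_zero] at h1

end Pool.Agent.NOne
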