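import Pool.Agent.NOne.AT3

/-! AT4. Insertion of a node. -/

set_option autoImplicit false

namespace Pool.Agent.NOne

open Finset

variable {m : ℝ → ℝ → ℝ}

private theorem MM_ins (h : Tw m) {N : ℕ} (j : ℤ) {x : ℤ → ℝ} (hx : IsMin m N j x)
    {i : ℕ} (hi : i < N) {w : ℝ} (hc : (x i - w) * (x (i + 1) - w) ≤ 0) :
    MM m (N + 1) j ≤ MM m N j + m w w := by
  obtain ⟨k, rfl⟩ : ∃ k, N = i + 1 + k := ⟨N - (i + 1), by omega⟩
  have h1 : Rch m i (x 0) (x i) (sga m x 0 i) := by
    have := rch_sg (m := m) x 0 i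
    simpa using this
  have h2 := (h1.trans (Rch.one (x i) w)).trans (Rch.one w (x (i + 1)))
  have h3 : Rch m k (x (i + 1)) (x 0 + j) (sga m x (i + 1) k) := by
    have h4 := rch_sg (m := m) x (i + 1) k
    have h5 := hx.ty 0
    have h6 : x ((i : ℤ) + 1 + k) = x 0 + j := by
      rw [← h5]
      congr 1
      push_cast
      ring
    rwa [h6] at h4
  have h7 := MM_le h (h2.trans h3)
  have h8 := h.cross (x i) w (x (i + 1)) w hc
  have h9 : sga m x 0 (i + 1 + k) = sga m x 0 i + m (x i) (x (i + 1)) + sga m x (i + 1) k := by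
    rw [sg_add, sg_add, sg_one]
    have e1 : (0 : ℤ) + (i : ℤ) = i := by ring
    have e2 : (0 : ℤ) + ((i + 1 : ℕ) : ℤ) = (i : ℤ) + 1 := by push_cast; ring
    rw [e1, e2]
  have h10 := hx.mn 0
  rw [h9] at h10
  have h11 : i + 1 + 1 + k = i + 1 + k + 1 := by ring
  rw [h11] at h7
  linarith

private theorem exists_step {x : ℕ → ℝ} {w : ℝ} {N : ℕ} (h0 : x 0 ≤ w) (hN : w < x N) :
    ∃ i < N, x i ≤ w ∧ w < x (i + 1) := by
  classical
  have hex : ∃ n, w < x n := ⟨N, hN⟩
  have h1 := Nat.find_spec hex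
  have h2 : Nat.find hex ≠ 0 := by
    intro h3
    rw [h3] at h1
    linarith
  obtain ⟨i, hi⟩ := Nat.exists_eq_succ_of_ne_zero h2
  refine ⟨i, ?_, ?_, ?_⟩
  · have := Nat.find_min' hex hN
    omega
  · have := Nat.find_min hex (m := i) (by omega)
    linarith [not_lt.1 this]
  · rw [hi] at h1
    exact h1

/-- Proof. `z` with `m z z = MM m 1 0` (`MM_one_zero`). `j = 0`: `MM_zero`. `j > 0`: `x` minimal of
type `(N, j)`, there is
an integer `l` with `x 0 ≤ z + l < x 0 + 1 ≤ x 0 + j = x N`; let `i < N` be the last index with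
`x i ≤ z + l`, so `z + l < x (i + 1)`. Insert `z + l`: the path
`x 0, .., x i, z + l, x (i + 1), .., x N` has `N + 1`
steps, `h.cross` for `x i, z + l, x (i + 1), z + l`. `j < 0`: the same with `x 0 ≥ z + l > x N`. -/
theorem MM_succ_le (h : Tw m) {N : ℕ} (hN : 0 < N) (j : ℤ) :
    MM m (N + 1) j ≤ MM m N j + MM m 1 0 := by
  obtain ⟨-, z, hz⟩ := MM_one_zero h
  have hzl : ∀ l : ℤ, m (z + l) (z + l) = MM m 1 0 := fun l => by rw [h.per_int, hz]
  rcases lt_trichotomy j 0 with hj | hj | hj
  · obtain ⟨x, hx⟩ := exists_isMin h hN j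
    have hxN : x N = x 0 + j := by
      have := hx.ty 0
      simpa using this
    have hj1 : (j : ℝ) ≤ -1 := by
      have : j ≤ -1 := by omega
      exact_mod_cast this
    obtain ⟨i, hi, h1, h2⟩ := exists_step (x := fun n : ℕ => - x n) (w := -(z + ⌊x 0 - z⌋)) (N := N)
      (by
        have := Int.floor_le (x 0 - z)
        simp only [Nat.cast_zero]
        linarith)
      (by
        have := Int.lt_floor_add_one (x 0 - z)
        simp only [hxN]
        linarith)
    rw [← hzl ⌊x 0 - z⌋]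
    refine MM_ins h j hx hi (mul_nonpos_of_nonneg_of_nonpos ?_ ?_)
    · linarith
    · simp only [Nat.cast_add, Nat.cast_one] at h2
      linarith
  · subst hj
    rw [MM_zero h hN, MM_zero h (Nat.succ_pos N)]
    push_cast
    linarith
  · obtain ⟨x, hx⟩ := exists_isMin h hN j
    have hxN : x N = x 0 + j := by
      have := hx.ty 0
      simpa using this
    have hj1 : (1 : ℝ) ≤ j := by
      have : 1 ≤ j := by omega
      exact_mod_cast this
    obtain ⟨i, hi, h1, h2⟩ := exists_step (x := fun n : ℕ => x n) (w := z + ⌈x 0 - z⌉) (N := N)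
      (by
        have := Int.le_ceil (x 0 - z)
        simp only [Nat.cast_zero]
        linarith)
      (by
        have := Int.ceil_lt_add_one (x 0 - z)
        simp only [hxN]
        linarith)
    rw [← hzl ⌈x 0 - z⌉]
    refine MM_ins h j hx hi (mul_nonpos_of_nonpos_of_nonneg ?_ ?_)
    · linarith
    · simp only [Nat.cast_add, Nat.cast_one] at h2
      linarith

/-- Proof. Induction. -/
theorem MM_add_le (h : Tw m) {N : ℕ} (hN : 0 < N) (k : ℕ) (j : ℤ) :
    MM m (N + k) j ≤ MM m N j + k * MM m 1 0 := by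
  induction k with
  | zero => simp
  | succ k ih =>
    have h1 := MM_succ_le h (N := N + k) (by omega) j
    rw [← add_assoc]
    push_cast
    linarith

end Pool.Agent.NOne
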