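import Pool.Agent.NOne.AT4

/-! AT5. The slopes `bp`, `bm`. -/

set_option autoImplicit false

namespace Pool.Agent.NOne

open Finset Filter Topology

variable {m : ℝ → ℝ → ℝ}

/-- Proof. `u` minimal of type `(N, 1)`, `v` minimal of type `(N, -1)`, `d i = u i - v i`,
`d N = d 0 + 2`. Let `l = ⌈d 0⌉`, so
`d 0 ≤ l < d 0 + 1 < d N`, and let `i < N` be the last index with `d i ≤ l`: `d i ≤ l < d (i + 1)`.
The path
`u (i + 1), .., u (i + N) = u i + 1, v (i + 1) + l + 1, .., v (i + N) + l + 1 = v i + l, u (i + 1)`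
is closed and has `2 N`
steps; its action is
`MM m N 1 + MM m N (-1) - m (u i) (u (i + 1)) - m (v i) (v (i + 1)) + m (u i) (v (i + 1) + l) +
m (v i + l) (u (i + 1))` (pieces: `rch_sg` for `N -
1` steps, `Rch.one`, `Rch.shift`, `Rch.trans`), at most
`MM m N 1 + MM m N (-1)` by `h.cross` (for `u i, v i + l, u (i + 1), v (i + 1) + l`). -/
theorem MM_pm (h : Tw m) {N : ℕ} (hN : 0 < N) : MM m (2 * N) 0 ≤ MM m N 1 + MM m N (-1) := by
  obtain ⟨u, hu⟩ := exists_isMin h hN 1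
  obtain ⟨v, hv⟩ := exists_isMin h hN (-1)
  obtain ⟨i, hi, h1, h2⟩ : ∃ i : ℕ, i < N ∧ u i - v i ≤ ⌈u 0 - v 0⌉ ∧
      (⌈u 0 - v 0⌉ : ℝ) < u (i + 1 : ℤ) - v (i + 1 : ℤ) := by
    by_contra hcon
    push Not at hcon
    have h3 : ∀ i : ℕ, i ≤ N → u i - v i ≤ ⌈u 0 - v 0⌉ := by
      intro i
      induction i with
      | zero =>
        intro _
        exact Int.le_ceil _
      | succ i ih =>
        intro hi
        have h4 := hcon i (by omega) (ih (by omega))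
        push_cast
        exact h4
    have h4 := h3 N le_rfl
    have h5 := hu.ty 0
    have h6 := hv.ty 0
    rw [zero_add] at h5 h6
    rw [h5, h6] at h4
    push_cast at h4
    have h7 := Int.ceil_lt_add_one (u 0 - v 0)
    linarith
  set l : ℤ := ⌈u 0 - v 0⌉ with hl
  obtain ⟨M, rfl⟩ : ∃ M, N = M + 1 := ⟨N - 1, by omega⟩
  have p1 := rch_sg (m := m) u (i + 1) M
  have p2 := Rch.one (m := m) (u i + (1 : ℤ)) (v (i + 1) + l + (1 : ℤ))
  have p3 := (rch_sg (m := m) v (i + 1) M).shift h (l + 1)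
  have p4 := Rch.one (m := m) (v i + l) (u (i + 1))
  have e1 : u ((i : ℤ) + 1 + (M : ℤ)) = u i + (1 : ℤ) := by
    rw [← hu.ty i]
    congr 1
    push_cast
    ring
  have e2 : v ((i : ℤ) + 1 + (M : ℤ)) + ((l + 1 : ℤ) : ℝ) = v i + l := by
    have h3 : v ((i : ℤ) + 1 + (M : ℤ)) = v i + ((-1 : ℤ) : ℝ) := by
      rw [← hv.ty i]
      congr 1
      push_cast
      ring
    rw [h3]
    push_cast
    ring
  have e3 : v ((i : ℤ) + 1) + ((l + 1 : ℤ) : ℝ) = v ((i : ℤ) + 1) + l + (1 : ℤ) := by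
    push_cast
    ring
  rw [e1] at p1
  rw [e2, e3] at p3
  have p := ((p1.trans p2).trans p3).trans p4
  have e4 : M + 1 + M + 1 = 2 * (M + 1) := by ring
  have e5 : u ((i : ℤ) + 1) = u ((i : ℤ) + 1) + ((0 : ℤ) : ℝ) := by
    push_cast
    ring
  rw [e4] at p
  obtain ⟨a, ha⟩ : ∃ a, a = sga m u (i + 1) M + m (u i + (1 : ℤ)) (v (i + 1) + l + (1 : ℤ)) +
      sga m v (i + 1) M + m (v i + l) (u (i + 1)) := ⟨_, rfl⟩
  rw [← ha] at p
  have p' : Rch m (2 * (M + 1)) (u ((i : ℤ) + 1)) (u ((i : ℤ) + 1) + ((0 : ℤ) : ℝ)) a := by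
    rw [← e5]
    exact p
  have h3 := MM_le h p'
  have h4 := hu.mn i
  have h5 := hv.mn i
  have e6 : ∀ w : ℤ → ℝ, sga m w i (M + 1) = m (w i) (w (i + 1)) + sga m w (i + 1) M := by
    intro w
    rw [add_comm M 1, sg_add, sg_one]
    push_cast
    rfl
  rw [e6] at h4 h5
  have h6 : m (u i + (1 : ℤ)) (v (i + 1) + l + (1 : ℤ)) = m (u i) (v (i + 1) + l) :=
    h.per_int _ _ 1
  have h7 := h.cross (u i) (v i + l) (u (i + 1)) (v (i + 1) + l)
    (mul_nonpos_of_nonpos_of_nonneg (by linarith) (by linarith))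
  rw [h.per_int (v i) (v (i + 1)) l] at h7
  rw [h6] at ha
  linarith

private theorem at5_two (h : Tw m) {N : ℕ} (hN : 0 < N) :
    2 * (N * MM m 1 0) ≤ MM m N 1 + MM m N (-1) := by
  have h1 := MM_pm h hN
  rw [MM_zero h (by omega : 0 < 2 * N)] at h1
  push_cast at h1
  linarith

private theorem at5_up (h : Tw m) {N : ℕ} (hN : 0 < N) (j : ℤ) :
    MM m N j - N * MM m 1 0 ≤ MM m 1 j - MM m 1 0 := by
  obtain ⟨M, rfl⟩ : ∃ M, N = 1 + M := ⟨N - 1, by omega⟩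
  have h1 := MM_add_le h one_pos M j
  push_cast
  linarith

private theorem at5_bdd_p (h : Tw m) :
    BddBelow {b : ℝ | ∃ N : ℕ, 0 < N ∧ b = MM m N 1 - N * MM m 1 0} := by
  refine ⟨MM m 1 0 - MM m 1 (-1), ?_⟩
  rintro b ⟨N, hN, rfl⟩
  have h1 := at5_two h hN
  have h2 := at5_up h hN (-1)
  linarith

private theorem at5_bdd_m (h : Tw m) :
    BddBelow {b : ℝ | ∃ N : ℕ, 0 < N ∧ b = MM m N (-1) - N * MM m 1 0} := by
  refine ⟨MM m 1 0 - MM m 1 1, ?_⟩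
  rintro b ⟨N, hN, rfl⟩
  have h1 := at5_two h hN
  have h2 := at5_up h hN 1
  linarith

/-- Proof. Bounded below: `MM m N 1 - N m₀ ≥ - (MM m N (-1) - N m₀)` (`MM_pm`, `MM_zero`) and
`MM m N (-1) - N m₀ ≤ MM m 1 (-1) - m₀` (`MM_add_le`). -/
theorem bp_le (h : Tw m) {N : ℕ} (hN : 0 < N) : bp m ≤ MM m N 1 - N * MM m 1 0 :=
  csInf_le (at5_bdd_p h) ⟨N, hN, rfl⟩

theorem bm_le (h : Tw m) {N : ℕ} (hN : 0 < N) : bm m ≤ MM m N (-1) - N * MM m 1 0 :=
  csInf_le (at5_bdd_m h) ⟨N, hN, rfl⟩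

private theorem at5_tendsto (h : Tw m) (j : ℤ)
    (hb : BddBelow {b : ℝ | ∃ N : ℕ, 0 < N ∧ b = MM m N j - N * MM m 1 0}) :
    Tendsto (fun N : ℕ => MM m N j - N * MM m 1 0) atTop
      (𝓝 (sInf {b | ∃ N : ℕ, 0 < N ∧ b = MM m N j - N * MM m 1 0})) := by
  rw [← tendsto_add_atTop_iff_nat 1]
  have h1 : {b : ℝ | ∃ N : ℕ, 0 < N ∧ b = MM m N j - N * MM m 1 0} =
      Set.range fun N : ℕ => MM m (N + 1) j - ((N + 1 : ℕ) : ℝ) * MM m 1 0 := by
    ext b
    constructor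
    · rintro ⟨N, hN, rfl⟩
      exact ⟨N - 1, by simp only [Nat.sub_add_cancel hN]⟩
    · rintro ⟨N, rfl⟩
      exact ⟨N + 1, Nat.succ_pos N, rfl⟩
  rw [h1] at hb ⊢
  refine tendsto_atTop_ciInf (antitone_nat_of_succ_le fun N => ?_) hb
  have h2 := MM_succ_le h (Nat.succ_pos N) j
  push_cast
  simp only [Nat.succ_eq_add_one] at h2
  linarith

/-- Proof. The sequence is nonincreasing (`MM_succ_le`), so it tends to its infimum
(`tendsto_atTop_ciInf`). -/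
theorem tendsto_bp (h : Tw m) :
    Tendsto (fun N : ℕ => MM m N 1 - N * MM m 1 0) atTop (𝓝 (bp m)) :=
  at5_tendsto h 1 (at5_bdd_p h)

theorem tendsto_bm (h : Tw m) :
    Tendsto (fun N : ℕ => MM m N (-1) - N * MM m 1 0) atTop (𝓝 (bm m)) :=
  at5_tendsto h (-1) (at5_bdd_m h)

/-- Proof. Limit of `MM_pm`. -/
theorem bp_add_bm (h : Tw m) : 0 ≤ bp m + bm m := by
  refine ge_of_tendsto ((tendsto_bp h).add (tendsto_bm h)) ?_
  filter_upwards [eventually_gt_atTop 0] with N hN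
  have h1 := at5_two h hN
  linarith

/-- Proof. `j > 0`: `MM m N j - N m₀ ≥ MM m (j N) j - j N m₀ = j (MM m N 1 - N m₀) ≥ j bp ≥ j c` by
`MM_add_le` and `MM_mul`.
`j < 0` the same with `bm`: `MM m N j - N m₀ ≥ |j| bm ≥ - |j| c`. `j = 0`: `MM_zero`. -/
theorem MM_ge (h : Tw m) {c : ℝ} (hc : -bm m ≤ c) (hc' : c ≤ bp m) {N : ℕ} (hN : 0 < N) (j : ℤ) :
    N * MM m 1 0 + c * j ≤ MM m N j := by
  have key : ∀ (e : ℤ) (k : ℕ), 0 < k →
      k * (MM m N e - N * MM m 1 0) + N * MM m 1 0 ≤ MM m N (k * e) := by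
    intro e k hk
    obtain ⟨k, rfl⟩ : ∃ k', k = k' + 1 := ⟨k - 1, by omega⟩
    have h1 := MM_add_le h hN (k * N) (((k + 1 : ℕ) : ℤ) * e)
    have h2 : N + k * N = (k + 1) * N := by ring
    rw [h2, MM_mul h hN e hk] at h1
    push_cast at h1 ⊢
    linarith
  rcases lt_trichotomy j 0 with hj | hj | hj
  · obtain ⟨k, hk⟩ := Int.eq_ofNat_of_zero_le (by omega : 0 ≤ -j)
    have hk0 : 0 < k := by omega
    have h1 := key (-1) k hk0
    have h2 := bm_le h hN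
    have h3 : (k : ℤ) * (-1) = j := by omega
    rw [h3] at h1
    have h4 : (j : ℝ) = -(k : ℝ) := by
      have h5 : j = -(k : ℤ) := by omega
      rw [h5]
      push_cast
      ring
    have h5 : (k : ℝ) * (-c) ≤ k * (MM m N (-1) - N * MM m 1 0) :=
      mul_le_mul_of_nonneg_left (by linarith) (Nat.cast_nonneg k)
    rw [h4]
    linarith
  · subst hj
    rw [MM_zero h hN]
    simp
  · obtain ⟨k, hk⟩ := Int.eq_ofNat_of_zero_le hj.le
    have hk0 : 0 < k := by omega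
    have h1 := key 1 k hk0
    have h2 := bp_le h hN
    have h3 : (k : ℤ) * 1 = j := by omega
    rw [h3] at h1
    have h4 : (j : ℝ) = (k : ℝ) := by
      rw [hk]
      push_cast
      ring
    have h5 : (k : ℝ) * c ≤ k * (MM m N 1 - N * MM m 1 0) :=
      mul_le_mul_of_nonneg_left (by linarith) (Nat.cast_nonneg k)
    rw [h4]
    linarith

private theorem at5_bound (h : Tw m) : ∃ K : ℝ, ∀ y y', |y' - y| ≤ 1 → m y y' ≤ K := by
  have hc : IsCompact (Set.Icc (0 : ℝ) 1 ×ˢ Set.Icc (-1 : ℝ) 2) := isCompact_Icc.prod isCompact_Icc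
  obtain ⟨K, hK⟩ := (hc.image h.cont).bddAbove
  refine ⟨K, fun y y' hy => ?_⟩
  have h1 := h.per_int y y' (-⌊y⌋)
  rw [← h1]
  refine hK ⟨(y + ((-⌊y⌋ : ℤ) : ℝ), y' + ((-⌊y⌋ : ℤ) : ℝ)), ⟨⟨?_, ?_⟩, ⟨?_, ?_⟩⟩, rfl⟩
  · have := Int.floor_le y
    push_cast
    linarith
  · have := Int.lt_floor_add_one y
    push_cast
    linarith
  · have := Int.floor_le y
    have := (abs_le.1 hy).1
    push_cast
    linarith
  · have := Int.lt_floor_add_one y
    have := (abs_le.1 hy).2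
    push_cast
    linarith

/-- All paths. Proof. Close the path with one step from `y` to `x + j`, `|x + j - y| ≤ 1`
(`j = ⌊y - x⌋`), of action
at most the maximum of `m y y'` for `|y' - y| ≤ 1` (`h.cont`, compactness, `Tw.per_int`): `MM_ge`
for `N = n + 1`. -/
theorem path_ge (h : Tw m) {c : ℝ} (hc : -bm m ≤ c) (hc' : c ≤ bp m) :
    ∃ C : ℝ, ∀ (n : ℕ) (x y a : ℝ), Rch m n x y a → n * MM m 1 0 + c * (y - x) - C ≤ a := by
  obtain ⟨K, hK⟩ := at5_bound h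
  refine ⟨K + |c| - MM m 1 0, fun n x y a hp => ?_⟩
  have h1 := Int.floor_le (y - x)
  have h2 := Int.lt_floor_add_one (y - x)
  have h3 := hp.trans (Rch.one (m := m) y (x + (⌊y - x⌋ : ℤ)))
  have h4 := MM_le h h3
  have h5 := MM_ge h hc hc' (Nat.succ_pos n) ⌊y - x⌋
  have h6 := hK y (x + (⌊y - x⌋ : ℤ)) (by
    rw [abs_le]
    constructor <;> linarith)
  have h7 : c * ((y - x) - (⌊y - x⌋ : ℤ)) ≤ |c| := by
    calc c * ((y - x) - (⌊y - x⌋ : ℤ)) ≤ |c| * ((y - x) - (⌊y - x⌋ : ℤ)) :=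
          mul_le_mul_of_nonneg_right (le_abs_self c) (by linarith)
      _ ≤ |c| * 1 := mul_le_mul_of_nonneg_left (by linarith) (abs_nonneg c)
      _ = |c| := mul_one _
  simp only [Nat.succ_eq_add_one] at h5
  push_cast at h5
  linarith

end Pool.Agent.NOne
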