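import Pool.Agent.NOne.AT2
import Pool.Agent.NOne.AT5

/-! AT6. The limits of the minimal sequences of types `(N, 1)` and `(N, -1)`. -/

set_option autoImplicit false

namespace Pool.Agent.NOne

open Finset Filter Topology

variable {m : ℝ → ℝ → ℝ}

/-- The properties of the limits `a₀, a₁, a₂, a₃` of `u (-1), u 0, u 1, u 2` (type `(N, 1)`) and
`b₀, b₁, b₂, b₃` of
`v (-1), v 0, v 1, v 2` (type `(N, -1)`). -/
structure Lim (m : ℝ → ℝ → ℝ) (x₁ a₀ a₁ a₂ a₃ b₀ b₁ b₂ b₃ : ℝ) : Prop where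
  a01 : a₀ ≤ a₁
  a1x : a₁ ≤ x₁
  ax2 : x₁ ≤ a₂
  a23 : a₂ ≤ a₃
  b01 : b₁ ≤ b₀
  b1x : x₁ ≤ b₁
  bx2 : b₂ ≤ x₁
  b23 : b₃ ≤ b₂
  cr : m a₁ a₂ + m b₁ b₂ ≤ m a₁ b₂ + m b₁ a₂
  mina1 : ∀ y, m a₀ a₁ + m a₁ a₂ ≤ m a₀ y + m y a₂
  minb1 : ∀ y, m b₀ b₁ + m b₁ b₂ ≤ m b₀ y + m y b₂
  mix1 : ∀ y x, m a₀ a₁ + m a₁ a₂ + (m b₀ b₁ + m b₁ b₂) ≤ m a₀ y + m y b₂ + (m b₀ x + m x a₂)
  mina2 : ∀ y, m a₁ a₂ + m a₂ a₃ ≤ m a₁ y + m y a₃
  minb2 : ∀ y, m b₁ b₂ + m b₂ b₃ ≤ m b₁ y + m y b₃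
  mix2 : ∀ y x, m a₁ a₂ + m a₂ a₃ + (m b₁ b₂ + m b₂ b₃) ≤ m a₁ y + m y b₃ + (m b₁ x + m x a₃)
  rem1 : m a₀ a₁ + m a₁ a₂ ≤ m a₀ a₂ + MM m 1 0
  rem2 : m a₁ a₂ + m a₂ a₃ ≤ m a₁ a₃ + MM m 1 0

/-- The part of a minimal sequence without the steps at the index `i`. -/
private theorem seg {K : ℕ} {j : ℤ} {u : ℤ → ℝ} (hu : IsMin m (K + 2) j u) (i : ℤ) :
    sga m u (i + 1) K = MM m (K + 2) j - m (u (i - 1)) (u i) - m (u i) (u (i + 1)) ∧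
      Rch m K (u (i + 1)) (u (i - 1) + j) (sga m u (i + 1) K) := by
  constructor
  · have h1 := hu.mn (i - 1)
    have e : K + 2 = 1 + (1 + K) := by ring
    rw [e, sg_add, sg_one, sg_add, sg_one] at h1
    have e1 : i - 1 + ((1 : ℕ) : ℤ) = i := by push_cast; ring
    have e2 : i - 1 + 1 = i := by ring
    rw [e1, e2] at h1
    have e3 : i + ((1 : ℕ) : ℤ) = i + 1 := by push_cast; ring
    rw [e3] at h1
    rw [e]
    linarith
  · have h1 := rch_sg (m := m) u (i + 1) K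
    have h2 := hu.ty (i - 1)
    have e : i + 1 + (K : ℤ) = i - 1 + ((K + 2 : ℕ) : ℤ) := by push_cast; ring
    rw [e, h2] at h1
    exact h1

/-- The part of a minimal sequence without one step. -/
private theorem seg1 {K : ℕ} {j : ℤ} {u : ℤ → ℝ} (hu : IsMin m (K + 1) j u) (i : ℤ) :
    sga m u (i + 1) K = MM m (K + 1) j - m (u i) (u (i + 1)) ∧
      Rch m K (u (i + 1)) (u i + j) (sga m u (i + 1) K) := by
  constructor
  · have h1 := hu.mn i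
    have e : K + 1 = 1 + K := by ring
    rw [e, sg_add, sg_one] at h1
    have e3 : i + ((1 : ℕ) : ℤ) = i + 1 := by push_cast; ring
    rw [e3] at h1
    rw [e]
    linarith
  · have h1 := rch_sg (m := m) u (i + 1) K
    have h2 := hu.ty i
    have e : i + 1 + (K : ℤ) = i + ((K + 1 : ℕ) : ℤ) := by push_cast; ring
    rw [e, h2] at h1
    exact h1

private theorem closed_ge' (h : Tw m) {n : ℕ} (hn : 0 < n) {x a : ℝ} (h1 : Rch m n x x a) :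
    n * MM m 1 0 ≤ a := by
  rw [← MM_zero h hn]
  refine MM_le h (j := 0) (x := x) ?_
  rw [Int.cast_zero, add_zero]
  exact h1

/-- The inequalities before the limit; `m₀ = MM m 1 0`, `ε = MM m N 1 + MM m N (-1) - 2 N m₀`. All
are proved by a closed
path with `2 N` steps (`MM_le`, `MM_zero`), `N ≥ 3`:
`cr`: `u 1, .., u N = u 0 + 1, v 1 + 1, .., v N + 1 = v 0, u 1`;
`mix1`: `y, v 1, .., v (N - 1) = v (-1) - 1, x - 1, u 1 - 1, .., u (N - 1) - 1 = u (-1), y`;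
`mix2`: the same with all indices of `u`, `v` increased by `1` (apply `mix1` to the shifted
sequences);
`mina1`, `minb1`: replace one node of a minimal sequence (`u (-1), y, u 1` then
`u 1, .., u (N - 1) = u (-1) + 1`); `rem`: remove one
node, type `(N - 1, 1)`, `MM m (N - 1) 1 ≥ (N - 1) m₀ + bp m` (`bp_le`). -/
theorem pre_cr (h : Tw m) {N : ℕ} (hN : 3 ≤ N) {u v : ℤ → ℝ} (hu : IsMin m N 1 u)
    (hv : IsMin m N (-1) v) :
    m (u 0) (u 1) + m (v 0) (v 1) ≤ m (u 0) (v 1) + m (v 0) (u 1) +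
      (MM m N 1 + MM m N (-1) - 2 * N * MM m 1 0) := by
  obtain ⟨K, rfl⟩ : ∃ K, N = K + 1 := ⟨N - 1, by omega⟩
  obtain ⟨su, ru⟩ := seg1 hu 0
  obtain ⟨sv, rv⟩ := seg1 hv 0
  rw [zero_add] at su ru sv rv
  have r2 := Rch.one (m := m) (u 0 + ((1 : ℤ) : ℝ)) (v 1 + ((1 : ℤ) : ℝ))
  rw [h.per_int] at r2
  have r3 := rv.shift h 1
  have e3 : v 0 + ((-1 : ℤ) : ℝ) + ((1 : ℤ) : ℝ) = v 0 := by push_cast; ring
  rw [e3] at r3
  have r4 := Rch.one (m := m) (v 0) (u 1)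
  have hc := closed_ge' h (by omega) (((ru.trans r2).trans r3).trans r4)
  push_cast at hc ⊢
  linarith

theorem pre_min (h : Tw m) {N : ℕ} (hN : 3 ≤ N) {j : ℤ} {u : ℤ → ℝ} (hu : IsMin m N j u) (i : ℤ)
    (y : ℝ) :
    m (u (i - 1)) (u i) + m (u i) (u (i + 1)) ≤ m (u (i - 1)) y + m y (u (i + 1)) := by
  obtain ⟨K, rfl⟩ : ∃ K, N = K + 2 := ⟨N - 2, by omega⟩
  obtain ⟨su, ru⟩ := seg hu i
  have hc := MM_le h (j := j) (((Rch.one (m := m) (u (i - 1)) y).trans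
    (Rch.one y (u (i + 1)))).trans ru)
  have e : 1 + 1 + K = K + 2 := by ring
  rw [e] at hc
  linarith

theorem pre_mix (h : Tw m) {N : ℕ} (hN : 3 ≤ N) {u v : ℤ → ℝ} (hu : IsMin m N 1 u)
    (hv : IsMin m N (-1) v) (i : ℤ) (y x : ℝ) :
    m (u (i - 1)) (u i) + m (u i) (u (i + 1)) + (m (v (i - 1)) (v i) + m (v i) (v (i + 1))) ≤
      m (u (i - 1)) y + m y (v (i + 1)) + (m (v (i - 1)) x + m x (u (i + 1))) +
        (MM m N 1 + MM m N (-1) - 2 * N * MM m 1 0) := by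
  obtain ⟨K, rfl⟩ : ∃ K, N = K + 2 := ⟨N - 2, by omega⟩
  obtain ⟨su, ru⟩ := seg hu i
  obtain ⟨sv, rv⟩ := seg hv i
  have r1 := Rch.one (m := m) y (v (i + 1))
  have r3 := Rch.one (m := m) (v (i - 1) + ((-1 : ℤ) : ℝ)) (x + ((-1 : ℤ) : ℝ))
  rw [h.per_int] at r3
  have r4 := Rch.one (m := m) (x + ((-1 : ℤ) : ℝ)) (u (i + 1) + ((-1 : ℤ) : ℝ))
  rw [h.per_int] at r4
  have r5 := ru.shift h (-1)
  have e5 : u (i - 1) + ((1 : ℤ) : ℝ) + ((-1 : ℤ) : ℝ) = u (i - 1) := by push_cast; ring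
  rw [e5] at r5
  have r6 := Rch.one (m := m) (u (i - 1)) y
  have hc := closed_ge' h (by omega) (((((r1.trans rv).trans r3).trans r4).trans r5).trans r6)
  push_cast at hc ⊢
  linarith

theorem pre_rem (h : Tw m) {N : ℕ} (hN : 3 ≤ N) {u : ℤ → ℝ} (hu : IsMin m N 1 u) (i : ℤ) :
    m (u (i - 1)) (u i) + m (u i) (u (i + 1)) ≤ m (u (i - 1)) (u (i + 1)) + MM m 1 0 +
      (MM m N 1 - N * MM m 1 0 - bp m) := by
  obtain ⟨K, rfl⟩ : ∃ K, N = K + 2 := ⟨N - 2, by omega⟩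
  obtain ⟨su, ru⟩ := seg hu i
  have hc := MM_le h (j := 1) ((Rch.one (m := m) (u (i - 1)) (u (i + 1))).trans ru)
  have e : 1 + K = K + 1 := by ring
  rw [e] at hc
  have hb := bp_le h (N := K + 1) (by omega)
  push_cast at hb hc ⊢
  linarith

end Pool.Agent.NOne
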