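import Pool.Agent.NOne.ACv

/-! ATay. Taylor estimates for the Lagrangian and the first variation of the action. -/

set_option autoImplicit false

namespace Pool.Agent.NOne

open Set MeasureTheory

variable {L : ℝ → ℝ → ℝ → ℝ}

private theorem aTay_low {f f1 f2 : ℝ → ℝ} (h1 : ∀ s, HasDerivAt f (f1 s) s)
    (h2 : ∀ s, HasDerivAt f1 (f2 s) s) {m : ℝ} (hm : ∀ s, 0 ≤ s → s ≤ 1 → m ≤ f2 s) :
    f 0 + f1 0 + m / 2 ≤ f 1 := by
  have hg1 : ∀ s, HasDerivAt (fun s => f1 s - m * s) (f2 s - m) s := fun s =>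
    ((h2 s).sub ((hasDerivAt_id s).const_mul m)).congr_deriv (by rw [mul_one])
  have hg : ∀ s, HasDerivAt (fun s => f s - f1 0 * s - m / 2 * s ^ 2) (f1 s - f1 0 - m * s) s := by
    intro s
    have h3 := ((h1 s).sub ((hasDerivAt_id s).const_mul (f1 0))).sub
      ((hasDerivAt_pow 2 s).const_mul (m / 2))
    refine (h3.congr_deriv ?_)
    simp only [mul_one, Nat.cast_ofNat, Nat.add_one_sub_one, pow_one]
    ring
  have hmono1 : MonotoneOn (fun s => f1 s - m * s) (Icc 0 1) := by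
    refine monotoneOn_of_deriv_nonneg (convex_Icc 0 1)
      (fun s _ => (hg1 s).continuousAt.continuousWithinAt)
      (fun s _ => (hg1 s).differentiableAt.differentiableWithinAt) ?_
    intro s hs
    rw [interior_Icc] at hs
    rw [(hg1 s).deriv]
    linarith [hm s hs.1.le hs.2.le]
  have hmono : MonotoneOn (fun s => f s - f1 0 * s - m / 2 * s ^ 2) (Icc 0 1) := by
    refine monotoneOn_of_deriv_nonneg (convex_Icc 0 1)
      (fun s _ => (hg s).continuousAt.continuousWithinAt)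
      (fun s _ => (hg s).differentiableAt.differentiableWithinAt) ?_
    intro s hs
    rw [interior_Icc] at hs
    rw [(hg s).deriv]
    have h3 := hmono1 (left_mem_Icc.2 zero_le_one) ⟨hs.1.le, hs.2.le⟩ hs.1.le
    simp only [mul_zero, sub_zero] at h3
    linarith
  have h3 := hmono (left_mem_Icc.2 zero_le_one) (right_mem_Icc.2 zero_le_one) zero_le_one
  simp only [mul_zero, sub_zero, mul_one, one_pow, ne_eq, OfNat.ofNat_ne_zero,
    not_false_eq_true, zero_pow] at h3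
  linarith

private theorem aTay_seg {R v dv s : ℝ} (h1 : |v| ≤ R) (h2 : |v + dv| ≤ R) (h3 : 0 ≤ s)
    (h4 : s ≤ 1) : |v + s * dv| ≤ R := by
  rw [abs_le] at h1 h2 ⊢
  constructor
  · nlinarith [mul_nonneg (sub_nonneg.2 h4) (by linarith [h1.1] : 0 ≤ v + R),
      mul_nonneg h3 (by linarith [h2.1] : 0 ≤ v + dv + R)]
  · nlinarith [mul_nonneg (sub_nonneg.2 h4) (by linarith [h1.2] : 0 ≤ R - v),
      mul_nonneg h3 (by linarith [h2.2] : 0 ≤ R - (v + dv))]

private theorem aTay_chain {F : ℝ → ℝ → ℝ → ℝ} (h : Ana F) (x v t dx dv s : ℝ) :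
    HasDerivAt (fun s => F (x + s * dx) (v + s * dv) t)
      (d1 F (x + s * dx) (v + s * dv) t * dx + d2 F (x + s * dx) (v + s * dv) t * dv) s := by
  have hX : HasDerivAt (fun s : ℝ => x + s * dx) dx s := by
    simpa using ((hasDerivAt_id s).mul_const dx).const_add x
  have hV : HasDerivAt (fun s : ℝ => v + s * dv) dv s := by
    simpa using ((hasDerivAt_id s).mul_const dv).const_add v
  have h3 := ana_chain h hX hV (hasDerivAt_const s t)
  refine h3.congr_deriv ?_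
  ring

/-- the second order lower bound along a segment -/
private theorem aTay_main {F : ℝ → ℝ → ℝ → ℝ} (hF : Ana F) (x v t dx dv m : ℝ)
    (hm : ∀ s, 0 ≤ s → s ≤ 1 →
      m ≤ (d1 (d1 F) (x + s * dx) (v + s * dv) t * dx +
          d2 (d1 F) (x + s * dx) (v + s * dv) t * dv) * dx +
        (d1 (d2 F) (x + s * dx) (v + s * dv) t * dx +
          d2 (d2 F) (x + s * dx) (v + s * dv) t * dv) * dv) :
    F x v t + d1 F x v t * dx + d2 F x v t * dv + m / 2 ≤ F (x + dx) (v + dv) t := by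
  have h := aTay_low (f := fun s => F (x + s * dx) (v + s * dv) t)
    (f1 := fun s => d1 F (x + s * dx) (v + s * dv) t * dx +
      d2 F (x + s * dx) (v + s * dv) t * dv)
    (f2 := fun s => (d1 (d1 F) (x + s * dx) (v + s * dv) t * dx +
          d2 (d1 F) (x + s * dx) (v + s * dv) t * dv) * dx +
        (d1 (d2 F) (x + s * dx) (v + s * dv) t * dx +
          d2 (d2 F) (x + s * dx) (v + s * dv) t * dv) * dv)
    (fun s => aTay_chain hF x v t dx dv s)
    (fun s => ((aTay_chain (ana_d1 hF) x v t dx dv s).mul_const dx).add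
      ((aTay_chain (ana_d2 hF) x v t dx dv s).mul_const dv)) hm
  simp only [zero_mul, add_zero, one_mul] at h
  linarith

/-- Proof. `f s = L (x + s dx) (v + s dv) t` on `[0, 1]`;
`f'' = L_xx dx² + 2 L_xv dx dv + L_vv dv²` (`ana_chain`), bounded by
`2 C (dx² + dv²)` because `|v + s dv| ≤ R` (`ana_bdd` for `d1 (d1 L)`, `d2 (d1 L)`, `d1 (d2 L)`,
`d2 (d2 L)`). -/
theorem taylor_two (hL : Ton L) (R : ℝ) : ∃ C : ℝ, 0 ≤ C ∧ ∀ x v t dx dv : ℝ, |v| ≤ R →
    |v + dv| ≤ R → |L (x + dx) (v + dv) t - L x v t - d1 L x v t * dx - d2 L x v t * dv| ≤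
      C * (dx ^ 2 + dv ^ 2) := by
  obtain ⟨A, hA0, hA⟩ := ana_bdd (ana_d1 (ana_d1 hL.ana)) (per_d1 (per_d1 hL.perx))
    (pet_d1 (pet_d1 hL.pert)) R
  obtain ⟨B, hB0, hB⟩ := ana_bdd (ana_d2 (ana_d1 hL.ana)) (per_d2 (per_d1 hL.perx))
    (pet_d2 (pet_d1 hL.pert)) R
  obtain ⟨C, hC0, hC⟩ := ana_bdd (ana_d1 (ana_d2 hL.ana)) (per_d1 (per_d2 hL.perx))
    (pet_d1 (pet_d2 hL.pert)) R
  obtain ⟨D, hD0, hD⟩ := ana_bdd (ana_d2 (ana_d2 hL.ana)) (per_d2 (per_d2 hL.perx))
    (pet_d2 (pet_d2 hL.pert)) R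
  refine ⟨A + B + C + D, by positivity, fun x v t dx dv hv hv' => ?_⟩
  have hq : ∀ a b c d : ℝ, |a| ≤ A → |b| ≤ B → |c| ≤ C → |d| ≤ D →
      |(a * dx + b * dv) * dx + (c * dx + d * dv) * dv| ≤
        2 * ((A + B + C + D) * (dx ^ 2 + dv ^ 2)) := by
    intro a b c d ha hb hc hd
    have e1 : |a * dx ^ 2| ≤ A * dx ^ 2 := by
      rw [abs_mul, abs_of_nonneg (sq_nonneg dx)]
      exact mul_le_mul_of_nonneg_right ha (sq_nonneg dx)
    have e2 : |d * dv ^ 2| ≤ D * dv ^ 2 := by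
      rw [abs_mul, abs_of_nonneg (sq_nonneg dv)]
      exact mul_le_mul_of_nonneg_right hd (sq_nonneg dv)
    have e0 : |dx * dv| ≤ dx ^ 2 + dv ^ 2 := by
      rw [abs_le]
      constructor
      · nlinarith [sq_nonneg (dx + dv), sq_nonneg dx, sq_nonneg dv]
      · nlinarith [sq_nonneg (dx - dv), sq_nonneg dx, sq_nonneg dv]
    have e3 : |(b + c) * (dx * dv)| ≤ (B + C) * (dx ^ 2 + dv ^ 2) := by
      rw [abs_mul]
      refine mul_le_mul ?_ e0 (abs_nonneg _) (by positivity)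
      exact (abs_add_le b c).trans (add_le_add hb hc)
    rw [abs_le] at e1 e2 e3 ⊢
    have p1 : 0 ≤ A * dv ^ 2 := by positivity
    have p2 : 0 ≤ D * dx ^ 2 := by positivity
    have p3 : 0 ≤ (A + B + C + D) * (dx ^ 2 + dv ^ 2) := by positivity
    constructor
    · nlinarith [e1.1, e2.1, e3.1]
    · nlinarith [e1.2, e2.2, e3.2]
  have hlow := aTay_main hL.ana x v t dx dv (-(2 * ((A + B + C + D) * (dx ^ 2 + dv ^ 2))))
    (fun s hs hs' => by
      have hseg := aTay_seg hv hv' hs hs'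
      exact (abs_le.1 (hq _ _ _ _ (hA (x + s * dx) (v + s * dv) t hseg)
        (hB (x + s * dx) (v + s * dv) t hseg) (hC (x + s * dx) (v + s * dv) t hseg)
        (hD (x + s * dx) (v + s * dv) t hseg))).1)
  have hup := aTay_low (f := fun s => -L (x + s * dx) (v + s * dv) t)
    (f1 := fun s => -(d1 L (x + s * dx) (v + s * dv) t * dx +
      d2 L (x + s * dx) (v + s * dv) t * dv))
    (f2 := fun s => -((d1 (d1 L) (x + s * dx) (v + s * dv) t * dx +
          d2 (d1 L) (x + s * dx) (v + s * dv) t * dv) * dx +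
        (d1 (d2 L) (x + s * dx) (v + s * dv) t * dx +
          d2 (d2 L) (x + s * dx) (v + s * dv) t * dv) * dv))
    (m := -(2 * ((A + B + C + D) * (dx ^ 2 + dv ^ 2))))
    (fun s => (aTay_chain hL.ana x v t dx dv s).neg)
    (fun s => (((aTay_chain (ana_d1 hL.ana) x v t dx dv s).mul_const dx).add
      ((aTay_chain (ana_d2 hL.ana) x v t dx dv s).mul_const dv)).neg)
    (fun s hs hs' => by
      have hseg := aTay_seg hv hv' hs hs'
      have h1 := (abs_le.1 (hq _ _ _ _ (hA (x + s * dx) (v + s * dv) t hseg)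
        (hB (x + s * dx) (v + s * dv) t hseg) (hC (x + s * dx) (v + s * dv) t hseg)
        (hD (x + s * dx) (v + s * dv) t hseg))).2
      linarith)
  simp only [zero_mul, add_zero, one_mul] at hup
  rw [abs_le]
  constructor
  · linarith
  · linarith

/-- Proof. `L (x + dx) (v + dv) ≥ L (x + dx) v + L_v (x + dx, v) dv + c dv²` with `2 c = conv_min`;
`L (x + dx) v ≥ L x v + L_x dx - C dx²`, `|L_v (x + dx, v) - L_v (x, v)| ≤ C |dx|` (`ana_bdd`). -/
theorem taylor_conv (hL : Ton L) (R : ℝ) : ∃ c C : ℝ, 0 < c ∧ 0 ≤ C ∧ ∀ x v t dx dv : ℝ,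
    |v| ≤ R → |v + dv| ≤ R →
    L x v t + d1 L x v t * dx + d2 L x v t * dv + c * dv ^ 2 - C * |dx| * |dv| - C * dx ^ 2 ≤
      L (x + dx) (v + dv) t := by
  obtain ⟨A, hA0, hA⟩ := ana_bdd (ana_d1 (ana_d1 hL.ana)) (per_d1 (per_d1 hL.perx))
    (pet_d1 (pet_d1 hL.pert)) R
  obtain ⟨B, hB0, hB⟩ := ana_bdd (ana_d2 (ana_d1 hL.ana)) (per_d2 (per_d1 hL.perx))
    (pet_d2 (pet_d1 hL.pert)) R
  obtain ⟨C, hC0, hC⟩ := ana_bdd (ana_d1 (ana_d2 hL.ana)) (per_d1 (per_d2 hL.perx))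
    (pet_d1 (pet_d2 hL.pert)) R
  obtain ⟨c, hc0, hc⟩ := conv_min hL R
  refine ⟨c / 2, A + B + C, by positivity, by positivity, fun x v t dx dv hv hv' => ?_⟩
  have hlow := aTay_main hL.ana x v t dx dv
    (c * dv ^ 2 - (B + C) * (|dx| * |dv|) - A * dx ^ 2) (fun s hs hs' => by
      have hseg := aTay_seg hv hv' hs hs'
      have h1 := hA (x + s * dx) (v + s * dv) t hseg
      have h2 := hB (x + s * dx) (v + s * dv) t hseg
      have h3 := hC (x + s * dx) (v + s * dv) t hseg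
      have h4 := hc (x + s * dx) (v + s * dv) t hseg
      generalize d1 (d1 L) (x + s * dx) (v + s * dv) t = a at h1 ⊢
      generalize d2 (d1 L) (x + s * dx) (v + s * dv) t = b at h2 ⊢
      generalize d1 (d2 L) (x + s * dx) (v + s * dv) t = e at h3 ⊢
      generalize d2 (d2 L) (x + s * dx) (v + s * dv) t = d at h4 ⊢
      have e1 : -(A * dx ^ 2) ≤ a * dx ^ 2 := by nlinarith [(abs_le.1 h1).1, sq_nonneg dx]
      have e2 : c * dv ^ 2 ≤ d * dv ^ 2 := by nlinarith [sq_nonneg dv]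
      have e3 : |(b + e) * (dx * dv)| ≤ (B + C) * (|dx| * |dv|) := by
        rw [abs_mul, abs_mul dx dv]
        exact mul_le_mul_of_nonneg_right ((abs_add_le b e).trans (add_le_add h2 h3))
          (by positivity)
      have e4 := (abs_le.1 e3).1
      nlinarith)
  have p1 : 0 ≤ |dx| * |dv| := by positivity
  have p2 : 0 ≤ A * (|dx| * |dv|) := by positivity
  have p3 : 0 ≤ (B + C) * (|dx| * |dv|) := by positivity
  have p4 : 0 ≤ (B + C) * dx ^ 2 := by positivity
  have p5 : 0 ≤ A * dx ^ 2 := by positivity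
  nlinarith

end Pool.Agent.NOne
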