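import Pool.Agent.NOne.AMm
import Pool.Agent.NOne.ATDefs

/-! ATr. The transformation of the rotation number `p / q` to `0`: `X̃ s = X (q s) - p s`. -/

set_option autoImplicit false

namespace Pool.Agent.NOne

open Set MeasureTheory

variable {L : ℝ → ℝ → ℝ → ℝ} {z u X W : ℝ → ℝ}

/-- the Lagrangian of the curves `s ↦ z (q s) - p s` -/
noncomputable def tr (L : ℝ → ℝ → ℝ → ℝ) (q : ℕ) (p : ℤ) : ℝ → ℝ → ℝ → ℝ :=
  fun x w s => q * L (x + p * s) ((w + p) / q) (q * s)

/-- composition with the affine map -/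
private noncomputable def cp (G : ℝ → ℝ → ℝ → ℝ) (q : ℕ) (p : ℤ) : ℝ → ℝ → ℝ → ℝ :=
  fun x w s => G (x + p * s) ((w + p) / q) (q * s)

private theorem hd_x (p : ℤ) (x s : ℝ) : HasDerivAt (fun y : ℝ => y + p * s) 1 x := by
  simpa using (hasDerivAt_id x).add_const ((p : ℝ) * s)

private theorem hd_w (q : ℕ) (p : ℤ) (w : ℝ) :
    HasDerivAt (fun w : ℝ => (w + p) / (q : ℝ)) (1 / q) w := by
  simpa using ((hasDerivAt_id w).add_const (p : ℝ)).div_const (q : ℝ)

private theorem hd_s (p : ℤ) (x s : ℝ) : HasDerivAt (fun s : ℝ => x + p * s) p s := by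
  simpa using ((hasDerivAt_id s).const_mul (p : ℝ)).const_add x

private theorem hd_t (q : ℕ) (s : ℝ) : HasDerivAt (fun s : ℝ => (q : ℝ) * s) q s := by
  simpa using (hasDerivAt_id s).const_mul (q : ℝ)

private theorem cp_d1 {G : ℝ → ℝ → ℝ → ℝ} (hG : Ana G) (q : ℕ) (p : ℤ) (x w s : ℝ) :
    d1 (cp G q p) x w s = cp (d1 G) q p x w s := by
  have h := ana_chain hG (hd_x p x s) (hasDerivAt_const x ((w + p) / (q : ℝ)))
    (hasDerivAt_const x ((q : ℝ) * s))
  have h1 := h.deriv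
  simp only [mul_one, mul_zero, add_zero] at h1
  exact h1

private theorem cp_d2 {G : ℝ → ℝ → ℝ → ℝ} (hG : Ana G) (q : ℕ) (p : ℤ) (x w s : ℝ) :
    d2 (cp G q p) x w s = cp (d2 G) q p x w s / q := by
  have h := ana_chain hG (hasDerivAt_const w (x + p * s)) (hd_w q p w)
    (hasDerivAt_const w ((q : ℝ) * s))
  have h1 := h.deriv
  simp only [mul_zero, add_zero, zero_add, mul_one_div] at h1
  exact h1

private theorem cp_d3 {G : ℝ → ℝ → ℝ → ℝ} (hG : Ana G) (q : ℕ) (p : ℤ) (x w s : ℝ) :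
    d3 (cp G q p) x w s = cp (d1 G) q p x w s * p + cp (d3 G) q p x w s * q := by
  have h := ana_chain hG (hd_s p x s) (hasDerivAt_const s ((w + p) / (q : ℝ))) (hd_t q s)
  have h1 := h.deriv
  simp only [mul_zero, add_zero] at h1
  exact h1

private theorem cp_ana {G : ℝ → ℝ → ℝ → ℝ} (hG : Ana G) (q : ℕ) (p : ℤ) : Ana (cp G q p) := by
  have h1 : AnalyticOnNhd ℝ (fun z : ℝ × ℝ × ℝ =>
      ((z.1 + p * z.2.2, (z.2.1 + p) / (q : ℝ), (q : ℝ) * z.2.2) : ℝ × ℝ × ℝ)) univ := by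
    have e1 : AnalyticOnNhd ℝ (fun z : ℝ × ℝ × ℝ => z.1) univ := analyticOnNhd_fst
    have e2 : AnalyticOnNhd ℝ (fun z : ℝ × ℝ × ℝ => z.2.1) univ :=
      ((ContinuousLinearMap.fst ℝ ℝ ℝ).comp
        (ContinuousLinearMap.snd ℝ ℝ (ℝ × ℝ))).analyticOnNhd univ
    have e3 : AnalyticOnNhd ℝ (fun z : ℝ × ℝ × ℝ => z.2.2) univ :=
      ((ContinuousLinearMap.snd ℝ ℝ ℝ).comp
        (ContinuousLinearMap.snd ℝ ℝ (ℝ × ℝ))).analyticOnNhd univ
    have c : ∀ r : ℝ, AnalyticOnNhd ℝ (fun _ : ℝ × ℝ × ℝ => r) univ := fun r =>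
      analyticOnNhd_const
    have e4 : AnalyticOnNhd ℝ (fun z : ℝ × ℝ × ℝ => (z.2.1 + p) / (q : ℝ)) univ := by
      have h5 := (e2.add (c p)).mul (c ((q : ℝ)⁻¹))
      have h6 : (fun z : ℝ × ℝ × ℝ => (z.2.1 + p) / (q : ℝ)) =
          fun z : ℝ × ℝ × ℝ => (z.2.1 + p) * (q : ℝ)⁻¹ := by
        funext z
        exact div_eq_mul_inv _ _
      rw [h6]
      exact h5
    exact (e1.add ((c p).mul e3)).prod (e4.prod ((c q).mul e3))
  exact AnalyticOnNhd.comp (g := fun z : ℝ × ℝ × ℝ => G z.1 z.2.1 z.2.2) hG h1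
    (fun z _ => mem_univ _)

private theorem tr_eq (L : ℝ → ℝ → ℝ → ℝ) (q : ℕ) (p : ℤ) :
    tr L q p = fun x w s => q * cp L q p x w s := rfl

private theorem tr_d1' (hL : Ana L) (q : ℕ) (p : ℤ) (x w s : ℝ) :
    d1 (tr L q p) x w s = q * cp (d1 L) q p x w s := by
  have h := (ana_hd1 (cp_ana hL q p) x w s).const_mul (q : ℝ)
  rw [cp_d1 hL] at h
  exact h.deriv

private theorem tr_d2' (hL : Ana L) {q : ℕ} (hq : 0 < q) (p : ℤ) :
    d2 (tr L q p) = cp (d2 L) q p := by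
  funext x w s
  have h := (ana_hd2 (cp_ana hL q p) x w s).const_mul (q : ℝ)
  rw [cp_d2 hL] at h
  have hq' : (q : ℝ) ≠ 0 := by positivity
  rw [mul_div_cancel₀ _ hq'] at h
  exact h.deriv

private theorem tr_acc (hL : Ton L) {q : ℕ} (hq : 0 < q) (p : ℤ) (x w s : ℝ) :
    acc (tr L q p) x w s = q ^ 2 * acc L (x + p * s) ((w + p) / q) (q * s) := by
  have h2 := ana_d2 hL.ana
  have hq' : (q : ℝ) ≠ 0 := by positivity
  have h3 : d2 (d2 L) (x + p * s) ((w + p) / q) (q * s) ≠ 0 := (hL.conv _ _ _).ne'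
  rw [acc, tr_d2' hL.ana hq, tr_d1' hL.ana, cp_d1 h2, cp_d2 h2, cp_d3 h2, acc]
  simp only [cp]
  field_simp
  ring

private theorem tr_sol' (hL : Ton L) {q : ℕ} (hq : 0 < q) (p : ℤ) (h : Sol L X W) :
    Sol (tr L q p) (fun s => X (q * s) - p * s) (fun s => q * W (q * s) - p) := by
  have hq' : (q : ℝ) ≠ 0 := by positivity
  constructor
  · intro t
    have h1 := (h.pos (q * t)).comp t (hd_t q t)
    have h2 : HasDerivAt (fun s : ℝ => (p : ℝ) * s) p t := by
      simpa using (hasDerivAt_id t).const_mul (p : ℝ)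
    have h3 := h1.sub h2
    rw [mul_comm (W (q * t)) (q : ℝ)] at h3
    exact h3
  · intro t
    have h1 := (h.vel (q * t)).comp t (hd_t q t)
    have h2 := (h1.const_mul (q : ℝ)).sub_const (p : ℝ)
    rw [tr_acc hL hq]
    have h4 : X (q * t) - p * t + p * t = X (q * t) := by ring
    have h5 : (q * W (q * t) - p + p) / (q : ℝ) = W (q * t) := by
      rw [sub_add_cancel, mul_div_cancel_left₀ _ hq']
    rw [h4, h5]
    have h6 : (q : ℝ) ^ 2 * acc L (X (q * t)) (W (q * t)) (q * t) =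
      (q : ℝ) * (acc L (X (q * t)) (W (q * t)) (q * t) * q) := by ring
    rw [h6]
    exact h2

/-- Proof. Composition of `L` with the affine map `(x, w, s) ↦ (x + p s, (w + p) / q, q s)`;
`d2 (d2 (tr L q p)) = d2 (d2 L) / q`;
superlinearity; completeness: `tr_sol` below for the solution of `L` through
`(x + p s, (w + p) / q)` at time `q s`. -/
theorem tr_ton (hL : Ton L) {q : ℕ} (hq : 0 < q) (p : ℤ) : Ton (tr L q p) := by
  have hq0 : (0 : ℝ) < q := by positivity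
  have hq' : (q : ℝ) ≠ 0 := hq0.ne'
  refine ⟨?_, ?_, ?_, ?_, ?_, ?_⟩
  · have h1 : AnalyticOnNhd ℝ (fun _ : ℝ × ℝ × ℝ => (q : ℝ)) univ := analyticOnNhd_const
    exact h1.mul (cp_ana hL.ana q p)
  · intro x v t
    have h1 : x + 1 + p * t = x + p * t + 1 := by ring
    simp only [tr, h1, hL.perx]
  · intro x v t
    have h1 : x + p * (t + 1) = x + p * t + p := by ring
    have h2 : (q : ℝ) * (t + 1) = q * t + ((q : ℤ) : ℝ) := by push_cast; ring
    simp only [tr]
    rw [h1, h2, per_int hL.perx, pet_int hL.pert]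
  · intro x v t
    rw [tr_d2' hL.ana hq, cp_d2 (ana_d2 hL.ana)]
    exact div_pos (hL.conv _ _ _) hq0
  · intro B
    obtain ⟨C, hC⟩ := hL.sup |B|
    refine ⟨q * C + |B| * |(p : ℝ)|, fun x v t => ?_⟩
    have h1 := mul_le_mul_of_nonneg_left (hC (x + p * t) ((v + p) / q) (q * t)) hq0.le
    have h2 : (q : ℝ) * (|B| * |(v + p) / q| - C) = |B| * |v + p| - q * C := by
      rw [abs_div, abs_of_pos hq0]
      field_simp
    rw [h2] at h1
    have h3 : |v| ≤ |v + p| + |(p : ℝ)| := by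
      have := abs_sub_abs_le_abs_sub (v : ℝ) (-(p : ℝ))
      rw [abs_neg, sub_neg_eq_add] at this
      linarith
    have h4 := mul_le_mul_of_nonneg_left h3 (abs_nonneg B)
    have h5 : B * |v| ≤ |B| * |v| := mul_le_mul_of_nonneg_right (le_abs_self B) (abs_nonneg v)
    change B * |v| - (q * C + |B| * |(p : ℝ)|) ≤ q * L (x + p * t) ((v + p) / q) (q * t)
    linarith
  · intro s x v
    obtain ⟨X, W, hS, hX, hW⟩ := hL.compl (q * s) (x + p * s) ((v + p) / q)
    refine ⟨_, _, tr_sol' hL hq p hS, ?_, ?_⟩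
    · simp only [hX]
      ring
    · simp only [hW]
      field_simp
      ring

/-- The momentum: `L̃_w = L_v`. -/
theorem tr_d2 (hL : Ton L) {q : ℕ} (hq : 0 < q) (p : ℤ) (x w s : ℝ) :
    d2 (tr L q p) x w s = d2 L (x + p * s) ((w + p) / q) (q * s) := by
  rw [tr_d2' hL.ana hq]
  rfl

/-- Proof. The Euler-Lagrange equations correspond to each other: `acc (tr L q p) x w s =
q ^ 2 * acc L (x + p s) ((w + p) / q) (q s)`. -/
theorem tr_sol (hL : Ton L) {q : ℕ} (hq : 0 < q) (p : ℤ) (h : Sol L X W) :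
    Sol (tr L q p) (fun s => X (q * s) - p * s) (fun s => q * W (q * s) - p) :=
  tr_sol' hL hq p h

theorem tr_sol_inv (hL : Ton L) {q : ℕ} (hq : 0 < q) (p : ℤ) (h : Sol (tr L q p) X W) :
    Sol L (fun t => X (t / q) + p * (t / q)) (fun t => (W (t / q) + p) / q) := by
  have hq0 : (0 : ℝ) < q := by positivity
  have hq' : (q : ℝ) ≠ 0 := hq0.ne'
  have hdiv : ∀ t : ℝ, HasDerivAt (fun t : ℝ => t / (q : ℝ)) (1 / q) t := fun t =>
    (hasDerivAt_id t).div_const (q : ℝ)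
  constructor
  · intro t
    have h1 := (h.pos (t / q)).comp t (hdiv t)
    have h2 := (hdiv t).const_mul (p : ℝ)
    have h3 := h1.add h2
    have h4 : W (t / q) * (1 / q) + p * (1 / q) = (W (t / q) + p) / q := by
      field_simp
    rw [h4] at h3
    exact h3
  · intro t
    have h1 := (h.vel (t / q)).comp t (hdiv t)
    have h2 := (h1.add_const (p : ℝ)).div_const (q : ℝ)
    rw [tr_acc hL hq] at h2
    have h4 : (q : ℝ) * (t / q) = t := by field_simp
    rw [h4] at h2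
    have h5 : (q : ℝ) ^ 2 * acc L (X (t / q) + p * (t / q)) ((W (t / q) + p) / q) t * (1 / q) / q =
        acc L (X (t / q) + p * (t / q)) ((W (t / q) + p) / q) t := by
      field_simp
    rw [h5] at h2
    exact h2

theorem tr_cv {q : ℕ} (hq : 0 < q) (p : ℤ) {a b : ℝ} (h : Cv z u (q * a) (q * b)) :
    Cv (fun s => z (q * s) - p * s) (fun s => q * u (q * s) - p) a b := by
  have hq0 : (0 : ℝ) < q := by positivity
  have hq' : (q : ℝ) ≠ 0 := hq0.ne'
  have hI : MapsTo (fun s : ℝ => (q : ℝ) * s) (Icc a b) (Icc (q * a) (q * b)) := fun s hs =>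
    ⟨mul_le_mul_of_nonneg_left hs.1 hq0.le, mul_le_mul_of_nonneg_left hs.2 hq0.le⟩
  refine ⟨le_of_mul_le_mul_left h.le hq0, ?_, ?_, ?_, ?_⟩
  · exact (h.cont.comp (by fun_prop) hI).sub (by fun_prop)
  · obtain ⟨N, hN, h1⟩ := h.der
    refine ⟨(fun s : ℝ => (q : ℝ) * s) ⁻¹' N,
      hN.preimage_of_injOn (mul_right_injective₀ hq').injOn, fun t ht htN => ?_⟩
    have h2 := (h1 (q * t) ⟨mul_lt_mul_of_pos_left ht.1 hq0, mul_lt_mul_of_pos_left ht.2 hq0⟩
      htN).comp t (hd_t q t)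
    have h3 : HasDerivAt (fun s : ℝ => (p : ℝ) * s) p t := by
      simpa using (hasDerivAt_id t).const_mul (p : ℝ)
    have h4 := h2.sub h3
    rw [mul_comm (u (q * t)) (q : ℝ)] at h4
    exact h4
  · exact ((h.meas.comp (measurable_const_mul (q : ℝ))).const_mul (q : ℝ)).sub_const (p : ℝ)
  · obtain ⟨M, hM⟩ := h.bdd
    refine ⟨q * M + |(p : ℝ)|, fun t ht => ?_⟩
    have h1 := hM (q * t) (hI ht)
    calc |q * u (q * t) - p| ≤ |q * u (q * t)| + |(p : ℝ)| := abs_sub _ _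
      _ ≤ q * M + |(p : ℝ)| := by
        rw [abs_mul, abs_of_pos hq0]
        have := mul_le_mul_of_nonneg_left h1 hq0.le
        linarith

theorem tr_cv_inv {q : ℕ} (hq : 0 < q) (p : ℤ) {a b : ℝ} (h : Cv z u a b) :
    Cv (fun t => z (t / q) + p * (t / q)) (fun t => (u (t / q) + p) / q) (q * a) (q * b) := by
  have hq0 : (0 : ℝ) < q := by positivity
  have hq' : (q : ℝ) ≠ 0 := hq0.ne'
  have hI : MapsTo (fun t : ℝ => t / (q : ℝ)) (Icc (q * a) (q * b)) (Icc a b) := fun s hs =>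
    ⟨(le_div_iff₀' hq0).2 hs.1, (div_le_iff₀' hq0).2 hs.2⟩
  have hdiv : ∀ t : ℝ, HasDerivAt (fun t : ℝ => t / (q : ℝ)) (1 / q) t := fun t =>
    (hasDerivAt_id t).div_const (q : ℝ)
  refine ⟨mul_le_mul_of_nonneg_left h.le hq0.le, ?_, ?_, ?_, ?_⟩
  · exact (h.cont.comp (by fun_prop) hI).add (by fun_prop)
  · obtain ⟨N, hN, h1⟩ := h.der
    refine ⟨(fun t : ℝ => t / (q : ℝ)) ⁻¹' N,
      hN.preimage_of_injOn (fun x _ y _ hxy => by
        have h0 : x / (q : ℝ) = y / q := hxy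
        rwa [div_left_inj' hq'] at h0), fun t ht htN => ?_⟩
    have h2 := (h1 (t / q) ⟨(lt_div_iff₀' hq0).2 ht.1, (div_lt_iff₀' hq0).2 ht.2⟩
      htN).comp t (hdiv t)
    have h3 := (hdiv t).const_mul (p : ℝ)
    have h4 := h2.add h3
    have h5 : u (t / q) * (1 / q) + p * (1 / q) = (u (t / q) + p) / q := by
      field_simp
    rw [h5] at h4
    exact h4
  · exact ((h.meas.comp (measurable_id.div_const (q : ℝ))).add_const (p : ℝ)).div_const (q : ℝ)
  · obtain ⟨M, hM⟩ := h.bdd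
    refine ⟨(M + |(p : ℝ)|) / q, fun t ht => ?_⟩
    have h1 := hM (t / q) (hI ht)
    rw [abs_div, abs_of_pos hq0]
    refine div_le_div_of_nonneg_right ?_ hq0.le
    exact (abs_add_le _ _).trans (by linarith)

/-- Proof. Substitution `t = q s`. -/
theorem tr_act {q : ℕ} (hq : 0 < q) (p : ℤ) (a b : ℝ) :
    act (tr L q p) (fun s => z (q * s) - p * s) (fun s => q * u (q * s) - p) a b =
      act L z u (q * a) (q * b) := by
  have hq' : (q : ℝ) ≠ 0 := by positivity
  unfold act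
  rw [← intervalIntegral.mul_integral_comp_mul_left (f := fun t => L (z t) (u t) t) (q : ℝ),
    ← intervalIntegral.integral_const_mul]
  refine intervalIntegral.integral_congr fun s _ => ?_
  simp only [tr]
  rw [sub_add_cancel, sub_add_cancel, mul_div_cancel_left₀ _ hq']

theorem tr_act_inv {q : ℕ} (hq : 0 < q) (p : ℤ) (a b : ℝ) :
    act L (fun t => z (t / q) + p * (t / q)) (fun t => (u (t / q) + p) / q) (q * a) (q * b) =
      act (tr L q p) z u a b := by
  have hq' : (q : ℝ) ≠ 0 := by positivity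
  unfold act
  rw [← intervalIntegral.mul_integral_comp_mul_left
    (f := fun t => L (z (t / q) + p * (t / q)) ((u (t / q) + p) / q) t) (q : ℝ),
    ← intervalIntegral.integral_const_mul]
  refine intervalIntegral.integral_congr fun s _ => ?_
  simp only [tr]
  rw [mul_div_cancel_left₀ _ hq']

end Pool.Agent.NOne
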