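import Pool.Agent.NOne.AExS

/-! AVm. Variation of the end points of the minimal arcs, continuity of `mm`, matching at a node. -/

set_option autoImplicit false

namespace Pool.Agent.NOne

open Set MeasureTheory

variable {L : ℝ → ℝ → ℝ → ℝ}

/-- Proof. `first_var` on `[0, 1]` with `lam t = t` (`l₀ = 0`, `l₁ = 1`), `mm_le`, `arc_bd`. -/
theorem mm_var_end (hL : Ton L) (D : ℝ) : ∃ C : ℝ, 0 ≤ C ∧ ∀ (x y : ℝ) (X W : ℝ → ℝ),
    Arc L x y X W → |y - x| ≤ D → ∀ e : ℝ, |e| ≤ 1 →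
      mm L x (y + e) ≤ mm L x y + e * d2 L (X 1) (W 1) 1 + C * e ^ 2 := by
  obtain ⟨Ω, hΩ⟩ := exists_omg hL
  obtain ⟨C, hC0, hC⟩ := first_var hL (Ω D) 1 1
  refine ⟨C, hC0, fun x y X W h hD e he => ?_⟩
  have h1 := hC X W h.sol 0 1 zero_le_one (by norm_num)
    (fun t ht => (arc_bd hΩ h ⟨by linarith [ht.1], by linarith [ht.2]⟩).trans (hΩ.mono hD))
    0 1 (by norm_num) (fun t ht => by
      rw [abs_le]
      constructor <;> linarith [ht.1, ht.2]) e he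
  have h2 := mm_le hL (var_cv (a := 0) (b := 1) h.sol zero_le_one 0 1 e)
  simp only [h.st, h.en] at h2
  have e1 : x + e * (0 + 1 * ((0 : ℝ) - 0)) = x := by ring
  have e2 : y + e * (0 + 1 * ((1 : ℝ) - 0)) = y + e := by ring
  rw [e1, e2] at h2
  rw [h.mn] at h1
  nlinarith [h1, h2]

/-- Proof. `lam t = 1 - t`. -/
theorem mm_var_start (hL : Ton L) (D : ℝ) : ∃ C : ℝ, 0 ≤ C ∧ ∀ (x y : ℝ) (X W : ℝ → ℝ),
    Arc L x y X W → |y - x| ≤ D → ∀ e : ℝ, |e| ≤ 1 →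
      mm L (x + e) y ≤ mm L x y - e * d2 L (X 0) (W 0) 0 + C * e ^ 2 := by
  obtain ⟨Ω, hΩ⟩ := exists_omg hL
  obtain ⟨C, hC0, hC⟩ := first_var hL (Ω D) 1 1
  refine ⟨C, hC0, fun x y X W h hD e he => ?_⟩
  have h1 := hC X W h.sol 0 1 zero_le_one (by norm_num)
    (fun t ht => (arc_bd hΩ h ⟨by linarith [ht.1], by linarith [ht.2]⟩).trans (hΩ.mono hD))
    1 (-1) (by norm_num) (fun t ht => by
      rw [abs_le]
      constructor <;> linarith [ht.1, ht.2]) e he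
  have h2 := mm_le hL (var_cv (a := 0) (b := 1) h.sol zero_le_one 1 (-1) e)
  simp only [h.st, h.en] at h2
  have e1 : x + e * (1 + -1 * ((0 : ℝ) - 0)) = x + e := by ring
  have e2 : y + e * (1 + -1 * ((1 : ℝ) - 0)) = y := by ring
  rw [e1, e2] at h2
  rw [h.mn] at h1
  nlinarith [h1, h2]

private theorem mm_lip (hL : Ton L) (D : ℝ) : ∃ K : ℝ, 0 ≤ K ∧ ∀ x y : ℝ, |y - x| ≤ D →
    ∀ e : ℝ, |e| ≤ 1 →
      mm L x (y + e) ≤ mm L x y + K * |e| ∧ mm L (x + e) y ≤ mm L x y + K * |e| := by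
  obtain ⟨Ω, hΩ⟩ := exists_omg hL
  obtain ⟨C₁, hC₁, h1⟩ := mm_var_end hL D
  obtain ⟨C₂, hC₂, h2⟩ := mm_var_start hL D
  obtain ⟨B, hB, h3⟩ := ana_bdd (ana_d2 hL.ana) (per_d2 hL.perx) (pet_d2 hL.pert) (Ω D)
  refine ⟨B + C₁ + C₂, by positivity, fun x y hD e he => ?_⟩
  obtain ⟨X, W, h⟩ := exists_arc hL x y
  have hb : ∀ t ∈ Icc (-1 : ℝ) 2, |d2 L (X t) (W t) t| ≤ B := fun t ht =>
    h3 _ _ _ ((arc_bd hΩ h ht).trans (hΩ.mono hD))
  have h4 := hb 1 ⟨by norm_num, by norm_num⟩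
  have h5 := hb 0 ⟨by norm_num, by norm_num⟩
  have h6 : e * d2 L (X 1) (W 1) 1 ≤ |e| * B := by
    refine (le_abs_self _).trans ?_
    rw [abs_mul]
    exact mul_le_mul_of_nonneg_left h4 (abs_nonneg e)
  have h7 : -(e * d2 L (X 0) (W 0) 0) ≤ |e| * B := by
    refine (neg_le_abs _).trans ?_
    rw [abs_mul]
    exact mul_le_mul_of_nonneg_left h5 (abs_nonneg e)
  have h8 : e ^ 2 ≤ |e| := by
    rw [← sq_abs]
    nlinarith [abs_nonneg e]
  have h9 := h1 x y X W h hD e he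
  have h10 := h2 x y X W h hD e he
  have h11 : C₁ * e ^ 2 ≤ C₁ * |e| := mul_le_mul_of_nonneg_left h8 hC₁
  have h12 : C₂ * e ^ 2 ≤ C₂ * |e| := mul_le_mul_of_nonneg_left h8 hC₂
  have h13 : 0 ≤ C₁ * |e| := mul_nonneg hC₁ (abs_nonneg e)
  have h14 : 0 ≤ C₂ * |e| := mul_nonneg hC₂ (abs_nonneg e)
  constructor <;> nlinarith

/-- Proof. `mm_var_end`, `mm_var_start` in both directions (the momenta are bounded: `arc_bd`,
`ana_bdd`), so
`mm` is locally Lipschitz. -/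
theorem mm_cont (hL : Ton L) : Continuous fun z : ℝ × ℝ => mm L z.1 z.2 := by
  rw [continuous_iff_continuousAt]
  rintro ⟨x, y⟩
  obtain ⟨K, hK, h⟩ := mm_lip hL (|y - x| + 2)
  have hmain : ∀ x' y' : ℝ, |x' - x| ≤ 1 → |y' - y| ≤ 1 →
      |mm L x' y' - mm L x y| ≤ K * |x' - x| + K * |y' - y| := by
    intro x' y' hx hy
    have a1 := abs_le.1 hx
    have a2 := abs_le.1 hy
    have a3 := abs_le.1 (le_refl |y - x|)
    have d1 : |y - x| ≤ |y - x| + 2 := by linarith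
    have d2 : |y - x'| ≤ |y - x| + 2 := by
      rw [abs_le]
      constructor <;> linarith
    have d3 : |y' - x'| ≤ |y - x| + 2 := by
      rw [abs_le]
      constructor <;> linarith
    have b1 := (h x' y d2 (y' - y) hy).1
    have b2 := (h x' y' d3 (y - y') (by rwa [abs_sub_comm])).1
    have b3 := (h x y d1 (x' - x) hx).2
    have b4 := (h x' y d2 (x - x') (by rwa [abs_sub_comm])).2
    rw [add_sub_cancel] at b1 b2 b3 b4
    rw [abs_sub_comm y y'] at b2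
    rw [abs_sub_comm x x'] at b4
    rw [abs_le]
    constructor <;> linarith
  rw [ContinuousAt, tendsto_iff_norm_sub_tendsto_zero]
  have h1 : Filter.Tendsto (fun z : ℝ × ℝ => K * |z.1 - x| + K * |z.2 - y|) (nhds (x, y))
      (nhds 0) := by
    have h2 : Continuous fun z : ℝ × ℝ => K * |z.1 - x| + K * |z.2 - y| := by fun_prop
    have h3 := h2.tendsto (x, y)
    simpa using h3
  refine squeeze_zero' (Filter.Eventually.of_forall fun z => norm_nonneg _) ?_ h1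
  have h4 : ∀ᶠ z : ℝ × ℝ in nhds (x, y), |z.1 - x| < 1 := by
    have h5 : Continuous fun z : ℝ × ℝ => |z.1 - x| := by fun_prop
    exact h5.continuousAt.eventually_lt continuousAt_const (by simp)
  have h6 : ∀ᶠ z : ℝ × ℝ in nhds (x, y), |z.2 - y| < 1 := by
    have h5 : Continuous fun z : ℝ × ℝ => |z.2 - y| := by fun_prop
    exact h5.continuousAt.eventually_lt continuousAt_const (by simp)
  filter_upwards [h4, h6] with z hz hz'
  exact hmain z.1 z.2 hz.le hz'.le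

/-- Proof. `0 ≤ e (P - P') + C e²` for small `e` of both signs, `P = d2 L y (W 1) 1`,
`P' = d2 L y (W' 0) 0 = d2 L y (W' 0) 1`
(`pet_d2`), `d2_strictMono`. -/
theorem node_match (hL : Ton L) {a y b : ℝ} {X W X' W' : ℝ → ℝ} (h : Arc L a y X W)
    (h' : Arc L y b X' W') (hm : ∀ y', mm L a y + mm L y b ≤ mm L a y' + mm L y' b) :
    W 1 = W' 0 := by
  obtain ⟨C₁, hC₁, h1⟩ := mm_var_end hL |y - a|
  obtain ⟨C₂, hC₂, h2⟩ := mm_var_start hL |b - y|
  have h3 : d2 L y (W' 0) 1 = d2 L (X' 0) (W' 0) 0 := by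
    rw [h'.st]
    have h4 := pet_d2 hL.pert y (W' 0) 0
    rwa [zero_add] at h4
  have h5 : d2 L y (W 1) 1 = d2 L (X 1) (W 1) 1 := by rw [h.en]
  have key : ∀ e : ℝ, |e| ≤ 1 →
      0 ≤ e * (d2 L y (W 1) 1 - d2 L y (W' 0) 1) + (C₁ + C₂) * e ^ 2 := by
    intro e he
    have h6 := h1 a y X W h le_rfl e he
    have h7 := h2 y b X' W' h' le_rfl e he
    have h8 := hm (y + e)
    rw [h5, h3]
    linarith
  refine sol_mom_eq (x := y) (t := 1) hL ?_
  by_contra hne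
  have hq : d2 L y (W 1) 1 - d2 L y (W' 0) 1 ≠ 0 := sub_ne_zero.2 hne
  generalize d2 L y (W 1) 1 - d2 L y (W' 0) 1 = q at key hq
  have hs : 0 < C₁ + C₂ + 1 + |q| := by positivity
  have h9 := key (-(q / (C₁ + C₂ + 1 + |q|))) (by
    rw [abs_neg, abs_div, abs_of_pos hs, div_le_one hs]
    linarith)
  have h10 : 0 < q ^ 2 := by positivity
  have h11 : -(q / (C₁ + C₂ + 1 + |q|)) * q + (C₁ + C₂) * (-(q / (C₁ + C₂ + 1 + |q|))) ^ 2 =
      -(q ^ 2 * (1 + |q|) / (C₁ + C₂ + 1 + |q|) ^ 2) := by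
    field_simp
    ring
  rw [h11] at h9
  have h12 : 0 < q ^ 2 * (1 + |q|) / (C₁ + C₂ + 1 + |q|) ^ 2 := by positivity
  linarith

end Pool.Agent.NOne
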