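import Pool.Agent.NOne.ATay
import Pool.Agent.NOne.AFlow

/-! AVr. First variation of the action of a solution, affine variations. -/

set_option autoImplicit false

namespace Pool.Agent.NOne

open Set MeasureTheory

variable {L : ℝ → ℝ → ℝ → ℝ}

private theorem cont3 {F : ℝ → ℝ → ℝ → ℝ} (hF : Ana F) {x v : ℝ → ℝ} (hx : Continuous x)
    (hv : Continuous v) : Continuous fun t => F (x t) (v t) t :=
  (ana_continuous hF).comp (hx.prodMk (hv.prodMk continuous_id))

/-- Proof. Put `lam t = l₀ + l₁ (t - a)`; `taylor_two` for `R = M + K` and `dx = e lam`,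
`dv = e l₁`; the linear term is
`e ∫ (L_x lam + L_v lam') = e [L_v lam]_a^b` (`sol_mom`, fundamental theorem). -/
theorem first_var (hL : Ton L) (M K T : ℝ) : ∃ C : ℝ, 0 ≤ C ∧ ∀ X W : ℝ → ℝ, Sol L X W →
    ∀ a b : ℝ, a ≤ b → b - a ≤ T → (∀ t ∈ Icc a b, |W t| ≤ M) → ∀ l₀ l₁ : ℝ, |l₁| ≤ K →
    (∀ t ∈ Icc a b, |l₀ + l₁ * (t - a)| ≤ 1) → ∀ e : ℝ, |e| ≤ 1 →
    act L (fun t => X t + e * (l₀ + l₁ * (t - a))) (fun t => W t + e * l₁) a b ≤
      act L X W a b + e * (d2 L (X b) (W b) b * (l₀ + l₁ * (b - a)) - d2 L (X a) (W a) a * l₀) +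
        C * e ^ 2 := by
  obtain ⟨C₀, hC₀, hT⟩ := taylor_two hL (M + K)
  refine ⟨C₀ * (1 + K ^ 2) * |T|, by positivity, ?_⟩
  intro X W hS a b hab hbT hW l₀ l₁ hl hlam e he
  obtain ⟨hXc, hWc⟩ := sol_cont hS
  have hM : 0 ≤ M := (abs_nonneg _).trans (hW a ⟨le_rfl, hab⟩)
  have hK : 0 ≤ K := (abs_nonneg _).trans hl
  have c0 := cont3 hL.ana hXc hWc
  have c1 := cont3 (ana_d1 hL.ana) hXc hWc
  have c2 := cont3 (ana_d2 hL.ana) hXc hWc
  have hlc : Continuous fun t : ℝ => l₀ + l₁ * (t - a) := by fun_prop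
  have hGc : Continuous fun t => d1 L (X t) (W t) t * (l₀ + l₁ * (t - a)) +
      d2 L (X t) (W t) t * l₁ := (c1.mul hlc).add (c2.mul continuous_const)
  have hG : ∫ t in a..b, (d1 L (X t) (W t) t * (l₀ + l₁ * (t - a)) + d2 L (X t) (W t) t * l₁) =
      d2 L (X b) (W b) b * (l₀ + l₁ * (b - a)) - d2 L (X a) (W a) a * l₀ := by
    have h0 : ∀ t ∈ uIcc a b, HasDerivAt (fun s => d2 L (X s) (W s) s * (l₀ + l₁ * (s - a)))
        (d1 L (X t) (W t) t * (l₀ + l₁ * (t - a)) + d2 L (X t) (W t) t * l₁) t := by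
      intro t _
      have h2 : HasDerivAt (fun s : ℝ => l₀ + l₁ * (s - a)) l₁ t := by
        have h3 := (((hasDerivAt_id t).sub_const a).const_mul l₁).const_add l₀
        rw [mul_one] at h3
        exact h3
      exact (sol_mom hL hS t).mul h2
    have h1 := intervalIntegral.integral_eq_sub_of_hasDerivAt h0 (hGc.intervalIntegrable a b)
    rw [h1, sub_self, mul_zero, add_zero]
  have key : ∀ t ∈ Icc a b, L (X t + e * (l₀ + l₁ * (t - a))) (W t + e * l₁) t ≤
      L (X t) (W t) t + e * (d1 L (X t) (W t) t * (l₀ + l₁ * (t - a)) +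
        d2 L (X t) (W t) t * l₁) + C₀ * (1 + K ^ 2) * e ^ 2 := by
    intro t ht
    have h1 := hW t ht
    have h2 : |e * l₁| ≤ K := by
      rw [abs_mul]
      calc |e| * |l₁| ≤ 1 * K := mul_le_mul he hl (abs_nonneg _) zero_le_one
        _ = K := one_mul K
    have h3 : |W t + e * l₁| ≤ M + K := (abs_add_le _ _).trans (add_le_add h1 h2)
    have h4 := (abs_le.1 (hT (X t) (W t) t (e * (l₀ + l₁ * (t - a))) (e * l₁)
      (h1.trans (by linarith)) h3)).2
    have h5 : (e * (l₀ + l₁ * (t - a))) ^ 2 + (e * l₁) ^ 2 ≤ (1 + K ^ 2) * e ^ 2 := by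
      have h6 : (l₀ + l₁ * (t - a)) ^ 2 ≤ 1 := by
        rw [← sq_abs]
        exact pow_le_one₀ (abs_nonneg _) (hlam t ht)
      have h7 : l₁ ^ 2 ≤ K ^ 2 := by
        rw [← sq_abs]
        exact pow_le_pow_left₀ (abs_nonneg _) hl 2
      calc (e * (l₀ + l₁ * (t - a))) ^ 2 + (e * l₁) ^ 2 =
            ((l₀ + l₁ * (t - a)) ^ 2 + l₁ ^ 2) * e ^ 2 := by ring
        _ ≤ (1 + K ^ 2) * e ^ 2 :=
            mul_le_mul_of_nonneg_right (add_le_add h6 h7) (sq_nonneg e)
    have h8 := mul_le_mul_of_nonneg_left h5 hC₀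
    have h9 : C₀ * ((1 + K ^ 2) * e ^ 2) = C₀ * (1 + K ^ 2) * e ^ 2 := by ring
    linarith
  have hi1 : IntervalIntegrable (fun t => L (X t + e * (l₀ + l₁ * (t - a))) (W t + e * l₁) t)
      volume a b := (cont3 hL.ana (hXc.add (continuous_const.mul hlc))
        (hWc.add continuous_const)).intervalIntegrable a b
  have hi2 : IntervalIntegrable (fun t => L (X t) (W t) t) volume a b :=
    c0.intervalIntegrable a b
  have hi3 : IntervalIntegrable (fun t => e * (d1 L (X t) (W t) t * (l₀ + l₁ * (t - a)) +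
      d2 L (X t) (W t) t * l₁)) volume a b :=
    (continuous_const.mul hGc).intervalIntegrable a b
  have hi4 : IntervalIntegrable (fun _ : ℝ => C₀ * (1 + K ^ 2) * e ^ 2) volume a b :=
    continuous_const.intervalIntegrable a b
  have h1 := intervalIntegral.integral_mono_on hab hi1 ((hi2.add hi3).add hi4) key
  have h2 : ∫ t in a..b, (L (X t) (W t) t + e * (d1 L (X t) (W t) t * (l₀ + l₁ * (t - a)) +
      d2 L (X t) (W t) t * l₁) + C₀ * (1 + K ^ 2) * e ^ 2) =
      act L X W a b + e * (d2 L (X b) (W b) b * (l₀ + l₁ * (b - a)) -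
        d2 L (X a) (W a) a * l₀) + (b - a) * (C₀ * (1 + K ^ 2) * e ^ 2) := by
    rw [intervalIntegral.integral_add (hi2.add hi3) hi4, intervalIntegral.integral_add hi2 hi3,
      intervalIntegral.integral_const_mul, hG, intervalIntegral.integral_const, smul_eq_mul]
    rfl
  have h3 : (b - a) * (C₀ * (1 + K ^ 2) * e ^ 2) ≤ C₀ * (1 + K ^ 2) * |T| * e ^ 2 := by
    have h4 : b - a ≤ |T| := hbT.trans (le_abs_self T)
    calc (b - a) * (C₀ * (1 + K ^ 2) * e ^ 2) ≤ |T| * (C₀ * (1 + K ^ 2) * e ^ 2) :=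
          mul_le_mul_of_nonneg_right h4 (by positivity)
      _ = _ := by ring
  have h5 : act L (fun t => X t + e * (l₀ + l₁ * (t - a))) (fun t => W t + e * l₁) a b ≤
      act L X W a b + e * (d2 L (X b) (W b) b * (l₀ + l₁ * (b - a)) -
        d2 L (X a) (W a) a * l₀) + (b - a) * (C₀ * (1 + K ^ 2) * e ^ 2) := by
    rw [← h2]
    exact h1
  linarith

/-- The perturbed curve is a curve. -/
theorem var_cv {X W : ℝ → ℝ} (h : Sol L X W) {a b : ℝ} (hab : a ≤ b) (l₀ l₁ e : ℝ) :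
    Cv (fun t => X t + e * (l₀ + l₁ * (t - a))) (fun t => W t + e * l₁) a b := by
  have h1 := cv_affine (sol_cv h hab) (e * l₀) (e * l₁)
  have h2 : (fun t => X t + e * (l₀ + l₁ * (t - a))) =
      fun t => X t + (e * l₀ + e * l₁ * (t - a)) := by
    funext t
    ring
  rw [h2]
  exact h1

end Pool.Agent.NOne
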