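import Pool.Agent.NOne.AAut

/-!
# MP_74f563_an, n = 1, file BAct: the action of the solutions, first variation

PROOFS.
`ana_fa`.  On `E = ℝ × ℝ × ℝ × ℝ` (coordinates `x, v, t, a`) the vector field
`F (x, v, t, a) = (v, acc L x v t, 1, L x v t)` is analytic (`acc_ana`, `Ton.ana`); its flow is
`Φ s (x, v, t, a) = (AF L s (x, v, t), a + ∫₀^s L(..) )`: define
`Φ s z = ((AF L s z').1, (AF L s z').2.1, (AF L s z').2.2, z.a + ∫ τ in 0..s, L (AF L τ z').1 (AF L τ z').2.1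
(AF L τ z').2.2)` with `z' = (x, v, t)`, use `af_zero`, `af_deriv` and the fundamental theorem of calculus.
`flow_analytic` (BFlow) gives analyticity in `(s, z)`.  At `t = 0`, `a = 0`: `FA L s x v` is the last
component (`fx_af`).
`fa_deriv`: `HasDerivAt (fun t => FA L t x v) (L (FX L t x v) (FW L t x v) t) t`, FTC.
`fa_dv`.  Let `A t = ∂_v FA(t, x, v)`, `J t = ∂_v FX`, `K t = ∂_v FW`, `P t = d2 L (FX) (FW) t`.  By the
symmetry of second derivatives: `A' = ∂_v (L(FX, FW, t)) = d1 L · J + d2 L · K`, `J' = K`,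
`P' = d1 L (FX) (FW) t` (`sol_mom`, `fx_sol`).  So `(A - P J)' = d1 L J + d2 L K - d1 L J - P K = 0`
and `A 0 = 0`, `J 0 = 0` (`FX L 0 x v = x`, `FA L 0 x v = 0`), hence `A = P J`.
`fa_dx`.  The same with `∂_x`: `A 0 = 0`, `J 0 = 1`, so `A - P J = - P 0`, `P 0 = d2 L x v 0`.
`fa_add`.  Additivity of the integral, `fx_add`, `fw_add` and the periodicity of `L` in `t`
(substitution `τ ↦ τ + k`), `k` a natural number.
`fa_int`: `fx_int`, `fw_int`, `Ton.perx` (`per_int`).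
-/

set_option autoImplicit false

namespace Pool.Agent.NOne

open Set MeasureTheory

variable {L : ℝ → ℝ → ℝ → ℝ}

private theorem sol_lag_cont (hL : Ton L) {X W : ℝ → ℝ} (h : Sol L X W) (c : ℝ) :
    Continuous fun τ : ℝ => L (X (c + τ)) (W (c + τ)) (c + τ) := by
  have h1 : Continuous fun τ : ℝ => c + τ := by fun_prop
  exact (ana_continuous hL.ana).comp
    (((sol_cont h).1.comp h1).prodMk (((sol_cont h).2.comp h1).prodMk h1))

private theorem lag_cont (hL : Ton L) (x v : ℝ) :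
    Continuous fun τ : ℝ => L (FX L τ x v) (FW L τ x v) τ := by
  have h := sol_lag_cont hL (fx_sol hL x v) 0
  simpa using h

/-- the extended flow -/
private noncomputable def EF (L : ℝ → ℝ → ℝ → ℝ) (s : ℝ) (z : ℝ × ℝ × ℝ × ℝ) : ℝ × ℝ × ℝ × ℝ :=
  ((AF L s (z.1, z.2.1, z.2.2.1)).1, (AF L s (z.1, z.2.1, z.2.2.1)).2.1,
    (AF L s (z.1, z.2.1, z.2.2.1)).2.2,
    z.2.2.2 + ∫ τ in (0 : ℝ)..s, L (AF L τ (z.1, z.2.1, z.2.2.1)).1
      (AF L τ (z.1, z.2.1, z.2.2.1)).2.1 (AF L τ (z.1, z.2.1, z.2.2.1)).2.2)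

private theorem ef_deriv (hL : Ton L) (z : ℝ × ℝ × ℝ × ℝ) (s : ℝ) :
    HasDerivAt (fun s => EF L s z)
      ((EF L s z).2.1, acc L (EF L s z).1 (EF L s z).2.1 (EF L s z).2.2.1, 1,
        L (EF L s z).1 (EF L s z).2.1 (EF L s z).2.2.1) s := by
  obtain ⟨x, v, c, a⟩ := z
  obtain ⟨X, W, h, hx, hw⟩ := hL.compl c x v
  have h1 : ∀ s, AF L s (x, v, c) = (X (c + s), W (c + s), c + s) := by
    intro s
    have h1 := af_sol hL h c s
    rw [hx, hw] at h1
    exact h1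
  have h2 : ∀ s, EF L s (x, v, c, a) = (X (c + s), W (c + s), c + s,
      a + ∫ τ in (0 : ℝ)..s, L (X (c + τ)) (W (c + τ)) (c + τ)) := by
    intro s
    simp only [EF, h1]
  have e : (fun s => EF L s (x, v, c, a)) = fun s => (X (c + s), W (c + s), c + s,
      a + ∫ τ in (0 : ℝ)..s, L (X (c + τ)) (W (c + τ)) (c + τ)) := funext h2
  rw [e, h2 s]
  have h3 := (h.pos (c + s)).comp_const_add c s
  have h4 := (h.vel (c + s)).comp_const_add c s
  have h5 : HasDerivAt (fun s : ℝ => c + s) 1 s := (hasDerivAt_id s).const_add c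
  have h6 : HasDerivAt (fun s : ℝ => ∫ τ in (0 : ℝ)..s, L (X (c + τ)) (W (c + τ)) (c + τ))
      (L (X (c + s)) (W (c + s)) (c + s)) s :=
    ((sol_lag_cont hL h c).integral_hasStrictDerivAt 0 s).hasDerivAt
  exact h3.prodMk (h4.prodMk (h5.prodMk (h6.const_add a)))

private theorem ef_zero (hL : Ton L) (z : ℝ × ℝ × ℝ × ℝ) : EF L 0 z = z := by
  obtain ⟨x, v, c, a⟩ := z
  simp only [EF, af_zero hL, intervalIntegral.integral_same, add_zero]

theorem ana_fa (hL : Ton L) : AnalyticOnNhd ℝ (fun z : ℝ × ℝ × ℝ => FA L z.1 z.2.1 z.2.2) univ := by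
  have hf : AnalyticOnNhd ℝ (fun p : ℝ × ℝ × ℝ × ℝ × ℝ => EF L p.1 p.2) univ := by
    refine flow_analytic (E := ℝ × ℝ × ℝ × ℝ) (fun z => (z.2.1, acc L z.1 z.2.1 z.2.2.1, 1,
      L z.1 z.2.1 z.2.2.1)) ?_ (EF L) (ef_zero hL) (ef_deriv hL)
    intro z _
    have h1 : AnalyticAt ℝ (fun z : ℝ × ℝ × ℝ × ℝ => z.2.1) z :=
      analyticAt_fst.comp analyticAt_snd
    have h0 : AnalyticAt ℝ (fun z : ℝ × ℝ × ℝ × ℝ => ((z.1, z.2.1, z.2.2.1) : ℝ × ℝ × ℝ)) z :=
      analyticAt_fst.prod (h1.prod (analyticAt_fst.comp (analyticAt_snd.comp analyticAt_snd)))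
    have h2 : AnalyticAt ℝ (fun z : ℝ × ℝ × ℝ × ℝ => acc L z.1 z.2.1 z.2.2.1) z :=
      AnalyticAt.comp (g := fun z : ℝ × ℝ × ℝ => acc L z.1 z.2.1 z.2.2)
        (f := fun z : ℝ × ℝ × ℝ × ℝ => ((z.1, z.2.1, z.2.2.1) : ℝ × ℝ × ℝ))
        (acc_ana hL _ (mem_univ _)) h0
    have h3 : AnalyticAt ℝ (fun z : ℝ × ℝ × ℝ × ℝ => L z.1 z.2.1 z.2.2.1) z :=
      AnalyticAt.comp (g := fun z : ℝ × ℝ × ℝ => L z.1 z.2.1 z.2.2)
        (f := fun z : ℝ × ℝ × ℝ × ℝ => ((z.1, z.2.1, z.2.2.1) : ℝ × ℝ × ℝ))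
        (hL.ana _ (mem_univ _)) h0
    exact h1.prod (h2.prod (analyticAt_const.prod h3))
  have e : (fun z : ℝ × ℝ × ℝ => FA L z.1 z.2.1 z.2.2) =
      fun z => (EF L z.1 (z.2.1, z.2.2, 0, 0)).2.2.2 := by
    funext z
    simp only [EF, fx_af hL, FA, zero_add]
  rw [e]
  intro z _
  have h1 : AnalyticAt ℝ
      (fun z : ℝ × ℝ × ℝ => ((z.1, z.2.1, z.2.2, 0, 0) : ℝ × ℝ × ℝ × ℝ × ℝ)) z :=
    analyticAt_fst.prod ((analyticAt_fst.comp analyticAt_snd).prod
      ((analyticAt_snd.comp analyticAt_snd).prod (analyticAt_const.prod analyticAt_const)))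
  have h2 : AnalyticAt ℝ (fun z : ℝ × ℝ × ℝ => EF L z.1 (z.2.1, z.2.2, 0, 0)) z :=
    AnalyticAt.comp (g := fun p : ℝ × ℝ × ℝ × ℝ × ℝ => EF L p.1 p.2)
      (f := fun z : ℝ × ℝ × ℝ => ((z.1, z.2.1, z.2.2, 0, 0) : ℝ × ℝ × ℝ × ℝ × ℝ))
      (hf _ (mem_univ _)) h1
  exact (analyticAt_snd.comp (analyticAt_snd.comp analyticAt_snd)).comp h2

theorem fa_deriv (hL : Ton L) (t x v : ℝ) :
    HasDerivAt (fun t => FA L t x v) (L (FX L t x v) (FW L t x v) t) t :=
  ((lag_cont hL x v).integral_hasStrictDerivAt 0 t).hasDerivAt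

private theorem ana_symm {F : ℝ → ℝ → ℝ → ℝ} (h : Ana F) (x v t : ℝ) :
    d1 (d2 F) x v t = d2 (d1 F) x v t ∧ d1 (d3 F) x v t = d3 (d1 F) x v t := by
  set Fu : ℝ × ℝ × ℝ → ℝ := fun z => F z.1 z.2.1 z.2.2 with hFu
  have hF : ContDiff ℝ 2 Fu := ana_contDiff h 2
  have hd : Differentiable ℝ Fu := hF.differentiable (by norm_num)
  have hG : ContDiff ℝ 1 (fderiv ℝ Fu) := hF.fderiv_right (by norm_num)
  have hGd : Differentiable ℝ (fderiv ℝ Fu) := hG.differentiable (by norm_num)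
  have c1 : ∀ x v t : ℝ, HasDerivAt (fun y : ℝ => ((y, v, t) : ℝ × ℝ × ℝ)) (1, 0, 0) x :=
    fun x v t => (hasDerivAt_id x).prodMk ((hasDerivAt_const x v).prodMk (hasDerivAt_const x t))
  have c2 : ∀ x v t : ℝ, HasDerivAt (fun y : ℝ => ((x, y, t) : ℝ × ℝ × ℝ)) (0, 1, 0) v :=
    fun x v t => (hasDerivAt_const v x).prodMk ((hasDerivAt_id v).prodMk (hasDerivAt_const v t))
  have c3 : ∀ x v t : ℝ, HasDerivAt (fun y : ℝ => ((x, v, y) : ℝ × ℝ × ℝ)) (0, 0, 1) t :=
    fun x v t => (hasDerivAt_const t x).prodMk ((hasDerivAt_const t v).prodMk (hasDerivAt_id t))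
  have e1 : ∀ x v t, d1 F x v t = fderiv ℝ Fu (x, v, t) (1, 0, 0) := by
    intro x v t
    have h1 : HasFDerivAt Fu (fderiv ℝ Fu (x, v, t)) (x, v, t) := (hd (x, v, t)).hasFDerivAt
    exact (h1.comp_hasDerivAt x (c1 x v t)).deriv
  have e2 : ∀ x v t, d2 F x v t = fderiv ℝ Fu (x, v, t) (0, 1, 0) := by
    intro x v t
    have h1 : HasFDerivAt Fu (fderiv ℝ Fu (x, v, t)) (x, v, t) := (hd (x, v, t)).hasFDerivAt
    exact (h1.comp_hasDerivAt v (c2 x v t)).deriv
  have e3 : ∀ x v t, d3 F x v t = fderiv ℝ Fu (x, v, t) (0, 0, 1) := by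
    intro x v t
    have h1 : HasFDerivAt Fu (fderiv ℝ Fu (x, v, t)) (x, v, t) := (hd (x, v, t)).hasFDerivAt
    exact (h1.comp_hasDerivAt t (c3 x v t)).deriv
  have g1 : ∀ w : ℝ × ℝ × ℝ, deriv (fun y => fderiv ℝ Fu (y, v, t) w) x =
      fderiv ℝ (fderiv ℝ Fu) (x, v, t) (1, 0, 0) w := by
    intro w
    have h1 := (hGd (x, v, t)).hasFDerivAt.comp_hasDerivAt x (c1 x v t)
    have h2 := h1.clm_apply (hasDerivAt_const x w)
    simpa using h2.deriv
  have g2 : ∀ w : ℝ × ℝ × ℝ, deriv (fun y => fderiv ℝ Fu (x, y, t) w) v =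
      fderiv ℝ (fderiv ℝ Fu) (x, v, t) (0, 1, 0) w := by
    intro w
    have h1 := (hGd (x, v, t)).hasFDerivAt.comp_hasDerivAt v (c2 x v t)
    have h2 := h1.clm_apply (hasDerivAt_const v w)
    simpa using h2.deriv
  have g3 : ∀ w : ℝ × ℝ × ℝ, deriv (fun y => fderiv ℝ Fu (x, v, y) w) t =
      fderiv ℝ (fderiv ℝ Fu) (x, v, t) (0, 0, 1) w := by
    intro w
    have h1 := (hGd (x, v, t)).hasFDerivAt.comp_hasDerivAt t (c3 x v t)
    have h2 := h1.clm_apply (hasDerivAt_const t w)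
    simpa using h2.deriv
  have hs : IsSymmSndFDerivAt ℝ Fu (x, v, t) :=
    hF.contDiffAt.isSymmSndFDerivAt (by simp)
  constructor
  · change deriv (fun y => d2 F y v t) x = deriv (fun w => d1 F x w t) v
    simp only [e1, e2]
    rw [g1, g2]
    exact hs _ _
  · change deriv (fun y => d3 F y v t) x = deriv (fun s => d1 F x v s) t
    simp only [e1, e3]
    rw [g1, g3]
    exact hs _ _

private theorem fv_key {A J P K a : ℝ → ℝ} (hA : ∀ t, HasDerivAt A (a t * J t + P t * K t) t)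
    (hJ : ∀ t, HasDerivAt J (K t) t) (hP : ∀ t, HasDerivAt P (a t) t) (t : ℝ) :
    A t = P t * J t + (A 0 - P 0 * J 0) := by
  have h1 : ∀ t, HasDerivAt (fun t => A t - P t * J t) 0 t := by
    intro t
    have h2 := (hA t).sub ((hP t).mul (hJ t))
    have e : a t * J t + P t * K t - (a t * J t + P t * K t) = 0 := by ring
    rw [e] at h2
    exact h2
  have h3 := is_const_of_deriv_eq_zero (f := fun t => A t - P t * J t)
    (fun t => (h1 t).differentiableAt) (fun t => (h1 t).deriv) t 0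
  linarith

private theorem ana_FX (hL : Ton L) : Ana (FX L) := ana_fx hL

private theorem ana_FW (hL : Ton L) : Ana (FW L) := ana_fw hL

private theorem ana_FA (hL : Ton L) : Ana (FA L) := ana_fa hL

private theorem d1_FX (hL : Ton L) : d1 (FX L) = FW L := by
  funext t x v
  exact ((fx_sol hL x v).pos t).deriv

private theorem d1_FA (hL : Ton L) :
    d1 (FA L) = fun t x v => L (FX L t x v) (FW L t x v) t := by
  funext t x v
  exact (fa_deriv hL t x v).deriv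

theorem fa_dv (hL : Ton L) (t x v : ℝ) :
    HasDerivAt (fun v => FA L t x v)
      (d2 L (FX L t x v) (FW L t x v) t * deriv (fun v => FX L t x v) v) v := by
  have h0 := ana_hd3 (ana_FA hL) t x v
  have hA : ∀ t, HasDerivAt (fun t => d3 (FA L) t x v)
      (d1 L (FX L t x v) (FW L t x v) t * d3 (FX L) t x v +
        d2 L (FX L t x v) (FW L t x v) t * d3 (FW L) t x v) t := by
    intro t
    have h1 := ana_hd1 (ana_d3 (ana_FA hL)) t x v
    rw [(ana_symm (ana_FA hL) t x v).2, d1_FA hL] at h1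
    have h2 := ana_chain hL.ana (ana_hd3 (ana_FX hL) t x v) (ana_hd3 (ana_FW hL) t x v)
      (hasDerivAt_const v t)
    have h3 : d3 (fun t x v => L (FX L t x v) (FW L t x v) t) t x v = _ := h2.deriv
    rw [h3, mul_zero, add_zero] at h1
    exact h1
  have hJ : ∀ t, HasDerivAt (fun t => d3 (FX L) t x v) (d3 (FW L) t x v) t := by
    intro t
    have h1 := ana_hd1 (ana_d3 (ana_FX hL)) t x v
    rw [(ana_symm (ana_FX hL) t x v).2, d1_FX hL] at h1
    exact h1
  have hP : ∀ t, HasDerivAt (fun t => d2 L (FX L t x v) (FW L t x v) t)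
      (d1 L (FX L t x v) (FW L t x v) t) t := fun t => sol_mom hL (fx_sol hL x v) t
  have h4 := fv_key hA hJ hP t
  have e1 : d3 (FA L) 0 x v = 0 := by
    change deriv (fun v => FA L 0 x v) v = 0
    simp [FA]
  have e2 : d3 (FX L) 0 x v = 0 := by
    change deriv (fun v => FX L 0 x v) v = 0
    simp [fx_zero hL]
  simp only [e1, e2, mul_zero, sub_zero, add_zero] at h4
  rw [h4] at h0
  exact h0

theorem fa_dx (hL : Ton L) (t x v : ℝ) :
    HasDerivAt (fun x => FA L t x v)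
      (d2 L (FX L t x v) (FW L t x v) t * deriv (fun x => FX L t x v) x - d2 L x v 0) x := by
  have h0 := ana_hd2 (ana_FA hL) t x v
  have hA : ∀ t, HasDerivAt (fun t => d2 (FA L) t x v)
      (d1 L (FX L t x v) (FW L t x v) t * d2 (FX L) t x v +
        d2 L (FX L t x v) (FW L t x v) t * d2 (FW L) t x v) t := by
    intro t
    have h1 := ana_hd1 (ana_d2 (ana_FA hL)) t x v
    rw [(ana_symm (ana_FA hL) t x v).1, d1_FA hL] at h1
    have h2 := ana_chain hL.ana (ana_hd2 (ana_FX hL) t x v) (ana_hd2 (ana_FW hL) t x v)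
      (hasDerivAt_const x t)
    have h3 : d2 (fun t x v => L (FX L t x v) (FW L t x v) t) t x v = _ := h2.deriv
    rw [h3, mul_zero, add_zero] at h1
    exact h1
  have hJ : ∀ t, HasDerivAt (fun t => d2 (FX L) t x v) (d2 (FW L) t x v) t := by
    intro t
    have h1 := ana_hd1 (ana_d2 (ana_FX hL)) t x v
    rw [(ana_symm (ana_FX hL) t x v).1, d1_FX hL] at h1
    exact h1
  have hP : ∀ t, HasDerivAt (fun t => d2 L (FX L t x v) (FW L t x v) t)
      (d1 L (FX L t x v) (FW L t x v) t) t := fun t => sol_mom hL (fx_sol hL x v) t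
  have h4 := fv_key hA hJ hP t
  have e1 : d2 (FA L) 0 x v = 0 := by
    change deriv (fun x => FA L 0 x v) x = 0
    simp [FA]
  have e2 : d2 (FX L) 0 x v = 1 := by
    change deriv (fun x => FX L 0 x v) x = 1
    simp [fx_zero hL]
  simp only [e1, e2, mul_one, zero_sub, fx_zero hL, fw_zero hL] at h4
  rw [h4, ← sub_eq_add_neg] at h0
  exact h0

theorem fa_add (hL : Ton L) (t x v : ℝ) (k : ℕ) :
    FA L (k + t) x v = FA L k x v + FA L t (FX L k x v) (FW L k x v) := by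
  have hc := lag_cont hL x v
  have h1 : ∫ τ in (0 : ℝ)..t, L (FX L τ (FX L k x v) (FW L k x v))
      (FW L τ (FX L k x v) (FW L k x v)) τ =
      ∫ τ in (k : ℝ)..(k + t), L (FX L τ x v) (FW L τ x v) τ := by
    have h2 := intervalIntegral.integral_comp_add_right
      (f := fun τ => L (FX L τ x v) (FW L τ x v) τ) (a := 0) (b := t) (k : ℝ)
    rw [zero_add, add_comm t (k : ℝ)] at h2
    rw [← h2]
    refine intervalIntegral.integral_congr fun τ _ => ?_
    have h3 := fx_add hL τ x v (k : ℤ)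
    have h4 := fw_add hL τ x v (k : ℤ)
    have h5 := pet_int hL.pert (FX L (τ + k) x v) (FW L (τ + k) x v) τ (k : ℤ)
    simp only [Int.cast_natCast] at h3 h4 h5
    rw [h5, h3, h4]
  unfold FA
  rw [h1, intervalIntegral.integral_add_adjacent_intervals (hc.intervalIntegrable _ _)
    (hc.intervalIntegrable _ _)]

theorem fa_int (hL : Ton L) (t x v : ℝ) (k : ℤ) : FA L t (x + k) v = FA L t x v := by
  unfold FA
  simp only [fx_int hL, fw_int hL, per_int hL.perx]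

end Pool.Agent.NOne
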