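import Pool.Agent.NOne.BGs
import Pool.Agent.NOne.KGen
import Pool.Agent.NOne.KSeq

/-!
# MP_74f563_an, n = 1, file BBd: from Theorem C to a band

`Coo` collects the coordinate `ξ`, the constant `β` and the function `B`.
`S a b = S1 (ξ a) (ξ b) / β²` equals `gS B a b` for `|b - a| < ρ`.

PROOFS.
`gS_dY`: by `S1_dY` and the chain rule the derivative of `b ↦ gS B a b` at `b` (`|b - a| < ρ`) is
`(d2 L (ξ b) (FW L q (ξ a) (nu (ξ a) (ξ b))) 0 - P0 (ξ b)) ξ' b / β²`; `gS_dx`: by `S1_dx` the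
derivative of `a ↦ gS B a b` is `(P0 (ξ a) - d2 L (ξ a) (nu (ξ a) (ξ b)) 0) ξ' a / β²`.
`match_vel` (the velocities match).  Let `a, b, c` have `|b - a| < ρ`, `|c - b| < ρ` and
`∂₂ gS (a, b) + ∂₁ gS (b, c) = 0`.  By the two formulas (with `ξ' b > 0`):
`d2 L (ξ b) (FW L q (ξ a) (nu (ξ a) (ξ b))) 0 = d2 L (ξ b) (nu (ξ b) (ξ c)) 0`, so
`FW L q (ξ a) (nu (ξ a) (ξ b)) = nu (ξ b) (ξ c)` (`sol_mom_eq` or `d2_strictMono`), and
`d2 L (ξ b) (nu (ξ b) (ξ c)) 0 = P0 (ξ b) + β² ∂₂ gS (a, b) / ξ' b`.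
`band_core`.  `Q θ t = ξ (x θ t)`, `W θ t = nu (Q θ t) (Q (θ + ρ) t)`, `ρ = r (1 + t)`.
`orbQ`: `nu_spec`.
`orbW`: `match_vel` with `a = x θ`, `b = x(θ + ρ)`, `c = x(θ + 2ρ)`: `LeafC.el` at `θ + ρ` (note
`θ + ρ - ρ = θ`), increments by `LeafC.inc`.  Smoothness: compositions of `LeafC.smooth`, the map
`(θ, t) ↦ (θ + r (1 + t), t)` (which preserves `|t| < 1/4`), the analytic functions `ξ`, `nu`.
Periodicity: `LeafC.per`, `ξ (a + 1) = ξ a + 1`, `nu_per`.  `mono`: chain rule, `LeafC.mono`.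
-/

set_option autoImplicit false

namespace Pool.Agent.NOne

open Set MeasureTheory
open scoped ContDiff Topology

variable {L : ℝ → ℝ → ℝ → ℝ} {V : ℚ → ℝ → ℝ} {q : ℕ} {p : ℤ}

/-- the coordinate `ξ` and the function `B` near the rational circle `p / q` -/
structure Coo (L : ℝ → ℝ → ℝ → ℝ) (V : ℚ → ℝ → ℝ) (q : ℕ) (p : ℤ) (ξ : ℝ → ℝ) (β : ℝ)
    (σ ρ M : ℝ) (B : ℂ → ℂ → ℂ) : Prop where
  ana : AnalyticOnNhd ℝ ξ univ
  per : ∀ a, ξ (a + 1) = ξ a + 1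
  pos : ∀ a, 0 < deriv ξ a
  β_pos : 0 < β
  bd : BD σ ρ M B
  eq : ∀ a b : ℝ, |b - a| < ρ → S1 L V q p (ξ a) (ξ b) / β ^ 2 = gS B a b

private theorem xi_hd {ξ : ℝ → ℝ} {β σ ρ M : ℝ} {B : ℂ → ℂ → ℂ}
    (h : Coo L V q p ξ β σ ρ M B) (a : ℝ) : HasDerivAt ξ (deriv ξ a) a :=
  (h.ana a (mem_univ a)).differentiableAt.hasDerivAt

theorem gS_dY {ξ : ℝ → ℝ} {β σ ρ M : ℝ} {B : ℂ → ℂ → ℂ} (hC : C0I L V) (hq : 0 < q)
    (h : Coo L V q p ξ β σ ρ M B) {a b : ℝ} (hab : |b - a| < ρ) :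
    deriv (fun Y => gS B a Y) b = (d2 L (ξ b) (FW L q (ξ a) (nu L q p (ξ a) (ξ b))) 0 -
      P0 L V (p / q) (ξ b)) * deriv ξ b / β ^ 2 := by
  have h1 : HasDerivAt (fun Y => S1 L V q p (ξ a) (ξ Y) / β ^ 2)
      ((d2 L (ξ b) (FW L q (ξ a) (nu L q p (ξ a) (ξ b))) 0 -
        P0 L V (p / q) (ξ b)) * deriv ξ b / β ^ 2) b := by
    have h2 := (S1_dY (p := p) hC hq (ξ a) (ξ b)).comp b (xi_hd h b)
    exact h2.div_const _
  have h3 : (fun Y => gS B a Y) =ᶠ[𝓝 b] fun Y => S1 L V q p (ξ a) (ξ Y) / β ^ 2 := by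
    have h4 : {Y : ℝ | |Y - a| < ρ} ∈ 𝓝 b :=
      (isOpen_lt (by fun_prop) continuous_const).mem_nhds hab
    filter_upwards [h4] with Y hY
    exact (h.eq a Y hY).symm
  exact (h1.congr_of_eventuallyEq h3).deriv

theorem gS_dx {ξ : ℝ → ℝ} {β σ ρ M : ℝ} {B : ℂ → ℂ → ℂ} (hC : C0I L V) (hq : 0 < q)
    (h : Coo L V q p ξ β σ ρ M B) {a b : ℝ} (hab : |b - a| < ρ) :
    deriv (fun y => gS B y b) a = (P0 L V (p / q) (ξ a) -
      d2 L (ξ a) (nu L q p (ξ a) (ξ b)) 0) * deriv ξ a / β ^ 2 := by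
  have h1 : HasDerivAt (fun y => S1 L V q p (ξ y) (ξ b) / β ^ 2)
      ((P0 L V (p / q) (ξ a) - d2 L (ξ a) (nu L q p (ξ a) (ξ b)) 0) * deriv ξ a / β ^ 2) a := by
    have h2 := (S1_dx (p := p) hC hq (ξ a) (ξ b)).comp a (xi_hd h a)
    exact h2.div_const _
  have h3 : (fun y => gS B y b) =ᶠ[𝓝 a] fun y => S1 L V q p (ξ y) (ξ b) / β ^ 2 := by
    have h4 : {y : ℝ | |b - y| < ρ} ∈ 𝓝 a :=
      (isOpen_lt (by fun_prop) continuous_const).mem_nhds hab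
    filter_upwards [h4] with y hy
    exact (h.eq y b hy).symm
  exact (h1.congr_of_eventuallyEq h3).deriv

theorem match_vel {ξ : ℝ → ℝ} {β σ ρ M : ℝ} {B : ℂ → ℂ → ℂ} (hC : C0I L V) (hq : 0 < q)
    (h : Coo L V q p ξ β σ ρ M B) {a b c : ℝ} (hab : |b - a| < ρ) (hbc : |c - b| < ρ)
    (hel : deriv (fun Y => gS B a Y) b + deriv (fun y => gS B y c) b = 0) :
    FW L q (ξ a) (nu L q p (ξ a) (ξ b)) = nu L q p (ξ b) (ξ c) ∧
      d2 L (ξ b) (nu L q p (ξ b) (ξ c)) 0 =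
        P0 L V (p / q) (ξ b) + β ^ 2 * deriv (fun Y => gS B a Y) b / deriv ξ b := by
  have hβ : β ^ 2 ≠ 0 := (pow_pos h.β_pos 2).ne'
  have hξ : deriv ξ b ≠ 0 := (h.pos b).ne'
  have h1 := gS_dY hC hq h hab
  have h2 := gS_dx hC hq h hbc
  have h3 : d2 L (ξ b) (FW L q (ξ a) (nu L q p (ξ a) (ξ b))) 0 =
      d2 L (ξ b) (nu L q p (ξ b) (ξ c)) 0 := by
    rw [h1, h2] at hel
    have h4 : (d2 L (ξ b) (FW L q (ξ a) (nu L q p (ξ a) (ξ b))) 0 -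
        d2 L (ξ b) (nu L q p (ξ b) (ξ c)) 0) * (deriv ξ b / β ^ 2) = 0 := by
      linear_combination hel
    rcases mul_eq_zero.1 h4 with h5 | h5
    · linarith
    · exact absurd h5 (div_ne_zero hξ hβ)
  refine ⟨sol_mom_eq hC.ton h3, ?_⟩
  have hβ' : β ≠ 0 := h.β_pos.ne'
  rw [h1, h3]
  field_simp
  ring

theorem band_core {ξ : ℝ → ℝ} {β σ ρ M r : ℝ} {B : ℂ → ℂ → ℂ} (hC : C0I L V) (hq : 0 < q)
    (h : Coo L V q p ξ β σ ρ M B) {x : ℝ → ℝ → ℝ} (hx : LeafC B ρ r x) :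
    ContDiffOn ℝ ∞ (fun z : ℝ × ℝ => ξ (x z.1 z.2)) {z | |z.2| < 1 / 4} ∧
    ContDiffOn ℝ ∞ (fun z : ℝ × ℝ => nu L q p (ξ (x z.1 z.2))
      (ξ (x (z.1 + r * (1 + z.2)) z.2))) {z | |z.2| < 1 / 4} ∧
    ∀ θ t : ℝ, |t| < 1 / 4 → ξ (x (θ + 1) t) = ξ (x θ t) + 1 ∧
      nu L q p (ξ (x (θ + 1) t)) (ξ (x (θ + 1 + r * (1 + t)) t)) =
        nu L q p (ξ (x θ t)) (ξ (x (θ + r * (1 + t)) t)) ∧
      0 < deriv (fun z => ξ (x z t)) θ ∧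
      FX L q (ξ (x θ t)) (nu L q p (ξ (x θ t)) (ξ (x (θ + r * (1 + t)) t))) =
        ξ (x (θ + r * (1 + t)) t) + p ∧
      FW L q (ξ (x θ t)) (nu L q p (ξ (x θ t)) (ξ (x (θ + r * (1 + t)) t))) =
        nu L q p (ξ (x (θ + r * (1 + t)) t))
          (ξ (x (θ + r * (1 + t) + r * (1 + t)) t)) := by
  have hξ : ContDiff ℝ ∞ ξ := contDiffOn_univ.1 h.ana.contDiffOn_of_completeSpace
  have hν : ContDiff ℝ ∞ (fun z : ℝ × ℝ => nu L q p z.1 z.2) :=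
    contDiffOn_univ.1 (nu_ana hC hq).contDiffOn_of_completeSpace
  have h1 : ContDiffOn ℝ ∞ (fun z : ℝ × ℝ => ξ (x z.1 z.2)) {z | |z.2| < 1 / 4} :=
    hξ.comp_contDiffOn hx.smooth
  have h2 : ContDiffOn ℝ ∞ (fun z : ℝ × ℝ => x (z.1 + r * (1 + z.2)) z.2)
      {z | |z.2| < 1 / 4} := by
    have h3 : ContDiffOn ℝ ∞ (fun z : ℝ × ℝ => ((z.1 + r * (1 + z.2), z.2) : ℝ × ℝ))
        {z | |z.2| < 1 / 4} := by
      apply ContDiff.contDiffOn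
      fun_prop
    exact hx.smooth.comp h3 fun z hz => hz
  have h3 : ContDiffOn ℝ ∞ (fun z : ℝ × ℝ => ξ (x (z.1 + r * (1 + z.2)) z.2))
      {z | |z.2| < 1 / 4} := hξ.comp_contDiffOn h2
  refine ⟨h1, hν.comp_contDiffOn (h1.prodMk h3), fun θ t ht => ?_⟩
  have hp1 := hx.per θ t ht
  have hp2 : x (θ + 1 + r * (1 + t)) t = x (θ + r * (1 + t)) t + 1 := by
    rw [add_right_comm θ 1 (r * (1 + t)), hx.per _ t ht]
  refine ⟨?_, ?_, ?_, ?_, ?_⟩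
  · rw [hp1, h.per]
  · rw [hp1, hp2, h.per, h.per, nu_per hC hq]
  · have hm := hx.mono θ t ht
    have hd : HasDerivAt (fun z => x z t) (deriv (fun z => x z t) θ) θ :=
      (differentiableAt_of_deriv_ne_zero hm.ne').hasDerivAt
    have h4 : HasDerivAt (fun z => ξ (x z t)) (deriv ξ (x θ t) * deriv (fun z => x z t) θ) θ :=
      (xi_hd h (x θ t)).comp θ hd
    rw [h4.deriv]
    exact mul_pos (h.pos _) hm
  · exact nu_spec hC hq _ _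
  · have i1 := hx.inc θ t ht
    have i2 := hx.inc (θ + r * (1 + t)) t ht
    have i3 := hx.el (θ + r * (1 + t)) t ht
    rw [add_sub_cancel_right] at i3
    exact (match_vel hC hq h (abs_lt.2 ⟨by linarith, i1.2⟩) (abs_lt.2 ⟨by linarith, i2.2⟩) i3).1

end Pool.Agent.NOne
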