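import Pool.Agent.NOne.BFlow

/-!
# MP_74f563_an, n = 1, file BCoo: the coordinate in which the second derivative is constant

PROOF.  `b x = (deriv (deriv fun Y => S x Y) x) / 2 > 0`, analytic (partial derivatives of an analytic
function of two variables, restricted to the diagonal) and 1-periodic.  `g = √b` is analytic and
positive, `β = ∫_0^1 g > 0`, `G x = (1/β) ∫_0^x g`: analytic (a differentiable function whose derivative
is analytic; compare `analytic_of_deriv` in BGen.lean, which you may copy), `G' = g / β > 0`,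
`G (x + 1) = G x + 1`; so `G` is a bijection of `ℝ`, and `ξ = G⁻¹` is analytic (analytic inverse function
theorem: `ContDiffAt.to_localInverse`/`OpenPartialHomeomorph.contDiffAt_symm` with `n = ω`, or
`AnalyticAt.analyticAt_localInverse` in one variable), `ξ (a + 1) = ξ a + 1`, `ξ' a = β / g (ξ a) > 0`.
Second derivative of `b ↦ S (ξ a) (ξ b) / β²` at `b = a`: `(S_YY ξ'² + S_Y ξ'') / β²`, `S_Y = 0` on the
diagonal, `= 2 b(ξ a) (β / g (ξ a))² / β² = 2`.
-/

set_option autoImplicit false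

namespace Pool.Agent.NOne

open Set MeasureTheory

/-- a function with an analytic derivative is analytic (copy of the lemma in BGen) -/
private theorem bc_ana {f g : ℝ → ℝ} (hf : ∀ x, HasDerivAt f (g x) x)
    (hg : AnalyticOnNhd ℝ g univ) : AnalyticOnNhd ℝ f univ := by
  have h1 : AnalyticOnNhd ℝ (fun z : ℝ × ℝ => ((1 : ℝ), g z.1)) univ := fun z _ =>
    analyticAt_const.prod
      (AnalyticAt.comp_of_eq (g := g) (f := fun z : ℝ × ℝ => z.1) (hg z.1 trivial)
        analyticAt_fst rfl)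
  have h2 := flow_analytic (fun z : ℝ × ℝ => ((1 : ℝ), g z.1)) h1
    (fun t z => (z.1 + t, z.2 + (f (z.1 + t) - f z.1))) (fun z => by simp) (fun z t => by
      refine HasDerivAt.prodMk ?_ ?_
      · exact (hasDerivAt_id t).const_add z.1
      · exact (((hf (z.1 + t)).comp_const_add z.1 t).sub_const (f z.1)).const_add z.2)
  intro x _
  have h3 : AnalyticAt ℝ (fun t : ℝ => (fun p : ℝ × ℝ × ℝ =>
      ((p.2.1 + p.1, p.2.2 + (f (p.2.1 + p.1) - f p.2.1)) : ℝ × ℝ)) (t, ((0 : ℝ), (0 : ℝ)))) x :=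
    AnalyticAt.comp_of_eq (g := fun p : ℝ × ℝ × ℝ =>
      ((p.2.1 + p.1, p.2.2 + (f (p.2.1 + p.1) - f p.2.1)) : ℝ × ℝ))
      (f := fun t : ℝ => (t, ((0 : ℝ), (0 : ℝ)))) (h2 (x, (0, 0)) trivial)
      (analyticAt_id.prod analyticAt_const) rfl
  have h4 : AnalyticAt ℝ (fun t : ℝ => (0 : ℝ) + (f (0 + t) - f 0) + f 0) x :=
    (AnalyticAt.comp_of_eq (g := fun z : ℝ × ℝ => z.2) analyticAt_snd h3 rfl).add
      analyticAt_const
  have h5 : (fun t : ℝ => (0 : ℝ) + (f (0 + t) - f 0) + f 0) = f := by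
    funext t
    simp
  rwa [h5] at h4

/-- the partial derivative with respect to the second variable -/
private noncomputable def bcD (F : ℝ → ℝ → ℝ) : ℝ → ℝ → ℝ := fun x Y => deriv (fun Y => F x Y) Y

private theorem bc_slice {F : ℝ → ℝ → ℝ}
    (hF : AnalyticOnNhd ℝ (fun z : ℝ × ℝ => F z.1 z.2) univ) (x Y : ℝ) :
    HasDerivAt (fun Y => F x Y) (bcD F x Y) Y :=
  (AnalyticAt.comp_of_eq (g := fun z : ℝ × ℝ => F z.1 z.2) (f := fun Y : ℝ => (x, Y))
    (hF (x, Y) trivial) (analyticAt_const.prod analyticAt_id) rfl).differentiableAt.hasDerivAt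

private theorem bc_D {F : ℝ → ℝ → ℝ}
    (hF : AnalyticOnNhd ℝ (fun z : ℝ × ℝ => F z.1 z.2) univ) :
    AnalyticOnNhd ℝ (fun z : ℝ × ℝ => bcD F z.1 z.2) univ := by
  have e : (fun z : ℝ × ℝ => bcD F z.1 z.2) =
      fun z => (fderiv ℝ (fun z : ℝ × ℝ => F z.1 z.2) z) ((0 : ℝ), (1 : ℝ)) := by
    funext z
    have h1 := (hF z trivial).differentiableAt.hasFDerivAt
    have h2 : HasDerivAt (fun Y => F z.1 Y)
        ((fderiv ℝ (fun z : ℝ × ℝ => F z.1 z.2) z) (0, 1)) z.2 :=
      HasFDerivAt.comp_hasDerivAt (f := fun Y : ℝ => (z.1, Y)) z.2 h1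
        ((hasDerivAt_const z.2 z.1).prodMk (hasDerivAt_id z.2))
    exact h2.deriv
  rw [e]
  intro z _
  exact (ContinuousLinearMap.analyticAt
    (ContinuousLinearMap.apply ℝ ℝ ((0 : ℝ), (1 : ℝ))) _).comp (hF.fderiv z trivial)

theorem exists_coord {S : ℝ → ℝ → ℝ}
    (hana : AnalyticOnNhd ℝ (fun z : ℝ × ℝ => S z.1 z.2) univ)
    (hper : ∀ x Y, S (x + 1) (Y + 1) = S x Y) (h1 : ∀ x, deriv (fun Y => S x Y) x = 0)
    (h2 : ∀ x, 0 < deriv (deriv fun Y => S x Y) x) :
    ∃ (ξ : ℝ → ℝ) (β : ℝ), 0 < β ∧ AnalyticOnNhd ℝ ξ univ ∧ (∀ a, ξ (a + 1) = ξ a + 1) ∧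
      (∀ a, 0 < deriv ξ a) ∧ (∀ a, deriv (fun b => S (ξ a) (ξ b) / β ^ 2) a = 0) ∧
      ∀ a, deriv (deriv fun b => S (ξ a) (ξ b) / β ^ 2) a = 2 := by
  have d1 := bc_D hana
  have d2 := bc_D d1
  have e1 : ∀ x, bcD S x x = 0 := h1
  have e2 : ∀ x, 0 < bcD (bcD S) x x := h2
  set c : ℝ → ℝ := fun x => bcD (bcD S) x x / 2 with hc
  have hc0 : ∀ x, 0 < c x := fun x => by
    have := e2 x
    simp only [hc]
    linarith
  have hcper : ∀ x, c (x + 1) = c x := by
    have key : ∀ F : ℝ → ℝ → ℝ, (∀ x Y, F (x + 1) (Y + 1) = F x Y) →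
        ∀ x Y, bcD F (x + 1) (Y + 1) = bcD F x Y := by
      intro F hF x Y
      unfold bcD
      rw [← deriv_comp_add_const (fun Y => F (x + 1) Y) 1 Y]
      congr 1
      funext y
      exact hF x y
    intro x
    simp only [hc]
    rw [key _ (key _ hper)]
  have hcana : AnalyticOnNhd ℝ c univ := by
    intro x _
    have h3 : AnalyticAt ℝ (fun x => bcD (bcD S) x x) x :=
      AnalyticAt.comp_of_eq (g := fun z : ℝ × ℝ => bcD (bcD S) z.1 z.2)
        (f := fun x : ℝ => (x, x)) (d2 (x, x) trivial)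
        (analyticAt_id.prod analyticAt_id) rfl
    exact h3.div analyticAt_const two_ne_zero
  set g : ℝ → ℝ := fun x => √(c x) with hg
  have hg0 : ∀ x, 0 < g x := fun x => Real.sqrt_pos.2 (hc0 x)
  have hgper : Function.Periodic g 1 := fun x => by simp only [hg, hcper]
  have hgana : AnalyticOnNhd ℝ g univ := by
    rw [← contDiff_omega_iff_analyticOnNhd]
    exact contDiff_iff_contDiffAt.2 fun x =>
      (Real.contDiffAt_sqrt (hc0 x).ne').comp x
        ((contDiff_omega_iff_analyticOnNhd.2 hcana).contDiffAt)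
  have hgcont : Continuous g := continuousOn_univ.1 hgana.continuousOn
  have hgint : ∀ a b : ℝ, IntervalIntegrable g volume a b :=
    fun a b => hgcont.intervalIntegrable a b
  set β : ℝ := ∫ x in (0 : ℝ)..1, g x with hβ
  have hβ0 : 0 < β := intervalIntegral.intervalIntegral_pos_of_pos (hgint 0 1) hg0 one_pos
  set G : ℝ → ℝ := fun x => (∫ τ in (0 : ℝ)..x, g τ) / β with hG
  have hGd : ∀ x, HasDerivAt G (g x / β) x := fun x =>
    (hgcont.integral_hasStrictDerivAt 0 x).hasDerivAt.div_const β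
  have hGper : ∀ x, G (x + 1) = G x + 1 := by
    intro x
    have h3 : ∫ τ in (0 : ℝ)..(x + 1), g τ = (∫ τ in (0 : ℝ)..x, g τ) + β := by
      rw [← intervalIntegral.integral_add_adjacent_intervals (hgint 0 x) (hgint x (x + 1)),
        hgper.intervalIntegral_add_eq x 0, zero_add]
    simp only [hG]
    rw [h3, add_div, div_self hβ0.ne']
  have hGana : AnalyticOnNhd ℝ G univ := bc_ana hGd fun x _ =>
    (hgana x trivial).div analyticAt_const hβ0.ne'
  have hGmono : StrictMono G := by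
    refine strictMono_of_deriv_pos fun x => ?_
    rw [(hGd x).deriv]
    exact div_pos (hg0 x) hβ0
  have hGcont : Continuous G := continuousOn_univ.1 hGana.continuousOn
  have hGint : ∀ (x : ℝ) (n : ℕ), G (x + n) = G x + n := by
    intro x n
    induction n with
    | zero => simp
    | succ n ih =>
      push_cast
      rw [← add_assoc, hGper, ih]
      ring
  have hGsurj : Function.Surjective G := by
    intro y
    obtain ⟨n, hn⟩ := exists_nat_ge (|y - G 0|)
    have h3 := abs_le.1 hn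
    have h4 : G n = G 0 + n := by
      have := hGint 0 n
      rwa [zero_add] at this
    have h5 : G (-n) = G 0 - n := by
      have := hGint (-n) n
      rw [neg_add_cancel] at this
      linarith
    have h6 : y ∈ Icc (G (-n)) (G n) := ⟨by rw [h5]; linarith, by rw [h4]; linarith⟩
    obtain ⟨x, -, hx⟩ := intermediate_value_Icc (f := G)
      (by have : (0 : ℝ) ≤ n := Nat.cast_nonneg n; linarith) hGcont.continuousOn h6
    exact ⟨x, hx⟩
  let e : ℝ ≃ₜ ℝ := (hGmono.orderIsoOfSurjective G hGsurj).toHomeomorph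
  have he : ∀ x, e x = G x := fun _ => rfl
  set ξ : ℝ → ℝ := fun a => e.symm a with hξ
  have hGξ : ∀ a, G (ξ a) = a := fun a => e.apply_symm_apply a
  have hξana : AnalyticOnNhd ℝ ξ univ := by
    rw [← contDiff_omega_iff_analyticOnNhd]
    exact Homeomorph.contDiff_symm_deriv e (f' := fun x => g x / β)
      (fun x => (div_pos (hg0 x) hβ0).ne') hGd (contDiff_omega_iff_analyticOnNhd.2 hGana)
  have hξd : ∀ a, HasDerivAt ξ (β / g (ξ a)) a := by
    intro a
    have h3 := HasDerivAt.of_local_left_inverse (f := G) (g := ξ) (a := a)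
      (hξana a trivial).continuousAt (hGd (ξ a)) (div_pos (hg0 _) hβ0).ne'
      (Filter.Eventually.of_forall hGξ)
    rwa [inv_div] at h3
  have hξd' : deriv ξ = fun a => β / g (ξ a) := funext fun a => (hξd a).deriv
  have hS1 : ∀ a b, HasDerivAt (fun b => S (ξ a) (ξ b) / β ^ 2)
      (bcD S (ξ a) (ξ b) * deriv ξ b / β ^ 2) b := by
    intro a b
    have h3 : HasDerivAt ξ (deriv ξ b) b := (hξana b trivial).differentiableAt.hasDerivAt
    exact ((bc_slice hana (ξ a) (ξ b)).comp b h3).div_const _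
  refine ⟨ξ, β, hβ0, hξana, ?_, ?_, ?_, ?_⟩
  · intro a
    apply hGmono.injective
    rw [hGξ, hGper, hGξ]
  · intro a
    rw [hξd']
    exact div_pos hβ0 (hg0 _)
  · intro a
    rw [(hS1 a a).deriv, e1]
    simp
  · intro a
    have h3 : deriv (fun b => S (ξ a) (ξ b) / β ^ 2) =
        fun b => bcD S (ξ a) (ξ b) * deriv ξ b / β ^ 2 := funext fun b => (hS1 a b).deriv
    have h4 : HasDerivAt ξ (deriv ξ a) a := (hξana a trivial).differentiableAt.hasDerivAt
    have h5 : HasDerivAt (deriv ξ) (deriv (deriv ξ) a) a :=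
      (hξana.deriv a trivial).differentiableAt.hasDerivAt
    have h6 : HasDerivAt (fun b => bcD S (ξ a) (ξ b)) (bcD (bcD S) (ξ a) (ξ a) * deriv ξ a) a :=
      (bc_slice d1 (ξ a) (ξ a)).comp a h4
    have h7 := ((h6.mul h5).div_const (β ^ 2)).deriv
    rw [h3]
    refine h7.trans ?_
    rw [e1, hξd']
    have h8 : g (ξ a) * g (ξ a) = bcD (bcD S) (ξ a) (ξ a) / 2 :=
      Real.mul_self_sqrt (hc0 (ξ a)).le
    have h9 := (hg0 (ξ a)).ne'
    have h10 := hβ0.ne'
    have h11 : bcD (bcD S) (ξ a) (ξ a) = 2 * (g (ξ a) * g (ξ a)) := by linarith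
    rw [h11]
    field_simp
    ring

end Pool.Agent.NOne
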