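import Mathlib

/-!
# MP_74f563_an, n = 1, file BExa: local holomorphic extension of a real-analytic function of two
variables

PROOF.  Let `p` be the power series of `(x, y) ↦ G x y` at `(a, b)`, `‖p n‖ ≤ C R^{-n}`
(`HasFPowerSeriesAt`, `FormalMultilinearSeries.norm_le_div_pow_of_pos_lt_radius` or
`norm_mul_pow_le_of_lt_radius`).  Let `e₁ = (1, 0)`, `e₂ = (0, 1)` in `ℝ × ℝ`; for `T ⊆ Fin n` let
`e_T i = e₁` if `i ∈ T`, otherwise `e₂`.  Define continuous `ℂ`-multilinear maps on `ℂ × ℂ`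
`P n (v₁, ..., v_n) = ∑_{T ⊆ Fin n} p n (e_T) ∏_{i ∈ T} (v_i).1 ∏_{i ∉ T} (v_i).2`
(sum of products: `ContinuousMultilinearMap.mkPiAlgebra`/`mkPiRing` composed with the linear maps
`fst`, `snd`, or `MultilinearMap.mkContinuous`), `‖P n‖ ≤ 2^n ‖p n‖ ≤ C (R/2)^{-n}`.  So the formal
series `P` over `ℂ` has radius at least `R/2 > 0`; its sum `h` is analytic, hence complex
differentiable, on the ball of radius `R/2` (`FormalMultilinearSeries.hasFPowerSeriesOnBall`,
`HasFPowerSeriesOnBall.differentiableOn`).  For real `v = (x - a, y - b)` one has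
`P n (v, ..., v) = p n (v, ..., v)` by multilinearity (`v = v.1 e₁ + v.2 e₂`,
`MultilinearMap.map_add_univ`, `map_smul_univ`).  Put `H x y = h (x - a, y - b)` and take `s` smaller
than `R/2` and than the radius of convergence of `p` (norm on products: `max`).
-/

set_option autoImplicit false

namespace Pool.Agent.NOne

open Set
open scoped ENNReal NNReal

/-- the complexification of a power series in two real variables -/
private noncomputable def bexa_cx (p : FormalMultilinearSeries ℝ (ℝ × ℝ) ℝ) :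
    FormalMultilinearSeries ℂ (ℂ × ℂ) ℂ := fun n =>
  ∑ T : Finset (Fin n), ((p n (T.piecewise (fun _ => ((1 : ℝ), (0 : ℝ)))
      (fun _ => ((0 : ℝ), (1 : ℝ)))) : ℝ) : ℂ) •
    (ContinuousMultilinearMap.mkPiAlgebra ℂ (Fin n) ℂ).compContinuousLinearMap
      (T.piecewise (fun _ => ContinuousLinearMap.fst ℂ ℂ ℂ)
        (fun _ => ContinuousLinearMap.snd ℂ ℂ ℂ))

private theorem bexa_apply (p : FormalMultilinearSeries ℝ (ℝ × ℝ) ℝ) (n : ℕ)
    (v : Fin n → ℂ × ℂ) : bexa_cx p n v =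
      ∑ T : Finset (Fin n), ((p n (T.piecewise (fun _ => ((1 : ℝ), (0 : ℝ)))
        (fun _ => ((0 : ℝ), (1 : ℝ)))) : ℝ) : ℂ) *
        ∏ i, (if i ∈ T then (v i).1 else (v i).2) := by
  unfold bexa_cx
  rw [ContinuousMultilinearMap.sum_apply]
  refine Finset.sum_congr rfl fun T _ => ?_
  rw [ContinuousMultilinearMap.smul_apply, smul_eq_mul,
    ContinuousMultilinearMap.compContinuousLinearMap_apply,
    ContinuousMultilinearMap.mkPiAlgebra_apply]
  congr 1
  refine Finset.prod_congr rfl fun i _ => ?_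
  by_cases h : i ∈ T
  · rw [Finset.piecewise_eq_of_mem _ _ _ h, if_pos h]
    rfl
  · rw [Finset.piecewise_eq_of_notMem _ _ _ h, if_neg h]
    rfl

private theorem bexa_norm (p : FormalMultilinearSeries ℝ (ℝ × ℝ) ℝ) (n : ℕ) :
    ‖bexa_cx p n‖ ≤ 2 ^ n * ‖p n‖ := by
  refine ContinuousMultilinearMap.opNorm_le_bound (by positivity) fun v => ?_
  rw [bexa_apply]
  have h1 : ∀ T : Finset (Fin n), ‖((p n (T.piecewise (fun _ => ((1 : ℝ), (0 : ℝ)))
        (fun _ => ((0 : ℝ), (1 : ℝ)))) : ℝ) : ℂ) *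
        ∏ i, (if i ∈ T then (v i).1 else (v i).2)‖ ≤ ‖p n‖ * ∏ i, ‖v i‖ := by
    intro T
    rw [norm_mul, Complex.norm_real, norm_prod]
    refine mul_le_mul ?_ ?_ (by positivity) (norm_nonneg _)
    · refine ((p n).le_opNorm _).trans ?_
      refine mul_le_of_le_one_right (norm_nonneg _) ?_
      refine Finset.prod_le_one (fun i _ => norm_nonneg _) fun i _ => ?_
      by_cases h : i ∈ T
      · rw [Finset.piecewise_eq_of_mem _ _ _ h, Prod.norm_mk]
        simp
      · rw [Finset.piecewise_eq_of_notMem _ _ _ h, Prod.norm_mk]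
        simp
    · refine Finset.prod_le_prod (fun i _ => norm_nonneg _) fun i _ => ?_
      split_ifs
      · exact norm_fst_le (v i)
      · exact norm_snd_le (v i)
  calc ‖∑ T : Finset (Fin n), ((p n (T.piecewise (fun _ => ((1 : ℝ), (0 : ℝ)))
        (fun _ => ((0 : ℝ), (1 : ℝ)))) : ℝ) : ℂ) *
        ∏ i, (if i ∈ T then (v i).1 else (v i).2)‖
      ≤ ∑ _T : Finset (Fin n), ‖p n‖ * ∏ i, ‖v i‖ :=
        (norm_sum_le _ _).trans (Finset.sum_le_sum fun T _ => h1 T)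
    _ = 2 ^ n * ‖p n‖ * ∏ i, ‖v i‖ := by
        rw [Finset.sum_const, Finset.card_univ, Fintype.card_finset, Fintype.card_fin,
          nsmul_eq_mul]
        push_cast
        ring

private theorem bexa_real (p : FormalMultilinearSeries ℝ (ℝ × ℝ) ℝ) (n : ℕ) (x y : ℝ) :
    bexa_cx p n (fun _ => ((x : ℂ), (y : ℂ))) = ((p n fun _ => (x, y) : ℝ) : ℂ) := by
  rw [bexa_apply]
  have h1 : (fun _ : Fin n => (x, y)) = (fun _ : Fin n => x • ((1 : ℝ), (0 : ℝ))) +
      (fun _ : Fin n => y • ((0 : ℝ), (1 : ℝ))) := by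
    funext i
    simp
  rw [h1, ContinuousMultilinearMap.map_add_univ]
  push_cast
  refine Finset.sum_congr rfl fun T _ => ?_
  have h2 : T.piecewise (fun _ : Fin n => x • ((1 : ℝ), (0 : ℝ)))
      (fun _ : Fin n => y • ((0 : ℝ), (1 : ℝ))) = fun i => (if i ∈ T then x else y) •
        (T.piecewise (fun _ => ((1 : ℝ), (0 : ℝ))) (fun _ => ((0 : ℝ), (1 : ℝ)))) i := by
    funext i
    by_cases h : i ∈ T
    · rw [Finset.piecewise_eq_of_mem _ _ _ h, Finset.piecewise_eq_of_mem _ _ _ h, if_pos h]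
    · rw [Finset.piecewise_eq_of_notMem _ _ _ h, Finset.piecewise_eq_of_notMem _ _ _ h,
        if_neg h]
  rw [h2, ContinuousMultilinearMap.map_smul_univ, smul_eq_mul]
  push_cast
  rw [mul_comm]
  congr 1
  refine Finset.prod_congr rfl fun i _ => ?_
  split_ifs <;> rfl

theorem local_ext {G : ℝ → ℝ → ℝ} {a b : ℝ}
    (hG : AnalyticAt ℝ (fun z : ℝ × ℝ => G z.1 z.2) (a, b)) :
    ∃ s > (0 : ℝ), ∃ H : ℂ → ℂ → ℂ,
      DifferentiableOn ℂ (fun q : ℂ × ℂ => H q.1 q.2) {q | ‖q.1 - a‖ < s ∧ ‖q.2 - b‖ < s} ∧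
      ∀ x y : ℝ, |x - a| < s → |y - b| < s → H x y = ((G x y : ℝ) : ℂ) := by
  obtain ⟨p, r, hp⟩ := hG
  obtain ⟨r', hr'0, hr'⟩ := ENNReal.lt_iff_exists_nnreal_btwn.1 (hp.r_pos)
  have hr'0' : 0 < r' := by exact_mod_cast hr'0
  have hr'p : (r' : ℝ≥0∞) < p.radius := hr'.trans_le hp.r_le
  obtain ⟨C, -, hC⟩ := p.norm_mul_pow_le_of_lt_radius hr'p
  have hrad : ((r' / 2 : ℝ≥0) : ℝ≥0∞) ≤ (bexa_cx p).radius := by
    refine (bexa_cx p).le_radius_of_bound C fun n => ?_
    refine le_trans ?_ (hC n)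
    have h1 := bexa_norm p n
    have h2 : ((r' / 2 : ℝ≥0) : ℝ) ^ n = (r' : ℝ) ^ n / 2 ^ n := by
      push_cast
      rw [div_pow]
    rw [h2]
    calc ‖bexa_cx p n‖ * ((r' : ℝ) ^ n / 2 ^ n)
        ≤ 2 ^ n * ‖p n‖ * ((r' : ℝ) ^ n / 2 ^ n) :=
          mul_le_mul_of_nonneg_right h1 (by positivity)
      _ = ‖p n‖ * (r' : ℝ) ^ n := by
          field_simp
  have hr2 : 0 < r' / 2 := by positivity
  have hpos : 0 < (bexa_cx p).radius :=
    lt_of_lt_of_le (by exact_mod_cast hr2) hrad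
  have hP := (bexa_cx p).hasFPowerSeriesOnBall hpos
  refine ⟨((r' / 2 : ℝ≥0) : ℝ), by exact_mod_cast hr2,
    fun x y => (bexa_cx p).sum (x - a, y - b), ?_, ?_⟩
  · have h1 := hP.differentiableOn
    have h2 : DifferentiableOn ℂ (fun q : ℂ × ℂ => (q.1 - (a : ℂ), q.2 - (b : ℂ)))
        {q | ‖q.1 - a‖ < ((r' / 2 : ℝ≥0) : ℝ) ∧ ‖q.2 - b‖ < ((r' / 2 : ℝ≥0) : ℝ)} := by
      apply Differentiable.differentiableOn
      fun_prop
    refine h1.comp h2 ?_
    intro q hq
    rw [Metric.mem_eball, edist_zero_right]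
    refine lt_of_lt_of_le ?_ hrad
    rw [enorm_eq_nnnorm]
    have h3 : ‖(q.1 - (a : ℂ), q.2 - (b : ℂ))‖ < ((r' / 2 : ℝ≥0) : ℝ) := by
      rw [Prod.norm_mk]
      exact max_lt hq.1 hq.2
    exact_mod_cast h3
  · intro x y hx hy
    have h1 : (((x - a : ℝ) : ℂ), ((y - b : ℝ) : ℂ)) ∈
        Metric.eball (0 : ℂ × ℂ) (bexa_cx p).radius := by
      rw [Metric.mem_eball, edist_zero_right]
      refine lt_of_lt_of_le ?_ hrad
      rw [enorm_eq_nnnorm]
      have h3 : ‖(((x - a : ℝ) : ℂ), ((y - b : ℝ) : ℂ))‖ < ((r' / 2 : ℝ≥0) : ℝ) := by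
        rw [Prod.norm_mk, Complex.norm_real, Complex.norm_real]
        exact max_lt hx hy
      exact_mod_cast h3
    have h2 : (x - a, y - b) ∈ Metric.eball (0 : ℝ × ℝ) r := by
      rw [Metric.mem_eball, edist_zero_right]
      refine lt_trans ?_ hr'
      rw [enorm_eq_nnnorm]
      have h3 : ‖(x - a, y - b)‖ < (r' : ℝ) := by
        rw [Prod.norm_mk]
        have h4 : ((r' / 2 : ℝ≥0) : ℝ) ≤ r' := by
          push_cast
          linarith [r'.2]
        exact max_lt (lt_of_lt_of_le hx h4) (lt_of_lt_of_le hy h4)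
      exact_mod_cast h3
    have h3 := hP.hasSum h1
    have h4 := hp.hasSum h2
    have h5 : HasSum (fun n : ℕ => ((p n fun _ => (x - a, y - b) : ℝ) : ℂ))
        ((G x y : ℝ) : ℂ) := by
      have h6 := (Complex.hasSum_ofReal (f := fun n : ℕ => p n fun _ => (x - a, y - b))).2 h4
      simpa using h6
    rw [zero_add] at h3
    have h6 : (fun n : ℕ => bexa_cx p n fun _ => (((x - a : ℝ) : ℂ), ((y - b : ℝ) : ℂ))) =
        fun n : ℕ => ((p n fun _ => (x - a, y - b) : ℝ) : ℂ) := by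
      funext n
      exact bexa_real p n (x - a) (y - b)
    rw [h6] at h3
    have h7 := h3.unique h5
    have h8 : (((x : ℂ) - a), ((y : ℂ) - b)) = (((x - a : ℝ) : ℂ), ((y - b : ℝ) : ℂ)) := by
      push_cast
      rfl
    change (bexa_cx p).sum (((x : ℂ) - a), ((y : ℂ) - b)) = _
    rw [h8]
    exact h7

end Pool.Agent.NOne
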