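import Pool.Agent.NOne.BExa
import Pool.Agent.NOne.KDefs

/-!
# MP_74f563_an, n = 1, file BExb: holomorphic extension to a strip

`unique_ext`.  PROOF.  Let `D = H - H'`, holomorphic on the product of the convex sets
`{‖x - a‖ < s, ‖x - a'‖ < s}` and `{‖w‖ < s}`; if the set is not empty (`x` in it, then `conj x` is in it
and the real number `Re x` too).  For a real `w₀` with `|w₀| < s` the function `x ↦ D x w₀` is
holomorphic on the convex (preconnected) open first factor and vanishes at its real points, which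
accumulate at `Re x`; so it is zero (`AnalyticOnNhd.eqOn_zero_of_preconnected_of_frequently_eq_zero`,
`DifferentiableOn.analyticOnNhd`).  For fixed `x` in the first factor `w ↦ D x w` is holomorphic on the
disc and vanishes at the real points, so it is zero.

`uniform_ext`.  PROOF.  `local_ext` at all `(a, 0)`, `a ∈ [0, 1]`, radii `s_a`; finitely many intervals
`|x - a_i| < s_i / 4` cover `[0, 1]`; `s = min s_i / 4`.  For `x ∈ [0, 1]` in the `i`-th interval
`H_{a_i}` works on `‖z - x‖ < s`, `‖w‖ < s` (as `s_i/4 + s ≤ s_i / 2`), where it is bounded (the closure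
is compact in the domain of `H_{a_i}`); `M` = maximum of the finitely many bounds.  For other real `a`
translate by an integer (`G (x + 1) w = G x w`).

`strip_ext`.  PROOF.  Let `H_a` be as in `uniform_ext` (chosen for every real `a`), `σ = ρ = s / 2`, and
put `H x w = H_{Re x} x w` if `|Im x| < σ`, `‖w‖ < ρ`, and `0` otherwise.  Near `x₀` (`|x - x₀| < s/4`),
with `a₀ = Re x₀`, `a = Re x`: `H_a x w = H_{a₀} x w` by `unique_ext` (`|x - a| = |Im x| < s/2`,
`|x - a₀| < s/4 + s/2 < s`), so `H = H_{a₀}` near `(x₀, w₀)` and `H` is holomorphic.  Real points: clear.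
Bounded by `M`.  Periodicity: `(x, w) ↦ H_{a+1} (x + 1) w` and `H_a x w` have the same real values, so they
agree (`unique_ext`); outside of the domain both sides are `0`.  Reality: the same with
`conj H_a (conj x) (conj w)`, or replace `H` by `(H x w + conj H (conj x) (conj w)) / 2`.
-/

set_option autoImplicit false

namespace Pool.Agent.NOne

open Set Complex Metric
open scoped ComplexConjugate Topology

/-- zeros at the real points accumulate -/
private theorem bexb_freq {f : ℂ → ℂ} {x₀ : ℝ} (h : ∀ᶠ x : ℝ in 𝓝 x₀, f x = 0) :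
    ∃ᶠ z in 𝓝[≠] (x₀ : ℂ), f z = 0 := by
  have h1 : Filter.Tendsto (fun x : ℝ => (x : ℂ)) (𝓝[≠] x₀) (𝓝[≠] (x₀ : ℂ)) := by
    refine tendsto_nhdsWithin_of_tendsto_nhds_of_eventually_within _
      (Complex.continuous_ofReal.continuousAt.tendsto.mono_left nhdsWithin_le_nhds) ?_
    filter_upwards [self_mem_nhdsWithin] with x hx
    intro h2
    exact hx (Complex.ofReal_injective h2)
  exact h1.frequently (h.filter_mono nhdsWithin_le_nhds).frequently

/-- uniqueness, for separately holomorphic functions -/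
private theorem bexb_sep {D : ℂ → ℂ → ℂ} {U : Set ℂ} (hU : IsOpen U) (hUc : IsPreconnected U)
    {x₀ s : ℝ} (hx₀ : (x₀ : ℂ) ∈ U)
    (h1 : ∀ w : ℝ, |w| < s → DifferentiableOn ℂ (fun x => D x w) U)
    (h2 : ∀ x ∈ U, DifferentiableOn ℂ (fun w => D x w) (ball 0 s))
    (h0 : ∀ x w : ℝ, (x : ℂ) ∈ U → |w| < s → D x w = 0) :
    ∀ x ∈ U, ∀ w : ℂ, ‖w‖ < s → D x w = 0 := by
  intro x hx w hw
  have hs : 0 < s := (norm_nonneg w).trans_lt hw
  have h3 : ∀ w : ℝ, |w| < s → ∀ x ∈ U, D x w = 0 := by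
    intro w hw x hx
    have h4 : AnalyticOnNhd ℂ (fun x => D x w) U := (h1 w hw).analyticOnNhd hU
    refine h4.eqOn_zero_of_preconnected_of_frequently_eq_zero hUc hx₀ (bexb_freq ?_) hx
    have h5 : ∀ᶠ x : ℝ in 𝓝 x₀, (x : ℂ) ∈ U :=
      Complex.continuous_ofReal.continuousAt.eventually (hU.mem_nhds hx₀)
    filter_upwards [h5] with y hy
    exact h0 y w hy hw
  have h4 : AnalyticOnNhd ℂ (fun w => D x w) (ball 0 s) := (h2 x hx).analyticOnNhd isOpen_ball
  have h5 : (((0 : ℝ) : ℂ)) ∈ ball (0 : ℂ) s := by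
    rw [Complex.ofReal_zero]
    exact mem_ball_self hs
  refine h4.eqOn_zero_of_preconnected_of_frequently_eq_zero (convex_ball 0 s).isPreconnected h5
    (bexb_freq ?_) (by simpa using hw)
  have h6 : ∀ᶠ y : ℝ in 𝓝 (0 : ℝ), |y| < s := by
    filter_upwards [ball_mem_nhds (0 : ℝ) hs] with y hy
    simpa [Real.dist_eq] using hy
  filter_upwards [h6] with y hy
  exact h3 y hy x hx

private theorem bexb_left {H : ℂ → ℂ → ℂ} {U V : Set ℂ} {S : Set (ℂ × ℂ)}
    (hH : DifferentiableOn ℂ (fun q : ℂ × ℂ => H q.1 q.2) S) (hS : ∀ x ∈ U, ∀ w ∈ V, (x, w) ∈ S)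
    {w : ℂ} (hw : w ∈ V) : DifferentiableOn ℂ (fun x => H x w) U :=
  hH.comp (f := fun x : ℂ => (x, w)) (by fun_prop) fun x hx => hS x hx w hw

private theorem bexb_right {H : ℂ → ℂ → ℂ} {U V : Set ℂ} {S : Set (ℂ × ℂ)}
    (hH : DifferentiableOn ℂ (fun q : ℂ × ℂ => H q.1 q.2) S) (hS : ∀ x ∈ U, ∀ w ∈ V, (x, w) ∈ S)
    {x : ℂ} (hx : x ∈ U) : DifferentiableOn ℂ (fun w => H x w) V :=
  hH.comp (f := fun w : ℂ => (x, w)) (by fun_prop) fun w hw => hS x hx w hw

private theorem bexb_re {x : ℂ} {a s : ℝ} (h : ‖x - a‖ < s) : |x.re - a| < s := by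
  have h1 := Complex.abs_re_le_norm (x - a)
  rw [Complex.sub_re, Complex.ofReal_re] at h1
  exact h1.trans_lt h

private theorem bexb_norm {x a : ℝ} : ‖(x : ℂ) - a‖ = |x - a| := by
  rw [← Complex.ofReal_sub, Complex.norm_real, Real.norm_eq_abs]

theorem unique_ext {H H' : ℂ → ℂ → ℂ} {a a' s : ℝ}
    (hH : DifferentiableOn ℂ (fun q : ℂ × ℂ => H q.1 q.2) {q | ‖q.1 - a‖ < s ∧ ‖q.2‖ < s})
    (hH' : DifferentiableOn ℂ (fun q : ℂ × ℂ => H' q.1 q.2) {q | ‖q.1 - a'‖ < s ∧ ‖q.2‖ < s})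
    (h : ∀ x w : ℝ, |x - a| < s → |x - a'| < s → |w| < s → H x w = H' x w) {x w : ℂ}
    (hx : ‖x - a‖ < s) (hx' : ‖x - a'‖ < s) (hw : ‖w‖ < s) : H x w = H' x w := by
  have hUo : IsOpen (ball (a : ℂ) s ∩ ball (a' : ℂ) s) := isOpen_ball.inter isOpen_ball
  have hUc : IsPreconnected (ball (a : ℂ) s ∩ ball (a' : ℂ) s) :=
    ((convex_ball _ _).inter (convex_ball _ _)).isPreconnected
  have hS : ∀ x ∈ ball (a : ℂ) s ∩ ball (a' : ℂ) s, ∀ w ∈ ball (0 : ℂ) s,
      (x, w) ∈ {q : ℂ × ℂ | ‖q.1 - a‖ < s ∧ ‖q.2‖ < s} := by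
    intro x hx w hw
    refine ⟨?_, ?_⟩
    · simpa [dist_eq_norm] using hx.1
    · simpa using hw
  have hS' : ∀ x ∈ ball (a : ℂ) s ∩ ball (a' : ℂ) s, ∀ w ∈ ball (0 : ℂ) s,
      (x, w) ∈ {q : ℂ × ℂ | ‖q.1 - a'‖ < s ∧ ‖q.2‖ < s} := by
    intro x hx w hw
    refine ⟨?_, ?_⟩
    · simpa [dist_eq_norm] using hx.2
    · simpa using hw
  have hx₀ : ((x.re : ℝ) : ℂ) ∈ ball (a : ℂ) s ∩ ball (a' : ℂ) s := by
    refine ⟨?_, ?_⟩
    · rw [mem_ball, dist_eq_norm, bexb_norm]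
      exact bexb_re hx
    · rw [mem_ball, dist_eq_norm, bexb_norm]
      exact bexb_re hx'
  have hreal : ∀ w : ℝ, |w| < s → (w : ℂ) ∈ ball (0 : ℂ) s := fun w hw => by
    rw [mem_ball, dist_zero_right, Complex.norm_real]
    exact hw
  have key := bexb_sep (D := fun x w => H x w - H' x w) hUo hUc hx₀
    (fun w hw => (bexb_left hH hS (hreal w hw)).sub (bexb_left hH' hS' (hreal w hw)))
    (fun x hx => (bexb_right hH hS hx).sub (bexb_right hH' hS' hx))
    (fun x w hx hw => by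
      have e1 : |x - a| < s := by
        have := hx.1
        rwa [mem_ball, dist_eq_norm, bexb_norm] at this
      have e2 : |x - a'| < s := by
        have := hx.2
        rwa [mem_ball, dist_eq_norm, bexb_norm] at this
      exact sub_eq_zero.2 (h x w e1 e2 hw))
    x ⟨by simpa [dist_eq_norm] using hx, by simpa [dist_eq_norm] using hx'⟩ w hw
  exact sub_eq_zero.1 key

/-- there is an extension near `a` with radius `s` and bound `M` -/
private def bexb_EX (G : ℝ → ℝ → ℝ) (s M a : ℝ) : Prop :=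
  ∃ H : ℂ → ℂ → ℂ,
      DifferentiableOn ℂ (fun q : ℂ × ℂ => H q.1 q.2) {q | ‖q.1 - a‖ < s ∧ ‖q.2‖ < s} ∧
      (∀ x w : ℂ, ‖x - a‖ < s → ‖w‖ < s → ‖H x w‖ ≤ M) ∧
      ∀ x w : ℝ, |x - a| < s → |w| < s → H x w = ((G x w : ℝ) : ℂ)

private theorem bexb_mono {G : ℝ → ℝ → ℝ} {s s' M M' a : ℝ} (h : bexb_EX G s M a) (hs : s' ≤ s)
    (hM : M ≤ M') : bexb_EX G s' M' a := by
  obtain ⟨H, h1, h2, h3⟩ := h
  refine ⟨H, h1.mono fun q hq => ⟨hq.1.trans_le hs, hq.2.trans_le hs⟩, fun x w hx hw =>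
    (h2 x w (hx.trans_le hs) (hw.trans_le hs)).trans hM, fun x w hx hw =>
    h3 x w (hx.trans_le hs) (hw.trans_le hs)⟩

private theorem bexb_local {G : ℝ → ℝ → ℝ}
    (hG : AnalyticOnNhd ℝ (fun z : ℝ × ℝ => G z.1 z.2) univ) (a : ℝ) :
    ∃ s > (0 : ℝ), ∃ M : ℝ, ∀ x : ℝ, |x - a| < s → bexb_EX G s M x := by
  obtain ⟨r, hr, H, h1, h2⟩ := local_ext (hG (a, 0) trivial)
  simp only [Complex.ofReal_zero, sub_zero] at h1 h2
  have hcomp : IsCompact (closedBall (a : ℂ) (r / 2) ×ˢ closedBall (0 : ℂ) (r / 2)) :=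
    (isCompact_closedBall _ _).prod (isCompact_closedBall _ _)
  have hsub : closedBall (a : ℂ) (r / 2) ×ˢ closedBall (0 : ℂ) (r / 2) ⊆
      {q : ℂ × ℂ | ‖q.1 - a‖ < r ∧ ‖q.2‖ < r} := by
    rintro q ⟨hq1, hq2⟩
    rw [mem_closedBall, dist_eq_norm] at hq1 hq2
    rw [sub_zero] at hq2
    exact ⟨by linarith, by linarith⟩
  obtain ⟨M, hM⟩ := hcomp.exists_bound_of_continuousOn (h1.continuousOn.mono hsub)
  refine ⟨r / 4, by positivity, M, fun x hx => ⟨H, ?_, ?_, ?_⟩⟩
  · refine h1.mono ?_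
    rintro q ⟨hq1, hq2⟩
    refine ⟨?_, by linarith⟩
    have h3 : ‖q.1 - a‖ ≤ ‖q.1 - x‖ + ‖(x : ℂ) - a‖ := norm_sub_le_norm_sub_add_norm_sub _ _ _
    rw [bexb_norm] at h3
    linarith
  · intro y w hy hw
    have h3 : ‖y - a‖ ≤ ‖y - x‖ + ‖(x : ℂ) - a‖ := norm_sub_le_norm_sub_add_norm_sub _ _ _
    rw [bexb_norm] at h3
    refine hM (y, w) ⟨?_, ?_⟩
    · rw [mem_closedBall, dist_eq_norm]
      linarith
    · rw [mem_closedBall, dist_zero_right]
      linarith
  · intro y w hy hw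
    refine h2 y w ?_ (by linarith)
    have h3 : |y - a| ≤ |y - x| + |x - a| := abs_sub_le _ _ _
    linarith

theorem uniform_ext {G : ℝ → ℝ → ℝ} (hG : AnalyticOnNhd ℝ (fun z : ℝ × ℝ => G z.1 z.2) univ)
    (hper : ∀ x w, G (x + 1) w = G x w) : ∃ s > (0 : ℝ), ∃ M : ℝ, ∀ a : ℝ, ∃ H : ℂ → ℂ → ℂ,
      DifferentiableOn ℂ (fun q : ℂ × ℂ => H q.1 q.2) {q | ‖q.1 - a‖ < s ∧ ‖q.2‖ < s} ∧
      (∀ x w : ℂ, ‖x - a‖ < s → ‖w‖ < s → ‖H x w‖ ≤ M) ∧
      ∀ x w : ℝ, |x - a| < s → |w| < s → H x w = ((G x w : ℝ) : ℂ) := by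
  have key : ∃ s > (0 : ℝ), ∃ M : ℝ, ∀ a ∈ Icc (0 : ℝ) 1, bexb_EX G s M a := by
    refine isCompact_Icc.induction_on (p := fun S => ∃ s > (0 : ℝ), ∃ M : ℝ, ∀ a ∈ S,
      bexb_EX G s M a) ⟨1, one_pos, 0, fun a ha => ha.elim⟩ ?_ ?_ ?_
    · rintro S T hST ⟨s, hs, M, h⟩
      exact ⟨s, hs, M, fun a ha => h a (hST ha)⟩
    · rintro S T ⟨s, hs, M, h⟩ ⟨s', hs', M', h'⟩
      refine ⟨min s s', lt_min hs hs', max M M', ?_⟩
      rintro a (ha | ha)
      · exact bexb_mono (h a ha) (min_le_left _ _) (le_max_left _ _)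
      · exact bexb_mono (h' a ha) (min_le_right _ _) (le_max_right _ _)
    · intro a _
      obtain ⟨s, hs, M, h⟩ := bexb_local hG a
      refine ⟨ball a s, mem_nhdsWithin_of_mem_nhds (ball_mem_nhds a hs), s, hs, M, ?_⟩
      intro x hx
      refine h x ?_
      rwa [mem_ball, Real.dist_eq] at hx
  obtain ⟨s, hs, M, h⟩ := key
  refine ⟨s, hs, M, fun a => ?_⟩
  obtain ⟨H, h1, h2, h3⟩ := h (Int.fract a) ⟨Int.fract_nonneg a, (Int.fract_lt_one a).le⟩
  have hn : ∀ x : ℂ, ‖x - (⌊a⌋ : ℂ) - ((Int.fract a : ℝ) : ℂ)‖ = ‖x - a‖ := by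
    intro x
    congr 1
    have : (a : ℂ) = (⌊a⌋ : ℂ) + ((Int.fract a : ℝ) : ℂ) := by
      have h4 := Int.floor_add_fract a
      calc (a : ℂ) = (((⌊a⌋ : ℝ) + Int.fract a : ℝ) : ℂ) := by rw [h4]
        _ = (⌊a⌋ : ℂ) + ((Int.fract a : ℝ) : ℂ) := by push_cast; rfl
    rw [this]
    ring
  refine ⟨fun x w => H (x - (⌊a⌋ : ℂ)) w, ?_, ?_, ?_⟩
  · refine h1.comp (f := fun q : ℂ × ℂ => (q.1 - (⌊a⌋ : ℂ), q.2)) (by fun_prop) ?_
    rintro q ⟨hq1, hq2⟩
    refine ⟨?_, hq2⟩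
    change ‖q.1 - (⌊a⌋ : ℂ) - ((Int.fract a : ℝ) : ℂ)‖ < s
    rw [hn]
    exact hq1
  · intro x w hx hw
    refine h2 _ w ?_ hw
    rw [hn]
    exact hx
  · intro x w hx hw
    have h4 : (x : ℂ) - (⌊a⌋ : ℂ) = ((x - ⌊a⌋ : ℝ) : ℂ) := by push_cast; rfl
    change H ((x : ℂ) - (⌊a⌋ : ℂ)) w = _
    rw [h4, h3 (x - ⌊a⌋) w ?_ hw]
    · congr 1
      have h5 : Function.Periodic (fun x => G x w) 1 := fun x => hper x w
      have h6 := h5.sub_zsmul_eq (x := x) ⌊a⌋
      simpa using h6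
    · have h7 : x - (⌊a⌋ : ℝ) - Int.fract a = x - a := by
        have := Int.floor_add_fract a
        linarith
      rw [h7]
      exact hx

theorem strip_ext {G : ℝ → ℝ → ℝ} (hG : AnalyticOnNhd ℝ (fun z : ℝ × ℝ => G z.1 z.2) univ)
    (hper : ∀ x w, G (x + 1) w = G x w) : ∃ σ > (0 : ℝ), ∃ M : ℝ, ∃ H : ℂ → ℂ → ℂ,
      DifferentiableOn ℂ (fun q : ℂ × ℂ => H q.1 q.2) {q | |q.1.im| < σ ∧ ‖q.2‖ < σ} ∧
      (∀ x w : ℂ, |x.im| < σ → ‖w‖ < σ → ‖H x w‖ ≤ M) ∧ Per H ∧ RSym H ∧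
      ∀ x w : ℝ, |w| < σ → H x w = ((G x w : ℝ) : ℂ) := by
  classical
  obtain ⟨s, hs, M, h⟩ := uniform_ext hG hper
  choose K hK1 hK2 hK3 using h
  have him : ∀ x : ℂ, ‖x - (x.re : ℂ)‖ = |x.im| := by
    intro x
    have : x - (x.re : ℂ) = (x.im : ℂ) * Complex.I := by
      apply Complex.ext <;> simp
    rw [this, norm_mul, Complex.norm_I, mul_one, Complex.norm_real, Real.norm_eq_abs]
  set H : ℂ → ℂ → ℂ := fun x w => if |x.im| < s / 2 ∧ ‖w‖ < s / 2 then K x.re x w else 0 with hH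
  have hin : ∀ x w : ℂ, |x.im| < s / 2 → ‖w‖ < s / 2 → H x w = K x.re x w := by
    intro x w hx hw
    simp only [hH]
    rw [if_pos ⟨hx, hw⟩]
  have hout : ∀ x w : ℂ, ¬ (|x.im| < s / 2 ∧ ‖w‖ < s / 2) → H x w = 0 := by
    intro x w hx
    simp only [hH]
    rw [if_neg hx]
  refine ⟨s / 2, by positivity, M, H, ?_, ?_, ?_, ?_, ?_⟩
  · rintro ⟨x₀, w₀⟩ ⟨hx₀, hw₀⟩
    simp only at hx₀ hw₀
    have c1 : Continuous fun q : ℂ × ℂ => ‖q.1 - (x₀.re : ℂ)‖ := by fun_prop
    have c2 : Continuous fun q : ℂ × ℂ => ‖q.2‖ := by fun_prop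
    have c3 : Continuous fun q : ℂ × ℂ => |q.1.im| :=
      (Complex.continuous_im.comp continuous_fst).abs
    have hS : IsOpen {q : ℂ × ℂ | ‖q.1 - (x₀.re : ℂ)‖ < s ∧ ‖q.2‖ < s} :=
      (isOpen_lt c1 continuous_const).and (isOpen_lt c2 continuous_const)
    have hmem : ((x₀, w₀) : ℂ × ℂ) ∈ {q : ℂ × ℂ | ‖q.1 - (x₀.re : ℂ)‖ < s ∧ ‖q.2‖ < s} := by
      refine ⟨?_, ?_⟩
      · change ‖x₀ - (x₀.re : ℂ)‖ < s
        rw [him]
        linarith
      · change ‖w₀‖ < s
        linarith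
    have hd : DifferentiableAt ℂ (fun q : ℂ × ℂ => K x₀.re q.1 q.2) (x₀, w₀) :=
      (hK1 x₀.re).differentiableAt (hS.mem_nhds hmem)
    refine DifferentiableAt.differentiableWithinAt (hd.congr_of_eventuallyEq ?_)
    have hT : IsOpen {q : ℂ × ℂ | (|q.1.im| < s / 2 ∧ ‖q.2‖ < s / 2) ∧ ‖q.1 - (x₀.re : ℂ)‖ < s} :=
      ((isOpen_lt c3 continuous_const).and (isOpen_lt c2 continuous_const)).and
        (isOpen_lt c1 continuous_const)
    filter_upwards [hT.mem_nhds (x := (x₀, w₀)) ⟨⟨hx₀, hw₀⟩, hmem.1⟩] with q hq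
    obtain ⟨⟨hq1, hq2⟩, hq3⟩ := hq
    rw [hin q.1 q.2 hq1 hq2]
    refine unique_ext (hK1 q.1.re) (hK1 x₀.re) (fun x w e1 e2 e3 => ?_) ?_ hq3 (by linarith)
    · rw [hK3 _ x w e1 e3, hK3 _ x w e2 e3]
    · rw [him]
      linarith
  · intro x w hx hw
    rw [hin x w hx hw]
    refine hK2 _ x w ?_ (by linarith)
    rw [him]
    linarith
  · intro x w
    by_cases hc : |x.im| < s / 2 ∧ ‖w‖ < s / 2
    · have hc' : |(x + 1).im| < s / 2 := by
        rw [Complex.add_im, Complex.one_im, add_zero]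
        exact hc.1
      rw [hin _ _ hc' hc.2, hin _ _ hc.1 hc.2]
      have hre : (x + 1).re = x.re + 1 := by rw [Complex.add_re, Complex.one_re]
      have hd : DifferentiableOn ℂ (fun q : ℂ × ℂ => K (x.re + 1) (q.1 + 1) q.2)
          {q | ‖q.1 - (x.re : ℂ)‖ < s ∧ ‖q.2‖ < s} := by
        refine (hK1 (x.re + 1)).comp (f := fun q : ℂ × ℂ => (q.1 + 1, q.2)) (by fun_prop) ?_
        rintro q ⟨hq1, hq2⟩
        refine ⟨?_, hq2⟩
        change ‖q.1 + 1 - ((x.re + 1 : ℝ) : ℂ)‖ < s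
        have : q.1 + 1 - ((x.re + 1 : ℝ) : ℂ) = q.1 - (x.re : ℂ) := by push_cast; ring
        rw [this]
        exact hq1
      rw [hre]
      have hx1 : ‖x - (x.re : ℂ)‖ < s := by
        rw [him]
        linarith [hc.1]
      refine unique_ext (H := fun x w => K ((Complex.re _) + 1) (x + 1) w) hd (hK1 x.re)
        (fun y v e1 e2 e3 => ?_) hx1 hx1 (by linarith [hc.2])
      have e4 : ((y : ℂ) + 1) = ((y + 1 : ℝ) : ℂ) := by push_cast; rfl
      change K (x.re + 1) ((y : ℂ) + 1) v = K x.re y v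
      rw [e4, hK3 (x.re + 1) (y + 1) v (by
        have : y + 1 - (x.re + 1) = y - x.re := by ring
        rw [this]
        exact e1) e3, hK3 x.re y v e1 e3, hper]
    · have hc' : ¬ (|(x + 1).im| < s / 2 ∧ ‖w‖ < s / 2) := by
        rw [Complex.add_im, Complex.one_im, add_zero]
        exact hc
      rw [hout _ _ hc', hout _ _ hc]
  · intro x w
    by_cases hc : |x.im| < s / 2 ∧ ‖w‖ < s / 2
    · have hc1 : |(conj x).im| < s / 2 := by
        rw [Complex.conj_im, abs_neg]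
        exact hc.1
      have hc2 : ‖conj w‖ < s / 2 := by
        rw [Complex.norm_conj]
        exact hc.2
      rw [hin _ _ hc1 hc2, hin _ _ hc.1 hc.2, Complex.conj_re]
      set a : ℝ := x.re with ha
      have hUc : IsPreconnected (ball (a : ℂ) s) := (convex_ball _ _).isPreconnected
      have hS : ∀ x ∈ ball (a : ℂ) s, ∀ w ∈ ball (0 : ℂ) s,
          (x, w) ∈ {q : ℂ × ℂ | ‖q.1 - a‖ < s ∧ ‖q.2‖ < s} := by
        intro x hx w hw
        refine ⟨?_, ?_⟩
        · simpa [dist_eq_norm] using hx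
        · simpa using hw
      have hreal : ∀ w : ℝ, |w| < s → (w : ℂ) ∈ ball (0 : ℂ) s := fun w hw => by
        rw [mem_ball, dist_zero_right, Complex.norm_real]
        exact hw
      have hconj : ∀ y ∈ ball (a : ℂ) s, conj y ∈ ball (a : ℂ) s := by
        intro y hy
        rw [mem_ball, dist_eq_norm] at hy ⊢
        have : conj y - (a : ℂ) = conj (y - (a : ℂ)) := by
          rw [map_sub, Complex.conj_ofReal]
        rw [this, Complex.norm_conj]
        exact hy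
      have hconj0 : ∀ y ∈ ball (0 : ℂ) s, conj y ∈ ball (0 : ℂ) s := by
        intro y hy
        rw [mem_ball, dist_zero_right] at hy ⊢
        rw [Complex.norm_conj]
        exact hy
      have key := bexb_sep (D := fun x w => K a x w - conj (K a (conj x) (conj w)))
        (U := ball (a : ℂ) s) (x₀ := a) (s := s) isOpen_ball hUc (mem_ball_self hs)
        (fun w hw => by
          refine (bexb_left (hK1 a) hS (hreal w hw)).sub ?_
          intro y hy
          refine DifferentiableAt.differentiableWithinAt ?_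
          have h1 : DifferentiableAt ℂ (fun x => K a x w) (conj y) :=
            (bexb_left (hK1 a) hS (hreal w hw)).differentiableAt
              (isOpen_ball.mem_nhds (hconj y hy))
          have h2 := h1.conj_conj
          rw [Complex.conj_conj] at h2
          have h3 : (fun x => conj (K a (conj x) (conj (w : ℂ)))) =
              conj ∘ (fun x => K a x w) ∘ conj := by
            funext x
            rw [Complex.conj_ofReal]
            rfl
          rw [h3]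
          exact h2)
        (fun y hy => by
          refine (bexb_right (hK1 a) hS hy).sub ?_
          intro v hv
          refine DifferentiableAt.differentiableWithinAt ?_
          have h1 : DifferentiableAt ℂ (fun w => K a (conj y) w) (conj v) :=
            (bexb_right (hK1 a) hS (hconj y hy)).differentiableAt
              (isOpen_ball.mem_nhds (hconj0 v hv))
          have h2 := h1.conj_conj
          rw [Complex.conj_conj] at h2
          exact h2)
        (fun y v hy hv => by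
          have e1 : |y - a| < s := by
            rwa [mem_ball, dist_eq_norm, bexb_norm] at hy
          simp only [Complex.conj_ofReal]
          rw [hK3 a y v e1 hv, Complex.conj_ofReal, sub_self])
        (conj x) (by
          apply hconj
          rw [mem_ball, dist_eq_norm, him]
          linarith [hc.1]) (conj w) (by
          rw [Complex.norm_conj]
          linarith [hc.2])
      simp only [Complex.conj_conj] at key
      exact sub_eq_zero.1 key
    · have hc' : ¬ (|(conj x).im| < s / 2 ∧ ‖conj w‖ < s / 2) := by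
        rw [Complex.conj_im, abs_neg, Complex.norm_conj]
        exact hc
      rw [hout _ _ hc', hout _ _ hc, map_zero]
  · intro x w hw
    have h1 : |((x : ℂ)).im| < s / 2 := by
      rw [Complex.ofReal_im, abs_zero]
      positivity
    have h2 : ‖(w : ℂ)‖ < s / 2 := by
      rw [Complex.norm_real]
      exact hw
    rw [hin _ _ h1 h2, Complex.ofReal_re]
    refine hK3 x x w ?_ (by linarith)
    rw [sub_self, abs_zero]
    exact hs

end Pool.Agent.NOne
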