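import Pool.Agent.NOne.BExb
import Pool.Agent.NOne.KHol
import Pool.Agent.MEP.SCV

/-!
# MP_74f563_an, n = 1, file BExc: the function `B`

PROOF.  Let `G a w = S a (a + w)`, real-analytic, 1-periodic in `a`; let `H`, `σ`, `M` be from
`strip_ext`.  For real `x`: `H x 0 = 0`, `(∂_w H)(x, 0) = 0`, `(∂_w² H)(x, 0) = 2` (real derivatives of
`w ↦ S x (x + w)` at `0`; complex derivatives at real points are the real ones).  The functions
`x ↦ H x 0`, `x ↦ p2 H x 0`, `x ↦ p2 (p2 H) x 0 - 2` are holomorphic on the strip (`hol_p_general`) and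
vanish on the real line, so they vanish on the strip (identity theorem).  Let `ρ = σ / 2` and
`B x w = H x w / w²` for `|Im x| < σ`, `0 < ‖w‖ < ρ`, `B x 0 = 1` for `|Im x| < σ`, `B x w = 0` for all
other `(x, w)`.  For `|Im x| < σ`, `‖w‖ < ρ`:
`B x w = (2πi)⁻¹ ∮_{|ζ| = ρ} H(x, ζ) / (ζ² (ζ - w)) dζ` (Cauchy's formula for the holomorphic function
`w ↦ B x w` on `‖w‖ < σ`: it is holomorphic because `H x ·` has a double zero at `0`, value
`∂_w² H / 2 = 1` at `0`), and the integral is holomorphic in `(x, w)`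
(`Pool.Agent.MEP.differentiableOn_circleIntegral_param`).  Bound: by the maximum principle on
`|w| = ρ`: `|B| ≤ M / ρ²`.  `BD.per`, `BD.real`: from `Per H`, `RSym H` and the symmetry of the
conditions.  `gS B a b = (b - a)² Re B(a, b - a) = Re H(a, b - a) = S a b` for `|b - a| < ρ` (also for
`b = a`, where both are `0`).
-/

set_option autoImplicit false

namespace Pool.Agent.NOne

open Set Complex
open scoped ComplexConjugate Real

/-- the complex derivative at a real point of an extension of a real function -/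
private theorem bexc_real {F : ℂ → ℂ} {g : ℝ → ℝ} {w₀ : ℝ} (hF : DifferentiableAt ℂ F w₀)
    (h : ∀ᶠ y : ℝ in nhds w₀, F y = ((g y : ℝ) : ℂ)) :
    deriv F w₀ = ((deriv g w₀ : ℝ) : ℂ) := by
  have h1 : HasDerivAt (fun y : ℝ => F y) (deriv F w₀) w₀ := hF.hasDerivAt.comp_ofReal
  have h2 : HasDerivAt (fun y : ℝ => ((g y : ℝ) : ℂ)) (deriv F w₀) w₀ :=
    h1.congr_of_eventuallyEq (by
      filter_upwards [h] with y hy
      exact hy.symm)
  have h3 : HasDerivAt g (deriv F w₀).re w₀ := by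
    have := (Complex.reCLM.hasFDerivAt (x := ((g w₀ : ℝ) : ℂ))).comp_hasDerivAt w₀ h2
    exact this
  have h4 : HasDerivAt (fun _ : ℝ => (0 : ℝ)) (deriv F w₀).im w₀ := by
    have := (Complex.imCLM.hasFDerivAt (x := ((g w₀ : ℝ) : ℂ))).comp_hasDerivAt w₀ h2
    have e : (Complex.imCLM ∘ fun y : ℝ => ((g y : ℝ) : ℂ)) = fun _ : ℝ => (0 : ℝ) := by
      funext y
      exact Complex.ofReal_im (g y)
    rw [← e]
    exact this
  have h5 : (deriv F w₀).im = 0 := h4.unique (hasDerivAt_const w₀ (0 : ℝ))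
  apply Complex.ext
  · rw [h3.deriv, Complex.ofReal_re]
  · rw [h5, Complex.ofReal_im]

private theorem bexc_open (s : ℝ) : IsOpen {z : ℂ | |z.im| < s} :=
  isOpen_lt (continuous_im.abs) continuous_const

/-- the identity theorem on a strip -/
private theorem bexc_strip {s : ℝ} {D : ℂ → ℂ}
    (hD : DifferentiableOn ℂ D {z | |z.im| < s}) (h0 : ∀ x : ℝ, D x = 0) {z : ℂ}
    (hz : |z.im| < s) : D z = 0 := by
  have hs : 0 < s := (abs_nonneg _).trans_lt hz
  have hc : Convex ℝ {z : ℂ | |z.im| < s} := by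
    intro x hx y hy a b ha hb hab
    have h1 := convex_Ioo (-s) s (abs_lt.1 hx) (abs_lt.1 hy) ha hb hab
    show |(a • x + b • y).im| < s
    rw [abs_lt]
    simpa using h1
  have hfr : ∃ᶠ z : ℂ in nhdsWithin 0 {0}ᶜ, D z = 0 := by
    have ht : Filter.Tendsto (fun x : ℝ => (x : ℂ)) (nhdsWithin 0 {0}ᶜ) (nhdsWithin 0 {0}ᶜ) := by
      rw [tendsto_nhdsWithin_iff]
      constructor
      · have := (Complex.continuous_ofReal.tendsto 0).mono_left
          (nhdsWithin_le_nhds (s := ({0}ᶜ : Set ℝ)))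
        rwa [Complex.ofReal_zero] at this
      · filter_upwards [self_mem_nhdsWithin] with x hx
        have hx' : x ≠ 0 := hx
        simpa using hx'
    exact ht.frequently (Filter.Eventually.frequently (Filter.Eventually.of_forall h0))
  have h0m : (0 : ℂ) ∈ {z : ℂ | |z.im| < s} := by
    show |(0 : ℂ).im| < s
    simpa using hs
  exact (hD.analyticOnNhd (bexc_open s)).eqOn_zero_of_preconnected_of_frequently_eq_zero
    hc.isPreconnected h0m hfr hz

/-- division by `w ^ 2` in one variable -/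
private theorem bexc_one {s : ℝ} (hs : 0 < s) {h : ℂ → ℂ}
    (hd : DifferentiableOn ℂ h (Metric.ball 0 s)) (h0 : h 0 = 0) (h1 : deriv h 0 = 0)
    (h2 : deriv (deriv h) 0 = 2) :
    DifferentiableOn ℂ (fun w => if w = 0 then (1 : ℂ) else h w / w ^ 2) (Metric.ball 0 s) := by
  have hn : Metric.ball (0 : ℂ) s ∈ nhds (0 : ℂ) := Metric.ball_mem_nhds 0 hs
  set k := dslope h 0 with hk
  have hkd : DifferentiableOn ℂ k (Metric.ball 0 s) := (Complex.differentiableOn_dslope hn).2 hd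
  have hk0 : k 0 = 0 := by rw [hk, dslope_same, h1]
  have hhk : ∀ w, h w = w * k w := by
    intro w
    have e := sub_smul_dslope h 0 w
    rw [h0, sub_zero, sub_zero, smul_eq_mul] at e
    exact e.symm
  have hk1 : deriv k 0 = 1 := by
    have e1 : deriv h =ᶠ[nhds 0] fun w => k w + w * deriv k w := by
      filter_upwards [hn] with w hw
      have hkw : DifferentiableAt ℂ k w := (hkd w hw).differentiableAt
        (Metric.isOpen_ball.mem_nhds hw)
      have e2 : HasDerivAt (fun w => w * k w) (1 * k w + w * deriv k w) w :=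
        (hasDerivAt_id w).mul hkw.hasDerivAt
      have e3 : h = fun w => w * k w := funext hhk
      rw [e3, e2.deriv, one_mul]
    have hkw : DifferentiableAt ℂ k 0 := (hkd 0 (Metric.mem_ball_self hs)).differentiableAt hn
    have hdk : DifferentiableAt ℂ (deriv k) 0 :=
      ((hkd.deriv Metric.isOpen_ball) 0 (Metric.mem_ball_self hs)).differentiableAt hn
    have e4 : HasDerivAt (fun w => k w + w * deriv k w)
        (deriv k 0 + (1 * deriv k 0 + 0 * deriv (deriv k) 0)) 0 :=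
      hkw.hasDerivAt.add ((hasDerivAt_id (0 : ℂ)).mul hdk.hasDerivAt)
    have e5 := e1.deriv_eq
    rw [h2, e4.deriv] at e5
    have e6 : (2 : ℂ) * deriv k 0 = 2 * 1 := by linear_combination -e5
    exact mul_left_cancel₀ two_ne_zero e6
  have hl : DifferentiableOn ℂ (dslope k 0) (Metric.ball 0 s) :=
    (Complex.differentiableOn_dslope hn).2 hkd
  refine hl.congr fun w _ => ?_
  by_cases hw : w = 0
  · rw [if_pos hw, hw, dslope_same, hk1]
  · rw [if_neg hw]
    have e := sub_smul_dslope k 0 w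
    rw [hk0, sub_zero, sub_zero, smul_eq_mul] at e
    rw [hhk w, ← e]
    field_simp

private theorem bexc_int {s : ℝ} (hs : 0 < s) {H : ℂ → ℂ → ℂ}
    (hH : DifferentiableOn ℂ (fun q : ℂ × ℂ => H q.1 q.2) {q | |q.1.im| < s ∧ ‖q.2‖ < s}) :
    DifferentiableOn ℂ (fun q : ℂ × ℂ => (2 * Real.pi * Complex.I : ℂ)⁻¹ *
        ∮ ζ in C(0, s / 2), (ζ - q.2)⁻¹ * (H q.1 ζ * (ζ ^ 2)⁻¹))
      {q | |q.1.im| < s ∧ ‖q.2‖ < s / 2} := by
  have hρ : 0 < s / 2 := by linarith
  have hQ : IsOpen {q : ℂ × ℂ | q.1 ≠ 0 ∧ |q.2.im| < s ∧ ‖q.1‖ < s} := by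
    have a1 : IsOpen {q : ℂ × ℂ | |q.2.im| < s} :=
      isOpen_lt ((continuous_im.comp continuous_snd).abs) continuous_const
    have a2 : IsOpen {q : ℂ × ℂ | ‖q.1‖ < s} :=
      isOpen_lt continuous_fst.norm continuous_const
    have a3 : IsOpen {q : ℂ × ℂ | q.1 ≠ 0} := isOpen_ne_fun continuous_fst continuous_const
    exact a3.inter (a1.inter a2)
  have hVo : IsOpen {q : ℂ × ℂ | |q.1.im| < s ∧ ‖q.2‖ < s} := by
    have a1 : IsOpen {q : ℂ × ℂ | |q.1.im| < s} :=
      isOpen_lt ((continuous_im.comp continuous_fst).abs) continuous_const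
    have a2 : IsOpen {q : ℂ × ℂ | ‖q.2‖ < s} :=
      isOpen_lt continuous_snd.norm continuous_const
    exact a1.inter a2
  have hg : DifferentiableOn ℂ (fun q : ℂ × ℂ => H q.2 q.1 * (q.1 ^ 2)⁻¹)
      {q : ℂ × ℂ | q.1 ≠ 0 ∧ |q.2.im| < s ∧ ‖q.1‖ < s} := by
    rintro ⟨ζ, x⟩ ⟨q1, q2, q3⟩
    have hm : (x, ζ) ∈ {q : ℂ × ℂ | |q.1.im| < s ∧ ‖q.2‖ < s} := ⟨q2, q3⟩
    have b1 : DifferentiableAt ℂ (fun q : ℂ × ℂ => H q.1 q.2) (x, ζ) :=
      (hH _ hm).differentiableAt (hVo.mem_nhds hm)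
    have b2 : DifferentiableAt ℂ (fun q : ℂ × ℂ => (q.2, q.1)) (ζ, x) := by fun_prop
    have b3 : DifferentiableAt ℂ (fun q : ℂ × ℂ => H q.2 q.1) (ζ, x) :=
      DifferentiableAt.comp (f := fun q : ℂ × ℂ => (q.2, q.1)) (ζ, x) b1 b2
    have b4 : DifferentiableAt ℂ (fun q : ℂ × ℂ => q.1 ^ 2) (ζ, x) := by fun_prop
    have b5 : DifferentiableAt ℂ (fun q : ℂ × ℂ => (q.1 ^ 2)⁻¹) (ζ, x) :=
      b4.inv (pow_ne_zero 2 q1)
    exact (b3.mul b5).differentiableWithinAt
  have hsub : Metric.sphere (0 : ℂ) (s / 2) ×ˢ {z : ℂ | |z.im| < s} ⊆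
      {q : ℂ × ℂ | q.1 ≠ 0 ∧ |q.2.im| < s ∧ ‖q.1‖ < s} := by
    rintro ⟨ζ, x⟩ ⟨q1, q2⟩
    have q3 : ‖ζ‖ = s / 2 := by
      rw [mem_sphere_zero_iff_norm] at q1
      exact q1
    refine ⟨?_, q2, ?_⟩
    · show ζ ≠ 0
      rintro rfl
      rw [norm_zero] at q3
      linarith
    · show ‖ζ‖ < s
      linarith
  have hmain := Pool.Agent.MEP.differentiableOn_circleIntegral_param hρ (bexc_open s) hQ hg hsub
  refine DifferentiableOn.const_mul ?_ _
  have b2 : DifferentiableOn ℂ (fun q : ℂ × ℂ => (q.2, q.1))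
      {q | |q.1.im| < s ∧ ‖q.2‖ < s / 2} := by
    apply Differentiable.differentiableOn
    fun_prop
  have hmaps : MapsTo (fun q : ℂ × ℂ => (q.2, q.1)) {q | |q.1.im| < s ∧ ‖q.2‖ < s / 2}
      (Metric.ball (0 : ℂ) (s / 2) ×ˢ {z : ℂ | |z.im| < s}) := by
    intro q hq
    refine ⟨?_, hq.1⟩
    show q.2 ∈ Metric.ball (0 : ℂ) (s / 2)
    rw [mem_ball_zero_iff]
    exact hq.2
  have h3 := hmain.comp b2 hmaps
  simp only [Function.comp_def] at h3
  exact h3

/-- properties of the holomorphic extension -/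
private theorem bexc_H {S : ℝ → ℝ → ℝ}
    (hana : AnalyticOnNhd ℝ (fun z : ℝ × ℝ => S z.1 z.2) univ)
    (hper : ∀ a b, S (a + 1) (b + 1) = S a b) (h0 : ∀ a, S a a = 0)
    (h1 : ∀ a, deriv (fun b => S a b) a = 0) (h2 : ∀ a, deriv (deriv fun b => S a b) a = 2) :
    ∃ s > (0 : ℝ), ∃ M : ℝ, ∃ H : ℂ → ℂ → ℂ,
      DifferentiableOn ℂ (fun q : ℂ × ℂ => H q.1 q.2) {q | |q.1.im| < s ∧ ‖q.2‖ < s} ∧
      (∀ x w : ℂ, |x.im| < s → ‖w‖ < s → ‖H x w‖ ≤ M) ∧ Per H ∧ RSym H ∧
      (∀ x w : ℝ, |w| < s → H x w = ((S x (x + w) : ℝ) : ℂ)) ∧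
      (∀ x : ℂ, |x.im| < s → DifferentiableOn ℂ (H x) (Metric.ball 0 s)) ∧
      (∀ x : ℂ, |x.im| < s → H x 0 = 0) ∧
      (∀ x : ℂ, |x.im| < s → deriv (H x) 0 = 0) ∧
      ∀ x : ℂ, |x.im| < s → deriv (deriv (H x)) 0 = 2 := by
  have hG : AnalyticOnNhd ℝ (fun z : ℝ × ℝ => (fun x w => S x (x + w)) z.1 z.2) univ := by
    have hlin : AnalyticOnNhd ℝ (fun z : ℝ × ℝ => (z.1, z.1 + z.2)) univ :=
      AnalyticOnNhd.prod analyticOnNhd_fst (analyticOnNhd_fst.add analyticOnNhd_snd)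
    exact hana.comp hlin (fun _ _ => mem_univ _)
  obtain ⟨s, hs, M, H, hH, hM, hP, hR, hreal⟩ := strip_ext (G := fun x w => S x (x + w)) hG
    (fun x w => by
      show S (x + 1) (x + 1 + w) = S x (x + w)
      rw [add_right_comm, hper])
  have hV : IsOpen {q : ℂ × ℂ | |q.1.im| < s ∧ ‖q.2‖ < s} := by
    have a1 : IsOpen {q : ℂ × ℂ | |q.1.im| < s} :=
      isOpen_lt ((continuous_im.comp continuous_fst).abs) continuous_const
    have a2 : IsOpen {q : ℂ × ℂ | ‖q.2‖ < s} :=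
      isOpen_lt continuous_snd.norm continuous_const
    exact a1.inter a2
  have hsl : ∀ (F : ℂ → ℂ → ℂ), DifferentiableOn ℂ (fun q : ℂ × ℂ => F q.1 q.2)
      {q | |q.1.im| < s ∧ ‖q.2‖ < s} → ∀ x : ℂ, |x.im| < s →
      DifferentiableOn ℂ (F x) (Metric.ball 0 s) := by
    intro F hF x hx w hw
    have hm : (x, w) ∈ {q : ℂ × ℂ | |q.1.im| < s ∧ ‖q.2‖ < s} :=
      ⟨hx, by rwa [mem_ball_zero_iff] at hw⟩
    have b1 : DifferentiableAt ℂ (fun q : ℂ × ℂ => F q.1 q.2) (x, w) :=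
      (hF _ hm).differentiableAt (hV.mem_nhds hm)
    have b2 : DifferentiableAt ℂ (fun z : ℂ => (x, z)) w := by fun_prop
    exact (DifferentiableAt.comp (f := fun z : ℂ => (x, z)) w b1 b2).differentiableWithinAt
  have hst : ∀ (F : ℂ → ℂ → ℂ), DifferentiableOn ℂ (fun q : ℂ × ℂ => F q.1 q.2)
      {q | |q.1.im| < s ∧ ‖q.2‖ < s} → DifferentiableOn ℂ (fun x => F x 0) {x | |x.im| < s} := by
    intro F hF x hx
    have hm : (x, (0 : ℂ)) ∈ {q : ℂ × ℂ | |q.1.im| < s ∧ ‖q.2‖ < s} :=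
      ⟨hx, by rwa [norm_zero]⟩
    have b1 : DifferentiableAt ℂ (fun q : ℂ × ℂ => F q.1 q.2) (x, 0) :=
      (hF _ hm).differentiableAt (hV.mem_nhds hm)
    have b2 : DifferentiableAt ℂ (fun z : ℂ => (z, (0 : ℂ))) x := by fun_prop
    exact (DifferentiableAt.comp (f := fun z : ℂ => (z, (0 : ℂ))) x b1 b2).differentiableWithinAt
  have hH2 := (hol_p_general hV hH).2.1
  have hH22 := (hol_p_general hV hH2).2.1
  have hreal2 : ∀ x w : ℝ, |w| < s →
      p2 H x w = ((deriv (fun b => S x b) (x + w) : ℝ) : ℂ) := by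
    intro x w hw
    have hwb : (w : ℂ) ∈ Metric.ball (0 : ℂ) s := by
      rw [mem_ball_zero_iff, Complex.norm_real, Real.norm_eq_abs]
      exact hw
    have c1 : DifferentiableAt ℂ (H x) (w : ℂ) :=
      ((hsl H hH x (by simpa using hs)) _ hwb).differentiableAt
        (Metric.isOpen_ball.mem_nhds hwb)
    have c2 := bexc_real (g := fun w => S x (x + w)) c1 (by
      have hO : IsOpen {y : ℝ | |y| < s} := isOpen_lt continuous_abs continuous_const
      filter_upwards [hO.mem_nhds hw] with y hy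
      exact hreal x y hy)
    show deriv (fun z => H x z) (w : ℂ) = _
    have c3 : deriv (fun w => S x (x + w)) w = deriv (fun b => S x b) (x + w) :=
      deriv_comp_const_add (fun b => S x b) x w
    rw [← c3]
    exact c2
  refine ⟨s, hs, M, H, hH, hM, hP, hR, hreal, hsl H hH, fun x hx => ?_, fun x hx => ?_,
    fun x hx => ?_⟩
  · refine bexc_strip (D := fun x => H x 0) (hst H hH) (fun y => ?_) hx
    have e := hreal y 0 (by simpa using hs)
    rw [add_zero, h0, Complex.ofReal_zero] at e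
    exact e
  · refine bexc_strip (D := fun x => p2 H x 0) (hst _ hH2) (fun y => ?_) hx
    have e := hreal2 y 0 (by simpa using hs)
    rw [add_zero, h1, Complex.ofReal_zero] at e
    exact e
  · have e := bexc_strip (D := fun x => p2 (p2 H) x 0 - 2) ((hst _ hH22).sub_const 2)
      (fun y => ?_) hx
    · exact sub_eq_zero.1 e
    · have c1 : DifferentiableAt ℂ (p2 H y) ((0 : ℝ) : ℂ) := by
        rw [Complex.ofReal_zero]
        exact ((hsl _ hH2 y (by simpa using hs)) _ (Metric.mem_ball_self hs)).differentiableAt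
          (Metric.ball_mem_nhds 0 hs)
      have c2 := bexc_real (g := fun w => deriv (fun b => S y b) (y + w)) c1 (by
        have hO : IsOpen {y : ℝ | |y| < s} := isOpen_lt continuous_abs continuous_const
        filter_upwards [hO.mem_nhds (show |(0 : ℝ)| < s by simpa using hs)] with w hw
        exact hreal2 y w hw)
      have c3 : deriv (fun w => deriv (fun b => S y b) (y + w)) 0 =
          deriv (deriv fun b => S y b) y := by
        rw [deriv_comp_const_add (deriv fun b => S y b) y 0, add_zero]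
      rw [c3, h2, Complex.ofReal_zero] at c2
      show deriv (p2 H y) 0 - 2 = 0
      rw [c2]
      norm_num

theorem exists_B {S : ℝ → ℝ → ℝ} (hana : AnalyticOnNhd ℝ (fun z : ℝ × ℝ => S z.1 z.2) univ)
    (hper : ∀ a b, S (a + 1) (b + 1) = S a b) (h0 : ∀ a, S a a = 0)
    (h1 : ∀ a, deriv (fun b => S a b) a = 0) (h2 : ∀ a, deriv (deriv fun b => S a b) a = 2) :
    ∃ (σ ρ M : ℝ) (B : ℂ → ℂ → ℂ), BD σ ρ M B ∧ ∀ a b : ℝ, |b - a| < ρ → S a b = gS B a b := by
  classical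
  obtain ⟨s, hs, M, H, hH, hM, hP, hR, hreal, hsl, hz0, hz1, hz2⟩ := bexc_H hana hper h0 h1 h2
  have hρ : 0 < s / 2 := by linarith
  have hφ : ∀ x : ℂ, |x.im| < s → DifferentiableOn ℂ
      (fun w => if w = 0 then (1 : ℂ) else H x w / w ^ 2) (Metric.ball 0 s) := fun x hx =>
    bexc_one hs (hsl x hx) (hz0 x hx) (hz1 x hx) (hz2 x hx)
  have hcl : ∀ x : ℂ, |x.im| < s → DiffContOnCl ℂ
      (fun w => if w = 0 then (1 : ℂ) else H x w / w ^ 2) (Metric.ball 0 (s / 2)) := by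
    intro x hx
    refine ((hφ x hx).mono ?_).diffContOnCl_ball subset_rfl
    exact Metric.closedBall_subset_ball (by linarith)
  refine ⟨s, s / 2, M / (s / 2) ^ 2, fun x w => if |x.im| < s ∧ ‖w‖ < s / 2 then
    (if w = 0 then (1 : ℂ) else H x w / w ^ 2) else 0, ⟨hs, hρ, ?_, ?_, ?_, ?_, ?_⟩, ?_⟩
  · -- holomorphic
    have hmain2 := bexc_int hs hH
    refine hmain2.congr ?_
    rintro ⟨x, w⟩ ⟨hx, hw⟩
    have hx' : |x.im| < s := hx
    have hw' : ‖w‖ < s / 2 := hw
    have hc := (hcl x hx').two_pi_i_inv_smul_circleIntegral_sub_inv_smul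
      (show w ∈ Metric.ball (0 : ℂ) (s / 2) by rwa [mem_ball_zero_iff])
    show (if |x.im| < s ∧ ‖w‖ < s / 2 then (if w = 0 then (1 : ℂ) else H x w / w ^ 2) else 0) = _
    rw [if_pos ⟨hx', hw'⟩, ← hc, smul_eq_mul]
    congr 1
    refine circleIntegral.integral_congr hρ.le fun ζ hζ => ?_
    have q3 : ‖ζ‖ = s / 2 := by
      rw [mem_sphere_zero_iff_norm] at hζ
      exact hζ
    have q4 : ζ ≠ 0 := by
      rintro rfl
      rw [norm_zero] at q3
      linarith
    show (ζ - w)⁻¹ • (if ζ = 0 then (1 : ℂ) else H x ζ / ζ ^ 2) =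
      (ζ - w)⁻¹ * (H x ζ * (ζ ^ 2)⁻¹)
    rw [if_neg q4, smul_eq_mul, div_eq_mul_inv]
  · -- bound
    intro x w hx hw
    show ‖if |x.im| < s ∧ ‖w‖ < s / 2 then (if w = 0 then (1 : ℂ) else H x w / w ^ 2) else 0‖ ≤ _
    rw [if_pos ⟨hx, hw⟩]
    refine Complex.norm_le_of_forall_mem_frontier_norm_le Metric.isBounded_ball (hcl x hx)
      (fun z hz => ?_) (subset_closure (by rwa [mem_ball_zero_iff]))
    rw [frontier_ball _ hρ.ne'] at hz
    have q3 : ‖z‖ = s / 2 := by
      rw [mem_sphere_zero_iff_norm] at hz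
      exact hz
    have q4 : z ≠ 0 := by
      rintro rfl
      rw [norm_zero] at q3
      linarith
    rw [if_neg q4, norm_div, norm_pow, q3]
    gcongr
    exact hM x z hx (by linarith)
  · -- value at zero
    intro x hx
    show (if |x.im| < s ∧ ‖(0 : ℂ)‖ < s / 2 then
      (if (0 : ℂ) = 0 then (1 : ℂ) else H x 0 / 0 ^ 2) else 0) = 1
    rw [if_pos ⟨hx, by rwa [norm_zero]⟩, if_pos rfl]
  · -- periodic
    intro x w
    have e : (x + 1).im = x.im := by simp
    show (if |(x + 1).im| < s ∧ ‖w‖ < s / 2 then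
        (if w = 0 then (1 : ℂ) else H (x + 1) w / w ^ 2) else 0) =
      if |x.im| < s ∧ ‖w‖ < s / 2 then (if w = 0 then (1 : ℂ) else H x w / w ^ 2) else 0
    rw [e, hP x w]
  · -- real
    intro x w
    have e1 : |(conj x).im| = |x.im| := by rw [conj_im, abs_neg]
    have e2 : ‖conj w‖ = ‖w‖ := RCLike.norm_conj w
    show (if |(conj x).im| < s ∧ ‖conj w‖ < s / 2 then
        (if conj w = 0 then (1 : ℂ) else H (conj x) (conj w) / (conj w) ^ 2) else 0) =
      conj (if |x.im| < s ∧ ‖w‖ < s / 2 then (if w = 0 then (1 : ℂ) else H x w / w ^ 2) else 0)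
    rw [e1, e2, hR x w]
    by_cases hc : |x.im| < s ∧ ‖w‖ < s / 2
    · rw [if_pos hc, if_pos hc]
      by_cases hw : w = 0
      · rw [if_pos hw, if_pos (by rw [hw, map_zero]), map_one]
      · rw [if_neg hw, if_neg (by rwa [map_eq_zero]), map_div₀, map_pow]
    · rw [if_neg hc, if_neg hc, map_zero]
  · -- the generating function
    intro a b hab
    unfold gS
    by_cases hba : b = a
    · rw [hba, h0, sub_self]
      simp
    · have hne : b - a ≠ 0 := sub_ne_zero.2 hba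
      have hn : ‖((b - a : ℝ) : ℂ)‖ < s / 2 := by
        rw [Complex.norm_real, Real.norm_eq_abs]
        exact hab
      have e1 : H a ((b - a : ℝ) : ℂ) = ((S a b : ℝ) : ℂ) := by
        rw [hreal a (b - a) (by linarith), add_sub_cancel]
      show S a b = (b - a) ^ 2 * (if |(a : ℂ).im| < s ∧ ‖((b - a : ℝ) : ℂ)‖ < s / 2 then
        (if ((b - a : ℝ) : ℂ) = 0 then (1 : ℂ) else
          H a ((b - a : ℝ) : ℂ) / ((b - a : ℝ) : ℂ) ^ 2) else 0).re
      rw [if_pos ⟨by simpa using hs, hn⟩, if_neg (by exact_mod_cast hne), e1,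
        ← Complex.ofReal_pow, ← Complex.ofReal_div, Complex.ofReal_re]
      field_simp

end Pool.Agent.NOne
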