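import Pool.Agent.NOne.BNu
import Pool.Agent.NOne.BAct

/-!
# MP_74f563_an, n = 1, file BGen: the generating function near a rational circle

`S0 x Y` is the action on `[0, q]` of the solution from `x` to `Y + p`;
`P0 x = d2 L x (V (p/q) x) 0` the momentum of the leaf;
`S1 x Y = S0 x Y - S0 0 0 - ∫_x^Y P0`.

PROOFS.  `S0_ana`: composition of `ana_fa` and `nu_ana`.  `S0_per`: `nu_per`, `fa_int`.
`S0_dY`: `fa_dv`, chain rule: `∂_Y S0 = P_f ∂_v FX · ∂_Y nu = P_f` (`nu_dY`), where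
`P_f = d2 L (FX L q x nu) (FW L q x nu) q = d2 L Y (FW L q x nu) 0` by periodicity (`nu_spec`,
`per_int`, `pet_int` for `d2 L`: `per_d2`, `pet_d2`).
`S0_dx`: `fa_dx`, `fa_dv`, chain rule in `x` (with `x ↦ nu x Y`, differentiable by `nu_ana`):
`∂_x S0 = P_f (∂_x FX + ∂_v FX ∂_x nu) - d2 L x nu 0`, and `∂_x FX + ∂_v FX ∂_x nu = 0` (derivative of
`FX L q x (nu x Y) = Y + p` in `x`).  (Use `HasFDerivAt` of the analytic function of two variables.)
`P0_ana`: `P0 x = d2 L x (nu x x) 0` (`nu_diag`), composition of analytic functions; so `P0` is analytic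
and 1-periodic.
`analytic_of_deriv`: near every point integrate the power series of `g`; or with
`ContDiff ℝ ω`: `contDiff_omega_iff_analyticOnNhd` and the succ-lemma for the derivative
(`ω + 1 = ω`).
-/

set_option autoImplicit false

namespace Pool.Agent.NOne

open Set MeasureTheory

variable {L : ℝ → ℝ → ℝ → ℝ} {V : ℚ → ℝ → ℝ} {q : ℕ} {p : ℤ}

/-- the action of the solution from `x` to `Y + p` -/
noncomputable def S0 (L : ℝ → ℝ → ℝ → ℝ) (q : ℕ) (p : ℤ) (x Y : ℝ) : ℝ :=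
  FA L q x (nu L q p x Y)

/-- the momentum of the leaf of rotation number `h` -/
noncomputable def P0 (L : ℝ → ℝ → ℝ → ℝ) (V : ℚ → ℝ → ℝ) (h : ℚ) (x : ℝ) : ℝ := d2 L x (V h x) 0

/-- the normalised generating function -/
noncomputable def S1 (L : ℝ → ℝ → ℝ → ℝ) (V : ℚ → ℝ → ℝ) (q : ℕ) (p : ℤ) (x Y : ℝ) : ℝ :=
  S0 L q p x Y - S0 L q p 0 0 - ∫ τ in x..Y, P0 L V (p / q) τ

/-- a function with an analytic derivative is analytic -/
theorem analytic_of_deriv {f g : ℝ → ℝ} (hf : ∀ x, HasDerivAt f (g x) x)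
    (hg : AnalyticOnNhd ℝ g univ) : AnalyticOnNhd ℝ f univ := by
  have h1 : AnalyticOnNhd ℝ (fun z : ℝ × ℝ => ((1 : ℝ), g z.1)) univ := fun z _ =>
    analyticAt_const.prod
      (AnalyticAt.comp_of_eq (g := g) (f := fun z : ℝ × ℝ => z.1) (hg z.1 trivial)
        analyticAt_fst rfl)
  have h2 := flow_analytic (fun z : ℝ × ℝ => ((1 : ℝ), g z.1)) h1
    (fun t z => (z.1 + t, z.2 + (f (z.1 + t) - f z.1))) (fun z => by simp) (fun z t => by
      refine HasDerivAt.prodMk ?_ ?_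
      · exact (hasDerivAt_id t).const_add z.1
      · exact (((hf (z.1 + t)).comp_const_add z.1 t).sub_const (f z.1)).const_add z.2)
  intro x _
  have h3 : AnalyticAt ℝ (fun t : ℝ => (fun p : ℝ × ℝ × ℝ =>
      ((p.2.1 + p.1, p.2.2 + (f (p.2.1 + p.1) - f p.2.1)) : ℝ × ℝ)) (t, ((0 : ℝ), (0 : ℝ)))) x :=
    AnalyticAt.comp_of_eq (g := fun p : ℝ × ℝ × ℝ =>
      ((p.2.1 + p.1, p.2.2 + (f (p.2.1 + p.1) - f p.2.1)) : ℝ × ℝ))
      (f := fun t : ℝ => (t, ((0 : ℝ), (0 : ℝ)))) (h2 (x, (0, 0)) trivial)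
      (analyticAt_id.prod analyticAt_const) rfl
  have h4 : AnalyticAt ℝ (fun t : ℝ => (0 : ℝ) + (f (0 + t) - f 0) + f 0) x :=
    (AnalyticAt.comp_of_eq (g := fun z : ℝ × ℝ => z.2) analyticAt_snd h3 rfl).add
      analyticAt_const
  have h5 : (fun t : ℝ => (0 : ℝ) + (f (0 + t) - f 0) + f 0) = f := by
    funext t
    simp
  rwa [h5] at h4

/-- chain rule along the graph of `c` -/
private theorem bg_chain {F : ℝ → ℝ → ℝ} {c : ℝ → ℝ} {x a b c' : ℝ}
    (hF : DifferentiableAt ℝ (fun z : ℝ × ℝ => F z.1 z.2) (x, c x))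
    (hx : HasDerivAt (fun y => F y (c x)) a x) (hv : HasDerivAt (fun v => F x v) b (c x))
    (hc : HasDerivAt c c' x) : HasDerivAt (fun y => F y (c y)) (a + b * c') x := by
  obtain ⟨D, hD⟩ := hF
  have e1 : HasDerivAt (fun y => F y (c x)) (D (1, 0)) x :=
    HasFDerivAt.comp_hasDerivAt (f := fun y : ℝ => (y, c x)) x hD
      ((hasDerivAt_id x).prodMk (hasDerivAt_const x (c x)))
  have e2 : HasDerivAt (fun v => F x v) (D (0, 1)) (c x) :=
    HasFDerivAt.comp_hasDerivAt (f := fun v : ℝ => (x, v)) (c x) hD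
      ((hasDerivAt_const (c x) x).prodMk (hasDerivAt_id (c x)))
  have e3 : HasDerivAt (fun y => F y (c y)) (D (1, c')) x :=
    HasFDerivAt.comp_hasDerivAt (f := fun y : ℝ => (y, c y)) x hD ((hasDerivAt_id x).prodMk hc)
  have e4 : D (1, c') = D (1, 0) + c' * D (0, 1) := by
    have h : ((1 : ℝ), c') = (1, 0) + c' • ((0 : ℝ), (1 : ℝ)) := by simp
    rw [h, map_add, map_smul, smul_eq_mul]
  rw [e4, e1.unique hx, e2.unique hv] at e3
  rwa [mul_comm b c']

private theorem bg_slice {G : ℝ → ℝ → ℝ → ℝ}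
    (hG : AnalyticOnNhd ℝ (fun z : ℝ × ℝ × ℝ => G z.1 z.2.1 z.2.2) univ) (t : ℝ) (z : ℝ × ℝ) :
    AnalyticAt ℝ (fun z : ℝ × ℝ => G t z.1 z.2) z :=
  AnalyticAt.comp_of_eq (g := fun z : ℝ × ℝ × ℝ => G z.1 z.2.1 z.2.2)
    (f := fun z : ℝ × ℝ => (t, z.1, z.2)) (hG (t, z.1, z.2) trivial)
    (analyticAt_const.prod (analyticAt_fst.prod analyticAt_snd)) rfl

theorem S0_ana (hC : C0I L V) (hq : 0 < q) :
    AnalyticOnNhd ℝ (fun z : ℝ × ℝ => S0 L q p z.1 z.2) univ := by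
  intro z _
  exact AnalyticAt.comp_of_eq (g := fun z : ℝ × ℝ => FA L q z.1 z.2)
    (f := fun z : ℝ × ℝ => (z.1, nu L q p z.1 z.2))
    (bg_slice (ana_fa hC.ton) q (z.1, nu L q p z.1 z.2))
    (analyticAt_fst.prod (nu_ana hC hq z trivial)) rfl

theorem S0_per (hC : C0I L V) (hq : 0 < q) (x Y : ℝ) :
    S0 L q p (x + 1) (Y + 1) = S0 L q p x Y := by
  have h := fa_int hC.ton q x (nu L q p x Y) 1
  unfold S0
  rw [nu_per hC hq]
  simpa using h

private theorem bg_end (hC : C0I L V) (hq : 0 < q) (x Y : ℝ) :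
    d2 L (FX L q x (nu L q p x Y)) (FW L q x (nu L q p x Y)) q =
      d2 L Y (FW L q x (nu L q p x Y)) 0 := by
  rw [nu_spec hC hq]
  have h1 := per_int (per_d2 hC.ton.perx) Y (FW L q x (nu L q p x Y)) q p
  have h2 := pet_int (pet_d2 hC.ton.pert) Y (FW L q x (nu L q p x Y)) 0 q
  rw [h1]
  rw [zero_add] at h2
  exact_mod_cast h2

theorem S0_dY (hC : C0I L V) (hq : 0 < q) (x Y : ℝ) :
    HasDerivAt (fun Y => S0 L q p x Y) (d2 L Y (FW L q x (nu L q p x Y)) 0) Y := by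
  have h1 := (fa_dv hC.ton q x (nu L q p x Y)).comp Y (nu_dY (p := p) hC hq x Y)
  have h2 : deriv (fun v => FX L q x v) (nu L q p x Y) ≠ 0 :=
    (fx_dv_pos hC (by exact_mod_cast hq) x _).ne'
  rw [bg_end hC hq, mul_assoc, mul_one_div_cancel h2, mul_one] at h1
  exact h1

theorem S0_dx (hC : C0I L V) (hq : 0 < q) (x Y : ℝ) :
    HasDerivAt (fun x => S0 L q p x Y) (-d2 L x (nu L q p x Y) 0) x := by
  have hn : AnalyticAt ℝ (fun x => nu L q p x Y) x :=
    AnalyticAt.comp_of_eq (g := fun z : ℝ × ℝ => nu L q p z.1 z.2)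
      (f := fun x : ℝ => (x, Y)) (nu_ana hC hq (x, Y) trivial)
      (analyticAt_id.prod analyticAt_const) rfl
  have hn' : HasDerivAt (fun x => nu L q p x Y) (deriv (fun x => nu L q p x Y) x) x :=
    hn.differentiableAt.hasDerivAt
  have a1 := bg_slice (ana_fx hC.ton) q (x, nu L q p x Y)
  have a2 : HasDerivAt (fun y => FX L q y (nu L q p x Y))
      (deriv (fun y => FX L q y (nu L q p x Y)) x) x :=
    (AnalyticAt.comp_of_eq (g := fun z : ℝ × ℝ => FX L q z.1 z.2)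
      (f := fun y : ℝ => (y, nu L q p x Y)) a1
      (analyticAt_id.prod analyticAt_const) rfl).differentiableAt.hasDerivAt
  have a3 : HasDerivAt (fun v => FX L q x v) (deriv (fun v => FX L q x v) (nu L q p x Y))
      (nu L q p x Y) :=
    (AnalyticAt.comp_of_eq (g := fun z : ℝ × ℝ => FX L q z.1 z.2)
      (f := fun v : ℝ => (x, v)) a1
      (analyticAt_const.prod analyticAt_id) rfl).differentiableAt.hasDerivAt
  have b1 := bg_chain (F := fun x v => FX L q x v) (c := fun x => nu L q p x Y)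
    a1.differentiableAt a2 a3 hn'
  have b2 : HasDerivAt (fun y => FX L q y (nu L q p y Y)) 0 x := by
    have e : (fun y => FX L q y (nu L q p y Y)) = fun _ => Y + p := by
      funext y
      exact nu_spec hC hq y Y
    rw [e]
    exact hasDerivAt_const x _
  have b3 := b1.unique b2
  have c1 := bg_chain (F := fun x v => FA L q x v) (c := fun x => nu L q p x Y)
    (bg_slice (ana_fa hC.ton) q (x, nu L q p x Y)).differentiableAt
    (fa_dx hC.ton q x (nu L q p x Y)) (fa_dv hC.ton q x (nu L q p x Y)) hn'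
  have e : d2 L (FX L q x (nu L q p x Y)) (FW L q x (nu L q p x Y)) q *
      deriv (fun x_1 => FX L q x_1 (nu L q p x Y)) x - d2 L x (nu L q p x Y) 0 +
      d2 L (FX L q x (nu L q p x Y)) (FW L q x (nu L q p x Y)) q *
      deriv (fun v => FX L q x v) (nu L q p x Y) * deriv (fun x => nu L q p x Y) x =
      -d2 L x (nu L q p x Y) 0 := by
    linear_combination d2 L (FX L q x (nu L q p x Y)) (FW L q x (nu L q p x Y)) q * b3
  rw [e] at c1
  exact c1

theorem P0_ana (hC : C0I L V) (hq : 0 < q) : AnalyticOnNhd ℝ (P0 L V (p / q)) univ := by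
  intro x _
  have e : P0 L V (p / q) = fun x => d2 L x (nu L q p x x) 0 := by
    funext x
    rw [nu_diag hC hq]
    rfl
  rw [e]
  have h1 : AnalyticAt ℝ (fun x : ℝ => nu L q p x x) x :=
    AnalyticAt.comp_of_eq (g := fun z : ℝ × ℝ => nu L q p z.1 z.2)
      (f := fun x : ℝ => (x, x)) (nu_ana hC hq (x, x) trivial)
      (analyticAt_id.prod analyticAt_id) rfl
  exact AnalyticAt.comp_of_eq (g := fun z : ℝ × ℝ × ℝ => d2 L z.1 z.2.1 z.2.2)
    (f := fun x : ℝ => (x, nu L q p x x, 0)) (ana_d2 hC.ton.ana (x, nu L q p x x, 0) trivial)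
    (analyticAt_id.prod (h1.prod analyticAt_const)) rfl

theorem P0_per (hC : C0I L V) (h : ℚ) (x : ℝ) : P0 L V h (x + 1) = P0 L V h x := by
  unfold P0
  rw [hC.per, per_d2 hC.ton.perx]

end Pool.Agent.NOne
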