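import Pool.Agent.NOne.BBd

/-!
# MP_74f563_an, n = 1, file BJac: the Jacobian of a band, `HasBands`

`band_jac`.  PROOF.  `Q = ξ ∘ x`, `W θ t = nu (Q θ t) (Q (θ + ρ) t)`, `P θ t = d2 L (Q θ t) (W θ t) 0`.
By `match_vel` with `a = x(θ - ρ)`, `b = x θ`, `c = x(θ + ρ)` (`LeafC.el` at `θ`; `|b - a| < ρ₀` by
`LeafC.inc` at `θ - ρ`):
`P = P0 (ξ (x)) + β² S₂ / ξ'(x)`, `S₂ θ t = deriv (fun Y => gS B (x (θ - ρ) t) Y) (x θ t)`, on the whole open set
`|t| < 1/4`.  The first term is a function of `x θ t` only, and `ξ'(x)` is one too, so (all functions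
are smooth: `gS_smooth` for `S₂`)
`P_t Q_θ - P_θ Q_t = (β² / ξ'(x)) ξ'(x) (S₂_t x_θ - S₂_θ x_t) = β² (S₂_t x_θ - S₂_θ x_t) > 0`
(`LeafC.twist`; the terms with the derivative of a function of `x` cancel, since
`x_t x_θ - x_θ x_t = 0`).  On the other hand by the chain rule (`ana_chain` for `d2 L` with constant
time `0`): `P_t = d1 (d2 L) Q_t + d2 (d2 L) W_t`, `P_θ = d1 (d2 L) Q_θ + d2 (d2 L) W_θ`, so
`P_t Q_θ - P_θ Q_t = d2 (d2 L) (W_t Q_θ - W_θ Q_t)`.  Hence `Q_θ W_t - Q_t W_θ ≠ 0`.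
`exists_coo`.  `exists_coord` for `S1` (`S1_ana`, `S1_per`, `S1_dY_diag`, `S1_d2_pos`), then `exists_B` for
`S a b = S1 (ξ a) (ξ b) / β²` (analytic composition, `S1_diag`).
`hasBands`.  `exists_coo`, `hz` (with `HZ_congr` and `c < ρ`: `|b - a| < c < ρ`), `theoremC`, `band_core`,
`band_jac`.  (`StrictMono ξ` from `ξ' > 0`.)
-/

set_option autoImplicit false

namespace Pool.Agent.NOne

open Set MeasureTheory
open scoped ContDiff

variable {L : ℝ → ℝ → ℝ → ℝ} {V : ℚ → ℝ → ℝ} {q : ℕ} {p : ℤ}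

private theorem key_der {ξ : ℝ → ℝ} {β σ ρ M : ℝ} {B : ℂ → ℂ → ℂ} (hC : C0I L V) (hq : 0 < q)
    (h : Coo L V q p ξ β σ ρ M B) {y w : ℝ → ℝ} {y' w' s : ℝ} (hy : HasDerivAt y y' s)
    (hw : HasDerivAt w w' s) :
    HasDerivAt (fun u => (d2 L (ξ (y u)) (w u) 0 - P0 L V (p / q) (ξ (y u))) *
        deriv ξ (y u) / β ^ 2)
      (((d1 (d2 L) (ξ (y s)) (w s) 0 * (deriv ξ (y s) * y') +
          d2 (d2 L) (ξ (y s)) (w s) 0 * w' -
          deriv (P0 L V (p / q)) (ξ (y s)) * (deriv ξ (y s) * y')) * deriv ξ (y s) +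
        (d2 L (ξ (y s)) (w s) 0 - P0 L V (p / q) (ξ (y s))) *
          (deriv (deriv ξ) (y s) * y')) / β ^ 2) s := by
  have h1 : HasDerivAt (fun u => ξ (y u)) (deriv ξ (y s) * y') s :=
    ((h.ana (y s) (mem_univ _)).differentiableAt.hasDerivAt).comp s hy
  have h2 : HasDerivAt (fun u => deriv ξ (y u)) (deriv (deriv ξ) (y s) * y') s :=
    ((h.ana.deriv (y s) (mem_univ _)).differentiableAt.hasDerivAt).comp s hy
  have h3 : HasDerivAt (fun u => P0 L V (p / q) (ξ (y u)))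
      (deriv (P0 L V (p / q)) (ξ (y s)) * (deriv ξ (y s) * y')) s := by
    have g3 : HasDerivAt (P0 L V (p / q)) (deriv (P0 L V (p / q)) (ξ (y s))) (ξ (y s)) :=
      ((P0_ana hC hq) (ξ (y s)) (mem_univ _)).differentiableAt.hasDerivAt
    exact g3.comp s h1
  have h4 := ana_chain (ana_d2 hC.ton.ana) h1 hw (hasDerivAt_const s (0 : ℝ))
  have h5 := ((h4.sub h3).mul h2).div_const (β ^ 2)
  refine h5.congr_deriv ?_
  simp only [mul_zero, add_zero, Pi.sub_apply]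

private theorem S_eq {ξ : ℝ → ℝ} {β σ ρ M r : ℝ} {B : ℂ → ℂ → ℂ} (hC : C0I L V) (hq : 0 < q)
    (h : Coo L V q p ξ β σ ρ M B) {x : ℝ → ℝ → ℝ} (hx : LeafC B ρ r x) {θ t : ℝ}
    (ht : |t| < 1 / 4) :
    deriv (fun Y => gS B (x (θ - r * (1 + t)) t) Y) (x θ t) =
      (d2 L (ξ (x θ t)) (nu L q p (ξ (x θ t)) (ξ (x (θ + r * (1 + t)) t))) 0 -
        P0 L V (p / q) (ξ (x θ t))) * deriv ξ (x θ t) / β ^ 2 := by
  have h1 := hx.inc (θ - r * (1 + t)) t ht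
  rw [sub_add_cancel] at h1
  have h2 := hx.inc θ t ht
  have h3 : |x θ t - x (θ - r * (1 + t)) t| < ρ := by
    rw [abs_of_pos h1.1]
    exact h1.2
  have h4 : |x (θ + r * (1 + t)) t - x θ t| < ρ := by
    rw [abs_of_pos h2.1]
    exact h2.2
  have h5 := (match_vel hC hq h h3 h4 (hx.el θ t ht)).2
  have h6 := h.pos (x θ t)
  have h7 := h.β_pos
  rw [h5]
  field_simp
  ring

private theorem part {F : ℝ × ℝ → ℝ} {θ t : ℝ} (hF : DifferentiableAt ℝ F (θ, t)) :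
    HasDerivAt (fun z => F (z, t)) (deriv (fun z => F (z, t)) θ) θ ∧
      HasDerivAt (fun τ => F (θ, τ)) (deriv (fun τ => F (θ, τ)) t) t := by
  have h1 : DifferentiableAt ℝ (fun z : ℝ => (z, t)) θ := by fun_prop
  have h2 : DifferentiableAt ℝ (fun τ : ℝ => (θ, τ)) t := by fun_prop
  exact ⟨(DifferentiableAt.comp θ (g := F) (f := fun z : ℝ => (z, t)) hF h1).hasDerivAt,
    (DifferentiableAt.comp t (g := F) (f := fun τ : ℝ => (θ, τ)) hF h2).hasDerivAt⟩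

private theorem isOpen_S : IsOpen {z : ℝ × ℝ | |z.2| < 1 / 4} :=
  isOpen_lt (continuous_snd.abs) continuous_const

theorem band_jac {ξ : ℝ → ℝ} {β σ ρ M r : ℝ} {B : ℂ → ℂ → ℂ} (hC : C0I L V) (hq : 0 < q)
    (h : Coo L V q p ξ β σ ρ M B) {x : ℝ → ℝ → ℝ} (hx : LeafC B ρ r x) {θ t : ℝ}
    (ht : |t| < 1 / 4) :
    deriv (fun z => ξ (x z t)) θ *
        deriv (fun τ => nu L q p (ξ (x θ τ)) (ξ (x (θ + r * (1 + τ)) τ))) t -
      deriv (fun τ => ξ (x θ τ)) t *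
        deriv (fun z => nu L q p (ξ (x z t)) (ξ (x (z + r * (1 + t)) t))) θ ≠ 0 := by
  have hmem : {z : ℝ × ℝ | |z.2| < 1 / 4} ∈ nhds ((θ, t) : ℝ × ℝ) := isOpen_S.mem_nhds ht
  obtain ⟨-, c2, -⟩ := band_core hC hq h hx
  have hX : DifferentiableAt ℝ (fun z : ℝ × ℝ => x z.1 z.2) (θ, t) :=
    (hx.smooth.contDiffAt hmem).differentiableAt (by simp)
  have hW : DifferentiableAt ℝ (fun z : ℝ × ℝ => nu L q p (ξ (x z.1 z.2))
      (ξ (x (z.1 + r * (1 + z.2)) z.2))) (θ, t) :=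
    (c2.contDiffAt hmem).differentiableAt (by simp)
  obtain ⟨x1, x2⟩ := part hX
  obtain ⟨w1, w2⟩ := part hW
  simp only at x1 x2 w1 w2
  set a := deriv (fun z => x z t) θ with ha
  set b := deriv (fun τ => x θ τ) t with hb
  set W1 := deriv (fun z => nu L q p (ξ (x z t)) (ξ (x (z + r * (1 + t)) t))) θ with hW1
  set W2 := deriv (fun τ => nu L q p (ξ (x θ τ)) (ξ (x (θ + r * (1 + τ)) τ))) t with hW2
  have q1 : deriv (fun z => ξ (x z t)) θ = deriv ξ (x θ t) * a :=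
    (((h.ana (x θ t) (mem_univ _)).differentiableAt.hasDerivAt).comp θ x1).deriv
  have q2 : deriv (fun τ => ξ (x θ τ)) t = deriv ξ (x θ t) * b :=
    (((h.ana (x θ t) (mem_univ _)).differentiableAt.hasDerivAt).comp t x2).deriv
  have e1 : (fun z => deriv (fun Y => gS B (x (z - r * (1 + t)) t) Y) (x z t)) =
      fun z => (d2 L (ξ (x z t)) (nu L q p (ξ (x z t)) (ξ (x (z + r * (1 + t)) t))) 0 -
        P0 L V (p / q) (ξ (x z t))) * deriv ξ (x z t) / β ^ 2 :=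
    funext fun z => S_eq hC hq h hx ht
  have s1 := (key_der hC hq h x1 w1).deriv
  rw [← e1] at s1
  have hn : ∀ᶠ τ in nhds t, |τ| < 1 / 4 :=
    (isOpen_lt continuous_abs continuous_const).mem_nhds ht
  have e2 : (fun τ => deriv (fun Y => gS B (x (θ - r * (1 + τ)) τ) Y) (x θ τ)) =ᶠ[nhds t]
      fun τ => (d2 L (ξ (x θ τ)) (nu L q p (ξ (x θ τ)) (ξ (x (θ + r * (1 + τ)) τ))) 0 -
        P0 L V (p / q) (ξ (x θ τ))) * deriv ξ (x θ τ) / β ^ 2 :=
    hn.mono fun τ hτ => S_eq hC hq h hx hτ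
  have s2 := (key_der hC hq h x2 w2).deriv
  rw [← e2.deriv_eq] at s2
  have tw := hx.twist θ t ht
  rw [s1, s2, ← ha, ← hb] at tw
  rw [q1, q2]
  intro h0
  have hc := h.pos (x θ t)
  have h1 : deriv ξ (x θ t) * (a * W2 - b * W1) = 0 := by
    rw [← h0]
    ring
  have h2 : a * W2 - b * W1 = 0 := (mul_eq_zero.1 h1).resolve_left hc.ne'
  have hβ := h.β_pos
  refine absurd tw (not_lt.2 (le_of_eq ?_))
  set A1 := d1 (d2 L) (ξ (x θ t)) (nu L q p (ξ (x θ t)) (ξ (x (θ + r * (1 + t)) t))) 0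
  set A2 := d2 (d2 L) (ξ (x θ t)) (nu L q p (ξ (x θ t)) (ξ (x (θ + r * (1 + t)) t))) 0
  have h3 : ∀ m e c p' k : ℝ,
      ((A1 * (c * b) + A2 * W2 - p' * (c * b)) * c + m * (e * b)) / k * a -
        ((A1 * (c * a) + A2 * W1 - p' * (c * a)) * c + m * (e * a)) / k * b =
      A2 * c * (a * W2 - b * W1) / k := by
    intro m e c p' k
    ring
  rw [h3, h2, mul_zero, zero_div]

end Pool.Agent.NOne
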