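import Pool.Agent.NOne.BNu
import Pool.Agent.NOne.BAct

/-!
# MP_74f563_an, n = 1, file BLeaf: leaves near the rational leaf, configurations on leaves

PROOFS.
`leaf_close` (F14).  For every `x ∈ [0, 1]` choose by `C0I.dense` a rational `h_x` with
`V h₀ x < V h_x x < V h₀ x + e`, so `h_x > h₀` (`C0I.mono`); by continuity `V h_x y < V h₀ y + e`
for `y`
near `x`.  Finitely many of these neighbourhoods cover `[0, 1]`; let `h₁` be the smallest of the
corresponding `h_x`; `V h₁ ≤ V h_x` for all of them, and periodicity.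
`fx_unif`.  The function `(x, τ) ↦ FX L q x (V h₀ x + τ) - FX L q x (V h₀ x)` is continuous on
`[0, 1] × [0, 1]` and vanishes for `τ = 0`; uniform continuity; periodicity in `x` (`fx_int`,
`C0I.per`).
`leaf_config`.  `h = (p k + m) / (q k)`.  `X j = FX L (q j) x (V h x) - p j`.  `X 0 = x`
(`fx_zero`).
`X k = x + (p k + m) - p k = x + m` by `C0I.orb` for the pair `(q k, p k + m)` at `t = 0`.
By `fx_add`, `fw_nat` (`n = q j`): `FX L (q (j+1)) x (V h x) = FX L q (FX L (q j) x (V h x)) (V h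
(..))`, and
`FX L (q j) x (V h x) = X j + p j`, `V h (X j + p j) = V h (X j)` (`V_int`), `fx_int`: this is
`FX L q (X j) (V h (X j)) + p j`; so `FX L q (X j) (V h (X j)) = X (j + 1) + p`.
The sum of the actions: induction with `fa_add` (`k := q j`, `t := q`), `fa_int`.
`X (j + 1) - X j > 0`: `FX L q (X j) (V h (X j)) > FX L q (X j) (V h₀ (X j)) = X j + p`, `h₀ = p /
q < h`
(`C0I.cross`, `C0I.orb`).
-/

set_option autoImplicit false

namespace Pool.Agent.NOne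

open Set

variable {L : ℝ → ℝ → ℝ → ℝ} {V : ℚ → ℝ → ℝ} {q : ℕ} {p : ℤ}

private theorem dec_fract (x : ℝ) : x = Int.fract x + (⌊x⌋ : ℤ) :=
  (Int.fract_add_floor x).symm

private theorem V_fract (hC : C0I L V) (h : ℚ) (x : ℝ) : V h x = V h (Int.fract x) := by
  conv_lhs => rw [dec_fract x]
  exact V_int hC _ _ _

private theorem fx_fract (hC : C0I L V) (t x v : ℝ) :
    FX L t x v = FX L t (Int.fract x) v + (⌊x⌋ : ℤ) := by
  conv_lhs => rw [dec_fract x]
  exact fx_int hC.ton _ _ _ _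

theorem leaf_close (hC : C0I L V) (h₀ : ℚ) {e : ℝ} (he : 0 < e) :
    ∃ h₁ : ℚ, h₀ < h₁ ∧ ∀ x, V h₁ x < V h₀ x + e := by
  have h1 : ∀ x, ∃ h : ℚ, h₀ < h ∧ V h x < V h₀ x + e := by
    intro x
    obtain ⟨h, ha, hb⟩ := hC.dense x (V h₀ x) (V h₀ x + e) (by linarith)
    refine ⟨h, ?_, hb⟩
    by_contra hn
    rw [not_lt] at hn
    rcases hn.lt_or_eq with h2 | h2
    · have := hC.mono h h₀ x h2
      linarith
    · rw [h2] at ha
      exact lt_irrefl _ ha
  choose g hg1 hg2 using h1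
  have hopen : ∀ x : ℝ, IsOpen {y : ℝ | V (g x) y < V h₀ y + e} := fun x =>
    isOpen_lt (hC.cont _) ((hC.cont _).add continuous_const)
  obtain ⟨t, ht⟩ := (isCompact_Icc (a := (0 : ℝ)) (b := 1)).elim_finite_subcover
    (fun x : ℝ => {y : ℝ | V (g x) y < V h₀ y + e}) hopen
    (fun x _ => mem_iUnion.2 ⟨x, hg2 x⟩)
  have hne : t.Nonempty := by
    obtain ⟨i, hi, _⟩ := mem_iUnion₂.1 (ht (left_mem_Icc.2 (zero_le_one' ℝ)))
    exact ⟨i, hi⟩
  obtain ⟨x₁, hx₁, hmin⟩ := t.exists_min_image g hne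
  refine ⟨g x₁, hg1 x₁, fun x => ?_⟩
  have h3 : ∀ y ∈ Icc (0 : ℝ) 1, V (g x₁) y < V h₀ y + e := by
    intro y hy
    obtain ⟨i, hi, h4⟩ := mem_iUnion₂.1 (ht hy)
    have h5 : V (g x₁) y ≤ V (g i) y := by
      rcases (hmin i hi).lt_or_eq with h6 | h6
      · exact (hC.mono _ _ y h6).le
      · rw [h6]
    exact lt_of_le_of_lt h5 h4
  rw [V_fract hC (g x₁) x, V_fract hC h₀ x]
  exact h3 (Int.fract x) ⟨Int.fract_nonneg x, (Int.fract_lt_one x).le⟩

theorem fx_unif (hC : C0I L V) (h₀ : ℚ) (q : ℕ) {c : ℝ} (hc : 0 < c) :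
    ∃ e > 0, ∀ x v : ℝ, V h₀ x ≤ v → v < V h₀ x + e →
      FX L q x v - FX L q x (V h₀ x) < c := by
  set F : ℝ × ℝ → ℝ :=
    fun z => FX L q z.1 (V h₀ z.1 + z.2) - FX L q z.1 (V h₀ z.1) with hF
  have hcont : Continuous F := by
    have h1 : Continuous fun z : ℝ × ℝ => V h₀ z.1 := (hC.cont h₀).comp continuous_fst
    refine Continuous.sub ?_ ?_
    · exact (cont_fx hC.ton).comp
        (continuous_const.prodMk (continuous_fst.prodMk (h1.add continuous_snd)))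
    · exact (cont_fx hC.ton).comp (continuous_const.prodMk (continuous_fst.prodMk h1))
  have hopen : IsOpen {z | F z < c} := isOpen_lt hcont continuous_const
  have hsub : Icc (0 : ℝ) 1 ×ˢ {(0 : ℝ)} ⊆ {z | F z < c} := by
    rintro ⟨x, τ⟩ ⟨_, hτ⟩
    have hτ' : τ = 0 := hτ
    change F (x, τ) < c
    rw [hτ', hF]
    simpa using hc
  obtain ⟨u, v, hu, hv, hsu, htv, huv⟩ :=
    generalized_tube_lemma (isCompact_Icc (a := (0 : ℝ)) (b := 1)) isCompact_singleton hopen hsub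
  obtain ⟨e, he, hball⟩ := Metric.isOpen_iff.1 hv 0 (htv rfl)
  refine ⟨e, he, fun x w h1 h2 => ?_⟩
  have h8 : ((Int.fract x, w - V h₀ x) : ℝ × ℝ) ∈ {z | F z < c} := by
    refine huv ⟨hsu ⟨Int.fract_nonneg x, (Int.fract_lt_one x).le⟩, hball ?_⟩
    rw [Metric.mem_ball, Real.dist_eq, sub_zero, abs_of_nonneg (by linarith)]
    linarith
  have h10 : FX L q (Int.fract x) (V h₀ (Int.fract x) + (w - V h₀ x)) -
      FX L q (Int.fract x) (V h₀ (Int.fract x)) < c := h8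
  have h9 : V h₀ (Int.fract x) + (w - V h₀ x) = w := by
    rw [← V_fract hC]
    ring
  rw [h9, ← V_fract hC] at h10
  rw [fx_fract hC q x w, fx_fract hC q x (V h₀ x)]
  linarith

/-- the points of the leaf of rotation number `(p k + m) / (q k)` at the times `q j`, in the
frame moving with speed `p / q` -/
noncomputable def cfg (L : ℝ → ℝ → ℝ → ℝ) (V : ℚ → ℝ → ℝ) (q : ℕ) (p : ℤ) (k m : ℕ) (x : ℝ)
    (j : ℕ) : ℝ :=
  FX L ((q * j : ℕ) : ℝ) x (V (((p * k + m : ℤ) : ℚ) / ((q * k : ℕ) : ℚ)) x) - p * j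

private theorem orb0 (hC : C0I L V) (hq : 0 < q) (x : ℝ) :
    FX L q x (V (p / q) x) = x + p := by
  have h1 := hC.orb q p hq x 0
  rw [zero_add, fx_zero hC.ton] at h1
  exact h1

private theorem h_lt (hq : 0 < q) {k m : ℕ} (hk : 0 < k) (hm : 0 < m) :
    ((p : ℚ) / (q : ℚ)) < ((p * k + m : ℤ) : ℚ) / ((q * k : ℕ) : ℚ) := by
  have hq' : (0 : ℚ) < q := by exact_mod_cast hq
  have hk' : (0 : ℚ) < k := by exact_mod_cast hk
  have hm' : (0 : ℚ) < m := by exact_mod_cast hm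
  have e : ((p * k + m : ℤ) : ℚ) / ((q * k : ℕ) : ℚ) = (p : ℚ) / q + (m : ℚ) / (q * k) := by
    push_cast
    field_simp
  rw [e]
  have : (0 : ℚ) < (m : ℚ) / (q * k) := by positivity
  linarith

theorem leaf_config (hC : C0I L V) (hq : 0 < q) {k m : ℕ} (hk : 0 < k) (hm : 0 < m) (x : ℝ) :
    cfg L V q p k m x 0 = x ∧ cfg L V q p k m x k = x + m ∧
    (∀ j, FX L q (cfg L V q p k m x j)
      (V (((p * k + m : ℤ) : ℚ) / ((q * k : ℕ) : ℚ)) (cfg L V q p k m x j)) =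
        cfg L V q p k m x (j + 1) + p) ∧
    (∀ j, 0 < cfg L V q p k m x (j + 1) - cfg L V q p k m x j) ∧
    ∑ j ∈ Finset.range k, FA L q (cfg L V q p k m x j)
      (V (((p * k + m : ℤ) : ℚ) / ((q * k : ℕ) : ℚ)) (cfg L V q p k m x j)) =
        FA L ((q * k : ℕ) : ℝ) x (V (((p * k + m : ℤ) : ℚ) / ((q * k : ℕ) : ℚ)) x) := by
  have hL := hC.ton
  have hq' : (0 : ℝ) < q := by exact_mod_cast hq
  obtain ⟨h, hh⟩ : ∃ h : ℚ, h = ((p * k + m : ℤ) : ℚ) / ((q * k : ℕ) : ℚ) := ⟨_, rfl⟩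
  have hdef : ∀ j, cfg L V q p k m x j = FX L ((q * j : ℕ) : ℝ) x (V h x) - p * j := by
    intro j
    rw [hh]
    rfl
  rw [← hh]
  have hpt : ∀ j, FX L ((q * j : ℕ) : ℝ) x (V h x) =
      cfg L V q p k m x j + ((p * j : ℤ) : ℝ) := by
    intro j
    rw [hdef]
    push_cast
    ring
  have hV : ∀ j : ℕ, V h (cfg L V q p k m x j + ((p * j : ℤ) : ℝ)) =
      V h (cfg L V q p k m x j) := fun j => V_int hC _ _ _
  have hstep : ∀ j, FX L q (cfg L V q p k m x j) (V h (cfg L V q p k m x j)) =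
      cfg L V q p k m x (j + 1) + p := by
    intro j
    have h1 := fx_add hL q x (V h x) ((q * j : ℕ) : ℤ)
    rw [Int.cast_natCast, fw_nat hC, hpt, hV, fx_int hL] at h1
    have h2 : (q : ℝ) + ((q * j : ℕ) : ℝ) = ((q * (j + 1) : ℕ) : ℝ) := by
      push_cast
      ring
    rw [h2, hpt (j + 1)] at h1
    push_cast at h1
    linarith
  have hend : FX L ((q * k : ℕ) : ℝ) x (V h x) = x + ((p * k + m : ℤ) : ℝ) := by
    rw [hh]
    exact orb0 hC (Nat.mul_pos hq hk) x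
  have hsum : ∀ n : ℕ, ∑ j ∈ Finset.range n, FA L q (cfg L V q p k m x j)
      (V h (cfg L V q p k m x j)) = FA L ((q * n : ℕ) : ℝ) x (V h x) := by
    intro n
    induction n with
    | zero => simp [FA]
    | succ n ih =>
      have h1 := fa_add hL q x (V h x) (q * n)
      rw [fw_nat hC, hpt, hV, fa_int hL] at h1
      have h2 : ((q * n : ℕ) : ℝ) + (q : ℝ) = ((q * (n + 1) : ℕ) : ℝ) := by
        push_cast
        ring
      rw [h2] at h1
      rw [Finset.sum_range_succ, ih, h1]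
  refine ⟨?_, ?_, hstep, ?_, hsum k⟩
  · rw [hdef]
    simp [fx_zero hL]
  · rw [hdef, hend]
    push_cast
    ring
  · intro j
    have hlt : ((p : ℚ) / (q : ℚ)) < h := by
      rw [hh]
      exact h_lt hq hk hm
    have h1 := hC.cross (p / q) h (cfg L V q p k m x j) q hlt hq'
    rw [orb0 hC hq, hstep] at h1
    linarith

/-- the increments are uniformly small if `m / k` is small -/
theorem leaf_small (hC : C0I L V) (hq : 0 < q) {c : ℝ} (hc : 0 < c) :
    ∃ κ > (0 : ℝ), ∀ (k m : ℕ), 0 < k → 0 < m → (m : ℝ) / k < κ → ∀ (x : ℝ) (j : ℕ),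
      cfg L V q p k m x (j + 1) - cfg L V q p k m x j < c := by
  have hq' : (0 : ℝ) < q := by exact_mod_cast hq
  obtain ⟨e, he, hu⟩ := fx_unif hC ((p : ℚ) / (q : ℚ)) q hc
  obtain ⟨h₁, hh₁, hcl⟩ := leaf_close hC ((p : ℚ) / (q : ℚ)) he
  have hpos : (0 : ℝ) < (h₁ : ℝ) - p / q := by
    have h2 : (((p : ℚ) / (q : ℚ) : ℚ) : ℝ) < (h₁ : ℝ) := by exact_mod_cast hh₁
    push_cast at h2
    linarith
  refine ⟨q * ((h₁ : ℝ) - p / q), mul_pos hq' hpos, fun k m hk hm hkm x j => ?_⟩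
  have hk' : (0 : ℝ) < k := by exact_mod_cast hk
  obtain ⟨_, _, hstep, _, _⟩ := leaf_config (p := p) hC hq hk hm x
  have hlt := h_lt (p := p) hq hk hm
  have hlt' : ((p * k + m : ℤ) : ℚ) / ((q * k : ℕ) : ℚ) < h₁ := by
    have h3 : (m : ℝ) / (q * k) < (h₁ : ℝ) - p / q := by
      rw [div_lt_iff₀ hk'] at hkm
      rw [div_lt_iff₀ (mul_pos hq' hk')]
      linarith
    have h4 : (((((p * k + m : ℤ) : ℚ) / ((q * k : ℕ) : ℚ)) : ℚ) : ℝ) < ((h₁ : ℚ) : ℝ) := by
      have e1 : (((((p * k + m : ℤ) : ℚ) / ((q * k : ℕ) : ℚ)) : ℚ) : ℝ) =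
          (p : ℝ) / q + (m : ℝ) / (q * k) := by
        push_cast
        field_simp
      rw [e1]
      linarith
    exact_mod_cast h4
  set y := cfg L V q p k m x j with hy
  have h5 := hC.mono _ _ y hlt
  have h6 := hC.mono _ _ y hlt'
  have h7 := hu y _ h5.le (lt_trans h6 (hcl y))
  rw [orb0 hC hq, hstep] at h7
  linarith

end Pool.Agent.NOne
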