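import Pool.Agent.NOne.BSup

/-!
# MP_74f563_an, n = 1, file BLoc: analytic dependence on initial data, local version

PROOF of `flow_analytic_zero`.  Let `Z = C(II, E)`, `T` the integration operator of BSup,
`N γ = F ∘ γ` (`superpos_analytic`).  Consider
`Θ : E × ℝ × Z → E × ℝ × Z`, `Θ (z, τ, γ) = (z, τ, γ - const z - τ • T (N γ))`.
It is analytic at `a = (z₀, 0, const z₀)` (`superpos_analytic`, continuous linear maps, products), and
its derivative at `a` is `(dz, dτ, dγ) ↦ (dz, dτ, dγ - const dz - dτ • T (N (const z₀)))`, because the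
term with the derivative of `N` is multiplied by `τ = 0`; it is a continuous linear equivalence (its
inverse is `(dz, dτ, dγ) ↦ (dz, dτ, dγ + const dz + dτ • T (N (const z₀)))`).  By the inverse function
theorem (`ContDiffAt.to_localInverse` with `n = ω`, `AnalyticAt` = `ContDiffAt ω` in complete spaces)
there is a local inverse `Θ⁻¹`, analytic at `Θ a = (z₀, 0, 0)`, with `Θ (Θ⁻¹ y) = y` for `y` near
`Θ a` (`HasStrictFDerivAt.eventually_right_inverse`).  Put
`γ(z, τ) = third component of Θ⁻¹ (z, τ, 0)`.  For `(z, τ)` near `(z₀, 0)`: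
`γ = const z + τ • T (N γ)`, i.e. `γ s = z + τ ∫₀^s F (γ x) dx` for `s ∈ [0, 1]`.  So `s ↦ γ s` (extended
by `projIcc`) is a solution of `γ' = τ F(γ)` on `[0, 1]`, `γ 0 = z`.  The curve `s ↦ Φ (s τ) z` is another
one.  Uniqueness (`F` is `C¹`, hence Lipschitz on a closed ball containing both compact curves:
`ContDiff.lipschitzOnWith` / `ODE_solution_unique_of_mem_Icc_right` or `ODE_solution_unique_of_mem_Icc`)
gives `γ s = Φ (s τ) z` on `[0, 1]`, in particular `Φ τ z = γ(z, τ) 1`, which is analytic in `(τ, z)` at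
`(0, z₀)` (evaluation at `1` is continuous linear).

`flow_add`.  PROOF.  Both sides, as functions of `s`, solve `y' = F y` with the same value at `s = 0`;
uniqueness as above (on every compact interval around `0`).
-/

set_option autoImplicit false

namespace Pool.Agent.NOne

open Set

open scoped Topology ContDiff

variable {E : Type} [NormedAddCommGroup E] [NormedSpace ℝ E] [FiniteDimensional ℝ E]

private theorem contDiff_of {F : E → E} (hF : AnalyticOnNhd ℝ F univ) : ContDiff ℝ 1 F :=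
  have := FiniteDimensional.complete ℝ E
  contDiff_iff_contDiffAt.2 fun x => (hF x (mem_univ x)).contDiffAt

omit [NormedSpace ℝ E] [FiniteDimensional ℝ E] in
private theorem exists_ball {f g : ℝ → E} {a b : ℝ} (hf : ContinuousOn f (Icc a b))
    (hg : ContinuousOn g (Icc a b)) :
    ∃ R : ℝ, ∀ t ∈ Icc a b, f t ∈ Metric.closedBall (0 : E) R ∧
      g t ∈ Metric.closedBall (0 : E) R := by
  obtain ⟨R₁, h₁⟩ := (isCompact_Icc.image_of_continuousOn hf).isBounded.subset_closedBall (0 : E)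
  obtain ⟨R₂, h₂⟩ := (isCompact_Icc.image_of_continuousOn hg).isBounded.subset_closedBall (0 : E)
  refine ⟨max R₁ R₂, fun t ht => ⟨?_, ?_⟩⟩
  · exact Metric.closedBall_subset_closedBall (le_max_left _ _) (h₁ (mem_image_of_mem f ht))
  · exact Metric.closedBall_subset_closedBall (le_max_right _ _) (h₂ (mem_image_of_mem g ht))

private theorem exists_lip {G : E → E} (hG : ContDiff ℝ 1 G) (R : ℝ) :
    ∃ K, LipschitzOnWith K G (Metric.closedBall (0 : E) R) := by
  have := FiniteDimensional.proper_real E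
  exact hG.contDiffOn.exists_lipschitzOnWith one_ne_zero (convex_closedBall _ _)
    (isCompact_closedBall _ _)

private theorem uniq_Icc {G : E → E} (hG : ContDiff ℝ 1 G) {f g : ℝ → E} {a b : ℝ}
    (hf : ∀ t ∈ Icc a b, HasDerivAt f (G (f t)) t) (hg : ∀ t ∈ Icc a b, HasDerivAt g (G (g t)) t)
    (h : f a = g a) : EqOn f g (Icc a b) := by
  have hfc : ContinuousOn f (Icc a b) := fun t ht => (hf t ht).continuousAt.continuousWithinAt
  have hgc : ContinuousOn g (Icc a b) := fun t ht => (hg t ht).continuousAt.continuousWithinAt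
  obtain ⟨R, hR⟩ := exists_ball hfc hgc
  obtain ⟨K, hK⟩ := exists_lip hG R
  exact ODE_solution_unique_of_mem_Icc_right (v := fun _ => G)
    (s := fun _ => Metric.closedBall (0 : E) R) (K := K) (fun t _ => hK) hfc
    (fun t ht => (hf t (Ico_subset_Icc_self ht)).hasDerivWithinAt)
    (fun t ht => (hR t (Ico_subset_Icc_self ht)).1) hgc
    (fun t ht => (hg t (Ico_subset_Icc_self ht)).hasDerivWithinAt)
    (fun t ht => (hR t (Ico_subset_Icc_self ht)).2) h

/-- uniqueness for autonomous equations with an analytic right hand side -/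
theorem ode_unique {F : E → E} (hF : AnalyticOnNhd ℝ F univ) {y y' : ℝ → E}
    (hy : ∀ t, HasDerivAt y (F (y t)) t) (hy' : ∀ t, HasDerivAt y' (F (y' t)) t) {t₀ : ℝ}
    (h : y t₀ = y' t₀) : y = y' := by
  funext t
  obtain ⟨A, B, Ht, Ht₀⟩ : ∃ A B, t ∈ Ioo A B ∧ t₀ ∈ Ioo A B := by
    refine ⟨min t t₀ - 1, max t t₀ + 1, ⟨?_, ?_⟩, ⟨?_, ?_⟩⟩
    · linarith [min_le_left t t₀]
    · linarith [le_max_left t t₀]
    · linarith [min_le_right t t₀]
    · linarith [le_max_right t t₀]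
  have hfc : ContinuousOn y (Icc A B) := fun t _ => (hy t).continuousAt.continuousWithinAt
  have hgc : ContinuousOn y' (Icc A B) := fun t _ => (hy' t).continuousAt.continuousWithinAt
  obtain ⟨R, hR⟩ := exists_ball hfc hgc
  obtain ⟨K, hK⟩ := exists_lip (contDiff_of hF) R
  exact ODE_solution_unique_of_mem_Ioo (v := fun _ => F)
    (s := fun _ => Metric.closedBall (0 : E) R) (K := K) (fun t _ => hK) Ht₀
    (fun t ht => ⟨hy t, (hR t (Ioo_subset_Icc_self ht)).1⟩)
    (fun t ht => ⟨hy' t, (hR t (Ioo_subset_Icc_self ht)).2⟩) h Ht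

theorem flow_add {F : E → E} (hF : AnalyticOnNhd ℝ F univ) {Φ : ℝ → E → E}
    (h0 : ∀ z, Φ 0 z = z) (hd : ∀ z t, HasDerivAt (fun t => Φ t z) (F (Φ t z)) t) (t s : ℝ)
    (z : E) : Φ (t + s) z = Φ s (Φ t z) := by
  have h1 : ∀ s, HasDerivAt (fun s => Φ (t + s) z) (F (Φ (t + s) z)) s := fun s =>
    (hd z (t + s)).comp_const_add t s
  have h2 := ode_unique hF (y := fun s => Φ (t + s) z) (y' := fun s => Φ s (Φ t z)) (t₀ := 0)
    h1 (fun s => hd _ s) (by simp [h0])
  exact congrFun h2 s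

theorem flow_analytic_zero {F : E → E} (hF : AnalyticOnNhd ℝ F univ) {Φ : ℝ → E → E}
    (h0 : ∀ z, Φ 0 z = z) (hd : ∀ z t, HasDerivAt (fun t => Φ t z) (F (Φ t z)) t) (z₀ : E) :
    AnalyticAt ℝ (fun p : ℝ × E => Φ p.1 p.2) (0, z₀) := by
  classical
  have := FiniteDimensional.complete ℝ E
  have hc : Continuous F := (contDiff_of hF).continuous
  obtain ⟨T, hT⟩ := exists_integration (G := E)
  set N : C(II, E) → C(II, E) := fun γ => (⟨F, hc⟩ : C(E, E)).comp γ with hNdef
  set κ : E →L[ℝ] C(II, E) := ContinuousLinearMap.const ℝ II with hκ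
  have hκ1 : ∀ z s, κ z s = z := fun _ _ => rfl
  have hN : AnalyticAt ℝ N (κ z₀) := superpos_analytic hF hc z₀
  set a : E × ℝ × C(II, E) := (z₀, 0, κ z₀) with ha
  set Θ : E × ℝ × C(II, E) → E × ℝ × C(II, E) :=
    fun p => (p.1, p.2.1, p.2.2 - κ p.1 - p.2.1 • T (N p.2.2)) with hΘ
  set w : C(II, E) := T (N (κ z₀)) with hw
  set P1 : E × ℝ × C(II, E) →L[ℝ] E := ContinuousLinearMap.fst ℝ _ _ with hP1
  set P2 : E × ℝ × C(II, E) →L[ℝ] ℝ :=
    (ContinuousLinearMap.fst ℝ ℝ C(II, E)).comp (ContinuousLinearMap.snd ℝ _ _) with hP2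
  set P3 : E × ℝ × C(II, E) →L[ℝ] C(II, E) :=
    (ContinuousLinearMap.snd ℝ ℝ C(II, E)).comp (ContinuousLinearMap.snd ℝ _ _) with hP3
  have hP1a : ∀ p, P1 p = p.1 := fun _ => rfl
  have hP2a : ∀ p, P2 p = p.2.1 := fun _ => rfl
  have hP3a : ∀ p, P3 p = p.2.2 := fun _ => rfl
  have hN3 : AnalyticAt ℝ (fun p : E × ℝ × C(II, E) => N p.2.2) a :=
    AnalyticAt.fun_comp (g := N) (f := fun p : E × ℝ × C(II, E) => p.2.2) hN (P3.analyticAt a)
  have hTN : AnalyticAt ℝ (fun p : E × ℝ × C(II, E) => T (N p.2.2)) a :=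
    AnalyticAt.fun_comp (g := T) (T.analyticAt _) hN3
  have hΘan : AnalyticAt ℝ Θ a :=
    (P1.analyticAt a).prod ((P2.analyticAt a).prod
      (((P3.analyticAt a).sub ((κ.comp P1).analyticAt a)).sub ((P2.analyticAt a).smul hTN)))
  set f' : E × ℝ × C(II, E) →L[ℝ] E × ℝ × C(II, E) :=
    P1.prod (P2.prod (P3 - κ.comp P1 - P2.smulRight w)) with hf'
  set g' : E × ℝ × C(II, E) →L[ℝ] E × ℝ × C(II, E) :=
    P1.prod (P2.prod (P3 + κ.comp P1 + P2.smulRight w)) with hg'
  set e : (E × ℝ × C(II, E)) ≃L[ℝ] (E × ℝ × C(II, E)) :=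
    ContinuousLinearEquiv.equivOfInverse f' g'
      (fun p => by
        refine Prod.ext rfl (Prod.ext rfl ?_)
        change (p.2.2 - κ p.1 - p.2.1 • w) + κ p.1 + p.2.1 • w = p.2.2
        abel)
      (fun p => by
        refine Prod.ext rfl (Prod.ext rfl ?_)
        change (p.2.2 + κ p.1 + p.2.1 • w) - κ p.1 - p.2.1 • w = p.2.2
        abel) with he
  have hder : HasFDerivAt Θ (e : (E × ℝ × C(II, E)) →L[ℝ] (E × ℝ × C(II, E))) a := by
    have hTN' := hTN.differentiableAt.hasFDerivAt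
    have h1 : HasFDerivAt (fun p : E × ℝ × C(II, E) => p.2.1 • T (N p.2.2))
        (P2.smulRight w) a := by
      have h2 := (P2.hasFDerivAt (x := a)).smul hTN'
      have h3 : P2 a = 0 := rfl
      rw [h3, zero_smul, zero_add] at h2
      exact h2
    exact (P1.hasFDerivAt (x := a)).prodMk ((P2.hasFDerivAt (x := a)).prodMk
      (((P3.hasFDerivAt (x := a)).sub ((κ.comp P1).hasFDerivAt (x := a))).sub h1))
  have hcd : ContDiffAt ℝ ω Θ a := hΘan.contDiffAt
  have hω : (ω : WithTop ℕ∞) ≠ 0 := by simp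
  set Ψ := hcd.localInverse hder hω with hΨ
  have hΘa : Θ a = (z₀, 0, 0) := by
    simp only [hΘ, ha, sub_self, zero_smul]
  have hΨan : AnalyticAt ℝ Ψ (z₀, 0, 0) := by
    have := (hcd.to_localInverse hder hω).analyticAt
    rwa [hΘa] at this
  have hri : ∀ᶠ y in 𝓝 ((z₀, 0, 0) : E × ℝ × C(II, E)), Θ (Ψ y) = y := by
    have := (hcd.hasStrictFDerivAt' hder hω).eventually_right_inverse
    rwa [hΘa] at this
  set J : ℝ × E →L[ℝ] E × ℝ × C(II, E) :=
    (ContinuousLinearMap.snd ℝ ℝ E).prod ((ContinuousLinearMap.fst ℝ ℝ E).prod 0) with hJ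
  have hJa : ∀ p, J p = (p.2, p.1, 0) := fun _ => rfl
  have hJ0 : J (0, z₀) = (z₀, 0, 0) := rfl
  have h1I : (1 : ℝ) ∈ Icc (0 : ℝ) 1 := ⟨zero_le_one, le_rfl⟩
  set ev : C(II, E) →L[ℝ] E := ContinuousMap.evalCLM ℝ (⟨1, h1I⟩ : II) with hev
  have hΨJ : AnalyticAt ℝ (fun p => Ψ (J p)) (0, z₀) :=
    AnalyticAt.fun_comp (g := Ψ) (f := J) (by rw [hJ0]; exact hΨan) (J.analyticAt _)
  have hfin : AnalyticAt ℝ (fun p => ev (P3 (Ψ (J p)))) (0, z₀) :=
    AnalyticAt.fun_comp (g := ev) (ev.analyticAt _)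
      (AnalyticAt.fun_comp (g := P3) (P3.analyticAt _) hΨJ)
  refine hfin.congr ?_
  have hev1 : ∀ᶠ p in 𝓝 ((0, z₀) : ℝ × E), Θ (Ψ (J p)) = J p := by
    have hJc : Filter.Tendsto J (𝓝 (0, z₀)) (𝓝 (z₀, 0, 0)) := by
      have := J.continuous.tendsto (0, z₀)
      rwa [hJ0] at this
    exact hJc.eventually hri
  filter_upwards [hev1] with p hp
  obtain ⟨τ, z⟩ := p
  set q := Ψ (J (τ, z)) with hq
  obtain ⟨z', τ', γ⟩ := q
  have hp1 : z' = z := congrArg Prod.fst hp
  have hp2 : τ' = τ := congrArg (fun u => u.2.1) hp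
  have hp3 : γ - κ z' - τ' • T (N γ) = 0 := congrArg (fun u => u.2.2) hp
  subst hp1
  subst hp2
  change γ ⟨1, h1I⟩ = Φ τ' z'
  have hγ : ∀ s : II, γ s = z' + τ' • ∫ x in (0 : ℝ)..s, F (γ (projIcc 0 1 zero_le_one x)) := by
    intro s
    have h2 := congrArg (fun u : C(II, E) => u s) hp3
    have h3 : γ s - z' - τ' • (T (N γ)) s = 0 := h2
    rw [hT] at h3
    have h4 := sub_eq_zero.1 h3
    rw [sub_eq_iff_eq_add] at h4
    rw [h4, add_comm]
    rfl
  set u : ℝ → E := fun s => z' + τ' • ∫ x in (0 : ℝ)..s, F (γ (projIcc 0 1 zero_le_one x)) with hu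
  have hcont : Continuous fun x : ℝ => F (γ (projIcc 0 1 zero_le_one x)) :=
    hc.comp (γ.continuous.comp continuous_projIcc)
  have hu1 : ∀ s (hs : s ∈ Icc (0 : ℝ) 1), γ ⟨s, hs⟩ = u s := fun s hs => hγ ⟨s, hs⟩
  have hu2 : ∀ s ∈ Icc (0 : ℝ) 1, HasDerivAt u (τ' • F (u s)) s := by
    intro s hs
    have h5 := (intervalIntegral.integral_hasDerivAt_right
      (hcont.intervalIntegrable 0 s) (hcont.stronglyMeasurableAtFilter _ _)
      hcont.continuousAt)
    have h6 := (h5.const_smul τ').const_add z'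
    rw [projIcc_of_mem zero_le_one hs, hu1 s hs] at h6
    exact h6
  have hv : ∀ s ∈ Icc (0 : ℝ) 1,
      HasDerivAt (fun s => Φ (s * τ') z') (τ' • F (Φ (s * τ') z')) s := by
    intro s _
    have h7 : HasDerivAt (fun s : ℝ => s * τ') τ' s := by
      simpa using (hasDerivAt_id s).mul_const τ'
    exact HasDerivAt.scomp s (hd z' (s * τ')) h7
  have h8 := uniq_Icc (G := fun x => τ' • F x) ((contDiff_of hF).const_smul τ') hu2 hv (by
    simp [hu, h0])
  rw [hu1 1 h1I]
  have h9 := h8 h1I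
  simpa using h9

end Pool.Agent.NOne
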