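import Pool.Agent.NOne.BJac
import Pool.Agent.NOne.BHZ
import Pool.Agent.NOne.BCoo
import Pool.Agent.NOne.BExc
import Pool.Agent.NOne.KMain

/-!
# MP_74f563_an, n = 1, file BMain: bands next to every rational rotation number

PROOFS.
`exists_coo`.  `exists_coord` for `S1` (`S1_ana`, `S1_per`, `S1_dY_diag`, `S1_d2_pos`), then `exists_B` for
`S a b = S1 (ξ a) (ξ b) / β²` (analytic composition, `S1_diag`).
`hasBands`.  `exists_coo`; `theoremC` with `h0`: for `0 < c < ρ`, `hz` (`StrictMono ξ` from `ξ' > 0`) and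
`HZ_congr` (`|b - a| < c < ρ`, `Coo.eq`); then `band_core` and `band_jac` give
`Band L q p r (fun θ t => ξ (x θ t)) (fun θ t => nu L q p (ξ (x θ t)) (ξ (x (θ + r * (1 + t)) t)))`.
-/

set_option autoImplicit false

namespace Pool.Agent.NOne

open Set MeasureTheory

variable {L : ℝ → ℝ → ℝ → ℝ} {V : ℚ → ℝ → ℝ} {q : ℕ} {p : ℤ}

theorem exists_coo (hC : C0I L V) (hq : 0 < q) :
    ∃ (ξ : ℝ → ℝ) (β σ ρ M : ℝ) (B : ℂ → ℂ → ℂ), Coo L V q p ξ β σ ρ M B := by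
  obtain ⟨ξ, β, hβ, hξa, hξp, hξd, hd1, hd2⟩ := exists_coord (S := S1 L V q p) (S1_ana hC hq)
    (S1_per hC hq) (S1_dY_diag hC hq) (S1_d2_pos hC hq)
  have hana : AnalyticOnNhd ℝ
      (fun z : ℝ × ℝ => (fun a b => S1 L V q p (ξ a) (ξ b) / β ^ 2) z.1 z.2) univ := by
    intro z _
    have h1 : AnalyticAt ℝ (fun z : ℝ × ℝ => ξ z.1) z :=
      AnalyticAt.comp (g := ξ) (f := fun z : ℝ × ℝ => z.1) (hξa z.1 (mem_univ _)) analyticAt_fst
    have h2 : AnalyticAt ℝ (fun z : ℝ × ℝ => ξ z.2) z :=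
      AnalyticAt.comp (g := ξ) (f := fun z : ℝ × ℝ => z.2) (hξa z.2 (mem_univ _)) analyticAt_snd
    have h3 : AnalyticAt ℝ (fun z : ℝ × ℝ => S1 L V q p (ξ z.1) (ξ z.2)) z :=
      AnalyticAt.comp (g := fun z : ℝ × ℝ => S1 L V q p z.1 z.2)
        (f := fun z : ℝ × ℝ => (ξ z.1, ξ z.2)) (S1_ana hC hq (ξ z.1, ξ z.2) (mem_univ _))
        (h1.prod h2)
    exact h3.div_const
  obtain ⟨σ, ρ, M, B, hB, he⟩ := exists_B (S := fun a b => S1 L V q p (ξ a) (ξ b) / β ^ 2) hana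
    (fun a b => by
      show S1 L V q p (ξ (a + 1)) (ξ (b + 1)) / β ^ 2 = S1 L V q p (ξ a) (ξ b) / β ^ 2
      rw [hξp, hξp, S1_per hC hq])
    (fun a => by
      show S1 L V q p (ξ a) (ξ a) / β ^ 2 = 0
      rw [S1_diag hC hq, zero_div]) hd1 hd2
  exact ⟨ξ, β, σ, ρ, M, B, hξa, hξp, hξd, hβ, hB, he⟩

theorem hasBands (hC : C0I L V) : HasBands L := by
  intro q p hq
  obtain ⟨ξ, β, σ, ρ, M, B, h⟩ := exists_coo (p := p) hC hq
  have hξm : StrictMono ξ := strictMono_of_deriv_pos h.pos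
  have hξc : Continuous ξ := continuousOn_univ.1 h.ana.continuousOn
  obtain ⟨r₀, hr₀, H⟩ := theoremC h.bd fun c hc hcρ => by
    obtain ⟨κ, hκ, hh⟩ := hz (p := p) hC hq hξc h.per hξm h.β_pos hc
    exact ⟨κ, hκ, HZ_congr hh fun a b hab => h.eq a b (hab.trans hcρ)⟩
  refine ⟨r₀, hr₀, fun r hr hrr => ?_⟩
  obtain ⟨x, hx⟩ := H r hr hrr
  obtain ⟨hQ, hW, hc⟩ := band_core hC hq h hx
  exact ⟨fun θ t => ξ (x θ t),
    fun θ t => nu L q p (ξ (x θ t)) (ξ (x (θ + r * (1 + t)) t)),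
    { smoothQ := hQ
      smoothW := hW
      perQ := fun θ t ht => (hc θ t ht).1
      perW := fun θ t ht => (hc θ t ht).2.1
      mono := fun θ t ht => (hc θ t ht).2.2.1
      jac := fun θ t ht => band_jac hC hq h hx ht
      orbQ := fun θ t ht => (hc θ t ht).2.2.2.1
      orbW := fun θ t ht => (hc θ t ht).2.2.2.2 }⟩

end Pool.Agent.NOne
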