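import Pool.Agent.NOne.BTw

/-!
# MP_74f563_an, n = 1, file BNu: the velocity `nu x Y` of the solution from `x` to `Y + p` in time `q`

PROOFS.  `nu_spec`: `fx_surj`, `Classical.epsilon_spec`.  `nu_eq`: `fx_strictMono` is injective.
`nu_per`: `fx_int` with `k = 1`.  `nu_diag`: `C0I.orb` at `t = 0` (`FX L q x (V (p/q) x) = x + p`).
`nu_ana`: let `Θ (x, v) = (x, FX L q x v - p)`, a bijection of `ℝ × ℝ` (`fx_strictMono`, `fx_surj`),
analytic (`ana_fx` composed with an affine map), with derivative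
`(dx, dv) ↦ (dx, ∂_x FX dx + ∂_v FX dv)`, invertible by `fx_dv_pos`.  Its inverse is
`(x, Y) ↦ (x, nu x Y)`; it is analytic: at every point the analytic inverse function theorem
(`ContDiffAt.toOpenPartialHomeomorph`, `OpenPartialHomeomorph.contDiffAt_symm` or
`ContDiffAt.to_localInverse` with `n = ω`) gives an analytic local inverse, which agrees with the
global one near the point by injectivity of `Θ` (the local inverse `g` satisfies `Θ (g y) = y` near
`Θ a`).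
`nu_dY`: derivative of `FX L q x (nu x Y) = Y + p` with respect to `Y`.
-/

set_option autoImplicit false

namespace Pool.Agent.NOne

open Set
open scoped Topology ContDiff

variable {L : ℝ → ℝ → ℝ → ℝ} {V : ℚ → ℝ → ℝ} {q : ℕ} {p : ℤ}

/-- the initial velocity of the solution which goes from `x` to `Y + p` in the time interval
`[0, q]` -/
noncomputable def nu (L : ℝ → ℝ → ℝ → ℝ) (q : ℕ) (p : ℤ) (x Y : ℝ) : ℝ :=
  Classical.epsilon fun v => FX L q x v = Y + p

theorem nu_spec (hC : C0I L V) (hq : 0 < q) (x Y : ℝ) : FX L q x (nu L q p x Y) = Y + p :=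
  Classical.epsilon_spec (fx_surj hC hq x (Y + p))

theorem nu_eq (hC : C0I L V) (hq : 0 < q) {x Y v : ℝ} (h : FX L q x v = Y + p) :
    nu L q p x Y = v := by
  have hq' : (0 : ℝ) < q := by exact_mod_cast hq
  refine (fx_strictMono hC hq' x).injective ?_
  rw [nu_spec hC hq, h]

theorem nu_per (hC : C0I L V) (hq : 0 < q) (x Y : ℝ) :
    nu L q p (x + 1) (Y + 1) = nu L q p x Y := by
  refine nu_eq hC hq ?_
  have h1 := fx_int hC.ton q x (nu L q p x Y) 1
  rw [Int.cast_one] at h1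
  rw [h1, nu_spec hC hq]
  ring

theorem nu_diag (hC : C0I L V) (hq : 0 < q) (x : ℝ) : nu L q p x x = V (p / q) x := by
  refine nu_eq hC hq ?_
  have h1 := hC.orb q p hq x 0
  rw [zero_add, fx_zero hC.ton] at h1
  exact h1

private theorem fx_an (hC : C0I L V) (q : ℕ) :
    AnalyticOnNhd ℝ (fun z : ℝ × ℝ => FX L q z.1 z.2) univ := by
  have h1 : AnalyticOnNhd ℝ (fun z : ℝ × ℝ => (((q : ℝ), z.1, z.2) : ℝ × ℝ × ℝ)) univ :=
    (analyticOnNhd_const (v := (q : ℝ))).prod (analyticOnNhd_fst.prod analyticOnNhd_snd)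
  exact AnalyticOnNhd.comp (g := fun z : ℝ × ℝ × ℝ => FX L z.1 z.2.1 z.2.2) (ana_fx hC.ton) h1
    (fun z _ => mem_univ _)

theorem nu_ana (hC : C0I L V) (hq : 0 < q) :
    AnalyticOnNhd ℝ (fun z : ℝ × ℝ => nu L q p z.1 z.2) univ := by
  rintro ⟨x₀, Y₀⟩ -
  have hq' : (0 : ℝ) < q := by exact_mod_cast hq
  set v₀ := nu L q p x₀ Y₀ with hv₀
  set a : ℝ × ℝ := (x₀, v₀) with ha
  set G : ℝ × ℝ → ℝ := fun z => FX L q z.1 z.2 with hG
  have hGa : AnalyticAt ℝ G a := fx_an hC q a (mem_univ a)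
  set D : ℝ × ℝ →L[ℝ] ℝ := fderiv ℝ G a with hD
  have hGd : HasFDerivAt G D a := hGa.differentiableAt.hasFDerivAt
  have hD1 : D (0, 1) = deriv (fun v => FX L q x₀ v) v₀ := by
    have h1 : HasDerivAt (fun v : ℝ => ((x₀, v) : ℝ × ℝ)) (0, 1) v₀ :=
      (hasDerivAt_const v₀ x₀).prodMk (hasDerivAt_id v₀)
    exact (hGd.comp_hasDerivAt v₀ h1).deriv.symm
  have hpos : D (0, 1) ≠ 0 := by
    rw [hD1]
    exact (fx_dv_pos hC hq' x₀ v₀).ne'
  have hDlin : ∀ z : ℝ × ℝ, D z = z.1 * D (1, 0) + z.2 * D (0, 1) := by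
    intro z
    have h1 : z = z.1 • ((1, 0) : ℝ × ℝ) + z.2 • ((0, 1) : ℝ × ℝ) := by
      simp
    conv_lhs => rw [h1]
    rw [map_add, map_smul, map_smul, smul_eq_mul, smul_eq_mul]
  set Θ : ℝ × ℝ → ℝ × ℝ := fun z => (z.1, G z - p) with hΘ
  have hΘan : AnalyticAt ℝ Θ a := analyticAt_fst.prod (hGa.sub analyticAt_const)
  set fst' : ℝ × ℝ →L[ℝ] ℝ := ContinuousLinearMap.fst ℝ ℝ ℝ
  set snd' : ℝ × ℝ →L[ℝ] ℝ := ContinuousLinearMap.snd ℝ ℝ ℝ
  set e : (ℝ × ℝ) ≃L[ℝ] (ℝ × ℝ) :=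
    ContinuousLinearEquiv.equivOfInverse (fst'.prod D)
      (fst'.prod ((D (0, 1))⁻¹ • (snd' - (D (1, 0)) • fst')))
      (fun z => by
        refine Prod.ext rfl ?_
        change (D (0, 1))⁻¹ * (D z - D (1, 0) * z.1) = z.2
        rw [hDlin z]
        field_simp
        ring)
      (fun z => by
        refine Prod.ext rfl ?_
        change D (z.1, (D (0, 1))⁻¹ * (z.2 - D (1, 0) * z.1)) = z.2
        rw [hDlin]
        field_simp
        ring) with he
  have hder : HasFDerivAt Θ (e : (ℝ × ℝ) →L[ℝ] (ℝ × ℝ)) a :=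
    (fst'.hasFDerivAt (x := a)).prodMk (hGd.sub_const (p : ℝ))
  have hcd : ContDiffAt ℝ ω Θ a := hΘan.contDiffAt
  have hω : (ω : WithTop ℕ∞) ≠ 0 := by simp
  set Ψ := hcd.localInverse hder hω with hΨ
  have hΘa : Θ a = (x₀, Y₀) := by
    refine Prod.ext rfl ?_
    change FX L q x₀ v₀ - p = Y₀
    rw [hv₀, nu_spec hC hq]
    ring
  have hΨan : AnalyticAt ℝ Ψ (x₀, Y₀) := by
    have := (hcd.to_localInverse hder hω).analyticAt
    rwa [hΘa] at this
  have hri : ∀ᶠ y in 𝓝 ((x₀, Y₀) : ℝ × ℝ), Θ (Ψ y) = y := by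
    have := (hcd.hasStrictFDerivAt' hder hω).eventually_right_inverse
    rwa [hΘa] at this
  have hfin : AnalyticAt ℝ (fun y => snd' (Ψ y)) (x₀, Y₀) :=
    AnalyticAt.fun_comp (g := snd') (snd'.analyticAt _) hΨan
  refine hfin.congr ?_
  filter_upwards [hri] with y hy
  obtain ⟨x, Y⟩ := y
  have h1 : (Ψ (x, Y)).1 = x := congrArg Prod.fst hy
  have h2 : FX L q (Ψ (x, Y)).1 (Ψ (x, Y)).2 - p = Y := congrArg Prod.snd hy
  rw [h1] at h2
  have h3 : FX L q x (Ψ (x, Y)).2 = Y + p := by linarith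
  exact (nu_eq hC hq h3).symm

theorem nu_dY (hC : C0I L V) (hq : 0 < q) (x Y : ℝ) :
    HasDerivAt (fun Y => nu L q p x Y)
      (1 / deriv (fun v => FX L q x v) (nu L q p x Y)) Y := by
  have hq' : (0 : ℝ) < q := by exact_mod_cast hq
  have h1 : HasDerivAt (fun Y : ℝ => ((x, Y) : ℝ × ℝ)) (0, 1) Y :=
    (hasDerivAt_const Y x).prodMk (hasDerivAt_id Y)
  have h2 : DifferentiableAt ℝ (fun Y => nu L q p x Y) Y :=
    ((nu_ana hC hq (x, Y) (mem_univ _)).differentiableAt.hasFDerivAt.comp_hasDerivAt Y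
      h1).differentiableAt
  have h3 : HasDerivAt (fun v : ℝ => ((x, v) : ℝ × ℝ)) (0, 1) (nu L q p x Y) :=
    (hasDerivAt_const _ x).prodMk (hasDerivAt_id _)
  have h4 : DifferentiableAt ℝ (fun v => FX L q x v) (nu L q p x Y) :=
    ((fx_an hC q (x, nu L q p x Y) (mem_univ _)).differentiableAt.hasFDerivAt.comp_hasDerivAt
      (nu L q p x Y) h3).differentiableAt
  have h5 := h4.hasDerivAt.comp Y h2.hasDerivAt
  have h6 : (fun v => FX L q x v) ∘ (fun Y => nu L q p x Y) = fun Y : ℝ => Y + (p : ℝ) := by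
    funext Y
    exact nu_spec hC hq x Y
  rw [h6] at h5
  have h7 := h5.unique ((hasDerivAt_id Y).add_const (p : ℝ))
  have h8 : deriv (fun Y => nu L q p x Y) Y = 1 / deriv (fun v => FX L q x v) (nu L q p x Y) := by
    rw [eq_div_iff (fx_dv_pos hC hq' x _).ne', mul_comm]
    exact h7
  rw [← h8]
  exact h2.hasDerivAt

end Pool.Agent.NOne
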