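import Mathlib

/-!
# MP_74f563_an, n = 1, file BSup: the superposition operator is analytic

For `F : E → G` analytic on `E` the map `γ ↦ F ∘ γ` of `C([0, 1], E)` into `C([0, 1], G)` is analytic at
the constant functions.

PROOF.  Let `p` be the power series of `F` at `z`, `HasFPowerSeriesOnBall F p z R`, and take `0 < R' < R`,
`R'` finite, `R' < p.radius`.  For `n : ℕ` let `P n` be the continuous multilinear map on `C(I, E)`,
`P n (γ₁, ..., γ_n) (s) = p n (γ₁ s, ..., γ_n s)`; it is a continuous function of `s`, and
`‖P n (γ)‖ ≤ ‖p n‖ ∏ ‖γ_i‖`, so `‖P n‖ ≤ ‖p n‖` (`MultilinearMap.mkContinuous`).  So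
`P.radius ≥ p.radius` (`FormalMultilinearSeries.radius`: from the bounds `‖P n‖ r^n ≤ ‖p n‖ r^n`).
For `‖γ - z‖ < R'` (sup norm): for every `s`, `F (γ s) = ∑ p n (γ s - z, ...)` and
`∑ ‖p n‖ ‖γ - z‖^n < ∞` (`FormalMultilinearSeries.summable_norm_apply` or
`summable_norm_mul_pow`), so the series `∑ P n (γ - z, ...)` is summable in `C(I, G)`
(`Summable.of_norm_bounded`), and its sum is the function `s ↦ F (γ s)` (evaluation at `s` is a continuous
linear map).  So `HasFPowerSeriesOnBall` holds on the ball of radius `R'`.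
-/

set_option autoImplicit false

namespace Pool.Agent.NOne

open Set

/-- the unit interval -/
abbrev II : Type := Icc (0 : ℝ) 1

section

variable {E G : Type} [NormedAddCommGroup E] [NormedSpace ℝ E] [NormedAddCommGroup G]
  [NormedSpace ℝ G]

/-- the multilinear map `(γ₁, ..., γ_n) ↦ (s ↦ q (γ₁ s, ..., γ_n s))` -/
private noncomputable def cml {n : ℕ} (q : ContinuousMultilinearMap ℝ (fun _ : Fin n => E) G) :
    ContinuousMultilinearMap ℝ (fun _ : Fin n => C(II, E)) C(II, G) :=
  MultilinearMap.mkContinuous
    { toFun := fun γ => ⟨fun s => q fun i => γ i s,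
        q.cont.comp (continuous_pi fun i => (γ i).continuous)⟩
      map_update_add' := by
        intro _ γ i x y
        ext s
        have h : ∀ w : C(II, E), (fun j => (Function.update γ i w) j s) =
            Function.update (fun j => γ j s) i (w s) := by
          intro w
          funext j
          by_cases hj : j = i
          · subst hj
            simp
          · simp [hj]
        simp only [ContinuousMap.coe_mk, ContinuousMap.add_apply, h]
        exact q.map_update_add _ _ _ _
      map_update_smul' := by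
        intro _ γ i c x
        ext s
        have h : ∀ w : C(II, E), (fun j => (Function.update γ i w) j s) =
            Function.update (fun j => γ j s) i (w s) := by
          intro w
          funext j
          by_cases hj : j = i
          · subst hj
            simp
          · simp [hj]
        simp only [ContinuousMap.coe_mk, ContinuousMap.smul_apply, h]
        exact q.map_update_smul _ _ _ _ }
    ‖q‖ (by
      intro γ
      have h0 : 0 ≤ ‖q‖ * ∏ i, ‖γ i‖ :=
        mul_nonneg (norm_nonneg _) (Finset.prod_nonneg fun i _ => norm_nonneg _)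
      rw [ContinuousMap.norm_le _ h0]
      intro s
      refine (q.le_opNorm _).trans ?_
      refine mul_le_mul_of_nonneg_left ?_ (norm_nonneg _)
      exact Finset.prod_le_prod (fun i _ => norm_nonneg _) fun i _ => (γ i).norm_coe_le_norm s)

private theorem cml_apply {n : ℕ} (q : ContinuousMultilinearMap ℝ (fun _ : Fin n => E) G)
    (γ : Fin n → C(II, E)) (s : II) : cml q γ s = q fun i => γ i s := rfl

private theorem norm_cml {n : ℕ} (q : ContinuousMultilinearMap ℝ (fun _ : Fin n => E) G) :
    ‖cml q‖ ≤ ‖q‖ := MultilinearMap.mkContinuous_norm_le _ (norm_nonneg _) _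

end

theorem superpos_analytic {E G : Type} [NormedAddCommGroup E] [NormedSpace ℝ E]
    [FiniteDimensional ℝ E] [NormedAddCommGroup G] [NormedSpace ℝ G] [FiniteDimensional ℝ G]
    {F : E → G} (hF : AnalyticOnNhd ℝ F univ) (hc : Continuous F) (z : E) :
    AnalyticAt ℝ (fun γ : C(II, E) => (⟨F, hc⟩ : C(E, G)).comp γ) (ContinuousMap.const II z) := by
  have hGc : CompleteSpace G := FiniteDimensional.complete ℝ G
  obtain ⟨p, R, hp⟩ := hF z (mem_univ z)
  obtain ⟨R', hR0, hR⟩ := ENNReal.lt_iff_exists_nnreal_btwn.1 hp.r_pos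
  have hR'pos : 0 < R' := by exact_mod_cast hR0
  have hsum : Summable fun n => ‖p n‖ * (R' : ℝ) ^ n :=
    p.summable_norm_mul_pow (lt_of_lt_of_le hR hp.r_le)
  refine ⟨fun n => cml (p n), R', ?_, hR0, ?_⟩
  · apply FormalMultilinearSeries.le_radius_of_summable_norm
    refine Summable.of_nonneg_of_le (fun n => by positivity) (fun n => ?_) hsum
    exact mul_le_mul_of_nonneg_right (norm_cml _) (by positivity)
  · intro y hy
    have hy1 : ‖y‖ < R' := by
      rw [Metric.mem_eball, edist_zero_right] at hy
      have h1 : (‖y‖₊ : ENNReal) < R' := hy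
      exact_mod_cast h1
    have hs : Summable fun n => cml (p n) fun _ => y := by
      refine Summable.of_norm_bounded hsum fun n => ?_
      refine ((cml (p n)).le_opNorm _).trans ?_
      rw [Finset.prod_const, Finset.card_univ, Fintype.card_fin]
      exact mul_le_mul (norm_cml _) (pow_le_pow_left₀ (norm_nonneg _) hy1.le n)
        (by positivity) (norm_nonneg _)
    have h2 := hs.hasSum
    have h3 : (∑' n, cml (p n) fun _ => y) =
        (⟨F, hc⟩ : C(E, G)).comp (ContinuousMap.const II z + y) := by
      ext s
      have h4 : HasSum (fun n => (cml (p n) fun _ => y) s)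
          ((∑' n, cml (p n) fun _ => y) s) :=
        (ContinuousMap.evalCLM ℝ s).hasSum h2
      have h5 : y s ∈ Metric.eball (0 : E) R := by
        rw [Metric.mem_eball, edist_zero_right]
        refine lt_trans ?_ hR
        have h6 : ‖y s‖ < R' := lt_of_le_of_lt (y.norm_coe_le_norm s) hy1
        have h7 : ‖y s‖₊ < R' := h6
        exact_mod_cast h7
      have h8 := hp.hasSum h5
      exact h4.unique h8
    rw [h3] at h2
    exact h2

/-- the integration operator `γ ↦ (s ↦ ∫₀^s γ)` -/
theorem exists_integration {G : Type} [NormedAddCommGroup G] [NormedSpace ℝ G]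
    [FiniteDimensional ℝ G] :
    ∃ T : C(II, G) →L[ℝ] C(II, G), ∀ (γ : C(II, G)) (s : II),
      T γ s = ∫ x in (0 : ℝ)..s, γ (projIcc 0 1 zero_le_one x) := by
  have hGc : CompleteSpace G := FiniteDimensional.complete ℝ G
  have hcont : ∀ γ : C(II, G), Continuous fun x : ℝ => γ (projIcc 0 1 zero_le_one x) := fun γ =>
    γ.continuous.comp continuous_projIcc
  have hint : ∀ (γ : C(II, G)) (a b : ℝ), IntervalIntegrable
      (fun x : ℝ => γ (projIcc 0 1 zero_le_one x)) MeasureTheory.volume a b := fun γ a b =>
    (hcont γ).intervalIntegrable a b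
  refine ⟨LinearMap.mkContinuous
    { toFun := fun γ => ⟨fun s : II => ∫ x in (0 : ℝ)..s, γ (projIcc 0 1 zero_le_one x),
        (intervalIntegral.continuous_primitive (hint γ) 0).comp continuous_subtype_val⟩
      map_add' := ?_
      map_smul' := ?_ } 1 ?_, ?_⟩
  · intro γ γ'
    ext s
    exact intervalIntegral.integral_add (hint γ _ _) (hint γ' _ _)
  · intro c γ
    ext s
    exact intervalIntegral.integral_smul c _
  · intro γ
    rw [one_mul, ContinuousMap.norm_le _ (norm_nonneg _)]
    intro s
    have h1 : ‖∫ x in (0 : ℝ)..s, γ (projIcc 0 1 zero_le_one x)‖ ≤ ‖γ‖ * |(s : ℝ) - 0| :=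
      intervalIntegral.norm_integral_le_of_norm_le_const fun x _ => γ.norm_coe_le_norm _
    have h2 : |(s : ℝ) - 0| ≤ 1 := by
      rw [sub_zero, abs_of_nonneg s.2.1]
      exact s.2.2
    calc ‖∫ x in (0 : ℝ)..s, γ (projIcc 0 1 zero_le_one x)‖ ≤ ‖γ‖ * |(s : ℝ) - 0| := h1
      _ ≤ ‖γ‖ * 1 := mul_le_mul_of_nonneg_left h2 (norm_nonneg _)
      _ = ‖γ‖ := mul_one _
  · intro γ s
    rfl

end Pool.Agent.NOne
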