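import Pool.Agent.NOne.AAut

/-!
# MP_74f563_an, n = 1, file BTw: monotonicity of the flow in the velocity (F11, F12)

Here `C0I L V` (Defs.lean).

PROOFS.
`fx_strictMono` (`t > 0`).  For `v < v'` choose by `C0I.dense` rationals `h`, `h'` with
`v < V h x < V h' x < v'` (twice: first `h` between `v` and `v'`, then `h'` between `V h x` and `v'`);
by `C0I.mono` (contrapositive) `h < h'`, so `FX L t x (V h x) < FX L t x (V h' x)` (`C0I.cross`).
First, `v ↦ FX L t x v` is monotone: if `v < v'` and `FX v > FX v'`, by continuity (`cont_fx`) and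
density there are `h < h'` with `V h x` near `v`, `V h' x` near `v'` and `FX (V h x) > FX (V h' x)`,
contradiction.  So `FX v ≤ FX (V h x) < FX (V h' x) ≤ FX v'`.
`fx_surj`.  By `C0I.orb` at `t = 0`: `FX L q x (V (p/q) x) = x + p` for all integers `p`
(`fx_zero`); continuity and the intermediate value theorem.
`fx_dv_pos`.  `J t = ∂_v FX(t, x, v)`, `K t = ∂_v FW(t, x, v)` (`ana_fx`, `ana_fw`: everything is
smooth).  Exchanging the order of differentiation (symmetry of second derivatives of the analytic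
functions): `J' = K`, `K' = a(t) J + b(t) K`, `a = d1 (acc L)`, `b = d2 (acc L)` along the orbit,
`J 0 = 0`, `K 0 = 1`.  For `t > 0`, `J t ≥ 0` by `fx_strictMono`.  If `J t₀ = 0` for some `t₀ > 0` then
`t₀` is a local minimum of `J`, so `K t₀ = J' t₀ = 0`; by uniqueness for linear equations
(`ODE_solution_unique...`, or Gronwall for `J² + K²`) `J = K = 0` on `[0, t₀]`, contradicting `K 0 = 1`.
`fw_nat`.  Induction on `n` with `C0I.inv`, `fx_add`, `fw_add` (`k = 1`... use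
`FX L (n + 1) x v = FX L n (FX L 1 x v) (FW L 1 x v)`, i.e. `fx_add` with `t = n`, `k = 1`, for the
invariant graph: `FW L 1 x (V h x) = V h (FX L 1 x (V h x))`, then the induction hypothesis at
the point `FX L 1 x (V h x)`).
`V_int`.  `C0I.per`, induction.
-/

set_option autoImplicit false

namespace Pool.Agent.NOne

open Set

variable {L : ℝ → ℝ → ℝ → ℝ} {V : ℚ → ℝ → ℝ}

private theorem cont_fx_v (hL : Ton L) (t x : ℝ) : Continuous fun v => FX L t x v :=
  (cont_fx hL).comp (continuous_const.prodMk (continuous_const.prodMk continuous_id))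

private theorem fx_mono (hC : C0I L V) {t : ℝ} (ht : 0 < t) (x : ℝ) {v v' : ℝ} (hv : v < v') :
    FX L t x v ≤ FX L t x v' := by
  by_contra hlt
  rw [not_le] at hlt
  obtain ⟨m, hm1, hm2⟩ := exists_between hlt
  have hc := cont_fx_v hC.ton t x
  have h1 : ∀ᶠ w in nhds v, m < FX L t x w := hc.continuousAt.eventually (lt_mem_nhds hm2)
  have h2 : ∀ᶠ w in nhds v', FX L t x w < m := hc.continuousAt.eventually (gt_mem_nhds hm1)
  obtain ⟨δ, hδ, h3⟩ := Metric.eventually_nhds_iff.1 h1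
  obtain ⟨δ', hδ', h4⟩ := Metric.eventually_nhds_iff.1 h2
  obtain ⟨h, ha, hb⟩ := hC.dense x v (min (v + δ) v') (lt_min (by linarith) hv)
  obtain ⟨h', ha', hb'⟩ := hC.dense x v' (v' + δ') (by linarith)
  have hb1 : V h x < v + δ := lt_of_lt_of_le hb (min_le_left _ _)
  have hb2 : V h x < v' := lt_of_lt_of_le hb (min_le_right _ _)
  have e1 : m < FX L t x (V h x) := h3 (by
    rw [Real.dist_eq, abs_of_pos (by linarith)]
    linarith)
  have e2 : FX L t x (V h' x) < m := h4 (by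
    rw [Real.dist_eq, abs_of_pos (by linarith)]
    linarith)
  have hhh : h < h' := by
    rcases lt_trichotomy h h' with h5 | h5 | h5
    · exact h5
    · subst h5
      linarith
    · have := hC.mono h' h x h5
      linarith
  have := hC.cross h h' x t hhh ht
  linarith

private theorem clm_curve {G : ℝ × ℝ × ℝ → (ℝ × ℝ × ℝ →L[ℝ] ℝ)}
    {G' : ℝ × ℝ × ℝ →L[ℝ] ℝ × ℝ × ℝ →L[ℝ] ℝ} {c : ℝ → ℝ × ℝ × ℝ} {e : ℝ × ℝ × ℝ} {y : ℝ}
    (hG : HasFDerivAt G G' (c y)) (hc : HasDerivAt c e y) (w : ℝ × ℝ × ℝ) :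
    HasDerivAt (fun y => G (c y) w) (G' e w) y := by
  have h1 : HasFDerivAt (fun u : ℝ × ℝ × ℝ →L[ℝ] ℝ => u w)
      (ContinuousLinearMap.apply ℝ ℝ w) (G (c y)) :=
    (ContinuousLinearMap.apply ℝ ℝ w).hasFDerivAt
  exact h1.comp_hasDerivAt y (hG.comp_hasDerivAt y hc)

private theorem hd_1 (x v t : ℝ) :
    HasDerivAt (fun y : ℝ => ((y, v, t) : ℝ × ℝ × ℝ)) (1, 0, 0) x :=
  (hasDerivAt_id x).prodMk ((hasDerivAt_const x v).prodMk (hasDerivAt_const x t))

private theorem hd_3 (x v t : ℝ) :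
    HasDerivAt (fun y : ℝ => ((x, v, y) : ℝ × ℝ × ℝ)) (0, 0, 1) t :=
  (hasDerivAt_const t x).prodMk ((hasDerivAt_const t v).prodMk (hasDerivAt_id t))

private theorem sym_aux {f : ℝ × ℝ × ℝ → ℝ} {f' : ℝ × ℝ × ℝ → (ℝ × ℝ × ℝ →L[ℝ] ℝ)}
    {f'' : ℝ × ℝ × ℝ → (ℝ × ℝ × ℝ →L[ℝ] ℝ × ℝ × ℝ →L[ℝ] ℝ)}
    (h1 : ∀ z, HasFDerivAt f (f' z) z) (h2 : ∀ z, HasFDerivAt f' (f'' z) z) (x v t : ℝ)
    (hs : f'' (x, v, t) (1, 0, 0) (0, 0, 1) = f'' (x, v, t) (0, 0, 1) (1, 0, 0)) :
    d1 (d3 fun x v t => f (x, v, t)) x v t = d3 (d1 fun x v t => f (x, v, t)) x v t := by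
  have e1 : (d1 fun x v t => f (x, v, t)) = fun x v t => f' (x, v, t) (1, 0, 0) := by
    funext x v t
    exact ((h1 (x, v, t)).comp_hasDerivAt x (hd_1 x v t)).deriv
  have e3 : (d3 fun x v t => f (x, v, t)) = fun x v t => f' (x, v, t) (0, 0, 1) := by
    funext x v t
    exact ((h1 (x, v, t)).comp_hasDerivAt t (hd_3 x v t)).deriv
  rw [e1, e3]
  have e4 : d1 (fun x v t => f' (x, v, t) (0, 0, 1)) x v t = f'' (x, v, t) (1, 0, 0) (0, 0, 1) :=
    (clm_curve (h2 (x, v, t)) (hd_1 x v t) (0, 0, 1)).deriv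
  have e5 : d3 (fun x v t => f' (x, v, t) (1, 0, 0)) x v t = f'' (x, v, t) (0, 0, 1) (1, 0, 0) :=
    (clm_curve (h2 (x, v, t)) (hd_3 x v t) (1, 0, 0)).deriv
  rw [e4, e5, hs]

private theorem d1d3 {F : ℝ → ℝ → ℝ → ℝ} (hF : Ana F) (x v t : ℝ) :
    d1 (d3 F) x v t = d3 (d1 F) x v t := by
  refine sym_aux (f := fun z : ℝ × ℝ × ℝ => F z.1 z.2.1 z.2.2)
    (f' := fderiv ℝ (fun z : ℝ × ℝ × ℝ => F z.1 z.2.1 z.2.2))
    (f'' := fderiv ℝ (fderiv ℝ (fun z : ℝ × ℝ × ℝ => F z.1 z.2.1 z.2.2)))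
    (fun z => (hF z (mem_univ z)).differentiableAt.hasFDerivAt)
    (fun z => ((AnalyticOnNhd.fderiv hF) z (mem_univ z)).differentiableAt.hasFDerivAt) x v t ?_
  have hs : IsSymmSndFDerivAt ℝ (fun z : ℝ × ℝ × ℝ => F z.1 z.2.1 z.2.2) (x, v, t) :=
    (ana_contDiff hF 2).contDiffAt.isSymmSndFDerivAt (by simp)
  exact hs (1, 0, 0) (0, 0, 1)

private theorem af_inv (hL : Ton L) (t x v : ℝ) :
    AF L (-t) (FX L t x v, FW L t x v, t) = (x, v, 0) := by
  have h := af_sol hL (fx_sol hL x v) t (-t)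
  simp only [add_neg_cancel, fx_zero hL, fw_zero hL] at h
  exact h

/-- The derivative of the flow in the direction of the velocity is not zero. -/
private theorem fx_dv_ne (hL : Ton L) (t x v : ℝ)
    (hJ : deriv (fun v => FX L t x v) v = 0) (hK : deriv (fun v => FW L t x v) v = 0) :
    False := by
  have hJ1 : HasDerivAt (fun v => FX L t x v) 0 v := by
    have h1 := ana_hd3 (F := fun t x v => FX L t x v) (ana_fx hL) t x v
    have h2 : d3 (fun t x v => FX L t x v) t x v = 0 := hJ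
    rw [h2] at h1
    exact h1
  have hK1 : HasDerivAt (fun v => FW L t x v) 0 v := by
    have h1 := ana_hd3 (F := fun t x v => FW L t x v) (ana_fw hL) t x v
    have h2 : d3 (fun t x v => FW L t x v) t x v = 0 := hK
    rw [h2] at h1
    exact h1
  have h1 : DifferentiableAt ℝ (fun z : ℝ × ℝ × ℝ => AF L (-t) z)
      (FX L t x v, FW L t x v, t) := by
    have h2 : AnalyticAt ℝ (fun z : ℝ × ℝ × ℝ => ((-t, z) : ℝ × ℝ × ℝ × ℝ))
        (FX L t x v, FW L t x v, t) := analyticAt_const.prod analyticAt_id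
    have h3 : AnalyticAt ℝ (fun z : ℝ × ℝ × ℝ => AF L (-t) z) (FX L t x v, FW L t x v, t) :=
      AnalyticAt.comp (g := fun p : ℝ × ℝ × ℝ × ℝ => AF L p.1 p.2)
        (f := fun z : ℝ × ℝ × ℝ => ((-t, z) : ℝ × ℝ × ℝ × ℝ))
        (af_analytic hL (-t, _) (mem_univ _)) h2
    exact h3.differentiableAt
  have h2 : HasDerivAt (fun v => ((FX L t x v, FW L t x v, t) : ℝ × ℝ × ℝ)) (0, 0, 0) v :=
    hJ1.prodMk (hK1.prodMk (hasDerivAt_const v t))
  have h3 := h1.hasFDerivAt.comp_hasDerivAt v h2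
  have h4 : ((fun z : ℝ × ℝ × ℝ => AF L (-t) z) ∘
      fun v => ((FX L t x v, FW L t x v, t) : ℝ × ℝ × ℝ)) = fun v => (x, v, 0) := by
    funext w
    exact af_inv hL t x w
  rw [h4] at h3
  have h5 : HasDerivAt (fun v : ℝ => ((x, v, 0) : ℝ × ℝ × ℝ)) (0, 1, 0) v :=
    (hasDerivAt_const v x).prodMk ((hasDerivAt_id v).prodMk (hasDerivAt_const v 0))
  have h6 := h3.unique h5
  have h7 : ((0, 0, 0) : ℝ × ℝ × ℝ) = 0 := rfl
  rw [h7, map_zero] at h6
  have h8 := congrArg (fun z : ℝ × ℝ × ℝ => z.2.1) h6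
  simp at h8

private theorem j_deriv (hL : Ton L) (t x v : ℝ) :
    HasDerivAt (fun s => deriv (fun v => FX L s x v) v) (deriv (fun v => FW L t x v) v) t := by
  have hF : Ana (fun t x v => FX L t x v) := ana_fx hL
  have h1 := ana_hd1 (ana_d3 hF) t x v
  rw [d1d3 hF] at h1
  have h2 : d1 (fun t x v => FX L t x v) = fun t x v => FW L t x v := by
    funext t x v
    exact ((fx_sol hL x v).pos t).deriv
  rw [h2] at h1
  exact h1

theorem fx_strictMono (hC : C0I L V) {t : ℝ} (ht : 0 < t) (x : ℝ) :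
    StrictMono fun v => FX L t x v := by
  intro v v' hv
  obtain ⟨h, ha, hb⟩ := hC.dense x v v' hv
  obtain ⟨h', ha', hb'⟩ := hC.dense x (V h x) v' hb
  have hhh : h < h' := by
    rcases lt_trichotomy h h' with h5 | h5 | h5
    · exact h5
    · subst h5
      exact absurd ha' (lt_irrefl _)
    · exact absurd ha' (hC.mono h' h x h5).le.not_gt
  calc FX L t x v ≤ FX L t x (V h x) := fx_mono hC ht x ha
    _ < FX L t x (V h' x) := hC.cross h h' x t hhh ht
    _ ≤ FX L t x v' := fx_mono hC ht x hb'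

theorem fx_surj (hC : C0I L V) {q : ℕ} (hq : 0 < q) (x y : ℝ) : ∃ v, FX L q x v = y := by
  have hp : ∀ p : ℤ, FX L q x (V (p / q) x) = x + p := by
    intro p
    have h1 := hC.orb q p hq x 0
    rw [zero_add, fx_zero hC.ton] at h1
    exact h1
  have h1 : FX L q x (V ((⌊y - x⌋ : ℤ) / q) x) ≤ y := by
    rw [hp]
    linarith [Int.floor_le (y - x)]
  have h2 : y ≤ FX L q x (V ((⌈y - x⌉ : ℤ) / q) x) := by
    rw [hp]
    linarith [Int.le_ceil (y - x)]
  have h3 := mem_range_of_exists_le_of_exists_ge (cont_fx_v hC.ton q x) ⟨_, h1⟩ ⟨_, h2⟩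
  exact h3

theorem fx_dv_pos (hC : C0I L V) {t : ℝ} (ht : 0 < t) (x v : ℝ) :
    0 < deriv (fun v => FX L t x v) v := by
  have hnn : ∀ s : ℝ, 0 < s → 0 ≤ deriv (fun v => FX L s x v) v := fun s hs =>
    (fx_strictMono hC hs x).monotone.deriv_nonneg
  rcases (hnn t ht).lt_or_eq with h | h
  · exact h
  · exfalso
    have h1 := j_deriv hC.ton t x v
    have h2 : IsLocalMin (fun s => deriv (fun v => FX L s x v) v) t := by
      filter_upwards [lt_mem_nhds ht] with s hs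
      rw [← h]
      exact hnn s hs
    have h3 := h2.hasDerivAt_eq_zero h1
    exact fx_dv_ne hC.ton t x v h.symm h3

theorem fw_nat (hC : C0I L V) (h : ℚ) (x : ℝ) (n : ℕ) :
    FW L n x (V h x) = V h (FX L n x (V h x)) := by
  induction n generalizing x with
  | zero =>
    rw [Nat.cast_zero, fx_zero hC.ton, fw_zero hC.ton]
  | succ n ih =>
    have h1 := fx_add hC.ton n x (V h x) 1
    have h2 := fw_add hC.ton n x (V h x) 1
    rw [Int.cast_one] at h1 h2
    rw [hC.inv h x] at h1 h2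
    rw [Nat.cast_succ, h1, h2]
    exact ih _

theorem V_int (hC : C0I L V) (h : ℚ) (x : ℝ) (k : ℤ) : V h (x + k) = V h x := by
  have h1 : Function.Periodic (V h) 1 := fun y => hC.per h y
  have h2 := h1.int_mul k x
  rw [mul_one] at h2
  exact h2

end Pool.Agent.NOne
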