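import Pool.Agent.NOne.BrEL

/-!
# MP_74f563_an, n = 1, file BrGe: the action of an invariant measure

Copy the method of `action_ge` in Pool/Agent/MechAlpha/Upper.lean.

PROOFS.  Let `F z = L z.1 z.2.1 z.2.2 - ⟪ev c, z.2.1⟫`, continuous (`cont_L`).
`low_bdd`: by `sup_lft` with `B = |c|`: `F z ≥ -C₁` for all `z` (every `z` is
`(proj (ev x), ev v, t)`; `⟪ev c, ev v⟫ = c v ≤ |c| |v|`); take `C₁ ≥ 0`.
`act_ge`.  Let `r = ∫ F dμ`, `μ` invariant.  Key estimate: for all `n : ℕ` and all `z`,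
`n κ - C' ≤ ∫_0^{n q + 1} F (φ s z) ds` with `C' = C + 2 C₁`.  Proof: `flow_all` gives
`z = (proj (ev (X t)), ev (W t), t)` with `0 ≤ t < 1`, and `φ s z = (proj (ev (X (t+s))), ..)`
(`flow_sol`), so with `u = t + s` the integral is
`∫_t^{t + n q + 1} (lft L (X u) (W u) u - c W u) du`.  Split at `1` and `1 + n q`
(`t < 1 ≤ 1 + n q ≤ t + n q + 1`); the first and the last part are `≥ -C₁` (length `≤ 1`, integrand
`≥ -C₁`).  The middle part is, for the shifted solution `X' s = X (s + 1)`, `W' s = W (s + 1)`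
(`sol_shift_t` of AFlow.lean, `lft_pert`), `∫_0^{n q} (lft L X' W' s - c W')
= act (lft L) X' W' 0 (n q) - c (X' (n q) - X' 0) ≥ n κ - C` by hypothesis.
Fubini as in `action_ge`: `n κ - C' ≤ (n q + 1) r` for all `n`.  Divide by `n` and let `n → ∞`:
`κ ≤ q r`.
-/

set_option autoImplicit false

namespace Pool.Agent.NOne

open Set MeasureTheory Pool.Agent.MechAlpha
open scoped RealInnerProductSpace ContDiff

variable {L : Torus 1 → Vec 1 → UnitAddCircle → ℝ} {φ : ℝ → Phase 1 → Phase 1}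

theorem low_bdd (hT : Tonelli L) (c : ℝ) :
    ∃ C₁ : ℝ, 0 ≤ C₁ ∧ ∀ z : Phase 1, -C₁ ≤ L z.1 z.2.1 z.2.2 - ⟪ev c, z.2.1⟫ := by
  obtain ⟨C, hC⟩ := sup_lft hT |c|
  refine ⟨|C|, abs_nonneg _, ?_⟩
  rintro ⟨x, v, t⟩
  obtain ⟨X, rfl⟩ := proj_surj x
  obtain ⟨T, rfl⟩ := QuotientAddGroup.mk_surjective t
  have h1 : |c| * |v 0| - C ≤ L (proj (ev X)) (ev (v 0)) (T : UnitAddCircle) := hC X (v 0) T
  rw [ev_coord] at h1
  have h2 : ⟪ev c, v⟫ = c * v 0 := by
    conv_lhs => rw [← ev_coord v]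
    exact inner_ev c (v 0)
  have h3 : c * v 0 ≤ |c| * |v 0| := by
    rw [← abs_mul]
    exact le_abs_self _
  have h4 := le_abs_self C
  show -|C| ≤ L (proj (ev X)) v (T : UnitAddCircle) - ⟪ev c, v⟫
  rw [h2]
  linarith

/-- the lower bound of the action along the flow -/
private theorem brge_key (hT : Tonelli L) (hφ : IsELFlow L φ) {q : ℕ} {κ C c C₁ : ℝ}
    (hC₁ : 0 ≤ C₁) (hlow : ∀ z : Phase 1, -C₁ ≤ L z.1 z.2.1 z.2.2 - ⟪ev c, z.2.1⟫)
    (h : ∀ X W : ℝ → ℝ, Sol (lft L) X W → ∀ n : ℕ,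
      n * κ - C ≤ act (lft L) X W 0 (n * q) - c * (X (n * q) - X 0)) (n : ℕ) (z : Phase 1) :
    n * κ - C - 2 * C₁ ≤ ∫ s in (0 : ℝ)..(n * q + 1),
      (L (φ s z).1 (φ s z).2.1 (φ s z).2.2 - ⟪ev c, (φ s z).2.1⟫) := by
  obtain ⟨X, W, t, hS, ht0, ht1, rfl⟩ := flow_all hT hφ z
  have hTon := ton_lft hT hφ
  obtain ⟨hXc, hWc⟩ := sol_cont hS
  set G : ℝ → ℝ := fun u => lft L (X u) (W u) u - c * W u with hG
  have hGc : Continuous G := by
    have h1 : Continuous fun z : ℝ × ℝ × ℝ => lft L z.1 z.2.1 z.2.2 :=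
      continuousOn_univ.1 hTon.ana.continuousOn
    have h2 : Continuous fun u : ℝ => ((X u, W u, u) : ℝ × ℝ × ℝ) :=
      hXc.prodMk (hWc.prodMk continuous_id)
    exact (h1.comp h2).sub (continuous_const.mul hWc)
  have hGi : ∀ a b : ℝ, IntervalIntegrable G volume a b := fun a b =>
    hGc.intervalIntegrable a b
  have hGlow : ∀ u, -C₁ ≤ G u := by
    intro u
    have h1 := hlow (proj (ev (X u)), ev (W u), (u : UnitAddCircle))
    rw [inner_ev] at h1
    exact h1
  have e1 : (∫ s in (0 : ℝ)..(n * q + 1),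
      (L (φ s (proj (ev (X t)), ev (W t), (t : UnitAddCircle))).1
          (φ s (proj (ev (X t)), ev (W t), (t : UnitAddCircle))).2.1
          (φ s (proj (ev (X t)), ev (W t), (t : UnitAddCircle))).2.2 -
        ⟪ev c, (φ s (proj (ev (X t)), ev (W t), (t : UnitAddCircle))).2.1⟫)) =
      ∫ u in t..(t + (n * q + 1)), G u := by
    have h1 : ∀ s : ℝ, (L (φ s (proj (ev (X t)), ev (W t), (t : UnitAddCircle))).1
          (φ s (proj (ev (X t)), ev (W t), (t : UnitAddCircle))).2.1
          (φ s (proj (ev (X t)), ev (W t), (t : UnitAddCircle))).2.2 -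
        ⟪ev c, (φ s (proj (ev (X t)), ev (W t), (t : UnitAddCircle))).2.1⟫) = G (t + s) := by
      intro s
      rw [flow_sol hT hφ hS t s]
      show lft L (X (t + s)) (W (t + s)) (t + s) - ⟪ev c, ev (W (t + s))⟫ = _
      rw [inner_ev]
    rw [intervalIntegral.integral_congr (g := fun s => G (t + s)) (fun s _ => h1 s),
      intervalIntegral.integral_comp_add_left (fun u => G u) t, add_zero]
  rw [e1]
  have hn0 : (0 : ℝ) ≤ n * q := by positivity
  have e2 : ∫ u in t..(t + (n * q + 1)), G u =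
      (∫ u in t..1, G u) + (∫ u in (1 : ℝ)..(1 + n * q), G u) +
        ∫ u in (1 + n * q : ℝ)..(t + (n * q + 1)), G u := by
    rw [intervalIntegral.integral_add_adjacent_intervals (hGi _ _) (hGi _ _),
      intervalIntegral.integral_add_adjacent_intervals (hGi _ _) (hGi _ _)]
  have hpart : ∀ a b : ℝ, a ≤ b → b - a ≤ 1 → -C₁ ≤ ∫ u in a..b, G u := by
    intro a b hab hle
    have h1 : ∫ u in a..b, (-C₁) ≤ ∫ u in a..b, G u :=
      intervalIntegral.integral_mono_on hab (by simp) (hGi _ _) fun u _ => hGlow u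
    rw [intervalIntegral.integral_const, smul_eq_mul] at h1
    nlinarith
  have h1 := hpart t 1 ht1.le (by linarith)
  have h3 := hpart (1 + n * q) (t + (n * q + 1)) (by linarith) (by linarith)
  have h2 : n * κ - C ≤ ∫ u in (1 : ℝ)..(1 + n * q), G u := by
    have hS' : Sol (lft L) (fun s => X (s + 1)) (fun s => W (s + 1)) := by
      have := sol_shift_t hTon hS 1
      simpa using this
    have h4 := h _ _ hS' n
    have h5 : act (lft L) (fun s => X (s + 1)) (fun s => W (s + 1)) 0 (n * q) =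
        ∫ u in (1 : ℝ)..(1 + n * q), lft L (X u) (W u) u := by
      unfold act
      have h6 : ∀ s : ℝ, lft L (X (s + 1)) (W (s + 1)) s =
          (fun u => lft L (X u) (W u) u) (s + 1) := by
        intro s
        exact (lft_pert L _ _ s).symm
      rw [intervalIntegral.integral_congr
        (g := fun s => (fun u => lft L (X u) (W u) u) (s + 1)) (fun s _ => h6 s),
        intervalIntegral.integral_comp_add_right (fun u => lft L (X u) (W u) u) 1]
      congr 1 <;> ring
    have h7 : ∫ u in (1 : ℝ)..(1 + n * q), W u = X (1 + n * q) - X 1 :=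
      intervalIntegral.integral_eq_sub_of_hasDerivAt (fun u _ => hS.pos u)
        (hWc.intervalIntegrable _ _)
    have h8 : Continuous fun u => lft L (X u) (W u) u := by
      have h9 := hGc.add (continuous_const.mul hWc : Continuous fun u => c * W u)
      refine h9.congr fun u => ?_
      show lft L (X u) (W u) u - c * W u + c * W u = _
      ring
    have h10 : ∫ u in (1 : ℝ)..(1 + n * q), G u =
        (∫ u in (1 : ℝ)..(1 + n * q), lft L (X u) (W u) u) -
          c * ∫ u in (1 : ℝ)..(1 + n * q), W u := by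
      have h11 : Continuous fun u => c * W u := continuous_const.mul hWc
      rw [← intervalIntegral.integral_const_mul, ← intervalIntegral.integral_sub
        (h8.intervalIntegrable _ _) (h11.intervalIntegrable _ _)]
    rw [h10, h7, ← h5]
    have e3 : (0 : ℝ) + 1 = 1 := zero_add 1
    have e4 : (n * q : ℝ) + 1 = 1 + n * q := add_comm _ _
    simp only [e3, e4] at h4
    exact h4
  rw [e2]
  linarith

theorem act_ge' (hT : Tonelli L) (hφ : IsELFlow L φ) {q : ℕ} (hq : 0 < q) {κ C c : ℝ}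
    (h : ∀ X W : ℝ → ℝ, Sol (lft L) X W → ∀ n : ℕ,
      n * κ - C ≤ act (lft L) X W 0 (n * q) - c * (X (n * q) - X 0))
    {r : ℝ} (hr : r ∈ actions L φ (ev c)) : κ / q ≤ r := by
  obtain ⟨μ, ⟨hμ, hinv⟩, hint, rfl⟩ := hr
  obtain ⟨C₁, hC₁, hlow⟩ := low_bdd hT c
  set F : Phase 1 → ℝ := fun z => L z.1 z.2.1 z.2.2 - ⟪ev c, z.2.1⟫ with hF
  have hFc : Continuous F := by
    have h2 : Continuous fun z : Phase 1 => z.2.1 := continuous_fst.comp continuous_snd
    exact (cont_L hT).sub (continuous_const.inner h2)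
  have hφc : ∀ s, Continuous (φ s) := fun s => by
    have := hφ.cont.comp (Continuous.prodMk_right (X := ℝ) (Y := Phase 1) s)
    exact this
  -- lower bound along the orbits
  have key : ∀ (n : ℕ) (z : Phase 1), n * κ - C - 2 * C₁ ≤
      ∫ s in (0 : ℝ)..(n * q + 1), F (φ s z) := fun n z => brge_key hT hφ hC₁ hlow h n z
  -- Fubini
  have main : ∀ n : ℕ, n * κ - C - 2 * C₁ ≤ (n * q + 1) * ∫ z, F z ∂μ := by
    intro n
    have hτ : (0 : ℝ) ≤ n * q + 1 := by positivity
    have hmeas : ∀ s, MeasurePreserving (φ s) μ μ := fun s => ⟨(hφc s).measurable, hinv s⟩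
    have hints : ∀ s, Integrable (fun z => F (φ s z)) μ := fun s =>
      (hmeas s).integrable_comp_of_integrable hint
    have hjoint : Continuous (Function.uncurry fun (s : ℝ) (z : Phase 1) => F (φ s z)) :=
      hFc.comp hφ.cont
    have hprod : Integrable (Function.uncurry fun (s : ℝ) (z : Phase 1) => F (φ s z))
        ((volume.restrict (Ioc (0 : ℝ) (n * q + 1))).prod μ) := by
      rw [integrable_prod_iff hjoint.aestronglyMeasurable]
      refine ⟨Filter.Eventually.of_forall fun s => hints s, ?_⟩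
      have h1 : ∀ s : ℝ, ∫ z, ‖F (φ s z)‖ ∂μ = ∫ z, ‖F z‖ ∂μ := by
        intro s
        have h2 := integral_map (hmeas s).aemeasurable
          (f := fun z => ‖F z‖) (μ := μ) (hFc.norm.aestronglyMeasurable)
        rw [hinv s] at h2
        exact h2.symm
      have h2 : (fun s : ℝ => ∫ z, ‖F (φ s z)‖ ∂μ) = fun _ => ∫ z, ‖F z‖ ∂μ := funext h1
      show Integrable (fun s : ℝ => ∫ z, ‖F (φ s z)‖ ∂μ) _
      rw [h2]
      exact integrable_const _
    have hswap := integral_integral_swap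
      (μ := volume.restrict (Ioc (0 : ℝ) (n * q + 1))) (ν := μ) hprod
    have h1 : ∀ s : ℝ, ∫ z, F (φ s z) ∂μ = ∫ z, F z ∂μ := by
      intro s
      have h2 := integral_map (hmeas s).aemeasurable (f := F) (μ := μ) hFc.aestronglyMeasurable
      rw [hinv s] at h2
      exact h2.symm
    have h2 : ∫ s in Ioc (0 : ℝ) (n * q + 1), ∫ z, F (φ s z) ∂μ =
        (n * q + 1) * ∫ z, F z ∂μ := by
      simp only [h1]
      rw [setIntegral_const]
      simp [hτ]
    rw [← h2, hswap]
    have h3 : ∫ z, (n * κ - C - 2 * C₁) ∂μ = n * κ - C - 2 * C₁ := by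
      rw [integral_const]
      simp
    rw [← h3]
    refine integral_mono (integrable_const _) hprod.integral_prod_right fun z => ?_
    have h4 := key n z
    rw [intervalIntegral.integral_of_le hτ] at h4
    exact h4
  -- the limit
  have hq' : (0 : ℝ) < q := by exact_mod_cast hq
  rw [div_le_iff₀ hq']
  by_contra hcon
  push Not at hcon
  set r : ℝ := ∫ z, F z ∂μ with hr
  have hd : 0 < κ - r * q := by linarith
  obtain ⟨n, hn⟩ := exists_nat_gt ((|C + 2 * C₁ + r|) / (κ - r * q))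
  rw [div_lt_iff₀ hd] at hn
  have h1 := main n
  have h2 := le_abs_self (C + 2 * C₁ + r)
  nlinarith

end Pool.Agent.NOne
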