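import Pool.Agent.NOne.BrMem
import Pool.Agent.NOne.BrGe
import Pool.Agent.NOne.AAl

/-!
# MP_74f563_an, n = 1, file BrAl: Mather's function and the abstract interface `AlOK`

PROOFS.
`bdd_actions`: `low_bdd` (BrGe.lean): for an invariant probability measure `∫ F dμ ≥ -C₁`
(`integral_mono` with the constant).
`nonempty_actions`: `exists_loop_some` (AMz.lean) for `q = 1`, `p = 0` gives a periodic solution
(`Loop.sol`, `Loop.per`); `act_mem`.
`al_ok.ge`: `act_mem` and `csInf_le` with `bdd_actions`: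
`alpha L φ (ev c) = -sInf ≥ -((act - c p) / q)`.
`al_ok.le`: `le_csInf` with `nonempty_actions` and `act_ge'`: `sInf ≥ κ / q`.
-/

set_option autoImplicit false

namespace Pool.Agent.NOne

open Set MeasureTheory Pool.Agent.MechAlpha
open scoped RealInnerProductSpace ContDiff

variable {L : Torus 1 → Vec 1 → UnitAddCircle → ℝ} {φ : ℝ → Phase 1 → Phase 1}

theorem bdd_actions (hT : Tonelli L) (c : ℝ) : BddBelow (actions L φ (ev c)) := by
  obtain ⟨C₁, -, h1⟩ := low_bdd hT c
  refine ⟨-C₁, ?_⟩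
  rintro r ⟨μ, ⟨hμ, -⟩, hi, rfl⟩
  have h2 : ∫ _z : Phase 1, (-C₁) ∂μ ≤ ∫ z, (L z.1 z.2.1 z.2.2 - ⟪ev c, z.2.1⟫) ∂μ :=
    integral_mono (integrable_const _) hi h1
  simpa using h2

theorem nonempty_actions (hT : Tonelli L) (hφ : IsELFlow L φ) (c : ℝ) :
    (actions L φ (ev c)).Nonempty := by
  obtain ⟨X, W, hl⟩ := exists_loop_some (ton_lft hT hφ) (q := 1) one_pos 0
  exact ⟨_, act_mem hT hφ hl.sol one_pos hl.per c⟩

theorem al_ok (hT : Tonelli L) (hφ : IsELFlow L φ) :
    AlOK (lft L) fun c => alpha L φ (ev c) := by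
  constructor
  · intro q p X W hq hs hX c
    have h1 := csInf_le (bdd_actions hT c) (act_mem hT hφ hs hq hX c)
    show _ ≤ -sInf (actions L φ (ev c))
    have h2 : (c * p - act (lft L) X W 0 q) / q = -((act (lft L) X W 0 q - c * p) / q) := by
      ring
    rw [h2]
    linarith
  · intro q κ C c hq h
    have h1 : κ / q ≤ sInf (actions L φ (ev c)) :=
      le_csInf (nonempty_actions hT hφ c) fun r hr => act_ge' hT hφ hq h hr
    show -sInf (actions L φ (ev c)) ≤ _
    have h2 : -κ / (q : ℝ) = -(κ / q) := by ring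
    rw [h2]
    linarith

end Pool.Agent.NOne
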