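import Pool.Agent.NOne.BrDefs

/-!
# MP_74f563_an, file BrConv: strict convexity from a positive second derivative

PROOFS.
`strictConvex_of_pos`: `f` is smooth.  Let `x ≠ y` and `g s = f (x + s • (y - x))`.  By the chain rule
`g' s = fderiv ℝ f (..) (y - x)` and `g'' s = fderiv ℝ (fderiv ℝ f) (..) (y - x) (y - x) > 0`; so `g` is
strictly convex on `ℝ` (`strictConvexOn_of_deriv2_pos'` or `strictMono` of `deriv g` and
`StrictMonoOn.strictConvexOn_of_deriv`), and the inequality for `f` at `a • x + b • y`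
(`a + b = 1`, `a • x + b • y = x + b • (y - x)`) is the inequality for `g` at `b = a * 0 + b * 1`.
`strictConvex_ev`: `ev` is linear and injective (`ev_add`, `ev_smul`, `ev_apply`).
-/

set_option autoImplicit false

namespace Pool.Agent.NOne

open Set MeasureTheory Pool.Agent.MechAlpha
open scoped RealInnerProductSpace ContDiff

theorem strictConvex_of_pos {n : ℕ} {f : Vec n → ℝ} (hf : AnalyticOnNhd ℝ f univ)
    (h : ∀ c w : Vec n, w ≠ 0 → 0 < fderiv ℝ (fderiv ℝ f) c w w) :
    StrictConvexOn ℝ univ f := by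
  have hd1 : ∀ z, HasFDerivAt f (fderiv ℝ f z) z := fun z =>
    (hf z (mem_univ z)).differentiableAt.hasFDerivAt
  have hd2 : ∀ z, HasFDerivAt (fderiv ℝ f) (fderiv ℝ (fderiv ℝ f) z) z := fun z =>
    (hf.fderiv z (mem_univ z)).differentiableAt.hasFDerivAt
  refine ⟨convex_univ, fun x _ y _ hxy a b ha hb hab => ?_⟩
  have hd : y - x ≠ 0 := sub_ne_zero.2 hxy.symm
  have hline : ∀ s : ℝ, HasDerivAt (fun s : ℝ => x + s • (y - x)) (y - x) s := by
    intro s
    have h1 := ((hasDerivAt_id s).smul_const (y - x)).const_add x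
    rwa [one_smul] at h1
  have hg1 : ∀ s : ℝ, HasDerivAt (fun s : ℝ => f (x + s • (y - x)))
      (fderiv ℝ f (x + s • (y - x)) (y - x)) s := fun s =>
    (hd1 (x + s • (y - x))).comp_hasDerivAt s (hline s)
  have hg2 : ∀ s : ℝ, HasDerivAt (fun s : ℝ => fderiv ℝ f (x + s • (y - x)) (y - x))
      (fderiv ℝ (fderiv ℝ f) (x + s • (y - x)) (y - x) (y - x)) s := by
    intro s
    have h1 : HasDerivAt (fun s : ℝ => fderiv ℝ f (x + s • (y - x)))
        (fderiv ℝ (fderiv ℝ f) (x + s • (y - x)) (y - x)) s :=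
      (hd2 (x + s • (y - x))).comp_hasDerivAt s (hline s)
    exact (ContinuousLinearMap.apply ℝ ℝ (y - x)).hasFDerivAt.comp_hasDerivAt s h1
  have hderiv : deriv (fun s : ℝ => f (x + s • (y - x))) =
      fun s : ℝ => fderiv ℝ f (x + s • (y - x)) (y - x) := funext fun s => (hg1 s).deriv
  have hsc : StrictConvexOn ℝ univ (fun s : ℝ => f (x + s • (y - x))) := by
    refine strictConvexOn_univ_of_deriv2_pos
      (continuous_iff_continuousAt.2 fun s => (hg1 s).continuousAt) fun s => ?_
    change 0 < deriv (deriv (fun s : ℝ => f (x + s • (y - x)))) s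
    rw [hderiv, (hg2 s).deriv]
    exact h _ _ hd
  have key := hsc.2 (mem_univ (0 : ℝ)) (mem_univ (1 : ℝ)) zero_ne_one ha hb hab
  have e1 : x + (a • (0 : ℝ) + b • (1 : ℝ)) • (y - x) = a • x + b • y := by
    have ha' : a = 1 - b := by linarith
    rw [ha', smul_zero, zero_add, smul_eq_mul, mul_one]
    module
  simp only [e1, zero_smul, add_zero, one_smul, add_sub_cancel] at key
  exact key

theorem strictConvex_ev {f : Vec 1 → ℝ} (h : StrictConvexOn ℝ univ f) :
    StrictConvexOn ℝ univ fun c : ℝ => f (ev c) := by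
  refine ⟨convex_univ, fun x _ y _ hxy a b ha hb hab => ?_⟩
  have hne : ev x ≠ ev y := by
    intro he
    apply hxy
    have h1 := congrArg (fun v : Vec 1 => v 0) he
    simpa [ev_apply] using h1
  have key := h.2 (mem_univ (ev x)) (mem_univ (ev y)) hne ha hb hab
  have e1 : ev (a • x + b • y) = a • ev x + b • ev y := by
    rw [smul_eq_mul, smul_eq_mul, ev_add, ev_smul, ev_smul]
  rw [← e1] at key
  exact key

end Pool.Agent.NOne
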