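import Pool.Agent.NOne.BrPre
import Pool.Agent.NOne.AFlow

/-!
# MP_74f563_an, n = 1, file BrEL: Euler-Lagrange curves and solutions

PROOFS.
`sol_of_isEL`.  Put `X t = γ t 0`, `W t = deriv γ t 0`; so `γ t = ev (X t)`, `deriv γ t = ev (W t)`
(`ev_coord`).  `pos`: `γ` is differentiable, apply `coL` (`coL.hasFDerivAt.comp_hasDerivAt`).
`vel`: put `P t = d2 (lft L) (X t) (W t) t`.  Applying to the second part of `IsEL` the evaluation at
`ev 1` (a continuous linear map, `ContinuousLinearMap.apply`) and `d2_lft`, `d1_lft`: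
`HasDerivAt P (d1 (lft L) (X t) (W t) t) t`.  By `lv_mom` (DLeg.lean, `pre_lft`)
`W s = lv (lft L) (X s) (P s) s` for all `s`; `lv` is smooth (`lv_smooth`), `X` and `P` are
differentiable, so `W` is differentiable at `t`, `HasDerivAt W w t` for some `w`.  The chain rule
(`ana_chain` for `d2 (lft L)`, as in the proof of `sol_mom` in AFlow.lean) gives
`HasDerivAt P (d1 (d2 ℓ) * W t + d2 (d2 ℓ) * w + d3 (d2 ℓ)) t`; by uniqueness of the derivative
`d1 (d2 ℓ) W + d2 (d2 ℓ) w + d3 (d2 ℓ) = d1 ℓ`, so `w = acc ℓ (X t) (W t) t` (`conv_lft`).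
`ton_lft`: `pre_lft`, `lft_perx`, `lft_pert`; `compl`: `IsELFlow.orbit (ev x) (ev v) s` and
`sol_of_isEL`.
`flow_sol`: `IsELFlow.orbit (ev (X t)) (ev (W t)) t` gives `γ` with `IsEL L γ`, `γ t = ev (X t)`,
`deriv γ t = ev (W t)` and the formula for `φ`; `sol_of_isEL` and uniqueness (`sol_uniq` of AFlow.lean)
give `γ s 0 = X s`, `deriv γ s 0 = W s` for all `s`; `ev_coord`.
`flow_all`: every point of the phase space is `(proj (ev x), ev v, t)` (`proj_surj`, `ev_coord`,
`QuotientAddGroup.mk_surjective`), and `ton_lft.compl` gives the solution.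
`mom_lft`: `mom L z` is the gradient of `w ↦ L z.1 w z.2.2` at `z.2.1`; its coordinate is
`⟪ev 1, gradient⟫ = fderiv (ev 1)` (`inner_gradient_left` or `InnerProductSpace.toDual_symm_apply`),
`d2_lft`.
-/

set_option autoImplicit false

namespace Pool.Agent.NOne

open Set MeasureTheory Pool.Agent.MechAlpha
open scoped RealInnerProductSpace ContDiff

variable {L : Torus 1 → Vec 1 → UnitAddCircle → ℝ} {φ : ℝ → Phase 1 → Phase 1}

theorem sol_of_isEL (hT : Tonelli L) {γ : ℝ → Vec 1} (h : IsEL L γ) :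
    Sol (lft L) (fun t => γ t 0) (fun t => deriv γ t 0) := by
  have hpre := pre_lft hT
  have hpos : ∀ t, HasDerivAt (fun t => γ t 0) (deriv γ t 0) t := by
    intro t
    have h1 := (h.1 t).hasDerivAt
    exact coL.hasFDerivAt.comp_hasDerivAt t h1
  refine ⟨hpos, fun t => ?_⟩
  have hP : ∀ t, HasDerivAt (fun s => d2 (lft L) (γ s 0) (deriv γ s 0) s)
      (d1 (lft L) (γ t 0) (deriv γ t 0) t) t := by
    intro t
    have h2 := (h.2 t).clm_apply (hasDerivAt_const t (ev 1))
    rw [map_zero, add_zero] at h2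
    have e : (fun s => d2 (lft L) (γ s 0) (deriv γ s 0) s) = fun s =>
        fderiv ℝ (fun v : Vec 1 => L (proj (γ s)) v (s : UnitAddCircle)) (deriv γ s)
          (ev 1) := by
      funext s
      rw [d2_lft hT, ev_coord, ev_coord]
    rw [e, d1_lft hT, ev_coord, ev_coord]
    exact h2
  have hW : (fun s => deriv γ s 0) = fun s =>
      lv (lft L) (γ s 0) (d2 (lft L) (γ s 0) (deriv γ s 0) s) s :=
    funext fun s => (lv_mom hpre _ _ _).symm
  have hd : DifferentiableAt ℝ (fun s => deriv γ s 0) t := by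
    rw [hW]
    have g1 : DifferentiableAt ℝ (fun z : ℝ × ℝ × ℝ => lv (lft L) z.1 z.2.1 z.2.2)
        (γ t 0, d2 (lft L) (γ t 0) (deriv γ t 0) t, t) :=
      ((lv_smooth hpre).contDiffAt).differentiableAt (by simp)
    exact DifferentiableAt.comp t g1 ((hpos t).differentiableAt.prodMk
      ((hP t).differentiableAt.prodMk differentiableAt_id))
  have hw := hd.hasDerivAt
  have h1 := ana_chain (ana_d2 hpre.ana) (hpos t) hw (hasDerivAt_id t)
  have h2 := h1.unique (hP t)
  have hc := conv_lft hT (γ t 0) (deriv γ t 0) t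
  have h3 : deriv (fun s => deriv γ s 0) t = acc (lft L) (γ t 0) (deriv γ t 0) t := by
    unfold acc
    rw [eq_div_iff hc.ne']
    simp only [id_eq, mul_one] at h2
    linarith
  rw [← h3]
  exact hw

theorem ton_lft (hT : Tonelli L) (hφ : IsELFlow L φ) : Ton (lft L) := by
  have hpre := pre_lft hT
  refine ⟨hpre.ana, lft_perx L, lft_pert L, hpre.conv, hpre.sup, fun s x v => ?_⟩
  obtain ⟨γ, h1, h2, h3, -⟩ := hφ.orbit (ev x) (ev v) s
  refine ⟨fun t => γ t 0, fun t => deriv γ t 0, sol_of_isEL hT h1, ?_, ?_⟩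
  · simp only [h2, ev_apply]
  · simp only [h3, ev_apply]

theorem flow_sol (hT : Tonelli L) (hφ : IsELFlow L φ) {X W : ℝ → ℝ} (h : Sol (lft L) X W)
    (t s : ℝ) : φ s (proj (ev (X t)), ev (W t), (t : UnitAddCircle)) =
      (proj (ev (X (t + s))), ev (W (t + s)), ((t + s : ℝ) : UnitAddCircle)) := by
  obtain ⟨γ, h1, h2, h3, h4⟩ := hφ.orbit (ev (X t)) (ev (W t)) t
  have h5 := sol_of_isEL hT h1
  obtain ⟨h6, h7⟩ := sol_uniq (ton_lft hT hφ) h h5 (s := t) (by simp only [h2, ev_apply])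
    (by simp only [h3, ev_apply])
  have h8 : ev (X (t + s)) = γ (t + s) := by
    rw [congrFun h6 (t + s), ev_coord]
  have h9 : ev (W (t + s)) = deriv γ (t + s) := by
    rw [congrFun h7 (t + s), ev_coord]
  rw [h4 s, h8, h9]

private theorem coe_fract (t : ℝ) : ((Int.fract t : ℝ) : UnitAddCircle) = (t : UnitAddCircle) := by
  have h3 : (((⌊t⌋ : ℤ) : ℝ) : UnitAddCircle) = 0 :=
    (AddCircle.coe_eq_zero_iff (p := (1 : ℝ))).2 ⟨⌊t⌋, by simp⟩
  conv_rhs => rw [← Int.fract_add_floor t, AddCircle.coe_add, h3, add_zero]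

theorem flow_all (hT : Tonelli L) (hφ : IsELFlow L φ) (z : Phase 1) :
    ∃ (X W : ℝ → ℝ) (t : ℝ), Sol (lft L) X W ∧ 0 ≤ t ∧ t < 1 ∧
      z = (proj (ev (X t)), ev (W t), (t : UnitAddCircle)) := by
  obtain ⟨z1, v, τ⟩ := z
  obtain ⟨x, hx⟩ := proj_surj z1
  obtain ⟨t, ht⟩ := QuotientAddGroup.mk_surjective τ
  obtain ⟨X, W, h1, h2, h3⟩ := (ton_lft hT hφ).compl (Int.fract t) x (v 0)
  refine ⟨X, W, Int.fract t, h1, Int.fract_nonneg t, Int.fract_lt_one t, ?_⟩
  rw [h2, h3, hx, ev_coord, coe_fract]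
  exact Prod.ext rfl (Prod.ext rfl ht.symm)

theorem mom_lft (hT : Tonelli L) (x v t : ℝ) :
    mom L (proj (ev x), ev v, (t : UnitAddCircle)) = ev (d2 (lft L) x v t) := by
  have h1 : ⟪mom L (proj (ev x), ev v, (t : UnitAddCircle)), ev 1⟫ = d2 (lft L) x v t := by
    rw [d2_lft hT]
    unfold mom gradient
    exact InnerProductSpace.toDual_symm_apply
  rw [← h1, ← ev_coord (mom L (proj (ev x), ev v, (t : UnitAddCircle))), inner_ev, mul_one,
    ev_coord]

end Pool.Agent.NOne
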