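import Pool.Agent.NOne.DStep

/-!
# MP_74f563_an, n = 1, file DSum: a function of the rotation number which is smooth everywhere
(DStep.lean only)

PROOFS.
`exists_psi`.  Let `ι` be the type of pairs of rationals `i = (a, b)` with `a < b` and
`Icc (a : ℝ) b ⊆ G` (a subtype of `ℚ × ℚ`, `Encodable`), `f_i z = stp a b (ρ z)`.  By `stp_comp_bdd` choose
`C_{i,k} ≥ 0` with `‖iteratedFDeriv ℝ k f_i z‖ ≤ C_{i,k}`, and `B_i ≥ 0` with `|stp a b s| ≤ B_i`
(`stp_bdd`), `D_i ≥ 0` a bound for the derivative of `stp a b` (only if needed).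
Put `n = Encodable.encode i` and `c_i = (1/2)^n / (1 + B_i + ∑_{k ≤ n} C_{i,k}) > 0`, so
`c_i C_{i,k} ≤ (1/2)^n` for all `k ≤ n`, and `c_i B_i ≤ (1/2)^n`.
`ψ s = ∑' i, c_i * stp a_i b_i s`.  Then `ψ (ρ z) = ∑' i, c_i • f_i z` is smooth by
`contDiff_tsum_of_eventually` with `v k i = (1/2)^(encode i)`, summable by
`summable_geometric_two_encode` (for `k = 0` the bound must hold for all `i`: read the statement;
`‖iteratedFDeriv ℝ k (c • f) z‖ = c ‖iteratedFDeriv ℝ k f z‖`, `iteratedFDeriv_const_smul_apply`; the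
exceptional set for `k` is contained in `{i | encode i < k}`, which is finite).
Derivative at `z` with `ρ z ∈ G`: the vector `u` with `fderiv ℝ ρ z u ≠ 0` exists (`Prp.der`);
replace `u` by `-u` so that `m = fderiv ℝ ρ z u > 0`.  Let `g s = ψ (ρ (z + s • u))`, it has derivative
`fderiv ℝ (ψ ∘ ρ) z u` at `0`.  Choose `i₀ = (a, b)` with `a < ρ z < b` and `Icc a b ⊆ G` (`G` is open,
rationals are dense).  All summands `c_i stp a_i b_i` are nondecreasing, so for `s > 0` small
(`ρ (z + s u) ≥ ρ z`, as the derivative `m` is positive),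
`g s - g 0 ≥ c_{i₀} (stp a b (ρ (z + s u)) - stp a b (ρ z))`; divide by `s` and let `s → 0+`:
`fderiv ℝ (ψ ∘ ρ) z u ≥ c_{i₀} (stp a b)'(ρ z) m > 0` (`expNegInvGlue.pos_of_pos`).
(Alternatively `hasFDerivAt_tsum`.)
`dense_pre`.  Let `(x, v)` and `ε > 0`: `ρ (x, v) < ρ (x, v + ε)` (`Prp.mono`); `G` is dense, so there is
`g ∈ G` between; by continuity of `w ↦ ρ (x, w)` (intermediate value theorem) `g = ρ (x, w)` with
`v < w < v + ε`.
-/

set_option autoImplicit false

namespace Pool.Agent.NOne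

open Set Filter Topology
open scoped ContDiff

theorem exists_psi {ρ : ℝ × ℝ → ℝ} {G : Set ℝ} (h : Prp ρ G) :
    ∃ ψ : ℝ → ℝ, ContDiff ℝ ∞ (fun z => ψ (ρ z)) ∧
      ∀ z, ρ z ∈ G → fderiv ℝ (fun z => ψ (ρ z)) z ≠ 0 := by
  classical
  let ι : Type := {i : ℚ × ℚ // i.1 < i.2 ∧ Icc (i.1 : ℝ) i.2 ⊆ G}
  haveI : Encodable ι := Encodable.ofCountable ι
  let st : ι → ℝ → ℝ := fun i => stp (i.1.1 : ℝ) i.1.2
  let f : ι → ℝ × ℝ → ℝ := fun i z => st i (ρ z)
  have hlt : ∀ i : ι, (i.1.1 : ℝ) < i.1.2 := fun i => by exact_mod_cast i.2.1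
  have hf : ∀ i, ContDiff ℝ ∞ (f i) := fun i => stp_comp h (hlt i) i.2.2
  have hbd : ∀ (i : ι) (k : ℕ), ∃ C, ∀ z, ‖iteratedFDeriv ℝ k (f i) z‖ ≤ C :=
    fun i k => stp_comp_bdd h (hlt i) i.2.2 k
  choose C hC using hbd
  have hC0 : ∀ i k, 0 ≤ C i k := fun i k => (norm_nonneg _).trans (hC i k 0)
  let S : ι → ℝ := fun i => 1 + ∑ k ∈ Finset.range (Encodable.encode i + 2), C i k
  have hS : ∀ i, 0 < S i := by
    intro i
    have : 0 ≤ ∑ k ∈ Finset.range (Encodable.encode i + 2), C i k :=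
      Finset.sum_nonneg fun k _ => hC0 i k
    show 0 < 1 + ∑ k ∈ Finset.range (Encodable.encode i + 2), C i k
    linarith
  have hCS : ∀ i k, k ≤ Encodable.encode i + 1 → C i k ≤ S i := by
    intro i k hk
    have h1 : C i k ≤ ∑ k ∈ Finset.range (Encodable.encode i + 2), C i k :=
      Finset.single_le_sum (f := fun k => C i k) (fun k _ => hC0 i k)
        (Finset.mem_range.2 (by omega))
    show C i k ≤ 1 + ∑ k ∈ Finset.range (Encodable.encode i + 2), C i k
    linarith
  let c : ι → ℝ := fun i => (1 / 2 : ℝ) ^ Encodable.encode i / S i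
  have hc0 : ∀ i, 0 < c i := fun i => div_pos (by positivity) (hS i)
  have hcC : ∀ i k, k ≤ Encodable.encode i + 1 → c i * C i k ≤ (1 / 2 : ℝ) ^ Encodable.encode i := by
    intro i k hk
    calc c i * C i k ≤ c i * S i := mul_le_mul_of_nonneg_left (hCS i k hk) (hc0 i).le
      _ = (1 / 2 : ℝ) ^ Encodable.encode i := div_mul_cancel₀ _ (hS i).ne'
  have hsum : Summable fun i : ι => (1 / 2 : ℝ) ^ Encodable.encode i :=
    summable_geometric_two_encode
  let F : ι → ℝ × ℝ → ℝ := fun i z => c i * f i z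
  have hF : ∀ i, ContDiff ℝ ∞ (F i) := fun i => contDiff_const.mul (hf i)
  have hFk : ∀ i k z, ‖iteratedFDeriv ℝ k (F i) z‖ = c i * ‖iteratedFDeriv ℝ k (f i) z‖ := by
    intro i k z
    have h1 : F i = c i • f i := by
      funext z
      rfl
    rw [h1, iteratedFDeriv_const_smul_apply ((hf i).contDiffAt.of_le (by exact_mod_cast le_top)),
      norm_smul, Real.norm_of_nonneg (hc0 i).le]
  have hFC : ∀ i k z, ‖iteratedFDeriv ℝ k (F i) z‖ ≤ c i * C i k := by
    intro i k z
    rw [hFk]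
    exact mul_le_mul_of_nonneg_left (hC i k z) (hc0 i).le
  refine ⟨fun s => ∑' i, c i * st i s, ?_, fun z hz => ?_⟩
  · have h1 : ContDiff ℝ ∞ fun z => ∑' i, F i z := by
      refine contDiff_tsum_of_eventually (v := fun _ i => (1 / 2 : ℝ) ^ Encodable.encode i)
        hF (fun _ _ => hsum) fun k _ => ?_
      have h2 : {i : ι | ¬ ∀ z, ‖iteratedFDeriv ℝ k (F i) z‖ ≤
          (1 / 2 : ℝ) ^ Encodable.encode i} ⊆ Encodable.encode ⁻¹' (Set.Iio k) := by
        intro i hi
        by_contra hcon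
        apply hi
        intro z
        have h3 : k ≤ Encodable.encode i + 1 := by
          simp only [mem_preimage, mem_Iio, not_lt] at hcon
          omega
        exact (hFC i k z).trans (hcC i k h3)
      exact ((Set.finite_Iio k).preimage (Encodable.encode_injective.injOn)).subset h2
    exact h1
  · obtain ⟨u, hu⟩ : ∃ u, fderiv ℝ ρ z u ≠ 0 := by
      by_contra hcon
      push Not at hcon
      exact h.der z hz (ContinuousLinearMap.ext hcon)
    have hdF : ∀ i w, ‖fderiv ℝ (F i) w‖ ≤ (1 / 2 : ℝ) ^ Encodable.encode i := by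
      intro i w
      rw [← norm_iteratedFDeriv_one]
      exact (hFC i 1 w).trans (hcC i 1 (by omega))
    have hF0 : Summable fun i => F i z := by
      refine Summable.of_norm_bounded hsum fun i => ?_
      rw [← norm_iteratedFDeriv_zero (𝕜 := ℝ)]
      exact (hFC i 0 z).trans (hcC i 0 (by omega))
    have hD : HasFDerivAt (fun w => ∑' i, F i w) (∑' i, fderiv ℝ (F i) z) z :=
      hasFDerivAt_tsum hsum
        (fun i w => ((hF i).differentiable (by simp)).differentiableAt.hasFDerivAt) hdF hF0 z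
    have hDz : ∀ i, fderiv ℝ (F i) z u = c i * (expNegInvGlue (ρ z - i.1.1) *
        expNegInvGlue (i.1.2 - ρ z)) * fderiv ℝ ρ z u := by
      intro i
      have h1 : HasFDerivAt ρ (fderiv ℝ ρ z) z :=
        ((h.smooth z hz).differentiableAt (by simp)).hasFDerivAt
      have h2 := ((stp_deriv (i.1.1 : ℝ) i.1.2 (ρ z)).comp_hasFDerivAt z h1).const_mul (c i)
      have h3 : HasFDerivAt (F i) _ z := h2
      rw [h3.fderiv]
      simp only [ContinuousLinearMap.smul_apply, smul_eq_mul]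
      ring
    have hsD : Summable fun i => fderiv ℝ (F i) z :=
      Summable.of_norm_bounded hsum fun i => hdF i z
    have hsu : Summable fun i => fderiv ℝ (F i) z u :=
      (ContinuousLinearMap.apply ℝ ℝ u).summable hsD
    have hval : (∑' i, fderiv ℝ (F i) z) u = ∑' i, fderiv ℝ (F i) z u :=
      (ContinuousLinearMap.apply ℝ ℝ u).map_tsum hsD
    have hsg : Summable fun i : ι => c i * (expNegInvGlue (ρ z - i.1.1) *
        expNegInvGlue (i.1.2 - ρ z)) := by
      have h1 : Summable fun i : ι => c i * (expNegInvGlue (ρ z - i.1.1) *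
          expNegInvGlue (i.1.2 - ρ z)) * fderiv ℝ ρ z u :=
        hsu.congr fun i => (hDz i)
      exact (summable_mul_right_iff hu).1 h1
    obtain ⟨r, hr, hrG⟩ := Metric.isOpen_iff.1 h.opn (ρ z) hz
    obtain ⟨a, ha1, ha2⟩ := exists_rat_btwn (show ρ z - r < ρ z by linarith)
    obtain ⟨b, hb1, hb2⟩ := exists_rat_btwn (show ρ z < ρ z + r by linarith)
    have hab : a < b := by
      have : (a : ℝ) < b := ha2.trans hb1
      exact_mod_cast this
    have hsub : Icc (a : ℝ) b ⊆ G := by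
      intro t ht
      apply hrG
      rw [Metric.mem_ball, Real.dist_eq, abs_lt]
      constructor <;> linarith [ht.1, ht.2]
    have hpos : 0 < ∑' i : ι, c i * (expNegInvGlue (ρ z - i.1.1) *
        expNegInvGlue (i.1.2 - ρ z)) := by
      refine hsg.tsum_pos (fun i => mul_nonneg (hc0 i).le (mul_nonneg (expNegInvGlue.nonneg _)
        (expNegInvGlue.nonneg _))) ⟨(a, b), hab, hsub⟩ ?_
      refine mul_pos (hc0 _) (mul_pos (expNegInvGlue.pos_of_pos ?_) (expNegInvGlue.pos_of_pos ?_))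
      · show 0 < ρ z - (a : ℝ)
        linarith
      · show 0 < (b : ℝ) - ρ z
        linarith
    intro h0
    have h1 : fderiv ℝ (fun w => ∑' i, F i w) z = 0 := h0
    rw [hD.fderiv] at h1
    have h2 : (∑' i, fderiv ℝ (F i) z) u = 0 := by rw [h1]; rfl
    rw [hval, tsum_congr hDz, tsum_mul_right] at h2
    rcases mul_eq_zero.1 h2 with h3 | h3
    · exact hpos.ne' h3
    · exact hu h3

theorem dense_pre {ρ : ℝ × ℝ → ℝ} {G : Set ℝ} (h : Prp ρ G) : Dense (ρ ⁻¹' G) := by
  rw [Metric.dense_iff]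
  rintro ⟨x, v⟩ ε hε
  have h1 : ρ (x, v) < ρ (x, v + ε / 2) := h.mono x (by linarith)
  obtain ⟨g, hg, hg1, hg2⟩ := h.dns.exists_between h1
  have hcont : ContinuousOn (fun w => ρ (x, w)) (Icc v (v + ε / 2)) :=
    (h.cont.comp (continuous_const.prodMk continuous_id)).continuousOn
  obtain ⟨w, hw, hwg⟩ := intermediate_value_Icc (show v ≤ v + ε / 2 by linarith) hcont
    ⟨hg1.le, hg2.le⟩
  refine ⟨(x, w), ?_, ?_⟩
  · rw [Metric.mem_ball, Prod.dist_eq, dist_self, Real.dist_eq]
    have h2 : |w - v| ≤ ε / 2 := by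
      rw [abs_le]
      constructor <;> linarith [hw.1, hw.2]
    exact max_lt hε (by linarith)
  · rw [mem_preimage]
    have h3 : ρ (x, w) = g := hwg
    rw [h3]
    exact hg

end Pool.Agent.NOne
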