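import Pool.Agent.NOne.AAna

/-!
# MP_74f563_an, n = 1, file DLeg: the Legendre transformation

`Pre L`: the hypotheses on a scalar Lagrangian `L x v t` without periodicity and completeness.
`lv L x p t` is the velocity with momentum `p`.

PROOFS.
`leg_strictMono`: the derivative `d2 (d2 L)` is positive (`strictMono_of_deriv_pos`).
`leg_surj`: `v ↦ d2 L x v t` is continuous; intermediate value theorem: it is unbounded in both
directions.  `f v = L x v t` is convex (its derivative `d2 L x · t` is increasing), so for `v > 0`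
`f 0 ≥ f v - v f' v` (mean value theorem: `f v - f 0 = v f' ξ ≤ v f' v`), i.e.
`f' v ≥ (f v - f 0) / v ≥ B - (C + f 0) / v` with `C` from `Pre.sup B`; for `v` large this is
`≥ B - 1`.  For `v < 0`: `f 0 - f v = -v f' ξ ≥ -v f' v`, `f' v ≤ (f 0 - f v) / (-v) ≤ -B + (C + f 0)/(-v)`.
`lv_mom`, `mom_lv`: injectivity and surjectivity (`Function.leftInverse_invFun`,
`Function.invFun_eq`).
`lv_smooth`: let `(x₀, p₀, t₀)` and `v₀ = lv L x₀ p₀ t₀`.  The map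
`Λ (x, v, t) = (x, d2 L x v t, t)` is analytic (`ana_d2` of AAna.lean: `Ana (d2 L)`), so `C^∞`
(`ana_contDiff` or `AnalyticOnNhd.contDiff`), and its derivative at `(x₀, v₀, t₀)` is injective: a
vector `(a, b, c)` in the kernel has `a = c = 0` and `b * d2 (d2 L) x₀ v₀ t₀ = 0`.  So it is a continuous
linear equivalence of `ℝ × ℝ × ℝ` and there is a local inverse `Ψ`, `C^∞` at `(x₀, p₀, t₀)`
(`ContDiffAt.to_localInverse`), with `Λ (Ψ y) = y` near `(x₀, p₀, t₀)`.  So `(Ψ y).1 = y.1`,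
`(Ψ y).2.2 = y.2.2` and `(Ψ y).2.1 = lv L y.1 y.2.1 y.2.2` (injectivity).
(Alternatively `ContDiffAt` of an implicit function.)
`lv_perx`, `lv_pert`: `d2 L` has the same periods (unfold `d2`), injectivity.
-/

set_option autoImplicit false

namespace Pool.Agent.NOne

open Set Filter Topology
open scoped ContDiff

/-- hypotheses on the Lagrangian without periodicity and completeness -/
structure Pre (L : ℝ → ℝ → ℝ → ℝ) : Prop where
  ana : Ana L
  conv : ∀ x v t, 0 < d2 (d2 L) x v t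
  sup : ∀ B : ℝ, ∃ C : ℝ, ∀ x v t, B * |v| - C ≤ L x v t

/-- the inverse of the Legendre transformation: the velocity with momentum `p` -/
noncomputable def lv (L : ℝ → ℝ → ℝ → ℝ) (x p t : ℝ) : ℝ :=
  Function.invFun (fun v => d2 L x v t) p

variable {L : ℝ → ℝ → ℝ → ℝ}

theorem Ton.pre (h : Ton L) : Pre L := ⟨h.ana, h.conv, h.sup⟩

theorem leg_strictMono (h : Pre L) (x t : ℝ) : StrictMono fun v => d2 L x v t :=
  strictMono_of_deriv_pos fun v => h.conv x v t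

/-- The derivative is large for large `v`. -/
private theorem leg_pos (h : Pre L) (x t : ℝ) {B C v : ℝ}
    (hC : ∀ x v t, B * |v| - C ≤ L x v t) (hv : 0 < v) (hv' : |C + L x 0 t| ≤ v) :
    B - 1 ≤ d2 L x v t := by
  obtain ⟨ξ, hξ, h1⟩ := exists_hasDerivAt_eq_slope (fun w => L x w t) (fun w => d2 L x w t) hv
    (fun w _ => (ana_hd2 h.ana x w t).continuousAt.continuousWithinAt)
    fun w _ => ana_hd2 h.ana x w t
  have h2 : d2 L x ξ t < d2 L x v t := leg_strictMono h x t hξ.2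
  have h3 : d2 L x ξ t * v = L x v t - L x 0 t := by
    rw [h1, sub_zero, div_mul_cancel₀ _ hv.ne']
  have h4 := hC x v t
  rw [abs_of_pos hv] at h4
  have h5 := le_abs_self (C + L x 0 t)
  have h6 : d2 L x ξ t * v ≤ d2 L x v t * v := mul_le_mul_of_nonneg_right h2.le hv.le
  have h7 : (B - 1) * v ≤ d2 L x v t * v := by linarith
  exact le_of_mul_le_mul_right h7 hv

private theorem leg_neg (h : Pre L) (x t : ℝ) {B C v : ℝ}
    (hC : ∀ x v t, B * |v| - C ≤ L x v t) (hv : 0 < v) (hv' : |C + L x 0 t| ≤ v) :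
    d2 L x (-v) t ≤ -(B - 1) := by
  have hv0 : -v < 0 := neg_lt_zero.2 hv
  obtain ⟨ξ, hξ, h1⟩ := exists_hasDerivAt_eq_slope (fun w => L x w t) (fun w => d2 L x w t) hv0
    (fun w _ => (ana_hd2 h.ana x w t).continuousAt.continuousWithinAt)
    fun w _ => ana_hd2 h.ana x w t
  have h2 : d2 L x (-v) t < d2 L x ξ t := leg_strictMono h x t hξ.1
  have h3 : d2 L x ξ t * v = L x 0 t - L x (-v) t := by
    rw [h1, zero_sub, neg_neg, div_mul_cancel₀ _ hv.ne']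
  have h4 := hC x (-v) t
  rw [abs_neg, abs_of_pos hv] at h4
  have h5 := le_abs_self (C + L x 0 t)
  have h6 : d2 L x (-v) t * v ≤ d2 L x ξ t * v := mul_le_mul_of_nonneg_right h2.le hv.le
  have h7 : d2 L x (-v) t * v ≤ -(B - 1) * v := by linarith
  exact le_of_mul_le_mul_right h7 hv

theorem leg_surj (h : Pre L) (x t : ℝ) : Function.Surjective fun v => d2 L x v t := by
  intro p
  have hcont : Continuous fun v => d2 L x v t :=
    (ana_continuous (ana_d2 h.ana)).comp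
      (continuous_const.prodMk (continuous_id.prodMk continuous_const))
  obtain ⟨C, hC⟩ := h.sup (|p| + 1)
  have hw : 0 < |C + L x 0 t| + 1 := by positivity
  have h1 := leg_pos h x t hC hw (by linarith)
  have h2 := leg_neg h x t hC hw (by linarith)
  rw [add_sub_cancel_right] at h1 h2
  exact mem_range_of_exists_le_of_exists_ge hcont ⟨_, h2.trans (neg_abs_le p)⟩
    ⟨_, (le_abs_self p).trans h1⟩

theorem lv_mom (h : Pre L) (x v t : ℝ) : lv L x (d2 L x v t) t = v :=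
  Function.leftInverse_invFun (leg_strictMono h x t).injective v

theorem mom_lv (h : Pre L) (x p t : ℝ) : d2 L x (lv L x p t) t = p :=
  Function.invFun_eq (leg_surj h x t p)

theorem lv_smooth (h : Pre L) : ContDiff ℝ ∞ fun z : ℝ × ℝ × ℝ => lv L z.1 z.2.1 z.2.2 := by
  have hd := ana_d2 h.ana
  let Λ : ℝ × ℝ × ℝ → ℝ × ℝ × ℝ := fun z => (z.1, d2 L z.1 z.2.1 z.2.2, z.2.2)
  have hΛ : ContDiff ℝ ∞ Λ :=
    contDiff_fst.prodMk ((ana_contDiff hd ∞).prodMk (contDiff_snd.comp contDiff_snd))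
  rw [contDiff_iff_contDiffAt]
  rintro ⟨x₀, p₀, t₀⟩
  obtain ⟨v₀, hv₀⟩ : ∃ v₀, v₀ = lv L x₀ p₀ t₀ := ⟨_, rfl⟩
  have hz : Λ (x₀, v₀, t₀) = (x₀, p₀, t₀) := by
    show (x₀, d2 L x₀ v₀ t₀, t₀) = (x₀, p₀, t₀)
    rw [hv₀, mom_lv h]
  obtain ⟨D, hD⟩ : ∃ D : ℝ × ℝ × ℝ →L[ℝ] ℝ,
      HasFDerivAt (fun z : ℝ × ℝ × ℝ => d2 L z.1 z.2.1 z.2.2) D (x₀, v₀, t₀) :=
    ⟨_, (hd (x₀, v₀, t₀) (mem_univ _)).differentiableAt.hasFDerivAt⟩
  have hD1 : D (0, 1, 0) = d2 (d2 L) x₀ v₀ t₀ := by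
    have h1 : HasDerivAt (fun y : ℝ => ((x₀, y, t₀) : ℝ × ℝ × ℝ)) (0, 1, 0) v₀ :=
      (hasDerivAt_const v₀ x₀).prodMk ((hasDerivAt_id v₀).prodMk (hasDerivAt_const v₀ t₀))
    have h2 := HasFDerivAt.comp_hasDerivAt (f := fun y : ℝ => ((x₀, y, t₀) : ℝ × ℝ × ℝ)) v₀
      hD h1
    exact HasDerivAt.unique (f := fun w => d2 L x₀ w t₀) h2 (ana_hd2 hd x₀ v₀ t₀)
  let A : ℝ × ℝ × ℝ →L[ℝ] ℝ × ℝ × ℝ := (ContinuousLinearMap.fst ℝ ℝ (ℝ × ℝ)).prod
    (D.prod ((ContinuousLinearMap.snd ℝ ℝ ℝ).comp (ContinuousLinearMap.snd ℝ ℝ (ℝ × ℝ))))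
  have hA : HasFDerivAt Λ A (x₀, v₀, t₀) :=
    (ContinuousLinearMap.fst ℝ ℝ (ℝ × ℝ)).hasFDerivAt.prodMk (hD.prodMk
      ((ContinuousLinearMap.snd ℝ ℝ ℝ).comp
        (ContinuousLinearMap.snd ℝ ℝ (ℝ × ℝ))).hasFDerivAt)
  have hinj : Function.Injective (A : ℝ × ℝ × ℝ →ₗ[ℝ] ℝ × ℝ × ℝ) := by
    rw [injective_iff_map_eq_zero]
    rintro ⟨a, b, c⟩ h0
    have h1 : a = 0 := congrArg Prod.fst h0
    have h2 : D (a, b, c) = 0 := congrArg (fun z : ℝ × ℝ × ℝ => z.2.1) h0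
    have h3 : c = 0 := congrArg (fun z : ℝ × ℝ × ℝ => z.2.2) h0
    subst h1
    subst h3
    have h4 : ((0, b, 0) : ℝ × ℝ × ℝ) = b • ((0, 1, 0) : ℝ × ℝ × ℝ) := by simp
    rw [h4, map_smul, hD1, smul_eq_mul] at h2
    have h5 := (mul_eq_zero.1 h2).resolve_right (h.conv x₀ v₀ t₀).ne'
    rw [h5]
    rfl
  let e : (ℝ × ℝ × ℝ) ≃L[ℝ] (ℝ × ℝ × ℝ) :=
    (LinearEquiv.ofInjectiveEndo (A : ℝ × ℝ × ℝ →ₗ[ℝ] ℝ × ℝ × ℝ)
      hinj).toContinuousLinearEquiv
  have he : (e : ℝ × ℝ × ℝ →L[ℝ] ℝ × ℝ × ℝ) = A := ContinuousLinearMap.ext fun z => rfl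
  have hf : ContDiffAt ℝ ∞ Λ (x₀, v₀, t₀) := hΛ.contDiffAt
  have hf' : HasFDerivAt Λ (e : ℝ × ℝ × ℝ →L[ℝ] ℝ × ℝ × ℝ) (x₀, v₀, t₀) := by
    rw [he]
    exact hA
  have hn : (∞ : WithTop ℕ∞) ≠ 0 := by simp
  have hΨ := hf.to_localInverse hf' hn
  have hr : ∀ᶠ y in 𝓝 (Λ (x₀, v₀, t₀)), Λ (hf.localInverse hf' hn y) = y :=
    (hf.hasStrictFDerivAt' hf' hn).eventually_right_inverse
  rw [hz] at hΨ hr
  have h6 : ContDiffAt ℝ ∞ (fun y => (hf.localInverse hf' hn y).2.1) (x₀, p₀, t₀) :=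
    (contDiff_fst.comp contDiff_snd).contDiffAt.comp (x₀, p₀, t₀) hΨ
  refine h6.congr_of_eventuallyEq ?_
  filter_upwards [hr] with y hy
  have g1 : (Λ (hf.localInverse hf' hn y)).1 = y.1 := by rw [hy]
  replace g1 : (hf.localInverse hf' hn y).1 = y.1 := g1
  have g2 : d2 L (hf.localInverse hf' hn y).1 (hf.localInverse hf' hn y).2.1
      (hf.localInverse hf' hn y).2.2 = y.2.1 := congrArg (fun z : ℝ × ℝ × ℝ => z.2.1) hy
  have g3 : (Λ (hf.localInverse hf' hn y)).2.2 = y.2.2 := by rw [hy]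
  replace g3 : (hf.localInverse hf' hn y).2.2 = y.2.2 := g3
  rw [← g2, g1, g3, lv_mom h]

theorem lv_perx (h : Pre L) (hp : ∀ x v t, L (x + 1) v t = L x v t) (x p t : ℝ) :
    lv L (x + 1) p t = lv L x p t := by
  simp only [lv, per_d2 hp]

theorem lv_pert (h : Pre L) (hp : ∀ x v t, L x v (t + 1) = L x v t) (x p t : ℝ) :
    lv L x p (t + 1) = lv L x p t := by
  simp only [lv, pet_d2 hp]

end Pool.Agent.NOne
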