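import Pool.Agent.NOne.AAut
import Pool.Agent.NOne.DLeg

/-!
# MP_74f563_an, n = 1, file DTh: the state at time zero as a function of `(x, p, t)`

`Th L t (x, p)` is the state (position, velocity) at time `0` of the solution with position `x` and
momentum `p` at time `t`; `Ti L t` is the inverse map.

PROOFS (`AF`, `af_sol`, `af_analytic`, `fx_af`, `ana_fx`, `ana_fw` in AAut.lean; `sol_eq`, `sol_uniq`,
`sol_shift_x`, `sol_shift_t`, `fx_sol`, `fx_zero` in AFlow.lean; `lv_mom`, `mom_lv`, `lv_smooth` in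
DLeg.lean with `hL.pre`).
`th_sol`: `lv_mom` and `af_sol` with `s = -t`.
`th_ti`: `th_sol` for the solution `fx_sol hL w.1 w.2`; `fx_zero`, `fw_zero`.
`ti_th`: let `v = lv L z.1 z.2 t`; by `hL.compl t z.1 v` there is a solution `(X, W)` with
`X t = z.1`, `W t = v`; `d2 L (X t) (W t) t = z.2` (`mom_lv`); so `Th L t z = (X 0, W 0)` (`th_sol`) and
`X t = FX L t (X 0) (W 0)`, `W t = FW L t (X 0) (W 0)` (`sol_eq`).
`th_smooth`: composition of the analytic function `(s, z) ↦ AF L s z` (`af_analytic`, so `C^∞`: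
`AnalyticOnNhd.contDiffOn`, `ContDiff`) with the `C^∞` map
`(x, p, t) ↦ (-t, x, lv L x p t, t)`; projections.
`ti_smooth`: `ana_fx`, `ana_fw`, `ana_d2` (AAna.lean).
`th_perx`: with `(X, W)` as in `ti_th` (for `(x, p)`), `(X + 1, W)` is a solution (`sol_shift_x` with
`k = 1`) with position `x + 1` and velocity `W t` at time `t`; the momentum is the same by
`L (x + 1) v t = L x v t` (use `lv_perx`: `lv L (x + 1) p t = lv L x p t`).
`th_pert`: let `(X, W)` be the solution with `X (t + 1) = z.1`, `W (t + 1) = lv L z.1 z.2 (t + 1)`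
`= lv L z.1 z.2 t` (`lv_pert`).  Then `Th L (t + 1) z = (X 0, W 0)`; the shifted solution
`(X (· + 1), W (· + 1))` (`sol_shift_t`, `k = 1`) is at `z.1` with the same velocity at time `t`, so
`Th L t z = (X 1, W 1)`, and `X 1 = FX L 1 (X 0) (W 0)` (`sol_eq`).
-/

set_option autoImplicit false

namespace Pool.Agent.NOne

open Set Filter Topology
open scoped ContDiff

variable {L : ℝ → ℝ → ℝ → ℝ} {X W : ℝ → ℝ}

/-- the state at time `0` of the solution with position `z.1` and momentum `z.2` at time `t` -/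
noncomputable def Th (L : ℝ → ℝ → ℝ → ℝ) (t : ℝ) (z : ℝ × ℝ) : ℝ × ℝ :=
  ((AF L (-t) (z.1, lv L z.1 z.2 t, t)).1, (AF L (-t) (z.1, lv L z.1 z.2 t, t)).2.1)

/-- position and momentum at time `t` of the solution with state `w` at time `0` -/
noncomputable def Ti (L : ℝ → ℝ → ℝ → ℝ) (t : ℝ) (w : ℝ × ℝ) : ℝ × ℝ :=
  (FX L t w.1 w.2, d2 L (FX L t w.1 w.2) (FW L t w.1 w.2) t)

theorem th_sol (hL : Ton L) (h : Sol L X W) (t : ℝ) :
    Th L t (X t, d2 L (X t) (W t) t) = (X 0, W 0) := by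
  have h1 := af_sol hL h t (-t)
  unfold Th
  simp only [lv_mom hL.pre]
  rw [h1]
  simp only [add_neg_cancel]

private theorem th_of (hL : Ton L) (h : Sol L X W) {t : ℝ} {z : ℝ × ℝ} (hx : X t = z.1)
    (hm : d2 L (X t) (W t) t = z.2) : Th L t z = (X 0, W 0) := by
  have h1 : z = (X t, d2 L (X t) (W t) t) := Prod.ext hx.symm hm.symm
  rw [h1]
  exact th_sol hL h t

private theorem th_ex (hL : Ton L) (t : ℝ) (z : ℝ × ℝ) : ∃ X W : ℝ → ℝ, Sol L X W ∧ X t = z.1 ∧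
    d2 L (X t) (W t) t = z.2 := by
  obtain ⟨X, W, h, hx, hw⟩ := hL.compl t z.1 (lv L z.1 z.2 t)
  exact ⟨X, W, h, hx, by rw [hx, hw, mom_lv hL.pre]⟩

theorem th_ti (hL : Ton L) (t : ℝ) (w : ℝ × ℝ) : Th L t (Ti L t w) = w := by
  have h1 := th_sol hL (fx_sol hL w.1 w.2) t
  simp only [fx_zero hL, fw_zero hL] at h1
  exact h1

theorem ti_th (hL : Ton L) (t : ℝ) (z : ℝ × ℝ) : Ti L t (Th L t z) = z := by
  obtain ⟨X, W, h, hx, hm⟩ := th_ex hL t z
  rw [th_of hL h hx hm]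
  unfold Ti
  obtain ⟨h1, h2⟩ := sol_eq hL h t
  simp only [← h1, ← h2]
  exact Prod.ext hx hm

theorem th_smooth (hL : Ton L) :
    ContDiff ℝ ∞ fun z : ℝ × ℝ × ℝ => Th L z.2.2 (z.1, z.2.1) := by
  have h1 : ContDiff ℝ ∞ (fun p : ℝ × ℝ × ℝ × ℝ => AF L p.1 p.2) :=
    contDiffOn_univ.1 ((af_analytic hL).contDiffOn uniqueDiffOn_univ)
  have h2 : ContDiff ℝ ∞ (fun z : ℝ × ℝ × ℝ =>
      ((-z.2.2, z.1, lv L z.1 z.2.1 z.2.2, z.2.2) : ℝ × ℝ × ℝ × ℝ)) :=
    (contDiff_snd.snd.neg).prodMk (contDiff_fst.prodMk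
      ((lv_smooth hL.pre).prodMk contDiff_snd.snd))
  have h3 := h1.comp h2
  exact h3.fst.prodMk h3.snd.fst

theorem ti_smooth (hL : Ton L) (t : ℝ) : ContDiff ℝ ∞ (Ti L t) := by
  have h0 : ContDiff ℝ ∞ (fun w : ℝ × ℝ => ((t, w.1, w.2) : ℝ × ℝ × ℝ)) :=
    contDiff_const.prodMk (contDiff_fst.prodMk contDiff_snd)
  have hx : ContDiff ℝ ∞ (fun z : ℝ × ℝ × ℝ => FX L z.1 z.2.1 z.2.2) :=
    contDiffOn_univ.1 ((ana_fx hL).contDiffOn uniqueDiffOn_univ)
  have hw : ContDiff ℝ ∞ (fun z : ℝ × ℝ × ℝ => FW L z.1 z.2.1 z.2.2) :=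
    contDiffOn_univ.1 ((ana_fw hL).contDiffOn uniqueDiffOn_univ)
  have h1 := hx.comp h0
  have h2 := hw.comp h0
  have h3 : ContDiff ℝ ∞ (fun z : ℝ × ℝ × ℝ => d2 L z.1 z.2.1 z.2.2) :=
    ana_contDiff (ana_d2 hL.ana) ∞
  have h4 := h3.comp (h1.prodMk (h2.prodMk (contDiff_const (c := t))))
  exact h1.prodMk h4

theorem th_perx (hL : Ton L) (t x p : ℝ) : Th L t (x + 1, p) = Th L t (x, p) + (1, 0) := by
  obtain ⟨X, W, h, hx, hm⟩ := th_ex hL t (x, p)
  rw [th_of hL h hx hm]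
  have h1 := sol_shift_x hL h 1
  rw [th_of hL h1 (z := (x + 1, p)) (t := t)]
  · simp
  · simp only [Int.cast_one]
    rw [hx]
  · simp only [Int.cast_one]
    rw [per_d2 hL.perx]
    exact hm

theorem th_pert (hL : Ton L) (t : ℝ) (z : ℝ × ℝ) :
    Th L t z = (FX L 1 (Th L (t + 1) z).1 (Th L (t + 1) z).2,
      FW L 1 (Th L (t + 1) z).1 (Th L (t + 1) z).2) := by
  obtain ⟨X, W, h, hx, hm⟩ := th_ex hL (t + 1) z
  rw [th_of hL h hx hm]
  have h1 := sol_shift_t hL h 1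
  rw [th_of hL h1 (z := z) (t := t)]
  · obtain ⟨h2, h3⟩ := sol_eq hL h 1
    simp only [Int.cast_one, zero_add]
    rw [h2, h3]
  · simp only [Int.cast_one]
    exact hx
  · simp only [Int.cast_one]
    rw [← pet_d2 hL.pert]
    exact hm

end Pool.Agent.NOne
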