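import Pool.Agent.NOne.DSm
import Pool.Agent.NOne.DSum
import Pool.Agent.NOne.DTh

/-!
# MP_74f563_an, n = 1, file DInt: the smooth first integral (Part D)

PROOFS.
`rot_prp`: `rot_cont`, `rot_per`, `rot_proper`, `rot_strictMono`, `gset_open`, `gset_dense`, `gset_smooth`.
`exists_fint`.  Let `ψ` be given by `exists_psi` for `ρ z = rot V z.1 z.2`, `G = gset L`, and
`F (x, p, t) = ψ (ρ (Th L t (x, p)))`, `O = {z | ρ (Th L z.2.2 (z.1, z.2.1)) ∈ G}`.
smooth: `th_smooth`.  perx: `th_perx`, `rot_per`.  pert: `th_pert` and `rot_inv` (DAsy.lean) give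
`ρ (Th L t z) = ρ (Th L (t + 1) z)`.  inv: `th_sol` at `t` and at `0`.  opn: continuity.
dns: let `z = (x, p, t)` and `U` a neighbourhood; the map `w ↦ (Ti L t w, t)` (as a point
`((Ti L t w).1, (Ti L t w).2, t)`) is continuous and maps `Th L t (x, p)` to `z` (`ti_th`); `ρ⁻¹ G` is
dense (`dense_pre`), so there is `w` near `Th L t (x, p)` with `ρ w ∈ G` and image in `U`; the image is in
`O` because `Th L t (Ti L t w) = w` (`th_ti`).
operx, opert: as perx, pert.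
der: let `w = Th L t (x, p)`, `ρ w ∈ G`.  `ψ ∘ ρ = (F (·, t)) ∘ Ti L t` (`th_ti`), so if the derivative
of `F (·, t)` vanishes at `(x, p) = Ti L t w` then the derivative of `ψ ∘ ρ` vanishes at `w`
(chain rule, `ti_smooth`), contradicting `exists_psi`.
-/

set_option autoImplicit false

namespace Pool.Agent.NOne

open Set Filter Topology
open scoped ContDiff

variable {L : ℝ → ℝ → ℝ → ℝ} {V : ℚ → ℝ → ℝ}

/-- a smooth first integral in the coordinates `(x, p, t)`, with differential not zero on `O` -/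
structure FInt (L : ℝ → ℝ → ℝ → ℝ) (F : ℝ × ℝ × ℝ → ℝ) (O : Set (ℝ × ℝ × ℝ)) : Prop where
  smooth : ContDiff ℝ ∞ F
  perx : ∀ x p t, F (x + 1, p, t) = F (x, p, t)
  pert : ∀ x p t, F (x, p, t + 1) = F (x, p, t)
  inv : ∀ X W, Sol L X W → ∀ t, F (X t, d2 L (X t) (W t) t, t) = F (X 0, d2 L (X 0) (W 0) 0, 0)
  opn : IsOpen O
  dns : Dense O
  operx : ∀ x p t, (x + 1, p, t) ∈ O ↔ (x, p, t) ∈ O
  opert : ∀ x p t, (x, p, t + 1) ∈ O ↔ (x, p, t) ∈ O
  der : ∀ x p t, (x, p, t) ∈ O → fderiv ℝ (fun z : ℝ × ℝ => F (z.1, z.2, t)) (x, p) ≠ 0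

theorem rot_prp (hC : C0I L V) (hB : HasBands L) :
    Prp (fun z : ℝ × ℝ => rot V z.1 z.2) (gset L) where
  cont := rot_cont hC
  per := fun x v => rot_per hC x v
  prop := fun a b => rot_proper hC a b
  mono := fun x => rot_strictMono hC x
  opn := gset_open L
  dns := gset_dense hB
  smooth := fun z h => (gset_smooth hC z.1 z.2 h).1
  der := fun z h => (gset_smooth hC z.1 z.2 h).2

private theorem rt_perx (hC : C0I L V) (x p t : ℝ) :
    rot V (Th L t (x + 1, p)).1 (Th L t (x + 1, p)).2 =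
      rot V (Th L t (x, p)).1 (Th L t (x, p)).2 := by
  rw [th_perx hC.ton t x p]
  have h1 : (Th L t (x, p) + ((1 : ℝ), (0 : ℝ))).1 = (Th L t (x, p)).1 + 1 := rfl
  have h2 : (Th L t (x, p) + ((1 : ℝ), (0 : ℝ))).2 = (Th L t (x, p)).2 + 0 := rfl
  rw [h1, h2, add_zero, rot_per hC]

private theorem rt_pert (hC : C0I L V) (x p t : ℝ) :
    rot V (Th L (t + 1) (x, p)).1 (Th L (t + 1) (x, p)).2 =
      rot V (Th L t (x, p)).1 (Th L t (x, p)).2 := by
  rw [th_pert hC.ton t (x, p)]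
  exact (rot_inv hC _ _).symm

theorem exists_fint (hC : C0I L V) (hB : HasBands L) :
    ∃ (F : ℝ × ℝ × ℝ → ℝ) (O : Set (ℝ × ℝ × ℝ)), FInt L F O := by
  obtain ⟨ψ, hψ, hd⟩ := exists_psi (rot_prp hC hB)
  have hL := hC.ton
  have hcont : Continuous fun z : ℝ × ℝ × ℝ => Th L z.2.2 (z.1, z.2.1) :=
    (th_smooth hL).continuous
  refine ⟨fun z => ψ (rot V (Th L z.2.2 (z.1, z.2.1)).1 (Th L z.2.2 (z.1, z.2.1)).2),
    {z | rot V (Th L z.2.2 (z.1, z.2.1)).1 (Th L z.2.2 (z.1, z.2.1)).2 ∈ gset L}, ?_⟩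
  constructor
  · exact hψ.comp (th_smooth hL)
  · intro x p t
    show ψ (rot V (Th L t (x + 1, p)).1 (Th L t (x + 1, p)).2) = _
    rw [rt_perx hC]
  · intro x p t
    show ψ (rot V (Th L (t + 1) (x, p)).1 (Th L (t + 1) (x, p)).2) = _
    rw [rt_pert hC]
  · intro X W hS t
    show ψ (rot V (Th L t (X t, d2 L (X t) (W t) t)).1
      (Th L t (X t, d2 L (X t) (W t) t)).2) =
      ψ (rot V (Th L 0 (X 0, d2 L (X 0) (W 0) 0)).1
      (Th L 0 (X 0, d2 L (X 0) (W 0) 0)).2)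
    rw [th_sol hL hS t, th_sol hL hS 0]
  · exact (gset_open L).preimage ((rot_cont hC).comp hcont)
  · rw [dense_iff_inter_open]
    rintro U hU ⟨⟨x, p, t⟩, hz⟩
    have hc : Continuous fun w : ℝ × ℝ => ((Ti L t w).1, (Ti L t w).2, t) :=
      ((ti_smooth hL t).continuous.fst).prodMk
        (((ti_smooth hL t).continuous.snd).prodMk continuous_const)
    have hpre : IsOpen ((fun w : ℝ × ℝ => ((Ti L t w).1, (Ti L t w).2, t)) ⁻¹' U) :=
      hU.preimage hc
    have hmem : Th L t (x, p) ∈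
        ((fun w : ℝ × ℝ => ((Ti L t w).1, (Ti L t w).2, t)) ⁻¹' U) := by
      show ((Ti L t (Th L t (x, p))).1, (Ti L t (Th L t (x, p))).2, t) ∈ U
      rw [ti_th hL t (x, p)]
      exact hz
    obtain ⟨w, hw1, hw2⟩ := (dense_pre (rot_prp hC hB)).inter_open_nonempty _ hpre ⟨_, hmem⟩
    refine ⟨((Ti L t w).1, (Ti L t w).2, t), hw1, ?_⟩
    show rot V (Th L t (Ti L t w)).1 (Th L t (Ti L t w)).2 ∈ gset L
    rw [th_ti hL t w]
    exact hw2
  · intro x p t
    show rot V (Th L t (x + 1, p)).1 (Th L t (x + 1, p)).2 ∈ gset L ↔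
      rot V (Th L t (x, p)).1 (Th L t (x, p)).2 ∈ gset L
    rw [rt_perx hC]
  · intro x p t
    show rot V (Th L (t + 1) (x, p)).1 (Th L (t + 1) (x, p)).2 ∈ gset L ↔
      rot V (Th L t (x, p)).1 (Th L t (x, p)).2 ∈ gset L
    rw [rt_pert hC]
  · intro x p t hO h0
    have hO' : rot V (Th L t (x, p)).1 (Th L t (x, p)).2 ∈ gset L := hO
    refine hd (Th L t (x, p)) hO' ?_
    -- the function of `(x, p)` at the time `t`
    let Ft : ℝ × ℝ → ℝ := fun z => ψ (rot V (Th L t z).1 (Th L t z).2)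
    have hFt : (fun z : ℝ × ℝ => (fun z : ℝ × ℝ × ℝ =>
        ψ (rot V (Th L z.2.2 (z.1, z.2.1)).1 (Th L z.2.2 (z.1, z.2.1)).2)) (z.1, z.2, t)) =
        Ft := rfl
    rw [hFt] at h0
    have hsm : ContDiff ℝ ∞ Ft := by
      have h1 : ContDiff ℝ ∞ fun z : ℝ × ℝ => Th L t z := by
        have h2 : ContDiff ℝ ∞ fun z : ℝ × ℝ => ((z.1, z.2, t) : ℝ × ℝ × ℝ) := by fun_prop
        exact (th_smooth hL).comp h2
      exact hψ.comp h1
    have heq : (fun w : ℝ × ℝ => ψ (rot V w.1 w.2)) = Ft ∘ Ti L t := by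
      funext w
      show ψ (rot V w.1 w.2) = ψ (rot V (Th L t (Ti L t w)).1 (Th L t (Ti L t w)).2)
      rw [th_ti hL t w]
    show fderiv ℝ (fun w : ℝ × ℝ => ψ (rot V w.1 w.2)) (Th L t (x, p)) = 0
    rw [heq]
    have hd1 : DifferentiableAt ℝ Ft (Ti L t (Th L t (x, p))) :=
      (hsm.differentiable (by simp)).differentiableAt
    have hd2 : DifferentiableAt ℝ (Ti L t) (Th L t (x, p)) :=
      ((ti_smooth hL t).differentiable (by simp)).differentiableAt
    rw [fderiv_comp _ hd1 hd2, ti_th hL t (x, p), h0]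
    exact ContinuousLinearMap.zero_comp _

end Pool.Agent.NOne
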