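import Pool.Agent.NOne.BrEL
import Pool.Agent.NOne.DInt

/-!
# MP_74f563_an, n = 1, file BrInt: from the scalar first integral to Liouville integrability

PROOF of `ci_of_fint`.  Let `xr : Torus 1 → ℝ` and `tr : UnitAddCircle → ℝ` be chosen sections
(`proj_surj`, `QuotientAddGroup.mk_surjective`), and `G z = F (xr z.1, z.2.1 0, tr z.2.2)`,
`O' = {z | (xr z.1, z.2.1 0, tr z.2.2) ∈ O}`; the integral is `fun _ : Fin 1 => G`.
(a) `G (proj x, p, t) = F (x 0, p 0, t)` for `x p : Vec 1`, `t : ℝ`: `proj_ev_eq`, `circle_eq` give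
integers `k, l` with `xr (proj x) = x 0 + k`, `tr t = t + l`; `F` is periodic (`FInt.perx`, `FInt.pert`,
`Function.Periodic.int_mul`).  The same for membership in `O` (`operx`, `opert`; the periodic function
`x ↦ ((x, p, t) ∈ O : Prop)`).
(b) smooth: the function in question is `F ∘ (x, p, t) ↦ (x 0, p 0, t)`.
(c) constant along the flow: by `flow_all` `z = (proj (ev (X t)), ev (W t), t)`; `flow_sol`,
`mom_lft`, (a), `ev_apply`; `FInt.inv` at `t` and at `t + s`.
(d) the bracket of `G` with itself is `0`: in the definition of `bracket` both products are equal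
(`i = j` because `Fin 1` has one element), `ring`.
(e) `O'` is open and dense: the map `m (x, p, t) = (proj x, p, t)` from `Vec 1 × Vec 1 × ℝ` to `Phase 1`
is an open quotient map (see `upper_open_proj` in Pool/Agent/MechAlpha/Upper.lean;
`IsOpenQuotientMap.prodMap`, `QuotientAddGroup.isOpenQuotientMap_mk`), and
`m⁻¹ O' = {(x, p, t) | (x 0, p 0, t) ∈ O}` is open; it is dense because `(x, p, t) ↦ (x 0, p 0, t)` is a
homeomorphism with inverse `(x, p, t) ↦ (ev x, ev p, t)`; the image of a dense set under the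
continuous surjective map `m` is dense.
(f) one vector is linearly independent if it is not zero (`linearIndependent_unique_iff`,
`LinearIndependent.of_subsingleton`...).  If the derivative of
`y ↦ G (proj y.1, y.2, t) = F (y.1 0, y.2 0, t)` at `(x, p)` were `0`, then, composing with the linear map
`(a, b) ↦ (ev a, ev b)`, the derivative of `(a, b) ↦ F (a, b, t)` at `(x 0, p 0)` would be `0`,
contradicting `FInt.der` ((a) for `O`).
-/

set_option autoImplicit false

namespace Pool.Agent.NOne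

open Set MeasureTheory Pool.Agent.MechAlpha
open scoped RealInnerProductSpace ContDiff

variable {L : Torus 1 → Vec 1 → UnitAddCircle → ℝ} {φ : ℝ → Phase 1 → Phase 1}

private theorem bi_open_proj : IsOpenQuotientMap (proj (n := 1)) := by
  have h1 : IsOpenQuotientMap (Pi.map fun (_ : Fin 1) (x : ℝ) => (x : UnitAddCircle)) :=
    IsOpenQuotientMap.piMap fun _ => QuotientAddGroup.isOpenQuotientMap_mk
  exact h1.comp (PiLp.homeomorph 2 (fun _ : Fin 1 => ℝ)).isOpenQuotientMap

private theorem bi_open : IsOpenQuotientMap fun q : Vec 1 × Vec 1 × ℝ =>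
    ((proj q.1, q.2.1, (q.2.2 : UnitAddCircle)) : Phase 1) := by
  have h := bi_open_proj.prodMap ((IsOpenQuotientMap.id (X := Vec 1)).prodMap
    (QuotientAddGroup.isOpenQuotientMap_mk (N := AddSubgroup.zmultiples (1 : ℝ))))
  exact h

private theorem bi_per {A : Type} {f : ℝ → A} (h : ∀ x, f (x + 1) = f x) (x : ℝ) (k : ℤ) :
    f (x + k) = f x := by
  have hp : Function.Periodic f 1 := h
  have h2 := (hp.int_mul k) x
  rwa [mul_one] at h2

private theorem bi_F {F : ℝ × ℝ × ℝ → ℝ} {O : Set (ℝ × ℝ × ℝ)} {ℓ : ℝ → ℝ → ℝ → ℝ}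
    (hF : FInt ℓ F O) (x p t : ℝ) (k l : ℤ) : F (x + k, p, t + l) = F (x, p, t) := by
  rw [bi_per (f := fun x => F (x, p, t + l)) (fun x => hF.perx x p _) x k]
  exact bi_per (f := fun t => F (x, p, t)) (fun t => hF.pert x p t) t l

private theorem bi_O {F : ℝ × ℝ × ℝ → ℝ} {O : Set (ℝ × ℝ × ℝ)} {ℓ : ℝ → ℝ → ℝ → ℝ}
    (hF : FInt ℓ F O) (x p t : ℝ) (k l : ℤ) : (x + k, p, t + l) ∈ O ↔ (x, p, t) ∈ O := by
  have h1 := bi_per (f := fun x => ((x, p, t + l) ∈ O : Prop))
    (fun x => propext (hF.operx x p _)) x k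
  have h2 := bi_per (f := fun t => ((x, p, t) ∈ O : Prop))
    (fun t => propext (hF.opert x p t)) t l
  exact (h1.trans h2).to_iff

theorem ci_of_fint (hT : Tonelli L) (hφ : IsELFlow L φ) {F : ℝ × ℝ × ℝ → ℝ}
    {O : Set (ℝ × ℝ × ℝ)} (hF : FInt (lft L) F O) : CompletelyIntegrable L φ := by
  classical
  choose xr hxr using proj_surj
  choose tr htr using fun t : UnitAddCircle => QuotientAddGroup.mk_surjective t
  have htr' : ∀ t : UnitAddCircle, ((tr t : ℝ) : UnitAddCircle) = t := htr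
  have hx : ∀ x : Vec 1, ∃ k : ℤ, xr (proj x) = x 0 + k := fun x =>
    proj_ev_eq ((hxr (proj x)).trans (proj_coord x).symm)
  have ht : ∀ t : ℝ, ∃ l : ℤ, tr (t : UnitAddCircle) = t + l := fun t =>
    circle_eq (htr' (t : UnitAddCircle))
  set G : Phase 1 → ℝ := fun z => F (xr z.1, z.2.1 0, tr z.2.2) with hG
  set O' : Set (Phase 1) := {z | (xr z.1, z.2.1 0, tr z.2.2) ∈ O} with hO'
  have hGF : ∀ (x p : Vec 1) (t : ℝ), G (proj x, p, (t : UnitAddCircle)) = F (x 0, p 0, t) := by
    intro x p t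
    obtain ⟨k, hk⟩ := hx x
    obtain ⟨l, hl⟩ := ht t
    show F (xr (proj x), p 0, tr (t : UnitAddCircle)) = _
    rw [hk, hl]
    exact bi_F hF _ _ _ k l
  have hOO : ∀ (x p : Vec 1) (t : ℝ),
      (proj x, p, (t : UnitAddCircle)) ∈ O' ↔ (x 0, p 0, t) ∈ O := by
    intro x p t
    obtain ⟨k, hk⟩ := hx x
    obtain ⟨l, hl⟩ := ht t
    show (xr (proj x), p 0, tr (t : UnitAddCircle)) ∈ O ↔ _
    rw [hk, hl]
    exact bi_O hF _ _ _ k l
  refine ⟨fun _ => G, fun _ => ?_, fun _ s z => ?_, fun i j x p t => ?_, O', ?_, ?_,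
    fun x p t h => ?_⟩
  · have e : (fun q : Vec 1 × Vec 1 × ℝ => G (proj q.1, q.2.1, (q.2.2 : UnitAddCircle))) =
        fun q => F (coL q.1, coL q.2.1, q.2.2) := by
      funext q
      exact hGF q.1 q.2.1 q.2.2
    rw [e]
    refine hF.smooth.comp ?_
    exact (coL.contDiff.comp contDiff_fst).prodMk
      ((coL.contDiff.comp (contDiff_fst.comp contDiff_snd)).prodMk
        (contDiff_snd.comp contDiff_snd))
  · obtain ⟨X, W, t, hS, -, -, rfl⟩ := flow_all hT hφ z
    rw [flow_sol hT hφ hS t s, mom_lft hT, mom_lft hT]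
    show G (proj (ev (X (t + s))), ev (d2 (lft L) (X (t + s)) (W (t + s)) (t + s)),
      ((t + s : ℝ) : UnitAddCircle)) =
      G (proj (ev (X t)), ev (d2 (lft L) (X t) (W t) t), (t : UnitAddCircle))
    rw [hGF, hGF]
    show F (X (t + s), d2 (lft L) (X (t + s)) (W (t + s)) (t + s), t + s) =
      F (X t, d2 (lft L) (X t) (W t) t, t)
    rw [hF.inv X W hS (t + s), hF.inv X W hS t]
  · unfold bracket
    refine Finset.sum_eq_zero fun l _ => ?_
    ring
  · rw [← bi_open.isQuotientMap.isOpen_preimage]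
    have e : (fun q : Vec 1 × Vec 1 × ℝ =>
        ((proj q.1, q.2.1, (q.2.2 : UnitAddCircle)) : Phase 1)) ⁻¹' O' =
        (fun q : Vec 1 × Vec 1 × ℝ => (coL q.1, coL q.2.1, q.2.2)) ⁻¹' O := by
      ext q
      exact hOO q.1 q.2.1 q.2.2
    rw [e]
    refine hF.opn.preimage ?_
    exact (coL.continuous.comp continuous_fst).prodMk
      ((coL.continuous.comp (continuous_fst.comp continuous_snd)).prodMk
        (continuous_snd.comp continuous_snd))
  · have hc : Continuous fun z : ℝ × ℝ × ℝ =>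
        ((proj (evL z.1), evL z.2.1, (z.2.2 : UnitAddCircle)) : Phase 1) := by
      have h1 : Continuous fun z : ℝ × ℝ × ℝ => ((evL z.1, evL z.2.1, z.2.2) :
          Vec 1 × Vec 1 × ℝ) :=
        (evL.continuous.comp continuous_fst).prodMk
          ((evL.continuous.comp (continuous_fst.comp continuous_snd)).prodMk
            (continuous_snd.comp continuous_snd))
      exact bi_open.continuous.comp h1
    have hs : Function.Surjective fun z : ℝ × ℝ × ℝ =>
        ((proj (evL z.1), evL z.2.1, (z.2.2 : UnitAddCircle)) : Phase 1) := by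
      rintro ⟨x, p, t⟩
      refine ⟨(xr x, p 0, tr t), ?_⟩
      show ((proj (ev (xr x)), ev (p 0), ((tr t : ℝ) : UnitAddCircle)) : Phase 1) = (x, p, t)
      rw [hxr, ev_coord, htr']
    refine (hs.denseRange.dense_image hc hF.dns).mono ?_
    rintro _ ⟨⟨a, b, t⟩, hz, rfl⟩
    exact (hOO (ev a) (ev b) t).2 hz
  · obtain ⟨t', rfl⟩ := QuotientAddGroup.mk_surjective t
    have hm : (x 0, p 0, t') ∈ O := (hOO x p t').1 h
    have hd := hF.der (x 0) (p 0) t' hm
    refine linearIndependent_unique_iff.2 fun h0 => hd ?_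
    have h0' : fderiv ℝ (fun y : Vec 1 × Vec 1 =>
        G (proj y.1, y.2, (t' : UnitAddCircle))) (x, p) = 0 := h0
    have e1 : (fun y : Vec 1 × Vec 1 => G (proj y.1, y.2, (t' : UnitAddCircle))) =
        fun y => F (coL y.1, coL y.2, t') := by
      funext y
      exact hGF y.1 y.2 t'
    rw [e1] at h0'
    have hdf : DifferentiableAt ℝ (fun y : Vec 1 × Vec 1 => F (coL y.1, coL y.2, t')) (x, p) := by
      have h1 : ContDiff ℝ ∞ fun y : Vec 1 × Vec 1 => F (coL y.1, coL y.2, t') :=
        hF.smooth.comp ((coL.contDiff.comp contDiff_fst).prodMk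
          ((coL.contDiff.comp contDiff_snd).prodMk contDiff_const))
      exact (h1.differentiable (by simp)).differentiableAt
    have hxp : (evL.prodMap evL : ℝ × ℝ →L[ℝ] Vec 1 × Vec 1) (x 0, p 0) = (x, p) := by
      show (ev (x 0), ev (p 0)) = (x, p)
      rw [ev_coord, ev_coord]
    have h2 : HasFDerivAt (fun y : Vec 1 × Vec 1 => F (coL y.1, coL y.2, t'))
        (0 : Vec 1 × Vec 1 →L[ℝ] ℝ)
        ((evL.prodMap evL : ℝ × ℝ →L[ℝ] Vec 1 × Vec 1) (x 0, p 0)) := by
      rw [hxp]
      have := hdf.hasFDerivAt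
      rwa [h0'] at this
    have h3 := h2.comp (x 0, p 0)
      (evL.prodMap evL : ℝ × ℝ →L[ℝ] Vec 1 × Vec 1).hasFDerivAt
    rw [ContinuousLinearMap.zero_comp] at h3
    exact h3.fderiv

end Pool.Agent.NOne
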