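import Pool.Agent.NOne.BrEL

/-!
# MP_74f563_an, n = 1, file BrMem: the invariant measure of a periodic orbit

Copy the method of `action_mem` in Pool/Agent/MechAlpha/Lower.lean (there the Lagrangian is autonomous
and a second circle is needed; here it is simpler because the period `q` is an integer).

PROOF of `act_mem`.  The period is the real number `(q : ℝ) > 0` (`Fact`).  The three functions
`s ↦ proj (ev (X s))`, `s ↦ ev (W s)`, `s ↦ (s : UnitAddCircle)` are `q`-periodic: the first by
`proj_int`; the second because `W (s + q) = W s` (the velocities of `X (· + q) = X + p`: uniqueness of the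
derivative); the third because `q` is an integer.  So there is a continuous map
`G : AddCircle (q : ℝ) → Phase 1` (`Function.Periodic.lift`) with
`G s = (proj (ev (X s)), ev (W s), s)`, and `φ r (G s) = G (s + r)` by `flow_sol`.  The measure
`μ = (AddCircle.haarAddCircle).map G` is an invariant probability measure (`Measure.map_map`,
`map_add_right_eq_self`).  `L - ⟪ev c, v⟫` is continuous (`cont_L`) on the compact image, so integrable,
and the integral is (`AddCircle.integral_haarAddCircle`, `AddCircle.intervalIntegral_preimage`)
`q⁻¹ ∫_0^q (lft L (X s) (W s) s - c W s) ds` (`inner_ev`), and `∫_0^q W = X q - X 0 = p`.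
-/

set_option autoImplicit false

namespace Pool.Agent.NOne

open Set MeasureTheory Pool.Agent.MechAlpha
open scoped RealInnerProductSpace ContDiff

variable {L : Torus 1 → Vec 1 → UnitAddCircle → ℝ} {φ : ℝ → Phase 1 → Phase 1}

theorem act_mem (hT : Tonelli L) (hφ : IsELFlow L φ) {X W : ℝ → ℝ} (h : Sol (lft L) X W)
    {q : ℕ} (hq : 0 < q) {p : ℤ} (hX : ∀ t, X (t + q) = X t + p) (c : ℝ) :
    (act (lft L) X W 0 q - c * p) / q ∈ actions L φ (ev c) := by
  have hq' : (0 : ℝ) < q := by exact_mod_cast hq
  have : Fact (0 < (q : ℝ)) := ⟨hq'⟩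
  obtain ⟨hXc, hWc⟩ := sol_cont h
  have hW : ∀ t, W (t + q) = W t := by
    intro t
    have h1 : HasDerivAt (fun s => X (s + q)) (W (t + q)) t := (h.pos (t + q)).comp_add_const t q
    have e : (fun s => X (s + q)) = fun s => X s + p := funext hX
    rw [e] at h1
    exact h1.unique ((h.pos t).add_const _)
  have hpX : Function.Periodic (fun s => proj (ev (X s))) (q : ℝ) := by
    intro s
    show proj (ev (X (s + q))) = proj (ev (X s))
    rw [hX, proj_int]
  have hpW : Function.Periodic (fun s => ev (W s)) (q : ℝ) := by
    intro s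
    show ev (W (s + q)) = ev (W s)
    rw [hW]
  have hpT : Function.Periodic (fun s : ℝ => (s : UnitAddCircle)) (q : ℝ) := by
    intro s
    show ((s + q : ℝ) : UnitAddCircle) = (s : UnitAddCircle)
    rw [AddCircle.coe_add]
    have h2 : ((q : ℝ) : UnitAddCircle) = 0 :=
      (AddCircle.coe_eq_zero_iff (p := (1 : ℝ))).2 ⟨(q : ℤ), by simp⟩
    rw [h2, add_zero]
  have hcP : Continuous hpX.lift := by
    rw [← QuotientAddGroup.isOpenQuotientMap_mk.continuous_comp_iff]
    exact continuous_pi fun i => (AddCircle.continuous_mk' (1 : ℝ)).comp hXc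
  have hcQ : Continuous hpW.lift := by
    rw [← QuotientAddGroup.isOpenQuotientMap_mk.continuous_comp_iff]
    exact evL.continuous.comp hWc
  have hcT : Continuous hpT.lift := by
    rw [← QuotientAddGroup.isOpenQuotientMap_mk.continuous_comp_iff]
    exact AddCircle.continuous_mk' (1 : ℝ)
  set G : AddCircle (q : ℝ) → Phase 1 := fun s => (hpX.lift s, hpW.lift s, hpT.lift s) with hG
  have hGc : Continuous G := hcP.prodMk (hcQ.prodMk hcT)
  set ν : Measure (AddCircle (q : ℝ)) := AddCircle.haarAddCircle (T := (q : ℝ)) with hν
  have hflow : ∀ (r : ℝ) (s : AddCircle (q : ℝ)), φ r (G s) = G (s + (r : AddCircle (q : ℝ))) := by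
    intro r s
    induction s using QuotientAddGroup.induction_on with
    | H s => exact flow_sol hT hφ h s r
  have hφc : ∀ r, Continuous (φ r) := fun r => by
    have := hφ.cont.comp (Continuous.prodMk_right (X := ℝ) (Y := Phase 1) r)
    exact this
  refine ⟨ν.map G, ⟨Measure.isProbabilityMeasure_map hGc.aemeasurable, fun r => ?_⟩, ?_⟩
  · rw [Measure.map_map (hφc r).measurable hGc.measurable]
    have h1 : φ r ∘ G = G ∘ (fun s => s + (r : AddCircle (q : ℝ))) := by
      funext s
      exact hflow r s
    rw [h1, ← Measure.map_map hGc.measurable (measurable_add_const _), map_add_right_eq_self]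
  · set F : Phase 1 → ℝ := fun z => L z.1 z.2.1 z.2.2 - ⟪ev c, z.2.1⟫ with hF
    have hFc : Continuous F := by
      have h2 : Continuous fun z : Phase 1 => z.2.1 := continuous_fst.comp continuous_snd
      exact (cont_L hT).sub (continuous_const.inner h2)
    have hint : Integrable (fun s => F (G s)) ν := by
      have hc : Continuous fun s => F (G s) := hFc.comp hGc
      exact hc.integrable_of_hasCompactSupport (HasCompactSupport.of_compactSpace _)
    refine ⟨(integrable_map_measure hFc.aestronglyMeasurable hGc.aemeasurable).2 hint, ?_⟩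
    rw [integral_map hGc.aemeasurable hFc.aestronglyMeasurable]
    show _ = ∫ s, F (G s) ∂ν
    rw [AddCircle.integral_haarAddCircle, ← AddCircle.intervalIntegral_preimage (q : ℝ) 0,
      zero_add, smul_eq_mul]
    have h3 : ∀ t : ℝ, F (G (t : AddCircle (q : ℝ))) = lft L (X t) (W t) t - c * W t := by
      intro t
      rw [← inner_ev]
      rfl
    have hac : Continuous fun t => lft L (X t) (W t) t :=
      (ana_continuous (ana_lft hT)).comp (hXc.prodMk (hWc.prodMk continuous_id))
    have h7 : ∫ t in (0 : ℝ)..q, W t = p := by
      rw [intervalIntegral.integral_eq_sub_of_hasDerivAt (f := X) (fun t _ => h.pos t)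
        (hWc.intervalIntegrable _ _)]
      have h9 := hX 0
      rw [zero_add] at h9
      rw [h9]
      ring
    have hcW : Continuous fun t => c * W t := continuous_const.mul hWc
    have h10 : ∫ t in (0 : ℝ)..q, F (G (t : AddCircle (q : ℝ))) =
        act (lft L) X W 0 q - c * p := by
      rw [intervalIntegral.integral_congr (g := fun t => lft L (X t) (W t) t - c * W t)
        (fun t _ => h3 t), intervalIntegral.integral_sub (hac.intervalIntegrable _ _)
        (hcW.intervalIntegrable _ _), intervalIntegral.integral_const_mul, h7, act]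
    rw [h10, div_eq_inv_mul]

end Pool.Agent.NOne
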