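import Pool.Agent.NOne.BrDefs
import Pool.Agent.NOne.DLeg

/-!
# MP_74f563_an, n = 1, file BrPre: the scalar Lagrangian satisfies the standard hypotheses

Notation of BrDefs.lean: `ev x` is the vector of `Vec 1` with coordinate `x`, `evL` the same as a
continuous linear map, `lft L x v t = L (proj (ev x)) (ev v) t`; `Ana`, `d1`, `d2` in Defs.lean, `Pre` in
DLeg.lean.

PROOFS.
`ana_lft`: composition of `Tonelli.ana` with the linear map `(x, v, t) ↦ (ev x, ev v, t)`
(`AnalyticOnNhd.comp`, `ContinuousLinearMap.analyticOnNhd`; `proj q.1` with `q.1 = ev x`).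
`d2_lft`: `v ↦ lft L x v t` is the composition of `u ↦ L (proj (ev x)) u t` with `evL`, chain rule;
the function `u ↦ L (proj (ev x)) u t` is differentiable (restriction of an analytic function).
`d1_lft`: the same for `y ↦ L (proj y) (ev v) t`.
`conv_lft`: by `d2_lft` (`funext`), `d2 (d2 (lft L)) x v t` is the derivative of
`w ↦ fderiv ℝ g (ev w) (ev 1)`, `g u = L (proj (ev x)) u t`, which is
`fderiv ℝ (fderiv ℝ g) (ev v) (ev 1) (ev 1) > 0` (`Tonelli.conv`, `ev_one_ne`).
`sup_lft`: let `B`; `Tonelli.sup B` gives `R`.  The function `lft L` is continuous (`ana_lft`), so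
`lft L x v t ≥ -M` for `x, t ∈ Icc 0 1`, `|v| ≤ |R|`, and by periodicity (`lft_perx`, `lft_pert`,
`Int.fract`) for all `x, t`.  Take `C = |B| |R| + |M|`: if `|v| ≥ R` then
`B |v| ≤ lft L x v t` (`norm_ev`); otherwise `B |v| - C ≤ -M`.
`cont_L`: `L` as a function on `Phase 1` is continuous: the map
`(x, v, t) ↦ (proj x, v, t)` is an open quotient map (see `upper_open_proj` in
Pool/Agent/MechAlpha/Upper.lean; `IsOpenQuotientMap.prodMap`), and the composition is analytic.
-/

set_option autoImplicit false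

namespace Pool.Agent.NOne

open Set MeasureTheory Pool.Agent.MechAlpha
open scoped RealInnerProductSpace ContDiff

variable {L : Torus 1 → Vec 1 → UnitAddCircle → ℝ}

/-- the linear change of variables -/
private noncomputable def brA : ℝ × ℝ × ℝ →L[ℝ] Vec 1 × Vec 1 × ℝ :=
  (evL.comp (ContinuousLinearMap.fst ℝ ℝ (ℝ × ℝ))).prod
    ((evL.comp ((ContinuousLinearMap.fst ℝ ℝ ℝ).comp
      (ContinuousLinearMap.snd ℝ ℝ (ℝ × ℝ)))).prod
      ((ContinuousLinearMap.snd ℝ ℝ ℝ).comp (ContinuousLinearMap.snd ℝ ℝ (ℝ × ℝ))))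

private theorem slice1 (hT : Tonelli L) (v t : ℝ) :
    AnalyticOnNhd ℝ (fun y : Vec 1 => L (proj y) (ev v) (t : UnitAddCircle)) univ := by
  have h1 : AnalyticOnNhd ℝ (fun y : Vec 1 => ((y, ev v, t) : Vec 1 × Vec 1 × ℝ)) univ :=
    analyticOnNhd_id.prod (analyticOnNhd_const.prod analyticOnNhd_const)
  exact hT.ana.comp h1 (mapsTo_univ _ _)

private theorem slice2 (hT : Tonelli L) (x t : ℝ) :
    AnalyticOnNhd ℝ (fun u : Vec 1 => L (proj (ev x)) u (t : UnitAddCircle)) univ := by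
  have h1 : AnalyticOnNhd ℝ (fun u : Vec 1 => ((ev x, u, t) : Vec 1 × Vec 1 × ℝ)) univ :=
    analyticOnNhd_const.prod (analyticOnNhd_id.prod analyticOnNhd_const)
  exact hT.ana.comp h1 (mapsTo_univ _ _)

theorem ana_lft (hT : Tonelli L) : Ana (lft L) :=
  hT.ana.comp (brA.analyticOnNhd univ) (mapsTo_univ _ _)

theorem d2_lft (hT : Tonelli L) (x v t : ℝ) :
    d2 (lft L) x v t =
      fderiv ℝ (fun u : Vec 1 => L (proj (ev x)) u (t : UnitAddCircle)) (ev v) (ev 1) := by
  have h1 := (slice2 hT x t (ev v) (mem_univ _)).differentiableAt.hasFDerivAt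
  have h2 : HasDerivAt (fun w : ℝ => ev w) (ev 1) v := evL.hasDerivAt
  exact (h1.comp_hasDerivAt v h2).deriv

theorem d1_lft (hT : Tonelli L) (x v t : ℝ) :
    d1 (lft L) x v t =
      fderiv ℝ (fun y : Vec 1 => L (proj y) (ev v) (t : UnitAddCircle)) (ev x) (ev 1) := by
  have h1 := (slice1 hT v t (ev x) (mem_univ _)).differentiableAt.hasFDerivAt
  have h2 : HasDerivAt (fun w : ℝ => ev w) (ev 1) x := evL.hasDerivAt
  exact (h1.comp_hasDerivAt x h2).deriv

theorem conv_lft (hT : Tonelli L) (x v t : ℝ) : 0 < d2 (d2 (lft L)) x v t := by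
  have h0 := hT.conv (ev x) (ev v) (ev 1) t ev_one_ne
  have h1 := ((slice2 hT x t).fderiv (ev v) (mem_univ _)).differentiableAt.hasFDerivAt
  have h2 : HasDerivAt (fun w : ℝ => ev w) (ev 1) v := evL.hasDerivAt
  have h3 := h1.comp_hasDerivAt v h2
  have h4 := h3.clm_apply (hasDerivAt_const v (ev 1))
  rw [map_zero, add_zero] at h4
  have h5 : (fun w => d2 (lft L) x w t) = fun w => fderiv ℝ
      (fun u : Vec 1 => L (proj (ev x)) u (t : UnitAddCircle)) (ev w) (ev 1) :=
    funext fun w => d2_lft hT x w t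
  show 0 < deriv (fun w => d2 (lft L) x w t) v
  rw [h5, show deriv (fun w => fderiv ℝ
    (fun u : Vec 1 => L (proj (ev x)) u (t : UnitAddCircle)) (ev w) (ev 1)) v = _ from h4.deriv]
  exact h0

private theorem lft_fract (x v t : ℝ) :
    lft L (Int.fract x) v (Int.fract t) = lft L x v t := by
  have h1 : proj (ev (Int.fract x)) = proj (ev x) := by
    rw [← proj_int (Int.fract x) ⌊x⌋, Int.fract_add_floor]
  have h2 : ((Int.fract t : ℝ) : UnitAddCircle) = (t : UnitAddCircle) := by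
    have h3 : (((⌊t⌋ : ℤ) : ℝ) : UnitAddCircle) = 0 :=
      (AddCircle.coe_eq_zero_iff (p := (1 : ℝ))).2 ⟨⌊t⌋, by simp⟩
    conv_rhs => rw [← Int.fract_add_floor t, AddCircle.coe_add, h3, add_zero]
  unfold lft
  rw [h1, h2]

theorem sup_lft (hT : Tonelli L) (B : ℝ) : ∃ C : ℝ, ∀ x v t, B * |v| - C ≤ lft L x v t := by
  obtain ⟨R, hR⟩ := hT.sup B
  have hc := ana_continuous (ana_lft hT)
  have hK : IsCompact (Icc (0 : ℝ) 1 ×ˢ Icc (-|R|) |R| ×ˢ Icc (0 : ℝ) 1) :=
    isCompact_Icc.prod (isCompact_Icc.prod isCompact_Icc)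
  obtain ⟨M, hM⟩ := hK.exists_bound_of_continuousOn hc.continuousOn
  refine ⟨|B| * |R| + |M|, fun x v t => ?_⟩
  have hM0 := le_abs_self M
  have hM1 := abs_nonneg M
  have hB0 := mul_nonneg (abs_nonneg B) (abs_nonneg R)
  rcases le_or_gt R |v| with h | h
  · have h1 := hR (proj (ev x)) (ev v) (t : UnitAddCircle) (by rwa [norm_ev])
    rw [norm_ev] at h1
    show B * |v| - (|B| * |R| + |M|) ≤ L (proj (ev x)) (ev v) (t : UnitAddCircle)
    linarith
  · have h2 : |v| ≤ |R| := h.le.trans (le_abs_self R)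
    have h3 := hM (Int.fract x, v, Int.fract t)
      ⟨⟨Int.fract_nonneg x, (Int.fract_lt_one x).le⟩, abs_le.1 h2,
        ⟨Int.fract_nonneg t, (Int.fract_lt_one t).le⟩⟩
    rw [Real.norm_eq_abs] at h3
    change |lft L (Int.fract x) v (Int.fract t)| ≤ M at h3
    rw [lft_fract] at h3
    have h4 := (abs_le.1 h3).1
    have h5 : B * |v| ≤ |B| * |R| :=
      (mul_le_mul_of_nonneg_right (le_abs_self B) (abs_nonneg v)).trans
        (mul_le_mul_of_nonneg_left h2 (abs_nonneg B))
    linarith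

theorem pre_lft (hT : Tonelli L) : Pre (lft L) := ⟨ana_lft hT, conv_lft hT, sup_lft hT⟩

private theorem open_proj : IsOpenQuotientMap (proj (n := 1)) := by
  have h1 : IsOpenQuotientMap (Pi.map fun (_ : Fin 1) (x : ℝ) => (x : UnitAddCircle)) :=
    IsOpenQuotientMap.piMap fun _ => QuotientAddGroup.isOpenQuotientMap_mk
  exact h1.comp (PiLp.homeomorph 2 (fun _ : Fin 1 => ℝ)).isOpenQuotientMap

theorem cont_L (hT : Tonelli L) : Continuous fun z : Phase 1 => L z.1 z.2.1 z.2.2 := by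
  have h1 : IsOpenQuotientMap (fun x : ℝ => (x : UnitAddCircle)) :=
    QuotientAddGroup.isOpenQuotientMap_mk
  have h2 := open_proj.prodMap ((IsOpenQuotientMap.id (X := Vec 1)).prodMap h1)
  refine h2.continuous_comp_iff.1 ?_
  exact continuousOn_univ.1 hT.ana.continuousOn

end Pool.Agent.NOne
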