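import Pool.Agent.NOne.Defs

/-!
# MP_74f563_an, n = 1, file DRot: the rotation number of an orbit (F13)

Here `C0I L V` (Defs.lean): `V h` is continuous and 1-periodic, `V h x` is strictly increasing in the
rational number `h`, and `{V h x}` is dense in `ℝ`.

PROOFS.
Put `A v = {a | ∃ h : ℚ, (h : ℝ) = a ∧ V h x ≤ v}`.  It is not empty (`C0I.dense` for `v - 1 < v`) and
bounded above (`C0I.dense` gives `h'` with `v < V h' x < v + 1`; if `V h x ≤ v` then `h < h'` by
`C0I.mono`: otherwise `h' ≤ h` and `V h' x ≤ V h x ≤ v`).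
`rot_V`: `V r x ≤ V h x` iff `r ≤ h`, so the supremum is `h`.
`rot_strictMono`: for `v < v'` choose by `dense` first `h` with `v < V h x < v'`, then `h'` with
`V h x < V h' x < v'`; then `h < h'`; all elements of `A v` are `≤ h` (as above), so
`rot v ≤ h < h' ≤ rot v'`.
`lt_rot_iff`: if `V h x < v` then `h = rot (V h x) < rot v`.  If `v ≤ V h x` then
`rot v ≤ rot (V h x) = h`.
`rot_lt_iff`: the same.
`rot_cont`: `continuous_iff_lower_upperSemicontinuous`, or directly: for a real `a`,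
`{z | a < rot z}` is the union over the rationals `h > a` of `{z | h < rot z} = {z | V h z.1 < z.2}`,
which is open (`C0I.cont`); the same for `{z | rot z < a}`; `continuous_generateFrom_iff` or
`OrderTopology` (`tendsto_order`).
`rot_per`: `C0I.per`.
`rot_surj`: the intermediate value theorem for `rot V x` (continuous by `rot_cont`) between `V h x`
and `V h' x`, `h < a < h'` rational (`rot_V`).
`rot_proper`: rationals `h < a`, `h' > b`; then `V h x < v < V h' x`; `V h` and `V h'` are continuous and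
1-periodic, so bounded (`Function.Periodic.exists_mem_Ico₀`, compactness of `Icc 0 1`).
-/

set_option autoImplicit false

namespace Pool.Agent.NOne

open Set Filter Topology

variable {L : ℝ → ℝ → ℝ → ℝ} {V : ℚ → ℝ → ℝ}

/-- the rotation number of the orbit with position `x` and velocity `v` at time `0` -/
noncomputable def rot (V : ℚ → ℝ → ℝ) (x v : ℝ) : ℝ :=
  sSup {a : ℝ | ∃ h : ℚ, (h : ℝ) = a ∧ V h x ≤ v}

private lemma V_le_iff (hC : C0I L V) (h h' : ℚ) (x : ℝ) : V h x ≤ V h' x ↔ h ≤ h' := by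
  constructor
  · intro hle
    by_contra hlt
    exact absurd (hC.mono h' h x (not_le.mp hlt)) (not_lt.mpr hle)
  · intro hle
    rcases hle.eq_or_lt with rfl | hlt
    · exact le_rfl
    · exact (hC.mono h h' x hlt).le

private lemma rotS_nonempty (hC : C0I L V) (x v : ℝ) :
    {a : ℝ | ∃ h : ℚ, (h : ℝ) = a ∧ V h x ≤ v}.Nonempty := by
  obtain ⟨h, _, h2⟩ := hC.dense x (v - 1) v (by linarith)
  exact ⟨(h : ℝ), h, rfl, h2.le⟩

private lemma le_of_V (hC : C0I L V) {x v : ℝ} {h' : ℚ} (hv : v < V h' x) :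
    ∀ a ∈ {a : ℝ | ∃ h : ℚ, (h : ℝ) = a ∧ V h x ≤ v}, a ≤ (h' : ℝ) := by
  rintro a ⟨h, rfl, h2⟩
  have h3 : V h x ≤ V h' x := h2.trans hv.le
  exact_mod_cast (V_le_iff hC h h' x).mp h3

private lemma rotS_bdd (hC : C0I L V) (x v : ℝ) :
    BddAbove {a : ℝ | ∃ h : ℚ, (h : ℝ) = a ∧ V h x ≤ v} := by
  obtain ⟨h', h1, _⟩ := hC.dense x v (v + 1) (by linarith)
  exact ⟨(h' : ℝ), le_of_V hC h1⟩

private lemma rot_le_of (hC : C0I L V) {x v : ℝ} {h' : ℚ} (hv : v < V h' x) :
    rot V x v ≤ (h' : ℝ) :=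
  csSup_le (rotS_nonempty hC x v) (le_of_V hC hv)

private lemma le_rot_of (hC : C0I L V) {x v : ℝ} {h : ℚ} (hv : V h x ≤ v) :
    (h : ℝ) ≤ rot V x v :=
  le_csSup (rotS_bdd hC x v) ⟨h, rfl, hv⟩

theorem rot_V (hC : C0I L V) (h : ℚ) (x : ℝ) : rot V x (V h x) = h := by
  refine le_antisymm ?_ (le_rot_of hC le_rfl)
  refine csSup_le (rotS_nonempty hC x _) ?_
  rintro a ⟨h0, rfl, h2⟩
  exact_mod_cast (V_le_iff hC h0 h x).mp h2

theorem rot_strictMono (hC : C0I L V) (x : ℝ) : StrictMono (rot V x) := by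
  intro v v' hvv
  obtain ⟨h, h1, h2⟩ := hC.dense x v v' hvv
  obtain ⟨h', h3, h4⟩ := hC.dense x (V h x) v' h2
  have h5 : h < h' := by
    by_contra hcon
    exact absurd ((V_le_iff hC h' h x).mpr (not_lt.mp hcon)) (not_le.mpr h3)
  calc rot V x v ≤ (h : ℝ) := rot_le_of hC h1
    _ < (h' : ℝ) := by exact_mod_cast h5
    _ ≤ rot V x v' := le_rot_of hC h4.le

theorem lt_rot_iff (hC : C0I L V) (x v : ℝ) (h : ℚ) : (h : ℝ) < rot V x v ↔ V h x < v := by
  conv_lhs => rw [← rot_V hC h x]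
  exact (rot_strictMono hC x).lt_iff_lt

theorem rot_lt_iff (hC : C0I L V) (x v : ℝ) (h : ℚ) : rot V x v < (h : ℝ) ↔ v < V h x := by
  conv_lhs => rw [← rot_V hC h x]
  exact (rot_strictMono hC x).lt_iff_lt

theorem rot_cont (hC : C0I L V) : Continuous fun z : ℝ × ℝ => rot V z.1 z.2 := by
  rw [continuous_iff_continuousAt]
  intro z
  refine tendsto_order.2 ⟨fun a ha => ?_, fun a ha => ?_⟩
  · obtain ⟨h, h1, h2⟩ := exists_rat_btwn ha
    have h3 : V h z.1 < z.2 := (lt_rot_iff hC z.1 z.2 h).mp h2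
    have h4 : IsOpen {w : ℝ × ℝ | V h w.1 < w.2} :=
      isOpen_lt ((hC.cont h).comp continuous_fst) continuous_snd
    filter_upwards [h4.mem_nhds h3] with w hw
    exact h1.trans ((lt_rot_iff hC w.1 w.2 h).mpr hw)
  · obtain ⟨h, h1, h2⟩ := exists_rat_btwn ha
    have h3 : z.2 < V h z.1 := (rot_lt_iff hC z.1 z.2 h).mp h1
    have h4 : IsOpen {w : ℝ × ℝ | w.2 < V h w.1} :=
      isOpen_lt continuous_snd ((hC.cont h).comp continuous_fst)
    filter_upwards [h4.mem_nhds h3] with w hw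
    exact ((rot_lt_iff hC w.1 w.2 h).mpr hw).trans h2

theorem rot_per (hC : C0I L V) (x v : ℝ) : rot V (x + 1) v = rot V x v := by
  unfold rot
  simp only [hC.per]

theorem rot_surj (hC : C0I L V) (x a : ℝ) : ∃ v, rot V x v = a := by
  have hc : Continuous (fun v : ℝ => rot V x v) :=
    (rot_cont hC).comp (Continuous.prodMk continuous_const continuous_id)
  obtain ⟨h, h1⟩ := exists_rat_lt a
  obtain ⟨h', h2⟩ := exists_rat_gt a
  exact mem_range_of_exists_le_of_exists_ge hc ⟨V h x, by rw [rot_V hC]; exact h1.le⟩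
    ⟨V h' x, by rw [rot_V hC]; exact h2.le⟩

private lemma V_bdd (hC : C0I L V) (h : ℚ) : ∃ R, ∀ x, |V h x| ≤ R := by
  have hp : Function.Periodic (V h) 1 := fun x => hC.per h x
  obtain ⟨R, hR⟩ := (hp.isBounded_of_continuous one_ne_zero (hC.cont h)).exists_norm_le
  exact ⟨R, fun x => by simpa using hR _ (mem_range_self x)⟩

theorem rot_proper (hC : C0I L V) (a b : ℝ) : ∃ R, ∀ x v, rot V x v ∈ Icc a b → |v| ≤ R := by
  obtain ⟨h, h1⟩ := exists_rat_lt a
  obtain ⟨h', h2⟩ := exists_rat_gt b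
  obtain ⟨R, hR⟩ := V_bdd hC h
  obtain ⟨R', hR'⟩ := V_bdd hC h'
  refine ⟨max R R', fun x v hv => ?_⟩
  have h3 : V h x < v := (lt_rot_iff hC x v h).mp (h1.trans_le hv.1)
  have h4 : v < V h' x := (rot_lt_iff hC x v h').mp (hv.2.trans_lt h2)
  have h5 := abs_le.mp (hR x)
  have h6 := abs_le.mp (hR' x)
  rw [abs_le]
  constructor
  · have := le_max_left R R'
    linarith
  · have := le_max_right R R'
    linarith

end Pool.Agent.NOne
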