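import Pool.Agent.NOne.BTw
import Pool.Agent.NOne.DRot

/-!
# MP_74f563_an, n = 1, file DAsy: asymptotics of the orbits; invariance of the rotation number (F13)

PROOFS.
`fx_bdd`: let `q = h.den`, `p = h.num`, `h = p / q` (`Rat.num_div_den`).  By `C0I.orb` the function
`g t = FX L t x (V h x) - h t` satisfies `g (t + q) = g t` for all `t`, and it is continuous (`cont_fx` in
AAut.lean).  So it is bounded: for `t ≥ 0` reduce modulo `q` to `[0, q]`
(`Function.Periodic.exists_mem_Ico₀`), compactness.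
`rot_tendsto`: let `ε > 0`, `ρ = rot V x v`.  Choose rationals `h, h'` with `ρ - ε < h < ρ < h' < ρ + ε`.
By `lt_rot_iff`, `rot_lt_iff`: `V h x < v < V h' x`.  By `fx_strictMono` (BTw.lean) for `n ≥ 1`:
`FX L n x (V h x) < FX L n x v < FX L n x (V h' x)`; by `fx_bdd`
`h n - C ≤ FX L n x v ≤ h' n + C'`; divide by `n`.
`rot_inv`: `FX L n (FX L 1 x v) (FW L 1 x v) = FX L (n + 1) x v` (`fx_add` of AFlow.lean with
`t = n`, `k = 1`), so `FX L n (FX L 1 x v) (FW L 1 x v) / n = (FX L (n+1) x v / (n+1)) ((n+1)/n)`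
tends to `rot V x v` and to `rot V (FX L 1 x v) (FW L 1 x v)`: uniqueness of limits.
`rot_of_tendsto`: uniqueness of limits along the subsequence `n ↦ n q` (`Tendsto.comp`).
-/

set_option autoImplicit false

namespace Pool.Agent.NOne

open Set Filter Topology

variable {L : ℝ → ℝ → ℝ → ℝ} {V : ℚ → ℝ → ℝ}

private theorem fx_period (hC : C0I L V) (h : ℚ) (x t : ℝ) (k : ℕ) :
    FX L (t + k * h.den) x (V h x) = FX L t x (V h x) + k * h.num := by
  induction k with
  | zero => simp
  | succ k ih =>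
    have h1 := hC.orb h.den h.num h.den_pos x (t + k * h.den)
    rw [Rat.num_div_den] at h1
    have e : t + ((k + 1 : ℕ) : ℝ) * h.den = t + k * h.den + h.den := by
      push_cast
      ring
    rw [e, h1, ih]
    push_cast
    ring

theorem fx_bdd (hC : C0I L V) (h : ℚ) (x : ℝ) :
    ∃ C, ∀ n : ℕ, |FX L n x (V h x) - h * n| ≤ C := by
  refine ⟨∑ i ∈ Finset.range h.den, |FX L i x (V h x) - h * i|, fun n => ?_⟩
  have hd : (h.den : ℝ) ≠ 0 := Nat.cast_ne_zero.2 h.den_nz
  have e1 : (n : ℝ) = ((n % h.den : ℕ) : ℝ) + ((n / h.den : ℕ) : ℝ) * h.den := by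
    have := Nat.mod_add_div n h.den
    rw [mul_comm] at this
    exact_mod_cast this.symm
  have e2 : (h : ℝ) * h.den = h.num := by
    have := Rat.mul_den_eq_num h
    exact_mod_cast this
  have e3 : FX L n x (V h x) - h * n =
      FX L ((n % h.den : ℕ) : ℝ) x (V h x) - h * ((n % h.den : ℕ) : ℝ) := by
    rw [e1, fx_period hC]
    linear_combination (-((n / h.den : ℕ) : ℝ)) * e2
  rw [e3]
  exact Finset.single_le_sum (f := fun i : ℕ => |FX L i x (V h x) - h * i|)
    (fun i _ => abs_nonneg _) (Finset.mem_range.2 (Nat.mod_lt _ h.den_pos))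

theorem rot_tendsto (hC : C0I L V) (x v : ℝ) :
    Tendsto (fun n : ℕ => FX L n x v / n) atTop (𝓝 (rot V x v)) := by
  refine tendsto_order.2 ⟨fun a ha => ?_, fun b hb => ?_⟩
  · obtain ⟨h, h1, h2⟩ := exists_rat_btwn ha
    obtain ⟨C, hCb⟩ := fx_bdd hC h x
    have h3 := (lt_rot_iff hC x v h).1 h2
    obtain ⟨N, hN⟩ := exists_nat_gt (C / (h - a))
    filter_upwards [eventually_ge_atTop N, eventually_ge_atTop 1] with n hn hn1
    have hnp : (0 : ℝ) < n := by exact_mod_cast hn1
    have h4 := fx_strictMono hC hnp x h3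
    have h5 := (abs_le.1 (hCb n)).1
    have hpos : (0 : ℝ) < h - a := sub_pos.2 h1
    have h6 : C < (h - a) * n := by
      have h7 : C / (h - a) < n := hN.trans_le (by exact_mod_cast hn)
      rw [div_lt_iff₀ hpos] at h7
      linarith
    simp only at h4
    rw [lt_div_iff₀ hnp]
    linarith
  · obtain ⟨h, h1, h2⟩ := exists_rat_btwn hb
    obtain ⟨C, hCb⟩ := fx_bdd hC h x
    have h3 := (rot_lt_iff hC x v h).1 h1
    obtain ⟨N, hN⟩ := exists_nat_gt (C / (b - h))
    filter_upwards [eventually_ge_atTop N, eventually_ge_atTop 1] with n hn hn1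
    have hnp : (0 : ℝ) < n := by exact_mod_cast hn1
    have h4 := fx_strictMono hC hnp x h3
    have h5 := (abs_le.1 (hCb n)).2
    have hpos : (0 : ℝ) < b - h := sub_pos.2 h2
    have h6 : C < (b - h) * n := by
      have h7 : C / (b - h) < n := hN.trans_le (by exact_mod_cast hn)
      rw [div_lt_iff₀ hpos] at h7
      linarith
    simp only at h4
    rw [div_lt_iff₀ hnp]
    linarith

theorem rot_inv (hC : C0I L V) (x v : ℝ) : rot V (FX L 1 x v) (FW L 1 x v) = rot V x v := by
  have h1 := rot_tendsto hC (FX L 1 x v) (FW L 1 x v)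
  have h2 : Tendsto (fun n : ℕ => FX L ((n + 1 : ℕ) : ℝ) x v / ((n + 1 : ℕ) : ℝ)) atTop
      (𝓝 (rot V x v)) := (rot_tendsto hC x v).comp (tendsto_add_atTop_nat 1)
  have h3 : Tendsto (fun n : ℕ => ((n + 1 : ℕ) : ℝ) / (n : ℝ)) atTop (𝓝 1) := by
    have h4 : Tendsto (fun n : ℕ => 1 + 1 / (n : ℝ)) atTop (𝓝 (1 + 0)) :=
      tendsto_const_nhds.add tendsto_one_div_atTop_nhds_zero_nat
    rw [add_zero] at h4
    refine h4.congr' ?_
    filter_upwards [eventually_ge_atTop 1] with n hn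
    have hnp : (n : ℝ) ≠ 0 := by
      have : n ≠ 0 := by omega
      exact_mod_cast this
    push_cast
    field_simp
  have h5 := h2.mul h3
  rw [mul_one] at h5
  refine tendsto_nhds_unique h1 (h5.congr' ?_)
  filter_upwards [eventually_ge_atTop 1] with n hn
  have hnp : (n : ℝ) ≠ 0 := by
    have : n ≠ 0 := by omega
    exact_mod_cast this
  have hnp' : ((n + 1 : ℕ) : ℝ) ≠ 0 := by positivity
  have e := fx_add hC.ton (n : ℝ) x v 1
  rw [Int.cast_one] at e
  have e2 : ((n + 1 : ℕ) : ℝ) = (n : ℝ) + 1 := by push_cast; ring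
  rw [← e, ← e2]
  field_simp

theorem rot_of_tendsto (hC : C0I L V) {q : ℕ} (hq : 0 < q) (x v a : ℝ)
    (h : Tendsto (fun n : ℕ => FX L ((n * q : ℕ) : ℝ) x v / ((n * q : ℕ) : ℝ)) atTop (𝓝 a)) :
    rot V x v = a := by
  have h1 : Tendsto (fun n : ℕ => n * q) atTop atTop :=
    tendsto_id.atTop_mul_const' hq
  exact tendsto_nhds_unique ((rot_tendsto hC x v).comp h1) h

end Pool.Agent.NOne
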