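import Pool.Agent.NOne.DAsy

/-!
# MP_74f563_an, n = 1, file DBand: the rotation number in a band (Part D)

Here `Band L q p r Q W` (Defs.lean): the leaf `t` (`|t| < 1/4`) of the band is the curve
`θ ↦ (Q θ t, W θ t)`, invariant under the time-`q` map, which acts as the rotation
`θ ↦ θ + r (1 + t)` (followed by the translation by `p`).

PROOFS.
`band_orb`: induction on `n`.  `n = 0`: `fx_zero`, `fw_zero` (AFlow.lean).  Step: `fx_add`, `fw_add` of
AFlow.lean give `FX L (a + k) x v = FX L a (FX L k x v) (FW L k x v)` for integers `k`; use it with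
`a = q`, `k = n q` (casts: `((n * q : ℕ) : ℝ) = (((n * q : ℕ) : ℤ) : ℝ)`), then `fx_int`, `fw_int`
(translation of the position by the integer `n p`), then `Band.orbQ`, `Band.orbW` at
`θ + n (r (1 + t))`.
`band_bdd`: the function `θ ↦ Q θ t - θ` is continuous (`Band.smoothQ` restricted to the line, which
lies in the open set `{|z.2| < 1/4}`) and 1-periodic (`Band.perQ`), so bounded.
`band_rot`: `rot_of_tendsto` with `x = Q θ t`, `v = W θ t`, `a = (p + r (1 + t)) / q`:
by `band_orb` and `band_bdd`,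
`|FX L (n q) x v - (θ + n r (1 + t) + n p)| ≤ C`, so the quotient by `n q` tends to `a`.
`band_surj`: intermediate value theorem, `Q θ t - θ` is bounded and continuous.
-/

set_option autoImplicit false

namespace Pool.Agent.NOne

open Set Filter Topology

variable {L : ℝ → ℝ → ℝ → ℝ} {V : ℚ → ℝ → ℝ} {q : ℕ} {p : ℤ} {r : ℝ} {Q W : ℝ → ℝ → ℝ}

theorem band_orb (hL : Ton L) (hB : Band L q p r Q W) (θ t : ℝ) (ht : |t| < 1 / 4) (n : ℕ) :
    FX L ((n * q : ℕ) : ℝ) (Q θ t) (W θ t) = Q (θ + n * (r * (1 + t))) t + n * p ∧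
      FW L ((n * q : ℕ) : ℝ) (Q θ t) (W θ t) = W (θ + n * (r * (1 + t))) t := by
  induction n with
  | zero =>
    simp [fx_zero hL, fw_zero hL]
  | succ n ih =>
    have hc : (((n + 1) * q : ℕ) : ℝ) = (q : ℝ) + (((n * q : ℕ) : ℤ) : ℝ) := by
      push_cast
      ring
    have hk : ((((n * q : ℕ) : ℤ)) : ℝ) = ((n * q : ℕ) : ℝ) := by push_cast; ring
    have hp : (n : ℝ) * (p : ℝ) = (((n : ℤ) * p : ℤ) : ℝ) := by push_cast; ring
    have hθ : θ + (n : ℝ) * (r * (1 + t)) + r * (1 + t) =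
        θ + ((n + 1 : ℕ) : ℝ) * (r * (1 + t)) := by
      push_cast
      ring
    constructor
    · rw [hc, fx_add hL, hk, ih.1, ih.2, hp, fx_int hL, hB.orbQ _ _ ht, hθ]
      push_cast
      ring
    · rw [hc, fw_add hL, hk, ih.1, ih.2, hp, fw_int hL, hB.orbW _ _ ht, hθ]

theorem band_cont (hB : Band L q p r Q W) (t : ℝ) (ht : |t| < 1 / 4) :
    Continuous fun θ => Q θ t := by
  have h := hB.smoothQ.continuousOn
  exact h.comp_continuous (by fun_prop : Continuous fun θ : ℝ => (θ, t)) (fun θ => ht)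

theorem band_bdd (hB : Band L q p r Q W) (t : ℝ) (ht : |t| < 1 / 4) :
    ∃ C, ∀ θ, |Q θ t - θ| ≤ C := by
  have hcont : Continuous fun θ => Q θ t - θ := (band_cont hB t ht).sub continuous_id
  have hper : Function.Periodic (fun θ => Q θ t - θ) 1 := by
    intro θ
    simp only [hB.perQ θ t ht]
    ring
  obtain ⟨C, hC⟩ := (isCompact_Icc (a := (0 : ℝ)) (b := 1)).exists_bound_of_continuousOn
    hcont.continuousOn
  refine ⟨C, fun θ => ?_⟩
  obtain ⟨y, hy, he⟩ := hper.exists_mem_Ico₀ one_pos θ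
  have h := hC y ⟨hy.1, hy.2.le⟩
  rw [he, ← Real.norm_eq_abs]
  exact h

theorem band_surj (hB : Band L q p r Q W) (t : ℝ) (ht : |t| < 1 / 4) (x : ℝ) :
    ∃ θ, Q θ t = x := by
  obtain ⟨C, hC⟩ := band_bdd hB t ht
  have h1 : ∃ a, Q a t ≤ x := by
    refine ⟨x - C, ?_⟩
    have := (abs_le.1 (hC (x - C))).2
    linarith
  have h2 : ∃ a, x ≤ Q a t := by
    refine ⟨x + C, ?_⟩
    have := (abs_le.1 (hC (x + C))).1
    linarith
  exact mem_range_of_exists_le_of_exists_ge (band_cont hB t ht) h1 h2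

theorem band_rot (hC : C0I L V) (hq : 0 < q) (hB : Band L q p r Q W) (θ t : ℝ)
    (ht : |t| < 1 / 4) : rot V (Q θ t) (W θ t) = (p + r * (1 + t)) / q := by
  apply rot_of_tendsto hC hq
  obtain ⟨C, hCb⟩ := band_bdd hB t ht
  have hq' : (0 : ℝ) < q := by exact_mod_cast hq
  have h0 : Tendsto (fun n : ℕ => (Q (θ + n * (r * (1 + t))) t - (θ + n * (r * (1 + t))) + θ) /
      ((n : ℝ) * q)) atTop (𝓝 0) := by
    have hlim : Tendsto (fun n : ℕ => (C + |θ|) / q / (n : ℝ)) atTop (𝓝 0) :=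
      tendsto_const_div_atTop_nhds_zero_nat _
    refine squeeze_zero_norm' ?_ hlim
    filter_upwards [eventually_gt_atTop 0] with n hn
    have hn' : (0 : ℝ) < n := by exact_mod_cast hn
    rw [Real.norm_eq_abs, abs_div, abs_of_pos (mul_pos hn' hq'), div_div, mul_comm (q : ℝ) (n : ℝ)]
    apply div_le_div_of_nonneg_right _ (mul_pos hn' hq').le
    refine (abs_add_le _ _).trans ?_
    have := hCb (θ + n * (r * (1 + t)))
    linarith
  have h1 := h0.add_const ((p + r * (1 + t)) / (q : ℝ))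
  rw [zero_add] at h1
  refine h1.congr' ?_
  filter_upwards [eventually_gt_atTop 0] with n hn
  have hn' : (n : ℝ) ≠ 0 := by
    have : (0 : ℝ) < n := by exact_mod_cast hn
    exact this.ne'
  rw [(band_orb hC.ton hB θ t ht n).1]
  push_cast
  field_simp
  ring

end Pool.Agent.NOne
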