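import Mathlib

/-!
# MP_74f563_an, n = 1, file DLoc: a function which is affine in local coordinates (Mathlib only)

PROOF of `loc_lemma`.  The derivative `fderiv ℝ Φ w` is a linear map of `ℝ × ℝ` with determinant
`hJ ≠ 0` in the basis `(1, 0), (0, 1)`, so it is a continuous linear equivalence `e`: it is injective
(if `a • (1, 0) + b • (0, 1)` is mapped to `0` then Cramer's rule gives `a = b = 0`), so
`LinearEquiv.ofInjectiveEndo`, `.toContinuousLinearEquiv`.  By the inverse function theorem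
(`ContDiffAt.toOpenPartialHomeomorph`, `ContDiffAt.to_localInverse`, `ContDiffAt.localInverse`) there is
a function `Ψ` which is `C^∞` at `Φ w`, with `Ψ (Φ w) = w` and `Φ (Ψ z) = z` for `z` near `Φ w`
(`n = ∞`, `n ≠ 0`).  `Ψ` is continuous at `Φ w`, so `h` gives `ρ z = ρ (Φ (Ψ z)) = A + B * (Ψ z).2` for
`z` near `Φ w`: `ρ` is `C^∞` at `Φ w` (`ContDiffAt.congr_of_eventuallyEq`).
If `fderiv ℝ ρ (Φ w) = 0` then by the chain rule `ρ ∘ Φ` has derivative `0` at `w`; but by `h` it is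
`A + B * z.2` near `w`, with derivative `B` in the direction `(0, 1)`: contradiction.
-/

set_option autoImplicit false

namespace Pool.Agent.NOne

open Set Filter Topology
open scoped ContDiff

private theorem dloc_equiv (L : ℝ × ℝ →L[ℝ] ℝ × ℝ)
    (hJ : (L (1, 0)).1 * (L (0, 1)).2 - (L (0, 1)).1 * (L (1, 0)).2 ≠ 0) :
    ∃ e : (ℝ × ℝ) ≃L[ℝ] (ℝ × ℝ), (e : ℝ × ℝ →L[ℝ] ℝ × ℝ) = L := by
  have hdec : ∀ v : ℝ × ℝ, L v = v.1 • L (1, 0) + v.2 • L (0, 1) := by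
    intro v
    rw [← map_smul, ← map_smul, ← map_add]
    congr 1
    ext <;> simp
  have hinj : Function.Injective (L : ℝ × ℝ →ₗ[ℝ] ℝ × ℝ) := by
    rw [injective_iff_map_eq_zero]
    intro v hv
    have hv' : L v = 0 := hv
    rw [hdec v] at hv'
    have h1 : v.1 * (L (1, 0)).1 + v.2 * (L (0, 1)).1 = 0 := by
      have := congrArg Prod.fst hv'
      simpa using this
    have h2 : v.1 * (L (1, 0)).2 + v.2 * (L (0, 1)).2 = 0 := by
      have := congrArg Prod.snd hv'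
      simpa using this
    have h3 : v.1 * ((L (1, 0)).1 * (L (0, 1)).2 - (L (0, 1)).1 * (L (1, 0)).2) = 0 := by
      linear_combination (L (0, 1)).2 * h1 - (L (0, 1)).1 * h2
    have h4 : v.2 * ((L (1, 0)).1 * (L (0, 1)).2 - (L (0, 1)).1 * (L (1, 0)).2) = 0 := by
      linear_combination (L (1, 0)).1 * h2 - (L (1, 0)).2 * h1
    ext
    · exact (mul_eq_zero.1 h3).resolve_right hJ
    · exact (mul_eq_zero.1 h4).resolve_right hJ
  refine ⟨(LinearEquiv.ofInjectiveEndo (L : ℝ × ℝ →ₗ[ℝ] ℝ × ℝ) hinj).toContinuousLinearEquiv, ?_⟩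
  ext <;> rfl

theorem loc_lemma {Φ : ℝ × ℝ → ℝ × ℝ} {ρ : ℝ × ℝ → ℝ} {w : ℝ × ℝ} (hΦ : ContDiffAt ℝ ∞ Φ w)
    (hJ : (fderiv ℝ Φ w (1, 0)).1 * (fderiv ℝ Φ w (0, 1)).2 -
      (fderiv ℝ Φ w (0, 1)).1 * (fderiv ℝ Φ w (1, 0)).2 ≠ 0) {A B : ℝ} (hB : B ≠ 0)
    (h : ∀ᶠ z in 𝓝 w, ρ (Φ z) = A + B * z.2) :
    ContDiffAt ℝ ∞ ρ (Φ w) ∧ fderiv ℝ ρ (Φ w) ≠ 0 := by
  obtain ⟨e, he⟩ := dloc_equiv (fderiv ℝ Φ w) hJ
  have hn : (∞ : WithTop ℕ∞) ≠ 0 := by simp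
  have hd : HasFDerivAt Φ (e : ℝ × ℝ →L[ℝ] ℝ × ℝ) w := by
    rw [he]
    exact (hΦ.differentiableAt hn).hasFDerivAt
  have hs := hΦ.hasStrictFDerivAt' hd hn
  have hΨ := hΦ.to_localInverse hd hn
  have hr := hs.eventually_right_inverse
  have ht : Tendsto (hΦ.localInverse hd hn) (𝓝 (Φ w)) (𝓝 w) := hs.localInverse_tendsto
  have hρ : ρ =ᶠ[𝓝 (Φ w)] fun z => A + B * (hΦ.localInverse hd hn z).2 := by
    filter_upwards [hr, ht.eventually h] with z hz1 hz2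
    have hz3 : Φ (hΦ.localInverse hd hn z) = z := hz1
    rw [← hz2, hz3]
  have hc : ContDiffAt ℝ ∞ ρ (Φ w) := by
    refine ContDiffAt.congr_of_eventuallyEq ?_ hρ
    exact contDiffAt_const.add (contDiffAt_const.mul (contDiffAt_snd.comp (Φ w) hΨ))
  refine ⟨hc, fun h0 => ?_⟩
  have h1 : HasFDerivAt ρ (0 : ℝ × ℝ →L[ℝ] ℝ) (Φ w) := by
    rw [← h0]
    exact (hc.differentiableAt hn).hasFDerivAt
  have h2 : HasFDerivAt (ρ ∘ Φ) ((0 : ℝ × ℝ →L[ℝ] ℝ).comp (e : ℝ × ℝ →L[ℝ] ℝ × ℝ)) w :=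
    h1.comp w hd
  have h3 : HasFDerivAt (fun z : ℝ × ℝ => A + B * z.2)
      (B • ContinuousLinearMap.snd ℝ ℝ ℝ) w := by
    have := ((hasFDerivAt_snd (𝕜 := ℝ) (p := w)).const_mul B).const_add A
    exact this
  have h4 : HasFDerivAt (ρ ∘ Φ) (B • ContinuousLinearMap.snd ℝ ℝ ℝ) w :=
    h3.congr_of_eventuallyEq h
  have h5 := h2.unique h4
  have h6 := congrArg (fun L : ℝ × ℝ →L[ℝ] ℝ => L (0, 1)) h5
  simp at h6
  exact hB h6.symm

end Pool.Agent.NOne
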