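import Pool.Agent.NOne.DBand
import Pool.Agent.NOne.DLoc

/-!
# MP_74f563_an, n = 1, file DSm: the rotation number is smooth in the bands (Part D)

PROOF of `rot_smooth`.  Put `t = (q * rot V x v - p) / r - 1`; then `rot V x v = (p + r (1 + t)) / q` and
`|t| < 1/4` by `h1`, `h2` (`r > 0`, `q > 0`).  By `band_surj` there is `θ` with `Q θ t = x`; by
`band_rot`, `rot V x (W θ t) = (p + r (1 + t)) / q = rot V x v`, and `rot_strictMono.injective` gives
`W θ t = v`.  Apply `loc_lemma` (DLoc.lean) with `Φ z = (Q z.1 z.2, W z.1 z.2)`, `w = (θ, t)`,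
`ρ z = rot V z.1 z.2`, `A = (p + r) / q`, `B = r / q`.  Smoothness of `Φ` at `w`: `Band.smoothQ`,
`Band.smoothW` on the open set `{z | |z.2| < 1/4}`.  Jacobian: `Band.jac` and the chain rule
(`(fderiv ℝ Φ w (1, 0)).1 = deriv (fun z => Q z t) θ` etc.: compose `Φ` with the curves `z ↦ (z, t)` and
`z ↦ (θ, z)`).  The identity `ρ (Φ z) = A + B z.2` near `w` is `band_rot`.

`gset` is the set of the rotation numbers of the bands; `gset_open`: a union of open intervals;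
`gset_dense`: for real `a < b` choose a rational `p / q` with `q > 0` in `(a, b)` (`Rat.num_div_den`) and
`r > 0` so small that `(p + r) / q < b` and `r < r₀` (`hB q p`); then `(p + r) / q` is in the set
(`dense_iff_inter_open` or `dense_of_exists_between`).
`gset_smooth`: `rot_smooth`.
-/

set_option autoImplicit false

namespace Pool.Agent.NOne

open Set Filter Topology
open scoped ContDiff

variable {L : ℝ → ℝ → ℝ → ℝ} {V : ℚ → ℝ → ℝ} {q : ℕ} {p : ℤ} {r : ℝ} {Q W : ℝ → ℝ → ℝ}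

private theorem sm_fst {f : ℝ × ℝ → ℝ} {θ t : ℝ} {F : ℝ × ℝ →L[ℝ] ℝ}
    (h : HasFDerivAt f F (θ, t)) : deriv (fun z => f (z, t)) θ = F (1, 0) := by
  have h1 : HasDerivAt (fun z : ℝ => (z, t)) ((1 : ℝ), (0 : ℝ)) θ :=
    (hasDerivAt_id θ).prodMk (hasDerivAt_const θ t)
  exact (h.comp_hasDerivAt θ h1).deriv

private theorem sm_snd {f : ℝ × ℝ → ℝ} {θ t : ℝ} {F : ℝ × ℝ →L[ℝ] ℝ}
    (h : HasFDerivAt f F (θ, t)) : deriv (fun z => f (θ, z)) t = F (0, 1) := by
  have h1 : HasDerivAt (fun z : ℝ => (θ, z)) ((0 : ℝ), (1 : ℝ)) t :=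
    (hasDerivAt_const t θ).prodMk (hasDerivAt_id t)
  exact (h.comp_hasDerivAt t h1).deriv

theorem rot_smooth (hC : C0I L V) (hq : 0 < q) (hr : 0 < r) (hB : Band L q p r Q W) (x v : ℝ)
    (h1 : (p + 3 * r / 4) / q < rot V x v) (h2 : rot V x v < (p + 5 * r / 4) / q) :
    ContDiffAt ℝ ∞ (fun z : ℝ × ℝ => rot V z.1 z.2) (x, v) ∧
      fderiv ℝ (fun z : ℝ × ℝ => rot V z.1 z.2) (x, v) ≠ 0 := by
  have hq' : (0 : ℝ) < q := by exact_mod_cast hq
  rw [div_lt_iff₀ hq'] at h1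
  rw [lt_div_iff₀ hq'] at h2
  set t : ℝ := (q * rot V x v - p) / r - 1 with ht
  have hrt : r * (1 + t) = q * rot V x v - p := by
    rw [ht]
    field_simp
    ring
  have ht' : |t| < 1 / 4 := by
    rw [abs_lt]
    constructor
    · by_contra hcon
      push Not at hcon
      nlinarith
    · by_contra hcon
      push Not at hcon
      nlinarith
  obtain ⟨θ, hθ⟩ := band_surj hB t ht' x
  have hrot := band_rot hC hq hB θ t ht'
  rw [hθ] at hrot
  have hv : W θ t = v := by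
    apply (rot_strictMono hC x).injective
    rw [hrot, hrt, div_eq_iff hq'.ne']
    ring
  have hopen : IsOpen {z : ℝ × ℝ | |z.2| < 1 / 4} :=
    isOpen_lt continuous_snd.abs continuous_const
  have hnhds : {z : ℝ × ℝ | |z.2| < 1 / 4} ∈ 𝓝 (θ, t) := hopen.mem_nhds ht'
  have hQs : ContDiffAt ℝ ∞ (fun z : ℝ × ℝ => Q z.1 z.2) (θ, t) := hB.smoothQ.contDiffAt hnhds
  have hWs : ContDiffAt ℝ ∞ (fun z : ℝ × ℝ => W z.1 z.2) (θ, t) := hB.smoothW.contDiffAt hnhds
  have hΦ : ContDiffAt ℝ ∞ (fun z : ℝ × ℝ => (Q z.1 z.2, W z.1 z.2)) (θ, t) := hQs.prodMk hWs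
  have hQd := (hQs.differentiableAt (by simp)).hasFDerivAt
  have hWd := (hWs.differentiableAt (by simp)).hasFDerivAt
  have hfd : fderiv ℝ (fun z : ℝ × ℝ => (Q z.1 z.2, W z.1 z.2)) (θ, t) =
      (fderiv ℝ (fun z : ℝ × ℝ => Q z.1 z.2) (θ, t)).prod
        (fderiv ℝ (fun z : ℝ × ℝ => W z.1 z.2) (θ, t)) := (hQd.prodMk hWd).fderiv
  have key := loc_lemma (Φ := fun z : ℝ × ℝ => (Q z.1 z.2, W z.1 z.2))
    (ρ := fun z : ℝ × ℝ => rot V z.1 z.2) (w := (θ, t)) hΦ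
    (by
      rw [hfd]
      have j := hB.jac θ t ht'
      rw [sm_fst hQd, sm_snd hWd, sm_snd hQd, sm_fst hWd] at j
      exact j)
    (A := (p + r) / q) (B := r / q) (div_pos hr hq').ne'
    (by
      filter_upwards [hnhds] with z hz
      have h3 := band_rot hC hq hB z.1 z.2 hz
      change rot V (Q z.1 z.2) (W z.1 z.2) = (p + r) / q + r / q * z.2
      rw [h3]
      ring)
  have hw : (Q θ t, W θ t) = (x, v) := by rw [hθ, hv]
  change ContDiffAt ℝ ∞ (fun z : ℝ × ℝ => rot V z.1 z.2) (Q θ t, W θ t) ∧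
    fderiv ℝ (fun z : ℝ × ℝ => rot V z.1 z.2) (Q θ t, W θ t) ≠ 0 at key
  rw [hw] at key
  exact key

/-- the rotation numbers of the bands -/
def gset (L : ℝ → ℝ → ℝ → ℝ) : Set ℝ :=
  {a | ∃ (q : ℕ) (p : ℤ) (r : ℝ) (Q W : ℝ → ℝ → ℝ), 0 < q ∧ 0 < r ∧ Band L q p r Q W ∧
    (p + 3 * r / 4) / q < a ∧ a < (p + 5 * r / 4) / q}

theorem gset_open (L : ℝ → ℝ → ℝ → ℝ) : IsOpen (gset L) := by
  rw [isOpen_iff_mem_nhds]
  rintro a ⟨q, p, r, Q, W, hq, hr, hB, h1, h2⟩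
  exact Filter.mem_of_superset (Ioo_mem_nhds h1 h2) fun b hb =>
    ⟨q, p, r, Q, W, hq, hr, hB, hb.1, hb.2⟩

theorem gset_dense (hB : HasBands L) : Dense (gset L) := by
  refine dense_of_exists_between fun a b hab => ?_
  obtain ⟨h, ha, hb⟩ := exists_rat_btwn hab
  have hq : 0 < h.den := h.den_pos
  have hq' : (0 : ℝ) < h.den := by exact_mod_cast hq
  have hh : ((h.num : ℝ)) / h.den = h := by
    rw [Rat.cast_def]
  obtain ⟨r₀, hr₀, H⟩ := hB h.den h.num hq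
  set r := min (r₀ / 2) (h.den * (b - h) / 2) with hr
  have hbh : 0 < b - h := sub_pos.2 hb
  have hr0 : 0 < r := lt_min (half_pos hr₀) (half_pos (mul_pos hq' hbh))
  have hr1 : r < r₀ := (min_le_left _ _).trans_lt (half_lt_self hr₀)
  have hr2 : r < h.den * (b - h) :=
    (min_le_right _ _).trans_lt (half_lt_self (mul_pos hq' hbh))
  obtain ⟨Q, W, hW⟩ := H r hr0 hr1
  refine ⟨(h.num + r) / h.den, ⟨h.den, h.num, r, Q, W, hq, hr0, hW, ?_, ?_⟩, ?_, ?_⟩
  · exact div_lt_div_of_pos_right (by linarith) hq'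
  · exact div_lt_div_of_pos_right (by linarith) hq'
  · refine ha.trans ?_
    rw [← hh]
    exact div_lt_div_of_pos_right (by linarith) hq'
  · rw [add_div, hh]
    have h3 : r / h.den < b - h := by
      rw [div_lt_iff₀ hq']
      linarith
    linarith

theorem gset_smooth (hC : C0I L V) (x v : ℝ) (h : rot V x v ∈ gset L) :
    ContDiffAt ℝ ∞ (fun z : ℝ × ℝ => rot V z.1 z.2) (x, v) ∧
      fderiv ℝ (fun z : ℝ × ℝ => rot V z.1 z.2) (x, v) ≠ 0 := by
  obtain ⟨q, p, r, Q, W, hq, hr, hB, h1, h2⟩ := h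
  exact rot_smooth hC hq hr hB x v h1 h2

end Pool.Agent.NOne
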