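import Mathlib

/-!
# MP_74f563_an, n = 1, file DStep: smooth steps composed with a partially smooth function
(Mathlib only)

`stp a b` is a smooth nondecreasing function, constant for `s ≤ a` and for `s ≥ b`, with positive
derivative on `(a, b)`.

PROOFS.
`stp_deriv`: the integrand is continuous; fundamental theorem of calculus
(`intervalIntegral.integral_hasDerivAt_right` or `Continuous.deriv_integral`).
`stp_contDiff`: `contDiff_infty_iff_deriv`; the derivative is the product of two smooth functions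
(`expNegInvGlue.contDiff`).
`stp_left`, `stp_right`: the integrand is `0` for `τ ≤ a` and for `τ ≥ b` (`expNegInvGlue.zero_of_nonpos`);
for `stp_right` split the integral at `b` (`intervalIntegral.integral_add_adjacent_intervals`).
`stp_bdd`: `stp` is continuous, so bounded on `Icc a b`, and constant outside.
`stp_comp`: at a point `z` with `ρ z ∈ Icc a b ⊆ G` the function `ρ` is smooth (`Prp.smooth`); otherwise
`ρ < a` or `ρ > b` near `z` (continuity), and `stp a b ∘ ρ` is constant near `z`.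
`stp_comp_bdd`: write `f z = stp a b (ρ z)`.  It is smooth (`stp_comp`) and
`f (z + (1, 0)) = f z` (`Prp.per`), so `f (z + (n, 0)) = f z` for integers `n`, and the same holds for
`iteratedFDeriv ℝ k f` (`iteratedFDeriv_comp_add_right`).  `k = 0`: `stp_bdd`
(`norm_iteratedFDeriv_zero`).  `k > 0`: `iteratedFDeriv ℝ k f` is continuous
(`ContDiff.continuous_iteratedFDeriv`) and vanishes at `z` if `ρ z ∉ Icc a b` (there `f` is locally
constant: `Filter.EventuallyEq.iteratedFDeriv_eq` or `iteratedFDeriv_const_of_ne`).  Let `R` be given by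
`Prp.prop a b`; the set `Icc 0 1 ×ˢ Icc (-R) R` is compact, so the norm is bounded by `C` there, and
every `z` with `ρ z ∈ Icc a b` is a translate by `(n, 0)` of a point of this set
(`n = -⌊z.1⌋`).
-/

set_option autoImplicit false

namespace Pool.Agent.NOne

open Set Filter Topology
open scoped ContDiff

/-- a smooth step -/
noncomputable def stp (a b s : ℝ) : ℝ :=
  ∫ τ in a..s, expNegInvGlue (τ - a) * expNegInvGlue (b - τ)

/-- a function `ρ (x, v)` which is smooth on the preimage of an open dense set `G` -/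
structure Prp (ρ : ℝ × ℝ → ℝ) (G : Set ℝ) : Prop where
  cont : Continuous ρ
  per : ∀ x v, ρ (x + 1, v) = ρ (x, v)
  prop : ∀ a b : ℝ, ∃ R, ∀ x v, ρ (x, v) ∈ Icc a b → |v| ≤ R
  mono : ∀ x, StrictMono fun v => ρ (x, v)
  opn : IsOpen G
  dns : Dense G
  smooth : ∀ z, ρ z ∈ G → ContDiffAt ℝ ∞ ρ z
  der : ∀ z, ρ z ∈ G → fderiv ℝ ρ z ≠ 0

private theorem g_cont (a b : ℝ) :
    Continuous fun τ : ℝ => expNegInvGlue (τ - a) * expNegInvGlue (b - τ) := by
  have h := (expNegInvGlue.contDiff (n := 0)).continuous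
  exact (h.comp (continuous_id.sub continuous_const)).mul
    (h.comp (continuous_const.sub continuous_id))

theorem stp_deriv (a b s : ℝ) :
    HasDerivAt (stp a b) (expNegInvGlue (s - a) * expNegInvGlue (b - s)) s := by
  exact ((g_cont a b).integral_hasStrictDerivAt a s).hasDerivAt

theorem stp_contDiff (a b : ℝ) : ContDiff ℝ ∞ (stp a b) := by
  rw [contDiff_infty_iff_deriv]
  refine ⟨fun s => (stp_deriv a b s).differentiableAt, ?_⟩
  have h : deriv (stp a b) = fun s => expNegInvGlue (s - a) * expNegInvGlue (b - s) := by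
    funext s
    exact (stp_deriv a b s).deriv
  rw [h]
  exact (expNegInvGlue.contDiff.comp (contDiff_id.sub contDiff_const)).mul
    (expNegInvGlue.contDiff.comp (contDiff_const.sub contDiff_id))

theorem stp_left {a b s : ℝ} (h : s ≤ a) : stp a b s = 0 := by
  unfold stp
  rw [show (0 : ℝ) = ∫ τ in a..s, (0 : ℝ) by simp]
  apply intervalIntegral.integral_congr
  intro τ hτ
  rw [uIcc_of_ge h] at hτ
  show expNegInvGlue (τ - a) * expNegInvGlue (b - τ) = 0
  rw [expNegInvGlue.zero_of_nonpos (by linarith [hτ.2]), zero_mul]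

theorem stp_right {a b s : ℝ} (h : b ≤ s) (hab : a ≤ b) : stp a b s = stp a b b := by
  unfold stp
  rw [← intervalIntegral.integral_add_adjacent_intervals
    ((g_cont a b).intervalIntegrable a b) ((g_cont a b).intervalIntegrable b s)]
  have h0 : (∫ τ in b..s, expNegInvGlue (τ - a) * expNegInvGlue (b - τ)) = 0 := by
    rw [show (0 : ℝ) = ∫ τ in b..s, (0 : ℝ) by simp]
    apply intervalIntegral.integral_congr
    intro τ hτ
    rw [uIcc_of_le h] at hτ
    show expNegInvGlue (τ - a) * expNegInvGlue (b - τ) = 0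
    rw [expNegInvGlue.zero_of_nonpos (x := b - τ) (by linarith [hτ.1]), mul_zero]
  rw [h0, add_zero]

theorem stp_bdd {a b : ℝ} (hab : a ≤ b) : ∃ C, ∀ s, |stp a b s| ≤ C := by
  obtain ⟨C, hC⟩ := isCompact_Icc.exists_bound_of_continuousOn (s := Icc a b)
    (stp_contDiff a b).continuous.continuousOn
  simp only [Real.norm_eq_abs] at hC
  refine ⟨C, fun s => ?_⟩
  rcases le_or_gt s a with h | h
  · rw [stp_left h, abs_zero]
    exact (abs_nonneg _).trans (hC a ⟨le_rfl, hab⟩)
  rcases le_or_gt b s with h' | h'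
  · rw [stp_right h' hab]
    exact hC b ⟨hab, le_rfl⟩
  · exact hC s ⟨h.le, h'.le⟩

private theorem stp_loc {ρ : ℝ × ℝ → ℝ} {G : Set ℝ} (h : Prp ρ G) {a b : ℝ} (hab : a < b)
    {z : ℝ × ℝ} (hz : ρ z ∉ Icc a b) :
    ∃ c : ℝ, (fun z => stp a b (ρ z)) =ᶠ[𝓝 z] fun _ => c := by
  rcases lt_or_ge (ρ z) a with h1 | h1
  · refine ⟨0, ?_⟩
    filter_upwards [h.cont.continuousAt.eventually (gt_mem_nhds h1)] with y hy
    exact stp_left (le_of_lt hy)
  · have h2 : b < ρ z := by
      by_contra h3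
      exact hz ⟨h1, not_lt.1 h3⟩
    refine ⟨stp a b b, ?_⟩
    filter_upwards [h.cont.continuousAt.eventually (lt_mem_nhds h2)] with y hy
    exact stp_right (le_of_lt hy) hab.le

theorem stp_comp {ρ : ℝ × ℝ → ℝ} {G : Set ℝ} (h : Prp ρ G) {a b : ℝ} (hab : a < b)
    (hG : Icc a b ⊆ G) : ContDiff ℝ ∞ fun z => stp a b (ρ z) := by
  rw [contDiff_iff_contDiffAt]
  intro z
  by_cases hz : ρ z ∈ Icc a b
  · exact (stp_contDiff a b).contDiffAt.comp z (h.smooth z (hG hz))
  · obtain ⟨c, hc⟩ := stp_loc h hab hz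
    exact contDiffAt_const.congr_of_eventuallyEq hc

theorem stp_comp_bdd {ρ : ℝ × ℝ → ℝ} {G : Set ℝ} (h : Prp ρ G) {a b : ℝ} (hab : a < b)
    (hG : Icc a b ⊆ G) (k : ℕ) :
    ∃ C, ∀ z, ‖iteratedFDeriv ℝ k (fun z => stp a b (ρ z)) z‖ ≤ C := by
  rcases Nat.eq_zero_or_pos k with rfl | hk
  · obtain ⟨C, hC⟩ := stp_bdd hab.le
    refine ⟨C, fun z => ?_⟩
    rw [norm_iteratedFDeriv_zero]
    exact hC _
  set f : ℝ × ℝ → ℝ := fun z => stp a b (ρ z) with hf
  have hsm : ContDiff ℝ ∞ f := stp_comp h hab hG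
  have hper : ∀ (n : ℤ) (z : ℝ × ℝ), f (z + ((n : ℝ), 0)) = f z := by
    intro n z
    obtain ⟨x, v⟩ := z
    have h1 : Function.Periodic (fun x => ρ (x, v)) 1 := fun x => h.per x v
    have h2 := h1.int_mul n x
    simp only [mul_one] at h2
    simp only [hf, Prod.mk_add_mk, add_zero]
    rw [h2]
  have hDper : ∀ (n : ℤ) (z : ℝ × ℝ),
      iteratedFDeriv ℝ k f (z + ((n : ℝ), 0)) = iteratedFDeriv ℝ k f z := by
    intro n z
    rw [← iteratedFDeriv_comp_add_right]
    congr 1
    funext y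
    exact hper n y
  have hcont : Continuous (iteratedFDeriv ℝ k f) :=
    hsm.continuous_iteratedFDeriv (by exact_mod_cast le_top)
  obtain ⟨R, hR⟩ := h.prop a b
  obtain ⟨C, hC⟩ := (isCompact_Icc.prod isCompact_Icc).exists_bound_of_continuousOn
    (s := Icc (0 : ℝ) 1 ×ˢ Icc (-R) R) hcont.continuousOn
  refine ⟨max C 0, fun z => ?_⟩
  by_cases hz : ρ z ∈ Icc a b
  · obtain ⟨x, v⟩ := z
    have h1 := hR x v hz
    rw [← hDper (-⌊x⌋) (x, v)]
    refine (hC _ ?_).trans (le_max_left _ _)
    simp only [Prod.mk_add_mk, add_zero, mem_prod, mem_Icc]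
    push_cast
    have h2 := Int.floor_le x
    have h3 := Int.lt_floor_add_one x
    have h4 := abs_le.1 h1
    exact ⟨⟨by linarith, by linarith⟩, h4⟩
  · obtain ⟨c, hc⟩ := stp_loc h hab hz
    have h1 := (hc.iteratedFDeriv ℝ k).eq_of_nhds
    rw [h1, iteratedFDeriv_const_of_ne hk.ne']
    simp

end Pool.Agent.NOne
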