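import Pool.Agent.NOne.KLag
import Pool.Agent.NOne.KAvg

/-!
# MP_74f563_an, n = 1, file KCmp: functions along an approximate solution

PROOFS.
`DD_X_near`: `DD r X θ t - (1 + t) = DD r (fun θ t => X θ t - θ) θ t` (as `ρ = r (1 + t)`, `r ≠ 0`), and
`bd_DD` with `Bd (2δ) (2s) b (p1 X - 1)` gives `≤ (3/2) b ≤ 3/16`; note
`p1 (fun θ t => X θ t - θ) = fun θ t => p1 X θ t - 1` on the domain; `3δ/2 + r (2s) ≤ 2δ` by `Par.rs`.
`X_im_le`: `|Im X θ t| ≤ |Im θ| + b ≤ 3δ/2 + σ/8 ≤ 3σ/16 + σ/8 ≤ 3σ/8`.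
`DD_X_norm`: `‖DD r X θ t‖ ≤ ‖1 + t‖ + 1/4 ≤ 3/2 + 1/4 ≤ 2` (`norm_one_add_le`, `2 s ≤ 1/8`).
`hol_cmp`: composition of the holomorphic function `G` on `RR σ` with `(θ, t) ↦ (X θ t, DD r X θ t)`,
which is holomorphic (`Hol.hol_DD`) and maps `Om (3δ/2) (2s)` into `RR σ`.
`p1_cmp`, `p2_cmp`: chain rule (`HolR.hasFDerivAt`), `p1 (DD r X) = DD r (p1 X)` (`p1_DD`) and
`p2 (DD r X) = DD r (p2 X) + sh r (p1 X)` (`p2_DD`).
`per_cmp`: `X (θ + 1) t = X θ t + 1`, so `DD r X` is periodic in `θ`.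
`p1_X_per`, ...: derivatives of `X (θ + 1) t = X θ t + 1`.
-/

set_option autoImplicit false

namespace Pool.Agent.NOne

open Complex Set MeasureTheory
open scoped ComplexConjugate

variable {σ M r b δ s : ℝ} {lam X G : ℂ → ℂ → ℂ} {θ t : ℂ}

private theorem par_rs (hp : Par σ M r b δ s) : 3 / 2 * δ + r * (2 * s) ≤ 2 * δ := by
  have h1 := hp.rs
  have h2 : 0 ≤ r * s := mul_nonneg hp.r_pos.le hp.s_pos.le
  have h3 := hp.δ_pos
  nlinarith

private theorem lt_two (hp : Par σ M r b δ s) (hθ : |θ.im| < 3 / 2 * δ) : |θ.im| < 2 * δ := by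
  have h3 := hp.δ_pos
  linarith

private theorem hol_DDX (hp : Par σ M r b δ s) (hX : St r lam X b δ s) :
    Hol (3 / 2 * δ) (2 * s) (DD r X) :=
  hX.hol.hol_DD hp.r_pos.le (par_rs hp)

private theorem b_le_8 (hp : Par σ M r b δ s) : b ≤ 1 / 8 := by
  have h1 := hp.b_le
  have h2 := hp.σ_le
  linarith

theorem DD_X_near (hp : Par σ M r b δ s) (hX : St r lam X b δ s) (hθ : |θ.im| < 3 / 2 * δ)
    (ht : t ∈ UU (2 * s)) : ‖DD r X θ t - (1 + t)‖ ≤ 1 / 4 := by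
  have hr : (r : ℂ) ≠ 0 := by
    exact_mod_cast hp.r_pos.ne'
  have h0 : DD r X θ t - (1 + t) = DD r (fun θ t => X θ t - θ) θ t := by
    simp only [DD]
    field_simp
    ring
  have hH : Hol (2 * δ) (2 * s) fun θ t => X θ t - θ := hX.hol.sub hol_fst
  have hB : Bd (2 * δ) (2 * s) b (p1 fun θ t => X θ t - θ) := by
    intro θ' t' hθ' ht'
    have h1 : p1 (fun θ t => X θ t - θ) θ' t' = p1 X θ' t' - 1 :=
      ((hX.hol.hasDerivAt1 hθ' ht').sub (hasDerivAt_id θ')).deriv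
    rw [h1]
    exact hX.b1 θ' t' hθ' ht'
  have hs8 : 2 * s ≤ 1 / 8 := by
    have := hp.s_le
    linarith
  have h2 := bd_DD hH hB hp.r_pos hs8 (par_rs hp) θ t hθ ht
  rw [h0]
  have h3 := b_le_8 hp
  linarith

theorem X_im_le (hp : Par σ M r b δ s) (hX : St r lam X b δ s) (hθ : |θ.im| < 3 / 2 * δ)
    (ht : t ∈ UU (2 * s)) : |(X θ t).im| ≤ 3 * σ / 8 := by
  have h1 := hX.b0 θ t (lt_two hp hθ) ht
  have h2 : |(X θ t - θ).im| ≤ b := (Complex.abs_im_le_norm _).trans h1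
  have h3 : (X θ t).im = (X θ t - θ).im + θ.im := by
    simp
  rw [h3]
  have h4 := abs_add_le (X θ t - θ).im θ.im
  have h5 := hp.b_le
  have h6 := hp.δ_le
  have h7 := hp.σ_pos
  linarith

theorem DD_X_norm (hp : Par σ M r b δ s) (hX : St r lam X b δ s) (hθ : |θ.im| < 3 / 2 * δ)
    (ht : t ∈ UU (2 * s)) : ‖DD r X θ t‖ ≤ 2 := by
  have h1 := DD_X_near hp hX hθ ht
  have hs8 : 2 * s ≤ 1 / 8 := by
    have := hp.s_le
    linarith
  have h2 := norm_one_add_le hs8 ht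
  have h3 : DD r X θ t = (DD r X θ t - (1 + t)) + (1 + t) := by ring
  rw [h3]
  exact (norm_add_le _ _).trans (by linarith)

theorem mem_RR (hp : Par σ M r b δ s) (hX : St r lam X b δ s) (hθ : |θ.im| < 3 / 2 * δ)
    (ht : t ∈ UU (2 * s)) : (X θ t, DD r X θ t) ∈ RR σ := by
  refine ⟨?_, ?_⟩
  · have h1 := X_im_le hp hX hθ ht
    have h2 := hp.σ_pos
    show |(X θ t).im| < σ / 2
    linarith
  · have h1 := DD_X_norm hp hX hθ ht
    show ‖DD r X θ t‖ < 4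
    linarith

theorem hol_cmp (hp : Par σ M r b δ s) (hX : St r lam X b δ s) (hG : HolR σ G) :
    Hol (3 / 2 * δ) (2 * s) (cmp r G X) := by
  have hX1 : Hol (3 / 2 * δ) (2 * s) X := hX.hol.mono (by have := hp.δ_pos; linarith) le_rfl
  have h1 : DifferentiableOn ℂ (fun q : ℂ × ℂ => (X q.1 q.2, DD r X q.1 q.2))
      (Om (3 / 2 * δ) (2 * s)) := DifferentiableOn.prodMk hX1 (hol_DDX hp hX)
  exact DifferentiableOn.comp (t := RR σ) (g := fun q : ℂ × ℂ => G q.1 q.2) hG h1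
    (fun q hq => mem_RR hp hX hq.1 hq.2)

theorem bd_cmp (hp : Par σ M r b δ s) (hX : St r lam X b δ s) {c : ℝ}
    (hG : ∀ x η : ℂ, (x, η) ∈ RR σ → ‖η‖ ≤ 2 → ‖G x η‖ ≤ c) :
    Bd (3 / 2 * δ) (2 * s) c (cmp r G X) := by
  intro θ' t' hθ' ht'
  exact hG _ _ (mem_RR hp hX hθ' ht') (DD_X_norm hp hX hθ' ht')

theorem p1_cmp (hp : Par σ M r b δ s) (hX : St r lam X b δ s) (hG : HolR σ G)
    (hθ : |θ.im| < 3 / 2 * δ) (ht : t ∈ UU (2 * s)) :
    p1 (cmp r G X) θ t =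
      cmp r (p1 G) X θ t * p1 X θ t + cmp r (p2 G) X θ t * DD r (p1 X) θ t := by
  have h1 : HasDerivAt (fun z => X z t) (p1 X θ t) θ := hX.hol.hasDerivAt1 (lt_two hp hθ) ht
  have h2 : HasDerivAt (fun z => DD r X z t) (DD r (p1 X) θ t) θ := by
    have := (hol_DDX hp hX).hasDerivAt1 hθ ht
    rwa [p1_DD hX.hol hp.r_pos.le (par_rs hp) hθ ht] at this
  have h3 := hG.hasFDerivAt (mem_RR hp hX hθ ht)
  have h4 := HasFDerivAt.comp_hasDerivAt θ (f := fun z => (X z t, DD r X z t)) h3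
    (h1.prodMk h2)
  have h5 := h4.deriv
  simp only [ContinuousLinearMap.add_apply, ContinuousLinearMap.smul_apply,
    ContinuousLinearMap.coe_fst', ContinuousLinearMap.coe_snd', smul_eq_mul] at h5
  exact h5

theorem p2_cmp (hp : Par σ M r b δ s) (hX : St r lam X b δ s) (hG : HolR σ G)
    (hθ : |θ.im| < 3 / 2 * δ) (ht : t ∈ UU (2 * s)) :
    p2 (cmp r G X) θ t = cmp r (p1 G) X θ t * p2 X θ t +
      cmp r (p2 G) X θ t * (DD r (p2 X) θ t + sh r (p1 X) θ t) := by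
  have h1 : HasDerivAt (fun z => X θ z) (p2 X θ t) t := hX.hol.hasDerivAt2 (lt_two hp hθ) ht
  have h2 : HasDerivAt (fun z => DD r X θ z) (DD r (p2 X) θ t + sh r (p1 X) θ t) t := by
    have := (hol_DDX hp hX).hasDerivAt2 hθ ht
    rwa [p2_DD hX.hol hp.r_pos (par_rs hp) hθ ht] at this
  have h3 := hG.hasFDerivAt (mem_RR hp hX hθ ht)
  have h4 := HasFDerivAt.comp_hasDerivAt t (f := fun z => (X θ z, DD r X θ z)) h3
    (h1.prodMk h2)
  have h5 := h4.deriv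
  simp only [ContinuousLinearMap.add_apply, ContinuousLinearMap.smul_apply,
    ContinuousLinearMap.coe_fst', ContinuousLinearMap.coe_snd', smul_eq_mul] at h5
  exact h5

theorem per_cmp (hX : St r lam X b δ s) (hG : Per G) : Per (cmp r G X) := by
  intro θ t
  have h1 : DD r X (θ + 1) t = DD r X θ t := by
    simp only [DD]
    have h2 : θ + 1 + r * (1 + t) = θ + r * (1 + t) + 1 := by ring
    rw [h2, hX.per, hX.per]
    congr 1
    ring
  simp only [cmp]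
  rw [h1, hX.per]
  exact hG _ _

theorem rsym_cmp (hX : St r lam X b δ s) (hG : RSym G) : RSym (cmp r G X) := by
  intro θ t
  simp only [cmp]
  rw [hX.real θ t, rsym_DD hX.real θ t]
  exact hG _ _

theorem per_p1_X (hX : St r lam X b δ s) : Per (p1 X) := by
  intro θ t
  simp only [p1]
  rw [← deriv_comp_add_const]
  have h1 : (fun z => X (z + 1) t) = fun z => X z t + 1 := funext fun z => hX.per z t
  rw [h1, deriv_add_const]

theorem per_p2_X (hX : St r lam X b δ s) : Per (p2 X) := by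
  intro θ t
  simp only [p2]
  have h1 : (fun z => X (θ + 1) z) = fun z => X θ z + 1 := funext fun z => hX.per θ z
  rw [h1, deriv_add_const]

end Pool.Agent.NOne
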