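import Pool.Agent.NOne.KDom

/-!
# MP_74f563_an, n = 1, file KDivS: division by the small divisors

`exp_lower`: if `z` has distance at least `d` (`0 ≤ d ≤ 1`) from all integers then
`|e^{2πiz} - 1| ≥ d / 2`.
PROOF.  Let `z = x + iy`; replacing `x` by `x - m` we may assume `|x| ≤ 1/2` (`e^{2πiz}` and the
hypothesis are invariant).
If `y ≥ 1/2` then `|e^{2πiz}| = e^{-2πy} ≤ e^{-π} ≤ 1/2`, so `|e^{2πiz} - 1| ≥ 1/2 ≥ d / 2`... ;
if `y ≤ -1/2` then `|e^{2πiz}| ≥ e^π ≥ 2`, so `|e^{2πiz} - 1| ≥ 1`.  If `|y| < 1/2`: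
`e^{2πiz} - 1 = 2i e^{πiz} sin(πz)`, `|e^{πiz}| = e^{-πy} ≥ e^{-π/2} ≥ 1/5` and
`|sin πz|² = sin² πx + sinh² πy ≥ 4x² + π²y² ≥ 4|z|²` (`|sin πx| ≥ 2|x|` for `|x| ≤ 1/2`:
`Real.mul_le_sin`; `|sinh u| ≥ |u|`), so `|e^{2πiz} - 1| ≥ (2/5) · 2|z| ≥ |z| / 2 ≥ d / 2` (take `m = 0`
in the hypothesis, after the translation).

`div_small`: let `g` be holomorphic on `UU s`, `l ≠ 0`, `|dl r l t * g t| ≤ M` on `UU s`.  Then
`|g t| ≤ 8 M / a` on `UU (s - a)`.
PROOF.  Let `t ∈ UU (s - a)`, so `0 < s - a`, `a < s ≤ 1/8`.  Put `L = |l| r > 0`,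
`κ = min(1/4, L a)`, `z(t') = l r (1 + t')`, so `|z(t') - z(t)| = L |t' - t|`, and let `m` be the
nearest integer to `Re z(t)`.  Choose `κ' = κ` if `| |z(t) - m| - κ | ≥ κ/4`, otherwise
`κ' = κ/2` (then `| |z(t) - m| - κ/2 | ≥ κ/4`).  For `t'` on the circle `|t' - t| = κ'/L ≤ a` (in
`UU s` with its disc, `mem_UU_of_norm`): `|z(t') - m| ≥ | |z(t) - m| - κ' | ≥ κ/4` and for the integers
`m' ≠ m` `|z(t') - m'| ≥ |Re z(t) - m'| - κ' ≥ 1/2 - 1/4 ≥ κ/4`.  By `exp_lower` (with `d = κ/4`)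
`|dl r l t'| ≥ κ / (8 r)`, so `|g t'| ≤ 8 r M / κ` on the circle, hence at the centre `t` by the
maximum principle (`Complex.norm_le_of_forall_mem_frontier_norm_le` on the ball; or the mean value
property).  `r / κ = max(4r, 1 / (|l| a)) ≤ 1 / a`, as `4 r ≤ 4 ≤ 8 ≤ 1 / a`.
-/

set_option autoImplicit false

namespace Pool.Agent.NOne

open Complex Set MeasureTheory

private theorem exp_aux {x y d : ℝ} (hd0 : 0 ≤ d) (hd : d ≤ 1) (hx : |x| ≤ 1 / 2)
    (h : d ^ 2 ≤ x ^ 2 + y ^ 2) :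
    (d / 2) ^ 2 ≤ (Real.exp (-(2 * Real.pi * y)) * Real.cos (2 * Real.pi * x) - 1) ^ 2 +
      (Real.exp (-(2 * Real.pi * y)) * Real.sin (2 * Real.pi * x)) ^ 2 := by
  have hp3 := Real.pi_gt_three
  have hp4 := Real.pi_le_four
  have hE0 : 0 < Real.exp (-(2 * Real.pi * y)) := Real.exp_pos _
  have hc : Real.cos (2 * Real.pi * x) = 1 - 2 * Real.sin (Real.pi * x) ^ 2 := by
    rw [show 2 * Real.pi * x = 2 * (Real.pi * x) by ring, Real.cos_two_mul]
    linarith [Real.sin_sq_add_cos_sq (Real.pi * x)]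
  have hsc : Real.sin (2 * Real.pi * x) ^ 2 = 1 - Real.cos (2 * Real.pi * x) ^ 2 := by
    linarith [Real.sin_sq_add_cos_sq (2 * Real.pi * x)]
  have hsin : 4 * x ^ 2 ≤ Real.sin (Real.pi * x) ^ 2 := by
    have h1 : |Real.pi * x| ≤ Real.pi / 2 := by
      rw [abs_mul, abs_of_pos Real.pi_pos]
      nlinarith [abs_nonneg x]
    have h2 := Real.mul_abs_le_abs_sin h1
    rw [abs_mul, abs_of_pos Real.pi_pos, ← mul_assoc, div_mul_cancel₀ _ Real.pi_ne_zero] at h2
    have h3 := pow_le_pow_left₀ (by positivity) h2 2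
    rw [mul_pow, sq_abs, sq_abs] at h3
    linarith
  have hkey : (Real.exp (-(2 * Real.pi * y)) * Real.cos (2 * Real.pi * x) - 1) ^ 2 +
      (Real.exp (-(2 * Real.pi * y)) * Real.sin (2 * Real.pi * x)) ^ 2 =
      (Real.exp (-(2 * Real.pi * y)) - 1) ^ 2 +
        4 * Real.exp (-(2 * Real.pi * y)) * Real.sin (Real.pi * x) ^ 2 := by
    rw [mul_pow _ (Real.sin (2 * Real.pi * x)), hsc, hc]
    ring
  rw [hkey]
  have hnn : 0 ≤ 4 * Real.exp (-(2 * Real.pi * y)) * Real.sin (Real.pi * x) ^ 2 := by positivity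
  have hadd := Real.add_one_le_exp (-(2 * Real.pi * y))
  by_cases hy : |y| < 1 / 2
  · rw [abs_lt] at hy
    have hE : 1 / 64 ≤ Real.exp (-(2 * Real.pi * y)) := by
      have h1 : Real.exp (-4) ≤ Real.exp (-(2 * Real.pi * y)) := by
        apply Real.exp_le_exp.2
        nlinarith
      have h2 : Real.exp 4 ≤ 64 := by
        have h3 : Real.exp 4 = Real.exp 1 ^ 4 := by
          rw [← Real.exp_nat_mul]
          norm_num
        rw [h3]
        have h4 := Real.exp_one_lt_d9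
        calc Real.exp 1 ^ 4 ≤ (2.8 : ℝ) ^ 4 :=
              pow_le_pow_left₀ (Real.exp_pos _).le (by linarith) 4
          _ ≤ 64 := by norm_num
      have h5 : (1 : ℝ) / 64 ≤ Real.exp (-4) := by
        rw [Real.exp_neg, one_div]
        exact inv_anti₀ (Real.exp_pos _) h2
      exact h5.trans h1
    have h1 : x ^ 2 / 4 ≤ 4 * Real.exp (-(2 * Real.pi * y)) * Real.sin (Real.pi * x) ^ 2 := by
      have h2 : 0 ≤ Real.sin (Real.pi * x) ^ 2 := sq_nonneg _
      nlinarith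
    have h2 : y ^ 2 / 4 ≤ (Real.exp (-(2 * Real.pi * y)) - 1) ^ 2 := by
      rcases le_total 0 y with hy0 | hy0
      · have h3 : Real.exp (-(2 * Real.pi * y)) * (1 + 2 * Real.pi * y) ≤ 1 := by
          have h4 := Real.add_one_le_exp (2 * Real.pi * y)
          calc Real.exp (-(2 * Real.pi * y)) * (1 + 2 * Real.pi * y)
              ≤ Real.exp (-(2 * Real.pi * y)) * Real.exp (2 * Real.pi * y) :=
                mul_le_mul_of_nonneg_left (by linarith) hE0.le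
            _ = 1 := by rw [← Real.exp_add, neg_add_cancel, Real.exp_zero]
        have h4 : y / 2 ≤ 1 - Real.exp (-(2 * Real.pi * y)) := by
          have h5 : 6 * y ≤ 2 * Real.pi * y := by nlinarith
          have h6 : 2 * Real.pi * y ≤ 4 := by nlinarith
          by_contra hcon
          push Not at hcon
          have h7 : 1 - y / 2 < Real.exp (-(2 * Real.pi * y)) := by linarith
          have h8 : (1 - y / 2) * (1 + 2 * Real.pi * y) < 1 := by
            have : 0 < 1 + 2 * Real.pi * y := by nlinarith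
            nlinarith
          nlinarith
        nlinarith
      · have h3 : -y / 2 ≤ Real.exp (-(2 * Real.pi * y)) - 1 := by nlinarith
        nlinarith
    nlinarith
  · have h1 : 1 / 4 ≤ (Real.exp (-(2 * Real.pi * y)) - 1) ^ 2 := by
      push Not at hy
      rcases le_abs.1 hy with hy | hy
      · have h2 : Real.exp (-(2 * Real.pi * y)) ≤ 1 / 2 := by
          have h3 : Real.exp (-(2 * Real.pi * y)) ≤ Real.exp (-1) := by
            apply Real.exp_le_exp.2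
            nlinarith
          have h4 : Real.exp (-1) ≤ 1 / 2 := by
            rw [Real.exp_neg, one_div]
            have h5 := Real.add_one_le_exp (1 : ℝ)
            exact inv_anti₀ (by norm_num) (by linarith)
          exact h3.trans h4
        nlinarith
      · have h2 : 2 ≤ Real.exp (-(2 * Real.pi * y)) := by nlinarith
        nlinarith
    nlinarith

theorem exp_lower (z : ℂ) (d : ℝ) (hd0 : 0 ≤ d) (hd : d ≤ 1) (h : ∀ m : ℤ, d ≤ ‖z - m‖) :
    d / 2 ≤ ‖exp (2 * Real.pi * I * z) - 1‖ := by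
  obtain ⟨m, hm⟩ : ∃ m : ℤ, m = round z.re := ⟨_, rfl⟩
  obtain ⟨w, hw⟩ : ∃ w : ℂ, w = z - m := ⟨_, rfl⟩
  have h1 : exp (2 * Real.pi * I * z) = exp (2 * Real.pi * I * w) := by
    rw [hw, show 2 * (Real.pi : ℂ) * I * z = 2 * Real.pi * I * (z - m) + m * (2 * Real.pi * I) by
      ring, Complex.exp_add, Complex.exp_int_mul_two_pi_mul_I, mul_one]
  have h2 : |w.re| ≤ 1 / 2 := by
    rw [hw, Complex.sub_re, Complex.intCast_re, hm]
    exact abs_sub_round z.re
  have h3 : d ^ 2 ≤ w.re ^ 2 + w.im ^ 2 := by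
    have h4 := pow_le_pow_left₀ hd0 (h m) 2
    rw [← hw, Complex.sq_norm, Complex.normSq_apply] at h4
    linarith
  have h4 := exp_aux hd0 hd h2 h3
  have h5 : ‖exp (2 * Real.pi * I * w) - 1‖ ^ 2 =
      (Real.exp (-(2 * Real.pi * w.im)) * Real.cos (2 * Real.pi * w.re) - 1) ^ 2 +
      (Real.exp (-(2 * Real.pi * w.im)) * Real.sin (2 * Real.pi * w.re)) ^ 2 := by
    have h6 : (2 * (Real.pi : ℂ) * I * w).re = -(2 * Real.pi * w.im) := by
      simp
    have h7 : (2 * (Real.pi : ℂ) * I * w).im = 2 * Real.pi * w.re := by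
      simp
    rw [Complex.sq_norm, Complex.normSq_apply, Complex.sub_re, Complex.sub_im, Complex.exp_re,
      Complex.exp_im, Complex.one_re, Complex.one_im, h6, h7]
    ring
  rw [h1]
  rw [← h5] at h4
  exact (pow_le_pow_iff_left₀ (by linarith) (norm_nonneg _) two_ne_zero).1 h4

theorem div_small {g : ℂ → ℂ} {s a r M : ℝ} {l : ℤ} (hg : DifferentiableOn ℂ g (UU s))
    (hs : s ≤ 1 / 8) (ha : 0 < a) (hr : 0 < r) (hr1 : r ≤ 1) (hl : l ≠ 0)
    (hM : ∀ t ∈ UU s, ‖dl r l t * g t‖ ≤ M) : ∀ t ∈ UU (s - a), ‖g t‖ ≤ 8 * M / a := by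
  intro t ht
  have hsa : 0 < s - a := pos_of_mem_UU ht
  have hl1 : (1 : ℝ) ≤ |(l : ℝ)| := by
    have h1 : (1 : ℤ) ≤ |l| := Int.one_le_abs hl
    have h2 : ((1 : ℤ) : ℝ) ≤ ((|l| : ℤ) : ℝ) := Int.cast_le.2 h1
    rwa [Int.cast_one, Int.cast_abs] at h2
  obtain ⟨L, hL⟩ : ∃ L : ℝ, L = |(l : ℝ)| * r := ⟨_, rfl⟩
  have hLr : r ≤ L := by rw [hL]; nlinarith
  have hL0 : 0 < L := hr.trans_le hLr
  obtain ⟨κ, hκ⟩ : ∃ κ : ℝ, κ = min (1 / 4) (L * a) := ⟨_, rfl⟩
  have hκ0 : 0 < κ := by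
    rw [hκ]
    exact lt_min (by norm_num) (mul_pos hL0 ha)
  have hκ1 : κ ≤ 1 / 4 := by rw [hκ]; exact min_le_left _ _
  have hκ2 : κ ≤ L * a := by rw [hκ]; exact min_le_right _ _
  have hκ3 : r * a ≤ κ := by
    rw [hκ]
    refine le_min ?_ (mul_le_mul_of_nonneg_right hLr ha.le)
    nlinarith
  obtain ⟨zf, hzf⟩ : ∃ zf : ℂ → ℂ, zf = fun u => (l : ℂ) * (r * (1 + u)) := ⟨_, rfl⟩
  have hdiff : ∀ u, ‖zf u - zf t‖ = L * ‖u - t‖ := by
    intro u
    rw [hzf, hL]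
    dsimp only
    rw [show (l : ℂ) * (r * (1 + u)) - l * (r * (1 + t)) = ((l : ℂ) * r) * (u - t) by ring,
      norm_mul, norm_mul, Complex.norm_intCast, Complex.norm_real, Real.norm_of_nonneg hr.le]
  obtain ⟨m, hm⟩ : ∃ m : ℤ, m = round (zf t).re := ⟨_, rfl⟩
  have hm1 : |(zf t).re - m| ≤ 1 / 2 := by rw [hm]; exact abs_sub_round _
  obtain ⟨κ', hκ'0, hκ'1, hκ'2⟩ : ∃ κ' : ℝ, 0 < κ' ∧ κ' ≤ κ ∧ κ / 4 ≤ |‖zf t - m‖ - κ'| := by
    by_cases hc : κ / 4 ≤ |‖zf t - m‖ - κ|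
    · exact ⟨κ, hκ0, le_rfl, hc⟩
    · refine ⟨κ / 2, by linarith, by linarith, ?_⟩
      push Not at hc
      rw [abs_lt] at hc
      rw [le_abs]
      left
      linarith
  have hρ0 : 0 < κ' / L := div_pos hκ'0 hL0
  have hρa : κ' / L ≤ a := by
    rw [div_le_iff₀ hL0, mul_comm]
    linarith
  have hfar : ∀ u, ‖u - t‖ = κ' / L → ∀ n : ℤ, κ / 4 ≤ ‖zf u - n‖ := by
    intro u hu n
    have h1 : ‖zf u - zf t‖ = κ' := by rw [hdiff, hu, mul_div_cancel₀ _ hL0.ne']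
    by_cases hn : n = m
    · rw [hn]
      refine hκ'2.trans ?_
      have h2 := abs_norm_sub_norm_le (zf t - m) (zf t - zf u)
      rw [norm_sub_rev (zf t) (zf u), h1] at h2
      refine h2.trans (le_of_eq ?_)
      congr 1
      ring
    · have h2 : (1 : ℝ) ≤ |(m : ℝ) - n| := by
        have h3 : (1 : ℤ) ≤ |m - n| := Int.one_le_abs (sub_ne_zero.2 (Ne.symm hn))
        have h4 : ((1 : ℤ) : ℝ) ≤ ((|m - n| : ℤ) : ℝ) := Int.cast_le.2 h3
        rwa [Int.cast_one, Int.cast_abs, Int.cast_sub] at h4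
      have h3 : 1 / 2 ≤ |(zf t).re - n| := by
        have h4 : |(m : ℝ) - n| ≤ |(m : ℝ) - (zf t).re| + |(zf t).re - n| := abs_sub_le _ _ _
        rw [abs_sub_comm (m : ℝ) (zf t).re] at h4
        linarith
      have h4 : |(zf t).re - n| ≤ ‖zf t - n‖ := by
        have h5 := Complex.abs_re_le_norm (zf t - n)
        rwa [Complex.sub_re, Complex.intCast_re] at h5
      have h5 : ‖zf t - n‖ ≤ ‖zf u - zf t‖ + ‖zf u - n‖ := by
        have h6 := norm_sub_le (zf u - n) (zf u - zf t)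
        rw [show zf u - n - (zf u - zf t) = zf t - n by ring] at h6
        linarith
      linarith
  have hbd : ∀ u, ‖u - t‖ = κ' / L → ‖g u‖ ≤ 8 * r * M / κ := by
    intro u hu
    have h1 := exp_lower (zf u) (κ / 4) (by linarith) (by linarith) (hfar u hu)
    have h2 : ‖dl r l u‖ = ‖exp (2 * Real.pi * I * zf u) - 1‖ / r := by
      unfold dl
      rw [norm_div, Complex.norm_real, Real.norm_of_nonneg hr.le, hzf]
      congr 4
      ring
    have h3 : κ / (8 * r) ≤ ‖dl r l u‖ := by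
      rw [h2, div_le_div_iff₀ (by positivity) hr]
      nlinarith
    have h4 := hM u (mem_UU_of_norm ht (hu.le.trans hρa))
    rw [norm_mul] at h4
    have h5 : κ / (8 * r) * ‖g u‖ ≤ M :=
      (mul_le_mul_of_nonneg_right h3 (norm_nonneg _)).trans h4
    rw [le_div_iff₀ hκ0]
    rw [div_mul_eq_mul_div, div_le_iff₀ (by positivity)] at h5
    linarith
  have hcl : closure (Metric.ball t (κ' / L)) ⊆ UU s := by
    intro u hu
    rw [closure_ball t hρ0.ne', mem_closedBall_iff_norm] at hu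
    exact mem_UU_of_norm ht (hu.trans hρa)
  have hmax : ‖g t‖ ≤ 8 * r * M / κ := by
    refine Complex.norm_le_of_forall_mem_frontier_norm_le (U := Metric.ball t (κ' / L))
      Metric.isBounded_ball ((hg.mono hcl).diffContOnCl) (fun u hu => ?_)
      (subset_closure (Metric.mem_ball_self hρ0))
    rw [frontier_ball t hρ0.ne', mem_sphere_iff_norm] at hu
    exact hbd u hu
  have hM0 : 0 ≤ M := (norm_nonneg _).trans (hM t (mem_UU_of_norm ht (by simp [ha.le])))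
  refine hmax.trans ?_
  rw [div_le_div_iff₀ hκ0 ha]
  nlinarith

end Pool.Agent.NOne
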