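import Pool.Agent.NOne.KDefs

/-!
# MP_74f563_an, n = 1, file KDom: the domains

Elementary facts about `UU s` and `Om δ s`.

PROOFS.  All are immediate from the definitions (`UU s` is an open rectangle, `Om δ s` is the
product of an open strip and `UU s`).  `norm_one_add_le`: `|1 + t|² ≤ (5/4 + 1/8)² + (1/8)² ≤ 9/4`;
`le_norm_one_add`: `|1 + t| ≥ Re (1 + t) ≥ 3/4 - 1/8`.  `im_shift`: the imaginary part of
`r (1 + t)` is `r Im t`.  `mem_UU_of_norm`: `|re z - re t| ≤ ‖z - t‖`, `|im z - im t| ≤ ‖z - t‖`.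
-/

set_option autoImplicit false

namespace Pool.Agent.NOne

open Complex Set MeasureTheory
open scoped ComplexConjugate

theorem isOpen_UU (s : ℝ) : IsOpen (UU s) := by
  have h1 : IsOpen {t : ℂ | |t.re| < 1 / 4 + s} :=
    isOpen_lt (continuous_re.abs) continuous_const
  have h2 : IsOpen {t : ℂ | |t.im| < s} := isOpen_lt (continuous_im.abs) continuous_const
  exact h1.inter h2

theorem isOpen_Om (δ s : ℝ) : IsOpen (Om δ s) := by
  have h1 : IsOpen {q : ℂ × ℂ | |q.1.im| < δ} :=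
    isOpen_lt ((continuous_im.comp continuous_fst).abs) continuous_const
  exact h1.inter ((isOpen_UU s).preimage continuous_snd)

theorem convex_UU (s : ℝ) : Convex ℝ (UU s) := by
  intro x hx y hy a b ha hb hab
  have key : ∀ u v c : ℝ, |u| < c → |v| < c → |a * u + b * v| < c := by
    intro u v c hu hv
    rw [abs_lt] at hu hv ⊢
    have h1 := convex_Ioo (-c) c hu hv ha hb hab
    simpa using h1
  refine ⟨?_, ?_⟩
  · have := key x.re y.re _ hx.1 hy.1
    simpa using this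
  · have := key x.im y.im _ hx.2 hy.2
    simpa using this

theorem convex_Om (δ s : ℝ) : Convex ℝ (Om δ s) := by
  intro x hx y hy a b ha hb hab
  refine ⟨?_, convex_UU s hx.2 hy.2 ha hb hab⟩
  have h1 := convex_Ioo (-δ) δ (abs_lt.1 hx.1) (abs_lt.1 hy.1) ha hb hab
  rw [abs_lt]
  simpa using h1

theorem UU_mono {s s' : ℝ} (h : s' ≤ s) : UU s' ⊆ UU s := by
  intro t ht
  exact ⟨ht.1.trans_le (by linarith), ht.2.trans_le h⟩

theorem Om_mono {δ s δ' s' : ℝ} (hδ : δ' ≤ δ) (hs : s' ≤ s) : Om δ' s' ⊆ Om δ s := by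
  intro q hq
  exact ⟨hq.1.trans_le hδ, UU_mono hs hq.2⟩

theorem pos_of_mem_UU {s : ℝ} {t : ℂ} (ht : t ∈ UU s) : 0 < s := by
  exact (abs_nonneg _).trans_lt ht.2

theorem mem_UU_of_norm {s a : ℝ} {t z : ℂ} (ht : t ∈ UU (s - a)) (hz : ‖z - t‖ ≤ a) :
    z ∈ UU s := by
  have h1 : |z.re - t.re| ≤ a := by
    rw [← sub_re]
    exact (abs_re_le_norm _).trans hz
  have h2 : |z.im - t.im| ≤ a := by
    rw [← sub_im]
    exact (abs_im_le_norm _).trans hz
  have h3 := ht.1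
  have h4 := ht.2
  rw [abs_le] at h1 h2
  rw [abs_lt] at h3 h4
  refine ⟨?_, ?_⟩
  · rw [abs_lt]
    constructor <;> linarith
  · rw [abs_lt]
    constructor <;> linarith

theorem conj_mem_UU {s : ℝ} {t : ℂ} (ht : t ∈ UU s) : conj t ∈ UU s := by
  refine ⟨?_, ?_⟩
  · rw [conj_re]
    exact ht.1
  · rw [conj_im, abs_neg]
    exact ht.2

theorem ofReal_mem_UU {s t : ℝ} (hs : 0 < s) (ht : |t| < 1 / 4 + s) : (t : ℂ) ∈ UU s := by
  refine ⟨?_, ?_⟩
  · rw [ofReal_re]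
    linarith
  · rw [ofReal_im, abs_zero]
    exact hs

theorem norm_one_add_le {s : ℝ} {t : ℂ} (hs : s ≤ 1 / 8) (ht : t ∈ UU s) : ‖1 + t‖ ≤ 3 / 2 := by
  have h3 := ht.1
  have h4 := ht.2
  rw [abs_lt] at h3 h4
  have h5 : ‖1 + t‖ ^ 2 ≤ (3 / 2) ^ 2 := by
    rw [← normSq_eq_norm_sq, normSq_apply]
    simp only [add_re, one_re, add_im, one_im, zero_add]
    nlinarith
  exact abs_le_of_sq_le_sq' h5 (by norm_num) |>.2

theorem le_norm_one_add {s : ℝ} {t : ℂ} (hs : s ≤ 1 / 8) (ht : t ∈ UU s) : 1 / 2 ≤ ‖1 + t‖ := by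
  have h3 := ht.1
  rw [abs_lt] at h3
  have h5 : (1 + t).re ≤ ‖1 + t‖ := re_le_norm _
  simp only [add_re, one_re] at h5
  linarith

/-- the imaginary part of the shift -/
theorem im_shift {r s : ℝ} {t : ℂ} (hr : 0 ≤ r) (ht : t ∈ UU s) :
    |((r : ℂ) * (1 + t)).im| ≤ r * s := by
  have h1 : ((r : ℂ) * (1 + t)).im = r * t.im := by simp
  rw [h1, abs_mul, abs_of_nonneg hr]
  exact mul_le_mul_of_nonneg_left ht.2.le hr

theorem shift_im_lt {r s δ δ' : ℝ} {θ t : ℂ} (hr : 0 ≤ r) (hθ : |θ.im| < δ') (ht : t ∈ UU s)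
    (h : δ' + r * s ≤ δ) : |(θ + r * (1 + t)).im| < δ := by
  rw [add_im]
  have h1 := im_shift hr ht
  have h2 := abs_add_le θ.im ((r : ℂ) * (1 + t)).im
  linarith

theorem shift_im_lt' {r s δ δ' : ℝ} {θ t : ℂ} (hr : 0 ≤ r) (hθ : |θ.im| < δ') (ht : t ∈ UU s)
    (h : δ' + r * s ≤ δ) : |(θ - r * (1 + t)).im| < δ := by
  rw [sub_im]
  have h1 := im_shift hr ht
  have h2 := abs_sub θ.im ((r : ℂ) * (1 + t)).im
  linarith

/-- all the points of the segment between `θ` and `θ + ρ` are in the larger strip -/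
theorem segment_im_lt {r s δ δ' : ℝ} {θ t : ℂ} (hr : 0 ≤ r) (hθ : |θ.im| < δ') (ht : t ∈ UU s)
    (h : δ' + r * s ≤ δ) {a : ℝ} (ha : a ∈ Icc (0 : ℝ) 1) :
    |(θ + a * (r * (1 + t))).im| < δ := by
  rw [add_im]
  have h1 := im_shift hr ht
  have h2 := abs_add_le θ.im ((a : ℂ) * (r * (1 + t))).im
  have h3 : ((a : ℂ) * (r * (1 + t))).im = a * ((r : ℂ) * (1 + t)).im := by simp
  have h4 : |((a : ℂ) * (r * (1 + t))).im| ≤ |((r : ℂ) * (1 + t)).im| := by
    rw [h3, abs_mul, abs_of_nonneg ha.1]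
    exact mul_le_of_le_one_left (abs_nonneg _) ha.2
  linarith

end Pool.Agent.NOne
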