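import Pool.Agent.NOne.KBas

/-!
# MP_74f563_an, n = 1, file KIni: the first approximation `X θ t = θ`

PROOF.  `X₀ θ t = θ`: `p1 X₀ = 1`, `p2 X₀ = 0`, `p1 (p1 X₀) = 0`, so `b0`, ..., `b11` hold with `0`.
`DD r X₀ θ t = 1 + t`.  `Sg r lam X₀ θ t = lam θ (1 + t) = (1 + t)² + f θ t`, `|f| ≤ M r` for
`|Im θ| < σ`, `t ∈ UU (2s)` (`LD.near`, `|1 + t| ≤ 3/2 < 5`).  `avg Sg t = (1 + t)² + q t`, `|q| ≤ M r` on
`UU (2s)`, holomorphic; `ta = 2 + q''`, `|q''| ≤ (M r) / (s/2)² = 4 M r / s² ≤ 1/2` on `UU s`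
(`cauchy_UU` twice).
The error: `Er = p1 lam (θ, 1 + t) - D P`, `P θ t = p2 lam (θ - ρ, 1 + t) = 2 (1 + t) + g θ t`, where
`|g| ≤ 16 M r / σ²` (`LD.bounds`) for `|Im θ| < 7δ/4`, say (then `|Im (θ - ρ)| < 2 δ < σ / 2`), `t ∈ UU (2s)`.
`D P = D g` (`DD_of_t`) and `|D g| ≤ (3/2)(16 M r / σ²) / (7δ/4 - δ - r s) ≤ 40 M r / (σ² δ)` on
`Om δ s`; `|p1 lam| ≤ 16 M r / σ² ≤ 16 M r / (σ² δ)`.  Sum `≤ 100 M r / (σ² δ)`.
-/

set_option autoImplicit false

namespace Pool.Agent.NOne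

open Complex Set MeasureTheory

variable {σ M r δ s : ℝ} {lam G : ℂ → ℂ → ℂ}

private theorem DD_id (hr : 0 < r) (θ t : ℂ) : DD r (fun θ _ => θ) θ t = 1 + t := by
  have h1 : (r : ℂ) ≠ 0 := by exact_mod_cast hr.ne'
  simp only [DD]
  field_simp
  ring

private theorem cmp_id (hr : 0 < r) (G : ℂ → ℂ → ℂ) :
    cmp r G (fun θ _ => θ) = fun θ t => G θ (1 + t) := by
  funext θ t
  simp only [cmp]
  rw [DD_id hr]

private theorem p1_id : p1 (fun θ _ => θ) = fun _ _ => 1 := by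
  funext θ t
  simp only [p1]
  exact deriv_id θ

private theorem mem_RR' (hs : s ≤ 1 / 8) {θ t : ℂ} (hθ : |θ.im| < σ / 2) (ht : t ∈ UU s) :
    (θ, 1 + t) ∈ RR σ := by
  refine ⟨hθ, ?_⟩
  have h1 := norm_one_add_le hs ht
  show ‖1 + t‖ < 4
  linarith

private theorem hol_G (hs : s ≤ 1 / 8) (hG : HolR σ G) :
    Hol (σ / 2) s fun θ t => G θ (1 + t) := by
  have h1 : DifferentiableOn ℂ (fun q : ℂ × ℂ => (q.1, 1 + q.2)) (Om (σ / 2) s) := by
    fun_prop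
  exact DifferentiableOn.comp (t := RR σ) (g := fun q : ℂ × ℂ => G q.1 q.2) hG h1
    (fun q hq => mem_RR' hs hq.1 hq.2)

private theorem tau_id (hp : Par σ M r 0 δ s) (hl : LD σ M r lam) (hs : 8 * M * r ≤ s ^ 2)
    {t : ℂ} (ht : t ∈ UU s) : ‖ta r lam (fun θ _ => θ) t - 2‖ ≤ 1 / 2 := by
  have hσ := hp.σ_pos
  have hs0 := hp.s_pos
  have hs8 : 2 * s ≤ 1 / 8 := by
    have := hp.s_le
    linarith
  have hr := hp.r_pos
  have hF1 : Hol (σ / 2) (2 * s) fun θ t => lam θ (1 + t) := hol_G hs8 (hl.holR hσ).1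
  have hU : DifferentiableOn ℂ (fun t : ℂ => (1 + t) ^ 2) (UU (2 * s)) := by
    fun_prop
  have hF2 : Hol (σ / 2) (2 * s) fun _ t => (1 + t) ^ 2 := hol_of_UU hU
  have hF : Hol (σ / 2) (2 * s) fun θ t => lam θ (1 + t) - (1 + t) ^ 2 := hF1.sub hF2
  have hB : Bd (σ / 2) (2 * s) (M * r) fun θ t => lam θ (1 + t) - (1 + t) ^ 2 := by
    intro θ' t' hθ' ht'
    have h1 := norm_one_add_le hs8 ht'
    exact hl.near θ' (1 + t') (by linarith) (by linarith)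
  set q : ℂ → ℂ := avg fun θ t => lam θ (1 + t) - (1 + t) ^ 2 with hq
  have q1 : DifferentiableOn ℂ q (UU (2 * s)) := avg_hol hF (by linarith)
  have q2 : ∀ t ∈ UU (2 * s), ‖q t‖ ≤ M * r := fun t ht => avg_bound hB (by linarith) ht
  have hSg : Sg r lam (fun θ _ => θ) = fun θ t => lam θ (1 + t) := cmp_id hr lam
  have e1 : ∀ t ∈ UU (2 * s), avg (Sg r lam fun θ _ => θ) t = q t + (1 + t) ^ 2 := by
    intro t ht
    have h2 := avg_sub hF1 hF2 (by linarith) ht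
    have h3 := avg_of_t (fun t : ℂ => (1 + t) ^ 2) t
    rw [h3] at h2
    rw [hSg, hq, h2]
    ring
  have hO := isOpen_UU (2 * s)
  have e2 : ∀ t ∈ UU (2 * s), ch r lam (fun θ _ => θ) t = deriv q t + 2 * (1 + t) := by
    intro t ht
    have h1 : avg (Sg r lam fun θ _ => θ) =ᶠ[nhds t] fun t => q t + (1 + t) ^ 2 :=
      Filter.eventuallyEq_of_mem (hO.mem_nhds ht) e1
    have h2 : HasDerivAt q (deriv q t) t :=
      (q1.differentiableAt (hO.mem_nhds ht)).hasDerivAt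
    have h3 : HasDerivAt (fun t : ℂ => (1 + t) ^ 2) (2 * (1 + t)) t := by
      have h4 := HasDerivAt.fun_pow ((hasDerivAt_id t).const_add 1) 2
      simpa using h4
    simp only [ch]
    rw [h1.deriv_eq]
    exact (h2.add h3).deriv
  have q3 : DifferentiableOn ℂ (deriv q) (UU (2 * s)) := q1.deriv hO
  have ht2 : t ∈ UU (2 * s) := UU_mono (by linarith) ht
  have e3 : ta r lam (fun θ _ => θ) t = deriv (deriv q) t + 2 := by
    have h1 : ch r lam (fun θ _ => θ) =ᶠ[nhds t] fun t => deriv q t + 2 * (1 + t) :=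
      Filter.eventuallyEq_of_mem (hO.mem_nhds ht2) e2
    have h2 : HasDerivAt (deriv q) (deriv (deriv q) t) t :=
      (q3.differentiableAt (hO.mem_nhds ht2)).hasDerivAt
    have h3 : HasDerivAt (fun t : ℂ => 2 * (1 + t)) 2 t := by
      have h4 := ((hasDerivAt_id t).const_add 1).const_mul 2
      simpa using h4
    simp only [ta]
    rw [h1.deriv_eq]
    exact (h2.add h3).deriv
  rw [e3, add_sub_cancel_right]
  have c1 : ∀ t ∈ UU (3 / 2 * s), ‖deriv q t‖ ≤ M * r / (2 * s - 3 / 2 * s) :=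
    cauchy_UU q1 q2 (by linarith)
  have c2 := cauchy_UU (q3.mono (UU_mono (by linarith))) c1 (s' := s) (by linarith) t ht
  refine c2.trans ?_
  have h5 : M * r / (2 * s - 3 / 2 * s) / (3 / 2 * s - s) = 4 * (M * r) / s ^ 2 := by
    have h6 : s ≠ 0 := hs0.ne'
    have h7 : 2 * s - 3 / 2 * s = s / 2 := by ring
    have h8 : 3 / 2 * s - s = s / 2 := by ring
    rw [h7, h8]
    field_simp
    ring
  rw [h5, div_le_iff₀ (by positivity)]
  linarith

private theorem Er_id (hp : Par σ M r 0 δ s) (hl : LD σ M r lam) :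
    Bd δ s (100 * M * r / (σ ^ 2 * δ)) (Er r lam fun θ _ => θ) := by
  have hσ := hp.σ_pos
  have hδ := hp.δ_pos
  have hr := hp.r_pos
  have hs0 := hp.s_pos
  have hM : 0 ≤ M := by
    have := hp.M_ge
    linarith
  have hs8 : s ≤ 1 / 8 := by
    have := hp.s_le
    linarith
  have hrs : r * s ≤ δ / 65536 := by
    have := hp.rs
    linarith
  have hrs0 : 0 ≤ r * s := mul_nonneg hr.le hs0.le
  have hδσ := hp.δ_le
  have hmo : Hol (σ / 2) s (mo r lam fun θ _ => θ) := by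
    have h1 : mo r lam (fun θ _ => θ) = fun θ t => p2 lam θ (1 + t) := cmp_id hr (p2 lam)
    rw [h1]
    exact hol_G hs8 (hl.holR hσ).2.2.1
  have h0 : 7 / 4 * δ + r * s ≤ σ / 2 := by linarith
  have hPm : Hol (7 / 4 * δ) s (Pm r lam fun θ _ => θ) := hmo.hol_sm hr.le h0
  have hU : DifferentiableOn ℂ (fun t : ℂ => 2 * (1 + t)) (UU s) := by
    fun_prop
  have hg : Hol (7 / 4 * δ) s fun θ t => Pm r lam (fun θ _ => θ) θ t - 2 * (1 + t) :=
    hPm.sub (hol_of_UU hU)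
  have hPe : ∀ θ t : ℂ, Pm r lam (fun θ _ => θ) θ t = p2 lam (θ - r * (1 + t)) (1 + t) := by
    intro θ t
    have h1 : mo r lam (fun θ _ => θ) = fun θ t => p2 lam θ (1 + t) := cmp_id hr (p2 lam)
    simp only [Pm, sm]
    rw [h1]
  have hb : Bd (7 / 4 * δ) s (16 * M * r / σ ^ 2)
      fun θ t => Pm r lam (fun θ _ => θ) θ t - 2 * (1 + t) := by
    intro θ t hθ ht
    simp only [hPe]
    have h1 : |(θ - r * (1 + t)).im| < σ / 2 := shift_im_lt' hr.le hθ ht h0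
    exact (hl.bounds hσ hp.σ_le hM hr.le (mem_RR' hs8 h1 ht)).2.1
  have hD := bd_DD' hg hb hr hs8 (δ' := δ) (by linarith)
  intro θ t hθ ht
  have h1 := hD θ t hθ ht
  have h2 : DD r (fun θ t => Pm r lam (fun θ _ => θ) θ t - 2 * (1 + t)) θ t =
      DD r (Pm r lam fun θ _ => θ) θ t := by
    rw [DD_sub r (Pm r lam fun θ _ => θ) (fun _ t => 2 * (1 + t)) θ t,
      DD_of_t r (fun t => 2 * (1 + t)) θ t, sub_zero]
  rw [h2] at h1
  have h3 : ‖cmp r (p1 lam) (fun θ _ => θ) θ t‖ ≤ 16 * M * r / σ ^ 2 := by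
    rw [cmp_id hr (p1 lam)]
    exact (hl.bounds hσ hp.σ_le hM hr.le (mem_RR' hs8 (by linarith) ht)).1
  have h4 : ‖Er r lam (fun θ _ => θ) θ t‖ ≤ 16 * M * r / σ ^ 2 +
      3 / 2 * (16 * M * r / σ ^ 2) / (7 / 4 * δ - δ - r * s) := by
    simp only [Er]
    exact (norm_sub_le _ _).trans (add_le_add h3 h1)
  refine h4.trans ?_
  set K : ℝ := M * r / (σ ^ 2 * δ) with hK
  have hK0 : 0 ≤ K := by positivity
  have k1 : 16 * M * r / σ ^ 2 = 16 * K * δ := by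
    rw [hK]
    field_simp
  have k2 : 100 * M * r / (σ ^ 2 * δ) = 100 * K := by
    rw [hK]
    ring
  rw [k1, k2]
  have hδ1 : δ ≤ 1 := by
    have := hp.σ_le
    linarith
  have k3 : 3 / 2 * (16 * K * δ) / (7 / 4 * δ - δ - r * s) ≤ 40 * K := by
    rw [div_le_iff₀ (by linarith)]
    nlinarith [mul_nonneg hK0 hδ.le, mul_nonneg hK0 hrs0,
      mul_le_mul_of_nonneg_left hrs hK0]
  have k4 : 16 * K * δ ≤ 16 * K := by nlinarith
  linarith

theorem initial {σ M r δ s : ℝ} {lam : ℂ → ℂ → ℂ} (hp : Par σ M r 0 δ s) (hl : LD σ M r lam)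
    (hs : 8 * M * r ≤ s ^ 2) :
    St r lam (fun θ _ => θ) 0 δ s ∧
      Bd δ s (100 * M * r / (σ ^ 2 * δ)) (Er r lam fun θ _ => θ) := by
  refine ⟨?_, Er_id hp hl⟩
  refine ⟨fun θ t => rfl, fun θ t => rfl, hol_fst, ?_, ?_, ?_, ?_, ?_⟩
  · intro θ t _ _
    simp
  · intro θ t _ _
    rw [p1_id]
    simp
  · intro θ t _ _
    simp [p2]
  · intro θ t _ _
    rw [p1_id]
    simp [p1]
  · intro t ht
    have := tau_id hp hl hs ht
    linarith

end Pool.Agent.NOne
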