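import Pool.Agent.NOne.KSeq
import Pool.Agent.NOne.KNew
import Pool.Agent.NOne.KIni
import Pool.Agent.NOne.KNum

/-!
# MP_74f563_an, n = 1, file KIt: the iteration

PROOF of `exists_NSeq`.  `σ' = min σ 1`; `BD σ' ρ M B` (restriction).  `LD_of_BD` gives `M'`, `r₁`;
`gS_conv` gives `c`, `h0 c` gives `κ`.  `δ₀ = σ'/8`, `s₀ = 1/16`, `C` the constant of `newton`, `ε₁` from
`numerics C σ' δ₀ s₀`.  Choose `r₀` so small that for `0 < r < r₀`: `r < r₁`, `64 M' r ≤ σ'²`,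
`65536 r s₀ ≤ δ₀`, `8 M' r ≤ s₀²`, `4 r < c`, `2 r < κ`, `8 r < ρ`, and
`ε₀ := 100 M' r / (σ'² δ₀) ≤ ε₁`.  Put `δ_n = δ₀ / 4096^n`, `s_n = s₀ / 4096^n`, `ε_n = ε₀^((3/2)^n)`,
`e_n = C ε_n / (σ' (δ_n s_n)^9)`, `b_n = ∑_{j<n} e_j ≤ ∑ (σ'/32) / 2^j ≤ σ'/16 ≤ σ'/8`.  So
`Par σ' M' r (b n) (δ n) (s n)` for all `n`.  The property
`Q n X : St r lam X (b n) (δ n) (s n) ∧ Bd (δ n) (s n) (ε n) (Er r lam X)` holds for `n = 0`,
`X = fun θ _ => θ` by `initial`, and `newton` gives for every `X` with `Q n X` a `y` such that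
`Q (n + 1) (X + y)` (the new error is `≤ ε_{n+1}` by `numerics`; `δ_{n+1} = δ_n / 4096`,
`b_{n+1} = b_n + e_n`) and `X`, `y` satisfy `hol`, `bd`, `jac` at `n`.  Dependent choice (recursion on
the subtype `{X // Q n X}`).  Summability: `e_n / (min ..)^k ≤ const · ε_n A^n` (`summable_eps`), with
`min (2 δ (n+1)) (2 s (n+1)) = const / 4096^n`.
-/

set_option autoImplicit false

namespace Pool.Agent.NOne

open Complex Set MeasureTheory

private theorem kit_bd_mono {δ s c c' : ℝ} {F : ℂ → ℂ → ℂ} (h : Bd δ s c F) (hc : c ≤ c') :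
    Bd δ s c' F := fun θ t hθ ht => (h θ t hθ ht).trans hc

private theorem kit_BD_min {σ ρ M : ℝ} {B : ℂ → ℂ → ℂ} (hB : BD σ ρ M B) :
    BD (min σ 1) ρ M B where
  σ_pos := lt_min hB.σ_pos one_pos
  ρ_pos := hB.ρ_pos
  hol := hB.hol.mono fun _ hq => ⟨lt_of_lt_of_le hq.1 (min_le_left _ _), hq.2⟩
  bd := fun x w hx hw => hB.bd x w (lt_of_lt_of_le hx (min_le_left _ _)) hw
  one := fun x hx => hB.one x (lt_of_lt_of_le hx (min_le_left _ _))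
  per := hB.per
  real := hB.real

private theorem kit_geom (a : ℝ) (ha : 0 ≤ a) (n : ℕ) :
    ∑ j ∈ Finset.range n, a / 2 ^ j ≤ 2 * a := by
  have h : ∑ j ∈ Finset.range n, a / 2 ^ j = 2 * a - 2 * a / 2 ^ n := by
    induction n with
    | zero => simp
    | succ n ih =>
      rw [Finset.sum_range_succ, ih, pow_succ]
      field_simp
      ring
  rw [h]
  have h2 : 0 ≤ 2 * a / 2 ^ n := by positivity
  linarith

private theorem kit_sum {ε₀ C σ δ₀ s₀ : ℝ} (h0 : 0 < ε₀) (h1 : ε₀ < 1) (hσ : 0 < σ)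
    (hδ : 0 < δ₀) (hs : 0 < s₀) (k : ℕ) :
    Summable fun n : ℕ => C * ε₀ ^ ((3 / 2 : ℝ) ^ n) /
      (σ * ((δ₀ / 4096 ^ n) * (s₀ / 4096 ^ n)) ^ 9) /
        min (2 * (δ₀ / 4096 ^ (n + 1))) (2 * (s₀ / 4096 ^ (n + 1))) ^ k := by
  have h2 := (summable_eps h0 h1 (4096 ^ (18 + k)) (by positivity)).mul_left
    (C * 4096 ^ k / (σ * (δ₀ * s₀) ^ 9 * (min (2 * δ₀) (2 * s₀)) ^ k))
  refine h2.congr fun n => ?_
  have hm : min (2 * (δ₀ / 4096 ^ (n + 1))) (2 * (s₀ / 4096 ^ (n + 1))) =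
      min (2 * δ₀) (2 * s₀) / 4096 ^ (n + 1) := by
    rw [← min_div_div_right (by positivity : (0 : ℝ) ≤ 4096 ^ (n + 1))]
    congr 1 <;> ring
  have hm0 : 0 < min (2 * δ₀) (2 * s₀) := lt_min (by positivity) (by positivity)
  generalize ε₀ ^ ((3 / 2 : ℝ) ^ n) = E
  have e3 : (δ₀ / 4096 ^ n) * (s₀ / 4096 ^ n) = δ₀ * s₀ / 4096 ^ (n + n) := by
    rw [div_mul_div_comm, pow_add]
  rw [hm, e3, div_pow (δ₀ * s₀), div_pow (min (2 * δ₀) (2 * s₀)), ← pow_mul, ← pow_mul,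
    ← pow_mul]
  generalize min (2 * δ₀) (2 * s₀) = m at hm0
  have e1 : (4096 : ℝ) ^ ((18 + k) * n) * 4096 ^ k =
      4096 ^ ((n + n) * 9) * 4096 ^ ((n + 1) * k) := by
    rw [← pow_add, ← pow_add]
    congr 1
    ring
  have hd : (δ₀ * s₀) ^ 9 ≠ 0 := by positivity
  have hmk : m ^ k ≠ 0 := by positivity
  have hp1 : (4096 : ℝ) ^ ((n + n) * 9) ≠ 0 := by positivity
  have hp2 : (4096 : ℝ) ^ ((n + 1) * k) ≠ 0 := by positivity
  have e2 : C * 4096 ^ k / (σ * (δ₀ * s₀) ^ 9 * m ^ k) * (E * 4096 ^ ((18 + k) * n)) =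
      C * E * (4096 ^ ((18 + k) * n) * 4096 ^ k) / (σ * (δ₀ * s₀) ^ 9 * m ^ k) := by ring
  rw [e2, e1]
  generalize (4096 : ℝ) ^ ((n + n) * 9) = p at *
  generalize (4096 : ℝ) ^ ((n + 1) * k) = q at *
  generalize (δ₀ * s₀) ^ 9 = d at *
  generalize m ^ k = w at *
  field_simp

theorem exists_NSeq {σ ρ M : ℝ} {B : ℂ → ℂ → ℂ} (hB : BD σ ρ M B)
    (h0 : ∀ c > 0, c < ρ → ∃ κ > 0, HZ (gS B) c κ) :
    ∃ σ' M' : ℝ, ∃ r₀ > (0 : ℝ), 8 * r₀ ≤ ρ ∧ ∀ r : ℝ, 0 < r → r < r₀ →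
      LD σ' M' r (lB r B) ∧ ∃ (X : ℕ → ℂ → ℂ → ℂ) (b δ s ε e : ℕ → ℝ),
        NSeq r σ' M' (lB r B) X b δ s ε e := by
  have hBm := kit_BD_min hB
  have hσ0 : 0 < min σ 1 := hBm.σ_pos
  have hσ1 : min σ 1 ≤ 1 := min_le_right _ _
  obtain ⟨M', hM', r₁, hr₁, hLD⟩ := LD_of_BD hBm hσ1
  obtain ⟨c, hc, hcρ, hconv⟩ := gS_conv hB
  obtain ⟨κ, hκ, hHZ⟩ := h0 c hc hcρ
  obtain ⟨C, hC, hnewton⟩ := newton
  have hρ := hB.ρ_pos
  generalize min σ 1 = σ' at *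
  obtain ⟨δ₀, hδ₀⟩ : ∃ δ₀ : ℝ, δ₀ = σ' / 8 := ⟨_, rfl⟩
  have hδ₀0 : 0 < δ₀ := by rw [hδ₀]; positivity
  obtain ⟨ε₁, hε₁, hε₁1, hnum⟩ := numerics C σ' δ₀ (1 / 16) hC hσ0 hσ1 hδ₀0
    (by rw [hδ₀]; linarith) (by norm_num) (by norm_num)
  have hM0 : 0 < M' := by linarith
  refine ⟨σ', M', min r₁ (min (σ' ^ 2 / (64 * M')) (min (δ₀ / 4096) (min (1 / 2048 / M')
    (min (c / 4) (min (κ / 2) (min (ρ / 8) (ε₁ * (σ' ^ 2 * δ₀) / (100 * M')))))))),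
    by positivity, ?_, fun r hr hr0 => ?_⟩
  · have h1 : min r₁ (min (σ' ^ 2 / (64 * M')) (min (δ₀ / 4096) (min (1 / 2048 / M')
        (min (c / 4) (min (κ / 2) (min (ρ / 8) (ε₁ * (σ' ^ 2 * δ₀) / (100 * M')))))))) ≤
          ρ / 8 :=
      (min_le_right _ _).trans ((min_le_right _ _).trans ((min_le_right _ _).trans
        ((min_le_right _ _).trans ((min_le_right _ _).trans ((min_le_right _ _).trans
          (min_le_left _ _))))))
    linarith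
  simp only [lt_min_iff] at hr0
  obtain ⟨k1, k2, k3, k4, k5, k6, k7, k8⟩ := hr0
  have hL := hLD r hr k1
  refine ⟨hL, ?_⟩
  have q1 : 64 * M' * r ≤ σ' ^ 2 := by
    rw [lt_div_iff₀ (by positivity)] at k2
    linarith
  have q2 : 8 * M' * r ≤ (1 / 16 : ℝ) ^ 2 := by
    rw [lt_div_iff₀ hM0] at k4
    nlinarith
  have q3 : 100 * M' * r / (σ' ^ 2 * δ₀) ≤ ε₁ := by
    rw [lt_div_iff₀ (by positivity)] at k8
    rw [div_le_iff₀ (by positivity)]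
    linarith
  obtain ⟨ε₀, hε₀⟩ : ∃ ε₀ : ℝ, ε₀ = 100 * M' * r / (σ' ^ 2 * δ₀) := ⟨_, rfl⟩
  have hε₀0 : 0 < ε₀ := by rw [hε₀]; positivity
  have hε₀1 : ε₀ < 1 := by
    rw [hε₀]
    linarith
  rw [← hε₀] at q3
  have hn := hnum ε₀ hε₀0 q3
  let δ : ℕ → ℝ := fun n => δ₀ / 4096 ^ n
  let s : ℕ → ℝ := fun n => 1 / 16 / 4096 ^ n
  let ε : ℕ → ℝ := fun n => ε₀ ^ ((3 / 2 : ℝ) ^ n)
  let e : ℕ → ℝ := fun n => C * ε n / (σ' * (δ n * s n) ^ 9)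
  let b : ℕ → ℝ := fun n => ∑ j ∈ Finset.range n, e j
  have hδp : ∀ n, 0 < δ n := fun n => by positivity
  have hsp : ∀ n, 0 < s n := fun n => by positivity
  have hεp : ∀ n, 0 < ε n := fun n => (hn n).1
  have hep : ∀ n, 0 ≤ e n := fun n => by
    have h1 := hδp n
    have h2 := hsp n
    have h3 := hεp n
    positivity
  have he : ∀ n, e n ≤ σ' / 32 / 2 ^ n := fun n => (hn n).2.2.2
  have hb0 : ∀ n, 0 ≤ b n := fun n => Finset.sum_nonneg fun j _ => hep j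
  have hb1 : ∀ n, b n ≤ σ' / 8 := by
    intro n
    have h1 : b n ≤ ∑ j ∈ Finset.range n, σ' / 32 / 2 ^ j := Finset.sum_le_sum fun j _ => he j
    have h2 := kit_geom (σ' / 32) (by positivity) n
    linarith
  have hδs : ∀ n, δ (n + 1) = δ n / 4096 := fun n => by
    change δ₀ / 4096 ^ (n + 1) = δ₀ / 4096 ^ n / 4096
    rw [pow_succ, div_div]
  have hss : ∀ n, s (n + 1) = s n / 4096 := fun n => by
    change 1 / 16 / 4096 ^ (n + 1) = 1 / 16 / 4096 ^ n / (4096 : ℝ)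
    rw [pow_succ, ← div_div]
  have hbs : ∀ n, b (n + 1) = b n + e n := fun n => Finset.sum_range_succ _ _
  have hpow : ∀ n : ℕ, (1 : ℝ) ≤ 4096 ^ n := fun n => one_le_pow₀ (by norm_num)
  have hPar : ∀ n, Par σ' M' r (b n) (δ n) (s n) := fun n =>
    { σ_pos := hσ0
      σ_le := hσ1
      M_ge := hM'
      r_pos := hr
      r_le := q1
      b_nonneg := hb0 n
      b_le := hb1 n
      δ_pos := hδp n
      δ_le := by
        have h1 : δ n ≤ δ₀ := div_le_self hδ₀0.le (hpow n)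
        rwa [hδ₀] at h1
      s_pos := hsp n
      s_le := div_le_self (by norm_num) (hpow n)
      rs := by
        change 65536 * (r * (1 / 16 / 4096 ^ n)) ≤ δ₀ / 4096 ^ n
        rw [le_div_iff₀ (by positivity)]
        have h1 : 65536 * (r * (1 / 16 / 4096 ^ n)) * (4096 : ℝ) ^ n = 4096 * r := by
          have h2 : (4096 : ℝ) ^ n ≠ 0 := by positivity
          field_simp
          norm_num
        rw [h1]
        linarith }
  let Q : ℕ → (ℂ → ℂ → ℂ) → Prop := fun n X => St r (lB r B) X (b n) (δ n) (s n) ∧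
    Bd (δ n) (s n) (ε n) (Er r (lB r B) X)
  have hb00 : b 0 = 0 := Finset.sum_range_zero _
  have hδ00 : δ 0 = δ₀ := by
    change δ₀ / 4096 ^ 0 = δ₀
    rw [pow_zero, div_one]
  have hs00 : s 0 = 1 / 16 := by
    change 1 / 16 / 4096 ^ 0 = (1 / 16 : ℝ)
    rw [pow_zero, div_one]
  have hε00 : ε 0 = ε₀ := by
    change ε₀ ^ ((3 / 2 : ℝ) ^ 0) = ε₀
    rw [pow_zero, Real.rpow_one]
  have hQ0 : Q 0 fun θ _ => θ := by
    have hP0 := hPar 0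
    rw [hb00, hδ00, hs00] at hP0
    have h1 := initial hP0 hL q2
    change St r (lB r B) _ (b 0) (δ 0) (s 0) ∧ Bd (δ 0) (s 0) (ε 0) _
    rw [hb00, hδ00, hs00, hε00, hε₀]
    exact h1
  have hstep : ∀ n X, Q n X → ∃ X', Q (n + 1) X' ∧
      (Hol (2 * δ (n + 1)) (2 * s (n + 1)) fun θ t => X' θ t - X θ t) ∧
      (Bd (2 * δ (n + 1)) (2 * s (n + 1)) (e n) fun θ t => X' θ t - X θ t) ∧
      ∀ θ t : ℝ, |t| ≤ 1 / 4 → ‖Jf r (lB r B) X θ t - ta r (lB r B) X t‖ ≤ e n := by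
    rintro n X ⟨hSt, hBd⟩
    obtain ⟨y, -, -, g3, g4, g5, g6, g7⟩ := hnewton hB (hPar n) hL hSt hBd hc hcρ hconv hHZ
      (by linarith) (by linarith) (hεp n) (hn n).2.1
    refine ⟨fun θ t => X θ t + y θ t, ⟨?_, ?_⟩, ?_, ?_, g7⟩
    · rw [hbs, hδs, hss]
      exact g5
    · rw [hδs, hss]
      exact kit_bd_mono g6 (hn n).2.2.1
    · rw [hδs, hss]
      simpa only [add_sub_cancel_left] using g3
    · rw [hδs, hss]
      simpa only [add_sub_cancel_left] using g4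
  choose nx hnx1 hnx2 hnx3 hnx4 using hstep
  let sq : (n : ℕ) → {X : ℂ → ℂ → ℂ // Q n X} := fun n =>
    Nat.rec (motive := fun n => {X : ℂ → ℂ → ℂ // Q n X}) ⟨fun θ _ => θ, hQ0⟩
      (fun n p => ⟨nx n p.1 p.2, hnx1 n p.1 p.2⟩) n
  refine ⟨fun n => (sq n).1, b, δ, s, ε, e, ?_⟩
  exact
    { zero := rfl
      par := hPar
      st := fun n => (sq n).2.1
      err := fun n => (sq n).2.2
      hol := fun n => hnx2 n (sq n).1 (sq n).2
      bd := fun n => hnx3 n (sq n).1 (sq n).2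
      jac := fun n => hnx4 n (sq n).1 (sq n).2
      e_nonneg := hep
      sum := fun k => kit_sum hε₀0 hε₀1 hσ0 hδ₀0 (by norm_num : (0 : ℝ) < 1 / 16) k
      lim := tendsto_eps hε₀0 hε₀1 }

end Pool.Agent.NOne
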