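import Pool.Agent.NOne.KY
import Pool.Agent.NOne.KIdb

/-!
# MP_74f563_an, n = 1, file KNE: the new error of the Newton step

`new_error`.  PROOF.  Abbreviations as in `KJ`, `KY`.  By `DD_mul` `D(H u) = H⁺ D u + u D H`
(write `H u = u H` and apply `DD_mul` with `F = u`, `G = H`: `D(u H) = u D H + H⁺ D u`); `τ` and `avg K` do
not depend on `θ`, so by (J1), (J2), at the points with `|Im θ| < δ/2`:
`τ D v = H⁺ D u + u (E X_θ - Z_θ) - (E X_t - H⁺ - Z_t) = H⁺ (1 + D u) + Z_t - u Z_θ`,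
because `u E X_θ = E X_t`.  Multiply by `a` and use `I3` and (J3) at `θ + ρ`
(`sh r J = τ + sh r (K_θ - H_t)`):
`a D v = H⁺ + [H (K_θ - H_t)]⁺ / τ + a (Z_t - u Z_θ) / τ`, and by `sm_sh` at `θ`:
`(a D v)⁻ = H + H (K_θ - H_t) / τ + (a (Z_t - u Z_θ))⁻ / τ`   (*)
(valid at `θ` with `|Im θ| < δ/3`, because it is the previous line at `θ - ρ`).
Now `I4` with this `v` (`Lin (yf) = Lin (X_θ v)`: both functions agree at `θ`, `θ ± ρ` by `yf_eq`; `Lin`
uses only these values) gives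
`X_θ Lin(y) = v X_θ E_θ - D((a D v)⁻)`, and `D` of (*) is (J1 again)
`D H + D[H (K_θ - H_t)] / τ + D[(a (Z_t - u Z_θ))⁻] / τ`, `D H = E X_θ - Z_θ`.  So
`X_θ (E + Lin y) = v X_θ E_θ + Z_θ - D[H (K_θ - H_t)] / τ - D[(a (Z_t - u Z_θ))⁻] / τ`.

`new_error_bd`.  PROOF.  Bounds on `Om (δ/1024) (s/2)`, `e = ε + ζ`; constants are absolute and denoted
by `C`: `|v| ≤ C e / (s² δ³)` (`bd_yf`), `|E_θ| ≤ 2 ε / δ` (Cauchy from `δ` to `δ/2`), `|Z_θ| ≤ 32 ζ / δ`;
`H (K_θ - H_t)` is bounded on `Om (δ/512) (5s/8)` by `C e / (s δ²) · C e / (s² δ⁴)` (`bd_Hf`, `bd_Kf'`) and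
holomorphic, `D` of it: `bd_DD'` from `δ/512` to `δ/1024`: `≤ C e² / (s³ δ⁷)`;
`a (Z_t - u Z_θ)`: `≤ 6 (8 ζ / s + 32 ζ / δ) ≤ C ζ / (s δ)` on `Om (δ/32) (7s/8)`, shift and `D`
(from `δ/64` to `δ/1024`): `≤ C ζ / (s δ²)`.  `|X_θ| ≥ 7/8`, `|τ| ≥ 1`.  Sum:
`≤ C (ζ + e²) / (s³ δ⁷)` (`s, δ ≤ 1`).
-/

set_option autoImplicit false

namespace Pool.Agent.NOne

open Complex Set MeasureTheory

/-- `Lin` only uses the values of `y` on the strip -/
private theorem Lin_congr {r δ s : ℝ} {lam X y y' : ℂ → ℂ → ℂ} {θ t : ℂ} (hr : 0 ≤ r)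
    (hθ : |θ.im| < δ) (ht : t ∈ UU s) (hd : δ + r * s ≤ 2 * δ)
    (h : ∀ z : ℂ, |z.im| < 2 * δ → y z t = y' z t) :
    Lin r lam X y θ t = Lin r lam X y' θ t := by
  have hθ2 : |θ.im| < 2 * δ := by
    have := abs_nonneg θ.im
    linarith
  have h1 : |(θ + r * (1 + t)).im| < 2 * δ := shift_im_lt hr hθ ht hd
  have h2 : |(θ - r * (1 + t)).im| < 2 * δ := shift_im_lt' hr hθ ht hd
  simp only [Lin, DD, sm, add_sub_cancel_right, sub_add_cancel]
  rw [h _ hθ2, h _ h1, h _ h2]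

/-- `a D v` -/
private theorem a_Dv {σ M r b δ s : ℝ} {lam X w : ℂ → ℂ → ℂ} {θ t : ℂ} (hp : Par σ M r b δ s)
    (hl : LD σ M r lam) (hX : St r lam X b δ s) (hw : ∀ δ' : ℝ, Hol δ' s w)
    (hθ : |θ.im| < δ / 3) (ht : t ∈ UU s) :
    af r lam X θ t * DD r (vf r lam X w) θ t =
      Hf r lam X w (θ + r * (1 + t)) t +
      Hf r lam X w (θ + r * (1 + t)) t * (p1 (Kf r lam X w) (θ + r * (1 + t)) t -
        p2 (Hf r lam X w) (θ + r * (1 + t)) t) / ta r lam X t +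
      af r lam X θ t * (p2 (Zf r lam X w) θ t - uf X θ t * p1 (Zf r lam X w) θ t) /
        ta r lam X t := by
  have hδ := hp.δ_pos
  have hs := hp.s_pos
  have hr := hp.r_pos
  have hrs := hp.rs
  have ht2 : t ∈ UU (2 * s) := UU_mono (by linarith) ht
  have hτ := (ta_bounds hp hX ht).2.1
  have hX1 := (p1_X_bounds hp hX (θ := θ) (by linarith) ht2).2.2
  have e1 := J1 hp hl hX hw (θ := θ) (by linarith) ht
  have e2 := J2 hp hl hX hw (θ := θ) (by linarith) ht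
  have e3 := J3 hp hl hX hw (θ := θ + r * (1 + t)) (t := t)
    (shift_im_lt hr.le hθ ht (by linarith)) ht
  have e4 := I3 hp hl hX (θ := θ) (by linarith) ht2
  have e5 := DD_mul r (uf X) (Hf r lam X w) θ t
  have e6 : uf X θ t * p1 X θ t = p2 X θ t := by
    unfold uf
    field_simp
  have e7 : DD r (vf r lam X w) θ t =
      (DD r (fun θ t => uf X θ t * Hf r lam X w θ t) θ t - DD r (Kf r lam X w) θ t) /
        ta r lam X t := by
    simp only [DD, vf]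
    ring
  simp only [sh] at e2 e4 e5
  rw [e3] at e4
  rw [e5, e1, e2] at e7
  have e8 : ta r lam X t * DD r (vf r lam X w) θ t =
      Hf r lam X w (θ + r * (1 + t)) t * (1 + DD r (uf X) θ t) + p2 (Zf r lam X w) θ t -
        uf X θ t * p1 (Zf r lam X w) θ t := by
    rw [e7, mul_div_cancel₀ _ hτ]
    linear_combination Er r lam X θ t * e6
  have e9 : ta r lam X t * (af r lam X θ t * DD r (vf r lam X w) θ t) =
      ta r lam X t * (Hf r lam X w (θ + r * (1 + t)) t +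
      Hf r lam X w (θ + r * (1 + t)) t * (p1 (Kf r lam X w) (θ + r * (1 + t)) t -
        p2 (Hf r lam X w) (θ + r * (1 + t)) t) / ta r lam X t +
      af r lam X θ t * (p2 (Zf r lam X w) θ t - uf X θ t * p1 (Zf r lam X w) θ t) /
        ta r lam X t) := by
    rw [mul_add, mul_add, mul_div_cancel₀ _ hτ, mul_div_cancel₀ _ hτ]
    linear_combination af r lam X θ t * e8 + Hf r lam X w (θ + r * (1 + t)) t * e4
  exact mul_left_cancel₀ hτ e9

theorem new_error {σ M r b δ s : ℝ} {lam X w : ℂ → ℂ → ℂ} {θ t : ℂ} (hp : Par σ M r b δ s)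
    (hl : LD σ M r lam) (hX : St r lam X b δ s) (hw : ∀ δ' : ℝ, Hol δ' s w) (hwP : Per w)
    (hwR : RSym w) (hθ : |θ.im| < δ / 4) (ht : t ∈ UU s) :
    p1 X θ t * (Er r lam X θ t + Lin r lam X (yf r lam X w) θ t) =
      vf r lam X w θ t * p1 X θ t * p1 (Er r lam X) θ t + p1 (Zf r lam X w) θ t -
      DD r (fun θ t => Hf r lam X w θ t * (p1 (Kf r lam X w) θ t - p2 (Hf r lam X w) θ t)) θ t /
        ta r lam X t -
      DD r (sm r fun θ t => af r lam X θ t *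
        (p2 (Zf r lam X w) θ t - uf X θ t * p1 (Zf r lam X w) θ t)) θ t / ta r lam X t := by
  have hδ := hp.δ_pos
  have hs := hp.s_pos
  have hr := hp.r_pos
  have hrs := hp.rs
  have hrs0 : 0 < r * s := mul_pos hr hs
  have ht2 : t ∈ UU (2 * s) := UU_mono (by linarith) ht
  have c1 : Lin r lam X (yf r lam X w) θ t =
      Lin r lam X (fun θ t => p1 X θ t * vf r lam X w θ t) θ t := by
    refine Lin_congr (δ := δ) (s := s) hr.le (by linarith) ht (by linarith) fun z hz => ?_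
    exact yf_eq hp hX hz ht2
  have c2 := I4 hp hl hX (θ := θ) (by linarith) ht2 (vf r lam X w)
  have c3 := J1 hp hl hX hw (θ := θ) (by linarith) ht
  have c4 := a_Dv hp hl hX hw (θ := θ) (by linarith) ht
  have c5 := a_Dv hp hl hX hw (θ := θ - r * (1 + t)) (t := t)
    (shift_im_lt' hr.le hθ ht (by linarith)) ht
  rw [sub_add_cancel] at c5
  have c6 : DD r (sm r fun θ t => af r lam X θ t * DD r (vf r lam X w) θ t) θ t =
      (af r lam X θ t * DD r (vf r lam X w) θ t -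
        af r lam X (θ - r * (1 + t)) t * DD r (vf r lam X w) (θ - r * (1 + t)) t) / r := by
    change (af r lam X (θ + r * (1 + t) - r * (1 + t)) t *
      DD r (vf r lam X w) (θ + r * (1 + t) - r * (1 + t)) t -
        af r lam X (θ - r * (1 + t)) t * DD r (vf r lam X w) (θ - r * (1 + t)) t) / r = _
    rw [add_sub_cancel_right]
  have c7 : DD r (sm r fun θ t => af r lam X θ t *
        (p2 (Zf r lam X w) θ t - uf X θ t * p1 (Zf r lam X w) θ t)) θ t =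
      (af r lam X θ t * (p2 (Zf r lam X w) θ t - uf X θ t * p1 (Zf r lam X w) θ t) -
        af r lam X (θ - r * (1 + t)) t * (p2 (Zf r lam X w) (θ - r * (1 + t)) t -
          uf X (θ - r * (1 + t)) t * p1 (Zf r lam X w) (θ - r * (1 + t)) t)) / r := by
    simp only [DD, sm, add_sub_cancel_right]
  have c8 : DD r (fun θ t => Hf r lam X w θ t *
      (p1 (Kf r lam X w) θ t - p2 (Hf r lam X w) θ t)) θ t =
      (Hf r lam X w (θ + r * (1 + t)) t * (p1 (Kf r lam X w) (θ + r * (1 + t)) t -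
        p2 (Hf r lam X w) (θ + r * (1 + t)) t) -
      Hf r lam X w θ t * (p1 (Kf r lam X w) θ t - p2 (Hf r lam X w) θ t)) / r := rfl
  rw [c1, mul_add, c2, c6, c4, c5, c7, c8]
  simp only [DD] at c3
  linear_combination (-1) * c3

private theorem nne_pow {s δ : ℝ} (hs : 0 < s) (hs1 : s ≤ 1) (hδ : 0 < δ) (hδ1 : δ ≤ 1) {a c : ℕ}
    (ha : a ≤ 3) (hc : c ≤ 7) : 1 / (s ^ a * δ ^ c) ≤ 1 / (s ^ 3 * δ ^ 7) := by
  refine one_div_le_one_div_of_le (by positivity) ?_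
  exact mul_le_mul (pow_le_pow_of_le_one hs.le hs1 ha) (pow_le_pow_of_le_one hδ.le hδ1 hc)
    (by positivity) (by positivity)

theorem new_error_bd : ∃ C : ℝ, 1 ≤ C ∧ ∀ {σ M r b δ s ε ζ : ℝ} {lam X w : ℂ → ℂ → ℂ},
    Par σ M r b δ s → LD σ M r lam → St r lam X b δ s → (∀ δ' : ℝ, Hol δ' s w) → Per w →
    RSym w → 0 ≤ ε → 0 ≤ ζ → Bd δ s ε (Er r lam X) → Bd (δ / 16) s ζ (Zf r lam X w) →
    Bd (δ / 1024) (s / 2) (C * (ζ + (ε + ζ) ^ 2) / (s ^ 3 * δ ^ 7))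
      (fun θ t => Er r lam X θ t + Lin r lam X (yf r lam X w) θ t) := by
  obtain ⟨C₁, hC₁, hH⟩ := bd_Hf
  obtain ⟨C₂, hC₂, hK⟩ := bd_Kf'
  obtain ⟨C₃, hC₃, hY⟩ := bd_yf
  have hC12 : 0 ≤ C₁ * C₂ := mul_nonneg (by linarith) (by linarith)
  refine ⟨3 * C₃ + 8000 * (C₁ * C₂) + 22000, by linarith, ?_⟩
  intro σ M r b δ s ε ζ lam X w hp hl hX hw hwP hwR hε hζ hE hZ
  have hs := hp.s_pos
  have hδ := hp.δ_pos
  have hr := hp.r_pos
  have hrs := hp.rs
  have hrs0 : 0 < r * s := mul_pos hr hs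
  have hs1 : s ≤ 1 := hp.s_le.trans (by norm_num)
  have hs8 : s ≤ 1 / 8 := hp.s_le.trans (by norm_num)
  have hδ1 : δ ≤ 1 := by
    have h1 := hp.δ_le
    have h2 := hp.σ_le
    linarith
  obtain ⟨hH1, -, -⟩ := hol_Hf hp hl hX hw hwP hwR
  obtain ⟨hK1, -, -⟩ := hol_Kf hp hl hX hw hwP hwR
  obtain ⟨hZ1, -⟩ := hol_Zf hp hl hX hw hwP
  have bH := hH hp hl hX hw hwP hwR hε hζ hE hZ
  obtain ⟨bK, bH2⟩ := hK hp hl hX hw hwP hwR hε hζ hE hZ
  obtain ⟨-, bV⟩ := hY hp hl hX hw hwP hwR hε hζ hE hZ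
  obtain ⟨e, he⟩ : ∃ e : ℝ, e = ε + ζ := ⟨_, rfl⟩
  have he0 : 0 ≤ e := by rw [he]; exact add_nonneg hε hζ
  have hεe : ε ≤ e := by rw [he]; linarith
  rw [← he] at bH bK bH2 bV ⊢
  obtain ⟨Q, hQ⟩ : ∃ Q : ℝ, Q = 1 / (s ^ 3 * δ ^ 7) := ⟨_, rfl⟩
  have hQ0 : 0 ≤ Q := by rw [hQ]; positivity
  -- the error `E`
  have hEh : Hol δ s (Er r lam X) :=
    (hol_Er hp hl hX).1.mono (by linarith) (by linarith)
  have bE1 : Bd (δ / 2) s (ε / (δ - δ / 2)) (p1 (Er r lam X)) :=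
    hE.cauchy1 hEh (by linarith)
  -- the error `Z`
  have hZh : Hol (δ / 16) s (Zf r lam X w) := hZ1.mono (by linarith) le_rfl
  have bZ1 : Bd (δ / 32) s (ζ / (δ / 16 - δ / 32)) (p1 (Zf r lam X w)) :=
    hZ.cauchy1 hZh (by linarith)
  have bZ2 : Bd (δ / 16) (7 / 8 * s) (ζ / (s - 7 / 8 * s)) (p2 (Zf r lam X w)) :=
    hZ.cauchy2 hZh (by linarith)
  -- the first function
  have hG1 : Hol (δ / 512) (5 / 8 * s) fun θ t => Hf r lam X w θ t *
      (p1 (Kf r lam X w) θ t - p2 (Hf r lam X w) θ t) :=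
    (hH1.mul (hK1.hol_p1.sub hH1.hol_p2)).mono (by linarith) (by linarith)
  have bG1 : Bd (δ / 512) (5 / 8 * s) (2 * (C₁ * C₂) * e ^ 2 * (1 / (s ^ 3 * δ ^ 6)))
      fun θ t => Hf r lam X w θ t * (p1 (Kf r lam X w) θ t - p2 (Hf r lam X w) θ t) := by
    intro θ t hθ ht
    have k1 := bH θ t (by linarith) (UU_mono (by linarith) ht)
    have k2 := bK θ t hθ ht
    have k3 := bH2 θ t (by linarith) ht
    have k4 : ‖p1 (Kf r lam X w) θ t - p2 (Hf r lam X w) θ t‖ ≤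
        2 * (C₂ * e / (s ^ 2 * δ ^ 4)) := (norm_sub_le _ _).trans (by linarith)
    have k5 : 0 ≤ C₁ * e / (s * δ ^ 2) := by positivity
    change ‖Hf r lam X w θ t * (p1 (Kf r lam X w) θ t - p2 (Hf r lam X w) θ t)‖ ≤ _
    rw [norm_mul]
    calc ‖Hf r lam X w θ t‖ * ‖p1 (Kf r lam X w) θ t - p2 (Hf r lam X w) θ t‖ ≤
        C₁ * e / (s * δ ^ 2) * (2 * (C₂ * e / (s ^ 2 * δ ^ 4))) :=
          mul_le_mul k1 k4 (norm_nonneg _) k5
      _ = 2 * (C₁ * C₂) * e ^ 2 * (1 / (s ^ 3 * δ ^ 6)) := by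
          field_simp
  have bD1 := bd_DD' (δ' := δ / 1024) hG1 bG1 hr (by linarith)
    (by nlinarith)
  -- the second function
  have haf := hol_af hp hl hX
  have huf := hol_uf hp hX
  have hG2 : Hol (δ / 32) (7 / 8 * s) fun θ t => af r lam X θ t *
      (p2 (Zf r lam X w) θ t - uf X θ t * p1 (Zf r lam X w) θ t) :=
    (haf.1.mono (by linarith) (by linarith)).mul
      ((hZ1.hol_p2.mono (by linarith) (by linarith)).sub
        ((huf.1.mono (by linarith) (by linarith)).mul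
          (hZ1.hol_p1.mono (by linarith) (by linarith))))
  have bG2 : Bd (δ / 32) (7 / 8 * s) (96 * ζ * (1 / (s * δ))) fun θ t => af r lam X θ t *
      (p2 (Zf r lam X w) θ t - uf X θ t * p1 (Zf r lam X w) θ t) := by
    intro θ t hθ ht
    have ht2 : t ∈ UU (2 * s) := UU_mono (by linarith) ht
    have k1 := haf.2 θ t (by linarith) ht2
    have k2 := huf.2 θ t (by linarith) ht2
    have k3 := bZ1 θ t hθ (UU_mono (by linarith) ht)
    have k4 := bZ2 θ t (by linarith) ht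
    have k5 : ζ / (δ / 16 - δ / 32) = 32 * ζ * (1 / δ) := by
      have : δ / 16 - δ / 32 = δ / 32 := by ring
      rw [this]
      field_simp
    have k6 : ζ / (s - 7 / 8 * s) = 8 * ζ * (1 / s) := by
      have : s - 7 / 8 * s = s / 8 := by ring
      rw [this]
      field_simp
    rw [k5] at k3
    rw [k6] at k4
    have k7 : 1 / δ ≤ 1 / (s * δ) := by
      refine one_div_le_one_div_of_le (by positivity) ?_
      exact mul_le_of_le_one_left hδ.le hs1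
    have k8 : 1 / s ≤ 1 / (s * δ) := by
      refine one_div_le_one_div_of_le (by positivity) ?_
      exact mul_le_of_le_one_right hs.le hδ1
    have k9 : ‖uf X θ t * p1 (Zf r lam X w) θ t‖ ≤ 1 / 4 * (32 * ζ * (1 / δ)) := by
      rw [norm_mul]
      exact mul_le_mul k2 k3 (norm_nonneg _) (by norm_num)
    have k10 : ‖p2 (Zf r lam X w) θ t - uf X θ t * p1 (Zf r lam X w) θ t‖ ≤
        16 * ζ * (1 / (s * δ)) := by
      refine (norm_sub_le _ _).trans ((add_le_add k4 k9).trans ?_)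
      have m1 := mul_le_mul_of_nonneg_left k7 (by positivity : 0 ≤ 8 * ζ)
      have m2 := mul_le_mul_of_nonneg_left k8 (by positivity : 0 ≤ 8 * ζ)
      linarith
    change ‖af r lam X θ t *
      (p2 (Zf r lam X w) θ t - uf X θ t * p1 (Zf r lam X w) θ t)‖ ≤ _
    rw [norm_mul]
    calc ‖af r lam X θ t‖ * ‖p2 (Zf r lam X w) θ t - uf X θ t * p1 (Zf r lam X w) θ t‖ ≤
        6 * (16 * ζ * (1 / (s * δ))) := mul_le_mul k1 k10 (norm_nonneg _) (by norm_num)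
      _ = 96 * ζ * (1 / (s * δ)) := by ring
  have hG3 : Hol (δ / 64) (7 / 8 * s) (sm r fun θ t => af r lam X θ t *
      (p2 (Zf r lam X w) θ t - uf X θ t * p1 (Zf r lam X w) θ t)) :=
    hG2.hol_sm hr.le (by nlinarith)
  have bG3 := bG2.bd_sm (δ' := δ / 64) hr.le (by nlinarith)
  have bD2 := bd_DD' (δ' := δ / 1024) hG3 bG3 hr (by linarith) (by nlinarith)
  intro θ t hθ ht
  have hts : t ∈ UU s := UU_mono (by linarith) ht
  have ht5 : t ∈ UU (5 / 8 * s) := UU_mono (by linarith) ht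
  have ht7 : t ∈ UU (7 / 8 * s) := UU_mono (by linarith) ht
  have ht2 : t ∈ UU (2 * s) := UU_mono (by linarith) ht
  have key := new_error hp hl hX hw hwP hwR (θ := θ) (by linarith) hts
  have n1 := bV θ t (by linarith) ht5
  have n2 := bE1 θ t (by linarith) hts
  have n3 := bZ1 θ t (by linarith) hts
  have n4 := bD1 θ t hθ ht5
  have n5 := bD2 θ t hθ ht7
  obtain ⟨x1, x2, -⟩ := p1_X_bounds hp hX (θ := θ) (by linarith) ht2
  have x3 := (ta_bounds hp hX hts).1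
  -- the numbers
  have q1 : 1 / (s ^ 2 * δ ^ 4) ≤ Q := by
    rw [hQ]
    exact nne_pow hs hs1 hδ hδ1 (by norm_num) (by norm_num)
  have q2 : 1 / (s ^ 0 * δ ^ 1) ≤ Q := by
    rw [hQ]
    exact nne_pow hs hs1 hδ hδ1 (by norm_num) (by norm_num)
  have q3 : 1 / (s ^ 1 * δ ^ 2) ≤ Q := by
    rw [hQ]
    exact nne_pow hs hs1 hδ hδ1 (by norm_num) (by norm_num)
  have n1' : ‖vf r lam X w θ t * p1 X θ t * p1 (Er r lam X) θ t‖ ≤ 9 / 4 * C₃ * e ^ 2 * Q := by
    rw [norm_mul, norm_mul]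
    have l1 : ε / (δ - δ / 2) = 2 * ε * (1 / δ) := by
      have : δ - δ / 2 = δ / 2 := by ring
      rw [this]
      field_simp
    rw [l1] at n2
    have l2 : 0 ≤ C₃ * e / (s ^ 2 * δ ^ 3) := by positivity
    calc ‖vf r lam X w θ t‖ * ‖p1 X θ t‖ * ‖p1 (Er r lam X) θ t‖ ≤
        C₃ * e / (s ^ 2 * δ ^ 3) * (9 / 8) * (2 * ε * (1 / δ)) :=
          mul_le_mul (mul_le_mul n1 x1 (norm_nonneg _) l2) n2 (norm_nonneg _) (by positivity)
      _ = 9 / 4 * C₃ * (e * ε) * (1 / (s ^ 2 * δ ^ 4)) := by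
          field_simp
          ring
      _ ≤ 9 / 4 * C₃ * (e * e) * Q := by
          have l3 : e * ε ≤ e * e := mul_le_mul_of_nonneg_left hεe he0
          have l4 : 0 ≤ 9 / 4 * C₃ := by linarith
          exact mul_le_mul (mul_le_mul_of_nonneg_left l3 l4) q1 (by positivity)
            (mul_nonneg l4 (mul_nonneg he0 he0))
      _ = 9 / 4 * C₃ * e ^ 2 * Q := by ring
  have n3' : ‖p1 (Zf r lam X w) θ t‖ ≤ 32 * ζ * Q := by
    have l1 : ζ / (δ / 16 - δ / 32) = 32 * ζ * (1 / (s ^ 0 * δ ^ 1)) := by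
      have : δ / 16 - δ / 32 = δ / 32 := by ring
      rw [this, pow_zero, pow_one, one_mul]
      field_simp
    rw [l1] at n3
    exact n3.trans (mul_le_mul_of_nonneg_left q2 (by positivity))
  have n4' : ‖DD r (fun θ t => Hf r lam X w θ t *
      (p1 (Kf r lam X w) θ t - p2 (Hf r lam X w) θ t)) θ t / ta r lam X t‖ ≤
      6144 * (C₁ * C₂) * e ^ 2 * Q := by
    rw [norm_div]
    refine (div_le_self (norm_nonneg _) x3).trans (n4.trans ?_)
    have l1 : δ / 2048 ≤ δ / 512 - δ / 1024 - r * (5 / 8 * s) := by nlinarith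
    have l2 : 0 ≤ 3 / 2 * (2 * (C₁ * C₂) * e ^ 2 * (1 / (s ^ 3 * δ ^ 6))) := by positivity
    refine (div_le_div_of_nonneg_left l2 (by positivity) l1).trans (le_of_eq ?_)
    rw [hQ]
    field_simp
    ring
  have n5' : ‖DD r (sm r fun θ t => af r lam X θ t *
      (p2 (Zf r lam X w) θ t - uf X θ t * p1 (Zf r lam X w) θ t)) θ t / ta r lam X t‖ ≤
      18432 * ζ * Q := by
    rw [norm_div]
    refine (div_le_self (norm_nonneg _) x3).trans (n5.trans ?_)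
    have l1 : δ / 128 ≤ δ / 64 - δ / 1024 - r * (7 / 8 * s) := by nlinarith
    have l2 : 0 ≤ 3 / 2 * (96 * ζ * (1 / (s * δ))) := by positivity
    refine (div_le_div_of_nonneg_left l2 (by positivity) l1).trans ?_
    have l3 : 3 / 2 * (96 * ζ * (1 / (s * δ))) / (δ / 128) =
        18432 * ζ * (1 / (s ^ 1 * δ ^ 2)) := by
      rw [pow_one]
      field_simp
      ring
    rw [l3]
    exact mul_le_mul_of_nonneg_left q3 (by positivity)
  have total : ‖p1 X θ t * (Er r lam X θ t + Lin r lam X (yf r lam X w) θ t)‖ ≤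
      9 / 4 * C₃ * e ^ 2 * Q + 32 * ζ * Q + 6144 * (C₁ * C₂) * e ^ 2 * Q + 18432 * ζ * Q := by
    rw [key]
    refine (norm_sub_le _ _).trans (add_le_add ?_ n5')
    refine (norm_sub_le _ _).trans (add_le_add ?_ n4')
    exact (norm_add_le _ _).trans (add_le_add n1' n3')
  rw [norm_mul] at total
  have l1 : 7 / 8 * ‖Er r lam X θ t + Lin r lam X (yf r lam X w) θ t‖ ≤
      ‖p1 X θ t‖ * ‖Er r lam X θ t + Lin r lam X (yf r lam X w) θ t‖ :=
    mul_le_mul_of_nonneg_right x2 (norm_nonneg _)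
  have l2 : (3 * C₃ + 8000 * (C₁ * C₂) + 22000) * (ζ + e ^ 2) / (s ^ 3 * δ ^ 7) =
      (3 * C₃ + 8000 * (C₁ * C₂) + 22000) * (ζ + e ^ 2) * Q := by
    rw [hQ, mul_one_div]
  change ‖Er r lam X θ t + Lin r lam X (yf r lam X w) θ t‖ ≤ _
  rw [l2]
  have m1 : 0 ≤ C₃ * (e ^ 2 * Q) := by positivity
  have m2 : 0 ≤ C₁ * C₂ * (e ^ 2 * Q) := by positivity
  have m3 : 0 ≤ ζ * Q := by positivity
  have m4 : 0 ≤ C₃ * (ζ * Q) := by positivity
  have m5 : 0 ≤ C₁ * C₂ * (ζ * Q) := by positivity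
  have m6 : 0 ≤ e ^ 2 * Q := by positivity
  nlinarith [total, l1]

end Pool.Agent.NOne
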