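import Pool.Agent.NOne.KIda
import Pool.Agent.NOne.KRem
import Pool.Agent.NOne.KFou

/-!
# MP_74f563_an, n = 1, file KOm: the generating function `w` of the approximate foliation

`exists_w` : if the Fourier coefficients of `sg = E X_θ` are bounded by `A` at the resonances of
order at most `K`, then there is `w` with `Z = Sg - avg Sg - D w` small.

PROOF.  `g_l = cf l (sg r lam X)` is holomorphic on `UU (2s)` (`bd_sg`, `cf_hol`), hence on `UU s`.  For
`0 < |l| ≤ K` apply `interp` (KRem) to `g_l`, which gives `b_l`, `h_l` holomorphic on `UU s`,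
`g_l = b_l + h_l · dl r l`, `|b_l| ≤ (K + 2) e^{πKrs} A` (as `|l| ≤ K`).  Let `Q = Pm · p1 X`
(holomorphic on `Om (5δ/4) (2s)`), `c_l = (cf l Q + h_l) / (2πil)` for `0 < |l| ≤ K` and
`w₀ θ t = ∑_{0 < |l| ≤ K} c_l t e^{2πilθ}` (a finite sum; holomorphic on `Om δ' s` for every `δ'`:
`Hol.sum`, `hol_of_UU`, `hol_of_strip`), periodic in `θ`.
The function `Z₀ = Zf r lam X w₀` is holomorphic on `Om δ s` (`hol_Sg`, `avg_hol`, `Hol.hol_DD`),
periodic.  Its coefficients at `t ∈ UU s`: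
`cf 0 Z₀ = avg Sg - avg Sg - avg (DD r w₀) = 0` (`cf_zero`, `avg_DD`);
for `0 < |l| ≤ K`, by `cf_DD`, `cf_trig`: `cf l Z₀ = cf l Sg - dl r l t c_l`, and by `cf_p1`, `I1` and
`cf_DD`: `2πil cf l Sg = cf l (p1 Sg) = dl r l t cf l Q + cf l sg`, so
`2πil cf l Z₀ = cf l sg - dl r l t h_l = b_l`, `|cf l Z₀| ≤ |b_l| ≤ (K + 2) e^{πKrs} A`;
for `|l| > K`: `cf l Z₀ = cf l Sg` (`l ≠ 0`), so `|cf l Z₀| ≤ 5 e^{-2π|l|δ}` (`cf_bound`, `hol_Sg`).
`norm_le_of_cf` with `δ₁ = δ`, `δ₂ = δ/16`, `A := (K + 2) e^{πKrs} A`, `A' = 5` gives the bound for `Z₀`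
(the functions are used on `Om δ s`, `|Im θ| ≤ δ / 16`).
Reality: `w θ t = (w₀ θ t + conj (w₀ (conj θ) (conj t))) / 2` is again of this form (holomorphic,
periodic) and `RSym`; as `Sg` and `avg Sg` are `RSym` and `DD` commutes with the reflection,
`Zf w θ t = (Z₀ θ t + conj (Z₀ (conj θ) (conj t))) / 2`, which satisfies the same bound.
(Reflection of a holomorphic function: `F*(θ, t) = conj F(conj θ, conj t)` is holomorphic; since `w₀` is a
finite sum, it is enough to know it for functions of one variable: `DifferentiableAt.conj_conj` or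
`differentiableAt_conj_conj_iff`.)
-/

set_option autoImplicit false

namespace Pool.Agent.NOne

open Complex Set MeasureTheory

private theorem star_diff {g : ℂ → ℂ} {s : ℝ} (hg : DifferentiableOn ℂ g (UU s)) :
    DifferentiableOn ℂ (fun t => (starRingEnd ℂ) (g ((starRingEnd ℂ) t))) (UU s) := by
  intro t ht
  have h1 : DifferentiableAt ℂ g ((starRingEnd ℂ) t) :=
    hg.differentiableAt ((isOpen_UU s).mem_nhds (conj_mem_UU ht))
  have h2 := h1.conj_conj
  rw [Complex.conj_conj] at h2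
  exact h2.differentiableWithinAt

private theorem hol_exp (l : ℤ) (δ s : ℝ) :
    Hol δ s fun θ _ => exp (2 * Real.pi * I * l * θ) := by
  refine hol_of_strip (g := fun θ => exp (2 * Real.pi * I * l * θ)) ?_
  exact (Differentiable.cexp (by fun_prop)).differentiableOn

/-- trigonometric polynomials with holomorphic coefficients -/
private theorem hol_trig {c : ℤ → ℂ → ℂ} {S : Finset ℤ} {s : ℝ}
    (hc : ∀ l ∈ S, DifferentiableOn ℂ (c l) (UU s)) (δ : ℝ) :
    Hol δ s fun θ t => ∑ l ∈ S, c l t * exp (2 * Real.pi * I * l * θ) :=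
  Hol.sum fun l hl => (hol_of_UU (hc l hl)).mul (hol_exp l δ s)

private theorem per_exp (l : ℤ) (θ : ℂ) :
    exp (2 * Real.pi * I * l * (θ + 1)) = exp (2 * Real.pi * I * l * θ) := by
  have h1 : 2 * Real.pi * I * l * (θ + 1) = 2 * Real.pi * I * l * θ + l * (2 * Real.pi * I) := by
    ring
  rw [h1, exp_add, exp_int_mul_two_pi_mul_I, mul_one]

private theorem per_trig (c : ℤ → ℂ → ℂ) (S : Finset ℤ) :
    Per fun θ t => ∑ l ∈ S, c l t * exp (2 * Real.pi * I * l * θ) := by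
  intro θ t
  simp only [per_exp]

/-- reflection -/
private noncomputable def rf (F : ℂ → ℂ → ℂ) : ℂ → ℂ → ℂ :=
  fun θ t => (starRingEnd ℂ) (F ((starRingEnd ℂ) θ) ((starRingEnd ℂ) t))

private theorem rf_trig_hol {c : ℤ → ℂ → ℂ} {S : Finset ℤ} {s : ℝ}
    (hc : ∀ l ∈ S, DifferentiableOn ℂ (c l) (UU s)) (δ : ℝ) :
    Hol δ s (rf fun θ t => ∑ l ∈ S, c l t * exp (2 * Real.pi * I * l * θ)) := by
  have h1 : (rf fun θ t => ∑ l ∈ S, c l t * exp (2 * Real.pi * I * l * θ)) =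
      fun θ t => ∑ l ∈ S, (starRingEnd ℂ) (c l ((starRingEnd ℂ) t)) *
        exp (2 * Real.pi * I * ((-l : ℤ) : ℂ) * θ) := by
    funext θ t
    unfold rf
    rw [map_sum]
    refine Finset.sum_congr rfl fun l _ => ?_
    rw [map_mul, ← exp_conj]
    congr 2
    simp only [map_mul, conj_I, conj_ofReal, Complex.conj_conj, map_ofNat, map_intCast]
    push_cast
    ring
  rw [h1]
  exact Hol.sum fun l hl => (hol_of_UU (star_diff (hc l hl))).mul (hol_exp (-l) δ s)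

private theorem DD_rf (r : ℝ) (F : ℂ → ℂ → ℂ) (θ t : ℂ) :
    DD r (rf F) θ t = rf (DD r F) θ t := by
  unfold DD rf
  rw [map_div₀, map_sub, conj_ofReal]
  congr 3
  simp

private theorem cf_congr {F G : ℂ → ℂ → ℂ} {t : ℂ} (l : ℤ) (h : ∀ x : ℝ, F x t = G x t) :
    cf l F t = cf l G t := by
  unfold cf
  simp only [h]

theorem exists_w {σ M r b δ s ε A : ℝ} {K : ℕ} {lam X : ℂ → ℂ → ℂ} (hp : Par σ M r b δ s)
    (hl : LD σ M r lam) (hX : St r lam X b δ s) (hE : Bd δ s ε (Er r lam X)) (hA0 : 0 ≤ A)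
    (hA : ∀ l : ℤ, l ≠ 0 → |l| ≤ K → ∀ t : ℝ, |t| < 1 / 4 + s →
      (∃ m : ℤ, (l : ℝ) * (r * (1 + t)) = m) → ‖cf l (sg r lam X) t‖ ≤ A) :
    ∃ w : ℂ → ℂ → ℂ, (∀ δ' : ℝ, Hol δ' s w) ∧ Per w ∧ RSym w ∧
      Bd (δ / 16) s (2 * K * ((K + 2) * Real.exp (Real.pi * K * r * s) * A) *
        Real.exp (2 * Real.pi * K * (δ / 16)) +
        5 * Real.exp (-(2 * Real.pi * K * (δ - δ / 16))) / (δ - δ / 16)) (Zf r lam X w) := by
  classical
  have hδ := hp.δ_pos
  have hs := hp.s_pos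
  have hr := hp.r_pos
  have hrs := hp.rs
  have hrs0 : 0 < r * s := mul_pos hr hs
  have hrs1 : r * s ≤ δ := by nlinarith
  have hs8 : s ≤ 1 / 8 := hp.s_le.trans (by norm_num)
  have hr1 : r ≤ 1 := by
    have h1 := hp.r_le
    have h2 := hp.M_ge
    have h3 := hp.σ_le
    have h4 := hp.σ_pos
    nlinarith [mul_nonneg (sub_nonneg.2 h2) hr.le, mul_nonneg h4.le (sub_nonneg.2 h3)]
  have h2s : s ≤ 2 * s := by linarith
  have hUU : UU s ⊆ UU (2 * s) := UU_mono h2s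
  obtain ⟨hSg, hSgb, hSgp, hSgr⟩ := hol_Sg hp hl hX
  obtain ⟨hPm, -, hPmp, -⟩ := hol_Pm hp hl hX
  obtain ⟨hsg, hsgb, hsgp, hsgr⟩ := bd_sg hp hl hX hE
  have hp1X : Hol (2 * δ) (2 * s) (p1 X) := hX.hol.hol_p1
  have hp1Xp : Per (p1 X) := by
    intro θ t
    have h1 : (fun z => X z t) = fun z => X (z + 1) t - 1 := by
      funext z
      rw [hX.per]
      ring
    have h2 : deriv (fun z => X z t) θ = deriv (fun z => X z t) (θ + 1) := by
      conv_lhs => rw [h1]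
      rw [deriv_sub_const]
      exact deriv_comp_add_const (fun z => X z t) 1 θ
    exact h2.symm
  set Q : ℂ → ℂ → ℂ := fun θ t => Pm r lam X θ t * p1 X θ t with hQ
  have hQh : Hol (5 / 4 * δ) (2 * s) Q := hPm.mul (hp1X.mono (by linarith) le_rfl)
  have hQs : Hol (5 / 4 * δ) s Q := hQh.mono le_rfl h2s
  have hQp : Per Q := by
    intro θ t
    change Pm r lam X (θ + 1) t * p1 X (θ + 1) t = Pm r lam X θ t * p1 X θ t
    rw [hPmp, hp1Xp]
  have hsgs : Hol δ s (sg r lam X) := hsg.mono (by linarith) h2s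
  have hSgs : Hol δ s (Sg r lam X) := hSg.mono (by linarith) h2s
  have key : ∀ l : ℤ, ∃ b h : ℂ → ℂ, l ≠ 0 → |l| ≤ K →
      (DifferentiableOn ℂ b (UU s) ∧ DifferentiableOn ℂ h (UU s) ∧
        (∀ t ∈ UU s, cf l (sg r lam X) t = b t + h t * dl r l t) ∧
        ∀ t ∈ UU s, ‖b t‖ ≤ (K + 2) * Real.exp (Real.pi * K * r * s) * A) := by
    intro l
    by_cases hl0 : l ≠ 0 ∧ |l| ≤ (K : ℤ)
    · obtain ⟨b, h, h1, h2, h3, h4⟩ := interp (cf_hol hsgs hδ l) hs hs8 hr hr1 hl0.1 hA0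
        (hA l hl0.1 hl0.2)
      refine ⟨b, h, fun _ _ => ⟨h1, h2, h3, fun t ht => (h4 t ht).trans ?_⟩⟩
      have hlK : |(l : ℝ)| ≤ K := by exact_mod_cast hl0.2
      have h5 : Real.pi * |(l : ℝ)| * r * s ≤ Real.pi * K * r * s := by
        have := Real.pi_pos
        gcongr
      have h6 : Real.exp (Real.pi * |(l : ℝ)| * r * s) ≤ Real.exp (Real.pi * K * r * s) :=
        Real.exp_le_exp.2 h5
      gcongr
    · exact ⟨0, 0, fun h1 h2 => absurd ⟨h1, h2⟩ hl0⟩
  choose bl hh hbh using key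
  set S : Finset ℤ := (Finset.Icc (-(K : ℤ)) K).erase 0 with hS
  have hmem : ∀ l : ℤ, l ∈ S ↔ l ≠ 0 ∧ |l| ≤ (K : ℤ) := by
    intro l
    rw [hS, Finset.mem_erase, Finset.mem_Icc, abs_le]
  set c : ℤ → ℂ → ℂ := fun l t => (cf l Q t + hh l t) / (2 * Real.pi * I * l) with hc
  have hcd : ∀ l ∈ S, DifferentiableOn ℂ (c l) (UU s) := by
    intro l hl'
    obtain ⟨h1, h2⟩ := (hmem l).1 hl'
    exact ((cf_hol hQs (by linarith) l).add (hbh l h1 h2).2.1).div_const _
  set w₀ : ℂ → ℂ → ℂ := fun θ t => ∑ l ∈ S, c l t * exp (2 * Real.pi * I * l * θ) with hw₀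
  have hw₀h : ∀ δ' : ℝ, Hol δ' s w₀ := fun δ' => hol_trig hcd δ'
  have hw₀p : Per w₀ := per_trig c S
  have hw₁h : ∀ δ' : ℝ, Hol δ' s (rf w₀) := fun δ' => rf_trig_hol hcd δ'
  -- the error of `w₀`
  have hZ : Hol δ s (Zf r lam X w₀) :=
    (hSgs.sub (hol_of_UU (avg_hol hSgs hδ))).sub ((hw₀h (δ + r * s)).hol_DD hr.le le_rfl)
  have hZp : Per (Zf r lam X w₀) := by
    intro θ t
    change Sg r lam X (θ + 1) t - avg (Sg r lam X) t - DD r w₀ (θ + 1) t =
      Sg r lam X θ t - avg (Sg r lam X) t - DD r w₀ θ t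
    rw [hSgp, per_DD hw₀p]
  have hcf : ∀ l : ℤ, ∀ t ∈ UU s, cf l (Zf r lam X w₀) t =
      cf l (Sg r lam X) t - (if l = 0 then avg (Sg r lam X) t else 0) -
        dl r l t * (if l ∈ S then c l t else 0) := by
    intro l t ht
    have h1 := cf_sub (hSgs.sub (hol_of_UU (avg_hol hSgs hδ)))
      ((hw₀h (δ + r * s)).hol_DD hr.le le_rfl) hδ l ht
    have h2 := cf_sub hSgs (hol_of_UU (avg_hol hSgs hδ) : Hol δ s fun _ t => avg (Sg r lam X) t)
      hδ l ht
    have h3 := cf_DD (hw₀h δ) hδ hw₀p hr.le hrs1 l ht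
    have h4 := cf_trig S c l t
    have h5 := cf_of_t (avg (Sg r lam X)) l t
    rw [h2, h3, h5] at h1
    rw [hw₀] at h1 ⊢
    rw [h4] at h1
    exact h1
  have h2pi : ∀ l : ℤ, l ≠ 0 → (2 * Real.pi * I * l : ℂ) ≠ 0 := by
    intro l hl0
    have h1 : (Real.pi : ℂ) ≠ 0 := by exact_mod_cast Real.pi_ne_zero
    have h2 : (l : ℂ) ≠ 0 := by exact_mod_cast hl0
    exact mul_ne_zero (mul_ne_zero (mul_ne_zero two_ne_zero h1) I_ne_zero) h2
  have hcf1 : ∀ l : ℤ, l ≠ 0 → |l| ≤ (K : ℤ) → ∀ t ∈ UU s,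
      2 * Real.pi * I * l * cf l (Zf r lam X w₀) t = bl l t := by
    intro l hl0 hlK t ht
    have hlS : l ∈ S := (hmem l).2 ⟨hl0, hlK⟩
    rw [hcf l t ht, if_neg hl0, if_pos hlS, sub_zero]
    have h1 := cf_p1 hSgs hδ hSgp l ht
    have h2 : cf l (p1 (Sg r lam X)) t = cf l (fun θ t => DD r Q θ t + sg r lam X θ t) t := by
      refine cf_congr l fun x => ?_
      exact I1 hp hl hX (by simpa using hδ) (hUU ht)
    have hDQ : Hol δ s (DD r Q) := by
      refine hQs.hol_DD hr.le ?_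
      nlinarith
    have h3 := cf_add hDQ hsgs hδ l ht
    have h4 := cf_DD (hQs.mono (by linarith) le_rfl : Hol δ s Q) hδ hQp hr.le hrs1 l ht
    have h5 := (hbh l hl0 hlK).2.2.1 t ht
    rw [h2, h3, h4, h5] at h1
    rw [mul_sub, ← h1]
    have h6 : 2 * Real.pi * I * l * (dl r l t * c l t) = dl r l t * (cf l Q t + hh l t) := by
      rw [hc]
      field_simp [h2pi l hl0]
    rw [h6]
    ring
  have hZb : Bd (δ / 16) s (2 * K * ((K + 2) * Real.exp (Real.pi * K * r * s) * A) *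
        Real.exp (2 * Real.pi * K * (δ / 16)) +
        5 * Real.exp (-(2 * Real.pi * K * (δ - δ / 16))) / (δ - δ / 16))
        (Zf r lam X w₀) := by
    intro θ t hθ ht
    refine norm_le_of_cf hZ hδ hZp ht (A := (K + 2) * Real.exp (Real.pi * K * r * s) * A)
      (A' := 5) (δ₁ := δ) (δ₂ := δ / 16) (K := K) (by positivity) (by norm_num) (by linarith)
      (by linarith) hθ.le (by linarith) ?_ ?_ ?_
    · rw [hcf 0 t ht, if_pos rfl, if_neg (by rw [hmem]; simp), mul_zero, sub_zero, cf_zero,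
        sub_self]
    · intro l hl0 hlK
      have h1 := hcf1 l hl0 hlK t ht
      have h2 := (hbh l hl0 hlK).2.2.2 t ht
      rw [← h1, norm_mul] at h2
      have h3 : (1 : ℝ) ≤ ‖(2 * Real.pi * I * l : ℂ)‖ := by
        rw [norm_mul, norm_mul, norm_mul, norm_I, mul_one, norm_real, norm_intCast]
        have h4 : (1 : ℝ) ≤ |(l : ℝ)| := by
          have : (1 : ℤ) ≤ |l| := Int.one_le_abs hl0
          exact_mod_cast this
        have h5 : ‖(2 : ℂ)‖ = 2 := by simp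
        rw [h5, Real.norm_of_nonneg Real.pi_pos.le]
        nlinarith [Real.pi_gt_three]
      calc ‖cf l (Zf r lam X w₀) t‖ ≤
          ‖(2 * Real.pi * I * l : ℂ)‖ * ‖cf l (Zf r lam X w₀) t‖ :=
            le_mul_of_one_le_left (norm_nonneg _) h3
        _ ≤ _ := h2
    · intro l hlK
      have hl0 : l ≠ 0 := by
        rintro rfl
        simp at hlK
        omega
      have hlS : l ∉ S := by
        rw [hmem]
        intro h
        exact absurd h.2 (not_le.2 hlK)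
      rw [hcf l t ht, if_neg hl0, if_neg hlS, mul_zero, sub_zero, sub_zero]
      exact cf_bound hSgs hδ hSgp (hSgb.mono (by linarith) h2s le_rfl) l ht
  -- symmetrisation
  refine ⟨fun θ t => (w₀ θ t + rf w₀ θ t) / 2, ?_, ?_, ?_, ?_⟩
  · intro δ'
    exact ((hw₀h δ').add (hw₁h δ')).div (hol_const 2) fun _ _ _ _ => two_ne_zero
  · intro θ t
    have h1 : rf w₀ (θ + 1) t = rf w₀ θ t := by
      unfold rf
      rw [map_add, map_one, hw₀p]
    change (w₀ (θ + 1) t + rf w₀ (θ + 1) t) / 2 = (w₀ θ t + rf w₀ θ t) / 2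
    rw [h1, hw₀p]
  · intro θ t
    change (w₀ _ _ + rf w₀ _ _) / 2 = (starRingEnd ℂ) ((w₀ θ t + rf w₀ θ t) / 2)
    unfold rf
    rw [Complex.conj_conj, Complex.conj_conj, map_div₀, map_add, Complex.conj_conj, map_ofNat,
      add_comm]
  · intro θ t hθ ht
    have hZ' : Zf r lam X (fun θ t => (w₀ θ t + rf w₀ θ t) / 2) θ t =
        (Zf r lam X w₀ θ t + (starRingEnd ℂ) (Zf r lam X w₀ ((starRingEnd ℂ) θ)
          ((starRingEnd ℂ) t))) / 2 := by
      have h1 := DD_rf r w₀ θ t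
      have h2 : DD r (fun θ t => (w₀ θ t + rf w₀ θ t) / 2) θ t =
          (DD r w₀ θ t + DD r (rf w₀) θ t) / 2 := by
        unfold DD
        ring
      unfold Zf
      rw [h2, h1]
      unfold rf
      rw [map_sub, map_sub, hSgr, avg_real hSgr, Complex.conj_conj, Complex.conj_conj]
      ring
    rw [hZ', norm_div, Complex.norm_ofNat]
    have h1 := hZb θ t hθ ht
    have h2 := hZb ((starRingEnd ℂ) θ) ((starRingEnd ℂ) t) (by simpa using hθ) (conj_mem_UU ht)
    have h3 := norm_add_le (Zf r lam X w₀ θ t)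
      ((starRingEnd ℂ) (Zf r lam X w₀ ((starRingEnd ℂ) θ) ((starRingEnd ℂ) t)))
    rw [RCLike.norm_conj] at h3
    rw [div_le_iff₀ (by norm_num)]
    linarith

end Pool.Agent.NOne
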