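import Pool.Agent.NOne.KBas

/-!
# MP_74f563_an, n = 1, file KQ: the quadratic remainder, the change of the mean action

Let `y` be holomorphic on `Om (δ/256) (5s/8)` with `|y| ≤ e` there, `0 < e`, `16000 e ≤ σ δ`;
`X + y` means `fun θ t => X θ t + y θ t`.

Common preparation.  `D(X + y) = D X + D y`.  On `Om (δ/512) (5s/8)`: `|y| ≤ e ≤ 1000 e / δ` and
`|D y| ≤ (3/2) e / (δ/256 - δ/512 - r s) ≤ 1000 e / δ =: e'` (`bd_DD'`, `65536 r s ≤ δ`), `16 e' ≤ σ`.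
By `X_im_le`, `DD_X_norm`, `taylor_G` (with `e'`), for `G = p1 lam` (bound `1/4` on `RR σ`), `G = p2 lam`
(bound `9`), `G = lam` (bound `17`), at every point of `Om (δ/512) (5s/8)`:
`G(X + y, D X + D y) = G(X, D X) + p1 G · y + p2 G · D y + R`, `|R| ≤ 128 c e'² / σ²`, and
`|G(X + y, D X + D y) - G(X, D X)| ≤ 16 c e' / σ`, with `c` the bound of `G`; moreover
`(X + y, D(X + y)) ∈ RR σ`, so that `cmp r G (X + y)` and `R` are holomorphic on `Om (δ/512) (5s/8)`.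

PROOF of `quad_bd`.  `Er (X + y) - Er X - Lin y = R₁ - D((R₂)⁻)`, where `R₁`, `R₂` are the remainders of
`p1 lam` and `p2 lam` (use `p2 (p1 lam) = p1 (p2 lam)`, `LD.schwarz`; the linear terms of `p2 lam`
are exactly those in the definition of `Lin`).  `|R₁| ≤ C e'²/σ²`; `R₂` is bounded by `C e'²/σ²` on
`Om (δ/512) (5s/8)`, `R₂⁻` on `Om (δ/600) (5s/8)`, `D(R₂⁻)` on `Om (δ/2048) (5s/8)` by
`(3/2)(C e'²/σ²) / (δ/600 - δ/2048 - r s) ≤ C' e'² / (σ² δ) = C'' e² / (σ² δ³)`.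
PROOF of `tau_bd`.  `avg (Sg (X + y)) - avg (Sg X)` is holomorphic on `UU (5s/8)` and bounded by
`16 · 17 · e' / σ` (`avg_sub`, `avg_bound`); its second derivative on `UU (s/4)` is at most this divided by
`(s/8)(s/4)` (`cauchy_UU` twice).
-/

set_option autoImplicit false

namespace Pool.Agent.NOne

open Complex Set MeasureTheory

section private_lemmas

variable {σ M r b δ s e : ℝ} {lam X y G : ℂ → ℂ → ℂ} {θ t : ℂ}

private lemma kq_num (hp : Par σ M r b δ s) :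
    δ ≤ 1 / 8 ∧ r * (5 / 8 * s) ≤ δ / 100000 ∧ 0 ≤ r * (5 / 8 * s) := by
  have h1 := hp.δ_le
  have h2 := hp.σ_le
  have h3 := hp.rs
  have h4 := hp.δ_pos
  have h5 := hp.r_pos
  have h6 := hp.s_pos
  refine ⟨by linarith, by nlinarith, by positivity⟩

private lemma kq_Mr (hp : Par σ M r b δ s) : M * r ≤ 1 / 64 := by
  have h1 := hp.r_le
  have h4 : σ ^ 2 ≤ 1 := by
    have := hp.σ_pos
    have := hp.σ_le
    nlinarith
  nlinarith

private lemma kq_y (hp : Par σ M r b δ s) (hy : Hol (δ / 256) (5 / 8 * s) y) (he : 0 < e)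
    (hyb : Bd (δ / 256) (5 / 8 * s) e y) (hθ : |θ.im| < δ / 512) (ht : t ∈ UU (5 / 8 * s)) :
    ‖y θ t‖ ≤ 1000 * e / δ ∧ ‖DD r y θ t‖ ≤ 1000 * e / δ := by
  obtain ⟨n1, n2, n3⟩ := kq_num hp
  have h4 := hp.δ_pos
  have h6 := hp.s_pos
  have h7 := hp.s_le
  constructor
  · refine (hyb θ t (by linarith) ht).trans ?_
    rw [le_div_iff₀ h4]
    nlinarith
  · have h1 := bd_DD' (δ' := δ / 512) hy hyb hp.r_pos (by linarith) (by linarith) θ t hθ ht
    refine h1.trans ?_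
    have h8 : 0 < δ / 256 - δ / 512 - r * (5 / 8 * s) := by linarith
    rw [div_le_div_iff₀ h8 h4]
    have h9 : 3 / 2 * δ ≤ 1000 * (δ / 256 - δ / 512 - r * (5 / 8 * s)) := by linarith
    nlinarith

private lemma kq_e (hp : Par σ M r b δ s) (he : 0 < e) (he1 : 16000 * e ≤ σ * δ) :
    0 < 1000 * e / δ ∧ 16 * (1000 * e / δ) ≤ σ := by
  have h4 := hp.δ_pos
  refine ⟨by positivity, ?_⟩
  have e1 : 16 * (1000 * e / δ) = 16000 * e / δ := by ring
  rw [e1, div_le_iff₀ h4]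
  exact he1

/-- the remainder -/
private noncomputable def kqR (r : ℝ) (G X y : ℂ → ℂ → ℂ) : ℂ → ℂ → ℂ := fun θ t =>
  cmp r G (fun θ t => X θ t + y θ t) θ t - cmp r G X θ t -
    (cmp r (p1 G) X θ t * y θ t + cmp r (p2 G) X θ t * DD r y θ t)

private lemma kq_bd (hp : Par σ M r b δ s) (hX : St r lam X b δ s) (hG : HolR σ G) {c : ℝ}
    (hc : ∀ q ∈ RR σ, ‖G q.1 q.2‖ ≤ c) (hy : Hol (δ / 256) (5 / 8 * s) y) (he : 0 < e)
    (he1 : 16000 * e ≤ σ * δ) (hyb : Bd (δ / 256) (5 / 8 * s) e y) (hθ : |θ.im| < δ / 512)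
    (ht : t ∈ UU (5 / 8 * s)) :
    ‖kqR r G X y θ t‖ ≤ 128 * c * (1000 * e / δ) ^ 2 / σ ^ 2 ∧
      ‖cmp r G (fun θ t => X θ t + y θ t) θ t - cmp r G X θ t‖ ≤
        16 * c * (1000 * e / δ) / σ := by
  obtain ⟨a1, a2⟩ := kq_y hp hy he hyb hθ ht
  obtain ⟨a3, a4⟩ := kq_e hp he he1
  have h4 := hp.δ_pos
  have h6 := hp.s_pos
  have hθ' : |θ.im| < 3 / 2 * δ := by linarith
  have ht' : t ∈ UU (2 * s) := UU_mono (by linarith) ht
  have key := taylor_G hp.σ_pos hp.σ_le hG hc a3 a4 (X_im_le hp hX hθ' ht')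
    (DD_X_norm hp hX hθ' ht') a1 a2
  simp only [kqR, cmp, DD_add]
  exact key

private lemma kq_hol (hp : Par σ M r b δ s) (hX : St r lam X b δ s) (hG : HolR σ G)
    (hy : Hol (δ / 256) (5 / 8 * s) y) (he : 0 < e)
    (he1 : 16000 * e ≤ σ * δ) (hyb : Bd (δ / 256) (5 / 8 * s) e y) :
    Hol (δ / 512) (5 / 8 * s) (cmp r G fun θ t => X θ t + y θ t) := by
  obtain ⟨n1, n2, n3⟩ := kq_num hp
  have h4 := hp.δ_pos
  have h6 := hp.s_pos
  have g1 : Hol (δ / 256) (5 / 8 * s) (fun θ t => X θ t + y θ t) :=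
    (hX.hol.mono (by linarith) (by linarith)).add hy
  have g2 : Hol (δ / 512) (5 / 8 * s) (DD r fun θ t => X θ t + y θ t) :=
    g1.hol_DD hp.r_pos.le (by linarith)
  have g3 : Hol (δ / 512) (5 / 8 * s) (fun θ t => X θ t + y θ t) :=
    g1.mono (by linarith) le_rfl
  have g4 : DifferentiableOn ℂ (fun q : ℂ × ℂ => ((X q.1 q.2 + y q.1 q.2,
      DD r (fun θ t => X θ t + y θ t) q.1 q.2) : ℂ × ℂ)) (Om (δ / 512) (5 / 8 * s)) :=
    DifferentiableOn.prodMk g3 g2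
  have g5 : MapsTo (fun q : ℂ × ℂ => ((X q.1 q.2 + y q.1 q.2,
      DD r (fun θ t => X θ t + y θ t) q.1 q.2) : ℂ × ℂ)) (Om (δ / 512) (5 / 8 * s)) (RR σ) := by
    rintro ⟨θ, t⟩ ⟨hθ, ht⟩
    have hθ0 : |θ.im| < δ / 512 := hθ
    have ht0 : t ∈ UU (5 / 8 * s) := ht
    obtain ⟨a1, a2⟩ := kq_y hp hy he hyb hθ0 ht0
    obtain ⟨a3, a4⟩ := kq_e hp he he1
    have hθ' : |θ.im| < 3 / 2 * δ := by linarith
    have ht' : t ∈ UU (2 * s) := UU_mono (by linarith) ht0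
    have b1 := X_im_le hp hX hθ' ht'
    have b2 := DD_X_norm hp hX hθ' ht'
    have hσ := hp.σ_pos
    have hσ1 := hp.σ_le
    constructor
    · change |(X θ t + y θ t).im| < σ / 2
      have b3 := (Complex.abs_im_le_norm (y θ t)).trans a1
      rw [Complex.add_im]
      have b4 := abs_add_le (X θ t).im (y θ t).im
      linarith
    · change ‖DD r (fun θ t => X θ t + y θ t) θ t‖ < 4
      rw [DD_add]
      have b4 := norm_add_le (DD r X θ t) (DD r y θ t)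
      linarith
  exact DifferentiableOn.comp hG g4 g5

private lemma kq_holR (hp : Par σ M r b δ s) (hX : St r lam X b δ s) (hG : HolR σ G)
    (hy : Hol (δ / 256) (5 / 8 * s) y) (he : 0 < e)
    (he1 : 16000 * e ≤ σ * δ) (hyb : Bd (δ / 256) (5 / 8 * s) e y) :
    Hol (δ / 512) (5 / 8 * s) (kqR r G X y) := by
  obtain ⟨n1, n2, n3⟩ := kq_num hp
  have h4 := hp.δ_pos
  have h6 := hp.s_pos
  obtain ⟨q1, q2, -, -⟩ := hol_p_general (isOpen_RR σ) hG
  have g1 := kq_hol hp hX hG hy he he1 hyb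
  have g2 : Hol (δ / 512) (5 / 8 * s) (cmp r G X) :=
    (hol_cmp hp hX hG).mono (by linarith) (by linarith)
  have g3 : Hol (δ / 512) (5 / 8 * s) (cmp r (p1 G) X) :=
    (hol_cmp hp hX q1).mono (by linarith) (by linarith)
  have g4 : Hol (δ / 512) (5 / 8 * s) (cmp r (p2 G) X) :=
    (hol_cmp hp hX q2).mono (by linarith) (by linarith)
  have g5 : Hol (δ / 512) (5 / 8 * s) y := hy.mono (by linarith) le_rfl
  have g6 : Hol (δ / 512) (5 / 8 * s) (DD r y) := hy.hol_DD hp.r_pos.le (by linarith)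
  exact (g1.sub g2).sub ((g3.mul g5).add (g4.mul g6))

private lemma kq_id (hp : Par σ M r b δ s) (hl : LD σ M r lam) (hX : St r lam X b δ s)
    (hθ : |θ.im| < 3 / 2 * δ) (ht : t ∈ UU (2 * s)) :
    Er r lam (fun θ t => X θ t + y θ t) θ t - Er r lam X θ t - Lin r lam X y θ t =
      kqR r (p1 lam) X y θ t - DD r (sm r (kqR r (p2 lam) X y)) θ t := by
  have h1 : cmp r (p2 (p1 lam)) X θ t = cmp r (p1 (p2 lam)) X θ t :=
    (hl.schwarz hp.σ_pos (mem_RR hp hX hθ ht)).symm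
  simp only [Er, Lin, kqR, Pm, mo, DD, sm] at h1 ⊢
  rw [h1]
  ring

private lemma kq_lam (hp : Par σ M r b δ s) (hl : LD σ M r lam) :
    ∀ q ∈ RR σ, ‖lam q.1 q.2‖ ≤ 17 := by
  rintro ⟨x, η⟩ ⟨h1, h2⟩
  simp only at h1 h2
  have hσ := hp.σ_pos
  have h3 := hl.near x η (by linarith) (by linarith)
  have h4 := kq_Mr hp
  have h5 : ‖η ^ 2‖ ≤ 16 := by
    rw [norm_pow]
    have := norm_nonneg η
    nlinarith
  calc ‖lam x η‖ = ‖(lam x η - η ^ 2) + η ^ 2‖ := by ring_nf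
    _ ≤ ‖lam x η - η ^ 2‖ + ‖η ^ 2‖ := norm_add_le _ _
    _ ≤ 17 := by linarith

private lemma kq_p1 (hp : Par σ M r b δ s) (hl : LD σ M r lam) :
    ∀ q ∈ RR σ, ‖p1 lam q.1 q.2‖ ≤ 1 / 4 := fun q hq => (hl.bounds' hp hq).1

private lemma kq_p2 (hp : Par σ M r b δ s) (hl : LD σ M r lam) :
    ∀ q ∈ RR σ, ‖p2 lam q.1 q.2‖ ≤ 9 := by
  rintro ⟨x, η⟩ hq
  have h3 := (hl.bounds' hp hq).2.1
  have h2 : ‖η‖ < 4 := hq.2
  have h5 : ‖2 * η‖ ≤ 8 := by
    rw [norm_mul, Complex.norm_ofNat]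
    linarith
  calc ‖p2 lam x η‖ = ‖(p2 lam x η - 2 * η) + 2 * η‖ := by ring_nf
    _ ≤ ‖p2 lam x η - 2 * η‖ + ‖2 * η‖ := norm_add_le _ _
    _ ≤ 9 := by linarith

end private_lemmas

theorem quad_bd : ∃ C : ℝ, 1 ≤ C ∧ ∀ {σ M r b δ s e : ℝ} {lam X y : ℂ → ℂ → ℂ},
    Par σ M r b δ s → LD σ M r lam → St r lam X b δ s → Hol (δ / 256) (5 / 8 * s) y → 0 < e →
    16000 * e ≤ σ * δ → Bd (δ / 256) (5 / 8 * s) e y →
    Bd (δ / 2048) (s / 2) (C * e ^ 2 / (σ ^ 2 * δ ^ 3))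
      (fun θ t => Er r lam (fun θ t => X θ t + y θ t) θ t - Er r lam X θ t -
        Lin r lam X y θ t) := by
  refine ⟨10 ^ 13, by norm_num, ?_⟩
  intro σ M r b δ s e lam X y hp hl hX hy he he1 hyb θ t hθ ht
  obtain ⟨n1, n2, n3⟩ := kq_num hp
  have h4 := hp.δ_pos
  have h6 := hp.s_pos
  have h7 := hp.s_le
  have hσ := hp.σ_pos
  have ht1 : t ∈ UU (5 / 8 * s) := UU_mono (by linarith) ht
  have ht2 : t ∈ UU (2 * s) := UU_mono (by linarith) ht
  obtain ⟨-, c1, c2, -⟩ := hl.holR hσ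
  change ‖Er r lam (fun θ t => X θ t + y θ t) θ t - Er r lam X θ t - Lin r lam X y θ t‖ ≤ _
  rw [kq_id hp hl hX (by linarith) ht2]
  have d1 := (kq_bd (θ := θ) hp hX c1 (kq_p1 hp hl) hy he he1 hyb (by linarith) ht1).1
  have d2 : Bd (δ / 512) (5 / 8 * s) (128 * 9 * (1000 * e / δ) ^ 2 / σ ^ 2)
      (kqR r (p2 lam) X y) := fun θ t hθ ht =>
    (kq_bd hp hX c2 (kq_p2 hp hl) hy he he1 hyb hθ ht).1
  have d3 := kq_holR hp hX c2 hy he he1 hyb
  have d4 := bd_DD' (δ' := δ / 2048) (d3.hol_sm (δ' := δ / 600) hp.r_pos.le (by linarith))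
    (d2.bd_sm (δ' := δ / 600) hp.r_pos.le (by linarith)) hp.r_pos (by linarith)
    (by linarith) θ t hθ ht1
  have h8 : 0 < δ / 600 - δ / 2048 - r * (5 / 8 * s) := by linarith
  have d5 : 3 / 2 * (128 * 9 * (1000 * e / δ) ^ 2 / σ ^ 2) /
      (δ / 600 - δ / 2048 - r * (5 / 8 * s)) ≤
        1300 / δ * (128 * 9 * (1000 * e / δ) ^ 2 / σ ^ 2) := by
    rw [div_le_iff₀ h8]
    have h9 : 3 / 2 ≤ 1300 / δ * (δ / 600 - δ / 2048 - r * (5 / 8 * s)) := by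
      rw [div_mul_eq_mul_div, le_div_iff₀ h4]
      linarith
    have h10 : 0 ≤ 128 * 9 * (1000 * e / δ) ^ 2 / σ ^ 2 := by positivity
    calc 3 / 2 * (128 * 9 * (1000 * e / δ) ^ 2 / σ ^ 2) ≤
          1300 / δ * (δ / 600 - δ / 2048 - r * (5 / 8 * s)) *
            (128 * 9 * (1000 * e / δ) ^ 2 / σ ^ 2) := mul_le_mul_of_nonneg_right h9 h10
      _ = _ := by ring
  refine (norm_sub_le _ _).trans ((add_le_add d1 (d4.trans d5)).trans ?_)
  have f1 : 128 * (1 / 4) * (1000 * e / δ) ^ 2 / σ ^ 2 +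
      1300 / δ * (128 * 9 * (1000 * e / δ) ^ 2 / σ ^ 2) =
      (32 * 10 ^ 6 * δ + 1300 * 128 * 9 * 10 ^ 6) * (e ^ 2 / (σ ^ 2 * δ ^ 3)) := by
    field_simp
    ring
  rw [f1, mul_div_assoc]
  refine mul_le_mul_of_nonneg_right ?_ (by positivity)
  nlinarith

theorem tau_bd : ∃ C : ℝ, 1 ≤ C ∧ ∀ {σ M r b δ s e : ℝ} {lam X y : ℂ → ℂ → ℂ},
    Par σ M r b δ s → LD σ M r lam → St r lam X b δ s → Hol (δ / 256) (5 / 8 * s) y → 0 < e →
    16000 * e ≤ σ * δ → Bd (δ / 256) (5 / 8 * s) e y →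
    ∀ t ∈ UU (s / 4), ‖ta r lam (fun θ t => X θ t + y θ t) t - ta r lam X t‖ ≤
      C * e / (σ * δ * s ^ 2) := by
  refine ⟨10 ^ 7, by norm_num, ?_⟩
  intro σ M r b δ s e lam X y hp hl hX hy he he1 hyb t ht
  have h4 := hp.δ_pos
  have h6 := hp.s_pos
  have h7 := hp.s_le
  have hσ := hp.σ_pos
  obtain ⟨c0, -⟩ := hl.holR hσ
  have g1 := kq_hol hp hX c0 hy he he1 hyb
  have g2 : Hol (δ / 512) (5 / 8 * s) (cmp r lam X) :=
    (hol_cmp hp hX c0).mono (by linarith) (by linarith)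
  have hδ : 0 < δ / 512 := by linarith
  have g3 : DifferentiableOn ℂ (avg (Sg r lam fun θ t => X θ t + y θ t)) (UU (5 / 8 * s)) :=
    avg_hol g1 hδ
  have g4 : DifferentiableOn ℂ (avg (Sg r lam X)) (UU (5 / 8 * s)) := avg_hol g2 hδ
  set c : ℝ := 16 * 17 * (1000 * e / δ) / σ with hc
  have g5 : Bd (δ / 512) (5 / 8 * s) c (fun θ t =>
      cmp r lam (fun θ t => X θ t + y θ t) θ t - cmp r lam X θ t) := fun θ t hθ ht =>
    (kq_bd hp hX c0 (kq_lam hp hl) hy he he1 hyb hθ ht).2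
  set g : ℂ → ℂ := fun t => avg (Sg r lam fun θ t => X θ t + y θ t) t - avg (Sg r lam X) t
    with hg
  have g6 : DifferentiableOn ℂ g (UU (5 / 8 * s)) := g3.sub g4
  have g7 : ∀ t ∈ UU (5 / 8 * s), ‖g t‖ ≤ c := by
    intro t ht
    have e1 : g t = avg (fun θ t => cmp r lam (fun θ t => X θ t + y θ t) θ t -
        cmp r lam X θ t) t := (avg_sub g1 g2 hδ ht).symm
    rw [e1]
    exact avg_bound g5 hδ ht
  have g8 := cauchy_UU (s' := s / 2) g6 g7 (by linarith)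
  have g9 := cauchy_UU (s' := s / 4) ((g6.deriv (isOpen_UU _)).mono (UU_mono (by linarith)))
    g8 (by linarith) t ht
  have k1 : ∀ t ∈ UU (5 / 8 * s), deriv g t =
      ch r lam (fun θ t => X θ t + y θ t) t - ch r lam X t := by
    intro t ht
    have hn := (isOpen_UU (5 / 8 * s)).mem_nhds ht
    exact deriv_fun_sub (g3.differentiableAt hn) (g4.differentiableAt hn)
  have ht0 : t ∈ UU (5 / 8 * s) := UU_mono (by linarith) ht
  have hn0 := (isOpen_UU (5 / 8 * s)).mem_nhds ht0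
  have k2 : deriv (deriv g) t = ta r lam (fun θ t => X θ t + y θ t) t - ta r lam X t := by
    have k3 : deriv g =ᶠ[nhds t] fun t => ch r lam (fun θ t => X θ t + y θ t) t -
        ch r lam X t := by
      filter_upwards [hn0] with z hz
      exact k1 z hz
    rw [k3.deriv_eq]
    exact deriv_fun_sub (((g3.deriv (isOpen_UU _))).differentiableAt hn0)
      (((g4.deriv (isOpen_UU _))).differentiableAt hn0)
  rw [← k2]
  refine g9.trans ?_
  have f1 : c / (5 / 8 * s - s / 2) / (s / 2 - s / 4) =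
      16 * 17 * 1000 * 32 * (e / (σ * δ * s ^ 2)) := by
    rw [hc]
    field_simp
    ring
  rw [f1, mul_div_assoc]
  refine mul_le_mul_of_nonneg_right (by norm_num) (by positivity)

end Pool.Agent.NOne
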