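import Mathlib

/-!
# MP_74f563_an, n = 1, file KRea: exact solution of the cohomological equation at a resonance

Let `k ρ = m` be an integer, `c = (k - 1) / 2`, and let `Sig`, `g`, `e` be 1-periodic with
`Sig' = (g(· + ρ) - g) / r + e`.

PROOF of `omega_real`.  Put `S_j = Sig(θ + jρ)`, `g_j = g(θ + jρ)`, `e_j = e(θ + jρ)`; `S_k = S_0`,
`g_k = g_0` because `kρ = m ∈ ℤ`.
(1) `ω₁(θ) = (r / k) ∑_{j < k} (j - c) S_j`.  Then
`ω₁(θ + ρ) - ω₁(θ) = (r / k) ∑_{j<k} (j - c)(S_{j+1} - S_j) = (r / k) (k S_0 - ∑_{j<k} S_j)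
 = r (Sig θ - (1/k) ∑ S_j)` (summation by parts: `∑_{j<k} (j - c)(x_{j+1} - x_j) =
 (k - 1 - c) x_k + c x_0 - ∑_{1 ≤ j < k} x_j`, and for `x_k = x_0` this is `k x_0 - ∑_{j<k} x_j`).
(2) `ω₁'(θ) = (r / k) ∑ (j - c) ((g_{j+1} - g_j) / r + e_j) = g(θ) - G(θ) + (r / k) ∑ (j - c) e_j`, by
the same summation by parts, `G(θ) = (1 / k) ∑_{j<k} g_j`.
(3) `G` is continuous, 1-periodic and ρ-periodic.  Let `κ = ∫₀¹ G` and `ω₂(θ) = ∫₀^θ (G - κ)`.  Then
`ω₂` is 1-periodic (mean zero), and `ω₂(θ + ρ) - ω₂(θ) = ∫_θ^{θ+ρ} (G - κ) =: d` does not depend on `θ`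
(`G` is ρ-periodic), and `k d = ω₂(θ + kρ) - ω₂(θ) = 0` (as `kρ ∈ ℤ`), so `d = 0`.
`ω = ω₁ + ω₂` has `ω' = g + (r / k) ∑ (j - c) e_j - κ` and `ω(θ + ρ) - ω(θ) = r (Sig - (1/k) ∑ S_j)`.

`sum_abs_le`: `∑_{j < k} |j - (k - 1) / 2| ≤ k² / 4` (for even `k = 2a`: `2 ∑_{i<a} (i + 1/2) = a²`; for
odd `k = 2a + 1`: `2 ∑_{i ≤ a} i = a (a + 1)`); or by Cauchy's inequality and
`∑ (j - c)² = k (k² - 1) / 12` one gets `≤ k² / √12`, which is NOT enough; use the explicit sums, for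
instance by induction `k → k + 2` or with `|x| ≤ x²/k + k/4`:
`∑ |j - c| ≤ (1/k) ∑ (j-c)² + k · k / 4`, too weak as well; so use parity.
-/

set_option autoImplicit false

namespace Pool.Agent.NOne

open Set MeasureTheory

private theorem parts_aux (c : ℝ) (x : ℕ → ℝ) (n : ℕ) :
    ∑ j ∈ Finset.range n, ((j : ℝ) - c) * (x (j + 1) - x j) =
      ((n : ℝ) - c) * x n + c * x 0 - ∑ j ∈ Finset.range n, x (j + 1) := by
  induction n with
  | zero => simp
  | succ n ih =>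
    rw [Finset.sum_range_succ, Finset.sum_range_succ, ih]
    push_cast
    ring

private theorem shift_sum {k : ℕ} {x : ℕ → ℝ} (hx : x k = x 0) :
    ∑ j ∈ Finset.range k, x (j + 1) = ∑ j ∈ Finset.range k, x j := by
  have h1 := Finset.sum_range_succ x k
  have h2 := Finset.sum_range_succ' x k
  rw [h1, hx] at h2
  linarith

private theorem parts {k : ℕ} {x : ℕ → ℝ} (hx : x k = x 0) :
    ∑ j ∈ Finset.range k, ((j : ℝ) - ((k : ℝ) - 1) / 2) * (x (j + 1) - x j) =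
      k * x 0 - ∑ j ∈ Finset.range k, x j := by
  rw [parts_aux, shift_sum hx, hx]
  ring

theorem omega_real {r ρ : ℝ} {k : ℕ} {m : ℤ} (hr : 0 < r) (hk : 0 < k) (hρ : (k : ℝ) * ρ = m)
    {Sig g e : ℝ → ℝ} (hg : Continuous g) (hgp : ∀ θ, g (θ + 1) = g θ)
    (hep : ∀ θ, e (θ + 1) = e θ) (hSp : ∀ θ, Sig (θ + 1) = Sig θ)
    (hS : ∀ θ, HasDerivAt Sig ((g (θ + ρ) - g θ) / r + e θ) θ) :
    ∃ (ω : ℝ → ℝ) (κ : ℝ), (∀ θ, ω (θ + 1) = ω θ) ∧
      (∀ θ, HasDerivAt ω (g θ + r / k * ∑ j ∈ Finset.range k,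
        ((j : ℝ) - ((k : ℝ) - 1) / 2) * e (θ + j * ρ) - κ) θ) ∧
      ∀ θ, ω (θ + ρ) - ω θ = r * (Sig θ - 1 / k * ∑ j ∈ Finset.range k, Sig (θ + j * ρ)) := by
  have hk0 : (k : ℝ) ≠ 0 := by exact_mod_cast hk.ne'
  have hgm : ∀ θ, g (θ + k * ρ) = g θ := by
    intro θ
    have h1 : Function.Periodic g ((m : ℝ) * 1) := Function.Periodic.int_mul hgp m
    rw [hρ, ← mul_one (m : ℝ)]
    exact h1 θ
  have hSm : ∀ θ, Sig (θ + k * ρ) = Sig θ := by
    intro θ
    have h1 : Function.Periodic Sig ((m : ℝ) * 1) := Function.Periodic.int_mul hSp m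
    rw [hρ, ← mul_one (m : ℝ)]
    exact h1 θ
  let G : ℝ → ℝ := fun θ => 1 / k * ∑ j ∈ Finset.range k, g (θ + j * ρ)
  have hGc : Continuous G := by
    refine continuous_const.mul (continuous_finsetSum _ fun j _ => ?_)
    exact hg.comp (continuous_id.add continuous_const)
  have hGp : ∀ θ, G (θ + 1) = G θ := by
    intro θ
    simp only [G]
    congr 1
    refine Finset.sum_congr rfl fun j _ => ?_
    rw [show θ + 1 + (j : ℝ) * ρ = θ + j * ρ + 1 by ring, hgp]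
  have hGr : ∀ θ, G (θ + ρ) = G θ := by
    intro θ
    simp only [G]
    congr 1
    have h1 := shift_sum (k := k) (x := fun j => g (θ + j * ρ)) (by
      simp only [Nat.cast_zero, zero_mul, add_zero]
      exact hgm θ)
    rw [← h1]
    refine Finset.sum_congr rfl fun j _ => ?_
    congr 1
    push_cast
    ring
  let κ : ℝ := ∫ t in (0 : ℝ)..1, G t
  let H : ℝ → ℝ := fun t => G t - κ
  have hHc : Continuous H := hGc.sub continuous_const
  have hH1 : Function.Periodic H 1 := fun θ => by simp only [H, hGp]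
  have hHr : Function.Periodic H ρ := fun θ => by simp only [H, hGr]
  have hHi : ∀ a b : ℝ, IntervalIntegrable H volume a b := fun a b => hHc.intervalIntegrable a b
  have hH0 : ∫ t in (0 : ℝ)..1, H t = 0 := by
    simp only [H]
    rw [intervalIntegral.integral_sub (hGc.intervalIntegrable _ _)
      (continuous_const.intervalIntegrable _ _)]
    simp [κ]
  have hdiff : ∀ a b : ℝ, (∫ t in (0 : ℝ)..b, H t) - ∫ t in (0 : ℝ)..a, H t =
      ∫ t in a..b, H t := fun a b => intervalIntegral.integral_interval_sub_left (hHi _ _) (hHi _ _)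
  have hHd : ∫ t in (0 : ℝ)..ρ, H t = 0 := by
    have h1 := hHr.intervalIntegral_add_zsmul_eq (k : ℤ) 0 hHi
    have h2 := hH1.intervalIntegral_add_zsmul_eq m 0 hHi
    simp only [zero_add, zsmul_eq_mul, Int.cast_natCast, mul_one] at h1 h2
    rw [hρ, h2, hH0, mul_zero] at h1
    rcases mul_eq_zero.1 h1.symm with h3 | h3
    · exact absurd h3 hk0
    · exact h3
  refine ⟨fun θ => r / k * ∑ j ∈ Finset.range k, ((j : ℝ) - ((k : ℝ) - 1) / 2) *
    Sig (θ + j * ρ) + ∫ t in (0 : ℝ)..θ, H t, κ, ?_, ?_, ?_⟩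
  · intro θ
    have h1 := hdiff θ (θ + 1)
    have h2 := hH1.intervalIntegral_add_eq θ 0
    rw [zero_add, hH0] at h2
    rw [h2] at h1
    have h3 : ∀ j : ℕ, Sig (θ + 1 + j * ρ) = Sig (θ + j * ρ) := by
      intro j
      rw [show θ + 1 + (j : ℝ) * ρ = θ + j * ρ + 1 by ring, hSp]
    simp only [h3]
    linarith
  · intro θ
    have h1 : HasDerivAt (fun θ => r / k * ∑ j ∈ Finset.range k, ((j : ℝ) - ((k : ℝ) - 1) / 2) *
        Sig (θ + j * ρ)) (r / k * ∑ j ∈ Finset.range k, ((j : ℝ) - ((k : ℝ) - 1) / 2) *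
        ((g (θ + j * ρ + ρ) - g (θ + j * ρ)) / r + e (θ + j * ρ))) θ := by
      refine HasDerivAt.const_mul _ (HasDerivAt.fun_sum fun j _ => HasDerivAt.const_mul _ ?_)
      exact HasDerivAt.comp_add_const θ (j * ρ) (hS (θ + j * ρ))
    have h2 : HasDerivAt (fun θ => ∫ t in (0 : ℝ)..θ, H t) (H θ) θ :=
      (hHc.integral_hasStrictDerivAt 0 θ).hasDerivAt
    have h3 := h1.add h2
    refine h3.congr_deriv ?_
    have h4 := parts (k := k) (x := fun j => g (θ + j * ρ)) (by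
      simp only [Nat.cast_zero, zero_mul, add_zero]
      exact hgm θ)
    simp only [Nat.cast_zero, zero_mul, add_zero] at h4
    have h5 : ∑ j ∈ Finset.range k, ((j : ℝ) - ((k : ℝ) - 1) / 2) *
        ((g (θ + j * ρ + ρ) - g (θ + j * ρ)) / r + e (θ + j * ρ)) =
        (k * g θ - ∑ j ∈ Finset.range k, g (θ + j * ρ)) / r +
        ∑ j ∈ Finset.range k, ((j : ℝ) - ((k : ℝ) - 1) / 2) * e (θ + j * ρ) := by
      rw [← h4, Finset.sum_div, ← Finset.sum_add_distrib]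
      refine Finset.sum_congr rfl fun j _ => ?_
      have h6 : θ + (j : ℝ) * ρ + ρ = θ + ((j + 1 : ℕ) : ℝ) * ρ := by
        push_cast
        ring
      rw [h6]
      ring
    rw [h5]
    simp only [H, G]
    generalize ∑ j ∈ Finset.range k, g (θ + j * ρ) = SG
    generalize ∑ j ∈ Finset.range k, ((j : ℝ) - ((k : ℝ) - 1) / 2) * e (θ + j * ρ) = SE
    field_simp
    ring
  · intro θ
    have h1 := hdiff θ (θ + ρ)
    have h2 := hHr.intervalIntegral_add_eq θ 0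
    rw [zero_add, hHd] at h2
    rw [h2] at h1
    have h4 := parts (k := k) (x := fun j => Sig (θ + j * ρ)) (by
      simp only [Nat.cast_zero, zero_mul, add_zero]
      exact hSm θ)
    simp only [Nat.cast_zero, zero_mul, add_zero] at h4
    have h5 : ∑ j ∈ Finset.range k, ((j : ℝ) - ((k : ℝ) - 1) / 2) * Sig (θ + ρ + j * ρ) =
        (k * Sig θ - ∑ j ∈ Finset.range k, Sig (θ + j * ρ)) +
        ∑ j ∈ Finset.range k, ((j : ℝ) - ((k : ℝ) - 1) / 2) * Sig (θ + j * ρ) := by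
      rw [← h4, ← Finset.sum_add_distrib]
      refine Finset.sum_congr rfl fun j _ => ?_
      have h6 : θ + ρ + (j : ℝ) * ρ = θ + ((j + 1 : ℕ) : ℝ) * ρ := by
        push_cast
        ring
      rw [h6]
      ring
    beta_reduce
    rw [h5]
    have h7 : (∫ t in (0 : ℝ)..(θ + ρ), H t) = ∫ t in (0 : ℝ)..θ, H t := by linarith
    rw [h7]
    generalize ∑ j ∈ Finset.range k, Sig (θ + j * ρ) = SG
    generalize ∑ j ∈ Finset.range k, ((j : ℝ) - ((k : ℝ) - 1) / 2) * Sig (θ + j * ρ) = SE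
    generalize (∫ t in (0 : ℝ)..θ, H t) = I
    field_simp
    ring

theorem sum_abs_le (k : ℕ) :
    ∑ j ∈ Finset.range k, |(j : ℝ) - ((k : ℝ) - 1) / 2| ≤ (k : ℝ) ^ 2 / 4 := by
  induction k using Nat.twoStepInduction with
  | zero => simp
  | one => norm_num
  | more k ih _ =>
    rw [Finset.sum_range_succ, Finset.sum_range_succ']
    have h1 : ∀ j : ℕ, |((j + 1 : ℕ) : ℝ) - (((k + 2 : ℕ) : ℝ) - 1) / 2| =
        |(j : ℝ) - ((k : ℝ) - 1) / 2| := by
      intro j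
      congr 1
      push_cast
      ring
    simp only [h1]
    have h2 : |((0 : ℕ) : ℝ) - (((k + 2 : ℕ) : ℝ) - 1) / 2| = ((k : ℝ) + 1) / 2 := by
      have h3 : ((0 : ℕ) : ℝ) - (((k + 2 : ℕ) : ℝ) - 1) / 2 = -(((k : ℝ) + 1) / 2) := by
        push_cast
        ring
      rw [h3, abs_neg, abs_of_nonneg (by positivity)]
    have h4 : |(k : ℝ) - ((k : ℝ) - 1) / 2| = ((k : ℝ) + 1) / 2 := by
      have h3 : (k : ℝ) - ((k : ℝ) - 1) / 2 = ((k : ℝ) + 1) / 2 := by ring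
      rw [h3, abs_of_nonneg (by positivity)]
    rw [h2, h4]
    push_cast
    nlinarith [ih]

end Pool.Agent.NOne
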