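import Pool.Agent.NOne.KNE
import Pool.Agent.NOne.KQ

/-!
# MP_74f563_an, n = 1, file KStep: one Newton step

`geo_step`.  PROOF.  `X' = X + y`.  Periodicity and reality: sums.  On
`Om (2 (δ/4096)) (2 (s/4096)) ⊆ Om (δ/2048) (s/2048)`, by Cauchy's estimates from `Om (δ/256) (5s/8)`:
`|p1 y| ≤ e / (δ/256 - δ/2048) ≤ 512 e / δ`, `|p2 y| ≤ 2 e / s`, `|p1 (p1 y)| ≤ 10⁶ e / δ²`; all are at
most `C e / (σ δ² s²)`, so the bounds `b0`, `b1`, `b2`, `b11` hold with `b + C e / (σ δ² s²)`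
(`p1 (X + y) = p1 X + p1 y` on the domain, ...).  `tau`: `tau_bd` (`UU (s/4096) ⊆ UU (s/4)`,
`C e / (σ δ s²) ≤ C e / (σ δ² s²)`).

`step`.  PROOF.  Let `e₀ = C₁ (ε + ζ) / (s² δ³)` be the bound of `bd_yf`, positive.  The hypothesis
`C (ε + ζ) ≤ σ (δ s)⁹` with `C ≥ 16000 C₁` gives `16000 e₀ ≤ σ δ`.  `geo_step` with `e = e₀`:
`C e₀ / (σ δ² s²) ≤ C' (ε + ζ) / (σ (δ s)⁹)`.  The bound of `y` on the small domain is `bd_yf`.  The new
error: `Er X' = (Er X + Lin y) + (Er X' - Er X - Lin y)`, `new_error_bd` and `quad_bd` (`e₀² / (σ² δ³) ≤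
C (ε + ζ)² / (σ² s⁴ δ⁹)`), all bounded by `C (ζ + (ε + ζ)²) / (σ² (δ s)⁹)` (`δ, s, σ ≤ 1`), on
`Om (δ/4096) (s/4096)`.  The Jacobian: `J3` at real points and `bd_Kf'`.
Choose one `C` larger than all constants.
-/

set_option autoImplicit false

namespace Pool.Agent.NOne

open Complex Set MeasureTheory

private lemma ks_mono {r b b' δ s : ℝ} {lam X : ℂ → ℂ → ℂ} (h : St r lam X b δ s)
    (hb : b ≤ b') : St r lam X b' δ s :=
  ⟨h.per, h.real, h.hol, h.b0.mono le_rfl le_rfl hb, h.b1.mono le_rfl le_rfl hb,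
    h.b2.mono le_rfl le_rfl hb, h.b11.mono le_rfl le_rfl hb,
    fun t ht => (h.tau t ht).trans (by linarith)⟩

private lemma ks_pow {δ s : ℝ} (hδ : 0 < δ) (hδ1 : δ ≤ 1) (hs : 0 < s) (hs1 : s ≤ 1) {m n : ℕ}
    (hm : m ≤ 9) (hn : n ≤ 9) : (δ * s) ^ 9 ≤ δ ^ m * s ^ n := by
  rw [mul_pow]
  exact mul_le_mul (pow_le_pow_of_le_one hδ.le hδ1 hm) (pow_le_pow_of_le_one hs.le hs1 hn)
    (by positivity) (by positivity)

private lemma ks_le {A C q d d' : ℝ} (hC : 0 ≤ C) (hAC : A ≤ C) (hq : 0 ≤ q) (hd : 0 < d)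
    (hdd : d ≤ d') : A * q / d' ≤ C * q / d :=
  div_le_div₀ (mul_nonneg hC hq) (mul_le_mul_of_nonneg_right hAC hq) hd hdd

theorem geo_step : ∃ C : ℝ, 1 ≤ C ∧ ∀ {σ M r b δ s e : ℝ} {lam X y : ℂ → ℂ → ℂ},
    Par σ M r b δ s → LD σ M r lam → St r lam X b δ s → Hol (δ / 256) (5 / 8 * s) y → 0 < e →
    16000 * e ≤ σ * δ → Bd (δ / 256) (5 / 8 * s) e y → Per y → RSym y →
    St r lam (fun θ t => X θ t + y θ t) (b + C * e / (σ * δ ^ 2 * s ^ 2)) (δ / 4096)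
      (s / 4096) := by
  obtain ⟨C₂, hC₂, hT⟩ := tau_bd
  refine ⟨C₂ + 1000000, by linarith, ?_⟩
  intro σ M r b δ s e lam X y hp hl hX hy he he1 hb hyP hyR
  have hs := hp.s_pos
  have hδ := hp.δ_pos
  have hσ := hp.σ_pos
  have hσ1 := hp.σ_le
  have hs1 : s ≤ 1 := hp.s_le.trans (by norm_num)
  have hδ1 : δ ≤ 1 := by
    have h1 := hp.δ_le
    linarith
  have hd0 : 0 < σ * δ ^ 2 * s ^ 2 := by positivity
  have hδδ : δ ^ 2 ≤ δ := by nlinarith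
  have hss : s ^ 2 ≤ s := by nlinarith
  have hσδ : σ * δ ^ 2 ≤ δ ^ 2 := by
    have := mul_le_mul_of_nonneg_right hσ1 (sq_nonneg δ)
    linarith
  have hs21 : s ^ 2 ≤ 1 := hss.trans hs1
  have hden1 : σ * δ ^ 2 * s ^ 2 ≤ δ ^ 2 := by
    calc σ * δ ^ 2 * s ^ 2 ≤ δ ^ 2 * 1 := mul_le_mul hσδ hs21 (by positivity) (by positivity)
      _ = δ ^ 2 := mul_one _
  have hden2 : σ * δ ^ 2 * s ^ 2 ≤ s := by
    calc σ * δ ^ 2 * s ^ 2 ≤ 1 * s :=
          mul_le_mul (by linarith) hss (by positivity) (by norm_num)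
      _ = s := one_mul _
  have hC0 : 0 ≤ C₂ + 1000000 := by linarith
  obtain ⟨B, hB⟩ : ∃ B : ℝ, B = (C₂ + 1000000) * e / (σ * δ ^ 2 * s ^ 2) := ⟨_, rfl⟩
  rw [← hB]
  have hB1 : e ≤ B := by
    have := ks_le (A := 1) hC0 (by linarith) he.le hd0 (hden1.trans (hδδ.trans hδ1))
    rw [hB]
    simpa using this
  have hB2 : 1000000 * e / δ ^ 2 ≤ B := by
    rw [hB]
    exact ks_le hC0 (by linarith) he.le hd0 hden1
  have hB3 : 1000000 * e / δ ≤ B := by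
    rw [hB]
    exact ks_le hC0 (by linarith) he.le hd0 (hden1.trans hδδ)
  have hB4 : 1000000 * e / s ≤ B := by
    rw [hB]
    exact ks_le hC0 (by linarith) he.le hd0 hden2
  have hB5 : C₂ * e / (σ * δ * s ^ 2) ≤ B := by
    rw [hB]
    refine ks_le hC0 (by linarith) he.le hd0 ?_
    refine mul_le_mul_of_nonneg_right ?_ (by positivity)
    exact mul_le_mul_of_nonneg_left hδδ hσ.le
  -- Cauchy estimates
  have c1 := hb.cauchy1 hy (show δ / 512 < δ / 256 by linarith)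
  have c11 := c1.cauchy1 (hy.hol_p1.mono (by linarith) le_rfl)
    (show δ / 2048 < δ / 512 by linarith)
  have c2 := hb.cauchy2 hy (show s / 2048 < 5 / 8 * s by linarith)
  have e1 : e / (δ / 256 - δ / 512) ≤ B := by
    refine le_trans ?_ hB3
    rw [div_le_div_iff₀ (by linarith) hδ]
    nlinarith
  have e2 : e / (5 / 8 * s - s / 2048) ≤ B := by
    refine le_trans ?_ hB4
    rw [div_le_div_iff₀ (by linarith) hs]
    nlinarith
  have e11 : e / (δ / 256 - δ / 512) / (δ / 512 - δ / 2048) ≤ B := by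
    refine le_trans ?_ hB2
    rw [div_div, div_le_div_iff₀ (mul_pos (by linarith) (by linarith)) (by positivity)]
    have h3 : (δ / 256 - δ / 512) * (δ / 512 - δ / 2048) = 3 / 1048576 * δ ^ 2 := by ring
    rw [h3]
    nlinarith [mul_pos he (pow_pos hδ 2)]
  have hXh : ∀ θ t : ℂ, |θ.im| < 2 * (δ / 4096) → t ∈ UU (2 * (s / 4096)) →
      |θ.im| < 2 * δ ∧ t ∈ UU (2 * s) ∧ |θ.im| < δ / 256 ∧ t ∈ UU (5 / 8 * s) ∧
      |θ.im| < δ / 512 ∧ |θ.im| < δ / 2048 ∧ t ∈ UU (s / 2048) := by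
    intro θ t hθ ht
    exact ⟨by linarith, UU_mono (by linarith) ht, by linarith, UU_mono (by linarith) ht,
      by linarith, by linarith, UU_mono (by linarith) ht⟩
  have hp1 : ∀ θ t : ℂ, |θ.im| < 2 * (δ / 4096) → t ∈ UU (2 * (s / 4096)) →
      p1 (fun θ t => X θ t + y θ t) θ t = p1 X θ t + p1 y θ t := by
    intro θ t hθ ht
    obtain ⟨a1, a2, a3, a4, -⟩ := hXh θ t hθ ht
    exact ((hX.hol.hasDerivAt1 a1 a2).add (hy.hasDerivAt1 a3 a4)).deriv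
  refine ⟨?_, ?_, ?_, ?_, ?_, ?_, ?_, ?_⟩
  · intro θ t
    show X (θ + 1) t + y (θ + 1) t = X θ t + y θ t + 1
    rw [hX.per, hyP]
    ring
  · intro θ t
    show X (starRingEnd ℂ θ) (starRingEnd ℂ t) + y (starRingEnd ℂ θ) (starRingEnd ℂ t) =
      starRingEnd ℂ (X θ t + y θ t)
    rw [hX.real, hyR, map_add]
  · exact (hX.hol.mono (by linarith) (by linarith)).add (hy.mono (by linarith) (by linarith))
  · intro θ t hθ ht
    obtain ⟨a1, a2, a3, a4, -⟩ := hXh θ t hθ ht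
    have h1 : X θ t + y θ t - θ = (X θ t - θ) + y θ t := by ring
    show ‖X θ t + y θ t - θ‖ ≤ b + B
    rw [h1]
    exact (norm_add_le _ _).trans (add_le_add (hX.b0 θ t a1 a2) ((hb θ t a3 a4).trans hB1))
  · intro θ t hθ ht
    obtain ⟨a1, a2, a3, a4, a5, -⟩ := hXh θ t hθ ht
    show ‖p1 (fun θ t => X θ t + y θ t) θ t - 1‖ ≤ b + B
    rw [hp1 θ t hθ ht]
    have h1 : p1 X θ t + p1 y θ t - 1 = (p1 X θ t - 1) + p1 y θ t := by ring
    rw [h1]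
    exact (norm_add_le _ _).trans (add_le_add (hX.b1 θ t a1 a2) ((c1 θ t a5 a4).trans e1))
  · intro θ t hθ ht
    obtain ⟨a1, a2, a3, a4, a5, a6, a7⟩ := hXh θ t hθ ht
    have h1 : p2 (fun θ t => X θ t + y θ t) θ t = p2 X θ t + p2 y θ t :=
      ((hX.hol.hasDerivAt2 a1 a2).add (hy.hasDerivAt2 a3 a4)).deriv
    show ‖p2 (fun θ t => X θ t + y θ t) θ t‖ ≤ b + B
    rw [h1]
    exact (norm_add_le _ _).trans (add_le_add (hX.b2 θ t a1 a2) ((c2 θ t a3 a7).trans e2))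
  · intro θ t hθ ht
    obtain ⟨a1, a2, a3, a4, a5, a6, a7⟩ := hXh θ t hθ ht
    have h1 : p1 (p1 (fun θ t => X θ t + y θ t)) θ t = p1 (p1 X) θ t + p1 (p1 y) θ t := by
      have h2 := (hX.hol.hol_p1.hasDerivAt1 a1 a2).add (hy.hol_p1.hasDerivAt1 a3 a4)
      refine (h2.congr_of_eventuallyEq ?_).deriv
      have h3 : IsOpen {z : ℂ | |z.im| < 2 * (δ / 4096)} :=
        isOpen_lt (continuous_abs.comp Complex.continuous_im) continuous_const
      filter_upwards [h3.mem_nhds hθ] with z hz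
      exact hp1 z t hz ht
    show ‖p1 (p1 (fun θ t => X θ t + y θ t)) θ t‖ ≤ b + B
    rw [h1]
    exact (norm_add_le _ _).trans (add_le_add (hX.b11 θ t a1 a2) ((c11 θ t a6 a4).trans e11))
  · intro t ht
    have h1 := hX.tau t (UU_mono (by linarith) ht)
    have h2 := hT hp hl hX hy he he1 hb t (UU_mono (by linarith) ht)
    have h3 : ta r lam (fun θ t => X θ t + y θ t) t - 2 =
        (ta r lam (fun θ t => X θ t + y θ t) t - ta r lam X t) + (ta r lam X t - 2) := by ring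
    rw [h3]
    refine (norm_add_le _ _).trans ?_
    linarith

theorem step : ∃ C : ℝ, 1 ≤ C ∧ ∀ {σ M r b δ s ε ζ : ℝ} {lam X w : ℂ → ℂ → ℂ},
    Par σ M r b δ s → LD σ M r lam → St r lam X b δ s → (∀ δ' : ℝ, Hol δ' s w) → Per w →
    RSym w → 0 < ε → 0 ≤ ζ → Bd δ s ε (Er r lam X) → Bd (δ / 16) s ζ (Zf r lam X w) →
    C * (ε + ζ) ≤ σ * (δ * s) ^ 9 →
    ∃ y : ℂ → ℂ → ℂ, Per y ∧ RSym y ∧
      Hol (2 * (δ / 4096)) (2 * (s / 4096)) y ∧
      Bd (2 * (δ / 4096)) (2 * (s / 4096)) (C * (ε + ζ) / (σ * (δ * s) ^ 9)) y ∧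
      St r lam (fun θ t => X θ t + y θ t) (b + C * (ε + ζ) / (σ * (δ * s) ^ 9)) (δ / 4096)
        (s / 4096) ∧
      Bd (δ / 4096) (s / 4096) (C * (ζ + (ε + ζ) ^ 2) / (σ ^ 2 * (δ * s) ^ 9))
        (Er r lam fun θ t => X θ t + y θ t) ∧
      ∀ θ t : ℝ, |t| ≤ 1 / 4 → ‖Jf r lam X θ t - ta r lam X t‖ ≤
        C * (ε + ζ) / (σ * (δ * s) ^ 9) := by
  obtain ⟨C₀, hC₀, hG⟩ := geo_step
  obtain ⟨C₁, hC₁, hY⟩ := bd_yf
  obtain ⟨C₂, hC₂, hK⟩ := bd_Kf'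
  obtain ⟨C₃, hC₃, hN⟩ := new_error_bd
  obtain ⟨C₄, hC₄, hQ⟩ := quad_bd
  have hC01 : 0 ≤ C₀ * C₁ := mul_nonneg (by linarith) (by linarith)
  have hC41 : 0 ≤ C₄ * C₁ ^ 2 := mul_nonneg (by linarith) (sq_nonneg _)
  obtain ⟨C, hCdef⟩ : ∃ C : ℝ, C = C₀ * C₁ + 16000 * C₁ + 2 * C₂ + C₃ + C₄ * C₁ ^ 2 := ⟨_, rfl⟩
  refine ⟨C, by linarith, ?_⟩
  intro σ M r b δ s ε ζ lam X w hp hl hX hw hwP hwR hε hζ hE hZ hCb
  have hs := hp.s_pos
  have hδ := hp.δ_pos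
  have hσ := hp.σ_pos
  have hσ1 := hp.σ_le
  have hs1 : s ≤ 1 := hp.s_le.trans (by norm_num)
  have hδ1 : δ ≤ 1 := by
    have h1 := hp.δ_le
    linarith
  have hC0 : 0 ≤ C := by linarith
  have hq : 0 < ε + ζ := by linarith
  have hN0 : 0 < (δ * s) ^ 9 := by positivity
  have hσN : σ * (δ * s) ^ 9 ≤ (δ * s) ^ 9 := by
    have := mul_le_mul_of_nonneg_right hσ1 hN0.le
    linarith
  have hσN0 : 0 < σ * (δ * s) ^ 9 := by positivity
  obtain ⟨e, he⟩ : ∃ e : ℝ, e = C₁ * (ε + ζ) / (s ^ 2 * δ ^ 3) := ⟨_, rfl⟩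
  have he0 : 0 < e := by
    rw [he]
    have : 0 < C₁ := by linarith
    positivity
  have h16 : 16000 * e ≤ σ * δ := by
    rw [he, mul_div_assoc', div_le_iff₀ (by positivity)]
    have h1 : 16000 * (C₁ * (ε + ζ)) ≤ C * (ε + ζ) := by
      have : 16000 * C₁ * (ε + ζ) ≤ C * (ε + ζ) :=
        mul_le_mul_of_nonneg_right (by linarith) hq.le
      linarith
    have h2 : σ * (δ * s) ^ 9 ≤ σ * δ * (s ^ 2 * δ ^ 3) := by
      have h3 := ks_pow hδ hδ1 hs hs1 (m := 4) (n := 2) (by norm_num) (by norm_num)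
      have h4 := mul_le_mul_of_nonneg_left h3 hσ.le
      calc σ * (δ * s) ^ 9 ≤ σ * (δ ^ 4 * s ^ 2) := h4
        _ = σ * δ * (s ^ 2 * δ ^ 3) := by ring
    linarith
  obtain ⟨hyH, -, hyP, hyR⟩ := hol_yf hp hl hX hw hwP hwR
  have hyB := (hY hp hl hX hw hwP hwR hε.le hζ hE hZ).1
  rw [← he] at hyB
  have hyH' : Hol (δ / 256) (5 / 8 * s) (yf r lam X w) :=
    hyH.mono (by linarith) (by linarith)
  have hSt := hG hp hl hX hyH' he0 h16 hyB hyP hyR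
  refine ⟨yf r lam X w, hyP, hyR, hyH.mono (by linarith) (by linarith), ?_, ?_, ?_, ?_⟩
  · refine hyB.mono (by linarith) (by linarith) ?_
    rw [he]
    refine ks_le hC0 (by linarith) hq.le hσN0 (hσN.trans ?_)
    have h3 := ks_pow hδ hδ1 hs hs1 (m := 3) (n := 2) (by norm_num) (by norm_num)
    linarith [mul_comm (δ ^ 3) (s ^ 2)]
  · refine ks_mono hSt ?_
    have h1 : C₀ * e / (σ * δ ^ 2 * s ^ 2) = C₀ * C₁ * (ε + ζ) / (σ * (δ ^ 5 * s ^ 4)) := by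
      rw [he, mul_div_assoc', div_div]
      congr 1 <;> ring
    rw [h1]
    have h3 := ks_pow hδ hδ1 hs hs1 (m := 5) (n := 4) (by norm_num) (by norm_num)
    have h4 := ks_le (A := C₀ * C₁) hC0 (by linarith) hq.le hσN0
      (mul_le_mul_of_nonneg_left h3 hσ.le)
    linarith
  · intro θ t hθ ht
    have hz : 0 ≤ ζ + (ε + ζ) ^ 2 := by positivity
    have k1 := hN hp hl hX hw hwP hwR hε.le hζ hE hZ θ t (by linarith)
      (UU_mono (by linarith) ht)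
    have k2 := hQ hp hl hX hyH' he0 h16 hyB θ t (by linarith) (UU_mono (by linarith) ht)
    have k3 : Er r lam (fun θ t => X θ t + yf r lam X w θ t) θ t =
        (Er r lam X θ t + Lin r lam X (yf r lam X w) θ t) +
        (Er r lam (fun θ t => X θ t + yf r lam X w θ t) θ t - Er r lam X θ t -
          Lin r lam X (yf r lam X w) θ t) := by ring
    have hd : 0 < σ ^ 2 * (δ * s) ^ 9 := by positivity
    have hσ2 : σ ^ 2 * (δ * s) ^ 9 ≤ (δ * s) ^ 9 := by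
      have h5 : σ ^ 2 ≤ 1 := by nlinarith
      have := mul_le_mul_of_nonneg_right h5 hN0.le
      linarith
    have k4 : C₃ * (ζ + (ε + ζ) ^ 2) / (s ^ 3 * δ ^ 7) ≤
        C₃ * (ζ + (ε + ζ) ^ 2) / (σ ^ 2 * (δ * s) ^ 9) := by
      refine ks_le (by linarith) le_rfl hz hd (hσ2.trans ?_)
      have h3 := ks_pow hδ hδ1 hs hs1 (m := 7) (n := 3) (by norm_num) (by norm_num)
      linarith [mul_comm (δ ^ 7) (s ^ 3)]
    have k5 : C₄ * e ^ 2 / (σ ^ 2 * δ ^ 3) ≤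
        C₄ * C₁ ^ 2 * (ζ + (ε + ζ) ^ 2) / (σ ^ 2 * (δ * s) ^ 9) := by
      have h5 : C₄ * e ^ 2 / (σ ^ 2 * δ ^ 3) =
          C₄ * C₁ ^ 2 * (ε + ζ) ^ 2 / (σ ^ 2 * (δ ^ 9 * s ^ 4)) := by
        rw [he, div_pow, mul_div_assoc', div_div]
        congr 1 <;> ring
      rw [h5]
      have h3 := ks_pow hδ hδ1 hs hs1 (m := 9) (n := 4) (by norm_num) (by norm_num)
      have h6 : C₄ * C₁ ^ 2 * (ε + ζ) ^ 2 / (σ ^ 2 * (δ ^ 9 * s ^ 4)) ≤
          C₄ * C₁ ^ 2 * (ζ + (ε + ζ) ^ 2) / (σ ^ 2 * (δ ^ 9 * s ^ 4)) :=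
        div_le_div_of_nonneg_right
          (mul_le_mul_of_nonneg_left (by linarith) hC41) (by positivity)
      exact h6.trans (ks_le hC41 le_rfl hz hd (mul_le_mul_of_nonneg_left h3 (sq_nonneg σ)))
    rw [k3]
    refine (norm_add_le _ _).trans ((add_le_add (k1.trans k4) (k2.trans k5)).trans ?_)
    rw [← add_div, ← add_mul]
    exact div_le_div_of_nonneg_right (mul_le_mul_of_nonneg_right (by linarith) hz) hd.le
  · intro θ t ht
    have hθ0 : |(θ : ℂ).im| = 0 := by simp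
    have htU : (t : ℂ) ∈ UU (5 / 8 * s) :=
      ofReal_mem_UU (by linarith) (by linarith)
    have k1 := J3 hp hl hX hw (θ := (θ : ℂ)) (t := (t : ℂ)) (by rw [hθ0]; linarith)
      (UU_mono (by linarith) htU)
    obtain ⟨k2, k3⟩ := hK hp hl hX hw hwP hwR hε.le hζ hE hZ
    have k4 := k2 (θ : ℂ) (t : ℂ) (by rw [hθ0]; linarith) htU
    have k5 := k3 (θ : ℂ) (t : ℂ) (by rw [hθ0]; linarith) htU
    have k6 : Jf r lam X θ t - ta r lam X t =
        p1 (Kf r lam X w) θ t - p2 (Hf r lam X w) θ t := by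
      rw [k1]
      ring
    rw [k6]
    refine (norm_sub_le _ _).trans ((add_le_add k4 k5).trans ?_)
    have h3 := ks_pow hδ hδ1 hs hs1 (m := 4) (n := 2) (by norm_num) (by norm_num)
    have h4 := ks_le (A := 2 * C₂) hC0 (by linarith) hq.le hσN0
      (d' := s ^ 2 * δ ^ 4) (hσN.trans (by linarith [mul_comm (δ ^ 4) (s ^ 2)]))
    refine le_trans (le_of_eq ?_) h4
    ring

end Pool.Agent.NOne
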