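import Pool.Agent.NOne.KHb

/-!
# MP_74f563_an, n = 1, file KY: the correction `y`

`v = vf = (H u - (K - avg K)) / τ`, `y = yf = (H X_t - (K - avg K) X_θ) / τ = X_θ v`.

PROOFS.  `yf_eq`: `u = X_t / X_θ`, `X_θ ≠ 0` (`p1_X_bounds`).  `hol_yf`: `hol_Hf`, `hol_Kf`, `avg_hol`,
`hol_uf`, `hol_ta`, `ta_bounds` (`τ ≠ 0` on `UU s`), all on `Om δ s`.  Periodicity and reality are
global: `per_p1_X`, `per_p2_X`, `rsym_p1`, `rsym_p2`, `avg_real`, `hol_ta`.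
`bd_yf`: `|H| ≤ C (ε + ζ) / (s δ²) ≤ C (ε + ζ) / (s² δ³)`, `|u| ≤ 1/4`, `|τ| ≥ 1`, `|X_θ| ≤ 9/8`, `bd_Kf`.
-/

set_option autoImplicit false

namespace Pool.Agent.NOne

open Complex Set MeasureTheory

theorem yf_eq {σ M r b δ s : ℝ} {lam X w : ℂ → ℂ → ℂ} {θ t : ℂ} (hp : Par σ M r b δ s)
    (hX : St r lam X b δ s) (hθ : |θ.im| < 2 * δ) (ht : t ∈ UU (2 * s)) :
    yf r lam X w θ t = p1 X θ t * vf r lam X w θ t := by
  have h0 := (p1_X_bounds hp hX hθ ht).2.2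
  have h1 : p1 X θ t * (Hf r lam X w θ t * (p2 X θ t / p1 X θ t) -
      (Kf r lam X w θ t - avg (Kf r lam X w) t)) =
      Hf r lam X w θ t * p2 X θ t - (Kf r lam X w θ t - avg (Kf r lam X w) t) * p1 X θ t := by
    field_simp
  unfold yf vf uf
  rw [mul_div_assoc', h1]

theorem hol_yf {σ M r b δ s : ℝ} {lam X w : ℂ → ℂ → ℂ} (hp : Par σ M r b δ s)
    (hl : LD σ M r lam) (hX : St r lam X b δ s) (hw : ∀ δ' : ℝ, Hol δ' s w) (hwP : Per w)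
    (hwR : RSym w) : Hol δ s (yf r lam X w) ∧ Hol δ s (vf r lam X w) ∧ Per (yf r lam X w) ∧
      RSym (yf r lam X w) := by
  have hs := hp.s_pos
  have hδ := hp.δ_pos
  obtain ⟨hH1, hH2, hH3⟩ := hol_Hf hp hl hX hw hwP hwR
  obtain ⟨hK1, hK2, hK3⟩ := hol_Kf hp hl hX hw hwP hwR
  have hx1 : Hol δ s (p1 X) := hX.hol.hol_p1.mono (by linarith) (by linarith)
  have hx2 : Hol δ s (p2 X) := hX.hol.hol_p2.mono (by linarith) (by linarith)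
  have hu : Hol δ s (uf X) := (hol_uf hp hX).1.mono (by linarith) (by linarith)
  obtain ⟨-, hτ1, -, hτ2⟩ := hol_ta hp hl hX
  have hτ : Hol δ s fun _ t => ta r lam X t :=
    hol_of_UU (hτ1.mono (UU_mono (by linarith)))
  have hK4 : Hol δ s fun θ t => Kf r lam X w θ t - avg (Kf r lam X w) t :=
    hK1.sub (hol_of_UU (avg_hol hK1 hδ))
  have hP1 := per_p1_X hX
  have hP2 := per_p2_X hX
  have hR1 := rsym_p1 hX.real
  have hR2 := rsym_p2 hX.real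
  refine ⟨?_, ?_, ?_, ?_⟩
  · exact ((hH1.mul hx2).sub (hK4.mul hx1)).div hτ fun θ t _ ht => (ta_bounds hp hX ht).2.1
  · exact ((hH1.mul hu).sub hK4).div hτ fun θ t _ ht => (ta_bounds hp hX ht).2.1
  · intro θ t
    unfold yf
    rw [hH2 θ t, hK2 θ t, hP1 θ t, hP2 θ t]
  · intro θ t
    unfold yf
    rw [hH3 θ t, hK3 θ t, hR1 θ t, hR2 θ t, avg_real hK3 t, hτ2 t]
    simp only [map_div₀, map_sub, map_mul]

theorem bd_yf : ∃ C : ℝ, 1 ≤ C ∧ ∀ {σ M r b δ s ε ζ : ℝ} {lam X w : ℂ → ℂ → ℂ},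
    Par σ M r b δ s → LD σ M r lam → St r lam X b δ s → (∀ δ' : ℝ, Hol δ' s w) → Per w →
    RSym w → 0 ≤ ε → 0 ≤ ζ → Bd δ s ε (Er r lam X) → Bd (δ / 16) s ζ (Zf r lam X w) →
    Bd (δ / 256) (5 / 8 * s) (C * (ε + ζ) / (s ^ 2 * δ ^ 3)) (yf r lam X w) ∧
    Bd (δ / 256) (5 / 8 * s) (C * (ε + ζ) / (s ^ 2 * δ ^ 3)) (vf r lam X w) := by
  obtain ⟨C₁, hC₁, hH⟩ := bd_Hf
  obtain ⟨C₂, hC₂, hK⟩ := bd_Kf
  refine ⟨C₁ + 2 * C₂, by linarith, ?_⟩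
  intro σ M r b δ s ε ζ lam X w hp hl hX hw hwP hwR hε hζ hE hZ
  have hs := hp.s_pos
  have hδ := hp.δ_pos
  have hs1 : s ≤ 1 := hp.s_le.trans (by norm_num)
  have hδ1 : δ ≤ 1 := by
    have h1 := hp.δ_le
    have h2 := hp.σ_le
    linarith
  have h1 := hH hp hl hX hw hwP hwR hε hζ hE hZ
  have h2 := hK hp hl hX hw hwP hwR hε hζ hE hZ
  obtain ⟨Q, hQ⟩ : ∃ Q : ℝ, Q = (ε + ζ) / (s ^ 2 * δ ^ 3) := ⟨_, rfl⟩
  have hQ0 : 0 ≤ Q := by rw [hQ]; positivity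
  have hQ1 : C₁ * (ε + ζ) / (s * δ ^ 2) ≤ C₁ * Q := by
    rw [hQ, mul_div_assoc]
    refine mul_le_mul_of_nonneg_left ?_ (by linarith)
    refine div_le_div_of_nonneg_left (by positivity) (by positivity) ?_
    calc s ^ 2 * δ ^ 3 = (s * δ) * (s * δ ^ 2) := by ring
      _ ≤ 1 * (s * δ ^ 2) := by
          refine mul_le_mul_of_nonneg_right ?_ (by positivity)
          calc s * δ ≤ 1 * 1 := mul_le_mul hs1 hδ1 hδ.le (by norm_num)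
            _ = 1 := one_mul 1
      _ = s * δ ^ 2 := one_mul _
  have hQ2 : C₂ * (ε + ζ) / (s ^ 2 * δ ^ 3) = C₂ * Q := by
    rw [hQ, mul_div_assoc]
  have hQ3 : (C₁ + 2 * C₂) * (ε + ζ) / (s ^ 2 * δ ^ 3) = (C₁ + 2 * C₂) * Q := by
    rw [hQ, mul_div_assoc]
  have hC1Q : 0 ≤ C₁ * Q := mul_nonneg (by linarith) hQ0
  have hC2Q : 0 ≤ C₂ * Q := mul_nonneg (by linarith) hQ0
  rw [hQ3]
  have key : ∀ θ t : ℂ, |θ.im| < δ / 256 → t ∈ UU (5 / 8 * s) →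
      ‖Hf r lam X w θ t‖ ≤ C₁ * Q ∧
      ‖Kf r lam X w θ t - avg (Kf r lam X w) t‖ ≤ C₂ * Q ∧ 1 ≤ ‖ta r lam X t‖ ∧
      ‖p1 X θ t‖ ≤ 9 / 8 ∧ ‖p2 X θ t‖ ≤ 1 / 8 ∧ ‖uf X θ t‖ ≤ 1 / 4 := by
    intro θ t hθ ht
    have ht1 : t ∈ UU (7 / 8 * s) := UU_mono (by linarith) ht
    have ht2 : t ∈ UU s := UU_mono (by linarith) ht
    have ht3 : t ∈ UU (2 * s) := UU_mono (by linarith) ht
    have hθ1 : |θ.im| < δ / 64 := by linarith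
    have hθ2 : |θ.im| < 2 * δ := by linarith
    exact ⟨(h1 θ t hθ1 ht1).trans hQ1, (h2 θ t hθ ht).trans hQ2.le, (ta_bounds hp hX ht2).1,
      (p1_X_bounds hp hX hθ2 ht3).1, p2_X_bound hp hX hθ2 ht3, (hol_uf hp hX).2 θ t hθ2 ht3⟩
  constructor
  · intro θ t hθ ht
    obtain ⟨k1, k2, k3, k4, k5, -⟩ := key θ t hθ ht
    unfold yf
    rw [norm_div]
    refine (div_le_self (norm_nonneg _) k3).trans ((norm_sub_le _ _).trans ?_)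
    rw [norm_mul, norm_mul]
    have e1 : ‖Hf r lam X w θ t‖ * ‖p2 X θ t‖ ≤ C₁ * Q * (1 / 8) :=
      mul_le_mul k1 k5 (norm_nonneg _) hC1Q
    have e2 : ‖Kf r lam X w θ t - avg (Kf r lam X w) t‖ * ‖p1 X θ t‖ ≤ C₂ * Q * (9 / 8) :=
      mul_le_mul k2 k4 (norm_nonneg _) hC2Q
    linarith
  · intro θ t hθ ht
    obtain ⟨k1, k2, k3, -, -, k6⟩ := key θ t hθ ht
    unfold vf
    rw [norm_div]
    refine (div_le_self (norm_nonneg _) k3).trans ((norm_sub_le _ _).trans ?_)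
    rw [norm_mul]
    have e1 : ‖Hf r lam X w θ t‖ * ‖uf X θ t‖ ≤ C₁ * Q * (1 / 4) :=
      mul_le_mul k1 k6 (norm_nonneg _) hC1Q
    linarith

end Pool.Agent.NOne
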